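import Pool.Agent.Lib.MP_abb58c_co.CaseFinal

/-! MP_abb58c_co: the final statement, from the twelve points and the four roots. -/

namespace Pool.Agent.MP_abb58c_co

open Roots

/-- The final statement: `s(11)` is the side of Trump's packing, it is attained. -/
def Statement : Prop :=
  ∃ t : ℝ, (0.3657693 < t ∧ t < 0.3657694 ∧
      5*t^8 - 10*t^7 - 2*t^6 + 14*t^5 + 12*t^4 - 6*t^3 + 2*t^2 + 2*t - 1 = 0) ∧
    (∀ t' : ℝ, 0.3657693 < t' → t' < 0.3657694 →
      5*t'^8 - 10*t'^7 - 2*t'^6 + 14*t'^5 + 12*t'^4 - 6*t'^3 + 2*t'^2 + 2*t' - 1 = 0 → t' = t) ∧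
    minSide 11 = (6*t + 4) / (1 + 2*t - t^2) ∧
    IsLeast {s | Packable 11 s} (minSide 11) ∧
    3.8770835900 < minSide 11 ∧ minSide 11 < 3.8770835901

theorem statement_of_optimal (h : Optimal) : Statement := by
  obtain ⟨⟨T, -⟩, huniq, hb, -⟩ := specExist specSat
  have hm : minSide 11 = T.L := h.minSide_eq T
  refine ⟨T.t, ⟨T.ht0, T.ht1, T.oct⟩, fun t' h0 h1 h2 => ?_, ?_, ?_, ?_, ?_⟩
  · exact (huniq ⟨t', (1 - t' ^ 2) / (1 + t' ^ 2), 2 * t' / (1 + t' ^ 2),
      (6 * t' + 4) / (1 + 2 * t' - t' ^ 2), _, _, h0, h1, h2, rfl, rfl, rfl, rfl, rfl⟩ T).1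
  · rw [hm]; exact T.hL
  · rw [hm]; exact h.isLeast T
  · rw [hm]; exact (hb T).1
  · rw [hm]; exact (hb T).2.1

/-- the final statement from the two computational parts -/
theorem statement_of_roots (hun : Unavoid) (hE : GoodC R_edge) (hC : GoodC R_corner)
    (hI : GoodC R_inner) (hP : GoodC R_pair) : Statement :=
  statement_of_optimal (optimal_of_roots hun hE hC hI hP)

end Pool.Agent.MP_abb58c_co
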