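import Pool.Agent.Lib.MP_abb58c_co.Node

/-! MP_abb58c_co, CASE: the twelve points and the four root nodes as explicit constants.
See `/team-store/MP_abb58c_DESIGN2.md`.

Points: `O 0 .. O 3` (edges), `O 4 .. O 7` (corners), `I 0 .. I 3`; the rotation about the centre
maps `O j -> O (j+1)` (within each group of four) and `I j -> I (j+1)`. -/

namespace Pool.Agent.MP_abb58c_co

namespace Roots

def O0 : ℕ × ℕ := (193855, 79827)
def O1 : ℕ × ℕ := (307883, 193855)
def O2 : ℕ × ℕ := (193855, 307883)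
def O3 : ℕ × ℕ := (79827, 193855)
def O4 : ℕ × ℕ := (289723, 289723)
def O5 : ℕ × ℕ := (97987, 289723)
def O6 : ℕ × ℕ := (97987, 97987)
def O7 : ℕ × ℕ := (289723, 97987)
def I0 : ℕ × ℕ := (229528, 165628)
def I1 : ℕ × ℕ := (222082, 229528)
def I2 : ℕ × ℕ := (158182, 222082)
def I3 : ℕ × ℕ := (165628, 158182)
def J0 : ℕ × ℕ := (165628, 229528)
def J1 : ℕ × ℕ := (229528, 222082)
def J2 : ℕ × ℕ := (222082, 158182)
def J3 : ℕ × ℕ := (158182, 165628)

/-- the twelve points `O ∪ I` -/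
def P12 : List (ℕ × ℕ) := [O0, O1, O2, O3, O4, O5, O6, O7, I0, I1, I2, I3]

/-- the whole container, all directions of the first quadrant -/
def full : Box := ⟨0, 387710, 0, 387710, 0, 900⟩

/-- label containing the points `C` and avoiding `A` -/
def lb (C A : List (ℕ × ℕ)) : Lbl := ⟨C, A, [full]⟩

/-- leftover point `O0` -/
def R_edge : Node :=
  [lb [O1] [], lb [O2] [], lb [O3] [], lb [O4] [], lb [O5] [], lb [O6] [], lb [O7] [],
   lb [I0] [], lb [I1] [], lb [I2] [], lb [I3] []]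

/-- leftover point `O4` -/
def R_corner : Node :=
  [lb [O0] [], lb [O1] [], lb [O2] [], lb [O3] [], lb [O5] [], lb [O6] [], lb [O7] [],
   lb [I0] [], lb [I1] [], lb [I2] [], lb [I3] []]

/-- leftover point `I0`, which lies in no square except possibly the one of label `I2` -/
def R_inner : Node :=
  [lb [O0] [I0], lb [O1] [I0], lb [O2] [I0], lb [O3] [I0],
   lb [O4] [I0], lb [O5] [I0], lb [O6] [I0], lb [O7] [I0],
   lb [I1] [I0], lb [I2] [], lb [I3] [I0]]

/-- the last square contains `I1` and `I0` -/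
def R_pair : Node :=
  [lb [O0] [], lb [O1] [], lb [O2] [], lb [O3] [],
   lb [O4] [], lb [O5] [], lb [O6] [], lb [O7] [],
   lb [I2] [], lb [I3] [], lb [I1, I0] []]

/-- the main class: `8 = (I2, J0)`, `9 = (I3, J3)`, `10 = Q0 ∋ I0, I1, J1, J2`; the directions of
`Q0` are between `dir k0` and `dir k1` -/
def RA (k0 k1 : ℕ) : Node :=
  [lb [O0] [], lb [O1] [], lb [O2] [], lb [O3] [],
   lb [O4] [], lb [O5] [], lb [O6] [], lb [O7] [],
   lb [I2, J0] [], lb [I3, J3] [],
   ⟨[I1, I0, J1, J2], [], [⟨0, 387710, 0, 387710, k0, k1⟩]⟩]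

end Roots

end Pool.Agent.MP_abb58c_co
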