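import Pool.Agent.Lib.MP_abb58c_co.SweepArith

/-! MP_abb58c_co, SWEEP, module P1: guard bits. -/

namespace Pool.Agent.MP_abb58c_co

namespace Sweep

namespace Guard

open Finset

theorem rep_eq (W n : ℕ) (hW : 1 ≤ W) : rep W n = ∑ i ∈ range n, 2 ^ (W * i) := by
  have hB : 2 ≤ 2 ^ W := by
    calc 2 = 2 ^ 1 := by norm_num
      _ ≤ 2 ^ W := Nat.pow_le_pow_right (by norm_num) hW
  unfold rep
  rw [pow_mul, ← Nat.geomSum_eq hB n]
  exact Finset.sum_congr rfl fun i _ => (pow_mul 2 W i).symm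

theorem low_lt (W : ℕ) (f : ℕ → ℕ) (hf : ∀ i, f i < 2 ^ W) (j : ℕ) :
    ∑ i ∈ range j, f i * 2 ^ (W * i) < 2 ^ (W * j) := by
  induction j with
  | zero => simp
  | succ j ih =>
    rw [Finset.sum_range_succ]
    have h1 : f j * 2 ^ (W * j) + 2 ^ (W * j) ≤ 2 ^ (W * (j + 1)) := by
      have h2 : (f j + 1) * 2 ^ (W * j) ≤ 2 ^ W * 2 ^ (W * j) := Nat.mul_le_mul_right _ (hf j)
      calc f j * 2 ^ (W * j) + 2 ^ (W * j) = (f j + 1) * 2 ^ (W * j) := by ring
        _ ≤ 2 ^ W * 2 ^ (W * j) := h2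
        _ = 2 ^ (W * (j + 1)) := by rw [← pow_add]; congr 1; ring
    omega

theorem split (W : ℕ) (f : ℕ → ℕ) (j N : ℕ) (hj : j < N) :
    ∃ C, ∑ i ∈ range N, f i * 2 ^ (W * i) =
      ∑ i ∈ range j, f i * 2 ^ (W * i) + 2 ^ (W * j) * (f j + 2 ^ W * C) := by
  obtain ⟨d, rfl⟩ : ∃ d, N = j + 1 + d := ⟨N - (j + 1), by omega⟩
  refine ⟨∑ i ∈ range d, f (j + 1 + i) * 2 ^ (W * i), ?_⟩
  rw [Finset.sum_range_add, Finset.sum_range_succ, Finset.mul_sum, mul_add, Finset.mul_sum,
    add_assoc]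
  congr 1
  congr 1
  · ring
  · refine Finset.sum_congr rfl fun i _ => ?_
    have : 2 ^ (W * (j + 1 + i)) = 2 ^ (W * j) * (2 ^ W * 2 ^ (W * i)) := by
      rw [← pow_add, ← pow_add]; congr 1; ring
    rw [this]; ring

theorem digit (W : ℕ) (f : ℕ → ℕ) (hf : ∀ i, f i < 2 ^ W) (j N r : ℕ) (hj : j < N) (hr : r < W) :
    (∑ i ∈ range N, f i * 2 ^ (W * i)).testBit (W * j + r) = (f j).testBit r := by
  obtain ⟨C, hC⟩ := split W f j N hj
  have hlow := low_lt W f hf j
  have hdiv : (∑ i ∈ range N, f i * 2 ^ (W * i)) / 2 ^ (W * j) = f j + 2 ^ W * C := by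
    rw [hC, Nat.add_mul_div_left _ _ (by positivity), Nat.div_eq_of_lt hlow, zero_add]
  have hmod : (∑ i ∈ range N, f i * 2 ^ (W * i)) / 2 ^ (W * j) % 2 ^ W = f j := by
    rw [hdiv, Nat.add_mul_mod_self_left, Nat.mod_eq_of_lt (hf j)]
  have h1 : (∑ i ∈ range N, f i * 2 ^ (W * i)).testBit (W * j + r) =
      ((∑ i ∈ range N, f i * 2 ^ (W * i)) >>> (W * j)).testBit r := by
    rw [Nat.testBit_shiftRight]
  rw [h1, Nat.shiftRight_eq_div_pow]
  have h2 := Nat.testBit_mod_two_pow
    ((∑ i ∈ range N, f i * 2 ^ (W * i)) / 2 ^ (W * j)) W r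
  rw [hmod] at h2
  rw [h2]
  simp [hr]

/-- weight over bin `j` -/
def binW (len : ℕ) (act : List (ℕ × ℕ)) (j : ℕ) : ℕ :=
  (act.map fun p => if p.1 ≤ j ∧ j < p.1 + len then p.2 else 0).sum

theorem binW_le (len : ℕ) (act : List (ℕ × ℕ)) (j : ℕ) :
    binW len act j ≤ (act.map fun p => p.2).sum := by
  induction act with
  | nil => simp [binW]
  | cons p t ih =>
    simp only [binW, List.map_cons, List.sum_cons] at ih ⊢
    refine Nat.add_le_add ?_ ih
    split_ifs <;> simp

theorem one_eq (W len q w N : ℕ) (hW : 1 ≤ W) (hN : q + len ≤ N) :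
    (w * rep W len) <<< (W * q) =
      ∑ i ∈ range N, (if q ≤ i ∧ i < q + len then w else 0) * 2 ^ (W * i) := by
  rw [Nat.shiftLeft_eq, rep_eq W len hW]
  obtain ⟨d, rfl⟩ : ∃ d, N = q + len + d := ⟨N - (q + len), by omega⟩
  rw [Finset.sum_range_add, Finset.sum_range_add]
  have h1 : ∑ i ∈ range q, (if q ≤ i ∧ i < q + len then w else 0) * 2 ^ (W * i) = 0 := by
    refine Finset.sum_eq_zero fun i hi => ?_
    rw [Finset.mem_range] at hi
    rw [if_neg (by omega), zero_mul]
  have h2 : ∑ i ∈ range d, (if q ≤ q + len + i ∧ q + len + i < q + len then w else 0) *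
      2 ^ (W * (q + len + i)) = 0 := by
    refine Finset.sum_eq_zero fun i _ => ?_
    rw [if_neg (by omega), zero_mul]
  rw [h1, h2, zero_add, add_zero, Finset.mul_sum, Finset.sum_mul]
  refine Finset.sum_congr rfl fun i hi => ?_
  rw [Finset.mem_range] at hi
  rw [if_pos (by omega), mul_add, pow_add]
  ring

theorem sum_eq (W len : ℕ) (hW : 1 ≤ W) (act : List (ℕ × ℕ)) :
    ∃ N0, ∀ N, N0 ≤ N → (act.map fun p => (p.2 * rep W len) <<< (W * p.1)).sum =
      ∑ i ∈ range N, binW len act i * 2 ^ (W * i) := by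
  induction act with
  | nil => exact ⟨0, fun N _ => by simp [binW]⟩
  | cons p t ih =>
    obtain ⟨N0, hN0⟩ := ih
    refine ⟨max N0 (p.1 + len), fun N hN => ?_⟩
    rw [List.map_cons, List.sum_cons, hN0 N (le_trans (le_max_left _ _) hN),
      one_eq W len p.1 p.2 N hW (le_trans (le_max_right _ _) hN), ← Finset.sum_add_distrib]
    refine Finset.sum_congr rfl fun i _ => ?_
    simp only [binW, List.map_cons, List.sum_cons]
    ring

theorem const_eq (W nb c N : ℕ) (hW : 1 ≤ W) (hN : nb ≤ N) :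
    c * rep W nb = ∑ i ∈ range N, (if i < nb then c else 0) * 2 ^ (W * i) := by
  have h := one_eq W nb 0 c N hW (by omega)
  simp only [mul_zero, Nat.shiftLeft_zero, zero_add, Nat.zero_le, true_and] at h
  exact h

end Guard

open Guard in
theorem specGuard : SpecGuard := by
  intro W len nb thr j0 n act hW hthr htot hn G m hG j hj0 hjn
  have hP : 2 ^ (W - 1) + 2 ^ (W - 1) = 2 ^ W := by
    obtain ⟨v, rfl⟩ : ∃ v, W = v + 1 := ⟨W - 1, by omega⟩
    rw [Nat.add_sub_cancel, pow_succ]; ring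
  have hpos : 0 < 2 ^ (W - 1) := by positivity
  obtain ⟨N0, hN0⟩ := sum_eq W len hW act
  -- the digits
  have hsum : G + (2 ^ (W - 1) - thr) * rep W nb = ∑ i ∈ Finset.range (max N0 nb),
      (binW len act i + if i < nb then 2 ^ (W - 1) - thr else 0) * 2 ^ (W * i) := by
    change (act.map fun p => (p.2 * rep W len) <<< (W * p.1)).sum + _ = _
    rw [hN0 _ (le_max_left _ _), const_eq W nb (2 ^ (W - 1) - thr) (max N0 nb) hW
      (le_max_right _ _), ← Finset.sum_add_distrib]
    exact Finset.sum_congr rfl fun i _ => by ring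
  have hdig : ∀ i, (binW len act i + if i < nb then 2 ^ (W - 1) - thr else 0) < 2 ^ W := by
    intro i
    have := binW_le len act i
    split_ifs <;> omega
  -- the bit of the mask
  have hi : W * j + (W - 1) = W * j0 + (W * (j - j0) + (W - 1)) := by
    have : W * j = W * j0 + W * (j - j0) := by rw [← mul_add]; congr 1; omega
    omega
  have hm : m.testBit (W * (j - j0) + (W - 1)) = true := by
    change ((2 ^ (W - 1) * rep W nb) >>> (W * (nb - n))).testBit (W * (j - j0) + (W - 1)) = true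
    rw [Nat.testBit_shiftRight, ← add_assoc, ← mul_add, const_eq W nb _ nb hW le_rfl,
      digit W (fun i => if i < nb then 2 ^ (W - 1) else 0) (fun i => by
        split_ifs <;> omega) _ nb (W - 1) (by omega) (by omega)]
    rw [if_pos (by omega), Nat.testBit_two_pow_self]
  have hb : (G + (2 ^ (W - 1) - thr) * rep W nb).testBit (W * j + (W - 1)) = true := by
    rw [← hG, Nat.testBit_and, Nat.testBit_shiftRight, ← hi] at hm
    exact ((Bool.and_eq_true _ _).mp hm).1
  rw [hsum, digit W _ hdig j _ (W - 1) (lt_of_lt_of_le (by omega) (le_max_right _ _))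
    (by omega)] at hb
  by_contra hlt
  rw [not_le] at hlt
  have hc : (binW len act j + if j < nb then 2 ^ (W - 1) - thr else 0) < 2 ^ (W - 1) := by
    have : binW len act j < thr := hlt
    split_ifs <;> omega
  rw [Nat.testBit_lt_two_pow hc] at hb
  exact Bool.noConfusion hb

end Sweep

end Pool.Agent.MP_abb58c_co
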