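import Pool.Agent.Lib.MP_abb58c_co.SweepLoop
import Pool.Agent.Lib.MP_abb58c_co.Guard

/-! MP_abb58c_co, SWEEP: soundness of the driver `sweepBox` (P3). -/

namespace Pool.Agent.MP_abb58c_co

namespace Sweep

theorem insertU_perm (a b : ℕ) (p : ℕ × ℕ × ℕ) :
    ∀ l : List (ℕ × ℕ × ℕ), (insertU a b p l).Perm (p :: l)
  | [] => List.Perm.refl _
  | q :: t => by
    rw [insertU]
    split_ifs
    · exact List.Perm.refl _
    · exact ((insertU_perm a b p t).cons q).trans (List.Perm.swap p q t)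

theorem sortU_perm (a b : ℕ) : ∀ l : List (ℕ × ℕ × ℕ), (sortU a b l).Perm l
  | [] => List.Perm.refl _
  | p :: t => (insertU_perm a b p _).trans ((sortU_perm a b t).cons p)

/-- sorted by the first frame coordinate -/
def SortedU (a b : ℕ) (l : List (ℕ × ℕ × ℕ)) : Prop :=
  l.Pairwise fun p q => uc a b p.1 p.2.1 ≤ uc a b q.1 q.2.1

theorem insertU_sorted (a b : ℕ) (p : ℕ × ℕ × ℕ) :
    ∀ l : List (ℕ × ℕ × ℕ), SortedU a b l → SortedU a b (insertU a b p l)
  | [], _ => List.pairwise_singleton _ _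
  | q :: t, h => by
    have h' := List.pairwise_cons.1 h
    rw [insertU]
    split_ifs with hle
    · refine List.pairwise_cons.2 ⟨?_, h⟩
      intro r hr
      rcases List.mem_cons.1 hr with rfl | hr
      · exact hle
      · exact hle.trans (h'.1 r hr)
    · refine List.pairwise_cons.2 ⟨?_, insertU_sorted a b p t h'.2⟩
      intro r hr
      rcases List.mem_cons.1 ((insertU_perm a b p t).mem_iff.1 hr) with rfl | hr
      · omega
      · exact h'.1 r hr

theorem sortU_sorted (a b : ℕ) : ∀ l : List (ℕ × ℕ × ℕ), SortedU a b (sortU a b l)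
  | [] => List.Pairwise.nil
  | p :: t => insertU_sorted a b p _ (sortU_sorted a b t)

theorem seenP_prep (a b h : ℕ) (pts : List (ℕ × ℕ × ℕ)) (U V : ℝ) :
    seenP h (prep a b pts) U V = seen a b h pts U V := by
  rw [seenP, seen, prep, List.map_map]
  rfl

theorem wsum_prep (a b : ℕ) (pts : List (ℕ × ℕ × ℕ)) :
    ((prep a b pts).map fun p => p.2.2).sum = wsum pts := by
  rw [prep, List.map_map, wsum]
  rfl

theorem wsum_perm {l m : List (ℕ × ℕ × ℕ)} (h : l.Perm m) : wsum l = wsum m :=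
  (h.map _).sum_eq

theorem hm_le {k k' : ℕ} (h : slabOk k k' = true) : hm k k' ≤ S0 := by
  simp only [slabOk, Bool.and_eq_true, Nat.ble_eq] at h
  obtain ⟨⟨⟨⟨⟨⟨-, -⟩, -⟩, -⟩, h4⟩, -⟩, -⟩ := h
  have h1 : (dir k).1 ≤ 16386 := by
    by_contra hcon
    push Not at hcon
    have : 16386 ^ 2 < (dir k).1 ^ 2 := Nat.pow_lt_pow_left hcon (by norm_num)
    have := Nat.le_add_right ((dir k).1 ^ 2) ((dir k).2 ^ 2)
    omega
  have h2 : (dir k).2 ≤ 16386 := by
    by_contra hcon
    push Not at hcon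
    have : 16386 ^ 2 < (dir k).2 ^ 2 := Nat.pow_lt_pow_left hcon (by norm_num)
    have := Nat.le_add_left ((dir k).2 ^ 2) ((dir k).1 ^ 2)
    omega
  refine (min_le_left _ _).trans ?_
  apply Nat.div_le_of_le_mul
  have : DD * ((dir k).1 + (dir k).2) ≤ DD * (16386 + 16386) :=
    Nat.mul_le_mul_left _ (by omega)
  refine this.trans ?_
  norm_num [DD, S0]

/-- one slab of the driver -/
theorem slab_run (hL : SpecLoop) {mu : List (ℕ × ℕ × ℕ)} {C A : List (ℕ × ℕ)} {b : Box}
    {thr k k' W len nb dl cl nc : ℕ} {raw : List (ℕ × ℕ × ℕ)} (hW : 1 ≤ W)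
    (hthr : thr ≤ 2 ^ (W - 1)) (htot : wsum (withBlocked mu A thr) < 2 ^ (W - 1))
    (hbx0 : b.x0 ≤ S0)
    (hraw : raw.Perm (withBlocked mu A thr)) (hsort : SortedU (fa k k') (fb k k') raw)
    (hok : slabOk k k' = true)
    (hg : 1 ≤ (2 * hin k k' - 1) / (len + 1))
    (h : (Nat.blt (mkSP C b k k' W len nb dl cl nc (rep W len) ((2 ^ (W - 1) - thr) * rep W nb)
        (2 ^ (W - 1) * rep W nb)).ub
        (mkSP C b k k' W len nb dl cl nc (rep W len) ((2 ^ (W - 1) - thr) * rep W nb)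
        (2 ^ (W - 1) * rep W nb)).ua ||
      loop (mkSP C b k k' W len nb dl cl nc (rep W len) ((2 ^ (W - 1) - thr) * rep W nb)
        (2 ^ (W - 1) * rep W nb)) (prep (fa k k') (fb k k') raw) (prep (fa k k') (fb k k') raw) 0
        (mkSP C b k k' W len nb dl cl nc (rep W len) ((2 ^ (W - 1) - thr) * rep W nb)
        (2 ^ (W - 1) * rep W nb)).ua 1 0) = true) :
    SlabCov mu C A b thr k k' := by
  set s := mkSP C b k k' W len nb dl cl nc (rep W len) ((2 ^ (W - 1) - thr) * rep W nb)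
        (2 ^ (W - 1) * rep W nb) with hs
  have hhm := hm_le hok
  have hh : 1 ≤ hin k k' := by
    by_contra hcon
    have : hin k k' = 0 := by omega
    rw [this] at hg
    simp at hg
  have hspok : spOk s thr (((prep (fa k k') (fb k k') raw).map fun p => p.2.2).sum) = true := by
    rw [wsum_prep, wsum_perm hraw]
    simp only [spOk, Bool.and_eq_true, Nat.ble_eq, Nat.blt_eq, Nat.beq_eq]
    refine ⟨⟨⟨⟨⟨⟨⟨⟨⟨⟨hW, hg⟩, ?_⟩, ?_⟩, ?_⟩, ?_⟩, hthr⟩, htot⟩, rfl⟩, rfl⟩, rfl⟩
    · show (2 * hin k k' - 1) / (len + 1) * (len + 1) < 2 * hin k k'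
      have := Nat.div_mul_le_self (2 * hin k k' - 1) (len + 1)
      omega
    · show rx1 b k k' ≤ S0
      exact (min_le_right _ _).trans (Nat.sub_le _ _)
    · show rx0 b k k' ≤ S0
      exact max_le hbx0 hhm
    · show hin k k' ≤ _ + hin k k'
      exact Nat.le_add_left _ _
  have hpair : (prep (fa k k') (fb k k') raw).Pairwise (fun p q => p.1 ≤ q.1) := by
    rw [prep, List.pairwise_map]
    exact hsort
  apply covers_perm hraw
  intro X Y hX0 hX1 hY0 hY1 hul huh hvl hvh
  have ha : (0:ℝ) ≤ fa k k' := Nat.cast_nonneg _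
  have hb : (0:ℝ) ≤ fb k k' := Nat.cast_nonneg _
  have e1 := mul_le_mul_of_nonneg_left hX0 ha
  have e2 := mul_le_mul_of_nonneg_left hY0 hb
  have e3 := mul_le_mul_of_nonneg_left hX1 ha
  have e4 := mul_le_mul_of_nonneg_left hY1 hb
  have hua : (s.ua : ℝ) ≤ fa k k' * X + fb k k' * Y + hin k k' := by
    have : (s.ua : ℝ) = max (ulo C k k' : ℝ) (fa k k' * rx0 b k k' + fb k k' * ry0 b k k') +
        hin k k' := by
      rw [hs, mkSP]; push_cast; rfl
    rw [this]
    have := max_le hul (add_le_add e1 e2)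
    linarith
  have hub : fa k k' * X + fb k k' * Y + hin k k' ≤ (s.ub : ℝ) := by
    have : (s.ub : ℝ) = min (uhi C k k' : ℝ) (fa k k' * rx1 b k k' + fb k k' * ry1 b k k') +
        hin k k' := by
      rw [hs, mkSP]; push_cast; rfl
    rw [this]
    have := le_min huh (add_le_add e3 e4)
    linarith
  rw [Bool.or_eq_true, Nat.blt_eq] at h
  rcases h with h | h
  · exfalso
    have : (s.ub : ℝ) < s.ua := by exact_mod_cast h
    linarith
  · have := hL s thr (prep (fa k k') (fb k k') raw) hspok hpair h X Y hX0 hX1 hY0 hY1 hua hub hvl hvh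
    rw [seenP_prep] at this
    exact this

theorem slabs_sound (hL : SpecLoop) {mu : List (ℕ × ℕ × ℕ)} {C A : List (ℕ × ℕ)} {b : Box}
    {thr W len nb dl cl nc : ℕ} (hW : 1 ≤ W)
    (hthr : thr ≤ 2 ^ (W - 1)) (htot : wsum (withBlocked mu A thr) < 2 ^ (W - 1))
    (hbx0 : b.x0 ≤ S0) :
    ∀ (ks : List ℕ) (k : ℕ) (raw : List (ℕ × ℕ × ℕ)), raw.Perm (withBlocked mu A thr) →
      slabs C b W len nb dl cl nc (rep W len) ((2 ^ (W - 1) - thr) * rep W nb)
        (2 ^ (W - 1) * rep W nb) k ks raw = true →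
      Chain (fun k k' => slabOk k k' = true ∧ SlabCov mu C A b thr k k') k ks := by
  intro ks
  induction ks with
  | nil => intro k raw _ _; trivial
  | cons k' ks ih =>
    intro k raw hraw h
    rw [slabs] at h
    simp only [Bool.and_eq_true, Nat.ble_eq] at h
    obtain ⟨⟨⟨h1, h2⟩, h3⟩, h4⟩ := h
    have hperm : (sortU (fa k k') (fb k k') raw).Perm (withBlocked mu A thr) :=
      (sortU_perm _ _ raw).trans hraw
    exact ⟨⟨h1, slab_run hL hW hthr htot hbx0 hperm (sortU_sorted _ _ raw) h1 h2 h3⟩,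
      ih k' _ hperm h4⟩

theorem sel_sublist : ∀ (m : ℕ) (l : List (ℕ × ℕ × ℕ)), (sel m l).Sublist l
  | _, [] => List.Sublist.refl _
  | m, p :: t => by
    rw [sel]
    split_ifs
    · exact (sel_sublist _ t).cons_cons p
    · exact (sel_sublist _ t).cons p

theorem wt_sublist {l m : List (ℕ × ℕ × ℕ)} (h : l.Sublist m) (q : Sq) : wt l q ≤ wt m q := by
  induction h with
  | slnil => exact le_rfl
  | cons p _ ih =>
    refine ih.trans ?_
    rw [wt, wt, List.map_cons, List.sum_cons]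
    have : (0:ℝ) ≤ (open Classical in if pt (p.1, p.2.1) ∈ q.op then (p.2.2 : ℝ) else 0) := by
      split_ifs
      · exact Nat.cast_nonneg _
      · exact le_rfl
    linarith
  | cons_cons p _ ih =>
    rw [wt, wt, List.map_cons, List.sum_cons, List.map_cons, List.sum_cons]
    rw [wt, wt] at ih
    linarith

/-- (P3) from (P2) -/
theorem specSweepBox' (hL : SpecLoop) : SpecSweepBox := by
  intro mu C A b thr x hin h
  rw [sweepBox] at h
  simp only [Bool.and_eq_true, Nat.ble_eq, Nat.blt_eq, beq_iff_eq] at h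
  obtain ⟨⟨⟨⟨⟨⟨h1, h2⟩, h3⟩, h4⟩, h5⟩, h6⟩, h7⟩ := h
  have hsub := sel_sublist x.mask mu
  have hin' : PtsIn (sel x.mask mu) C A := ⟨fun p hp => hin.1 p (hsub.subset hp), hin.2.1, hin.2.2⟩
  have hne : x.ks ≠ [] := by
    intro h0
    rw [h0] at h4
    simp at h4
  have hlast : x.ks.getLast hne = b.k1 := by
    rw [List.getLast?_eq_getLast_of_ne_nil hne] at h4
    exact Option.some_injective _ h4
  have hch := slabs_sound hL h1 h2 h3 h5 x.ks b.k0 _ (List.Perm.refl _) h7
  have := box_sound hin' x.ks hne hlast hch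
  intro q hu hcont hbox hC hA
  exact (this q hu hcont hbox hC hA).trans (wt_sublist hsub q)

/-- (P3) soundness of the driver -/
theorem specSweepBox : SpecSweepBox := specSweepBox' (specLoop specGuard)

end Sweep

end Pool.Agent.MP_abb58c_co
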