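import Pool.Agent.Lib.MP_abb58c_co.TreeOps
import Pool.Agent.Lib.MP_abb58c_co.SweepRun
import Pool.Agent.Lib.MP_abb58c_co.Roots

/-! MP_abb58c_co: the roots `R_inner` and `R_pair` from the nodes `P2`, `S2`, `B3b` (one measure
certificate each) and the class `RA` (helper82). -/

namespace Pool.Agent.MP_abb58c_co

open Sweep Case Roots

namespace Roots

/-- `J2` in the square of `I3`, `I0` neither in the square of `I1` nor in the square of `I3` -/
def P2 : Node :=
  [lb [O0] [], lb [O1] [], lb [O2] [], lb [O3] [],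
   lb [O4] [], lb [O5] [], lb [O6] [], lb [O7] [],
   lb [I1, J1] [I0], lb [I2, J0] [], lb [I3, J2, J3] [I0]]

/-- `J2` not in the square of `I3`, `I0` not in the square of `I1`, directions of the square of
`I2` between `0` and `45` degrees -/
def S2 : Node :=
  [lb [O0] [], lb [O1] [], lb [O2] [], lb [O3] [],
   lb [O4] [], lb [O5] [], lb [O6] [], lb [O7] [],
   lb [I1, J1] [I0], ⟨[I2, J0], [], [⟨0, 387710, 0, 387710, 0, 450⟩]⟩, lb [I3, J3] [J2]]

/-- `I0` in the square of `I1`, `J2` in the square of `I3` -/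
def B3b : Node :=
  [lb [O0] [], lb [O1] [], lb [O2] [], lb [O3] [],
   lb [O4] [], lb [O5] [], lb [O6] [], lb [O7] [],
   lb [I2, J0] [], lb [I3, J2, J3] [], lb [I0, I1, J1] []]

/-- mirror image of `S2` (up to the labels) -/
def S2m : Node :=
  [lb [O0] [], lb [O1] [], lb [O2] [], lb [O3] [],
   lb [O4] [], lb [O5] [], lb [O6] [], lb [O7] [],
   lb [I1, J1] [I0], ⟨[I2, J0], [], [⟨0, 387710, 0, 387710, 450, 900⟩]⟩, lb [I3, J3] [J2]]

/-- mirror image of `P2` (up to the labels) -/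
def P2m : Node :=
  [lb [O0] [], lb [O1] [], lb [O2] [], lb [O3] [],
   lb [O4] [], lb [O5] [], lb [O6] [], lb [O7] [],
   lb [I2, J0] [], lb [I3, J3] [J2], lb [I1, I0, J1] [J2]]

/-- data of a Z-check: 60 slabs of 1.5 degrees -/
def zaux : Aux := ⟨1, 5, 511, 3000, 0, 600, 0,
  [15, 30, 45, 60, 75, 90, 105, 120, 135, 150, 165, 180, 195, 210, 225, 240, 255, 270, 285, 300,
   315, 330, 345, 360, 375, 390, 405, 420, 435, 450, 465, 480, 495, 510, 525, 540, 555, 570, 585,
   600, 615, 630, 645, 660, 675, 690, 705, 720, 735, 750, 765, 780, 795, 810, 825, 840, 855, 870,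
   885, 900]⟩

/-- data of a Z-check: 90 slabs of 1 degree -/
def zaux10 : Aux := ⟨1, 5, 511, 3000, 0, 600, 0,
  [10, 20, 30, 40, 50, 60, 70, 80, 90, 100, 110, 120, 130, 140, 150,
   160, 170, 180, 190, 200, 210, 220, 230, 240, 250, 260, 270, 280, 290, 300,
   310, 320, 330, 340, 350, 360, 370, 380, 390, 400, 410, 420, 430, 440, 450,
   460, 470, 480, 490, 500, 510, 520, 530, 540, 550, 560, 570, 580, 590, 600,
   610, 620, 630, 640, 650, 660, 670, 680, 690, 700, 710, 720, 730, 740, 750,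
   760, 770, 780, 790, 800, 810, 820, 830, 840, 850, 860, 870, 880, 890, 900]⟩

/-- the certificate for `R_inner` (table: `P2`, `S2`) -/
def tInner : Tree (List (ℕ × ℕ × ℕ)) Aux :=
  .addZ 8 J1 [O0, O1, O2, O3, O4, O5, O6, O7, I0, I2, I3] zaux <|
  .addZ 9 J0 [O0, O1, O2, O3, O4, O5, O6, O7, I1, I3, J1] zaux <|
  .addZ 10 J3 [O0, O1, O2, O3, O4, O5, O6, O7, I0, I1, I2] zaux <|
  .splitPt 10 J2 (.cite 0) <|
  .split 9 2 450 (.cite 1) <|
  .weaken S2m <| .rot <| .refl <| .relabel [1, 0, 3, 2, 6, 5, 4, 7, 10, 9, 8] <| .cite 1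

/-- the certificate for `R_pair` (table: `RA 0 900`, `B3b`, `P2`) -/
def tPair : Tree (List (ℕ × ℕ × ℕ)) Aux :=
  .addZ 8 J0 [O0, O1, O2, O3, O4, O5, O6, O7, I0, I1, I3] zaux <|
  .addZ 9 J3 [O0, O1, O2, O3, O4, O5, O6, O7, I0, I1, I2] zaux <|
  .addZ 10 J1 [O0, O1, O2, O3, O4, O5, O6, O7, I2, I3] zaux10 <|
  .splitPt 10 J2 (.cite 0) <|
  .splitPt 9 J2 (.cite 1) <|
  .weaken P2m <| .rot <| .refl <| .relabel [1, 0, 3, 2, 6, 5, 4, 7, 9, 8, 10] <| .cite 2

theorem check_inner : Tree.check stdOps [P2, S2] tInner R_inner [] = true := by decide +kernel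

theorem check_pair : Tree.check stdOps [RA 0 900, B3b, P2] tPair R_pair [] = true := by
  decide +kernel

/-- leftover point `I0` -/
theorem R_inner_of (hP : GoodC P2) (hS : GoodC S2) : GoodC R_inner := by
  refine Tree.goodC (tbl := [P2, S2]) (stdOps_sound specSweepBox) ?_ (t := tInner) ?_
  · intro N hN
    rcases List.mem_cons.1 hN with rfl | hN
    · exact hP
    · rw [List.mem_singleton] at hN
      rw [hN]
      exact hS
  · rw [check_inner]
    rfl

/-- the last square contains `I0` and `I1` -/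
theorem R_pair_of (hRA : GoodC (RA 0 900)) (hB : GoodC B3b) (hP : GoodC P2) : GoodC R_pair := by
  refine Tree.goodC (tbl := [RA 0 900, B3b, P2]) (stdOps_sound specSweepBox) ?_ (t := tPair) ?_
  · intro N hN
    rcases List.mem_cons.1 hN with rfl | hN
    · exact hRA
    · rcases List.mem_cons.1 hN with rfl | hN
      · exact hB
      · rw [List.mem_singleton] at hN
        rw [hN]
        exact hP
  · rw [check_pair]
    rfl

end Roots

end Pool.Agent.MP_abb58c_co
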