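import Pool.Agent.Lib.MP_abb58c_co.ExistB

/-! MP_abb58c_co, module EXIST, part E: separations -/

namespace Pool.Agent.MP_abb58c_co
namespace Exist

variable (T : TrumpData)

theorem sep_4_5 : Sep (T.cfg 4) (T.cfg 5) := by
  obtain ⟨c0, c1⟩ := c_bounds T
  obtain ⟨s0, s1⟩ := s_bounds T
  obtain ⟨L0, L1⟩ := L_bounds T
  obtain ⟨d0, d1⟩ := d_bounds T
  obtain ⟨w0, w1⟩ := w_bounds T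
  have r0 := cs_one T
  have r1 := R1 T
  have r2 := R2 T
  have r3 := R3 T
  have r4 := R4 T
  obtain ⟨⟨a1, a1'⟩, ⟨a2, a2'⟩, ⟨a3, a3'⟩, ⟨a4, a4'⟩, ⟨a5, a5'⟩, ⟨a6, a6'⟩, ⟨a7, a7'⟩, ⟨a8, a8'⟩,
    ⟨a9, a9'⟩, ⟨a10, a10'⟩, ⟨a11, a11'⟩,
    ⟨a12, a12'⟩⟩ := monos T
  rw [cfg4, cfg5]
  exact axax _ _ _ _ (Or.inr <| le_abs.2 <| Or.inl (by linarith))

theorem sep_4_6 : Sep (T.cfg 4) (T.cfg 6) := by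
  obtain ⟨c0, c1⟩ := c_bounds T
  obtain ⟨s0, s1⟩ := s_bounds T
  obtain ⟨L0, L1⟩ := L_bounds T
  obtain ⟨d0, d1⟩ := d_bounds T
  obtain ⟨w0, w1⟩ := w_bounds T
  have r0 := cs_one T
  have r1 := R1 T
  have r2 := R2 T
  have r3 := R3 T
  have r4 := R4 T
  obtain ⟨⟨a1, a1'⟩, ⟨a2, a2'⟩, ⟨a3, a3'⟩, ⟨a4, a4'⟩, ⟨a5, a5'⟩, ⟨a6, a6'⟩, ⟨a7, a7'⟩, ⟨a8, a8'⟩,
    ⟨a9, a9'⟩, ⟨a10, a10'⟩, ⟨a11, a11'⟩,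
    ⟨a12, a12'⟩⟩ := monos T
  rw [cfg4, cfg6]
  exact axt T _ _ _ _ (Or.inr <| Or.inr <| Or.inr <| le_abs.2 <| Or.inl (by linarith))

theorem sep_4_7 : Sep (T.cfg 4) (T.cfg 7) := by
  obtain ⟨c0, c1⟩ := c_bounds T
  obtain ⟨s0, s1⟩ := s_bounds T
  obtain ⟨L0, L1⟩ := L_bounds T
  obtain ⟨d0, d1⟩ := d_bounds T
  obtain ⟨w0, w1⟩ := w_bounds T
  have r0 := cs_one T
  have r1 := R1 T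
  have r2 := R2 T
  have r3 := R3 T
  have r4 := R4 T
  obtain ⟨⟨a1, a1'⟩, ⟨a2, a2'⟩, ⟨a3, a3'⟩, ⟨a4, a4'⟩, ⟨a5, a5'⟩, ⟨a6, a6'⟩, ⟨a7, a7'⟩, ⟨a8, a8'⟩,
    ⟨a9, a9'⟩, ⟨a10, a10'⟩, ⟨a11, a11'⟩,
    ⟨a12, a12'⟩⟩ := monos T
  rw [cfg4, cfg7]
  exact axt T _ _ _ _ (Or.inr <| Or.inr <| Or.inr <| le_abs.2 <| Or.inl (by linarith))

theorem sep_4_8 : Sep (T.cfg 4) (T.cfg 8) := by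
  obtain ⟨c0, c1⟩ := c_bounds T
  obtain ⟨s0, s1⟩ := s_bounds T
  obtain ⟨L0, L1⟩ := L_bounds T
  obtain ⟨d0, d1⟩ := d_bounds T
  obtain ⟨w0, w1⟩ := w_bounds T
  have r0 := cs_one T
  have r1 := R1 T
  have r2 := R2 T
  have r3 := R3 T
  have r4 := R4 T
  obtain ⟨⟨a1, a1'⟩, ⟨a2, a2'⟩, ⟨a3, a3'⟩, ⟨a4, a4'⟩, ⟨a5, a5'⟩, ⟨a6, a6'⟩, ⟨a7, a7'⟩, ⟨a8, a8'⟩,
    ⟨a9, a9'⟩, ⟨a10, a10'⟩, ⟨a11, a11'⟩,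
    ⟨a12, a12'⟩⟩ := monos T
  rw [cfg4, cfg8]
  exact axt T _ _ _ _ (Or.inr <| Or.inr <| Or.inr <| le_abs.2 <| Or.inl (by linarith))

theorem sep_4_9 : Sep (T.cfg 4) (T.cfg 9) := by
  obtain ⟨c0, c1⟩ := c_bounds T
  obtain ⟨s0, s1⟩ := s_bounds T
  obtain ⟨L0, L1⟩ := L_bounds T
  obtain ⟨d0, d1⟩ := d_bounds T
  obtain ⟨w0, w1⟩ := w_bounds T
  have r0 := cs_one T
  have r1 := R1 T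
  have r2 := R2 T
  have r3 := R3 T
  have r4 := R4 T
  obtain ⟨⟨a1, a1'⟩, ⟨a2, a2'⟩, ⟨a3, a3'⟩, ⟨a4, a4'⟩, ⟨a5, a5'⟩, ⟨a6, a6'⟩, ⟨a7, a7'⟩, ⟨a8, a8'⟩,
    ⟨a9, a9'⟩, ⟨a10, a10'⟩, ⟨a11, a11'⟩,
    ⟨a12, a12'⟩⟩ := monos T
  rw [cfg4, cfg9]
  exact axt T _ _ _ _ (Or.inr <| Or.inr <| Or.inr <| le_abs.2 <| Or.inl (by linarith))

theorem sep_4_10 : Sep (T.cfg 4) (T.cfg 10) := by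
  obtain ⟨c0, c1⟩ := c_bounds T
  obtain ⟨s0, s1⟩ := s_bounds T
  obtain ⟨L0, L1⟩ := L_bounds T
  obtain ⟨d0, d1⟩ := d_bounds T
  obtain ⟨w0, w1⟩ := w_bounds T
  have r0 := cs_one T
  have r1 := R1 T
  have r2 := R2 T
  have r3 := R3 T
  have r4 := R4 T
  obtain ⟨⟨a1, a1'⟩, ⟨a2, a2'⟩, ⟨a3, a3'⟩, ⟨a4, a4'⟩, ⟨a5, a5'⟩, ⟨a6, a6'⟩, ⟨a7, a7'⟩, ⟨a8, a8'⟩,
    ⟨a9, a9'⟩, ⟨a10, a10'⟩, ⟨a11, a11'⟩,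
    ⟨a12, a12'⟩⟩ := monos T
  rw [cfg4, cfg10]
  exact axt T _ _ _ _ (Or.inr <| Or.inl <| le_abs.2 <| Or.inl (by linarith))

theorem sep_5_6 : Sep (T.cfg 5) (T.cfg 6) := by
  obtain ⟨c0, c1⟩ := c_bounds T
  obtain ⟨s0, s1⟩ := s_bounds T
  obtain ⟨L0, L1⟩ := L_bounds T
  obtain ⟨d0, d1⟩ := d_bounds T
  obtain ⟨w0, w1⟩ := w_bounds T
  have r0 := cs_one T
  have r1 := R1 T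
  have r2 := R2 T
  have r3 := R3 T
  have r4 := R4 T
  obtain ⟨⟨a1, a1'⟩, ⟨a2, a2'⟩, ⟨a3, a3'⟩, ⟨a4, a4'⟩, ⟨a5, a5'⟩, ⟨a6, a6'⟩, ⟨a7, a7'⟩, ⟨a8, a8'⟩,
    ⟨a9, a9'⟩, ⟨a10, a10'⟩, ⟨a11, a11'⟩,
    ⟨a12, a12'⟩⟩ := monos T
  rw [cfg5, cfg6]
  exact axt T _ _ _ _ (Or.inr <| Or.inr <| Or.inl <| le_abs.2 <| Or.inr (by linarith))

theorem sep_5_7 : Sep (T.cfg 5) (T.cfg 7) := by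
  obtain ⟨c0, c1⟩ := c_bounds T
  obtain ⟨s0, s1⟩ := s_bounds T
  obtain ⟨L0, L1⟩ := L_bounds T
  obtain ⟨d0, d1⟩ := d_bounds T
  obtain ⟨w0, w1⟩ := w_bounds T
  have r0 := cs_one T
  have r1 := R1 T
  have r2 := R2 T
  have r3 := R3 T
  have r4 := R4 T
  obtain ⟨⟨a1, a1'⟩, ⟨a2, a2'⟩, ⟨a3, a3'⟩, ⟨a4, a4'⟩, ⟨a5, a5'⟩, ⟨a6, a6'⟩, ⟨a7, a7'⟩, ⟨a8, a8'⟩,
    ⟨a9, a9'⟩, ⟨a10, a10'⟩, ⟨a11, a11'⟩,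
    ⟨a12, a12'⟩⟩ := monos T
  rw [cfg5, cfg7]
  exact axt T _ _ _ _ (Or.inr <| Or.inl <| le_abs.2 <| Or.inr (by linarith))

theorem sep_5_8 : Sep (T.cfg 5) (T.cfg 8) := by
  obtain ⟨c0, c1⟩ := c_bounds T
  obtain ⟨s0, s1⟩ := s_bounds T
  obtain ⟨L0, L1⟩ := L_bounds T
  obtain ⟨d0, d1⟩ := d_bounds T
  obtain ⟨w0, w1⟩ := w_bounds T
  have r0 := cs_one T
  have r1 := R1 T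
  have r2 := R2 T
  have r3 := R3 T
  have r4 := R4 T
  obtain ⟨⟨a1, a1'⟩, ⟨a2, a2'⟩, ⟨a3, a3'⟩, ⟨a4, a4'⟩, ⟨a5, a5'⟩, ⟨a6, a6'⟩, ⟨a7, a7'⟩, ⟨a8, a8'⟩,
    ⟨a9, a9'⟩, ⟨a10, a10'⟩, ⟨a11, a11'⟩,
    ⟨a12, a12'⟩⟩ := monos T
  rw [cfg5, cfg8]
  exact axt T _ _ _ _ (Or.inr <| Or.inr <| Or.inl <| le_abs.2 <| Or.inr (by linarith))

theorem sep_5_9 : Sep (T.cfg 5) (T.cfg 9) := by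
  obtain ⟨c0, c1⟩ := c_bounds T
  obtain ⟨s0, s1⟩ := s_bounds T
  obtain ⟨L0, L1⟩ := L_bounds T
  obtain ⟨d0, d1⟩ := d_bounds T
  obtain ⟨w0, w1⟩ := w_bounds T
  have r0 := cs_one T
  have r1 := R1 T
  have r2 := R2 T
  have r3 := R3 T
  have r4 := R4 T
  obtain ⟨⟨a1, a1'⟩, ⟨a2, a2'⟩, ⟨a3, a3'⟩, ⟨a4, a4'⟩, ⟨a5, a5'⟩, ⟨a6, a6'⟩, ⟨a7, a7'⟩, ⟨a8, a8'⟩,
    ⟨a9, a9'⟩, ⟨a10, a10'⟩, ⟨a11, a11'⟩,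
    ⟨a12, a12'⟩⟩ := monos T
  rw [cfg5, cfg9]
  exact axt T _ _ _ _ (Or.inl <| le_abs.2 <| Or.inr (by linarith))

theorem sep_5_10 : Sep (T.cfg 5) (T.cfg 10) := by
  obtain ⟨c0, c1⟩ := c_bounds T
  obtain ⟨s0, s1⟩ := s_bounds T
  obtain ⟨L0, L1⟩ := L_bounds T
  obtain ⟨d0, d1⟩ := d_bounds T
  obtain ⟨w0, w1⟩ := w_bounds T
  have r0 := cs_one T
  have r1 := R1 T
  have r2 := R2 T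
  have r3 := R3 T
  have r4 := R4 T
  obtain ⟨⟨a1, a1'⟩, ⟨a2, a2'⟩, ⟨a3, a3'⟩, ⟨a4, a4'⟩, ⟨a5, a5'⟩, ⟨a6, a6'⟩, ⟨a7, a7'⟩, ⟨a8, a8'⟩,
    ⟨a9, a9'⟩, ⟨a10, a10'⟩, ⟨a11, a11'⟩,
    ⟨a12, a12'⟩⟩ := monos T
  rw [cfg5, cfg10]
  exact axt T _ _ _ _ (Or.inr <| Or.inl <| le_abs.2 <| Or.inr (by linarith))

theorem sep_6_7 : Sep (T.cfg 6) (T.cfg 7) := by
  obtain ⟨c0, c1⟩ := c_bounds T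
  obtain ⟨s0, s1⟩ := s_bounds T
  obtain ⟨L0, L1⟩ := L_bounds T
  obtain ⟨d0, d1⟩ := d_bounds T
  obtain ⟨w0, w1⟩ := w_bounds T
  have r0 := cs_one T
  have r1 := R1 T
  have r2 := R2 T
  have r3 := R3 T
  have r4 := R4 T
  obtain ⟨⟨a1, a1'⟩, ⟨a2, a2'⟩, ⟨a3, a3'⟩, ⟨a4, a4'⟩, ⟨a5, a5'⟩, ⟨a6, a6'⟩, ⟨a7, a7'⟩, ⟨a8, a8'⟩,
    ⟨a9, a9'⟩, ⟨a10, a10'⟩, ⟨a11, a11'⟩,
    ⟨a12, a12'⟩⟩ := monos T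
  rw [cfg6, cfg7]
  exact tt T _ _ _ _ (Or.inr <| le_abs.2 <| Or.inr (by linarith))

theorem sep_6_8 : Sep (T.cfg 6) (T.cfg 8) := by
  obtain ⟨c0, c1⟩ := c_bounds T
  obtain ⟨s0, s1⟩ := s_bounds T
  obtain ⟨L0, L1⟩ := L_bounds T
  obtain ⟨d0, d1⟩ := d_bounds T
  obtain ⟨w0, w1⟩ := w_bounds T
  have r0 := cs_one T
  have r1 := R1 T
  have r2 := R2 T
  have r3 := R3 T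
  have r4 := R4 T
  obtain ⟨⟨a1, a1'⟩, ⟨a2, a2'⟩, ⟨a3, a3'⟩, ⟨a4, a4'⟩, ⟨a5, a5'⟩, ⟨a6, a6'⟩, ⟨a7, a7'⟩, ⟨a8, a8'⟩,
    ⟨a9, a9'⟩, ⟨a10, a10'⟩, ⟨a11, a11'⟩,
    ⟨a12, a12'⟩⟩ := monos T
  rw [cfg6, cfg8]
  exact tt T _ _ _ _ (Or.inl <| le_abs.2 <| Or.inl (by linarith))

theorem sep_6_9 : Sep (T.cfg 6) (T.cfg 9) := by
  obtain ⟨c0, c1⟩ := c_bounds T
  obtain ⟨s0, s1⟩ := s_bounds T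
  obtain ⟨L0, L1⟩ := L_bounds T
  obtain ⟨d0, d1⟩ := d_bounds T
  obtain ⟨w0, w1⟩ := w_bounds T
  have r0 := cs_one T
  have r1 := R1 T
  have r2 := R2 T
  have r3 := R3 T
  have r4 := R4 T
  obtain ⟨⟨a1, a1'⟩, ⟨a2, a2'⟩, ⟨a3, a3'⟩, ⟨a4, a4'⟩, ⟨a5, a5'⟩, ⟨a6, a6'⟩, ⟨a7, a7'⟩, ⟨a8, a8'⟩,
    ⟨a9, a9'⟩, ⟨a10, a10'⟩, ⟨a11, a11'⟩,
    ⟨a12, a12'⟩⟩ := monos T
  rw [cfg6, cfg9]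
  exact tt T _ _ _ _ (Or.inr <| le_abs.2 <| Or.inl (by linarith))

theorem sep_6_10 : Sep (T.cfg 6) (T.cfg 10) := by
  obtain ⟨c0, c1⟩ := c_bounds T
  obtain ⟨s0, s1⟩ := s_bounds T
  obtain ⟨L0, L1⟩ := L_bounds T
  obtain ⟨d0, d1⟩ := d_bounds T
  obtain ⟨w0, w1⟩ := w_bounds T
  have r0 := cs_one T
  have r1 := R1 T
  have r2 := R2 T
  have r3 := R3 T
  have r4 := R4 T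
  obtain ⟨⟨a1, a1'⟩, ⟨a2, a2'⟩, ⟨a3, a3'⟩, ⟨a4, a4'⟩, ⟨a5, a5'⟩, ⟨a6, a6'⟩, ⟨a7, a7'⟩, ⟨a8, a8'⟩,
    ⟨a9, a9'⟩, ⟨a10, a10'⟩, ⟨a11, a11'⟩,
    ⟨a12, a12'⟩⟩ := monos T
  rw [cfg6, cfg10]
  exact tt T _ _ _ _ (Or.inl <| le_abs.2 <| Or.inl (by linarith))

theorem sep_7_8 : Sep (T.cfg 7) (T.cfg 8) := by
  obtain ⟨c0, c1⟩ := c_bounds T
  obtain ⟨s0, s1⟩ := s_bounds T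
  obtain ⟨L0, L1⟩ := L_bounds T
  obtain ⟨d0, d1⟩ := d_bounds T
  obtain ⟨w0, w1⟩ := w_bounds T
  have r0 := cs_one T
  have r1 := R1 T
  have r2 := R2 T
  have r3 := R3 T
  have r4 := R4 T
  obtain ⟨⟨a1, a1'⟩, ⟨a2, a2'⟩, ⟨a3, a3'⟩, ⟨a4, a4'⟩, ⟨a5, a5'⟩, ⟨a6, a6'⟩, ⟨a7, a7'⟩, ⟨a8, a8'⟩,
    ⟨a9, a9'⟩, ⟨a10, a10'⟩, ⟨a11, a11'⟩,
    ⟨a12, a12'⟩⟩ := monos T
  rw [cfg7, cfg8]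
  exact tt T _ _ _ _ (Or.inr <| le_abs.2 <| Or.inl (by linarith))

theorem sep_7_9 : Sep (T.cfg 7) (T.cfg 9) := by
  obtain ⟨c0, c1⟩ := c_bounds T
  obtain ⟨s0, s1⟩ := s_bounds T
  obtain ⟨L0, L1⟩ := L_bounds T
  obtain ⟨d0, d1⟩ := d_bounds T
  obtain ⟨w0, w1⟩ := w_bounds T
  have r0 := cs_one T
  have r1 := R1 T
  have r2 := R2 T
  have r3 := R3 T
  have r4 := R4 T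
  obtain ⟨⟨a1, a1'⟩, ⟨a2, a2'⟩, ⟨a3, a3'⟩, ⟨a4, a4'⟩, ⟨a5, a5'⟩, ⟨a6, a6'⟩, ⟨a7, a7'⟩, ⟨a8, a8'⟩,
    ⟨a9, a9'⟩, ⟨a10, a10'⟩, ⟨a11, a11'⟩,
    ⟨a12, a12'⟩⟩ := monos T
  rw [cfg7, cfg9]
  exact tt T _ _ _ _ (Or.inr <| le_abs.2 <| Or.inl (by linarith))

theorem sep_7_10 : Sep (T.cfg 7) (T.cfg 10) := by
  obtain ⟨c0, c1⟩ := c_bounds T
  obtain ⟨s0, s1⟩ := s_bounds T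
  obtain ⟨L0, L1⟩ := L_bounds T
  obtain ⟨d0, d1⟩ := d_bounds T
  obtain ⟨w0, w1⟩ := w_bounds T
  have r0 := cs_one T
  have r1 := R1 T
  have r2 := R2 T
  have r3 := R3 T
  have r4 := R4 T
  obtain ⟨⟨a1, a1'⟩, ⟨a2, a2'⟩, ⟨a3, a3'⟩, ⟨a4, a4'⟩, ⟨a5, a5'⟩, ⟨a6, a6'⟩, ⟨a7, a7'⟩, ⟨a8, a8'⟩,
    ⟨a9, a9'⟩, ⟨a10, a10'⟩, ⟨a11, a11'⟩,
    ⟨a12, a12'⟩⟩ := monos T
  rw [cfg7, cfg10]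
  exact tt T _ _ _ _ (Or.inl <| le_abs.2 <| Or.inl (by linarith))

theorem sep_8_9 : Sep (T.cfg 8) (T.cfg 9) := by
  obtain ⟨c0, c1⟩ := c_bounds T
  obtain ⟨s0, s1⟩ := s_bounds T
  obtain ⟨L0, L1⟩ := L_bounds T
  obtain ⟨d0, d1⟩ := d_bounds T
  obtain ⟨w0, w1⟩ := w_bounds T
  have r0 := cs_one T
  have r1 := R1 T
  have r2 := R2 T
  have r3 := R3 T
  have r4 := R4 T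
  obtain ⟨⟨a1, a1'⟩, ⟨a2, a2'⟩, ⟨a3, a3'⟩, ⟨a4, a4'⟩, ⟨a5, a5'⟩, ⟨a6, a6'⟩, ⟨a7, a7'⟩, ⟨a8, a8'⟩,
    ⟨a9, a9'⟩, ⟨a10, a10'⟩, ⟨a11, a11'⟩,
    ⟨a12, a12'⟩⟩ := monos T
  rw [cfg8, cfg9]
  exact tt T _ _ _ _ (Or.inr <| le_abs.2 <| Or.inl (by linarith))

theorem sep_8_10 : Sep (T.cfg 8) (T.cfg 10) := by
  obtain ⟨c0, c1⟩ := c_bounds T
  obtain ⟨s0, s1⟩ := s_bounds T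
  obtain ⟨L0, L1⟩ := L_bounds T
  obtain ⟨d0, d1⟩ := d_bounds T
  obtain ⟨w0, w1⟩ := w_bounds T
  have r0 := cs_one T
  have r1 := R1 T
  have r2 := R2 T
  have r3 := R3 T
  have r4 := R4 T
  obtain ⟨⟨a1, a1'⟩, ⟨a2, a2'⟩, ⟨a3, a3'⟩, ⟨a4, a4'⟩, ⟨a5, a5'⟩, ⟨a6, a6'⟩, ⟨a7, a7'⟩, ⟨a8, a8'⟩,
    ⟨a9, a9'⟩, ⟨a10, a10'⟩, ⟨a11, a11'⟩,
    ⟨a12, a12'⟩⟩ := monos T
  rw [cfg8, cfg10]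
  exact tt T _ _ _ _ (Or.inr <| le_abs.2 <| Or.inr (by linarith))

theorem sep_9_10 : Sep (T.cfg 9) (T.cfg 10) := by
  obtain ⟨c0, c1⟩ := c_bounds T
  obtain ⟨s0, s1⟩ := s_bounds T
  obtain ⟨L0, L1⟩ := L_bounds T
  obtain ⟨d0, d1⟩ := d_bounds T
  obtain ⟨w0, w1⟩ := w_bounds T
  have r0 := cs_one T
  have r1 := R1 T
  have r2 := R2 T
  have r3 := R3 T
  have r4 := R4 T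
  obtain ⟨⟨a1, a1'⟩, ⟨a2, a2'⟩, ⟨a3, a3'⟩, ⟨a4, a4'⟩, ⟨a5, a5'⟩, ⟨a6, a6'⟩, ⟨a7, a7'⟩, ⟨a8, a8'⟩,
    ⟨a9, a9'⟩, ⟨a10, a10'⟩, ⟨a11, a11'⟩,
    ⟨a12, a12'⟩⟩ := monos T
  rw [cfg9, cfg10]
  exact tt T _ _ _ _ (Or.inr <| le_abs.2 <| Or.inr (by linarith))

end Exist
end Pool.Agent.MP_abb58c_co
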