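import Pool.Agent.Lib.MP_abb58c_co.ExistB

/-! MP_abb58c_co, module EXIST, part F: walls -/

namespace Pool.Agent.MP_abb58c_co
namespace Exist

variable (T : TrumpData)

theorem walls (i : Fin 11) : (T.cfg i).h ≤ (T.cfg i).x ∧ (T.cfg i).x ≤ T.L - (T.cfg i).h ∧
    (T.cfg i).h ≤ (T.cfg i).y ∧ (T.cfg i).y ≤ T.L - (T.cfg i).h := by
  obtain ⟨c0, c1⟩ := c_bounds T
  obtain ⟨s0, s1⟩ := s_bounds T
  obtain ⟨L0, L1⟩ := L_bounds T
  obtain ⟨d0, d1⟩ := d_bounds T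
  obtain ⟨w0, w1⟩ := w_bounds T
  have r0 := cs_one T
  have r1 := R1 T
  have r2 := R2 T
  have r3 := R3 T
  have r4 := R4 T
  obtain ⟨⟨a1, a1'⟩, ⟨a2, a2'⟩, ⟨a3, a3'⟩, ⟨a4, a4'⟩, ⟨a5, a5'⟩, ⟨a6, a6'⟩, ⟨a7, a7'⟩, ⟨a8, a8'⟩,
    ⟨a9, a9'⟩, ⟨a10, a10'⟩, ⟨a11, a11'⟩,
    ⟨a12, a12'⟩⟩ := monos T
  have hax : ∀ x y : ℝ, 1/2 ≤ x → x ≤ T.L - 1/2 → 1/2 ≤ y → y ≤ T.L - 1/2 →
      (⟨x, y, 1, 0⟩ : Sq).h ≤ (⟨x, y, 1, 0⟩ : Sq).x ∧ (⟨x, y, 1, 0⟩ : Sq).x ≤ T.L -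
        (⟨x, y, 1, 0⟩ : Sq).h ∧
      (⟨x, y, 1, 0⟩ : Sq).h ≤ (⟨x, y, 1, 0⟩ : Sq).y ∧
      (⟨x, y, 1, 0⟩ : Sq).y ≤ T.L - (⟨x, y, 1, 0⟩ : Sq).h := by
    intro x y h1 h2 h3 h4
    rw [ax_h]
    exact ⟨h1, h2, h3, h4⟩
  have htt : ∀ u v : ℝ, (T.c + T.s)/2 ≤ u * T.c - v * T.s → u * T.c - v * T.s ≤ T.L - (T.c + T.s)/2 →
      (T.c + T.s)/2 ≤ u * T.s + v * T.c → u * T.s + v * T.c ≤ T.L - (T.c + T.s)/2 →
      (T.tilted u v).h ≤ (T.tilted u v).x ∧ (T.tilted u v).x ≤ T.L - (T.tilted u v).h ∧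
      (T.tilted u v).h ≤ (T.tilted u v).y ∧ (T.tilted u v).y ≤ T.L - (T.tilted u v).h := by
    intro u v h1 h2 h3 h4
    rw [tilted_h]
    exact ⟨h1, h2, h3, h4⟩
  fin_cases i
  · exact hax _ _ (by linarith) (by linarith) (by linarith) (by linarith)
  · exact hax _ _ (by linarith) (by linarith) (by linarith) (by linarith)
  · exact hax _ _ (by linarith) (by linarith) (by linarith) (by linarith)
  · exact hax _ _ (by linarith) (by linarith) (by linarith) (by linarith)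
  · exact hax _ _ (by linarith) (by linarith) (by linarith) (by linarith)
  · exact hax _ _ (by linarith) (by linarith) (by linarith) (by linarith)
  · exact htt _ _ (by linarith) (by linarith) (by linarith) (by linarith)
  · exact htt _ _ (by linarith) (by linarith) (by linarith) (by linarith)
  · exact htt _ _ (by linarith) (by linarith) (by linarith) (by linarith)
  · exact htt _ _ (by linarith) (by linarith) (by linarith) (by linarith)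
  · exact htt _ _ (by linarith) (by linarith) (by linarith) (by linarith)
end Exist
end Pool.Agent.MP_abb58c_co
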