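import Pool.Agent.Lib.MP_abb58c_co.ExistC
import Pool.Agent.Lib.MP_abb58c_co.ExistD
import Pool.Agent.Lib.MP_abb58c_co.ExistE
import Pool.Agent.Lib.MP_abb58c_co.ExistF

/-! MP_abb58c_co, module EXIST: Trump's packing exists -/

namespace Pool.Agent.MP_abb58c_co
namespace Exist

variable (T : TrumpData)

theorem seps : ∀ i j : Fin 11, i < j → Sep (T.cfg i) (T.cfg j) := by
  intro i j hij
  fin_cases i <;> fin_cases j
  · exact absurd hij (by decide)
  · exact sep_0_1 T
  · exact sep_0_2 T
  · exact sep_0_3 T
  · exact sep_0_4 T
  · exact sep_0_5 T
  · exact sep_0_6 T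
  · exact sep_0_7 T
  · exact sep_0_8 T
  · exact sep_0_9 T
  · exact sep_0_10 T
  · exact absurd hij (by decide)
  · exact absurd hij (by decide)
  · exact sep_1_2 T
  · exact sep_1_3 T
  · exact sep_1_4 T
  · exact sep_1_5 T
  · exact sep_1_6 T
  · exact sep_1_7 T
  · exact sep_1_8 T
  · exact sep_1_9 T
  · exact sep_1_10 T
  · exact absurd hij (by decide)
  · exact absurd hij (by decide)
  · exact absurd hij (by decide)
  · exact sep_2_3 T
  · exact sep_2_4 T
  · exact sep_2_5 T
  · exact sep_2_6 T
  · exact sep_2_7 T
  · exact sep_2_8 T
  · exact sep_2_9 T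
  · exact sep_2_10 T
  · exact absurd hij (by decide)
  · exact absurd hij (by decide)
  · exact absurd hij (by decide)
  · exact absurd hij (by decide)
  · exact sep_3_4 T
  · exact sep_3_5 T
  · exact sep_3_6 T
  · exact sep_3_7 T
  · exact sep_3_8 T
  · exact sep_3_9 T
  · exact sep_3_10 T
  · exact absurd hij (by decide)
  · exact absurd hij (by decide)
  · exact absurd hij (by decide)
  · exact absurd hij (by decide)
  · exact absurd hij (by decide)
  · exact sep_4_5 T
  · exact sep_4_6 T
  · exact sep_4_7 T
  · exact sep_4_8 T
  · exact sep_4_9 T
  · exact sep_4_10 T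
  · exact absurd hij (by decide)
  · exact absurd hij (by decide)
  · exact absurd hij (by decide)
  · exact absurd hij (by decide)
  · exact absurd hij (by decide)
  · exact absurd hij (by decide)
  · exact sep_5_6 T
  · exact sep_5_7 T
  · exact sep_5_8 T
  · exact sep_5_9 T
  · exact sep_5_10 T
  · exact absurd hij (by decide)
  · exact absurd hij (by decide)
  · exact absurd hij (by decide)
  · exact absurd hij (by decide)
  · exact absurd hij (by decide)
  · exact absurd hij (by decide)
  · exact absurd hij (by decide)
  · exact sep_6_7 T
  · exact sep_6_8 T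
  · exact sep_6_9 T
  · exact sep_6_10 T
  · exact absurd hij (by decide)
  · exact absurd hij (by decide)
  · exact absurd hij (by decide)
  · exact absurd hij (by decide)
  · exact absurd hij (by decide)
  · exact absurd hij (by decide)
  · exact absurd hij (by decide)
  · exact absurd hij (by decide)
  · exact sep_7_8 T
  · exact sep_7_9 T
  · exact sep_7_10 T
  · exact absurd hij (by decide)
  · exact absurd hij (by decide)
  · exact absurd hij (by decide)
  · exact absurd hij (by decide)
  · exact absurd hij (by decide)
  · exact absurd hij (by decide)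
  · exact absurd hij (by decide)
  · exact absurd hij (by decide)
  · exact absurd hij (by decide)
  · exact sep_8_9 T
  · exact sep_8_10 T
  · exact absurd hij (by decide)
  · exact absurd hij (by decide)
  · exact absurd hij (by decide)
  · exact absurd hij (by decide)
  · exact absurd hij (by decide)
  · exact absurd hij (by decide)
  · exact absurd hij (by decide)
  · exact absurd hij (by decide)
  · exact absurd hij (by decide)
  · exact absurd hij (by decide)
  · exact sep_9_10 T
  · exact absurd hij (by decide)
  · exact absurd hij (by decide)
  · exact absurd hij (by decide)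
  · exact absurd hij (by decide)
  · exact absurd hij (by decide)
  · exact absurd hij (by decide)
  · exact absurd hij (by decide)
  · exact absurd hij (by decide)
  · exact absurd hij (by decide)
  · exact absurd hij (by decide)
  · exact absurd hij (by decide)

end Exist

open Exist in
theorem specExist (hS : SpecSat) : SpecExist := by
  refine ⟨trumpData_unique.1, trumpData_unique.2, trumpData_bounds, ?_⟩
  intro T
  refine ⟨cfg_unit T, fun i => (walls T i).1, fun i => (walls T i).2.1,
    fun i => (walls T i).2.2.1, fun i => (walls T i).2.2.2, ?_⟩
  intro i j hij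
  rcases lt_or_gt_of_ne hij with h | h
  · exact hS.2 _ _ (cfg_unit T i) (cfg_unit T j) (seps T i j h)
  · exact (hS.2 _ _ (cfg_unit T j) (cfg_unit T i) (seps T j i h)).symm

end Pool.Agent.MP_abb58c_co
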