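import Pool.Agent.Lib.MP_abb58c_co.Node

/-! MP_abb58c_co, SWEEP: interface between the arithmetic of the sweep (`Covers`) and its geometry.
Everything is in naturals; a centre `(X, Y)` is in units `1/DD`, and
`U = a X + b Y`, `V = a Y + b (S0 - X)` are its coordinates in the integer frame `(a, b)`. -/

namespace Pool.Agent.MP_abb58c_co

namespace Sweep

/-- frame vector of the slab `[dir k, dir k']` -/
def fa (k k' : ℕ) : ℕ := (dir k).1 + (dir k').1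
/-- frame vector of the slab `[dir k, dir k']` -/
def fb (k k' : ℕ) : ℕ := (dir k).2 + (dir k').2
/-- cross product of the two directions (`k ≤ k'`) -/
def cr (k k' : ℕ) : ℕ := (dir k).1 * (dir k').2 - (dir k).2 * (dir k').1
/-- `16384 * |w| * max (cos + sin)` -/
def kk (k k' : ℕ) : ℕ :=
  max (fa k k' * (dir k).1 + fb k k' * (dir k).2) (fa k k' * (dir k').1 + fb k k' * (dir k').2) +
    cr k k'
/-- inner half size -/
def hin (k k' : ℕ) : ℕ := (fa k k' ^ 2 + fb k k' ^ 2) * 16384 * DD / (2 * kk k k')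
/-- outer half size -/
def hout (k k' : ℕ) : ℕ := DD * kk k k' / (2 * 16384) + 1
/-- lower bound for the half width of the shadow -/
def hm (k k' : ℕ) : ℕ :=
  min (DD * ((dir k).1 + (dir k).2) / (2 * 16386)) (DD * ((dir k').1 + (dir k').2) / (2 * 16386))

/-- first coordinate of an integer point -/
def uc (a b : ℕ) (x y : ℕ) : ℕ := a * x + b * y
/-- second coordinate of an integer point (`x ≤ S0`) -/
def vc (a b : ℕ) (x y : ℕ) : ℕ := a * y + b * (S0 - x)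

/-- weight seen from the real position `(U, V)` in the frame `(a, b)` -/
noncomputable def seen (a b h : ℕ) (pts : List (ℕ × ℕ × ℕ)) (U V : ℝ) : ℝ :=
  open Classical in
  (pts.map fun p => if |(uc a b p.1 p.2.1 : ℝ) - U| < h ∧ |(vc a b p.1 p.2.1 : ℝ) - V| < h
    then (p.2.2 : ℝ) else 0).sum

/-- the statement proved by the arithmetic sweep for one slab -/
def Covers (a b h x0 x1 y0 y1 ul uh vl vh thr : ℕ) (pts : List (ℕ × ℕ × ℕ)) : Prop :=
  ∀ X Y : ℝ, (x0 : ℝ) ≤ X → X ≤ x1 → (y0 : ℝ) ≤ Y → Y ≤ y1 →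
    (ul : ℝ) ≤ a * X + b * Y → a * X + b * Y ≤ uh →
    (vl : ℝ) ≤ a * Y + b * (S0 - X) → a * Y + b * (S0 - X) ≤ vh →
    (thr : ℝ) ≤ seen a b h pts (a * X + b * Y) (a * Y + b * (S0 - X))

/-- the slab `[k, k']` is admissible (checked once for each slab) -/
def slabOk (k k' : ℕ) : Bool :=
  Nat.ble ((dir k).2 * (dir k').1) ((dir k).1 * (dir k').2) &&
  Nat.ble (cr k k') (fa k k' * (dir k).1 + fb k k' * (dir k).2) &&
  Nat.ble (cr k k') (fa k k' * (dir k').1 + fb k k' * (dir k').2) &&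
  Nat.ble (16384 ^ 2) ((dir k).1 ^ 2 + (dir k).2 ^ 2) &&
  Nat.ble ((dir k).1 ^ 2 + (dir k).2 ^ 2) (16386 ^ 2) &&
  Nat.ble (16384 ^ 2) ((dir k').1 ^ 2 + (dir k').2 ^ 2) &&
  Nat.ble ((dir k').1 ^ 2 + (dir k').2 ^ 2) (16386 ^ 2)

/-- `q` has its direction in the cone of the slab -/
def InCone (k k' : ℕ) (q : Sq) : Prop :=
  0 ≤ q.c ∧ 0 ≤ q.s ∧ 0 ≤ ((dir k).1 : ℝ) * q.s - ((dir k).2 : ℝ) * q.c ∧
  0 ≤ ((dir k').2 : ℝ) * q.c - ((dir k').1 : ℝ) * q.s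

/-- weight of a weighted point list in the open square -/
noncomputable def wt (pts : List (ℕ × ℕ × ℕ)) (q : Sq) : ℝ :=
  open Classical in
  (pts.map fun p => if pt (p.1, p.2.1) ∈ q.op then (p.2.2 : ℝ) else 0).sum

/-- `q` lies in the container `[0, S0/DD]^2` -/
def InCont (q : Sq) : Prop :=
  q.h ≤ q.x ∧ q.x ≤ (S0 : ℝ) / DD - q.h ∧ q.h ≤ q.y ∧ q.y ≤ (S0 : ℝ) / DD - q.h

/-- (geometry of one slab) -/
def SpecSlab : Prop :=
  ∀ (k k' x0 x1 y0 y1 ul uh vl vh thr : ℕ) (pts : List (ℕ × ℕ × ℕ)) (C : List (ℕ × ℕ)) (q : Sq),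
    slabOk k k' = true →
    Covers (fa k k') (fb k k') (hin k k') x0 x1 y0 y1 ul uh vl vh thr pts →
    (∀ p ∈ pts, p.1 ≤ S0) → (∀ p ∈ C, p.1 ≤ S0) →
    q.c ^ 2 + q.s ^ 2 = 1 → InCone k k' q → InCont q →
    -- the centre is in the rectangle whenever it is in the shrunk container
    ((hm k k' : ℝ) ≤ DD * q.x → DD * q.x ≤ (S0 - hm k k' : ℝ) → (hm k k' : ℝ) ≤ DD * q.y →
      DD * q.y ≤ (S0 - hm k k' : ℝ) →
      (x0 : ℝ) ≤ DD * q.x ∧ DD * q.x ≤ x1 ∧ (y0 : ℝ) ≤ DD * q.y ∧ DD * q.y ≤ y1) →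
    -- the window contains the centre whenever it is close to the points of `C`
    (∀ U V : ℝ, 0 ≤ U → 0 ≤ V →
      (∀ p ∈ C, |(uc (fa k k') (fb k k') p.1 p.2 : ℝ) - U| < hout k k' ∧
        |(vc (fa k k') (fb k k') p.1 p.2 : ℝ) - V| < hout k k') →
      U = fa k k' * (DD * q.x) + fb k k' * (DD * q.y) →
      V = fa k k' * (DD * q.y) + fb k k' * (S0 - DD * q.x) →
      (ul : ℝ) ≤ U ∧ U ≤ uh ∧ (vl : ℝ) ≤ V ∧ V ≤ vh) →
    (∀ p ∈ C, pt p ∈ q.op) →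
    (thr : ℝ) ≤ wt pts q

end Sweep

end Pool.Agent.MP_abb58c_co
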