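import Pool.Agent.Lib.MP_abb58c_co.NodeC
import Pool.Agent.Lib.MP_abb58c_co.Exist
import Pool.Agent.Lib.MP_abb58c_co.SweepSpec

/-! MP_abb58c_co, CASE: from the four roots to the optimality of Trump's packing. -/

namespace Pool.Agent.MP_abb58c_co

open Case Roots

/-- every unit square of the container `[0, σ]^2` (with direction in the first quadrant) contains
one of the twelve points in its interior -/
def Unavoid : Prop := ∀ q : Sq, q.c ^ 2 + q.s ^ 2 = 1 → 0 ≤ q.c → 0 ≤ q.s → Sweep.InCont q →
  ∃ p ∈ P12, pt p ∈ q.op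

/-- no packing is better than Trump's -/
def Optimal : Prop := ∀ (T : TrumpData) (L : ℝ) (q : Fin 11 → Sq), L ≤ T.L → Pack L q → L = T.L

/-- a packing may be assumed to have its directions in the first quadrant -/
theorem Pack.normal {L : ℝ} {q : Fin 11 → Sq} (h : Pack L q) :
    ∃ q' : Fin 11 → Sq, Pack L q' ∧ (∀ i, 0 < (q' i).c) ∧ ∀ i, 0 ≤ (q' i).s := by
  choose q' h1 h2 h3 h4 h5 h6 h7 using fun i => Geom.normal (q i) (h.unit i)
  refine ⟨q', ⟨h1, fun i => ?_, fun i => ?_, fun i => ?_, fun i => ?_, fun i j hij => ?_⟩, h2, h3⟩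
  · rw [h7, h4]; exact h.left i
  · rw [h7, h4]; exact h.right i
  · rw [h7, h5]; exact h.bot i
  · rw [h7, h5]; exact h.top i
  · rw [h6, h6]; exact h.disj i j hij

/-- **CASE, part 1**: the twelve points and the four roots -/
theorem optimal_of_roots (hun : Unavoid) (hE : GoodC R_edge) (hC : GoodC R_corner)
    (hI : GoodC R_inner) (hP : GoodC R_pair) : Optimal := by
  intro T L q hL hq
  obtain ⟨q', hq', hc, hs⟩ := hq.normal
  have hC' := CPack.centre hq'
  have hp := hC'.pack (hL.trans T.L_lt_sig.le)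
  obtain ⟨m, e, R, hR, hN⟩ := Case.concl (fun i => unshiftSq L (q' i)) hp (fun i => (hc i).le) hs
    (fun i => hun _ (hp.unit i) (hc i).le (hs i) ⟨hp.left i, hp.right i, hp.bot i, hp.top i⟩)
  simp only [List.mem_cons, List.not_mem_nil, or_false] at hR
  rcases hR with rfl | rfl | rfl | rfl
  · exact hE.rot_relabel hL hC' m e hN
  · exact hC.rot_relabel hL hC' m e hN
  · exact hI.rot_relabel hL hC' m e hN
  · exact hP.rot_relabel hL hC' m e hN

/-- **CASE, part 2**: half of the class `RA` suffices -/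
theorem GoodC.RA_full (h : GoodC (RA 0 450)) : GoodC (RA 0 900) := by
  intro T L q hL hq hN
  rcases refl_RA hN with hN | hN
  · exact h T L q hL hq hN
  · exact h.refl_relabel hL hq tau hN

/-- Trump's side is the least side -/
theorem Optimal.isLeast (h : Optimal) (T : TrumpData) : IsLeast {s | Packable 11 s} T.L := by
  refine ⟨(specGeom.1 T.L).2 ⟨_, (specExist specSat).2.2.2 T⟩, fun s hs => ?_⟩
  obtain ⟨q, hq⟩ := (specGeom.1 s).1 hs
  by_contra hlt
  push Not at hlt
  exact hlt.ne (h T s q hlt.le hq)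

/-- the value of `s(11)` -/
theorem Optimal.minSide_eq (h : Optimal) (T : TrumpData) : minSide 11 = T.L :=
  (h.isLeast T).csInf_eq

end Pool.Agent.MP_abb58c_co
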