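import Pool.Agent.Lib.MP_abb58c_co.SweepRun
import Pool.Agent.Lib.MP_abb58c_co.CaseFinal

/-! MP_abb58c_co: the twelve points are unavoidable (computation with the reference sweep). -/

namespace Pool.Agent.MP_abb58c_co

open Roots

namespace Sweep

/-- data of the certificate: 60 slabs of 1.5 degrees -/
def aux12 : Aux := ⟨4095, 5, 511, 3000, 0, 600, 0,
  [15, 30, 45, 60, 75, 90, 105, 120, 135, 150, 165, 180, 195, 210, 225, 240, 255, 270, 285, 300,
   315, 330, 345, 360, 375, 390, 405, 420, 435, 450, 465, 480, 495, 510, 525, 540, 555, 570, 585,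
   600, 615, 630, 645, 660, 675, 690, 705, 720, 735, 750, 765, 780, 795, 810, 825, 840, 855, 870,
   885, 900]⟩

/-- the twelve points with weight one -/
def mu12 : List (ℕ × ℕ × ℕ) := P12.map fun p => (p.1, p.2, 1)

theorem run12 : sweepBox mu12 [] [] full 1 aux12 = true := by decide +kernel

theorem ptsIn12 : PtsIn mu12 [] [] := by
  refine ⟨?_, by simp, by simp⟩
  have : ∀ p ∈ mu12, p.1 ≤ S0 := by decide +kernel
  exact this

end Sweep

/-- the twelve points are unavoidable -/
theorem unavoid : Unavoid := by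
  intro q hu hc hs hcont
  have hbox : InBox full q := by
    obtain ⟨h1, h2, h3, h4⟩ := hcont
    have hh : 0 ≤ q.h := by rw [Sq.h]; positivity
    have hDD : ((DD : ℕ) : ℝ) = 100000 := by norm_num [DD]
    have hS0 : ((S0 : ℕ) : ℝ) = 387710 := by norm_num [S0]
    have d0 : dir 0 = (16384, 0) := by decide +kernel
    have d1 : dir 900 = (0, 16384) := by decide +kernel
    rw [hDD, hS0] at h2 h4
    refine ⟨?_, ?_, ?_, ?_, hc, hs, ?_, ?_⟩
    · simp only [full]; rw [hDD]; push_cast; linarith
    · simp only [full]; rw [hDD]; push_cast; linarith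
    · simp only [full]; rw [hDD]; push_cast; linarith
    · simp only [full]; rw [hDD]; push_cast; linarith
    · simp only [full]; rw [d0]; push_cast; linarith
    · simp only [full]; rw [d1]; push_cast; linarith
  have h := Sweep.specSweepBox Sweep.mu12 [] [] full 1 Sweep.aux12 Sweep.ptsIn12 Sweep.run12 q hu
    hcont hbox (by simp) (by simp)
  by_contra hcon
  push Not at hcon
  have h0 : Sweep.wt Sweep.mu12 q = 0 := by
    rw [Sweep.wt]
    apply List.sum_eq_zero
    intro x hx
    obtain ⟨p, hp, rfl⟩ := List.mem_map.1 hx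
    rw [Sweep.mu12, List.mem_map] at hp
    obtain ⟨r, hr, rfl⟩ := hp
    rw [if_neg (hcon r hr)]
  rw [h0] at h
  norm_num at h

end Pool.Agent.MP_abb58c_co
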