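import Pool.Agent.Lib.MP_abb58c_co.Nodes
import Pool.Agent.Lib.MP_abb58c_co.RootTree
import Pool.Agent.Lib.MP_abb58c_co.Final
import Pool.Agent.Lib.MP_abb58c_co.Unavoid

/-! MP_abb58c_co: assembly, from the nodes with certificates to the final statement. -/

namespace Pool.Agent.MP_abb58c_co

open Roots

/-- two adjacent windows of the angle of `Q0` -/
theorem GoodC.RA_union {a b c : ℕ} (h1 : GoodC (RA a b)) (h2 : GoodC (RA b c)) :
    GoodC (RA a c) := by
  intro T L q hL hq hN
  obtain ⟨n, hn, hC, hA, bx, hb, hqb⟩ := hN 10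
  have hn' : n = ⟨[I1, I0, J1, J2], [], [⟨0, 387710, 0, 387710, a, c⟩]⟩ := by
    simpa [RA] using hn.symm
  subst hn'
  rw [List.mem_singleton] at hb
  subst hb
  have key : ∀ k0 k1 : ℕ, InBox ⟨0, 387710, 0, 387710, k0, k1⟩ (q 10) → InNode (RA k0 k1) q := by
    intro k0 k1 hbox l
    by_cases hl : l = 10
    · subst hl
      exact ⟨⟨[I1, I0, J1, J2], [], [⟨0, 387710, 0, 387710, k0, k1⟩]⟩, rfl, hC, hA, _,
        List.mem_singleton.2 rfl, hbox⟩
    · obtain ⟨n', hn', hin⟩ := hN l
      refine ⟨n', ?_, hin⟩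
      rw [← hn']
      fin_cases l <;> first | rfl | exact absurd rfl hl
  rcases Box.lo_or_hi hqb 2 b with h | h
  · exact h1 T L q hL hq (key a b h)
  · exact h2 T L q hL hq (key b c h)

/-- consecutive windows `[a, k₁], [k₁, k₂], ...` are good -/
def Windows : ℕ → List ℕ → Prop
  | _, [] => True
  | a, k :: ks => GoodC (RA a k) ∧ Windows k ks

/-- the last break point -/
def lastK : ℕ → List ℕ → ℕ
  | a, [] => a
  | _, k :: ks => lastK k ks

/-- the union of consecutive windows -/
theorem GoodC.windows {a k : ℕ} : ∀ {ks : List ℕ}, Windows a (k :: ks) →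
    GoodC (RA a (lastK k ks)) := by
  intro ks
  induction ks generalizing a k with
  | nil => intro h; exact h.1
  | cons k' ks ih =>
    intro h
    exact h.1.RA_union (ih h.2)

/-- the final statement from the certificates and the valley -/
theorem statement_of_certs (hE : GoodC R_edge) (hC : GoodC R_corner) (hP : GoodC P2)
    (hS : GoodC S2) (hB : GoodC B3b) {k : ℕ} {ks : List ℕ} (hw : Windows 0 (k :: ks))
    (hk : lastK k ks = 370) (hv : ∀ i < 33, VStep i) (hF : GoodC (nd 33))
    (hl : GoodC (RA 420 450)) : Statement := by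
  have h1 : GoodC (RA 0 370) := hk ▸ GoodC.windows hw
  have h2 : GoodC (RA 0 450) := (h1.RA_union (goodC_valley hv hF)).RA_union hl
  exact statement_of_roots unavoid hE hC (R_inner_of hP hS) (R_pair_of h2.RA_full hB hP)

end Pool.Agent.MP_abb58c_co
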