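import Pool.Agent.Lib.MP_abb58c_co.Defs
import Mathlib.Tactic

/-! Internal (algebraic) form of packings: interface file shared by all parts of the proof. -/

namespace Pool.Agent.MP_abb58c_co

/-- a unit square: centre `(x,y)` and unit direction vector `(c,s)` of one side -/
@[ext] structure Sq where
  x : ℝ
  y : ℝ
  c : ℝ
  s : ℝ

namespace Sq

/-- open unit square -/
def op (q : Sq) : Set (ℝ × ℝ) :=
  {p | |(p.1 - q.x) * q.c + (p.2 - q.y) * q.s| < 1 / 2 ∧
       |(p.2 - q.y) * q.c - (p.1 - q.x) * q.s| < 1 / 2}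

/-- half width of the shadow of the square on an axis -/
noncomputable def h (q : Sq) : ℝ := (|q.c| + |q.s|) / 2

end Sq

/-- a packing of 11 unit squares in `[0,L]^2` in algebraic form -/
structure Pack (L : ℝ) (q : Fin 11 → Sq) : Prop where
  unit : ∀ i, (q i).c ^ 2 + (q i).s ^ 2 = 1
  left : ∀ i, (q i).h ≤ (q i).x
  right : ∀ i, (q i).x ≤ L - (q i).h
  bot : ∀ i, (q i).h ≤ (q i).y
  top : ∀ i, (q i).y ≤ L - (q i).h
  disj : ∀ i j, i ≠ j → Disjoint (q i).op (q j).op

/-- half width of `r` (relative to the frame of `q`), see `sat` -/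
noncomputable def relH (q r : Sq) : ℝ := (|q.c * r.c + q.s * r.s| + |q.c * r.s - q.s * r.c|) / 2

/-- the four separation alternatives for two unit squares -/
def Sep (q r : Sq) : Prop :=
  1 / 2 + relH q r ≤ |(r.x - q.x) * q.c + (r.y - q.y) * q.s| ∨
  1 / 2 + relH q r ≤ |(r.y - q.y) * q.c - (r.x - q.x) * q.s| ∨
  1 / 2 + relH q r ≤ |(r.x - q.x) * r.c + (r.y - q.y) * r.s| ∨
  1 / 2 + relH q r ≤ |(r.y - q.y) * r.c - (r.x - q.x) * r.s|

/-- The defining data of Trump's packing: `t = tan (θ/2)` is the root of the octic, `(c,s)` is the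
direction of the five tilted squares, `L` the side, `d` the height of the lower side of the fourth
square of the left column (`d ≈ 2.0326`), `w` the coordinate of the centre of `T3` along
`(-s,c)`. -/
structure TrumpData where
  t : ℝ
  c : ℝ
  s : ℝ
  L : ℝ
  d : ℝ
  w : ℝ
  ht0 : 0.3657693 < t
  ht1 : t < 0.3657694
  oct : 5*t^8 - 10*t^7 - 2*t^6 + 14*t^5 + 12*t^4 - 6*t^3 + 2*t^2 + 2*t - 1 = 0
  hc : c = (1 - t^2) / (1 + t^2)
  hs : s = 2 * t / (1 + t^2)
  hL : L = (6 * t + 4) / (1 + 2 * t - t^2)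
  hd : d = (c + s + 2 - (L - 1) * s) / c
  hw : w = (L - (c + s) / 2 - s * (c + (d + 1) * s + 1 / 2)) / c - 1

namespace TrumpData

variable (T : TrumpData)

/-- square with centre given by its coordinates `(u,v)` in the frame `(c,s), (-s,c)` -/
def tilted (u v : ℝ) : Sq := ⟨u * T.c - v * T.s, u * T.s + v * T.c, T.c, T.s⟩

/-- Trump's packing. Order: `A,B,C,D,E,F` (axis parallel), `T1,...,T5` (tilted). -/
noncomputable def cfg : Fin 11 → Sq := ![
  ⟨1/2, 1/2, 1, 0⟩,                       -- A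
  ⟨3/2, 1/2, 1, 0⟩,                       -- B
  ⟨1/2, 3/2, 1, 0⟩,                       -- C
  ⟨1/2, T.d + 1/2, 1, 0⟩,                 -- D
  ⟨T.L - 1/2, 1/2, 1, 0⟩,                 -- E
  ⟨T.L - 1/2, T.L - 1/2, 1, 0⟩,           -- F
  T.tilted (T.c + 2*T.s + 1/2) (T.d*T.c - T.s - 1/2),          -- T1
  T.tilted (2*T.c + T.s + 1/2) (T.d*T.c - T.s - 3/2),          -- T2
  T.tilted (T.c + 2*T.s + 3/2) T.w,                            -- T3
  T.tilted (T.c + (T.d+1)*T.s + 1/2) (T.w + 1),                -- T4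
  T.tilted (2*T.c + T.s + 3/2) (T.w - 1)]                      -- T5

end TrumpData

end Pool.Agent.MP_abb58c_co
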