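import Pool.Agent.Lib.MP_abb58c_co.Roots

/-! MP_abb58c_co, CASE: every packing lies, after a rotation and a relabelling, in one of the four
root nodes. -/

namespace Pool.Agent.MP_abb58c_co

namespace Case

open Roots Function

/-- side of the outer container -/
noncomputable abbrev sig : ℝ := (S0 : ℝ) / DD

/-- rotation of a square about the centre of the container -/
noncomputable def rotSq (q : Sq) : Sq := ⟨sig - q.y, q.x, q.c, q.s⟩

/-- rotation of an integer point about the centre of the container -/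
def rotP (p : ℕ × ℕ) : ℕ × ℕ := (S0 - p.2, p.1)

lemma mem_rot {p : ℕ × ℕ} {q : Sq} (hp : p.2 ≤ S0) :
    pt (rotP p) ∈ (rotSq q).op ↔ pt p ∈ q.op := by
  have h : ((S0 - p.2 : ℕ) : ℝ) / DD = sig - (p.2 : ℝ) / DD := by
    rw [Nat.cast_sub hp, sub_div]
  simp only [Sq.op, pt, rotP, rotSq, Set.mem_ofPred_eq, h]
  have e1 : (sig - (p.2 : ℝ) / DD - (sig - q.y)) * q.c + ((p.1 : ℝ) / DD - q.x) * q.s
      = -(((p.2 : ℝ) / DD - q.y) * q.c - ((p.1 : ℝ) / DD - q.x) * q.s) := by ring
  have e2 : ((p.1 : ℝ) / DD - q.x) * q.c - (sig - (p.2 : ℝ) / DD - (sig - q.y)) * q.s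
      = ((p.1 : ℝ) / DD - q.x) * q.c + ((p.2 : ℝ) / DD - q.y) * q.s := by ring
  rw [e1, e2, abs_neg]
  exact and_comm

/-- the twelve points as a function -/
def P : Fin 12 → ℕ × ℕ := ![O0, O1, O2, O3, O4, O5, O6, O7, I0, I1, I2, I3]

/-- the rotation on the indices of the twelve points -/
def r : Fin 12 → Fin 12 := ![1, 2, 3, 0, 5, 6, 7, 4, 9, 10, 11, 8]

lemma P_r : ∀ j, P (r j) = rotP (P j) := by decide
lemma P_le : ∀ j, (P j).2 ≤ S0 := by decide
lemma r_inj : Injective r := by decide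

lemma mem_iter (m : ℕ) (q : Sq) (j : Fin 12) :
    pt (P (r^[m] j)) ∈ (rotSq^[m] q).op ↔ pt (P j) ∈ q.op := by
  induction m with
  | zero => exact Iff.rfl
  | succ m ih =>
    rw [iterate_succ_apply', iterate_succ_apply', P_r, mem_rot (P_le _)]
    exact ih

/-- `g` assigns to every square one of its points and `k` is the leftover point -/
structure Valid (q : Fin 11 → Sq) (g : Fin 11 → Fin 12) (k : Fin 12) : Prop where
  mem : ∀ i, pt (P (g i)) ∈ (q i).op
  inj : Injective g
  ne : ∀ i, g i ≠ k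

lemma Valid.surj {q : Fin 11 → Sq} {g : Fin 11 → Fin 12} {k : Fin 12} (h : Valid q g k)
    {j : Fin 12} (hj : j ≠ k) : ∃ i, g i = j := by
  classical
  have h1 : (Finset.univ.image g) = Finset.univ.erase k := by
    apply Finset.eq_of_subset_of_card_le
    · intro x hx
      obtain ⟨i, -, rfl⟩ := Finset.mem_image.1 hx
      exact Finset.mem_erase.2 ⟨h.ne i, Finset.mem_univ _⟩
    · rw [Finset.card_image_of_injective _ h.inj, Finset.card_erase_of_mem (Finset.mem_univ _)]
      simp
  have h2 : j ∈ Finset.univ.image g := by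
    rw [h1]; exact Finset.mem_erase.2 ⟨hj, Finset.mem_univ _⟩
  obtain ⟨i, -, hi⟩ := Finset.mem_image.1 h2
  exact ⟨i, hi⟩

lemma Valid.relabel {q : Fin 11 → Sq} {g : Fin 11 → Fin 12} {k : Fin 12} (h : Valid q g k)
    {lab : Fin 11 → Fin 12} (hl : Injective lab) (hk : ∀ l, lab l ≠ k) :
    ∃ e : Equiv.Perm (Fin 11), ∀ l, g (e l) = lab l := by
  choose e he using fun l => h.surj (hk l)
  have hi : Injective e := by
    intro a b hab
    apply hl
    rw [← he a, ← he b, hab]
  exact ⟨Equiv.ofBijective e (Finite.injective_iff_bijective.1 hi), he⟩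

/-- disjointness -/
def Dj (q : Fin 11 → Sq) : Prop := ∀ i i' p, p ∈ (q i).op → p ∈ (q i').op → i = i'

lemma Valid.uniq {q : Fin 11 → Sq} {g : Fin 11 → Fin 12} {k : Fin 12} (h : Valid q g k)
    (hd : Dj q) {i : Fin 11} {j : Fin 12} (hj : pt (P j) ∈ (q i).op) : j = g i ∨ j = k := by
  by_contra hne
  push Not at hne
  obtain ⟨i', hi'⟩ := h.surj hne.2
  have := hd i i' _ hj (by rw [← hi']; exact h.mem i')
  exact hne.1 (by rw [← hi', this])

/-- exchange of the leftover point with the other point of a double square -/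
lemma Valid.swap {q : Fin 11 → Sq} {g : Fin 11 → Fin 12} {k : Fin 12} (h : Valid q g k)
    {i : Fin 11} (hi : pt (P k) ∈ (q i).op) : Valid q (Function.update g i k) (g i) where
  mem l := by
    by_cases hl : l = i
    · subst hl; rw [update_self]; exact hi
    · rw [update_of_ne hl]; exact h.mem l
  inj a b hab := by
    by_cases ha : a = i
    · by_cases hb : b = i
      · rw [ha, hb]
      · subst ha
        rw [update_self, update_of_ne hb] at hab
        exact absurd hab.symm (h.ne b)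
    · by_cases hb : b = i
      · subst hb
        rw [update_self, update_of_ne ha] at hab
        exact absurd hab (h.ne a)
      · rw [update_of_ne ha, update_of_ne hb] at hab
        exact h.inj hab
  ne l := by
    by_cases hl : l = i
    · subst hl; rw [update_self]; exact (h.ne l).symm
    · rw [update_of_ne hl]; exact fun e => hl (h.inj e)

lemma Valid.rot {q : Fin 11 → Sq} {g : Fin 11 → Fin 12} {k : Fin 12} (h : Valid q g k) (m : ℕ) :
    Valid (fun i => rotSq^[m] (q i)) (fun i => r^[m] (g i)) (r^[m] k) where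
  mem i := (mem_iter m _ _).2 (h.mem i)
  inj _ _ hab := h.inj (r_inj.iterate m hab)
  ne i hi := h.ne i (r_inj.iterate m hi)

/-- the square is somewhere in the container and has its direction in the first quadrant -/
def Nice (q : Sq) : Prop := 0 ≤ q.x ∧ q.x ≤ sig ∧ 0 ≤ q.y ∧ q.y ≤ sig ∧ 0 ≤ q.c ∧ 0 ≤ q.s

lemma Nice.rot {q : Sq} (h : Nice q) : Nice (rotSq q) := by
  obtain ⟨h1, h2, h3, h4, h5, h6⟩ := h
  refine ⟨?_, ?_, h1, h2, h5, h6⟩
  · change 0 ≤ sig - q.y; linarith
  · change sig - q.y ≤ sig; linarith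

lemma Nice.iter {q : Sq} (h : Nice q) (m : ℕ) : Nice (rotSq^[m] q) := by
  induction m with
  | zero => exact h
  | succ m ih => rw [iterate_succ_apply']; exact ih.rot

lemma dir0 : (dir 0).2 = 0 := by decide +kernel
lemma dir900 : (dir 900).1 = 0 := by decide +kernel

lemma Nice.full {q : Sq} (h : Nice q) : InBox full q := by
  obtain ⟨h1, h2, h3, h4, h5, h6⟩ := h
  refine ⟨?_, ?_, ?_, ?_, h5, h6, ?_, ?_⟩
  · change ((0 : ℕ) : ℝ) / DD ≤ q.x; simpa using h1
  · exact h2
  · change ((0 : ℕ) : ℝ) / DD ≤ q.y; simpa using h3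
  · exact h4
  · change 0 ≤ ((dir 0).1 : ℝ) * q.s - ((dir 0).2 : ℝ) * q.c
    rw [dir0]; simp; positivity
  · change 0 ≤ ((dir 900).2 : ℝ) * q.c - ((dir 900).1 : ℝ) * q.s
    rw [dir900]; simp; positivity

/-- labels of the root nodes -/
def labE : Fin 11 → Fin 12 := ![1, 2, 3, 4, 5, 6, 7, 8, 9, 10, 11]
def labC : Fin 11 → Fin 12 := ![0, 1, 2, 3, 5, 6, 7, 8, 9, 10, 11]
def labI : Fin 11 → Fin 12 := ![0, 1, 2, 3, 4, 5, 6, 7, 9, 10, 11]
def labP : Fin 11 → Fin 12 := ![0, 1, 2, 3, 4, 5, 6, 7, 10, 11, 9]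

lemma getE : ∀ l : Fin 11, R_edge[(l : ℕ)]? = some (lb [P (labE l)] []) := by decide
lemma getC : ∀ l : Fin 11, R_corner[(l : ℕ)]? = some (lb [P (labC l)] []) := by decide
lemma getI : ∀ l : Fin 11, R_inner[(l : ℕ)]? =
    some (lb [P (labI l)] (if labI l = 10 then [] else [P 8])) := by decide
lemma getP : ∀ l : Fin 11, R_pair[(l : ℕ)]? =
    some (lb (if labP l = 9 then [P 9, P 8] else [P (labP l)]) []) := by decide

/-- the conclusion -/
def Concl (q : Fin 11 → Sq) : Prop :=
  ∃ (m : ℕ) (e : Equiv.Perm (Fin 11)), ∃ R ∈ [R_edge, R_corner, R_inner, R_pair],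
    InNode R (fun l => rotSq^[m] (q (e l)))

lemma inE {q : Fin 11 → Sq} (hn : ∀ i, Nice (q i)) {g k} (h : Valid q g k) {m : ℕ}
    (hk : r^[m] k = 0) : Concl q := by
  have h' := h.rot m
  rw [hk] at h'
  obtain ⟨e, he⟩ := h'.relabel (lab := labE) (by decide) (by decide)
  refine ⟨m, e, R_edge, by simp, fun l => ⟨_, getE l, ?_, ?_, full, by simp [lb], ?_⟩⟩
  · intro p hp
    simp only [lb, List.mem_singleton] at hp
    subst hp
    rw [← he l]
    exact h'.mem (e l)
  · intro p hp; simp [lb] at hp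
  · exact ((hn _).iter m).full

lemma inC {q : Fin 11 → Sq} (hn : ∀ i, Nice (q i)) {g k} (h : Valid q g k) {m : ℕ}
    (hk : r^[m] k = 4) : Concl q := by
  have h' := h.rot m
  rw [hk] at h'
  obtain ⟨e, he⟩ := h'.relabel (lab := labC) (by decide) (by decide)
  refine ⟨m, e, R_corner, by simp, fun l => ⟨_, getC l, ?_, ?_, full, by simp [lb], ?_⟩⟩
  · intro p hp
    simp only [lb, List.mem_singleton] at hp
    subst hp
    rw [← he l]
    exact h'.mem (e l)
  · intro p hp; simp [lb] at hp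
  · exact ((hn _).iter m).full

lemma inI {q : Fin 11 → Sq} (hn : ∀ i, Nice (q i)) {g k} (h : Valid q g k) {m : ℕ}
    (hk : r^[m] k = 8) (hm : ∀ i, pt (P k) ∈ (q i).op → r^[m] (g i) = 10) : Concl q := by
  have h' := h.rot m
  rw [hk] at h'
  obtain ⟨e, he⟩ := h'.relabel (lab := labI) (by decide) (by decide)
  refine ⟨m, e, R_inner, by simp, fun l => ⟨_, getI l, ?_, ?_, full, by simp [lb], ?_⟩⟩
  · intro p hp
    simp only [lb, List.mem_singleton] at hp
    subst hp
    rw [← he l]
    exact h'.mem (e l)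
  · intro p hp
    by_cases hl : labI l = 10
    · simp [lb, hl] at hp
    · simp only [lb, hl, if_false, List.mem_singleton] at hp
      subst hp
      intro hmem
      rw [← hk] at hmem
      exact hl (by rw [← he l]; exact hm _ ((mem_iter m _ _).1 hmem))
  · exact ((hn _).iter m).full

lemma inP {q : Fin 11 → Sq} (hn : ∀ i, Nice (q i)) {g k} (h : Valid q g k) {m : ℕ}
    (hk : r^[m] k = 8) {i : Fin 11} (hi : pt (P k) ∈ (q i).op) (hgi : r^[m] (g i) = 9) :
    Concl q := by
  have h' := h.rot m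
  rw [hk] at h'
  obtain ⟨e, he⟩ := h'.relabel (lab := labP) (by decide) (by decide)
  refine ⟨m, e, R_pair, by simp, fun l => ⟨_, getP l, ?_, ?_, full, by simp [lb], ?_⟩⟩
  · intro p hp
    by_cases hl : labP l = 9
    · have hel : e l = i := h'.inj (by
        rw [hgi, ← hl]; exact he l)
      simp only [lb, hl, if_true, List.mem_cons, List.not_mem_nil, or_false] at hp
      rcases hp with rfl | rfl
      · have h9 : r^[m] (g (e l)) = 9 := by rw [← hl]; exact he l
        rw [← h9]
        exact h'.mem (e l)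
      · change pt (P 8) ∈ (rotSq^[m] (q (e l))).op
        rw [hel, ← hk]
        exact (mem_iter m _ _).2 hi
    · simp only [lb, hl, if_false, List.mem_singleton] at hp
      subst hp
      rw [← he l]
      exact h'.mem (e l)
  · intro p hp; simp [lb] at hp
  · exact ((hn _).iter m).full

lemma idx : ∀ k : Fin 12, (∃ m : Fin 4, r^[(m : ℕ)] k = 0) ∨ (∃ m : Fin 4, r^[(m : ℕ)] k = 4) ∨
    ∃ m : Fin 4, r^[(m : ℕ)] k = 8 := by
  decide

lemma idx8 : ∀ (k : Fin 12) (m : Fin 4) (j : Fin 12), r^[(m : ℕ)] k = 8 → j ≠ k →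
    (∃ m' : Fin 4, r^[(m' : ℕ)] j = 0) ∨ (∃ m' : Fin 4, r^[(m' : ℕ)] j = 4) ∨
      r^[(m : ℕ)] j = 9 ∨ r^[(m : ℕ)] j = 10 ∨
      ∃ m' : Fin 4, r^[(m' : ℕ)] j = 8 ∧ r^[(m' : ℕ)] k = 9 := by
  decide

theorem concl_of_valid {q : Fin 11 → Sq} (hn : ∀ i, Nice (q i)) {g k} (h : Valid q g k) :
    Concl q := by
  rcases idx k with ⟨m, hm⟩ | ⟨m, hm⟩ | ⟨m, hm⟩
  · exact inE hn h hm
  · exact inC hn h hm
  · by_cases hex : ∃ i, pt (P k) ∈ (q i).op ∧ r^[(m : ℕ)] (g i) ≠ 10
    · obtain ⟨i, hi, hi'⟩ := hex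
      rcases idx8 k m (g i) hm (h.ne i) with ⟨m', h'⟩ | ⟨m', h'⟩ | h' | h' | ⟨m', h', h''⟩
      · exact inE hn (h.swap hi) h'
      · exact inC hn (h.swap hi) h'
      · exact inP hn h hm hi h'
      · exact absurd h' hi'
      · exact inP hn (h.swap hi) h' (i := i) (h.mem i) (by rw [update_self]; exact h'')
    · push Not at hex
      exact inI hn h hm hex

/-- **CASE**: a packing in the outer container, with directions in the first quadrant, in which
every square contains one of the twelve points lies in a root node after a rotation about the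
centre and a relabelling. -/
theorem concl (q : Fin 11 → Sq) (hq : Pack sig q) (hc : ∀ i, 0 ≤ (q i).c) (hs : ∀ i, 0 ≤ (q i).s)
    (hun : ∀ i, ∃ p ∈ P12, pt p ∈ (q i).op) : Concl q := by
  have hd : Dj q := by
    intro i i' p hp hp'
    by_contra hne
    exact Set.disjoint_left.1 (hq.disj i i' hne) hp hp'
  have hn : ∀ i, Nice (q i) := by
    intro i
    have h0 : 0 ≤ (q i).h := by unfold Sq.h; positivity
    have h1 := hq.left i
    have h2 := hq.right i
    have h3 := hq.bot i
    have h4 := hq.top i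
    exact ⟨by linarith, by linarith, by linarith, by linarith, hc i, hs i⟩
  have hP : ∀ p ∈ P12, ∃ j, p = P j := by decide
  have hun' : ∀ i, ∃ j, pt (P j) ∈ (q i).op := by
    intro i
    obtain ⟨p, hp, hpi⟩ := hun i
    obtain ⟨j, rfl⟩ := hP p hp
    exact ⟨j, hpi⟩
  choose g hg using hun'
  have hgi : Injective g := fun a b hab => hd a b _ (hg a) (by rw [hab]; exact hg b)
  obtain ⟨k, hk⟩ : ∃ k, ∀ i, g i ≠ k := by
    by_contra hcon
    push Not at hcon
    have := Fintype.card_le_of_surjective g hcon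
    simp at this
  exact concl_of_valid hn ⟨hg, hgi, hk⟩

end Case

end Pool.Agent.MP_abb58c_co
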