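import Pool.Agent.Lib.MP_abb58c_co.Case

/-! MP_abb58c_co, CASE: the reflection `y -> S0 - y` of the class `RA`. -/

namespace Pool.Agent.MP_abb58c_co

namespace Case

open Roots Function

/-- reflection of a square in the horizontal middle line of the container -/
noncomputable def reflSq (q : Sq) : Sq := ⟨q.x, sig - q.y, q.s, q.c⟩

/-- reflection of an integer point in the horizontal middle line of the container -/
def reflP (p : ℕ × ℕ) : ℕ × ℕ := (p.1, S0 - p.2)

lemma mem_refl {p : ℕ × ℕ} {q : Sq} (hp : p.2 ≤ S0) :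
    pt (reflP p) ∈ (reflSq q).op ↔ pt p ∈ q.op := by
  have h : ((S0 - p.2 : ℕ) : ℝ) / DD = sig - (p.2 : ℝ) / DD := by
    rw [Nat.cast_sub hp, sub_div]
  simp only [Sq.op, pt, reflP, reflSq, Set.mem_ofPred_eq, h]
  have e1 : ((p.1 : ℝ) / DD - q.x) * q.s + (sig - (p.2 : ℝ) / DD - (sig - q.y)) * q.c
      = -(((p.2 : ℝ) / DD - q.y) * q.c - ((p.1 : ℝ) / DD - q.x) * q.s) := by ring
  have e2 : (sig - (p.2 : ℝ) / DD - (sig - q.y)) * q.s - ((p.1 : ℝ) / DD - q.x) * q.c
      = -(((p.1 : ℝ) / DD - q.x) * q.c + ((p.2 : ℝ) / DD - q.y) * q.s) := by ring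
  rw [e1, e2, abs_neg, abs_neg]
  exact and_comm

lemma Nice.refl {q : Sq} (h : Nice q) : Nice (reflSq q) := by
  obtain ⟨h1, h2, h3, h4, h5, h6⟩ := h
  refine ⟨h1, h2, ?_, ?_, h6, h5⟩
  · change 0 ≤ sig - q.y; linarith
  · change sig - q.y ≤ sig; linarith

lemma nice_of_inBox {q : Sq} {k0 k1 : ℕ} (h : InBox ⟨0, 387710, 0, 387710, k0, k1⟩ q) :
    Nice q := by
  obtain ⟨h1, h2, h3, h4, h5, h6, -, -⟩ := h
  refine ⟨?_, h2, ?_, h4, h5, h6⟩
  · have : ((0 : ℕ) : ℝ) / DD ≤ q.x := h1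
    simpa using this
  · have : ((0 : ℕ) : ℝ) / DD ≤ q.y := h3
    simpa using this

lemma dir450 : (dir 450).1 = (dir 450).2 := by decide +kernel

lemma inBox450 {q : Sq} (h : Nice q) (hc : q.s ≤ q.c) :
    InBox ⟨0, 387710, 0, 387710, 0, 450⟩ q := by
  obtain ⟨h1, h2, h3, h4, h5, h6, h7, h8⟩ := h.full
  refine ⟨h1, h2, h3, h4, h5, h6, h7, ?_⟩
  change 0 ≤ ((dir 450).2 : ℝ) * q.c - ((dir 450).1 : ℝ) * q.s
  rw [dir450, ← mul_sub]
  exact mul_nonneg (by positivity) (by linarith)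

/-- the labels after the reflection -/
def tau : Equiv.Perm (Fin 11) where
  toFun := ![2, 1, 0, 3, 7, 6, 5, 4, 9, 8, 10]
  invFun := ![2, 1, 0, 3, 7, 6, 5, 4, 9, 8, 10]
  left_inv := by decide
  right_inv := by decide

/-- the points of the labels of `RA` -/
def ptsRA : Fin 11 → List (ℕ × ℕ) :=
  ![[O0], [O1], [O2], [O3], [O4], [O5], [O6], [O7], [I2, J0], [I3, J3], [I1, I0, J1, J2]]

lemma getRA (k0 k1 : ℕ) : ∀ l : Fin 11, (RA k0 k1)[(l : ℕ)]? =
    some ⟨ptsRA l, [], [if l = 10 then ⟨0, 387710, 0, 387710, k0, k1⟩ else full]⟩ := by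
  intro l
  fin_cases l <;> rfl

lemma refl_pts : ∀ l : Fin 11, ∀ p ∈ ptsRA l, p.2 ≤ S0 ∧ reflP p ∈ ptsRA (tau l) := by decide

lemma refl_pts' : ∀ l : Fin 11, ∀ p ∈ ptsRA l, ∃ p' ∈ ptsRA (tau l), p'.2 ≤ S0 ∧ p = reflP p' := by
  decide

/-- a packing in the class `RA` can be reflected so that the central square has an angle of at most
45 degrees -/
theorem refl_RA {q : Fin 11 → Sq} (h : InNode (RA 0 900) q) :
    InNode (RA 0 450) q ∨ InNode (RA 0 450) (fun l => reflSq (q (tau l))) := by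
  have hn : ∀ l, Nice (q l) := by
    intro l
    obtain ⟨n, hn, -, -, b, hb, hbq⟩ := h l
    rw [getRA] at hn
    obtain rfl := Option.some.inj hn
    simp only [List.mem_singleton] at hb
    subst hb
    by_cases hl : l = 10
    · rw [if_pos hl] at hbq; exact nice_of_inBox hbq
    · rw [if_neg hl] at hbq; exact nice_of_inBox hbq
  have hm : ∀ l, ∀ p ∈ ptsRA l, pt p ∈ (q l).op := by
    intro l p hp
    obtain ⟨n, hn, hC, -, -⟩ := h l
    rw [getRA] at hn
    obtain rfl := Option.some.inj hn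
    exact hC p hp
  rcases le_total (q 10).s (q 10).c with hc | hc
  · left
    intro l
    refine ⟨_, getRA 0 450 l, hm l, by simp, _, List.mem_singleton.2 rfl, ?_⟩
    by_cases hl : l = 10
    · rw [if_pos hl, hl]; exact inBox450 (hn _) hc
    · rw [if_neg hl]; exact (hn l).full
  · right
    intro l
    refine ⟨_, getRA 0 450 l, ?_, by simp, _, List.mem_singleton.2 rfl, ?_⟩
    · intro p hp
      obtain ⟨p', hp', hle, rfl⟩ := refl_pts' l p hp
      exact (mem_refl hle).2 (hm _ p' hp')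
    · by_cases hl : l = 10
      · rw [if_pos hl]
        subst hl
        exact inBox450 (hn _).refl hc
      · rw [if_neg hl]; exact (hn _).refl.full

end Case

end Pool.Agent.MP_abb58c_co
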