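import Pool.Agent.Lib.MP_abb58c_co.SweepSpec

/-! MP_abb58c_co, SWEEP: range of `V` on a rectangle for `U` in an interval. -/

namespace Pool.Agent.MP_abb58c_co

namespace Sweep

/-- lower bound for `V` from precomputed constants:
`l0 = a y0 + b (S0 - x1)`, `p = a b S0 + n2 y0`, `r = b b S0`, `t = n2 x1` -/
def vlowC (a b l0 p r t A B : ℕ) : ℕ :=
  max l0 (max ((p - b * B) / a) ((r + a * A - t) / b))

/-- upper bound for `V` from precomputed constants:
`h0 = a y1 + b (S0 - x0)`, `p = a b S0 + n2 y1`, `r = b b S0`, `t = n2 x0`; a bound with `a = 0`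
(resp. `b = 0`) is skipped -/
def vhighC (a b h0 p r t A B : ℕ) : ℕ :=
  min h0 (min (bif Nat.beq a 0 then h0 else (p - b * A) / a + 1)
    (bif Nat.beq b 0 then h0 else (r + a * B - t) / b + 1))

/-- lower bound for `V` -/
def vlow (a b x1 y0 A B : ℕ) : ℕ :=
  vlowC a b (a * y0 + b * (S0 - x1)) (a * b * S0 + (a * a + b * b) * y0) (b * b * S0)
    ((a * a + b * b) * x1) A B

/-- upper bound for `V` -/
def vhigh (a b x0 y1 A B : ℕ) : ℕ :=
  vhighC a b (a * y1 + b * (S0 - x0)) (a * b * S0 + (a * a + b * b) * y1) (b * b * S0)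
    ((a * a + b * b) * x0) A B

/-- `(m - n) / d ≤ V` if `m - n ≤ d V` and `0 ≤ V` -/
theorem subdiv_le {m n d : ℕ} {V : ℝ} (hV : 0 ≤ V) (h : (m : ℝ) - n ≤ d * V) :
    (((m - n) / d : ℕ) : ℝ) ≤ V := by
  rcases Nat.eq_zero_or_pos d with hd | hd
  · subst hd
    simpa using hV
  · have hd' : (0 : ℝ) < d := by exact_mod_cast hd
    rcases le_total m n with hmn | hmn
    · rw [Nat.sub_eq_zero_of_le hmn, Nat.zero_div]
      simpa using hV
    · have h1 : (((m - n) / d : ℕ) : ℝ) * d ≤ ((m - n : ℕ) : ℝ) := by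
        exact_mod_cast Nat.div_mul_le_self (m - n) d
      rw [Nat.cast_sub hmn] at h1
      by_contra hlt
      push Not at hlt
      nlinarith

/-- `V ≤ (m - n) / d + 1` if `d V ≤ m - n` and `0 < d` -/
theorem le_subdiv {m n d : ℕ} {V : ℝ} (hd : 0 < d) (h : (d : ℝ) * V ≤ m - n) :
    V ≤ (((m - n) / d + 1 : ℕ) : ℝ) := by
  have hd' : (0 : ℝ) < d := by exact_mod_cast hd
  have h1 : (m - n) < d * ((m - n) / d + 1) := by
    have := Nat.lt_mul_div_succ (m - n) hd
    simpa using this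
  have h2 : (m : ℝ) ≤ n + d * (((m - n) / d + 1 : ℕ) : ℝ) := by
    have h3 : m ≤ n + d * ((m - n) / d + 1) := by omega
    exact_mod_cast h3
  by_contra hlt
  push Not at hlt
  nlinarith

theorem beq_zero_of_pos {d : ℕ} (hd : 0 < d) : Nat.beq d 0 = false := by
  obtain ⟨n, rfl⟩ := Nat.exists_eq_succ_of_ne_zero hd.ne'
  rfl

section
variable {a b x0 x1 y0 y1 A B : ℕ} {X Y : ℝ}

theorem vlow_le (hx1 : x1 ≤ S0) (hX1 : X ≤ x1) (hY0 : (y0 : ℝ) ≤ Y)
    (hA : (A : ℝ) ≤ a * X + b * Y) (hB : a * X + b * Y ≤ B) :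
    (vlow a b x1 y0 A B : ℝ) ≤ a * Y + b * (S0 - X) := by
  have ha : (0 : ℝ) ≤ a := Nat.cast_nonneg a
  have hb : (0 : ℝ) ≤ b := Nat.cast_nonneg b
  have hx1' : (x1 : ℝ) ≤ (S0 : ℕ) := by exact_mod_cast hx1
  have hy0 : (0 : ℝ) ≤ y0 := Nat.cast_nonneg y0
  have hV0 : (0 : ℝ) ≤ a * Y + b * (S0 - X) :=
    add_nonneg (mul_nonneg ha (by linarith)) (mul_nonneg hb (by linarith))
  unfold vlow vlowC
  rw [Nat.cast_max, Nat.cast_max]
  refine max_le ?_ (max_le ?_ ?_)
  · rw [Nat.cast_add, Nat.cast_mul, Nat.cast_mul, Nat.cast_sub hx1]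
    have h1 := mul_le_mul_of_nonneg_left hY0 ha
    have h2 := mul_le_mul_of_nonneg_left hX1 hb
    linarith
  · apply subdiv_le hV0
    push_cast
    have h1 := mul_le_mul_of_nonneg_left hY0 (by positivity : (0 : ℝ) ≤ a * a + b * b)
    have h2 := mul_le_mul_of_nonneg_left hB hb
    nlinarith
  · apply subdiv_le hV0
    push_cast
    have h1 := mul_le_mul_of_nonneg_left hX1 (by positivity : (0 : ℝ) ≤ a * a + b * b)
    have h2 := mul_le_mul_of_nonneg_left hA ha
    nlinarith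

theorem le_vhigh (hx0 : x0 ≤ S0) (hX0 : (x0 : ℝ) ≤ X) (hY1 : Y ≤ y1) (hA : (A : ℝ) ≤ a * X + b * Y) (hB : a * X + b * Y ≤ B) :
    a * Y + b * (S0 - X) ≤ (vhigh a b x0 y1 A B : ℝ) := by
  have ha : (0 : ℝ) ≤ a := Nat.cast_nonneg a
  have hb : (0 : ℝ) ≤ b := Nat.cast_nonneg b
  have h0 : a * Y + b * (S0 - X) ≤ ((a * y1 + b * (S0 - x0) : ℕ) : ℝ) := by
    rw [Nat.cast_add, Nat.cast_mul, Nat.cast_mul, Nat.cast_sub hx0]
    have h1 := mul_le_mul_of_nonneg_left hY1 ha
    have h2 := mul_le_mul_of_nonneg_left hX0 hb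
    linarith
  unfold vhigh vhighC
  rw [Nat.cast_min, Nat.cast_min]
  refine le_min h0 (le_min ?_ ?_)
  · rcases Nat.eq_zero_or_pos a with h | h
    · rw [h]
      rw [h] at h0
      exact h0
    · rw [beq_zero_of_pos h]
      simp only [cond_false]
      apply le_subdiv h
      push_cast
      have h1 := mul_le_mul_of_nonneg_left hY1 (by positivity : (0 : ℝ) ≤ a * a + b * b)
      have h2 := mul_le_mul_of_nonneg_left hA hb
      nlinarith
  · rcases Nat.eq_zero_or_pos b with h | h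
    · rw [h]
      rw [h] at h0
      exact h0
    · rw [beq_zero_of_pos h]
      simp only [cond_false]
      apply le_subdiv h
      push_cast
      have h1 := mul_le_mul_of_nonneg_left hX0 (by positivity : (0 : ℝ) ≤ a * a + b * b)
      have h2 := mul_le_mul_of_nonneg_left hB ha
      nlinarith

end

end Sweep

end Pool.Agent.MP_abb58c_co
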