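import Pool.Agent.Lib.MP_abb58c_co.RectSpec
import Pool.Agent.Lib.MP_abb58c_co.VRange

/-! MP_abb58c_co: RECTANGLE CHECKER, soundness of one slab after the constants (helper40):
induction over the strips and the break points, ranges of `V`. -/

set_option linter.unusedVariables false

namespace Pool.Agent.MP_abb58c_co

namespace Rect

open Sweep

namespace Slab

theorem nmax_eq (x y : ℕ) : nmax x y = max x y := by
  show x + (y - x) = max x y
  omega

theorem nmin_eq (x y : ℕ) : nmin x y = min x y := by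
  show x - (x - y) = min x y
  omega

theorem andB_eq {c r : Bool} (h : andB c r = true) : c = true ∧ r = true := by
  cases c
  · exact absurd h (by simp [andB])
  · exact ⟨rfl, h⟩

/-! ### the inner loop -/

section Inner

variable {D : ℕ → ℕ} {oV XU YU HV : ℕ} {K : ℕ → ℕ → Bool}

theorem inner_zero (c CV err : ℕ) : inner D oV XU YU HV K 0 c CV err =
    K c (err + D ((XU + CV) &&& (YU - HV))) := rfl

theorem inner_succ (r c CV err : ℕ) : inner D oV XU YU HV K (r + 1) c CV err =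
    inner D oV XU YU HV K r (c >>> 19) ((c &&& 524287) * oV)
      (err + D ((XU + CV) &&& (YU - (c &&& 524287) * oV))) := rfl

theorem inner_spec (hi : ℕ) : ∀ (r c C err : ℕ),
    inner D oV XU YU (hi * oV) K r c (C * oV) err = true →
    ∃ c' err', K c' err' = true ∧ err ≤ err' ∧
      (err' = 0 → ∀ V : ℝ, (C : ℝ) ≤ V → V ≤ hi → C < 2 ^ 19 → hi < 2 ^ 19 →
        ∃ C' D' : ℕ, (C' : ℝ) ≤ V ∧ V ≤ D' ∧ C' < 2 ^ 19 ∧ D' < 2 ^ 19 ∧
          D ((XU + C' * oV) &&& (YU - D' * oV)) = 0) := by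
  intro r
  induction r with
  | zero =>
    intro c C err h
    rw [inner_zero] at h
    refine ⟨_, _, h, Nat.le_add_right _ _, ?_⟩
    intro h0 V h1 h2 h3 h4
    exact ⟨C, hi, h1, h2, h3, h4, by omega⟩
  | succ r ih =>
    intro c C err h
    rw [inner_succ] at h
    obtain ⟨c', err', h1, h2, h3⟩ := ih _ _ _ h
    refine ⟨c', err', h1, le_trans (Nat.le_add_right _ _) h2, ?_⟩
    intro h0 V g1 g2 g3 g4
    have hb : (c &&& 524287) < 2 ^ 19 :=
      lt_of_le_of_lt Nat.and_le_right (by norm_num)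
    rcases le_total V ((c &&& 524287 : ℕ) : ℝ) with hV | hV
    · exact ⟨C, c &&& 524287, g1, hV, g3, hb, by omega⟩
    · exact h3 h0 V hV g2 hb g4

end Inner

/-! ### the strips -/

section Outer

variable {ones g W oV thr NG UG : ℕ} {lo hi : ℕ → ℕ → ℕ}

/-- a rectangle around `(U, V)` is refuted -/
def Good (ones g W oV thr NG UG : ℕ) (U V : ℝ) : Prop :=
  ∃ A B C D : ℕ, (A : ℝ) ≤ U ∧ U ≤ B ∧ (C : ℝ) ≤ V ∧ V ≤ D ∧
    A < 2 ^ 19 ∧ B < 2 ^ 19 ∧ C < 2 ^ 19 ∧ D < 2 ^ 19 ∧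
    defi g W thr ((NG + A * ones + C * oV) &&& (UG - B * ones - D * oV)) = 0

/-- the ranges of `V` are correct at `(U, V)` -/
def RangeOk (lo hi : ℕ → ℕ → ℕ) (U V : ℝ) : Prop :=
  ∀ A B : ℕ, (A : ℝ) ≤ U → U ≤ B → (lo A B : ℝ) ≤ V ∧ V ≤ hi A B ∧ lo A B < 2 ^ 19 ∧
    hi A B < 2 ^ 19

theorem strip_eq (ih : ℕ → ℕ → ℕ → Bool) (c A err : ℕ) :
    strip ones g W oV thr NG UG lo hi ih c A err =
      inner (defi g W (thr - thr * (lo A (c &&& 524287) - hi A (c &&& 524287)))) oV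
        (NG + A * ones) (UG - (c &&& 524287) * ones) (hi A (c &&& 524287) * oV)
        (fun c' err' => ih c' (c &&& 524287) err') ((c >>> 19) &&& 31) (c >>> 24)
        (lo A (c &&& 524287) * oV) err := rfl

theorem outer_zero (S : (ℕ → ℕ → ℕ → Bool) → ℕ → ℕ → ℕ → Bool) (K : ℕ → ℕ → ℕ → Bool) :
    outer S K 0 = K := rfl

theorem outer_succ (S : (ℕ → ℕ → ℕ → Bool) → ℕ → ℕ → ℕ → Bool) (K : ℕ → ℕ → ℕ → Bool) (s : ℕ) :
    outer S K (s + 1) = S (outer S K s) := rfl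

theorem strip_spec (ih : ℕ → ℕ → ℕ → Bool) (c A err : ℕ)
    (h : strip ones g W oV thr NG UG lo hi ih c A err = true) :
    ∃ c' B err', ih c' B err' = true ∧ err ≤ err' ∧ B < 2 ^ 19 ∧
      (err' = 0 → ∀ U V : ℝ, RangeOk lo hi U V → A < 2 ^ 19 → (A : ℝ) ≤ U → U ≤ B →
        Good ones g W oV thr NG UG U V) := by
  rw [strip_eq] at h
  obtain ⟨c', err', h1, h2, h3⟩ := inner_spec _ _ _ _ _ h
  have hb : (c &&& 524287) < 2 ^ 19 := lt_of_le_of_lt Nat.and_le_right (by norm_num)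
  refine ⟨c', c &&& 524287, err', h1, h2, hb, ?_⟩
  intro h0 U V hr hA hAU hUB
  obtain ⟨r1, r2, r3, r4⟩ := hr A _ hAU hUB
  obtain ⟨C', D', k1, k2, k3, k4, k5⟩ := h3 h0 V r1 r2 r3 r4
  have hle : lo A (c &&& 524287) ≤ hi A (c &&& 524287) := by
    have : (lo A (c &&& 524287) : ℝ) ≤ hi A (c &&& 524287) := r1.trans r2
    exact_mod_cast this
  rw [Nat.sub_eq_zero_of_le hle, mul_zero, Nat.sub_zero] at k5
  exact ⟨A, _, C', D', hAU, hUB, k1, k2, hA, hb, k3, k4, k5⟩

theorem outer_spec (Kf : ℕ → ℕ → ℕ → Bool) : ∀ (s c A err : ℕ),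
    outer (strip ones g W oV thr NG UG lo hi) Kf s c A err = true →
    ∃ c' A' err', Kf c' A' err' = true ∧ err ≤ err' ∧
      (err' = 0 → ∀ U V : ℝ, RangeOk lo hi U V → A < 2 ^ 19 → (A : ℝ) ≤ U →
        ((A' : ℝ) ≤ U ∨ Good ones g W oV thr NG UG U V)) := by
  intro s
  induction s with
  | zero =>
    intro c A err h
    rw [outer_zero] at h
    exact ⟨c, A, err, h, le_rfl, fun _ U V _ _ hAU => Or.inl hAU⟩
  | succ s ih =>
    intro c A err h
    rw [outer_succ] at h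
    obtain ⟨c1, B, err1, h1, h2, h3, h4⟩ := strip_spec _ _ _ _ h
    obtain ⟨c', A', err', k1, k2, k3⟩ := ih c1 B err1 h1
    refine ⟨c', A', err', k1, h2.trans k2, ?_⟩
    intro h0 U V hr hA hAU
    rcases le_total U (B : ℝ) with hU | hU
    · exact Or.inr (h4 (by omega) U V hr hA hAU hU)
    · exact k3 h0 U V hr h3 hU

end Outer

/-! ### ranges of `V` -/

theorem shr_le {m : ℕ} {x : ℝ} (h : (m : ℝ) ≤ x * 65536) : ((m >>> 16 : ℕ) : ℝ) ≤ x := by
  rw [Nat.shiftRight_eq_div_pow]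
  have h1 : m / 2 ^ 16 * 65536 ≤ m := Nat.div_mul_le_self m 65536
  have h2 : ((m / 2 ^ 16 : ℕ) : ℝ) * 65536 ≤ m := by exact_mod_cast h1
  linarith

theorem le_shr {m : ℕ} {x : ℝ} (h : x * 65536 ≤ m) : x < ((m >>> 16 + 1 : ℕ) : ℝ) := by
  rw [Nat.shiftRight_eq_div_pow]
  have h1 : m < (m / 2 ^ 16 + 1) * 65536 := by omega
  have h2 : (m : ℝ) < ((m / 2 ^ 16 + 1 : ℕ) : ℝ) * 65536 := by exact_mod_cast h1
  linarith

theorem le_shr' {m : ℕ} {x : ℝ} (h : (m : ℝ) = x * 65536) : x ≤ ((m >>> 16 + 1 : ℕ) : ℝ) :=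
  (le_shr h.ge).le

/-- the domain in the plane -/
structure Dom (a b x0 x1 y0 y1 ul uh vl vh : ℕ) (X Y U V : ℝ) : Prop where
  hX0 : (x0 : ℝ) ≤ X
  hX1 : X ≤ x1
  hY0 : (y0 : ℝ) ≤ Y
  hY1 : Y ≤ y1
  hU0 : (ul : ℝ) ≤ U * 65536
  hU1 : U * 65536 ≤ uh
  hV0 : (vl : ℝ) ≤ V * 65536
  hV1 : V * 65536 ≤ vh
  hU : U * 65536 = a * X + b * Y
  hV : V * 65536 = a * Y + b * (387710 - X)

theorem rangeOk {a b x0 x1 y0 y1 ul uh vl vh : ℕ} (ha : 0 < a) (hb : 0 < b)
    (hab : (a + b) * 387710 < 34000000000) (hx1 : x1 ≤ 387710) (hy1 : y1 ≤ 387710)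
    {X Y U V : ℝ} (h : Dom a b x0 x1 y0 y1 ul uh vl vh X Y U V) :
    RangeOk
      (loV a b ((nmax vl (a * y0 + b * (387710 - x1))) >>> 16)
        ((a * b * 387710 + (a * a + b * b) * y0) >>> 16) ((b * b * 387710) >>> 16)
        (((a * a + b * b) * x1) >>> 16 + 1))
      (hiV a b ((nmin vh (a * y1 + b * (387710 - x0))) >>> 16 + 1)
        ((a * b * 387710 + (a * a + b * b) * y1) >>> 16 + 1) ((b * b * 387710) >>> 16 + 1)
        (((a * a + b * b) * x0) >>> 16)) U V := by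
  obtain ⟨hX0, hX1, hY0, hY1, hU0, hU1, hV0, hV1, hU, hV⟩ := h
  have ha' : (0 : ℝ) < a := by exact_mod_cast ha
  have hb' : (0 : ℝ) < b := by exact_mod_cast hb
  have hx1' : (x1 : ℝ) ≤ 387710 := by exact_mod_cast hx1
  have hy1' : (y1 : ℝ) ≤ 387710 := by exact_mod_cast hy1
  have hx0' : (0 : ℝ) ≤ x0 := Nat.cast_nonneg _
  have hy0' : (0 : ℝ) ≤ y0 := Nat.cast_nonneg _
  have hx0le : x0 ≤ 387710 := by
    have : (x0 : ℝ) ≤ 387710 := by linarith
    exact_mod_cast this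
  have habR : ((a : ℝ) + b) * 387710 < 34000000000 := by exact_mod_cast hab
  have hVn : 0 ≤ V := by
    have h1 : 0 ≤ (a : ℝ) * Y := by apply mul_nonneg ha'.le; linarith
    have h2 : 0 ≤ (b : ℝ) * (387710 - X) := by apply mul_nonneg hb'.le; linarith
    nlinarith
  have hVlt : V < 524288 := by
    have h1 : (a : ℝ) * Y ≤ a * 387710 := mul_le_mul_of_nonneg_left (by linarith) ha'.le
    have h2 : (b : ℝ) * (387710 - X) ≤ b * 387710 :=
      mul_le_mul_of_nonneg_left (by linarith) hb'.le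
    nlinarith
  -- identities
  have e1 : (a : ℝ) * V * 65536 = (a * b * 387710 + (a * a + b * b) * Y) - b * U * 65536 := by
    have h1 : (a : ℝ) * V * 65536 = a * (V * 65536) := by ring
    have h2 : (b : ℝ) * U * 65536 = b * (U * 65536) := by ring
    rw [h1, h2, hU, hV]; ring
  have e2 : (b : ℝ) * V * 65536 = a * U * 65536 + b * b * 387710 - (a * a + b * b) * X := by
    have h1 : (b : ℝ) * V * 65536 = b * (V * 65536) := by ring
    have h2 : (a : ℝ) * U * 65536 = a * (U * 65536) := by ring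
    rw [h1, h2, hU, hV]; ring
  have hn : (0 : ℝ) ≤ a * a + b * b := by positivity
  have q1 : ((a * a + b * b : ℝ)) * y0 ≤ (a * a + b * b) * Y := mul_le_mul_of_nonneg_left hY0 hn
  have q2 : ((a * a + b * b : ℝ)) * Y ≤ (a * a + b * b) * y1 := mul_le_mul_of_nonneg_left hY1 hn
  have q3 : ((a * a + b * b : ℝ)) * x0 ≤ (a * a + b * b) * X := mul_le_mul_of_nonneg_left hX0 hn
  have q4 : ((a * a + b * b : ℝ)) * X ≤ (a * a + b * b) * x1 := mul_le_mul_of_nonneg_left hX1 hn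
  -- floors
  have f1 : (((a * b * 387710 + (a * a + b * b) * y0) >>> 16 : ℕ) : ℝ) ≤
      (a * b * 387710 + (a * a + b * b) * y0) / 65536 := by
    apply shr_le; push_cast; rw [div_mul_cancel₀ _ (by norm_num)]
  have f2 : ((a * b * 387710 + (a * a + b * b) * y1 : ℝ)) / 65536 ≤
      (((a * b * 387710 + (a * a + b * b) * y1) >>> 16 + 1 : ℕ) : ℝ) := by
    apply le_shr'; push_cast; rw [div_mul_cancel₀ _ (by norm_num)]
  have f3 : (((b * b * 387710) >>> 16 : ℕ) : ℝ) ≤ (b * b * 387710) / 65536 := by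
    apply shr_le; push_cast; rw [div_mul_cancel₀ _ (by norm_num)]
  have f4 : ((b * b * 387710 : ℝ)) / 65536 ≤ (((b * b * 387710) >>> 16 + 1 : ℕ) : ℝ) := by
    apply le_shr'; push_cast; rw [div_mul_cancel₀ _ (by norm_num)]
  have f5 : ((a * a + b * b : ℝ)) * x1 / 65536 ≤
      ((((a * a + b * b) * x1) >>> 16 + 1 : ℕ) : ℝ) := by
    apply le_shr'; push_cast; rw [div_mul_cancel₀ _ (by norm_num)]
  have f6 : ((((a * a + b * b) * x0) >>> 16 : ℕ) : ℝ) ≤ (a * a + b * b) * x0 / 65536 := by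
    apply shr_le; push_cast; rw [div_mul_cancel₀ _ (by norm_num)]
  intro A B hAU hUB
  have g1 : (b : ℝ) * U ≤ b * B := mul_le_mul_of_nonneg_left hUB hb'.le
  have g2 : (b : ℝ) * A ≤ b * U := mul_le_mul_of_nonneg_left hAU hb'.le
  have g3 : (a : ℝ) * A ≤ a * U := mul_le_mul_of_nonneg_left hAU ha'.le
  have g4 : (a : ℝ) * U ≤ a * B := mul_le_mul_of_nonneg_left hUB ha'.le
  have hlo : (loV a b ((nmax vl (a * y0 + b * (387710 - x1))) >>> 16)
        ((a * b * 387710 + (a * a + b * b) * y0) >>> 16) ((b * b * 387710) >>> 16)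
        (((a * a + b * b) * x1) >>> 16 + 1) A B : ℝ) ≤ V := by
    show ((nmax _ (nmax ((_ - b * B) / a) ((a * A + _ - _) / b)) : ℕ) : ℝ) ≤ V
    simp only [nmax_eq]
    rw [Nat.cast_max, Nat.cast_max]
    refine max_le ?_ (max_le ?_ ?_)
    · apply shr_le
      push_cast [Nat.cast_sub hx1]
      apply max_le hV0
      rw [hV]
      have h1 : (a : ℝ) * y0 ≤ a * Y := mul_le_mul_of_nonneg_left hY0 ha'.le
      have h2 : (b : ℝ) * (387710 - x1) ≤ b * (387710 - X) :=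
        mul_le_mul_of_nonneg_left (by linarith) hb'.le
      linarith
    · apply subdiv_le hVn
      push_cast at f1 ⊢
      linarith
    · apply subdiv_le hVn
      push_cast at f3 f5 ⊢
      linarith
  have hhi : V ≤ (hiV a b ((nmin vh (a * y1 + b * (387710 - x0))) >>> 16 + 1)
        ((a * b * 387710 + (a * a + b * b) * y1) >>> 16 + 1) ((b * b * 387710) >>> 16 + 1)
        (((a * a + b * b) * x0) >>> 16) A B : ℝ) := by
    show V ≤ ((nmin _ (nmin ((_ - b * A) / a) ((a * B + _ - _) / b) + 1) : ℕ) : ℝ)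
    simp only [nmin_eq]
    have k1 : V ≤ (((min vh (a * y1 + b * (387710 - x0))) >>> 16 + 1 : ℕ) : ℝ) := by
      apply le_of_lt
      apply le_shr
      push_cast [Nat.cast_sub hx0le]
      apply le_min hV1
      rw [hV]
      have h1 : (a : ℝ) * Y ≤ a * y1 := mul_le_mul_of_nonneg_left hY1 ha'.le
      have h2 : (b : ℝ) * (387710 - X) ≤ b * (387710 - x0) :=
        mul_le_mul_of_nonneg_left (by linarith) hb'.le
      linarith
    have k2 : V ≤ ((((((a * b * 387710 + (a * a + b * b) * y1) >>> 16 + 1) - b * A) / a) + 1 : ℕ) : ℝ) := by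
      apply le_subdiv ha
      push_cast at f2 ⊢
      linarith
    have k3 : V ≤ ((((a * B + ((b * b * 387710) >>> 16 + 1)) - (((a * a + b * b) * x0) >>> 16)) / b + 1 : ℕ) : ℝ) := by
      apply le_subdiv hb
      push_cast at f4 f6 ⊢
      linarith
    rcases le_total (((((a * b * 387710 + (a * a + b * b) * y1) >>> 16 + 1) - b * A) / a))
      ((((a * B + ((b * b * 387710) >>> 16 + 1)) - (((a * a + b * b) * x0) >>> 16)) / b)) with hm | hm
    · rw [min_eq_left hm]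
      rw [Nat.cast_min]
      exact le_min k1 k2
    · rw [min_eq_right hm]
      rw [Nat.cast_min]
      exact le_min k1 k3
  refine ⟨hlo, hhi, ?_, ?_⟩
  · have : (loV a b ((nmax vl (a * y0 + b * (387710 - x1))) >>> 16)
        ((a * b * 387710 + (a * a + b * b) * y0) >>> 16) ((b * b * 387710) >>> 16)
        (((a * a + b * b) * x1) >>> 16 + 1) A B : ℝ) < ((524288 : ℕ) : ℝ) := by
      exact lt_of_le_of_lt hlo (by exact_mod_cast hVlt)
    have h2 := Nat.cast_lt.1 this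
    norm_num at h2 ⊢
    exact h2
  · refine lt_of_le_of_lt (b := (nmin vh (a * y1 + b * (387710 - x0))) >>> 16 + 1) ?_ ?_
    · show nmin _ _ ≤ _
      rw [nmin_eq]
      exact min_le_left _ _
    · rw [nmin_eq, Nat.shiftRight_eq_div_pow]
      have h1 : min vh (a * y1 + b * (387710 - x0)) ≤ (a + b) * 387710 := by
        refine (min_le_right _ _).trans ?_
        rw [add_mul]
        apply Nat.add_le_add
        · exact Nat.mul_le_mul_left _ hy1
        · exact Nat.mul_le_mul_left _ (Nat.sub_le _ _)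
      omega

/-! ### sure points are seen -/

theorem sure_le_seen {a b h A B C D : ℕ} {U V : ℝ} (hh : 0 < h) (hA : (A : ℝ) ≤ U)
    (hB : U ≤ B) (hC : (C : ℝ) ≤ V) (hD : V ≤ D) : ∀ (pts : List (ℕ × ℕ × ℕ)),
    (sureW a b ((h - 1) >>> 16) A B C D pts : ℝ) ≤ seen a b h pts (U * 65536) (V * 65536) := by
  classical
  have hq : (((h - 1) >>> 16 : ℕ) : ℝ) * 65536 ≤ (h : ℝ) - 1 := by
    rw [Nat.shiftRight_eq_div_pow]
    have h1 : (h - 1) / 2 ^ 16 * 65536 ≤ h - 1 := Nat.div_mul_le_self (h - 1) 65536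
    have h2 : (((h - 1) / 2 ^ 16 : ℕ) : ℝ) * 65536 ≤ ((h - 1 : ℕ) : ℝ) := by exact_mod_cast h1
    rw [Nat.cast_sub (by omega)] at h2
    simpa using h2
  have key : ∀ (m u : ℕ) (x : ℝ) (P Q : ℕ), u = m / 65536 → (P : ℝ) ≤ x → x ≤ Q →
      u + 1 ≤ P + (h - 1) >>> 16 → Q ≤ u + (h - 1) >>> 16 → |(m : ℝ) - x * 65536| < h := by
    intro m u x P Q hu hP hQ h1 h2
    have a1 : u * 65536 ≤ m := by rw [hu]; exact Nat.div_mul_le_self m 65536
    have a2 : m < (u + 1) * 65536 := by omega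
    have a1' : (u : ℝ) * 65536 ≤ m := by exact_mod_cast a1
    have a2' : (m : ℝ) < (u + 1) * 65536 := by exact_mod_cast a2
    have h1' : (u : ℝ) + 1 ≤ P + (((h - 1) >>> 16 : ℕ) : ℝ) := by exact_mod_cast h1
    have h2' : (Q : ℝ) ≤ u + (((h - 1) >>> 16 : ℕ) : ℝ) := by exact_mod_cast h2
    rw [Nat.cast_one] at h1'
    rw [abs_lt]
    constructor
    · linarith
    · linarith
  intro pts
  induction pts with
  | nil => simp [sureW, seen]
  | cons p t ih =>
    have e1 : sureW a b ((h - 1) >>> 16) A B C D (p :: t) =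
        (if uq a b p + 1 ≤ A + (h - 1) >>> 16 ∧ B ≤ uq a b p + (h - 1) >>> 16 ∧
          vq a b p + 1 ≤ C + (h - 1) >>> 16 ∧ D ≤ vq a b p + (h - 1) >>> 16 then p.2.2 else 0) +
        sureW a b ((h - 1) >>> 16) A B C D t := by
      rw [sureW, List.map_cons, List.sum_cons]; rfl
    have e2 : seen a b h (p :: t) (U * 65536) (V * 65536) =
        (if |(uc a b p.1 p.2.1 : ℝ) - U * 65536| < h ∧ |(vc a b p.1 p.2.1 : ℝ) - V * 65536| < h
          then (p.2.2 : ℝ) else 0) + seen a b h t (U * 65536) (V * 65536) := by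
      rw [seen, List.map_cons, List.sum_cons]; rfl
    rw [e1, e2]
    push_cast
    refine add_le_add ?_ ih
    split_ifs with c1 c2 c2
    · exact le_rfl
    · exfalso
      apply c2
      refine ⟨key _ (uq a b p) U A B rfl hA hB c1.1 c1.2.1, ?_⟩
      exact key _ (vq a b p) V C D rfl hC hD c1.2.2.1 c1.2.2.2
    · exact Nat.cast_nonneg _
    · exact le_rfl

end Slab

open Slab in
theorem specSlab2 : SpecSlab2 := by
  intro hRect pts ones g W oV thr uv h a b x0 x1 y0 y1 ul uh vl vh s c K hpts ha hb hab hL hq hh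
    hx1 hy1 hc
  have hc' : outer (strip ones g W oV thr
      (((h - 1) >>> 16 + 1048575) * 2097153 * ones - uv)
      (((h - 1) >>> 16 + 1048576) * 2097153 * ones + uv)
      (loV a b ((nmax vl (a * y0 + b * (387710 - x1))) >>> 16)
        ((a * b * 387710 + (a * a + b * b) * y0) >>> 16) ((b * b * 387710) >>> 16)
        (((a * a + b * b) * x1) >>> 16 + 1))
      (hiV a b ((nmin vh (a * y1 + b * (387710 - x0))) >>> 16 + 1)
        ((a * b * 387710 + (a * a + b * b) * y1) >>> 16 + 1) ((b * b * 387710) >>> 16 + 1)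
        (((a * a + b * b) * x0) >>> 16)))
      (fun c A err => andB (Nat.ble (err + (((nmin uh (a * x1 + b * y1)) >>> 16 + 1 - A) -
        ((nmin uh (a * x1 + b * y1)) >>> 16 + 1) *
          ((x0 - x1 + (y0 - y1)) + ((nmax ul (a * x0 + b * y0) - nmin uh (a * x1 + b * y1)) +
            (nmax vl (a * y0 + b * (387710 - x1)) - nmin vh (a * y1 + b * (387710 - x0))))))) 0)
        (K c)) s c ((nmax ul (a * x0 + b * y0)) >>> 16) 0 = true := hc
  obtain ⟨c', A', err', h1, -, h3⟩ := outer_spec _ _ _ _ _ hc'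
  obtain ⟨h4, h5⟩ := andB_eq h1
  have h6 := Nat.le_of_ble_eq_true h4
  refine ⟨?_, c', h5⟩
  intro X Y hX0 hX1 hY0 hY1 hU0 hU1 hV0 hV1
  have hS0 : ((S0 : ℕ) : ℝ) = 387710 := by norm_num [S0]
  rw [hS0] at hV0 hV1 ⊢
  set U : ℝ := (a * X + b * Y) / 65536 with hU
  set V : ℝ := (a * Y + b * (387710 - X)) / 65536 with hV
  have eU : U * 65536 = a * X + b * Y := by rw [hU]; field_simp
  have eV : V * 65536 = a * Y + b * (387710 - X) := by rw [hV]; field_simp
  rw [← eU] at hU0 hU1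
  rw [← eV] at hV0 hV1
  have hdom : Dom a b x0 x1 y0 y1 ul uh vl vh X Y U V :=
    ⟨hX0, hX1, hY0, hY1, hU0, hU1, hV0, hV1, eU, eV⟩
  have ha' : (0 : ℝ) < a := by exact_mod_cast ha
  have hb' : (0 : ℝ) < b := by exact_mod_cast hb
  have hx1' : (x1 : ℝ) ≤ 387710 := by exact_mod_cast hx1
  have hy1' : (y1 : ℝ) ≤ 387710 := by exact_mod_cast hy1
  have hx0' : (0 : ℝ) ≤ x0 := Nat.cast_nonneg _
  have hy0' : (0 : ℝ) ≤ y0 := Nat.cast_nonneg _
  have habR : ((a : ℝ) + b) * 387710 < 34000000000 := by exact_mod_cast hab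
  have hx01 : x0 ≤ x1 := by
    have : (x0 : ℝ) ≤ x1 := hX0.trans hX1
    exact_mod_cast this
  have hy01 : y0 ≤ y1 := by
    have : (y0 : ℝ) ≤ y1 := hY0.trans hY1
    exact_mod_cast this
  have hx0le : x0 ≤ 387710 := hx01.trans hx1
  -- bounds for `U`
  have hUlo : ((nmax ul (a * x0 + b * y0) : ℕ) : ℝ) ≤ U * 65536 := by
    rw [nmax_eq]
    push_cast
    apply max_le hU0
    rw [eU]
    have k1 : (a : ℝ) * x0 ≤ a * X := mul_le_mul_of_nonneg_left hX0 ha'.le
    have k2 : (b : ℝ) * y0 ≤ b * Y := mul_le_mul_of_nonneg_left hY0 hb'.le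
    linarith
  have hUhi : U * 65536 ≤ ((nmin uh (a * x1 + b * y1) : ℕ) : ℝ) := by
    rw [nmin_eq]
    push_cast
    apply le_min hU1
    rw [eU]
    have k1 : (a : ℝ) * X ≤ a * x1 := mul_le_mul_of_nonneg_left hX1 ha'.le
    have k2 : (b : ℝ) * Y ≤ b * y1 := mul_le_mul_of_nonneg_left hY1 hb'.le
    linarith
  have hVlo : ((nmax vl (a * y0 + b * (387710 - x1)) : ℕ) : ℝ) ≤ V * 65536 := by
    rw [nmax_eq]
    push_cast [Nat.cast_sub hx1]
    apply max_le hV0
    rw [eV]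
    have k1 : (a : ℝ) * y0 ≤ a * Y := mul_le_mul_of_nonneg_left hY0 ha'.le
    have k2 : (b : ℝ) * (387710 - x1) ≤ b * (387710 - X) :=
      mul_le_mul_of_nonneg_left (by linarith) hb'.le
    linarith
  have hVhi : V * 65536 ≤ ((nmin vh (a * y1 + b * (387710 - x0)) : ℕ) : ℝ) := by
    rw [nmin_eq]
    push_cast [Nat.cast_sub hx0le]
    apply le_min hV1
    rw [eV]
    have k1 : (a : ℝ) * Y ≤ a * y1 := mul_le_mul_of_nonneg_left hY1 ha'.le
    have k2 : (b : ℝ) * (387710 - X) ≤ b * (387710 - x0) :=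
      mul_le_mul_of_nonneg_left (by linarith) hb'.le
    linarith
  have hE1 : nmax ul (a * x0 + b * y0) - nmin uh (a * x1 + b * y1) = 0 := by
    apply Nat.sub_eq_zero_of_le
    exact_mod_cast hUlo.trans hUhi
  have hE2 : nmax vl (a * y0 + b * (387710 - x1)) - nmin vh (a * y1 + b * (387710 - x0)) = 0 := by
    apply Nat.sub_eq_zero_of_le
    exact_mod_cast hVlo.trans hVhi
  rw [hE1, hE2, Nat.sub_eq_zero_of_le hx01, Nat.sub_eq_zero_of_le hy01] at h6
  simp only [add_zero, mul_zero, Nat.sub_zero] at h6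
  have herr : err' = 0 := by omega
  have hA' : (nmin uh (a * x1 + b * y1)) >>> 16 + 1 ≤ A' := by omega
  have hUlt : U < 524288 := by
    have k1 : (a : ℝ) * X ≤ a * 387710 := mul_le_mul_of_nonneg_left (by linarith) ha'.le
    have k2 : (b : ℝ) * Y ≤ b * 387710 := mul_le_mul_of_nonneg_left (by linarith) hb'.le
    nlinarith
  have hA0 : (((nmax ul (a * x0 + b * y0)) >>> 16 : ℕ) : ℝ) ≤ U := shr_le hUlo
  have hA0lt : (nmax ul (a * x0 + b * y0)) >>> 16 < 2 ^ 19 := by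
    have : (((nmax ul (a * x0 + b * y0)) >>> 16 : ℕ) : ℝ) < ((524288 : ℕ) : ℝ) := by
      exact lt_of_le_of_lt hA0 (by exact_mod_cast hUlt)
    have h2 := Nat.cast_lt.1 this
    norm_num at h2 ⊢
    exact h2
  rcases h3 herr U V (rangeOk ha hb hab hx1 hy1 hdom) hA0lt hA0 with hbad | hgood
  · exfalso
    have k1 : U < (((nmin uh (a * x1 + b * y1)) >>> 16 + 1 : ℕ) : ℝ) := le_shr hUhi
    have k2 : (((nmin uh (a * x1 + b * y1)) >>> 16 + 1 : ℕ) : ℝ) ≤ A' := by exact_mod_cast hA'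
    linarith
  · obtain ⟨A, B, C, D, r1, r2, r3, r4, s1, s2, s3, s4, hdef⟩ := hgood
    have hth := hRect pts a b ones g W oV uv ((h - 1) >>> 16) thr A B C D hpts hab hL hq s1 s2 s3
      s4 hdef
    have hth' : (thr : ℝ) ≤ sureW a b ((h - 1) >>> 16) A B C D pts := by exact_mod_cast hth
    rw [← eU, ← eV]
    exact hth'.trans (sure_le_seen hh r1 r2 r3 r4 pts)

end Rect

end Pool.Agent.MP_abb58c_co
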