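import Pool.Agent.Lib.MP_abb58c_co.RectArr
import Pool.Agent.Lib.MP_abb58c_co.RectSlab

/-! MP_abb58c_co: soundness of the rectangle checker. -/

namespace Pool.Agent.MP_abb58c_co

namespace Rect

theorem specPiece : SpecPiece := specPiece_of specArr (specSlab1_of specRect specUV specSlab2)

/-- the procedures made from the rectangle checker are sound -/
theorem rectSound : rectOps.Sound := rectOps_sound_of specPiece specW

end Rect

end Pool.Agent.MP_abb58c_co
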