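import Pool.Agent.Lib.MP_abb58c_co.Assemble
import Pool.Agent.Lib.MP_abb58c_co.RectSound
import Pool.Agent.Lib.MP_abb58c_co.CertT1
import Pool.Agent.Lib.MP_abb58c_co.CertT2
import Pool.Agent.Lib.MP_abb58c_co.CertT3
import Pool.Agent.Lib.MP_abb58c_co.CertT4
import Pool.Agent.Lib.MP_abb58c_co.CertW1
import Pool.Agent.Lib.MP_abb58c_co.CertW2
import Pool.Agent.Lib.MP_abb58c_co.CertW3
import Pool.Agent.Lib.MP_abb58c_co.CertW4
import Pool.Agent.Lib.MP_abb58c_co.CertW5
import Pool.Agent.Lib.MP_abb58c_co.CertW6
import Pool.Agent.Lib.MP_abb58c_co.CertW7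
import Pool.Agent.Lib.MP_abb58c_co.CertR1
import Pool.Agent.Lib.MP_abb58c_co.CertR2
import Pool.Agent.Lib.MP_abb58c_co.CertR3
import Pool.Agent.Lib.MP_abb58c_co.CertR4

/-! MP_abb58c_co: all measure certificates together: only the node `nd 33` remains (FINE). -/

namespace Pool.Agent.MP_abb58c_co

open Roots Rect

/-- the 33 steps of the valley -/
theorem vstep : ∀ i < 33, VStep i := by
  intro i hi
  interval_cases i
  · exact goodC_step rectSound Cert.c0_ok
  · exact goodC_step rectSound Cert.c1_ok
  · exact goodC_step rectSound Cert.c2_ok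
  · exact goodC_step rectSound Cert.c3_ok
  · exact goodC_step rectSound Cert.c4_ok
  · exact goodC_step rectSound Cert.c5_ok
  · exact goodC_step rectSound Cert.c6_ok
  · exact goodC_step rectSound Cert.c7_ok
  · exact goodC_step rectSound Cert.c8_ok
  · exact goodC_step rectSound Cert.c9_ok
  · exact goodC_step rectSound Cert.c10_ok
  · exact goodC_step rectSound Cert.c11_ok
  · exact goodC_step rectSound Cert.c12_ok
  · exact goodC_step rectSound Cert.c13_ok
  · exact goodC_step rectSound Cert.c14_ok
  · exact goodC_step rectSound Cert.c15_ok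
  · exact goodC_step rectSound Cert.c16_ok
  · exact goodC_step rectSound Cert.c17_ok
  · exact goodC_step rectSound Cert.c18_ok
  · exact goodC_step rectSound Cert.c19_ok
  · exact goodC_step rectSound Cert.c20_ok
  · exact goodC_step rectSound Cert.c21_ok
  · exact goodC_step rectSound Cert.c22_ok
  · exact goodC_step rectSound Cert.c23_ok
  · exact goodC_step rectSound Cert.c24_ok
  · exact goodC_step rectSound Cert.c25_ok
  · exact goodC_step rectSound Cert.c26_ok
  · exact goodC_step rectSound Cert.c27_ok
  · exact goodC_step rectSound Cert.c28_ok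
  · exact goodC_step rectSound Cert.c29_ok
  · exact goodC_step rectSound Cert.c30_ok
  · exact goodC_step rectSound Cert.c31_ok
  · exact goodC_step rectSound Cert.c32_ok

/-- the final statement from the node `nd 33` -/
theorem statement_of_fine (hF : GoodC (nd 33)) : Statement :=
  statement_of_certs (goodC_leaf rectSound Cert.rR_edge_ok) (goodC_leaf rectSound Cert.rR_corner_ok)
    (goodC_leaf (N := P2) rectSound Cert.rP2_ok) (goodC_leaf (N := S2) rectSound Cert.rS2_ok)
    (goodC_leaf (N := B3b) rectSound Cert.rB3b_ok) (k := 200) (ks := [260, 320, 345, 358, 370])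
    ⟨goodC_leaf rectSound Cert.w0_200_ok, goodC_leaf rectSound Cert.w200_260_ok,
      goodC_leaf rectSound Cert.w260_320_ok, goodC_leaf rectSound Cert.w320_345_ok,
      goodC_leaf rectSound Cert.w345_358_ok, goodC_leaf rectSound Cert.w358_370_ok, trivial⟩ rfl
    vstep hF (goodC_leaf rectSound Cert.w420_450_ok)

end Pool.Agent.MP_abb58c_co
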