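import Mathlib.Analysis.SpecialFunctions.Trigonometric.Basic
import Mathlib.Topology.Algebra.Order.Field

/-! # MP_abb58c_co : packing 11 unit squares in a square — the definitions of the statement -/

namespace Pool.Agent.MP_abb58c_co

open Real

/-- The closed unit square with centre `(x, y)`, rotated by the angle `θ`. -/
def unitSquare (x y θ : ℝ) : Set (ℝ × ℝ) :=
  {p | |(p.1 - x) * cos θ + (p.2 - y) * sin θ| ≤ 1 / 2 ∧
       |(p.2 - y) * cos θ - (p.1 - x) * sin θ| ≤ 1 / 2}

/-- `n` unit squares with pairwise disjoint interiors fit in a square of side `s`. -/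
def Packable (n : ℕ) (s : ℝ) : Prop :=
  ∃ x y θ : Fin n → ℝ,
    (∀ i, unitSquare (x i) (y i) (θ i) ⊆ Set.Icc 0 s ×ˢ Set.Icc 0 s) ∧
    ∀ i j, i ≠ j →
      Disjoint (interior (unitSquare (x i) (y i) (θ i)))
        (interior (unitSquare (x j) (y j) (θ j)))

/-- `s(n)`: the least side of a square in which `n` unit squares can be packed. -/
noncomputable def minSide (n : ℕ) : ℝ := sInf {s | Packable n s}

end Pool.Agent.MP_abb58c_co
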