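import Pool.Agent.Lib.MP_abb58c_co.Spec

/-! MP_abb58c_co: exact identities of Trump's packing (used by EXIST and LOCAL) -/

namespace Pool.Agent.MP_abb58c_co
namespace TrumpData

variable (T : TrumpData)

theorem p_pos : 0 < 1 + T.t ^ 2 := by positivity

theorem n_pos : 0 < 1 - T.t ^ 2 := by nlinarith [T.ht0, T.ht1]

theorem e_pos : 0 < 1 + 2 * T.t - T.t ^ 2 := by nlinarith [T.ht0, T.ht1]

theorem c_pos : 0 < T.c := by
  rw [T.hc]; exact div_pos T.n_pos T.p_pos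

theorem s_pos : 0 < T.s := by
  rw [T.hs]; exact div_pos (by nlinarith [T.ht0]) T.p_pos

theorem cs1 : T.c ^ 2 + T.s ^ 2 = 1 := by
  rw [T.hc, T.hs]
  have := T.p_pos.ne'
  field_simp
  ring

theorem dc : T.d * T.c = T.c + T.s + 2 - (T.L - 1) * T.s := by
  rw [T.hd]
  exact div_mul_cancel₀ _ T.c_pos.ne'

theorem Lcs : (T.L - 1) * (T.c + T.s) = T.c + 2 * T.s + 2 := by
  have hp := T.p_pos.ne'
  have he := T.e_pos.ne'
  rw [T.hL, T.hc, T.hs]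
  obtain ⟨e, hee⟩ : ∃ e, e = 1 + 2 * T.t - T.t ^ 2 := ⟨_, rfl⟩
  rw [← hee] at he ⊢
  field_simp
  rw [hee]
  ring

theorem top : (T.c + (T.d + 1) * T.s + 1 / 2) * T.s + (T.w + 1) * T.c
    = T.L - (T.c + T.s) / 2 := by
  have h : (T.w + 1) * T.c = T.L - (T.c + T.s) / 2 - T.s * (T.c + (T.d + 1) * T.s + 1 / 2) := by
    rw [T.hw, sub_add_cancel]
    exact div_mul_cancel₀ _ T.c_pos.ne'
  rw [h]; ring

/-- the only consequence of the octic equation -/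
theorem right : (2 * T.c + T.s + 3 / 2) * T.c - (T.w - 1) * T.s
    = T.L - (T.c + T.s) / 2 := by
  have hp := T.p_pos.ne'
  have he := T.e_pos.ne'
  have hn := T.n_pos.ne'
  obtain ⟨e, hee⟩ : ∃ e, e = 1 + 2 * T.t - T.t ^ 2 := ⟨_, rfl⟩
  obtain ⟨n, hnn⟩ : ∃ n, n = 1 - T.t ^ 2 := ⟨_, rfl⟩
  have hd : T.d = (e ^ 2 + 2 * (1 + T.t ^ 2) * e
      - 2 * T.t * ((T.t + 1) * (T.t + 3))) / (n * e) := by
    rw [T.hd, T.hL, T.hc, T.hs]
    rw [← hee] at he ⊢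
    rw [← hnn] at hn ⊢
    field_simp
    rw [hee, hnn]
    ring
  have key : (2 * T.c + T.s + 3 / 2) * T.c - (T.w - 1) * T.s - (T.L - (T.c + T.s) / 2)
      = -2 * T.t * (5*T.t^8 - 10*T.t^7 - 2*T.t^6 + 14*T.t^5 + 12*T.t^4 - 6*T.t^3 + 2*T.t^2
          + 2*T.t - 1) / (e * (1 + T.t ^ 2) ^ 2 * n ^ 2) := by
    rw [T.hw, hd, T.hL, T.hc, T.hs]
    rw [← hee] at he ⊢
    rw [← hnn] at hn ⊢
    field_simp
    rw [hee, hnn]
    ring
  rw [T.oct, mul_zero, zero_div] at key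
  linarith

end TrumpData
end Pool.Agent.MP_abb58c_co
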