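import Pool.Agent.Lib.MP_abb58c_co.Basic

/-! MP_abb58c_co: specifications of the independent modules (see `/team-store/MP_abb58c_PLAN.md`) -/

namespace Pool.Agent.MP_abb58c_co

/-- (GEOM) the algebraic form of packings -/
def SpecGeom : Prop :=
  (∀ L : ℝ, Packable 11 L ↔ ∃ q, Pack L q) ∧
  (∀ L L' q, L ≤ L' → Pack L q → Pack L' q) ∧
  -- symmetries of the container: rotation by a right angle, reflection
  (∀ L q, Pack L q → Pack L (fun i => ⟨L - (q i).y, (q i).x, (q i).c, (q i).s⟩)) ∧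
  (∀ L q, Pack L q → Pack L (fun i => ⟨(q i).x, L - (q i).y, (q i).s, (q i).c⟩)) ∧
  -- relabelling
  (∀ L q (e : Equiv.Perm (Fin 11)), Pack L q → Pack L (fun i => q (e i))) ∧
  -- every square has a direction in the first quadrant
  (∀ q : Sq, q.c ^ 2 + q.s ^ 2 = 1 → ∃ q' : Sq, q'.c ^ 2 + q'.s ^ 2 = 1 ∧ 0 < q'.c ∧ 0 ≤ q'.s ∧
    q'.x = q.x ∧ q'.y = q.y ∧ q'.op = q.op ∧ q'.h = q.h)

/-- (SAT) separating axis theorem for two unit squares -/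
def SpecSat : Prop :=
  (∀ q r : Sq, q.c ^ 2 + q.s ^ 2 = 1 → r.c ^ 2 + r.s ^ 2 = 1 → Disjoint q.op r.op → Sep q r) ∧
  (∀ q r : Sq, q.c ^ 2 + q.s ^ 2 = 1 → r.c ^ 2 + r.s ^ 2 = 1 → Sep q r → Disjoint q.op r.op)

/-- (EXIST) Trump's packing exists -/
def SpecExist : Prop :=
  (∃ T : TrumpData, True) ∧ (∀ T T' : TrumpData, T.t = T'.t ∧ T.L = T'.L) ∧
  (∀ T : TrumpData, 3.8770835900 < T.L ∧ T.L < 3.8770835901 ∧ 0.7639994 < T.c ∧ T.c < 0.7639995 ∧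
    0.6452168 < T.s ∧ T.s < 0.6452169 ∧ 2.0325583 < T.d ∧ T.d < 2.0325584 ∧
    0.4325311 < T.w ∧ T.w < 0.4325312) ∧
  ∀ T : TrumpData, Pack T.L T.cfg

/-- (LOCAL) Trump's packing is locally optimal, with an explicit radius -/
def SpecLocal : Prop :=
  ∀ (T : TrumpData) (L : ℝ) (q : Fin 11 → Sq), L ≤ T.L → Pack L q →
    (∀ i, |(q i).x - (T.cfg i).x| ≤ 1 / 1000 ∧ |(q i).y - (T.cfg i).y| ≤ 1 / 1000 ∧
      |(q i).c - (T.cfg i).c| ≤ 1 / 500 ∧ |(q i).s - (T.cfg i).s| ≤ 1 / 500) → L = T.L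

end Pool.Agent.MP_abb58c_co
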