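import Mathlib
import Pool.Agent.Lib.MP_abb58c_co.Spec

/-! MP_abb58c_co, module EXIST: Trump's packing exists; part A: the root of the octic, bounds -/

namespace Pool.Agent.MP_abb58c_co
namespace Exist

/-! ### The root of the octic -/

/-- the octic -/
def oc (t : ℝ) : ℝ := 5*t^8 - 10*t^7 - 2*t^6 + 14*t^5 + 12*t^4 - 6*t^3 + 2*t^2 + 2*t - 1

theorem oc_deriv (t : ℝ) : HasDerivAt oc
    (40*t^7 - 70*t^6 - 12*t^5 + 70*t^4 + 48*t^3 - 18*t^2 + 4*t + 2) t := by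
  have h : ∀ n : ℕ, HasDerivAt (fun t : ℝ => t^n) (n * t^(n-1)) t := fun n => hasDerivAt_pow n t
  have h1 := ((((((((h 8).const_mul 5).sub ((h 7).const_mul 10)).sub ((h 6).const_mul 2)).add
    ((h 5).const_mul 14)).add ((h 4).const_mul 12)).sub ((h 3).const_mul 6)).add
    ((h 2).const_mul 2)).add ((hasDerivAt_id t).const_mul 2)
  have h2 := h1.sub_const 1
  refine HasDerivAt.congr_deriv (f := oc) (h2.congr_of_eventuallyEq ?_) ?_
  · exact Filter.Eventually.of_forall fun x => by simp [oc]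
  · norm_num
    ring

theorem oc_mono : StrictMonoOn oc (Set.Icc 0.36 0.37) := by
  refine strictMonoOn_of_deriv_pos (convex_Icc _ _) ?_ ?_
  · exact fun t _ => (oc_deriv t).continuousAt.continuousWithinAt
  · intro t ht
    rw [interior_Icc] at ht
    rw [(oc_deriv t).deriv]
    have h0 : (0.36 : ℝ) ≤ t := ht.1.le
    have h1 : t ≤ 0.37 := ht.2.le
    have lo : ∀ n : ℕ, (0.36 : ℝ)^n ≤ t^n := fun n => pow_le_pow_left₀ (by norm_num) h0 n
    have hi : ∀ n : ℕ, t^n ≤ (0.37 : ℝ)^n := fun n => pow_le_pow_left₀ (by linarith) h1 n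
    have e7 := lo 7
    have e6 := hi 6
    have e5 := hi 5
    have e4 := lo 4
    have e3 := lo 3
    have e2 := hi 2
    norm_num at e7 e6 e5 e4 e3 e2
    linarith

/-- refined bounds for the root -/
theorem t_bounds (t : ℝ) (h0 : 0.3657693 < t) (h1 : t < 0.3657694) (h : oc t = 0) :
    0.36576930760467 < t ∧ t < 0.36576930760468 := by
  have ht : t ∈ Set.Icc (0.36 : ℝ) 0.37 := ⟨by linarith, by linarith⟩
  constructor
  · by_contra hc
    rw [not_lt] at hc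
    have h2 : oc t ≤ oc 0.36576930760467 :=
      oc_mono.monotoneOn ht ⟨by norm_num, by norm_num⟩ hc
    rw [h] at h2
    unfold oc at h2
    norm_num at h2
  · by_contra hc
    rw [not_lt] at hc
    have h2 : oc 0.36576930760468 ≤ oc t :=
      oc_mono.monotoneOn ⟨by norm_num, by norm_num⟩ ht hc
    rw [h] at h2
    unfold oc at h2
    norm_num at h2

theorem exists_t : ∃ t : ℝ, 0.3657693 < t ∧ t < 0.3657694 ∧ oc t = 0 := by
  have hcont : ContinuousOn oc (Set.Icc 0.3657693 0.3657694) :=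
    fun t _ => (oc_deriv t).continuousAt.continuousWithinAt
  have h := intermediate_value_Ioo (by norm_num : (0.3657693 : ℝ) ≤ 0.3657694) hcont
  have h0 : (0 : ℝ) ∈ Set.Ioo (oc 0.3657693) (oc 0.3657694) := by
    constructor
    · unfold oc; norm_num
    · unfold oc; norm_num
  obtain ⟨t, ht, ht'⟩ := h h0
  exact ⟨t, ht.1, ht.2, ht'⟩

/-! ### Relations and bounds -/

section rel

variable (T : TrumpData)

theorem tb : 0.36576930760467 < T.t ∧ T.t < 0.36576930760468 :=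
  t_bounds T.t T.ht0 T.ht1 T.oct

theorem cs_one : T.c ^ 2 + T.s ^ 2 = 1 := by
  rw [T.hc, T.hs]
  have : (1 + T.t^2) ≠ 0 := by positivity
  field_simp
  ring

theorem c_bounds : 0.763999473636 < T.c ∧ T.c < 0.763999473637 := by
  obtain ⟨h0, h1⟩ := tb T
  have hD : 0 < 1 + T.t^2 := by positivity
  have h2 : (0.36576930760467 : ℝ)^2 ≤ T.t^2 := pow_le_pow_left₀ (by norm_num) h0.le 2
  have h3 : T.t^2 ≤ (0.36576930760468 : ℝ)^2 := pow_le_pow_left₀ (by linarith) h1.le 2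
  norm_num at h2 h3
  rw [T.hc]
  constructor
  · rw [lt_div_iff₀ hD]; linarith
  · rw [div_lt_iff₀ hD]; linarith

theorem s_bounds : 0.645216866087 < T.s ∧ T.s < 0.645216866088 := by
  obtain ⟨h0, h1⟩ := tb T
  have hD : 0 < 1 + T.t^2 := by positivity
  have h2 : (0.36576930760467 : ℝ)^2 ≤ T.t^2 := pow_le_pow_left₀ (by norm_num) h0.le 2
  have h3 : T.t^2 ≤ (0.36576930760468 : ℝ)^2 := pow_le_pow_left₀ (by linarith) h1.le 2
  norm_num at h2 h3
  rw [T.hs]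
  constructor
  · rw [lt_div_iff₀ hD]; linarith
  · rw [div_lt_iff₀ hD]; linarith

theorem L_bounds : 3.87708359002 < T.L ∧ T.L < 3.87708359003 := by
  obtain ⟨h0, h1⟩ := tb T
  have h2 : (0.36576930760467 : ℝ)^2 ≤ T.t^2 := pow_le_pow_left₀ (by norm_num) h0.le 2
  have h3 : T.t^2 ≤ (0.36576930760468 : ℝ)^2 := pow_le_pow_left₀ (by linarith) h1.le 2
  norm_num at h2 h3
  have hD : 0 < 1 + 2*T.t - T.t^2 := by linarith
  rw [T.hL]
  constructor
  · rw [lt_div_iff₀ hD]; linarith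
  · rw [div_lt_iff₀ hD]; linarith

theorem mulb {a b a0 a1 b0 b1 : ℝ} (ha0 : 0 ≤ a0) (hb0 : 0 ≤ b0) (ha : a0 < a) (ha' : a < a1)
    (hb : b0 < b) (hb' : b < b1) : a0 * b0 ≤ a * b ∧ a * b ≤ a1 * b1 :=
  ⟨mul_le_mul ha.le hb.le hb0 (ha0.trans ha.le),
    mul_le_mul ha'.le hb'.le (hb0.trans hb.le) ((ha0.trans ha.le).trans ha'.le)⟩

theorem R1 : T.d * T.c = T.c + T.s + 2 - (T.L - 1) * T.s := by
  rw [T.hd]
  have := (c_bounds T).1
  have hc : T.c ≠ 0 := by linarith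
  field_simp

theorem R2 : (T.L - 1) * (T.c + T.s) = T.c + 2 * T.s + 2 := by
  obtain ⟨h0, h1⟩ := tb T
  have h3 : T.t^2 ≤ (0.36576930760468 : ℝ)^2 := pow_le_pow_left₀ (by linarith) h1.le 2
  norm_num at h3
  have hM : (1 + 2*T.t - T.t^2) ≠ 0 := by
    have : 0 < 1 + 2*T.t - T.t^2 := by linarith
    exact this.ne'
  have hD : (1 + T.t^2) ≠ 0 := by positivity
  obtain ⟨M, hMd⟩ : ∃ M, M = 1 + 2*T.t - T.t^2 := ⟨_, rfl⟩
  rw [T.hc, T.hs, T.hL, ← hMd]
  rw [← hMd] at hM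
  field_simp
  rw [hMd]
  ring

theorem R3 : (T.c + (T.d + 1) * T.s + 1/2) * T.s + (T.w + 1) * T.c = T.L - (T.c + T.s) / 2 := by
  rw [T.hw]
  have := (c_bounds T).1
  have hc : T.c ≠ 0 := by linarith
  field_simp
  ring

theorem R4 : (2 * T.c + T.s + 3/2) * T.c - (T.w - 1) * T.s = T.L - (T.c + T.s) / 2 := by
  obtain ⟨h0, h1⟩ := tb T
  have h3 : T.t^2 ≤ (0.36576930760468 : ℝ)^2 := pow_le_pow_left₀ (by linarith) h1.le 2
  norm_num at h3
  have hM : (1 + 2*T.t - T.t^2) ≠ 0 := by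
    have : 0 < 1 + 2*T.t - T.t^2 := by linarith
    exact this.ne'
  have hD : (1 + T.t^2) ≠ 0 := by positivity
  have hc0 := (c_bounds T).1
  have hc : T.c ≠ 0 := by linarith
  have e1 := R1 T
  have e2 := R3 T
  have h4 : T.c^2 * ((2 * T.c + T.s + 3/2) * T.c - (T.w - 1) * T.s - (T.L - (T.c + T.s) / 2)) =
      T.c^2 * ((2 * T.c + T.s + 3/2) * T.c - T.L + (T.c + T.s) / 2) -
      ((T.c * T.L - T.c * (T.c + T.s) / 2 - T.s * (T.c * T.c + ((T.c + T.s + 2 - (T.L - 1) * T.s)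
        + T.c) * T.s + T.c / 2) - T.c * T.c) - T.c * T.c) * T.s := by
    have e3 : T.w * T.c ^ 2 = T.c * T.L - T.c * (T.c + T.s) / 2 -
        T.s * (T.c * T.c + (T.d * T.c + T.c) * T.s + T.c / 2) - T.c * T.c := by
      linear_combination T.c * e2
    rw [← e1]
    linear_combination (-T.s) * e3
  have h5 : (T.c^2 * ((2 * T.c + T.s + 3/2) * T.c - T.L + (T.c + T.s) / 2) -
      ((T.c * T.L - T.c * (T.c + T.s) / 2 - T.s * (T.c * T.c + ((T.c + T.s + 2 - (T.L - 1) * T.s)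
        + T.c) * T.s + T.c / 2) - T.c * T.c) - T.c * T.c) * T.s) *
        ((1 + T.t^2)^4 * (1 + 2*T.t - T.t^2)) = 0 := by
    have ho := T.oct
    have h6 : (T.c^2 * ((2 * T.c + T.s + 3/2) * T.c - T.L + (T.c + T.s) / 2) -
      ((T.c * T.L - T.c * (T.c + T.s) / 2 - T.s * (T.c * T.c + ((T.c + T.s + 2 - (T.L - 1) * T.s)
        + T.c) * T.s + T.c / 2) - T.c * T.c) - T.c * T.c) * T.s) *
        ((1 + T.t^2)^4 * (1 + 2*T.t - T.t^2)) =
        (-2 * T.t) * (5*T.t^8 - 10*T.t^7 - 2*T.t^6 + 14*T.t^5 + 12*T.t^4 - 6*T.t^3 + 2*T.t^2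
          + 2*T.t - 1) := by
      obtain ⟨M, hMd⟩ : ∃ M, M = 1 + 2*T.t - T.t^2 := ⟨_, rfl⟩
      rw [T.hc, T.hs, T.hL, ← hMd]
      rw [← hMd] at hM
      field_simp
      rw [hMd]
      ring
    rw [h6, ho, mul_zero]
  rw [← h4] at h5
  rcases mul_eq_zero.1 h5 with h7 | h7
  · rcases mul_eq_zero.1 h7 with h8 | h8
    · exact absurd h8 (pow_ne_zero 2 hc)
    · linarith
  · exact absurd h7 (mul_ne_zero (pow_ne_zero 4 hD) hM)

theorem d_bounds : 2.0325583143 < T.d ∧ T.d < 2.0325583144 := by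
  obtain ⟨c0, c1⟩ := c_bounds T
  obtain ⟨s0, s1⟩ := s_bounds T
  obtain ⟨L0, L1⟩ := L_bounds T
  obtain ⟨m0, m1⟩ := mulb (by norm_num) (by norm_num) L0 L1 s0 s1
  have hc : 0 < T.c := by linarith
  norm_num at m0 m1
  rw [T.hd]
  constructor
  · rw [lt_div_iff₀ hc]; linarith
  · rw [div_lt_iff₀ hc]; linarith

theorem w_bounds : 0.4325311512 < T.w ∧ T.w < 0.4325311513 := by
  obtain ⟨c0, c1⟩ := c_bounds T
  obtain ⟨s0, s1⟩ := s_bounds T
  obtain ⟨L0, L1⟩ := L_bounds T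
  have e4 := R4 T
  have hs : 0 < T.s := by linarith
  obtain ⟨p0, p1⟩ := mulb (by norm_num) (by norm_num) c0 c1 c0 c1
  obtain ⟨q0, q1⟩ := mulb (by norm_num) (by norm_num) s0 s1 c0 c1
  norm_num at p0 p1 q0 q1
  have e5 : T.w * T.s = (2 * T.c + T.s + 3/2) * T.c + T.s - (T.L - (T.c + T.s) / 2) := by
    linear_combination -e4
  have h6 : 0.4325311512 * T.s < T.w * T.s := by
    rw [e5]; linarith
  have h7 : T.w * T.s < 0.4325311513 * T.s := by
    rw [e5]; linarith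
  exact ⟨lt_of_mul_lt_mul_right h6 hs.le, lt_of_mul_lt_mul_right h7 hs.le⟩

end rel

end Exist

open Exist in
/-- existence and uniqueness of the data -/
theorem trumpData_unique : (∃ T : TrumpData, True) ∧ ∀ T T' : TrumpData, T.t = T'.t ∧ T.L = T'.L := by
  refine ⟨?_, ?_⟩
  · obtain ⟨t, h0, h1, h⟩ := exists_t
    exact ⟨⟨t, _, _, _, _, _, h0, h1, h, rfl, rfl, rfl, rfl, rfl⟩, trivial⟩
  · intro T T'
    have ht : T.t = T'.t := by
      have hT : T.t ∈ Set.Icc (0.36 : ℝ) 0.37 := ⟨by have := T.ht0; linarith, by have := T.ht1; linarith⟩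
      have hT' : T'.t ∈ Set.Icc (0.36 : ℝ) 0.37 :=
        ⟨by have := T'.ht0; linarith, by have := T'.ht1; linarith⟩
      exact oc_mono.injOn hT hT' (by
        have h1 : oc T.t = 0 := T.oct
        have h2 : oc T'.t = 0 := T'.oct
        rw [h1, h2])
    exact ⟨ht, by rw [T.hL, T'.hL, ht]⟩

open Exist in
/-- the bounds of `SpecExist` -/
theorem trumpData_bounds (T : TrumpData) :
    3.8770835900 < T.L ∧ T.L < 3.8770835901 ∧ 0.7639994 < T.c ∧ T.c < 0.7639995 ∧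
    0.6452168 < T.s ∧ T.s < 0.6452169 ∧ 2.0325583 < T.d ∧ T.d < 2.0325584 ∧
    0.4325311 < T.w ∧ T.w < 0.4325312 := by
  obtain ⟨c0, c1⟩ := c_bounds T
  obtain ⟨s0, s1⟩ := s_bounds T
  obtain ⟨L0, L1⟩ := L_bounds T
  obtain ⟨d0, d1⟩ := d_bounds T
  obtain ⟨w0, w1⟩ := w_bounds T
  refine ⟨?_, ?_, ?_, ?_, ?_, ?_, ?_, ?_, ?_, ?_⟩ <;> linarith

end Pool.Agent.MP_abb58c_co
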