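import Pool.Agent.Lib.MP_abb58c_co.ExistA

/-! MP_abb58c_co, module EXIST, part B: the configuration, products of bounds -/

namespace Pool.Agent.MP_abb58c_co
namespace Exist

/-! ### Separation lemmas -/

theorem axax (x y x' y' : ℝ) (h : 1 ≤ |x' - x| ∨ 1 ≤ |y' - y|) :
    Sep ⟨x, y, 1, 0⟩ ⟨x', y', 1, 0⟩ := by
  unfold Sep relH
  simp only [mul_one, mul_zero, add_zero, sub_zero, abs_one, abs_zero]
  rcases h with h | h
  · left; linarith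
  · right; left; linarith

theorem tt (T : TrumpData) (u v u' v' : ℝ) (h : 1 ≤ |u' - u| ∨ 1 ≤ |v' - v|) :
    Sep (T.tilted u v) (T.tilted u' v') := by
  have h1 := cs_one T
  unfold Sep relH TrumpData.tilted
  simp only
  have e1 : T.c * T.c + T.s * T.s = 1 := by linear_combination h1
  have e2 : T.c * T.s - T.s * T.c = 0 := by ring
  have e3 : (u' * T.c - v' * T.s - (u * T.c - v * T.s)) * T.c +
      (u' * T.s + v' * T.c - (u * T.s + v * T.c)) * T.s = u' - u := by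
    linear_combination (u' - u) * h1
  have e4 : (u' * T.s + v' * T.c - (u * T.s + v * T.c)) * T.c -
      (u' * T.c - v' * T.s - (u * T.c - v * T.s)) * T.s = v' - v := by
    linear_combination (v' - v) * h1
  rw [e1, e2, e3, e4, abs_one, abs_zero]
  rcases h with h | h
  · left; linarith
  · right; left; linarith

theorem axt (T : TrumpData) (x y u v : ℝ)
    (h : 1/2 + (T.c + T.s)/2 ≤ |u * T.c - v * T.s - x| ∨ 1/2 + (T.c + T.s)/2 ≤ |u * T.s + v * T.c - y| ∨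
      1/2 + (T.c + T.s)/2 ≤ |u - (x * T.c + y * T.s)| ∨
      1/2 + (T.c + T.s)/2 ≤ |v - (y * T.c - x * T.s)|) :
    Sep ⟨x, y, 1, 0⟩ (T.tilted u v) := by
  have h1 := cs_one T
  have hc : 0 ≤ T.c := by have := (c_bounds T).1; linarith
  have hs : 0 ≤ T.s := by have := (s_bounds T).1; linarith
  unfold Sep relH TrumpData.tilted
  simp only
  have e1 : (1 : ℝ) * T.c + 0 * T.s = T.c := by ring
  have e2 : (1 : ℝ) * T.s - 0 * T.c = T.s := by ring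
  have e3 : (u * T.c - v * T.s - x) * 1 + (u * T.s + v * T.c - y) * 0 = u * T.c - v * T.s - x := by
    ring
  have e4 : (u * T.s + v * T.c - y) * 1 - (u * T.c - v * T.s - x) * 0 = u * T.s + v * T.c - y := by
    ring
  have e5 : (u * T.c - v * T.s - x) * T.c + (u * T.s + v * T.c - y) * T.s =
      u - (x * T.c + y * T.s) := by linear_combination u * h1
  have e6 : (u * T.s + v * T.c - y) * T.c - (u * T.c - v * T.s - x) * T.s =
      v - (y * T.c - x * T.s) := by linear_combination v * h1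
  rw [e1, e2, e3, e4, e5, e6, abs_of_nonneg hc, abs_of_nonneg hs]
  exact h

theorem sep_symm {q r : Sq} (hq : q.c ^ 2 + q.s ^ 2 = 1) (hr : r.c ^ 2 + r.s ^ 2 = 1)
    (hS : SpecSat) (h : Sep q r) : Disjoint r.op q.op := (hS.2 q r hq hr h).symm

section cfg

variable (T : TrumpData)

theorem cfg0 : T.cfg 0 = ⟨1/2, 1/2, 1, 0⟩ := rfl
theorem cfg1 : T.cfg 1 = ⟨3/2, 1/2, 1, 0⟩ := rfl
theorem cfg2 : T.cfg 2 = ⟨1/2, 3/2, 1, 0⟩ := rfl
theorem cfg3 : T.cfg 3 = ⟨1/2, T.d + 1/2, 1, 0⟩ := rfl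
theorem cfg4 : T.cfg 4 = ⟨T.L - 1/2, 1/2, 1, 0⟩ := rfl
theorem cfg5 : T.cfg 5 = ⟨T.L - 1/2, T.L - 1/2, 1, 0⟩ := rfl
theorem cfg6 : T.cfg 6 = T.tilted (T.c + 2*T.s + 1/2) (T.d*T.c - T.s - 1/2) := rfl
theorem cfg7 : T.cfg 7 = T.tilted (2*T.c + T.s + 1/2) (T.d*T.c - T.s - 3/2) := rfl
theorem cfg8 : T.cfg 8 = T.tilted (T.c + 2*T.s + 3/2) T.w := rfl
theorem cfg9 : T.cfg 9 = T.tilted (T.c + (T.d+1)*T.s + 1/2) (T.w + 1) := rfl
theorem cfg10 : T.cfg 10 = T.tilted (2*T.c + T.s + 3/2) (T.w - 1) := rfl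

/-- bounds for all monomials -/
theorem monos : (0.5836951957 ≤ T.c * T.c ∧ T.c * T.c ≤ 0.5836951958) ∧
    (0.4929453460 ≤ T.c * T.s ∧ T.c * T.s ≤ 0.4929453461) ∧
    (0.4163048042 ≤ T.s * T.s ∧ T.s * T.s ≤ 0.4163048043) ∧
    (1.5528734822 ≤ T.d * T.c ∧ T.d * T.c ≤ 1.5528734824) ∧
    (1.3114409056 ≤ T.d * T.s ∧ T.d * T.s ≤ 1.3114409058) ∧
    (1.0019401615 ≤ T.d * T.s * T.c ∧ T.d * T.s * T.c ≤ 1.0019401618) ∧
    (0.8461637911 ≤ T.d * T.s * T.s ∧ T.d * T.s * T.s ≤ 0.8461637914) ∧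
    (0.3304535718 ≤ T.w * T.c ∧ T.w * T.c ≤ 0.3304535720 ) ∧
    (0.2790763938 ≤ T.w * T.s ∧ T.w * T.s ≤ 0.2790763940) ∧
    (2.9620898220 ≤ T.L * T.c ∧ T.L * T.c ≤ 2.9620898221) ∧
    (2.5015597234 ≤ T.L * T.s ∧ T.L * T.s ≤ 2.5015597236) ∧
    (1.1863945230 ≤ T.d * T.c * T.c ∧ T.d * T.c * T.c ≤ 1.1863945233) := by
  obtain ⟨c0, c1⟩ := c_bounds T
  obtain ⟨s0, s1⟩ := s_bounds T
  obtain ⟨L0, L1⟩ := L_bounds T
  obtain ⟨d0, d1⟩ := d_bounds T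
  obtain ⟨w0, w1⟩ := w_bounds T
  have a1 := mulb (by norm_num) (by norm_num) c0 c1 c0 c1
  have a2 := mulb (by norm_num) (by norm_num) c0 c1 s0 s1
  have a3 := mulb (by norm_num) (by norm_num) s0 s1 s0 s1
  have a4 := mulb (by norm_num) (by norm_num) d0 d1 c0 c1
  have a5 := mulb (by norm_num) (by norm_num) d0 d1 s0 s1
  have a8 := mulb (by norm_num) (by norm_num) w0 w1 c0 c1
  have a9 := mulb (by norm_num) (by norm_num) w0 w1 s0 s1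
  have a10 := mulb (by norm_num) (by norm_num) L0 L1 c0 c1
  have a11 := mulb (by norm_num) (by norm_num) L0 L1 s0 s1
  norm_num at a1 a2 a3 a4 a5 a8 a9 a10 a11
  have b5 : 1.3114409056 < T.d * T.s ∧ T.d * T.s < 1.3114409058 := by
    constructor <;> linarith [a5.1, a5.2]
  have b4 : 1.5528734822 < T.d * T.c ∧ T.d * T.c < 1.5528734824 := by
    constructor <;> linarith [a4.1, a4.2]
  have a12 := mulb (by norm_num) (by norm_num) b4.1 b4.2 c0 c1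
  have a6 := mulb (by norm_num) (by norm_num) b5.1 b5.2 c0 c1
  have a7 := mulb (by norm_num) (by norm_num) b5.1 b5.2 s0 s1
  norm_num at a6 a7 a12
  refine ⟨⟨?_, ?_⟩, ⟨?_, ?_⟩, ⟨?_, ?_⟩, ⟨?_, ?_⟩, ⟨?_, ?_⟩, ⟨?_, ?_⟩, ⟨?_, ?_⟩, ⟨?_, ?_⟩,
    ⟨?_, ?_⟩, ⟨?_, ?_⟩, ⟨?_, ?_⟩, ⟨?_, ?_⟩⟩
  all_goals linarith [a1.1, a1.2, a2.1, a2.2, a3.1, a3.2, a4.1, a4.2, a5.1, a5.2, a6.1, a6.2,
    a7.1, a7.2, a8.1, a8.2, a9.1, a9.2, a10.1, a10.2, a11.1, a11.2, a12.1, a12.2]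

theorem cfg_unit (i : Fin 11) : (T.cfg i).c ^ 2 + (T.cfg i).s ^ 2 = 1 := by
  have r0 := cs_one T
  fin_cases i
  · change (1 : ℝ) ^ 2 + 0 ^ 2 = 1; norm_num
  · change (1 : ℝ) ^ 2 + 0 ^ 2 = 1; norm_num
  · change (1 : ℝ) ^ 2 + 0 ^ 2 = 1; norm_num
  · change (1 : ℝ) ^ 2 + 0 ^ 2 = 1; norm_num
  · change (1 : ℝ) ^ 2 + 0 ^ 2 = 1; norm_num
  · change (1 : ℝ) ^ 2 + 0 ^ 2 = 1; norm_num
  · exact r0
  · exact r0
  · exact r0
  · exact r0
  · exact r0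

theorem ax_h (x y : ℝ) : (⟨x, y, 1, 0⟩ : Sq).h = 1/2 := by
  unfold Sq.h; norm_num

theorem tilted_h (u v : ℝ) : (T.tilted u v).h = (T.c + T.s)/2 := by
  have hc : 0 ≤ T.c := by have := (c_bounds T).1; linarith
  have hs : 0 ≤ T.s := by have := (s_bounds T).1; linarith
  unfold Sq.h TrumpData.tilted
  simp only
  rw [abs_of_nonneg hc, abs_of_nonneg hs]

end cfg
end Exist
end Pool.Agent.MP_abb58c_co
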