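import Pool.Agent.Lib.MP_abb58c_co.FineEntry2

/-! MP_abb58c_co, FINE: the exit with a larger radius for the axis parallel squares -/

namespace Pool.Agent.MP_abb58c_co
namespace Fine

open Real Case

/-- radius of the exit box, units `1/M` -/
def exR (b : Bool) : ℕ := if b then 34700 else 48900

/-- the exit check -/
def exitOK3 (tl : Fin 11 → Bool) (lo hi : ℕ → ℕ) : Bool :=
  (List.finRange 11).all fun l =>
    (tl l == tiltS l) &&
    (decide (exU l ≤ lo (3 * l) + exR (tiltS l)) && decide (hi (3 * l) ≤ exU l + exR (tiltS l))) &&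
    (decide (exV l ≤ lo (3 * l + 1) + exR (tiltS l)) &&
      decide (hi (3 * l + 1) ≤ exV l + exR (tiltS l))) &&
    (decide (100000000 ≤ lo (3 * l + 2) + 188000) && decide (hi (3 * l + 2) ≤ 100188000))

/-- the content of the exit check -/
theorem exit_bounds3 {tl : Fin 11 → Bool} {lo hi : ℕ → ℕ} (hchk : exitOK3 tl lo hi = true)
    {w : Wd} (hb : InUBox tl lo hi w) (l : Fin 11) :
    |w.x l - (exX l : ℝ) / 100000000| ≤ 0.00049 ∧ |w.y l - (exY l : ℝ) / 100000000| ≤ 0.00049 ∧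
    |w.t l - base (tiltS l)| ≤ 0.00188 := by
  have h1 := List.all_eq_true.1 hchk l (List.mem_finRange l)
  simp only [Bool.and_eq_true, decide_eq_true_eq, beq_iff_eq] at h1
  obtain ⟨⟨⟨g1, g2, g3⟩, g4, g5⟩, g6, g7⟩ := h1
  obtain ⟨⟨b1, b2⟩, ⟨b3, b4⟩, b5, b6⟩ := hb l
  have hMM : ((MM : ℕ) : ℝ) = 100000000 := by norm_num
  rw [hMM] at b1 b2 b3 b4 b5 b6
  rw [g1] at b1 b2 b3 b4 b5 b6
  have g6' : (100000000 : ℝ) ≤ (lo (3 * l + 2) : ℝ) + 188000 := by exact_mod_cast g6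
  have g7' : ((hi (3 * l + 2) : ℕ) : ℝ) ≤ 100188000 := by exact_mod_cast g7
  have hE := exUV_bd l
  cases hT : tiltS l
  · rw [hT] at hE b1 b2 b3 b4 b5 b6 g2 g3 g4 g5
    simp only [Bool.false_eq_true, if_false, exR] at hE g2 g3 g4 g5
    have g2' : (exU l : ℝ) ≤ (lo (3 * l) : ℝ) + 48900 := by exact_mod_cast g2
    have g3' : ((hi (3 * l) : ℕ) : ℝ) ≤ (exU l : ℝ) + 48900 := by exact_mod_cast g3
    have g4' : (exV l : ℝ) ≤ (lo (3 * l + 1) : ℝ) + 48900 := by exact_mod_cast g4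
    have g5' : ((hi (3 * l + 1) : ℕ) : ℝ) ≤ (exV l : ℝ) + 48900 := by exact_mod_cast g5
    obtain ⟨e1, e2⟩ := hE
    rw [e1] at g2' g3'
    rw [e2] at g4' g5'
    simp only [Wd.U, Wd.V, vb, Bool.false_eq_true, if_false, Nat.cast_zero, add_zero]
      at b1 b2 b3 b4
    refine ⟨?_, ?_, ?_⟩
    · rw [abs_le]; constructor <;> linarith
    · rw [abs_le]; constructor <;> linarith
    · rw [abs_le]; constructor <;> linarith
  · rw [hT] at hE b1 b2 b3 b4 b5 b6 g2 g3 g4 g5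
    simp only [if_true, exR] at hE g2 g3 g4 g5
    have g2' : (exU l : ℝ) ≤ (lo (3 * l) : ℝ) + 34700 := by exact_mod_cast g2
    have g3' : ((hi (3 * l) : ℕ) : ℝ) ≤ (exU l : ℝ) + 34700 := by exact_mod_cast g3
    have g4' : (exV l : ℝ) ≤ (lo (3 * l + 1) : ℝ) + 34700 := by exact_mod_cast g4
    have g5' : ((hi (3 * l + 1) : ℕ) : ℝ) ≤ (exV l : ℝ) + 34700 := by exact_mod_cast g5
    obtain ⟨e1, e2, e3, e4⟩ := hE
    have e1' : 953 * (exU l : ℝ) ≤ 728 * exX l + 615 * exY l + 953 := by exact_mod_cast e1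
    have e2' : 728 * (exX l : ℝ) + 615 * exY l ≤ 953 * exU l + 953 := by exact_mod_cast e2
    have e3' : 953 * (exV l : ℝ) + 615 * exX l ≤ 728 * exY l + 381200000000 + 953 := by
      exact_mod_cast e3
    have e4' : 728 * (exY l : ℝ) + 381200000000 ≤ 953 * exV l + 615 * exX l + 953 := by
      exact_mod_cast e4
    simp only [Wd.U, Wd.V, vb, if_true] at b1 b2 b3 b4
    push_cast at b1 b2 b3 b4
    refine ⟨?_, ?_, ?_⟩
    · rw [abs_le]; constructor <;> linarith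
    · rw [abs_le]; constructor <;> linarith
    · rw [abs_le]; constructor <;> linarith

/-- EXIT -/
theorem exit3 (hLoc : SpecLocal) {tl : Fin 11 → Bool} {lo hi : ℕ → ℕ} (hchk : exitOK3 tl lo hi = true)
    {T : TrumpData} {L : ℝ} {w : Wd} (hL : L ≤ T.L) (hc : CPack L w.sq)
    (hb : InUBox tl lo hi w) : L = T.L :=
  exit_core hLoc hL hc (exit_bounds3 hchk hb)

end Fine
end Pool.Agent.MP_abb58c_co
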