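import Pool.Agent.Lib.MP_abb58c_co.FineSem

/-! MP_abb58c_co, FINE: soundness of the linear parts of `ownK`: `typ`, `getL`, `coefK`, `bndK` -/

set_option autoImplicit false

namespace Pool.Agent.MP_abb58c_co
namespace Fine

theorem specTyp : SpecTyp := by
  intro i k hi h
  interval_cases i <;> exact h

/-- a field of the packed box -/
theorem LinM.shr_dg {P s t v : ℕ} (h : s + t = 144 * v) :
    Nat.mod (Nat.shiftRight (Nat.shiftRight P s) t)
      22300745198530623141535718272648361505980416 = dg 144 P v := by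
  have e : (P >>> s) >>> t = P >>> (144 * v) := by rw [← h, Nat.shiftRight_add]
  unfold dg
  rw [← e]
  have e2 : (2 : ℕ) ^ 144 = 22300745198530623141535718272648361505980416 := by norm_num
  rw [e2]
  rfl

theorem specGetL : SpecGetL := by
  intro z LO HI hB i k hi h
  have g0 : ∀ P : ℕ, Nat.mod (Nat.shiftRight P (Nat.sub 4464 (Nat.mul 432 i)))
      22300745198530623141535718272648361505980416 = dg 144 P (33 - (3 * i + 2)) := by
    intro P
    exact LinM.shr_dg (P := P) (s := 4464 - 432 * i) (t := 0) (v := 33 - (3 * i + 2)) (by omega)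
  have g1 : ∀ P : ℕ, Nat.mod (Nat.shiftRight (Nat.shiftRight P (Nat.sub 4464 (Nat.mul 432 i))) 144)
      22300745198530623141535718272648361505980416 = dg 144 P (33 - (3 * i + 1)) := by
    intro P
    exact LinM.shr_dg (P := P) (s := 4464 - 432 * i) (t := 144) (v := 33 - (3 * i + 1)) (by omega)
  have g2 : ∀ P : ℕ, Nat.mod (Nat.shiftRight (Nat.shiftRight P (Nat.sub 4464 (Nat.mul 432 i))) 288)
      22300745198530623141535718272648361505980416 = dg 144 P (33 - 3 * i) := by
    intro P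
    exact LinM.shr_dg (P := P) (s := 4464 - 432 * i) (t := 288) (v := 33 - 3 * i) (by omega)
  refine ⟨dg 144 LO (33 - 3 * i), dg 144 HI (33 - 3 * i), dg 144 LO (33 - (3 * i + 1)),
    dg 144 HI (33 - (3 * i + 1)), dg 144 LO (33 - (3 * i + 2)), dg 144 HI (33 - (3 * i + 2)),
    ⟨hB.le _ (by omega), hB.ge _ (by omega)⟩, ⟨hB.le _ (by omega), hB.ge _ (by omega)⟩,
    ⟨hB.le _ (by omega), hB.ge _ (by omega)⟩, ?_⟩
  rw [← g2, ← g2, ← g1, ← g1, ← g0, ← g0]
  exact h

/-- difference of the two truncated differences -/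
theorem LinM.subsub (a b : ℕ) : (((a - b : ℕ) : ℝ) - ((b - a : ℕ) : ℝ)) = (a : ℝ) - b := by
  rcases le_total a b with h | h
  · rw [Nat.sub_eq_zero_of_le h, Nat.cast_sub h]
    simp
  · rw [Nat.sub_eq_zero_of_le h, Nat.cast_sub h]
    simp

theorem specCoef : SpecCoef := by
  intro b Pp Pn Qp Qn k h
  refine ⟨(baseC b * Pp + baseS b * Qp) - (baseC b * Pn + baseS b * Qn),
    (baseC b * Pn + baseS b * Qn) - (baseC b * Pp + baseS b * Qp),
    (baseC b * Qp + baseS b * Pn) - (baseC b * Qn + baseS b * Pp),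
    (baseC b * Qn + baseS b * Pp) - (baseC b * Qp + baseS b * Pn), ?_, ?_, h⟩
  · rw [LinM.subsub]
    push_cast
    ring
  · rw [LinM.subsub]
    push_cast
    ring

theorem specBnd : SpecBnd := by
  intro T4i T4j xpi xni ypi yni xpj xnj ypj ynj lxi hxi lyi hyi lxj hxj lyj hyj
    Xi Yi Xj Yj F k h1 h2 h3 h4 h5 h6 h7 h8 hF h
  refine ⟨T4j * ynj + T4i * ypi, T4j * ypj + T4i * yni,
    xpj * lxj + ypj * lyj + xni * lxi + yni * lyi + (T4j * ynj + T4i * ypi),
    xnj * hxj + ynj * hyj + xpi * hxi + ypi * hyi + (T4j * ypj + T4i * yni),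
    xpj * hxj + ypj * hyj + xni * hxi + yni * hyi + (T4j * ynj + T4i * ypi),
    xnj * lxj + ynj * lyj + xpi * lxi + ypi * lyi + (T4j * ypj + T4i * yni), ?_, ?_, ?_, h⟩
  · push_cast
    ring
  · have a1 := mul_le_mul_of_nonneg_left h5 (Nat.cast_nonneg (α := ℝ) xpj)
    have a2 := mul_le_mul_of_nonneg_left h7 (Nat.cast_nonneg (α := ℝ) ypj)
    have a3 := mul_le_mul_of_nonneg_left h1 (Nat.cast_nonneg (α := ℝ) xni)
    have a4 := mul_le_mul_of_nonneg_left h3 (Nat.cast_nonneg (α := ℝ) yni)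
    have a5 := mul_le_mul_of_nonneg_left h6 (Nat.cast_nonneg (α := ℝ) xnj)
    have a6 := mul_le_mul_of_nonneg_left h8 (Nat.cast_nonneg (α := ℝ) ynj)
    have a7 := mul_le_mul_of_nonneg_left h2 (Nat.cast_nonneg (α := ℝ) xpi)
    have a8 := mul_le_mul_of_nonneg_left h4 (Nat.cast_nonneg (α := ℝ) ypi)
    rw [hF]
    push_cast
    linarith
  · have a1 := mul_le_mul_of_nonneg_left h6 (Nat.cast_nonneg (α := ℝ) xpj)
    have a2 := mul_le_mul_of_nonneg_left h8 (Nat.cast_nonneg (α := ℝ) ypj)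
    have a3 := mul_le_mul_of_nonneg_left h2 (Nat.cast_nonneg (α := ℝ) xni)
    have a4 := mul_le_mul_of_nonneg_left h4 (Nat.cast_nonneg (α := ℝ) yni)
    have a5 := mul_le_mul_of_nonneg_left h5 (Nat.cast_nonneg (α := ℝ) xnj)
    have a6 := mul_le_mul_of_nonneg_left h7 (Nat.cast_nonneg (α := ℝ) ynj)
    have a7 := mul_le_mul_of_nonneg_left h1 (Nat.cast_nonneg (α := ℝ) xpi)
    have a8 := mul_le_mul_of_nonneg_left h3 (Nat.cast_nonneg (α := ℝ) ypi)
    rw [hF]
    push_cast
    linarith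

end Fine
end Pool.Agent.MP_abb58c_co
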