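import Pool.Agent.Lib.MP_abb58c_co.FineCheck

/-! MP_abb58c_co, FINE: packed rows -/

namespace Pool.Agent.MP_abb58c_co
namespace Fine

open Finset

/-- base row: `2^79` in all fields except the last one -/
def g0f (v : ℕ) : ℕ := if v < 33 then 2 ^ 79 else 0

theorem BAL0_eq : BAL0 = pk 144 34 g0f := by
  decide +kernel

theorem pk_single {c x : ℕ} (hc : c < 34) :
    pk 144 34 (fun v => if v = c then x else 0) = x * 2 ^ (144 * c) := by
  unfold pk
  rw [Finset.sum_eq_single c]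
  · simp
  · intro b _ hb
    simp [hb]
  · intro h
    exact absurd (mem_range.2 hc) h

/-- the fields of a row with two labels -/
def rowf (i j fxi fyi fti fxj fyj ftj fc v : ℕ) : ℕ :=
  if v = 3 * i then fxi else if v = 3 * i + 1 then fyi else if v = 3 * i + 2 then fti else
  if v = 3 * j then fxj else if v = 3 * j + 1 then fyj else if v = 3 * j + 2 then ftj else
  if v = 33 then fc else 2 ^ 79

theorem grpK_shift (fx fy ft i : ℕ) : (grpK fx fy ft) * 2 ^ (432 * i) =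
    fx * 2 ^ (144 * (3 * i)) + fy * 2 ^ (144 * (3 * i + 1)) + ft * 2 ^ (144 * (3 * i + 2)) := by
  have e : grpK fx fy ft = fx + fy * 2 ^ 144 + ft * 2 ^ 288 := by
    unfold grpK
    simp only [nadd]
    change fx + fy <<< 144 + ft <<< 288 = _
    rw [Nat.shiftLeft_eq, Nat.shiftLeft_eq]
  rw [e]
  have e1 : 432 * i = 144 * (3 * i) := by ring
  have e2 : 144 * (3 * i + 1) = 144 * (3 * i) + 144 := by ring
  have e3 : 144 * (3 * i + 2) = 144 * (3 * i) + 288 := by ring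
  rw [e1, e2, e3, pow_add, pow_add]
  ring

theorem B3_shift (i : ℕ) : B3 * 2 ^ (432 * i) = 2 ^ 79 * 2 ^ (144 * (3 * i)) +
    2 ^ 79 * 2 ^ (144 * (3 * i + 1)) + 2 ^ 79 * 2 ^ (144 * (3 * i + 2)) := by
  have e : B3 = 2 ^ 79 + 2 ^ 79 * 2 ^ 144 + 2 ^ 79 * 2 ^ 288 := by
    decide +kernel
  rw [e]
  have e1 : 432 * i = 144 * (3 * i) := by ring
  have e2 : 144 * (3 * i + 1) = 144 * (3 * i) + 144 := by ring
  have e3 : 144 * (3 * i + 2) = 144 * (3 * i) + 288 := by ring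
  rw [e1, e2, e3, pow_add, pow_add]
  ring

/-- the indicator function times `x` -/
def sg (c x v : ℕ) : ℕ := if v = c then x else 0

theorem pk_sg {c x : ℕ} (hc : c < 34) : pk 144 34 (sg c x) = x * 2 ^ (144 * c) := pk_single hc

theorem rowP_eq {i j fxi fyi fti fxj fyj ftj fc : ℕ} (hij : i < j) (hj : j ≤ 10) :
    rowP i j (grpK fxi fyi fti) (grpK fxj fyj ftj) fc =
      pk 144 34 (rowf i j fxi fyi fti fxj fyj ftj fc) := by
  have key : pk 144 34 (rowf i j fxi fyi fti fxj fyj ftj fc) +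
      (B3 * 2 ^ (432 * i) + B3 * 2 ^ (432 * j)) =
      BAL0 + grpK fxi fyi fti * 2 ^ (432 * i) + grpK fxj fyj ftj * 2 ^ (432 * j) +
        fc * 2 ^ 4752 := by
    rw [B3_shift, B3_shift, grpK_shift, grpK_shift, BAL0_eq,
      show (4752 : ℕ) = 144 * 33 by norm_num]
    rw [← pk_sg (c := 3 * i) (by omega), ← pk_sg (c := 3 * i + 1) (by omega),
      ← pk_sg (c := 3 * i + 2) (by omega), ← pk_sg (c := 3 * j) (by omega),
      ← pk_sg (c := 3 * j + 1) (by omega), ← pk_sg (c := 3 * j + 2) (by omega),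
      ← pk_sg (c := 3 * i) (x := fxi) (by omega), ← pk_sg (c := 3 * i + 1) (x := fyi) (by omega),
      ← pk_sg (c := 3 * i + 2) (x := fti) (by omega), ← pk_sg (c := 3 * j) (x := fxj) (by omega),
      ← pk_sg (c := 3 * j + 1) (x := fyj) (by omega),
      ← pk_sg (c := 3 * j + 2) (x := ftj) (by omega), ← pk_sg (c := 33) (x := fc) (by omega)]
    simp only [← pk_add]
    refine pk_congr fun v hv => ?_
    unfold rowf sg g0f
    split_ifs <;> omega
  have e1 : rowP i j (grpK fxi fyi fti) (grpK fxj fyj ftj) fc =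
      BAL0 + grpK fxi fyi fti * 2 ^ (432 * i) + grpK fxj fyj ftj * 2 ^ (432 * j) +
        fc * 2 ^ 4752 - (B3 * 2 ^ (432 * i) + B3 * 2 ^ (432 * j)) := by
    unfold rowP
    change BAL0 + (grpK fxi fyi fti) <<< (432 * i) + (grpK fxj fyj ftj) <<< (432 * j) +
      fc <<< 4752 - (B3 <<< (432 * i) + B3 <<< (432 * j)) = _
    simp only [Nat.shiftLeft_eq]
  rw [e1, ← key, Nat.add_sub_cancel]

theorem rowf_lt {i j fxi fyi fti fxj fyj ftj fc v : ℕ} (h1 : fxi < 2 ^ 80) (h2 : fyi < 2 ^ 80)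
    (h3 : fti < 2 ^ 80) (h4 : fxj < 2 ^ 80) (h5 : fyj < 2 ^ 80) (h6 : ftj < 2 ^ 80)
    (h7 : fc < 2 ^ 80) : rowf i j fxi fyi fti fxj fyj ftj fc v < 2 ^ 80 := by
  unfold rowf
  split_ifs <;> first | assumption | norm_num

theorem sum_seven {i j : ℕ} (hij : i < j) (hj : j ≤ 10) (z : ℕ → ℝ)
    (fxi fyi fti fxj fyj ftj fc : ℕ) :
    ∑ v ∈ range 34, (((rowf i j fxi fyi fti fxj fyj ftj fc v : ℤ) - 2 ^ 79 : ℤ) : ℝ) * z v =
      ((fxi : ℝ) - 2 ^ 79) * z (3 * i) + ((fyi : ℝ) - 2 ^ 79) * z (3 * i + 1) +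
      ((fti : ℝ) - 2 ^ 79) * z (3 * i + 2) + ((fxj : ℝ) - 2 ^ 79) * z (3 * j) +
      ((fyj : ℝ) - 2 ^ 79) * z (3 * j + 1) + ((ftj : ℝ) - 2 ^ 79) * z (3 * j + 2) +
      ((fc : ℝ) - 2 ^ 79) * z 33 := by
  have key : ∀ v ∈ range 34,
      (((rowf i j fxi fyi fti fxj fyj ftj fc v : ℤ) - 2 ^ 79 : ℤ) : ℝ) * z v =
      (if v = 3 * i then ((fxi : ℝ) - 2 ^ 79) * z (3 * i) else 0) +
      (if v = 3 * i + 1 then ((fyi : ℝ) - 2 ^ 79) * z (3 * i + 1) else 0) +
      (if v = 3 * i + 2 then ((fti : ℝ) - 2 ^ 79) * z (3 * i + 2) else 0) +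
      (if v = 3 * j then ((fxj : ℝ) - 2 ^ 79) * z (3 * j) else 0) +
      (if v = 3 * j + 1 then ((fyj : ℝ) - 2 ^ 79) * z (3 * j + 1) else 0) +
      (if v = 3 * j + 2 then ((ftj : ℝ) - 2 ^ 79) * z (3 * j + 2) else 0) +
      (if v = 33 then ((fc : ℝ) - 2 ^ 79) * z 33 else 0) := by
    intro v _
    unfold rowf
    split_ifs <;> first | (exfalso; omega) | (subst_vars; push_cast; ring) | (push_cast; ring)
  rw [sum_congr rfl key]
  simp only [sum_add_distrib, sum_ite_eq', mem_range]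
  rw [if_pos (by omega), if_pos (by omega), if_pos (by omega), if_pos (by omega),
    if_pos (by omega), if_pos (by omega), if_pos (by omega)]

/-- a packed row with two labels -/
theorem rowP_ok {z : ℕ → ℝ} {i j fxi fyi fti fxj fyj ftj fc : ℕ} (hij : i < j) (hj : j ≤ 10)
    (h1 : fxi < 2 ^ 80) (h2 : fyi < 2 ^ 80) (h3 : fti < 2 ^ 80) (h4 : fxj < 2 ^ 80)
    (h5 : fyj < 2 ^ 80) (h6 : ftj < 2 ^ 80) (h7 : fc < 2 ^ 80)
    (h0 : 0 ≤ ((fxi : ℝ) - 2 ^ 79) * z (3 * i) + ((fyi : ℝ) - 2 ^ 79) * z (3 * i + 1) +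
      ((fti : ℝ) - 2 ^ 79) * z (3 * i + 2) + ((fxj : ℝ) - 2 ^ 79) * z (3 * j) +
      ((fyj : ℝ) - 2 ^ 79) * z (3 * j + 1) + ((ftj : ℝ) - 2 ^ 79) * z (3 * j + 2) +
      ((fc : ℝ) - 2 ^ 79) * z 33) :
    RowOK z (rowP i j (grpK fxi fyi fti) (grpK fxj fyj ftj) fc) := by
  refine ⟨fun v => (rowf i j fxi fyi fti fxj fyj ftj fc v : ℤ) - 2 ^ 79,
    rowf i j fxi fyi fti fxj fyj ftj fc, rowP_eq hij hj, fun v _ => ⟨by ring,
      rowf_lt h1 h2 h3 h4 h5 h6 h7⟩, ?_⟩
  rw [sum_seven hij hj]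
  exact h0

/-- the fields of a row with one label -/
def rowf1 (i fx fy ft fc v : ℕ) : ℕ :=
  if v = 3 * i then fx else if v = 3 * i + 1 then fy else if v = 3 * i + 2 then ft else
  if v = 33 then fc else 2 ^ 79

theorem rowP1_eq {i fx fy ft fc : ℕ} (hi : i ≤ 10) :
    rowP1 i (grpK fx fy ft) fc = pk 144 34 (rowf1 i fx fy ft fc) := by
  have key : pk 144 34 (rowf1 i fx fy ft fc) + B3 * 2 ^ (432 * i) =
      BAL0 + grpK fx fy ft * 2 ^ (432 * i) + fc * 2 ^ 4752 := by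
    rw [B3_shift, grpK_shift, BAL0_eq, show (4752 : ℕ) = 144 * 33 by norm_num]
    rw [← pk_sg (c := 3 * i) (by omega), ← pk_sg (c := 3 * i + 1) (by omega),
      ← pk_sg (c := 3 * i + 2) (by omega),
      ← pk_sg (c := 3 * i) (x := fx) (by omega), ← pk_sg (c := 3 * i + 1) (x := fy) (by omega),
      ← pk_sg (c := 3 * i + 2) (x := ft) (by omega), ← pk_sg (c := 33) (x := fc) (by omega)]
    simp only [← pk_add]
    refine pk_congr fun v hv => ?_
    unfold rowf1 sg g0f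
    split_ifs <;> omega
  have e1 : rowP1 i (grpK fx fy ft) fc =
      BAL0 + grpK fx fy ft * 2 ^ (432 * i) + fc * 2 ^ 4752 - B3 * 2 ^ (432 * i) := by
    unfold rowP1
    change BAL0 + (grpK fx fy ft) <<< (432 * i) + fc <<< 4752 - B3 <<< (432 * i) = _
    simp only [Nat.shiftLeft_eq]
  rw [e1, ← key, Nat.add_sub_cancel]

/-- a packed row with one label -/
theorem rowP1_ok {z : ℕ → ℝ} {i fx fy ft fc : ℕ} (hi : i ≤ 10)
    (h1 : fx < 2 ^ 80) (h2 : fy < 2 ^ 80) (h3 : ft < 2 ^ 80) (h7 : fc < 2 ^ 80)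
    (h0 : 0 ≤ ((fx : ℝ) - 2 ^ 79) * z (3 * i) + ((fy : ℝ) - 2 ^ 79) * z (3 * i + 1) +
      ((ft : ℝ) - 2 ^ 79) * z (3 * i + 2) + ((fc : ℝ) - 2 ^ 79) * z 33) :
    RowOK z (rowP1 i (grpK fx fy ft) fc) := by
  refine ⟨fun v => (rowf1 i fx fy ft fc v : ℤ) - 2 ^ 79, rowf1 i fx fy ft fc, rowP1_eq hi,
    fun v _ => ⟨by ring, ?_⟩, ?_⟩
  · unfold rowf1
    split_ifs <;> first | assumption | norm_num
  · have key : ∀ v ∈ range 34,
        (((rowf1 i fx fy ft fc v : ℤ) - 2 ^ 79 : ℤ) : ℝ) * z v =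
        (if v = 3 * i then ((fx : ℝ) - 2 ^ 79) * z (3 * i) else 0) +
        (if v = 3 * i + 1 then ((fy : ℝ) - 2 ^ 79) * z (3 * i + 1) else 0) +
        (if v = 3 * i + 2 then ((ft : ℝ) - 2 ^ 79) * z (3 * i + 2) else 0) +
        (if v = 33 then ((fc : ℝ) - 2 ^ 79) * z 33 else 0) := by
      intro v _
      unfold rowf1
      split_ifs <;> first | (exfalso; omega) | (subst_vars; push_cast; ring) | (push_cast; ring)
    rw [sum_congr rfl key]
    simp only [sum_add_distrib, sum_ite_eq', mem_range]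
    rw [if_pos (by omega), if_pos (by omega), if_pos (by omega), if_pos (by omega)]
    exact h0

theorem fldK_ok {p n : ℕ} {k : ℕ → Bool} (h : fldK p n k = true) :
    ∃ f : ℕ, (f : ℝ) - 2 ^ 79 = (p : ℝ) - n ∧ f < 2 ^ 80 ∧ k f = true := by
  unfold fldK at h
  obtain ⟨h1, h2⟩ := cond_true h
  obtain ⟨h3, h4⟩ := cond_true h2
  have h1' := ble_le h1
  have h3' := blt_lt h3
  refine ⟨_, ?_, ?_, h4⟩
  · simp only [nadd, nsub] at h1' ⊢
    rw [Nat.cast_sub h1']
    push_cast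
    ring
  · have e : (2 : ℕ) ^ 80 = 1208925819614629174706176 := by norm_num
    rw [e]
    exact h3'

theorem cstK_ok {p n : ℕ} {k : ℕ → Bool} (h : cstK p n k = true) :
    ∃ f : ℕ, (p : ℝ) - n ≤ ((f : ℝ) - 2 ^ 79) * 1073741824 ∧ f < 2 ^ 80 ∧ k f = true := by
  unfold cstK at h
  obtain ⟨h1, h2⟩ := cond_true h
  obtain ⟨h3, h4⟩ := cond_true h2
  have h1' := ble_le h1
  have h3' := blt_lt h3
  refine ⟨_, ?_, ?_, h4⟩
  · simp only [nadd, nsub] at h1' ⊢
    change _ ≤ ((((p + 649037107316853453566312041152512 - n) / 1073741824 + 1 : ℕ) : ℝ) - 2 ^ 79) *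
      1073741824
    have h5 : p + 649037107316853453566312041152512 - n ≤
        ((p + 649037107316853453566312041152512 - n) / 1073741824 + 1) * 1073741824 := by
      omega
    have h6 : ((p + 649037107316853453566312041152512 - n : ℕ) : ℝ) ≤
        (((p + 649037107316853453566312041152512 - n) / 1073741824 + 1 : ℕ) : ℝ) *
          1073741824 := by exact_mod_cast h5
    rw [Nat.cast_sub h1'] at h6
    push_cast at h6 ⊢
    norm_num at h6 ⊢
    linarith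
  · have e : (2 : ℕ) ^ 80 = 1208925819614629174706176 := by norm_num
    rw [e]
    exact h3'

/-- the sign of a Boolean -/
def sgn (s : Bool) : ℝ := if s then 1 else -1

theorem lcK_ok {s : Bool} {m l ap an bp bn : ℕ} {k : ℕ → ℕ → Bool}
    (h : lcK s m l ap an bp bn k = true) : ∃ p n : ℕ,
    (p : ℝ) - n = m * ((ap : ℝ) - an) + sgn s * l * ((bp : ℝ) - bn) ∧ k p n = true := by
  unfold lcK at h
  cases s
  · refine ⟨_, _, ?_, h⟩
    simp only [nadd, nmul, sgn, Bool.false_eq_true, if_false]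
    push_cast
    ring
  · refine ⟨_, _, ?_, h⟩
    simp only [nadd, nmul, sgn, if_true]
    push_cast
    ring

theorem sgK_ok {s : Bool} {p n X : ℕ} {k : ℕ → ℕ → Bool} (h : sgK s p n X k = true) :
    ∃ p' n' : ℕ, (p' : ℝ) - n' = (p : ℝ) - n + sgn s * X ∧ k p' n' = true := by
  unfold sgK at h
  cases s
  · refine ⟨_, _, ?_, h⟩
    simp only [nadd, sgn, Bool.false_eq_true, if_false]
    push_cast
    ring
  · refine ⟨_, _, ?_, h⟩
    simp only [nadd, sgn, if_true]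
    push_cast
    ring

/-- `La = |lam - 64|`, `s = (64 ≤ lam)` -/
theorem sgn_abs {lam : ℕ} :
    sgn (Nat.ble 64 lam) * (absK lam 64 : ℝ) = (lam : ℝ) - 64 := by
  unfold absK
  simp only [nadd, nsub]
  rcases Nat.lt_or_ge lam 64 with h | h
  · have h1 : Nat.ble 64 lam = false := by
      rw [Bool.eq_false_iff]
      intro h2
      have := ble_le h2
      omega
    rw [h1]
    simp only [sgn, Bool.false_eq_true, if_false]
    rw [Nat.sub_eq_zero_of_le h.le, zero_add, Nat.cast_sub h.le]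
    push_cast
    ring
  · have h1 : Nat.ble 64 lam = true := by rw [Nat.ble_eq]; exact h
    rw [h1]
    simp only [sgn, if_true]
    rw [Nat.sub_eq_zero_of_le h, add_zero, Nat.cast_sub h]
    push_cast
    ring

end Fine
end Pool.Agent.MP_abb58c_co
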