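import Pool.Agent.Lib.MP_abb58c_co.FineSem2
import Pool.Agent.Lib.MP_abb58c_co.FinePack

/-! MP_abb58c_co, FINE: soundness of `ownK`, `exclK` -/

namespace Pool.Agent.MP_abb58c_co
namespace Fine

open Real

theorem zv_x (w : Wd) {i : ℕ} (hi : i ≤ 10) :
    zv w (3 * i) = (MM : ℝ) * w.U (tiltS (lab i)) (lab i) := by
  unfold zv
  rw [if_neg (by omega), if_pos (by omega), show 3 * i / 3 = i by omega]

theorem zv_y (w : Wd) {i : ℕ} (hi : i ≤ 10) :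
    zv w (3 * i + 1) = (MM : ℝ) * w.V (tiltS (lab i)) (lab i) + vb (tiltS (lab i)) := by
  unfold zv
  rw [if_neg (by omega), if_neg (by omega), if_pos (by omega),
    show (3 * i + 1) / 3 = i by omega]

theorem zv_t (w : Wd) {i : ℕ} (hi : i ≤ 10) :
    zv w (3 * i + 2) = (MM : ℝ) * (w.t (lab i) - base (tiltS (lab i))) + MM := by
  unfold zv
  rw [if_neg (by omega), if_neg (by omega), if_neg (by omega),
    show (3 * i + 2) / 3 = i by omega]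

theorem zv_33 (w : Wd) : zv w 33 = 1073741824 := by
  unfold zv
  rw [if_pos rfl]

/-- `953 M (p x + q y)` in local coordinates -/
theorem lin_b (w : Wd) {i : ℕ} (hi : i ≤ 10) (p q : ℝ) :
    953 * 100000000 * (p * w.x (lab i) + q * w.y (lab i)) =
      ((baseC (tiltS (lab i)) : ℝ) * p + (baseS (tiltS (lab i)) : ℝ) * q) * zv w (3 * i) +
      ((baseC (tiltS (lab i)) : ℝ) * q - (baseS (tiltS (lab i)) : ℝ) * p) *
        (zv w (3 * i + 1) - (vb (tiltS (lab i)) : ℝ)) := by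
  rw [zv_x w hi, zv_y w hi]
  cases tiltS (lab i)
  · simp only [Wd.U, Wd.V, vb, baseC, baseS, Bool.false_eq_true, if_false]
    push_cast
    ring
  · simp only [Wd.U, Wd.V, vb, baseC, baseS, if_true]
    push_cast
    ring

theorem mid_ok {l h t : ℕ} {z : ℝ} (h1 : (l : ℝ) ≤ z) (h2 : z ≤ h)
    (ht : t = Nat.shiftRight (Nat.add l h) 1) : |z - t| ≤ ((Nat.sub h t : ℕ) : ℝ) := by
  have e : t = (l + h) / 2 := by
    rw [ht]
    change (l + h) >>> 1 = _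
    rw [Nat.shiftRight_eq_div_pow]
  have h3 : l ≤ h := by
    have : (l : ℝ) ≤ h := h1.trans h2
    exact_mod_cast this
  have h4 : t ≤ h := by omega
  have h5 : 2 * t ≤ l + h := by omega
  have h5' : 2 * (t : ℝ) ≤ l + h := by exact_mod_cast h5
  simp only [nsub]
  rw [Nat.cast_sub h4, abs_le]
  constructor <;> linarith

theorem specOwn (hTyp : SpecTyp) (hGet : SpecGetL) (hCoef : SpecCoef) (hBnd : SpecBnd)
    (hDir : SpecDirK) (hRel : SpecRelK) (hG : SpecGK) (hRot : SpecRotK) (hV : SpecVK) :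
    SpecOwn := by
  intro w hw LO HI hbox i j o kap e1 e2 k h
  unfold ownK at h
  obtain ⟨c1, h⟩ := cond_true h
  obtain ⟨c2, h⟩ := cond_true h
  obtain ⟨c3, h⟩ := cond_true h
  obtain ⟨c4, h⟩ := cond_true h
  have hij := blt_lt c1
  have hj := ble_le c2
  have he1 := ble_le c3
  have he2 := ble_le c4
  have hi : i ≤ 10 := by omega
  have h := hTyp _ _ hi h
  have h := hTyp _ _ hj h
  obtain ⟨lxi, hxi, lyi, hyi, lti, hti, ⟨x1, x2⟩, ⟨x3, x4⟩, ⟨x5, x6⟩, h⟩ := hGet _ _ _ hbox _ _ hi h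
  obtain ⟨lxj, hxj, lyj, hyj, ltj, htj, ⟨y1, y2⟩, ⟨y3, y4⟩, ⟨y5, y6⟩, h⟩ := hGet _ _ _ hbox _ _ hj h
  obtain ⟨ti, hti'⟩ : ∃ t, t = Nat.shiftRight (Nat.add lti hti) 1 := ⟨_, rfl⟩
  obtain ⟨tj, htj'⟩ : ∃ t, t = Nat.shiftRight (Nat.add ltj htj) 1 := ⟨_, rfl⟩
  rw [← hti', ← htj'] at h
  have m1 := mid_ok x5 x6 hti'
  have m2 := mid_ok y5 y6 htj'
  obtain ⟨Ci, Si, di, h⟩ := hDir _ _ _ h
  obtain ⟨Cj, Sj, dj, h⟩ := hDir _ _ _ h
  obtain ⟨c0, s0, r1, r2, h⟩ := hRel _ _ _ _ _ _ _ di dj h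
  obtain ⟨g0, gp, gn, g1, g2, h⟩ := hG _ _ _ _ _ h
  have tail : ∀ (C S A Ap ta tb gsp gsn a b : ℕ) (σ : ℝ),
      ((o = 0 ∧ a = i ∧ b = j) ∨ (o = 1 ∧ a = j ∧ b = i)) →
      DirM (base (tiltS (lab a)) + ((ta : ℝ) - 100000000) / 100000000) (C : ℝ)
        ((S : ℝ) - 100000000) →
      |zv w (3 * a + 2) - ta| ≤ (A : ℝ) → |zv w (3 * b + 2) - tb| ≤ (Ap : ℝ) →
      (σ = 1 ∨ σ = -1) →
      σ * ((base (tiltS (lab b)) + ((tb : ℝ) - 100000000) / 100000000) -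
        (base (tiltS (lab a)) + ((ta : ℝ) - 100000000) / 100000000)) =
        (base (tiltS (lab j)) + ((tj : ℝ) - 100000000) / 100000000) -
        (base (tiltS (lab i)) + ((ti : ℝ) - 100000000) / 100000000) →
      σ * ((gp : ℝ) - gn) = (gsp : ℝ) - gsn →
      (rotK kap C S fun Pp Pn Qp Qn =>
        coefK (baseC (tiltS (lab i))) (baseS (tiltS (lab i))) Pp Pn Qp Qn fun xpi xni ypi yni =>
          coefK (baseC (tiltS (lab j))) (baseS (tiltS (lab j))) Pp Pn Qp Qn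
            fun xpj xnj ypj ynj =>
            bndK (vb (tiltS (lab i))) (vb (tiltS (lab j))) xpi xni ypi yni xpj xnj ypj ynj lxi hxi
              lyi hyi lxj hxj lyj hyj fun kNp kNn NLp NLn NHp NHn =>
              bndK (vb (tiltS (lab i))) (vb (tiltS (lab j))) yni ypi xpi xni ynj ypj xpj xnj lxi
                hxi lyi hyi lxj hxj lyj hyj fun kMp kMn MLp MLn MHp MHn =>
                vK MLp MLn MHp MHn fun vs w2 vm =>
                  k A Ap ta tb g0 gsp gsn xpi xni ypi yni xpj xnj ypj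
                    ynj kNp kNn NLp NLn NHp NHn kMp kMn vs w2 vm) = true →
      i < j ∧ j ≤ 10 ∧ e1 ≤ 64 ∧ e2 ≤ 128 ∧ kap < 4 ∧
      ∃ (A Ap ta tb g0 gsp gsn xpi xni ypi yni xpj xnj ypj ynj kNp kNn NLp NLn NHp NHn kMp kMn
        vs w2 vm vl vh a b : ℕ) (bo bp : Bool) (σ P Q r0 c0 s0 NF MF : ℝ),
      ((o = 0 ∧ a = i ∧ b = j) ∨ (o = 1 ∧ a = j ∧ b = i)) ∧
      Own w (lab i) (lab j) (lab a) (lab b) bo bp kap ta tb σ P Q r0 c0 s0
        (zv w (3 * a + 2)) (zv w (3 * b + 2)) A Ap NF MF ∧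
      (g0 : ℝ) = e1 * c0 + ((e2 : ℝ) - 64) * s0 ∧
      σ * (((e2 : ℝ) - 64) * c0 - e1 * s0) = (gsp : ℝ) - gsn ∧
      NF = ((xpj : ℝ) - xnj) * zv w (3 * j) + ((ypj : ℝ) - ynj) * zv w (3 * j + 1) -
        ((xpi : ℝ) - xni) * zv w (3 * i) - ((ypi : ℝ) - yni) * zv w (3 * i + 1) +
        ((kNp : ℝ) - kNn) ∧
      MF = ((ynj : ℝ) - ypj) * zv w (3 * j) + ((xpj : ℝ) - xnj) * zv w (3 * j + 1) -
        ((yni : ℝ) - ypi) * zv w (3 * i) - ((xpi : ℝ) - xni) * zv w (3 * i + 1) +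
        ((kMp : ℝ) - kMn) ∧
      (NLp : ℝ) - NLn ≤ NF ∧ NF ≤ (NHp : ℝ) - NHn ∧
      ((vl : ℝ) - 1099511627776) * 1073741824 ≤ MF ∧
      MF ≤ ((vh : ℝ) - 1099511627776) * 1073741824 ∧ vs = vl + vh ∧ (w2 : ℝ) = vh - vl ∧
      vh ≤ vm + 1099511627776 ∧ 1099511627776 ≤ vm + vl ∧
      k A Ap ta tb g0 gsp gsn xpi xni ypi yni xpj xnj ypj ynj kNp kNn NLp NLn NHp NHn kMp kMn
        vs w2 vm = true := by
    intro C S A Ap ta tb gsp gsn a b σ hab hdir hA hAp hσ hr0 hgs h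
    obtain ⟨Pp, Pn, Qp, Qn, hkap, hdir', h⟩ := hRot _ _ _ _ _ hdir h
    obtain ⟨xpi, xni, ypi, yni, p1, p2, h⟩ := hCoef _ _ _ _ _ _ h
    obtain ⟨xpj, xnj, ypj, ynj, p3, p4, h⟩ := hCoef _ _ _ _ _ _ h
    obtain ⟨P, hP⟩ : ∃ P : ℝ, P = (Pp : ℝ) - Pn := ⟨_, rfl⟩
    obtain ⟨Q, hQ⟩ : ∃ Q : ℝ, Q = (Qp : ℝ) - Qn := ⟨_, rfl⟩
    rw [← hP, ← hQ] at hdir' p1 p2 p3 p4
    obtain ⟨NF, hNF⟩ : ∃ NF : ℝ, NF = 953 * 100000000 *
      (P * (w.x (lab j) - w.x (lab i)) + Q * (w.y (lab j) - w.y (lab i))) := ⟨_, rfl⟩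
    obtain ⟨MF, hMF⟩ : ∃ MF : ℝ, MF = 953 * 100000000 *
      (-Q * (w.x (lab j) - w.x (lab i)) + P * (w.y (lab j) - w.y (lab i))) := ⟨_, rfl⟩
    have l1 := lin_b w hi P Q
    have l2 := lin_b w hj P Q
    have l3 := lin_b w hi (-Q) P
    have l4 := lin_b w hj (-Q) P
    have eN : NF = ((xpj : ℝ) - xnj) * zv w (3 * j) +
        ((ypj : ℝ) - ynj) * (zv w (3 * j + 1) - (vb (tiltS (lab j)) : ℝ)) -
        ((xpi : ℝ) - xni) * zv w (3 * i) -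
        ((ypi : ℝ) - yni) * (zv w (3 * i + 1) - (vb (tiltS (lab i)) : ℝ)) := by
      rw [p1, p2, p3, p4, hNF]
      linarith
    have eM : MF = ((ynj : ℝ) - ypj) * zv w (3 * j) +
        ((xpj : ℝ) - xnj) * (zv w (3 * j + 1) - (vb (tiltS (lab j)) : ℝ)) -
        ((yni : ℝ) - ypi) * zv w (3 * i) -
        ((xpi : ℝ) - xni) * (zv w (3 * i + 1) - (vb (tiltS (lab i)) : ℝ)) := by
      have p2' : (yni : ℝ) - ypi = -((baseC (tiltS (lab i)) : ℝ) * Q -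
        (baseS (tiltS (lab i)) : ℝ) * P) := by rw [← p2]; ring
      have p4' : (ynj : ℝ) - ypj = -((baseC (tiltS (lab j)) : ℝ) * Q -
        (baseS (tiltS (lab j)) : ℝ) * P) := by rw [← p4]; ring
      rw [p1, p2', p3, p4', hMF]
      linarith
    obtain ⟨kNp, kNn, NLp, NLn, NHp, NHn, k1, k2, k3, h⟩ :=
      hBnd _ _ _ _ _ _ _ _ _ _ _ _ _ _ _ _ _ _ _ _ _ _ NF _ x1 x2 x3 x4 y1 y2 y3 y4 eN h
    obtain ⟨kMp, kMn, MLp, MLn, MHp, MHn, k4, k5, k6, h⟩ :=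
      hBnd _ _ _ _ _ _ _ _ _ _ _ _ _ _ _ _ _ _ _ _ _ _ MF _ x1 x2 x3 x4 y1 y2 y3 y4 eM h
    obtain ⟨vl, vh, vs, w2, vm, v1, v2, v3, v4, v5, v6, h⟩ := hV _ _ _ _ MF _ k5 k6 h
    refine ⟨hij, hj, he1, he2, hkap, A, Ap, ta, tb, g0, gsp, gsn, xpi, xni, ypi, yni, xpj, xnj,
      ypj, ynj, kNp, kNn, NLp, NLn, NHp, NHn, kMp, kMn, vs, w2, vm, vl, vh, a, b,
      tiltS (lab a), tiltS (lab b), σ, P, Q, _, (c0 : ℝ) - 400000000, (s0 : ℝ) - 400000000,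
      NF, MF, hab, ⟨hσ, hdir', ⟨r1, r2⟩, hr0, ?_, ?_, hA, hAp, hNF, hMF⟩, g1, ?_, ?_, ?_, k2, k3,
      v1, v2, v3, v4, v5, v6, h⟩
    · rcases hab with ⟨-, rfl, rfl⟩ | ⟨-, rfl, rfl⟩
      · rw [zv_t w hi]; norm_num
      · rw [zv_t w hj]; norm_num
    · rcases hab with ⟨-, rfl, rfl⟩ | ⟨-, rfl, rfl⟩
      · rw [zv_t w hj]; norm_num
      · rw [zv_t w hi]; norm_num
    · rw [← g2]; exact hgs
    · rw [k1, eN]; ring
    · rw [k4, eM]; ring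
  have h' : cond (Nat.beq o 0) _ (cond (Nat.beq o 1) _ false) = true := h
  cases h0 : Nat.beq o 0
  · rw [h0] at h'
    obtain ⟨h1, h2⟩ := cond_true h'
    have ho : o = 1 := Nat.eq_of_beq_eq_true h1
    exact tail Cj Sj (Nat.sub htj tj) (Nat.sub hti ti) tj ti gn gp j i (-1)
      (Or.inr ⟨ho, rfl, rfl⟩) dj m2 m1 (Or.inr rfl) (by ring) (by ring) h2
  · rw [h0] at h'
    have ho : o = 0 := Nat.eq_of_beq_eq_true h0
    exact tail Ci Si (Nat.sub hti ti) (Nat.sub htj tj) ti tj gp gn i j 1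
      (Or.inl ⟨ho, rfl, rfl⟩) di m1 m2 (Or.inl rfl) (by ring) (by ring) h'

theorem sub_cast_ge (a b : ℕ) : (a : ℝ) - b ≤ ((Nat.sub a b : ℕ) : ℝ) := by
  simp only [nsub]
  rcases Nat.le_total b a with h | h
  · rw [Nat.cast_sub h]
  · rw [Nat.sub_eq_zero_of_le h]
    have : (a : ℝ) ≤ b := by exact_mod_cast h
    push_cast
    linarith

theorem specExcl (ho : SpecOwn) : SpecExcl := by
  intro w hw LO HI hb i j o kap e1 e2 h
  unfold exclK at h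
  obtain ⟨hij, hj, he1, he2, hkap, A, Ap, ta, tb, g0, gsp, gsn, xpi, xni, ypi, yni, xpj, xnj,
    ypj, ynj, kNp, kNn, NLp, NLn, NHp, NHn, kMp, kMn, vs, w2, vm, vl, vh, a, b, bo, bp, σ, P, Q,
    r0, c0, s0, NF, MF, hab, own, hg0, hg1, -, -, -, hNH, hv1, hv2, hv3, hv4, hv5, hv6, h⟩ :=
    ho w hw LO HI hb _ _ _ _ _ _ _ h
  obtain ⟨hA, h⟩ := cond_true h
  have hA' := ble_le hA
  have h' : Nat.blt _ _ = true := h
  have hc := blt_lt h'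
  obtain ⟨-, hVm, -⟩ := v_bounds hv1 hv2 hv3 hv4 hv5 hv6
  have hgg : |((e2 : ℝ) - 64) * c0 - e1 * s0| ≤ (gsp : ℝ) + gsn := by
    have h2 : (0 : ℝ) ≤ gsp := Nat.cast_nonneg _
    have h3 : (0 : ℝ) ≤ gsn := Nat.cast_nonneg _
    rcases own.hsig with hs | hs
    · rw [hs, one_mul] at hg1
      rw [hg1, abs_le]
      constructor <;> linarith
    · rw [hs] at hg1
      have h4 : ((e2 : ℝ) - 64) * c0 - e1 * s0 = gsn - gsp := by linarith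
      rw [h4, abs_le]
      constructor <;> linarith
  have key := excl_int hw own hA' (hNH.trans (sub_cast_ge NHp NHn)) hVm he1 he2 hg0 hgg hc
  intro hAlt
  apply key
  rcases hab with ⟨h0, rfl, rfl⟩ | ⟨h0, rfl, rfl⟩
  · rcases hAlt with ⟨-, hAlt⟩ | ⟨h1, -⟩
    · exact hAlt
    · omega
  · rcases hAlt with ⟨h1, -⟩ | ⟨-, hAlt⟩
    · omega
    · exact hAlt

end Fine
end Pool.Agent.MP_abb58c_co
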