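import Pool.Agent.Lib.MP_abb58c_co.FineV4

/-! MP_abb58c_co, FINE: walls, exclusion and row1 of format v4, in exact integers -/

namespace Pool.Agent.MP_abb58c_co
namespace Fine

open Real

/-- lower bound for the half width -/
theorem wall_int_aux {w : Wd} {i : Fin 11} {b0 : Bool} {t A e1 e2 hp hn h0 : ℕ} {C S zi : ℝ}
    (hdir : DirM (base b0 + ((t : ℝ) - 100000000) / 100000000) C S)
    (hzi : zi = 100000000 * (w.t i - base b0) + 100000000) (hA : |zi - t| ≤ A)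
    (he1 : e1 ≤ 64) (he2 : e2 ≤ 128)
    (hh0 : (h0 : ℝ) = e1 * C + ((e2 : ℝ) - 64) * S)
    (hh1 : (hp : ℝ) - hn = ((e2 : ℝ) - 64) * C - e1 * S) :
    60992 * 10000000000000000 * (h0 : ℝ) + 6099200000000 * ((hp : ℝ) - hn) * (zi - t) -
      (30496 * (h0 : ℝ) * (A * A) + ((30496 * (hp + hn) * (A * A * A) / 300000000 : ℕ) : ℝ) +
        1561395200000000000000001) ≤ 7806976000000000000000000000000 * hh (w.t i) := by
  obtain ⟨d1, d2⟩ := hdir
  obtain ⟨th0, hth0⟩ : ∃ th0, th0 = base b0 + ((t : ℝ) - 100000000) / 100000000 := ⟨_, rfl⟩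
  obtain ⟨a, ha⟩ : ∃ a, a = (zi - t) / 100000000 := ⟨_, rfl⟩
  rw [← hth0] at d1 d2
  have e : w.t i = th0 + a := by rw [hth0, ha, hzi]; linarith
  have hA' : |a| ≤ (A : ℝ) / 100000000 := by
    rw [ha, abs_div]
    norm_num
    linarith
  have h1 : |(e1 : ℝ) / 64| ≤ 1 := by
    have h2 : (e1 : ℝ) ≤ 64 := by exact_mod_cast he1
    rw [abs_of_nonneg (div_nonneg (Nat.cast_nonneg _) (by norm_num)), div_le_one (by norm_num)]
    exact h2
  have hw := wall (a := a) (th0 := th0) h1 (bias64 he2) hA' d1 d2 rfl rfl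
    (by
      have e5 : ((e1 : ℝ) / 64 * (C / 100000000) + ((e2 : ℝ) - 64) / 64 * (S / 100000000)) / 2 =
          (h0 : ℝ) / 12800000000 := by rw [hh0]; ring
      rw [e5]
      exact div_nonneg (Nat.cast_nonneg _) (by norm_num))
  have e5 : ((e1 : ℝ) / 64 * (C / 100000000) + ((e2 : ℝ) - 64) / 64 * (S / 100000000)) / 2 =
      (h0 : ℝ) / 12800000000 := by rw [hh0]; ring
  have e6 : (-((e1 : ℝ) / 64) * (S / 100000000) + ((e2 : ℝ) - 64) / 64 * (C / 100000000)) / 2 =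
      ((hp : ℝ) - hn) / 12800000000 := by rw [hh1]; ring
  rw [e5, e6, ← e] at hw
  have hE := le_div_add_one (30496 * (hp + hn) * (A * A * A)) 300000000 (by norm_num)
  obtain ⟨E, hEd⟩ : ∃ E : ℝ, E = ((30496 * (hp + hn) * (A * A * A) / 300000000 : ℕ) : ℝ) :=
    ⟨_, rfl⟩
  rw [← hEd] at hE ⊢
  push_cast at hE
  have hab : |((hp : ℝ) - hn) / 12800000000| ≤ ((hp : ℝ) + hn) / 12800000000 := by
    rw [abs_le]
    have h2 : (0 : ℝ) ≤ hp := Nat.cast_nonneg _
    have h3 : (0 : ℝ) ≤ hn := Nat.cast_nonneg _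
    constructor <;> linarith
  have hA0 : (0 : ℝ) ≤ ((A : ℝ) / 100000000) ^ 3 :=
    pow_nonneg (div_nonneg (Nat.cast_nonneg _) (by norm_num)) 3
  have hab2 := mul_le_mul_of_nonneg_right hab hA0
  have ena : zi - t = 100000000 * a := by rw [ha]; ring
  rw [ena]
  clear hh0 hh1 d1 d2 e hA' h1 e5 e6 hA
  linarith

/-- left wall -/
theorem wall_left {w : Wd} (hw : World w) {i : Fin 11} {K : ℝ}
    (h : K ≤ 7806976000000000000000000000000 * hh (w.t i)) :
    0 ≤ 81920000000000000000 * (953 * 100000000 * w.x i) - K -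
      64017203200000000000000000 := by
  have h1 := hw.left i
  unfold wlo at h1
  norm_num at h1 ⊢
  linarith

/-- right wall -/
theorem wall_right {w : Wd} (hw : World w) {i : Fin 11} {K : ℝ}
    (h : K ≤ 7806976000000000000000000000000 * hh (w.t i)) :
    0 ≤ 30268362632396800000000000000000 - 81920000000000000000 * (953 * 100000000 * w.x i) -
      K := by
  have h1 := hw.right i
  unfold whi wlo at h1
  norm_num at h1 ⊢
  linarith

/-- bottom wall -/
theorem wall_bot {w : Wd} (hw : World w) {i : Fin 11} {K : ℝ}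
    (h : K ≤ 7806976000000000000000000000000 * hh (w.t i)) :
    0 ≤ 81920000000000000000 * (953 * 100000000 * w.y i) - K -
      64017203200000000000000000 := by
  have h1 := hw.bot i
  unfold wlo at h1
  norm_num at h1 ⊢
  linarith

/-- top wall -/
theorem wall_top {w : Wd} (hw : World w) {i : Fin 11} {K : ℝ}
    (h : K ≤ 7806976000000000000000000000000 * hh (w.t i)) :
    0 ≤ 30268362632396800000000000000000 - 81920000000000000000 * (953 * 100000000 * w.y i) -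
      K := by
  have h1 := hw.top i
  unfold whi wlo at h1
  norm_num at h1 ⊢
  linarith

/-- lower bound for the half width without the cubic term -/
theorem hh_low {th0 a e1 e2 p q ε A H0 H1 : ℝ} (he1 : |e1| ≤ 1) (he2 : |e2| ≤ 1)
    (ha : |a| ≤ A) (hp : |cos th0 - p| ≤ ε) (hq : |sin th0 - q| ≤ ε)
    (hH0 : H0 = (e1 * p + e2 * q) / 2) (hH1 : H1 = (-e1 * q + e2 * p) / 2) (h0 : 0 ≤ H0) :
    H0 * (1 - A ^ 2 / 2) - |H1| * A - 2 * ε ≤ hh (th0 + a) := by
  refine le_trans ?_ (le_hh he1 he2 (th0 + a))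
  rw [cos_add, sin_add]
  have hr1 : |cos a * (e1 * (cos th0 - p) + e2 * (sin th0 - q))| ≤ 2 * ε := by
    rw [abs_mul]
    calc |cos a| * |e1 * (cos th0 - p) + e2 * (sin th0 - q)| ≤ 1 * (2 * ε) :=
          mul_le_mul (abs_cos_le_one a) (comb_le he1 he2 hp hq) (abs_nonneg _) zero_le_one
      _ = 2 * ε := one_mul _
  have hr2 : |sin a * (-e1 * (sin th0 - q) + e2 * (cos th0 - p))| ≤ 2 * ε := by
    rw [abs_mul]
    calc |sin a| * |-e1 * (sin th0 - q) + e2 * (cos th0 - p)| ≤ 1 * (2 * ε) :=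
          mul_le_mul (abs_sin_le_one a) (comb_le (by rwa [abs_neg]) he2 hq hp) (abs_nonneg _)
            zero_le_one
      _ = 2 * ε := one_mul _
  obtain ⟨hr1, -⟩ := abs_le.1 hr1
  obtain ⟨hr2, -⟩ := abs_le.1 hr2
  have e : (e1 * (cos th0 * cos a - sin th0 * sin a) +
      e2 * (sin th0 * cos a + cos th0 * sin a)) / 2 = cos a * H0 + sin a * H1 +
      cos a * (e1 * (cos th0 - p) + e2 * (sin th0 - q)) / 2 +
      sin a * (-e1 * (sin th0 - q) + e2 * (cos th0 - p)) / 2 := by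
    rw [hH0, hH1]; ring
  rw [e]
  have h1 : H0 * (1 - A ^ 2 / 2) ≤ cos a * H0 := by
    have h2 := cos_lower a
    have h3 : a ^ 2 ≤ A ^ 2 := by
      have := pow_le_pow_left₀ (abs_nonneg a) ha 2
      rwa [sq_abs] at this
    have h4 := mul_nonneg h0 (sub_nonneg.2 h2)
    have h5 := mul_nonneg h0 (sub_nonneg.2 h3)
    linarith
  have h2 : |sin a * H1| ≤ A * |H1| := by
    rw [abs_mul]
    exact mul_le_mul_of_nonneg_right ((abs_sin_le_abs).trans ha) (abs_nonneg _)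
  have h3 := (abs_le.1 h2).1
  linarith

/-- exclusion of an alternative, real form -/
theorem Alt.excl4 {th0 a r0 b dx dy n m η A B Nhi Vm e1 e2 c0 s0 ε G0 G1 : ℝ}
    (h : Alt (th0 + a) (r0 + b) dx dy)
    (ha : |a| ≤ A) (hA1 : A ≤ 1) (hb : |b| ≤ B)
    (hn : |cos th0 * dx + sin th0 * dy - n| ≤ η) (hm : |-sin th0 * dx + cos th0 * dy - m| ≤ η)
    (hN : n ≤ Nhi) (hN0 : 0 ≤ Nhi) (hV : |m| ≤ Vm)
    (he1 : |e1| ≤ 1) (he2 : |e2| ≤ 1) (hc : |cos r0 - c0| ≤ ε) (hs : |sin r0 - s0| ≤ ε)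
    (hG0 : G0 = (e1 * c0 + e2 * s0) / 2) (hG1 : G1 = (-e1 * s0 + e2 * c0) / 2) (h0 : 0 ≤ G0) :
    1 / 2 + G0 * (1 - B ^ 2 / 2) - |G1| * B - 2 * ε ≤ Nhi + A * Vm + 2 * η := by
  have hl := hh_low he1 he2 hb hc hs hG0 hG1 h0
  unfold Alt at h
  have hA0 : 0 ≤ A := (abs_nonneg a).trans ha
  have hcomp := comp_le (a := a) hn hm
  have hca : 0 ≤ cos a := by
    have h1 := cos_lower a
    have h2 : a ^ 2 ≤ 1 := by
      rw [← sq_abs]
      exact pow_le_one₀ (abs_nonneg a) (ha.trans hA1)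
    linarith
  have h2 : sin a * m ≤ A * Vm := by
    calc sin a * m ≤ |sin a * m| := le_abs_self _
      _ = |sin a| * |m| := abs_mul _ _
      _ ≤ A * Vm := mul_le_mul ((abs_sin_le_abs).trans ha) hV (abs_nonneg _) hA0
  have h3 : cos a * n ≤ Nhi := by
    rcases le_total 0 n with h0 | h0
    · calc cos a * n ≤ 1 * n := mul_le_mul_of_nonneg_right (cos_le_one a) h0
        _ ≤ Nhi := by linarith
    · have h1 := mul_nonpos_of_nonneg_of_nonpos hca h0
      linarith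
  linarith

/-- what `row1` and `excl` need about the pair; `o` is the owner of the frame, `p` the other
square, `σ = 1` for `o = i` and `σ = -1` for `o = j` -/
structure Own (w : Wd) (i j o p : Fin 11) (bo bp : Bool) (kap tw tq : ℕ) (σ P Q r0 c0 s0 : ℝ)
    (zo zp : ℝ) (A Ap : ℕ) (NF MF : ℝ) : Prop where
  hsig : σ = 1 ∨ σ = -1
  hdir : DirM (base bo + ((tw : ℝ) - 100000000) / 100000000 + kap * (π / 2)) P Q
  hrel : |cos r0 - c0 / 100000000| ≤ 0.00000034 ∧ |sin r0 - s0 / 100000000| ≤ 0.00000034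
  hr0 : σ * ((base bp + ((tq : ℝ) - 100000000) / 100000000) -
    (base bo + ((tw : ℝ) - 100000000) / 100000000)) = r0
  hzo : zo = 100000000 * (w.t o - base bo) + 100000000
  hzp : zp = 100000000 * (w.t p - base bp) + 100000000
  hA : |zo - tw| ≤ A
  hAp : |zp - tq| ≤ Ap
  hnf : NF = 953 * 100000000 * (P * (w.x j - w.x i) + Q * (w.y j - w.y i))
  hmf : MF = 953 * 100000000 * (-Q * (w.x j - w.x i) + P * (w.y j - w.y i))

/-- the alternative in the variables of the row lemmas -/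
theorem Own.alt {w : Wd} {i j o p : Fin 11} {bo bp : Bool} {kap tw tq : ℕ}
    {σ P Q r0 c0 s0 zo zp : ℝ} {A Ap : ℕ} {NF MF : ℝ}
    (h : Own w i j o p bo bp kap tw tq σ P Q r0 c0 s0 zo zp A Ap NF MF)
    (hsep : Alt (w.t o + kap * (π / 2)) (w.t p - w.t o) (w.x j - w.x i) (w.y j - w.y i)) :
    Alt ((base bo + ((tw : ℝ) - 100000000) / 100000000 + kap * (π / 2)) +
      (zo - tw) / 100000000) (r0 + σ * ((zp - tq) / 100000000 - (zo - tw) / 100000000))
      (w.x j - w.x i) (w.y j - w.y i) := by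
  have e1 : w.t o + kap * (π / 2) = (base bo + ((tw : ℝ) - 100000000) / 100000000 +
      kap * (π / 2)) + (zo - tw) / 100000000 := by
    rw [h.hzo]; ring
  have e2 : w.t p - w.t o = (base bp + ((tq : ℝ) - 100000000) / 100000000) -
      (base bo + ((tw : ℝ) - 100000000) / 100000000) +
      ((zp - tq) / 100000000 - (zo - tw) / 100000000) := by
    rw [h.hzo, h.hzp]; ring
  rw [e1, e2] at hsep
  rw [← h.hr0]
  rcases h.hsig with hs | hs
  · rw [hs, one_mul, one_mul]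
    exact hsep
  · rw [hs]
    refine Alt.neg ?_
    have e3 : -(-1 * ((base bp + ((tq : ℝ) - 100000000) / 100000000) -
        (base bo + ((tw : ℝ) - 100000000) / 100000000)) +
        -1 * ((zp - tq) / 100000000 - (zo - tw) / 100000000)) =
        (base bp + ((tq : ℝ) - 100000000) / 100000000) -
        (base bo + ((tw : ℝ) - 100000000) / 100000000) +
        ((zp - tq) / 100000000 - (zo - tw) / 100000000) := by ring
    rw [e3]
    exact hsep

theorem Own.nm {w : Wd} (hw : World w) {i j o p : Fin 11} {bo bp : Bool} {kap tw tq : ℕ}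
    {σ P Q r0 c0 s0 zo zp : ℝ} {A Ap : ℕ} {NF MF : ℝ}
    (h : Own w i j o p bo bp kap tw tq σ P Q r0 c0 s0 zo zp A Ap NF MF) :
    |cos (base bo + ((tw : ℝ) - 100000000) / 100000000 + kap * (π / 2)) * (w.x j - w.x i) +
      sin (base bo + ((tw : ℝ) - 100000000) / 100000000 + kap * (π / 2)) * (w.y j - w.y i) -
      NF / 9530000000000000000| ≤ 0.00000047 ∧
    |-sin (base bo + ((tw : ℝ) - 100000000) / 100000000 + kap * (π / 2)) * (w.x j - w.x i) +
      cos (base bo + ((tw : ℝ) - 100000000) / 100000000 + kap * (π / 2)) * (w.y j - w.y i) -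
      MF / 9530000000000000000| ≤ 0.00000047 := by
  obtain ⟨bx, by'⟩ := hw.dbound i j
  obtain ⟨q1, q2⟩ := dir_nm h.hdir bx by'
  have en : (P * (w.x j - w.x i) + Q * (w.y j - w.y i)) / 100000000 =
      NF / 9530000000000000000 := by
    rw [h.hnf]; ring
  have em : (-Q * (w.x j - w.x i) + P * (w.y j - w.y i)) / 100000000 =
      MF / 9530000000000000000 := by
    rw [h.hmf]; ring
  rw [en] at q1
  rw [em] at q2
  exact ⟨q1, q2⟩

theorem Own.dev {w : Wd} {i j o p : Fin 11} {bo bp : Bool} {kap tw tq : ℕ}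
    {σ P Q r0 c0 s0 zo zp : ℝ} {A Ap : ℕ} {NF MF : ℝ}
    (h : Own w i j o p bo bp kap tw tq σ P Q r0 c0 s0 zo zp A Ap NF MF) :
    |(zo - tw) / 100000000| ≤ (A : ℝ) / 100000000 ∧
    |(zp - tq) / 100000000| ≤ (Ap : ℝ) / 100000000 := by
  have h1 := h.hA
  have h2 := h.hAp
  rw [abs_div, abs_div]
  norm_num
  constructor <;> linarith

/-- EXCLUSION with the roundings of `exclK` -/
theorem excl_int {w : Wd} (hw : World w) {i j o p : Fin 11} {bo bp : Bool} {kap tw tq : ℕ}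
    {σ P Q r0 c0 s0 zo zp : ℝ} {A Ap : ℕ} {NF MF : ℝ}
    (h : Own w i j o p bo bp kap tw tq σ P Q r0 c0 s0 zo zp A Ap NF MF) (hA1 : A ≤ 100000000)
    {NH vm e1 e2 g0 gp gn : ℕ} (hNH : NF ≤ (NH : ℝ))
    (hvm : |MF / 9530000000000000000| ≤ (vm : ℝ) * 1073741824 / 9530000000000000000)
    (he1 : e1 ≤ 64) (he2 : e2 ≤ 128)
    (hg0 : (g0 : ℝ) = e1 * c0 + ((e2 : ℝ) - 64) * s0)
    (hg1 : |((e2 : ℝ) - 64) * c0 - e1 * s0| ≤ (gp : ℝ) + gn)
    (hchk : NH * 128 / 95300000000 + A * vm * 137438953472 / 9530000000000000000 +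
      g0 * (A + Ap) * (A + Ap) / 20000000000000000 + (gp + gn) * (A + Ap) / 100000000 + 21000 <
      6400000000 + g0) :
    ¬ Alt (w.t o + kap * (π / 2)) (w.t p - w.t o) (w.x j - w.x i) (w.y j - w.y i) := by
  intro hsep
  have ha := h.alt hsep
  obtain ⟨q1, q2⟩ := h.nm hw
  obtain ⟨d1, d2⟩ := h.dev
  have h1 : |(e1 : ℝ) / 64| ≤ 1 := by
    have h2 : (e1 : ℝ) ≤ 64 := by exact_mod_cast he1
    rw [abs_of_nonneg (div_nonneg (Nat.cast_nonneg _) (by norm_num)), div_le_one (by norm_num)]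
    exact h2
  have hb : |σ * ((zp - tq) / 100000000 - (zo - tw) / 100000000)| ≤
      ((A : ℝ) + Ap) / 100000000 := by
    have h3 : |(zp - tq) / 100000000 - (zo - tw) / 100000000| ≤ ((A : ℝ) + Ap) / 100000000 := by
      refine (abs_sub _ _).trans ?_
      linarith
    rcases h.hsig with hs | hs
    · rw [hs, one_mul]; exact h3
    · rw [hs, neg_one_mul, abs_neg]; exact h3
  have hA1' : (A : ℝ) / 100000000 ≤ 1 := by
    rw [div_le_one (by norm_num)]
    exact_mod_cast hA1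
  have e5 : ((e1 : ℝ) / 64 * (c0 / 100000000) + ((e2 : ℝ) - 64) / 64 * (s0 / 100000000)) / 2 =
      (g0 : ℝ) / 12800000000 := by rw [hg0]; ring
  have e6 : (-((e1 : ℝ) / 64) * (s0 / 100000000) + ((e2 : ℝ) - 64) / 64 * (c0 / 100000000)) / 2 =
      (((e2 : ℝ) - 64) * c0 - e1 * s0) / 12800000000 := by ring
  have hG0 : 0 ≤ ((e1 : ℝ) / 64 * (c0 / 100000000) +
      ((e2 : ℝ) - 64) / 64 * (s0 / 100000000)) / 2 := by
    rw [e5]; exact div_nonneg (Nat.cast_nonneg _) (by norm_num)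
  have r := Alt.excl4 (Nhi := (NH : ℝ) / 9530000000000000000) ha d1 hA1' hb q1 q2
    (div_le_div_of_nonneg_right hNH (by norm_num)) (div_nonneg (Nat.cast_nonneg _) (by norm_num))
    hvm h1 (bias64 he2) h.hrel.1 h.hrel.2 rfl rfl hG0
  rw [e5, e6] at r
  have hab : |(((e2 : ℝ) - 64) * c0 - e1 * s0) / 12800000000| ≤
      ((gp : ℝ) + gn) / 12800000000 := by
    rw [abs_div]
    norm_num
    linarith
  have hB0 : (0 : ℝ) ≤ ((A : ℝ) + Ap) / 100000000 :=
    div_nonneg (add_nonneg (Nat.cast_nonneg _) (Nat.cast_nonneg _)) (by norm_num)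
  have hab2 := mul_le_mul_of_nonneg_right hab hB0
  have f1 := le_div_add_one (NH * 128) 95300000000 (by norm_num)
  have f2 := le_div_add_one (A * vm * 137438953472) 9530000000000000000 (by norm_num)
  have f3 := le_div_add_one (g0 * (A + Ap) * (A + Ap)) 20000000000000000 (by norm_num)
  have f4 := le_div_add_one ((gp + gn) * (A + Ap)) 100000000 (by norm_num)
  have hc : ((NH * 128 / 95300000000 : ℕ) : ℝ) +
      ((A * vm * 137438953472 / 9530000000000000000 : ℕ) : ℝ) +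
      ((g0 * (A + Ap) * (A + Ap) / 20000000000000000 : ℕ) : ℝ) +
      (((gp + gn) * (A + Ap) / 100000000 : ℕ) : ℝ) + 21000 < 6400000000 + g0 := by
    exact_mod_cast hchk
  push_cast at f1 f2 f3 f4
  norm_num at f1 f2 f3 f4 r hab2 hc
  linarith

set_option maxHeartbeats 1000000 in
/-- the row of a single alternative, with the roundings of `row1K` -/
theorem R1_int {w : Wd} (hw : World w) {i j o p : Fin 11} {bo bp : Bool} {kap tw tq : ℕ}
    {σ P Q r0 c0 s0 zo zp : ℝ} {A Ap : ℕ} {NF MF : ℝ}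
    (h : Own w i j o p bo bp kap tw tq σ P Q r0 c0 s0 zo zp A Ap NF MF) (hA1 : A ≤ 100000000)
    (hsep : Alt (w.t o + kap * (π / 2)) (w.t p - w.t o) (w.x j - w.x i) (w.y j - w.y i))
    {vl vh vs w2 vm : ℕ}
    (hvl : ((vl : ℝ) - 1099511627776) * 1073741824 ≤ MF)
    (hvh : MF ≤ ((vh : ℝ) - 1099511627776) * 1073741824) (hvs : vs = vl + vh)
    (hw2 : (w2 : ℝ) = vh - vl) (hvm1 : vh ≤ vm + 1099511627776)
    (hvm2 : 1099511627776 ≤ vm + vl)
    {e1 e2 g0 gp gn nu k0 w2p lam a0 : ℕ}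
    (he1 : e1 ≤ 64) (he2 : e2 ≤ 128) (hlam : lam ≤ 128)
    (hg0 : (g0 : ℝ) = e1 * c0 + ((e2 : ℝ) - 64) * s0)
    (hg1 : σ * (((e2 : ℝ) - 64) * c0 - e1 * s0) = (gp : ℝ) - gn)
    (hN : (nu : ℝ) / 1024 ≤ NF / 9530000000000000000 ∨
      nu + (A * vm * 1099511627776 / 953000000000000000000000000 + 2) ≤ 1024)
    (hnu : 0 < nu) (hk : 8 * g0 ≤ nu * 100000000) (hk0 : k0 = nu * 100000000 - 8 * g0)
    (hw2p : w2p = w2 + 953 * g0 * Ap / 68719476736 + 1) :
    0 ≤ 819200000000 * NF - 128 * ((lam : ℝ) - 64) * A * MF +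
      (4398046511104 * ((vs : ℝ) - 2199023255552) - 7624 * k0 * ((a0 : ℝ) - 1073741824) +
        6099200000000 * ((gp : ℝ) - gn) + 68719476736 * ((lam : ℝ) - 64) * w2p) * (zo - tw) +
      (953 * g0 * ((lam : ℝ) - 64) * A - 6099200000000 * ((gp : ℝ) - gn)) * (zp - tq) +
      (4398046511104 * A * w2p + 3812 * k0 * ((a0 : ℝ) - 1073741824) ^ 2 +
        30496 * g0 * (Ap * Ap) +
        ((A * A * A * (2 * vm + 1) * 2199023255552 / 30000000000000000 : ℕ) : ℝ) +
        ((953 * nu * (A * A * (A * A)) / 300000000 : ℕ) : ℝ) +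
        ((30496 * (gp + gn) * ((A + Ap) * (A + Ap) * (A + Ap)) / 300000000 : ℕ) : ℝ) +
        15613952000000000000000003 - 3903488000000000000000000000000 -
        609920000000000000000 * g0 +
        68719476736 * ((lam : ℝ) - 64) * A * ((vs : ℝ) - 2199023255552)) := by
  have ha := h.alt hsep
  obtain ⟨q1, q2⟩ := h.nm hw
  obtain ⟨d1, d2⟩ := h.dev
  obtain ⟨hV, hVm, hVW⟩ := v_bounds hvl hvh hvs hw2 hvm1 hvm2
  obtain ⟨th0, hth0⟩ : ∃ th0, th0 =
    base bo + ((tw : ℝ) - 100000000) / 100000000 + kap * (π / 2) := ⟨_, rfl⟩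
  obtain ⟨dx, hdx⟩ : ∃ dx, dx = w.x j - w.x i := ⟨_, rfl⟩
  obtain ⟨dy, hdy⟩ : ∃ dy, dy = w.y j - w.y i := ⟨_, rfl⟩
  rw [← hth0, ← hdx, ← hdy] at q1 q2 ha
  obtain ⟨n, hn⟩ : ∃ n, n = NF / 9530000000000000000 := ⟨_, rfl⟩
  obtain ⟨m, hm⟩ : ∃ m, m = MF / 9530000000000000000 := ⟨_, rfl⟩
  rw [← hn] at q1 hN
  rw [← hm] at q2 hV hVm
  obtain ⟨a, haa⟩ : ∃ a, a = (zo - tw) / 100000000 := ⟨_, rfl⟩
  obtain ⟨b, hb⟩ : ∃ b, b = (zp - tq) / 100000000 := ⟨_, rfl⟩
  rw [← haa] at ha d1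
  rw [← hb] at ha d2
  have h1 : |(e1 : ℝ) / 64| ≤ 1 := by
    have h2 : (e1 : ℝ) ≤ 64 := by exact_mod_cast he1
    rw [abs_of_nonneg (div_nonneg (Nat.cast_nonneg _) (by norm_num)), div_le_one (by norm_num)]
    exact h2
  have hA1' : (A : ℝ) / 100000000 ≤ 1 := by
    rw [div_le_one (by norm_num)]
    exact_mod_cast hA1
  have e5 : ((e1 : ℝ) / 64 * (c0 / 100000000) + ((e2 : ℝ) - 64) / 64 * (s0 / 100000000)) / 2 =
      (g0 : ℝ) / 12800000000 := by rw [hg0]; ring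
  obtain ⟨g1, hg1d⟩ : ∃ g1, g1 = ((e2 : ℝ) - 64) * c0 - e1 * s0 := ⟨_, rfl⟩
  rw [← hg1d] at hg1
  have e6 : (-((e1 : ℝ) / 64) * (s0 / 100000000) + ((e2 : ℝ) - 64) / 64 * (c0 / 100000000)) / 2 =
      g1 / 12800000000 := by rw [hg1d]; ring
  -- lower bound for `n`
  have hNn : (nu : ℝ) / 1024 ≤ n := by
    rcases hN with hN | hN
    · exact hN
    · have f := le_div_add_one (A * vm * 1099511627776) 953000000000000000000000000 (by norm_num)
      have h4 : (nu : ℝ) + (((A * vm * 1099511627776 / 953000000000000000000000000 : ℕ) : ℝ) + 2)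
          ≤ 1024 := by exact_mod_cast hN
      have h5 : (1 : ℝ) ≤ nu := by exact_mod_cast hnu
      push_cast at f
      have h6 := Alt.nlo ha d1 hA1' q1 q2 hVm (by
        norm_num at f ⊢
        linarith)
      norm_num at f h6 ⊢
      linarith
  have hkr : 8 * (g0 : ℝ) ≤ nu * 100000000 := by exact_mod_cast hk
  have hk0r : (k0 : ℝ) = nu * 100000000 - 8 * g0 := by
    rw [hk0, Nat.cast_sub hk]; push_cast; ring
  have fw := le_div_add_one (953 * g0 * Ap) 68719476736 (by norm_num)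
  have fw' := (div_bd (953 * g0 * Ap) 68719476736 (by norm_num)).1
  have hw2pr : (w2p : ℝ) = w2 + ((953 * g0 * Ap / 68719476736 : ℕ) : ℝ) + 1 := by
    rw [hw2p]; push_cast; rfl
  obtain ⟨fl, hfl⟩ : ∃ fl : ℝ, fl = ((953 * g0 * Ap / 68719476736 : ℕ) : ℝ) := ⟨_, rfl⟩
  rw [← hfl] at fw fw' hw2pr
  push_cast at fw fw'
  -- the enlarged radius of the lateral component
  have hVb : |m - ((vs : ℝ) - 2199023255552) * 536870912 / 9530000000000000000| ≤
      (w2p : ℝ) * 536870912 / 9530000000000000000 -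
        (g0 : ℝ) / 12800000000 * ((Ap : ℝ) / 100000000) := by
    refine hV.trans ?_
    rw [hw2pr]
    norm_num at fw ⊢
    linarith
  have hG0 : 0 ≤ (g0 : ℝ) / 12800000000 := div_nonneg (Nat.cast_nonneg _) (by norm_num)
  have r := row1 (g := 0) (a0 := ((a0 : ℝ) - 1073741824) / 100000000) (G0 := (g0 : ℝ) / 12800000000)
    (G1 := g1 / 12800000000)
    (W' := (w2p : ℝ) * 536870912 / 9530000000000000000)
    h.hsig (Alt.hyp ha h1 (bias64 he2) le_rfl) h1 (bias64 he2) d1 d2 q1 q2 h.hrel.1 h.hrel.2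
    hNn hVb e5.symm e6.symm hG0 (by linarith) (by ring) (bias64 hlam)
  -- errors
  have hE1 := le_div_add_one (A * A * A * (2 * vm + 1) * 2199023255552) 30000000000000000
    (by norm_num)
  have hE2 := le_div_add_one (953 * nu * (A * A * (A * A))) 300000000 (by norm_num)
  have hE3 := le_div_add_one (30496 * (gp + gn) * ((A + Ap) * (A + Ap) * (A + Ap))) 300000000
    (by norm_num)
  obtain ⟨E1, hE1d⟩ : ∃ E1 : ℝ, E1 =
    ((A * A * A * (2 * vm + 1) * 2199023255552 / 30000000000000000 : ℕ) : ℝ) := ⟨_, rfl⟩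
  obtain ⟨E2, hE2d⟩ : ∃ E2 : ℝ, E2 =
    ((953 * nu * (A * A * (A * A)) / 300000000 : ℕ) : ℝ) := ⟨_, rfl⟩
  obtain ⟨E3, hE3d⟩ : ∃ E3 : ℝ, E3 =
    ((30496 * (gp + gn) * ((A + Ap) * (A + Ap) * (A + Ap)) / 300000000 : ℕ) : ℝ) := ⟨_, rfl⟩
  rw [← hE1d] at hE1 ⊢
  rw [← hE2d] at hE2 ⊢
  rw [← hE3d] at hE3 ⊢
  push_cast at hE1 hE2 hE3
  have hA0 : (0 : ℝ) ≤ ((A : ℝ) / 100000000) ^ 3 / 6 :=
    div_nonneg (pow_nonneg (div_nonneg (Nat.cast_nonneg _) (by norm_num)) 3) (by norm_num)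
  have hVW2 : |((vs : ℝ) - 2199023255552) * 536870912 / 9530000000000000000| +
      ((w2p : ℝ) * 536870912 / 9530000000000000000 -
        (g0 : ℝ) / 12800000000 * ((Ap : ℝ) / 100000000)) ≤
      (2 * (vm : ℝ) + 1) * 536870912 / 9530000000000000000 := by
    rw [hw2pr]
    norm_num at fw' hVW ⊢
    linarith
  have hVW3 := mul_le_mul_of_nonneg_left hVW2 hA0
  have hg1' : |g1 / 12800000000| ≤ ((gp : ℝ) + gn) / 12800000000 := by
    have h2 : (0 : ℝ) ≤ gp := Nat.cast_nonneg _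
    have h3 : (0 : ℝ) ≤ gn := Nat.cast_nonneg _
    rcases h.hsig with hs | hs
    · rw [hs, one_mul] at hg1
      rw [hg1, abs_le]
      constructor <;> linarith
    · rw [hs] at hg1
      have h4 : g1 = gn - gp := by linarith
      rw [h4, abs_le]
      constructor <;> linarith
  have hB0 : (0 : ℝ) ≤ ((A : ℝ) / 100000000 + Ap / 100000000) ^ 3 / 6 :=
    div_nonneg (pow_nonneg (add_nonneg (div_nonneg (Nat.cast_nonneg _) (by norm_num))
      (div_nonneg (Nat.cast_nonneg _) (by norm_num))) 3) (by norm_num)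
  have hg2 := mul_le_mul_of_nonneg_right hg1' hB0
  have ena : zo - tw = 100000000 * a := by rw [haa]; ring
  have enb : zp - tq = 100000000 * b := by rw [hb]; ring
  have eNF : NF = 9530000000000000000 * n := by rw [hn]; ring
  have eMF : MF = 9530000000000000000 * m := by rw [hm]; ring
  have hg3 : σ * (g1 / 12800000000) * (b - a) = ((gp : ℝ) - gn) / 12800000000 * (b - a) := by
    rw [← hg1]; ring
  rw [ena, enb, eNF, eMF]
  rw [hg3] at r
  have r2 := mul_nonneg (show (0 : ℝ) ≤ 7806976000000000000000000000000 by norm_num) r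
  rw [hk0r]
  clear r ha q1 q2 d1 d2 hV hVm hVW hN hNn hkr fw fw' hVb hVW2 hg1' h1 hA1' e5 e6 hw2pr
    hvl hvh hg1 hg3 hsep ena enb eNF eMF hnu hk hA0 hB0 hG0
  linarith

end Fine
end Pool.Agent.MP_abb58c_co
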