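import Pool.Agent.Lib.MP_abb58c_co.FineSem
import Pool.Agent.Lib.MP_abb58c_co.FineV4b

/-! MP_abb58c_co, FINE: specs of `dirK`, `relK`, `gK`, `rotK`, `vK`, `ownK` -/

namespace Pool.Agent.MP_abb58c_co
namespace Fine

open Real

def SpecDirK : Prop := ∀ (b : Bool) (tau : ℕ) (k : ℕ → ℕ → Bool),
  dirK (baseC b) (baseS b) tau k = true → ∃ C S : ℕ,
    DirM (base b + ((tau : ℝ) - 100000000) / 100000000) (C : ℝ) ((S : ℝ) - 100000000) ∧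
    k C S = true

def SpecRelK : Prop := ∀ (th1 th2 : ℝ) (Ci Si Cj Sj : ℕ) (k : ℕ → ℕ → Bool),
  DirM th1 (Ci : ℝ) ((Si : ℝ) - 100000000) → DirM th2 (Cj : ℝ) ((Sj : ℝ) - 100000000) →
  relK Ci Si Cj Sj k = true → ∃ c0 s0 : ℕ,
    |cos (th2 - th1) - ((c0 : ℝ) - 400000000) / 100000000| ≤ 0.00000034 ∧
    |sin (th2 - th1) - ((s0 : ℝ) - 400000000) / 100000000| ≤ 0.00000034 ∧ k c0 s0 = true

def SpecGK : Prop := ∀ (e1 e2 c0 s0 : ℕ) (k : ℕ → ℕ → ℕ → Bool),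
  gK e1 e2 c0 s0 k = true → ∃ g0 gp gn : ℕ,
    (g0 : ℝ) = e1 * ((c0 : ℝ) - 400000000) + ((e2 : ℝ) - 64) * ((s0 : ℝ) - 400000000) ∧
    (gp : ℝ) - gn = ((e2 : ℝ) - 64) * ((c0 : ℝ) - 400000000) - e1 * ((s0 : ℝ) - 400000000) ∧
    k g0 gp gn = true

def SpecRotK : Prop := ∀ (th : ℝ) (kap C S : ℕ) (k : ℕ → ℕ → ℕ → ℕ → Bool),
  DirM th (C : ℝ) ((S : ℝ) - 100000000) → rotK kap C S k = true → ∃ Pp Pn Qp Qn : ℕ,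
    kap < 4 ∧ DirM (th + kap * (π / 2)) ((Pp : ℝ) - Pn) ((Qp : ℝ) - Qn) ∧
    k Pp Pn Qp Qn = true

def SpecVK : Prop := ∀ (MLp MLn MHp MHn : ℕ) (MF : ℝ) (k : ℕ → ℕ → ℕ → Bool),
  (MLp : ℝ) - MLn ≤ MF → MF ≤ (MHp : ℝ) - MHn → vK MLp MLn MHp MHn k = true →
  ∃ vl vh vs w2 vm : ℕ, ((vl : ℝ) - 1099511627776) * 1073741824 ≤ MF ∧
    MF ≤ ((vh : ℝ) - 1099511627776) * 1073741824 ∧ vs = vl + vh ∧ (w2 : ℝ) = vh - vl ∧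
    vh ≤ vm + 1099511627776 ∧ 1099511627776 ≤ vm + vl ∧ k vs w2 vm = true

/-- everything that `ownK` establishes -/
def SpecOwn : Prop := ∀ (w : Wd), World w → ∀ LO HI : ℕ, BoxOK (zv w) LO HI →
  ∀ (i j o kap e1 e2 : ℕ) (k : ℕ → ℕ → ℕ → ℕ → ℕ → ℕ → ℕ → ℕ → ℕ → ℕ → ℕ → ℕ → ℕ → ℕ → ℕ → ℕ →
    ℕ → ℕ → ℕ → ℕ → ℕ → ℕ → ℕ → ℕ → ℕ → ℕ → Bool), ownK LO HI i j o kap e1 e2 k = true →
  i < j ∧ j ≤ 10 ∧ e1 ≤ 64 ∧ e2 ≤ 128 ∧ kap < 4 ∧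
  ∃ (A Ap ta tb g0 gsp gsn xpi xni ypi yni xpj xnj ypj ynj kNp kNn NLp NLn NHp NHn kMp kMn vs w2
      vm vl vh a b : ℕ) (bo bp : Bool) (σ P Q r0 c0 s0 NF MF : ℝ),
    ((o = 0 ∧ a = i ∧ b = j) ∨ (o = 1 ∧ a = j ∧ b = i)) ∧
    Own w (lab i) (lab j) (lab a) (lab b) bo bp kap ta tb σ P Q r0 c0 s0
      (zv w (3 * a + 2)) (zv w (3 * b + 2)) A Ap NF MF ∧
    (g0 : ℝ) = e1 * c0 + ((e2 : ℝ) - 64) * s0 ∧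
    σ * (((e2 : ℝ) - 64) * c0 - e1 * s0) = (gsp : ℝ) - gsn ∧
    NF = ((xpj : ℝ) - xnj) * zv w (3 * j) + ((ypj : ℝ) - ynj) * zv w (3 * j + 1) -
      ((xpi : ℝ) - xni) * zv w (3 * i) - ((ypi : ℝ) - yni) * zv w (3 * i + 1) +
      ((kNp : ℝ) - kNn) ∧
    MF = ((ynj : ℝ) - ypj) * zv w (3 * j) + ((xpj : ℝ) - xnj) * zv w (3 * j + 1) -
      ((yni : ℝ) - ypi) * zv w (3 * i) - ((xpi : ℝ) - xni) * zv w (3 * i + 1) +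
      ((kMp : ℝ) - kMn) ∧
    (NLp : ℝ) - NLn ≤ NF ∧ NF ≤ (NHp : ℝ) - NHn ∧
    ((vl : ℝ) - 1099511627776) * 1073741824 ≤ MF ∧
    MF ≤ ((vh : ℝ) - 1099511627776) * 1073741824 ∧ vs = vl + vh ∧ (w2 : ℝ) = vh - vl ∧
    vh ≤ vm + 1099511627776 ∧ 1099511627776 ≤ vm + vl ∧
    k A Ap ta tb g0 gsp gsn xpi xni ypi yni xpj xnj ypj ynj kNp kNn NLp NLn NHp NHn kMp kMn
      vs w2 vm = true

end Fine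
end Pool.Agent.MP_abb58c_co
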