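import Pool.Agent.Lib.MP_abb58c_co.FineTrig

/-! MP_abb58c_co, FINE: sine and cosine in integer arithmetic (unit `1/M`, `M = 10^8`) -/

namespace Pool.Agent.MP_abb58c_co
namespace Fine

open Real

/-- `M cos (u/M)`; `B2 = u*u/M`, `B4 = B2*B2/M`, `B6 = B4*B2/M` -/
def trigC (B2 B4 B6 : ℕ) : ℕ := (100000000 + B4 / 24) - (B2 / 2 + B6 / 720)

/-- `M sin (u/M)` -/
def trigS (u B2 B4 : ℕ) : ℕ := u * ((100000000 + B4 / 120) - B2 / 6) / 100000000

theorem div_bd (a b : ℕ) (hb : 0 < b) :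
    (b : ℝ) * ((a / b : ℕ) : ℝ) ≤ a ∧ (a : ℝ) ≤ (b : ℝ) * ((a / b : ℕ) : ℝ) + (b - 1) := by
  have h1 := Nat.div_add_mod a b
  have h2 := Nat.mod_lt a hb
  have h3 : (b : ℝ) * ((a / b : ℕ) : ℝ) + ((a % b : ℕ) : ℝ) = a := by exact_mod_cast h1
  have h4 : ((a % b : ℕ) : ℝ) + 1 ≤ b := by exact_mod_cast h2
  have h5 : (0 : ℝ) ≤ ((a % b : ℕ) : ℝ) := Nat.cast_nonneg _
  constructor <;> linarith

/-- bounds of the powers -/
theorem pow_bd {u B2 B4 B6 : ℕ} {x : ℝ} (hx : (u : ℝ) = 100000000 * x)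
    (hB2 : B2 = u * u / 100000000) (hB4 : B4 = B2 * B2 / 100000000)
    (hB6 : B6 = B4 * B2 / 100000000) :
    ((B2 : ℝ) ≤ 100000000 * x ^ 2 ∧ 100000000 * x ^ 2 - 1 ≤ B2) ∧
    ((B4 : ℝ) ≤ 100000000 * x ^ 4 ∧ 100000000 * x ^ 4 - 2 * x ^ 2 - 1 ≤ B4) ∧
    ((B6 : ℝ) ≤ 100000000 * x ^ 6 ∧ 100000000 * x ^ 6 - 3 * x ^ 4 - x ^ 2 - 1 ≤ B6) := by
  obtain ⟨y, hy⟩ : ∃ y, y = x ^ 2 := ⟨_, rfl⟩
  have hy0 : 0 ≤ y := by rw [hy]; positivity
  have e4 : x ^ 4 = y ^ 2 := by rw [hy]; ring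
  have e6 : x ^ 6 = y ^ 3 := by rw [hy]; ring
  rw [e4, e6, ← hy]
  obtain ⟨a1, a2⟩ := div_bd (u * u) 100000000 (by norm_num)
  rw [← hB2] at a1 a2
  push_cast at a1 a2
  rw [hx] at a1 a2
  have a1' : (B2 : ℝ) ≤ 100000000 * y := by rw [hy]; nlinarith
  have a2' : 100000000 * y - 1 ≤ (B2 : ℝ) := by rw [hy]; nlinarith
  have hb2 : (0 : ℝ) ≤ B2 := Nat.cast_nonneg _
  obtain ⟨b1, b2⟩ := div_bd (B2 * B2) 100000000 (by norm_num)
  rw [← hB4] at b1 b2
  push_cast at b1 b2
  have b1' : (B4 : ℝ) ≤ 100000000 * y ^ 2 := by nlinarith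
  have b2' : 100000000 * y ^ 2 - 2 * y - 1 ≤ (B4 : ℝ) := by
    have h : (100000000 * y) ^ 2 - 2 * (100000000 * y) ≤ (B2 : ℝ) * B2 := by
      rcases le_total 1 (100000000 * y) with h1 | h1
      · nlinarith
      · nlinarith
    nlinarith
  have hb4 : (0 : ℝ) ≤ B4 := Nat.cast_nonneg _
  obtain ⟨c1, c2⟩ := div_bd (B4 * B2) 100000000 (by norm_num)
  rw [← hB6] at c1 c2
  push_cast at c1 c2
  have c1' : (B6 : ℝ) ≤ 100000000 * y ^ 3 := by
    have h : (B4 : ℝ) * B2 ≤ (100000000 * y ^ 2) * (100000000 * y) :=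
      mul_le_mul b1' a1' hb2 (by positivity)
    nlinarith
  have c2' : 100000000 * y ^ 3 - 3 * y ^ 2 - y - 1 ≤ (B6 : ℝ) := by
    have h1 : 0 ≤ (100000000 * y ^ 2 - B4) * (100000000 * y - B2) :=
      mul_nonneg (by linarith) (by linarith)
    have h2 : (100000000 * y) * (100000000 * y ^ 2 - B4) ≤ (100000000 * y) * (2 * y + 1) :=
      mul_le_mul_of_nonneg_left (by linarith) (by positivity)
    have h3 : (100000000 * y ^ 2) * (100000000 * y - B2) ≤ (100000000 * y ^ 2) * 1 :=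
      mul_le_mul_of_nonneg_left (by linarith) (by positivity)
    nlinarith
  exact ⟨⟨a1', a2'⟩, ⟨b1', b2'⟩, c1', c2'⟩

theorem trig_err {u B2 B4 B6 : ℕ} (hu : u ≤ 30000000)
    (hB2 : B2 = u * u / 100000000) (hB4 : B4 = B2 * B2 / 100000000)
    (hB6 : B6 = B4 * B2 / 100000000) :
    |(trigC B2 B4 B6 : ℝ) - 100000000 * cos ((u : ℝ) / 100000000)| ≤ 3 ∧
    |(trigS u B2 B4 : ℝ) - 100000000 * sin ((u : ℝ) / 100000000)| ≤ 6 := by
  obtain ⟨x, hx'⟩ : ∃ x : ℝ, x = (u : ℝ) / 100000000 := ⟨_, rfl⟩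
  have hx : (u : ℝ) = 100000000 * x := by rw [hx']; field_simp
  have hx0 : 0 ≤ x := by rw [hx']; positivity
  have hx1 : x ≤ 0.3 := by
    have : (u : ℝ) ≤ 30000000 := by exact_mod_cast hu
    norm_num
    linarith
  obtain ⟨⟨a1, a2⟩, ⟨b1, b2⟩, c1, c2⟩ := pow_bd hx hB2 hB4 hB6
  rw [← hx']
  -- small powers
  have p2 : x ^ 2 ≤ 0.09 := by nlinarith
  have p20 : 0 ≤ x ^ 2 := by positivity
  have p4 : x ^ 4 ≤ 0.0081 := by
    have : x ^ 4 = x ^ 2 * x ^ 2 := by ring
    rw [this]; nlinarith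
  have p40 : 0 ≤ x ^ 4 := by positivity
  have p8 : x ^ 8 ≤ 0.00006561 := by
    have : x ^ 8 = x ^ 4 * x ^ 4 := by ring
    rw [this]; nlinarith
  have p6 : x ^ 6 ≤ 0.000729 := by
    have : x ^ 6 = x ^ 4 * x ^ 2 := by ring
    rw [this]
    have := mul_le_mul p4 p2 p20 (by norm_num)
    linarith
  have p60 : 0 ≤ x ^ 6 := by positivity
  have p7 : x ^ 7 ≤ 0.0002187 := by
    have : x ^ 7 = x ^ 6 * x := by ring
    rw [this]
    have := mul_le_mul p6 hx1 hx0 (by norm_num)
    linarith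
  have p70 : 0 ≤ x ^ 7 := by positivity
  constructor
  · -- cosine
    have hcos := abs_le.1 (abs_cos_sub8 x)
    obtain ⟨q1, q2⟩ := div_bd B4 24 (by norm_num)
    obtain ⟨q3, q4⟩ := div_bd B2 2 (by norm_num)
    obtain ⟨q5, q6⟩ := div_bd B6 720 (by norm_num)
    have hsub : B2 / 2 + B6 / 720 ≤ 100000000 + B4 / 24 := by
      have : ((B2 / 2 + B6 / 720 : ℕ) : ℝ) ≤ ((100000000 + B4 / 24 : ℕ) : ℝ) := by
        push_cast
        push_cast at q1 q2 q3 q4 q5 q6
        have h0 : (0 : ℝ) ≤ ((B4 / 24 : ℕ) : ℝ) := Nat.cast_nonneg _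
        norm_num at p2 p6 ⊢
        linarith
      exact_mod_cast this
    have e : (trigC B2 B4 B6 : ℝ) =
        (100000000 + ((B4 / 24 : ℕ) : ℝ)) - (((B2 / 2 : ℕ) : ℝ) + ((B6 / 720 : ℕ) : ℝ)) := by
      unfold trigC
      rw [Nat.cast_sub hsub]
      push_cast
      ring
    rw [e]
    push_cast at q1 q2 q3 q4 q5 q6
    norm_num at p2 p4 p6 p8 ⊢
    rw [abs_le]
    obtain ⟨g1, g2⟩ := hcos
    constructor <;> linarith
  · -- sine
    have hsin := abs_le.1 (abs_sin_sub7 x)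
    rw [abs_of_nonneg hx0] at hsin
    obtain ⟨q1, q2⟩ := div_bd B4 120 (by norm_num)
    obtain ⟨q3, q4⟩ := div_bd B2 6 (by norm_num)
    push_cast at q1 q2 q3 q4
    have hsub : B2 / 6 ≤ 100000000 + B4 / 120 := by
      have : ((B2 / 6 : ℕ) : ℝ) ≤ ((100000000 + B4 / 120 : ℕ) : ℝ) := by
        push_cast
        have h0 : (0 : ℝ) ≤ ((B4 / 120 : ℕ) : ℝ) := Nat.cast_nonneg _
        norm_num at p2 ⊢
        linarith
      exact_mod_cast this
    obtain ⟨w, hw⟩ : ∃ w : ℕ, w = (100000000 + B4 / 120) - B2 / 6 := ⟨_, rfl⟩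
    have hwr : (w : ℝ) = (100000000 + ((B4 / 120 : ℕ) : ℝ)) - ((B2 / 6 : ℕ) : ℝ) := by
      rw [hw, Nat.cast_sub hsub]
      push_cast
      ring
    have w1 : (w : ℝ) ≤ 100000000 * (1 - x ^ 2 / 6 + x ^ 4 / 120) + 1.1 := by
      rw [hwr]
      norm_num
      linarith
    have w2 : 100000000 * (1 - x ^ 2 / 6 + x ^ 4 / 120) - 1.1 ≤ (w : ℝ) := by
      rw [hwr]
      norm_num at p2 ⊢
      linarith
    obtain ⟨s1, s2⟩ := div_bd (u * w) 100000000 (by norm_num)
    have es : trigS u B2 B4 = u * w / 100000000 := by rw [hw]; rfl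
    rw [← es] at s1 s2
    push_cast at s1 s2
    rw [hx] at s1 s2
    have s1' : (trigS u B2 B4 : ℝ) ≤ x * w := by nlinarith
    have s2' : x * w - 1 ≤ (trigS u B2 B4 : ℝ) := by nlinarith
    have m1 := mul_le_mul_of_nonneg_left w1 hx0
    have m2 := mul_le_mul_of_nonneg_left w2 hx0
    have e3 : x * (100000000 * (1 - x ^ 2 / 6 + x ^ 4 / 120) + 1.1) =
        100000000 * (x - x ^ 3 / 6 + x ^ 5 / 120) + 1.1 * x := by ring
    have e4 : x * (100000000 * (1 - x ^ 2 / 6 + x ^ 4 / 120) - 1.1) =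
        100000000 * (x - x ^ 3 / 6 + x ^ 5 / 120) - 1.1 * x := by ring
    rw [e3] at m1
    rw [e4] at m2
    obtain ⟨g1, g2⟩ := hsin
    norm_num at p7 hx1 m1 m2 ⊢
    rw [abs_le]
    constructor <;> linarith

/-- cosine (times `M`) and sine (times `M`, plus `M`) of the angle `(tau - M)/M` -/
def trigN (tau : ℕ) : ℕ × ℕ :=
  let u := (tau - 100000000) + (100000000 - tau)
  let B2 := u * u / 100000000
  let B4 := B2 * B2 / 100000000
  let B6 := B4 * B2 / 100000000
  (trigC B2 B4 B6, if 100000000 ≤ tau then 100000000 + trigS u B2 B4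
    else 100000000 - trigS u B2 B4)

/-- rotation of `(c, s + M)` by the angle of `(728, 615)/953` -/
def rotN (c s : ℕ) : ℕ × ℕ :=
  ((728 * c + 61500000000 - 615 * s) / 953, (615 * c + 728 * s + 22500000000) / 953)

theorem trigN_err {tau : ℕ} (h1 : 70000000 ≤ tau) (h2 : tau ≤ 130000000) :
    |((trigN tau).1 : ℝ) - 100000000 * cos (((tau : ℝ) - 100000000) / 100000000)| ≤ 3 ∧
    |((trigN tau).2 : ℝ) - 100000000 -
      100000000 * sin (((tau : ℝ) - 100000000) / 100000000)| ≤ 6 := by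
  obtain ⟨u, hu⟩ : ∃ u, u = (tau - 100000000) + (100000000 - tau) := ⟨_, rfl⟩
  have hule : u ≤ 30000000 := by omega
  obtain ⟨k1, k2⟩ := trig_err (u := u) hule rfl rfl rfl
  rcases le_total 100000000 tau with h | h
  · have eu : (u : ℝ) = (tau : ℝ) - 100000000 := by
      have : u + 100000000 = tau := by omega
      rw [← this]; push_cast; ring
    have e2 : (trigN tau).2 = 100000000 + trigS u (u * u / 100000000)
        (u * u / 100000000 * (u * u / 100000000) / 100000000) := by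
      unfold trigN
      simp only [if_pos h, ← hu]
    have e1 : (trigN tau).1 = trigC (u * u / 100000000)
        (u * u / 100000000 * (u * u / 100000000) / 100000000)
        (u * u / 100000000 * (u * u / 100000000) / 100000000 * (u * u / 100000000) / 100000000) := by
      unfold trigN
      simp only [← hu]
    rw [e1, e2, ← eu]
    refine ⟨k1, ?_⟩
    push_cast
    rw [show (100000000 : ℝ) + (trigS u (u * u / 100000000)
      (u * u / 100000000 * (u * u / 100000000) / 100000000) : ℝ) - 100000000 =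
      (trigS u (u * u / 100000000)
      (u * u / 100000000 * (u * u / 100000000) / 100000000) : ℝ) by ring]
    exact k2
  · rcases Nat.eq_or_lt_of_le h with heq | hlt
    · subst heq
      have hu0 : u = 0 := by omega
      have e1 : (trigN 100000000).1 = 100000000 := by decide
      have e2 : (trigN 100000000).2 = 100000000 := by decide
      rw [e1, e2]
      norm_num
    · have eu : -(u : ℝ) = (tau : ℝ) - 100000000 := by
        have : u + tau = 100000000 := by omega
        have h3 : (u : ℝ) + tau = 100000000 := by exact_mod_cast this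
        linarith
      have e2 : (trigN tau).2 = 100000000 - trigS u (u * u / 100000000)
          (u * u / 100000000 * (u * u / 100000000) / 100000000) := by
        unfold trigN
        simp only [if_neg (not_le.2 hlt), ← hu]
      have e1 : (trigN tau).1 = trigC (u * u / 100000000)
          (u * u / 100000000 * (u * u / 100000000) / 100000000)
          (u * u / 100000000 * (u * u / 100000000) / 100000000 * (u * u / 100000000) /
            100000000) := by
        unfold trigN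
        simp only [← hu]
      rw [e1, e2, ← eu, neg_div, cos_neg, sin_neg]
      refine ⟨k1, ?_⟩
      have hle : trigS u (u * u / 100000000)
          (u * u / 100000000 * (u * u / 100000000) / 100000000) ≤ 100000000 := by
        have h5 := (abs_le.1 k2).2
        have h6 : sin ((u : ℝ) / 100000000) ≤ (u : ℝ) / 100000000 := sin_le (by positivity)
        have h7 : (u : ℝ) ≤ 30000000 := by exact_mod_cast hule
        have h8 : ((trigS u (u * u / 100000000)
          (u * u / 100000000 * (u * u / 100000000) / 100000000) : ℕ) : ℝ) ≤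
            ((100000000 : ℕ) : ℝ) := by
          push_cast
          linarith
        exact_mod_cast h8
      rw [Nat.cast_sub hle]
      have h9 := abs_le.1 k2
      rw [abs_le]
      push_cast
      constructor <;> linarith

/-- error of the rotated direction (unsigned component) -/
theorem rotN_err {c s : ℕ} {x θ : ℝ} (hθc : cos θ = 728 / 953) (hθs : sin θ = 615 / 953)
    (hx : |x| ≤ 0.3) (hc : |(c : ℝ) - 100000000 * cos x| ≤ 3)
    (hs : |(s : ℝ) - 100000000 - 100000000 * sin x| ≤ 6) :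
    |((rotN c s).1 : ℝ) - 100000000 * cos (θ + x)| ≤ 8 ∧
    |((rotN c s).2 : ℝ) - 100000000 - 100000000 * sin (θ + x)| ≤ 8 := by
  obtain ⟨c1, c2⟩ := abs_le.1 hc
  obtain ⟨s1, s2⟩ := abs_le.1 hs
  have hcos : (0.9 : ℝ) ≤ cos x := by
    have h1 := cos_lower x
    have h2 : x ^ 2 ≤ 0.09 := by
      rw [← sq_abs]
      have := abs_nonneg x
      nlinarith
    norm_num at h2 ⊢
    linarith
  have hsin : sin x ≤ 0.3 := ((le_abs_self _).trans abs_sin_le_abs).trans hx
  have hsin' : -0.3 ≤ sin x := by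
    have := (abs_le.1 ((abs_sin_le_abs (x := x)).trans hx)).1
    linarith
  have hle : 615 * s ≤ 728 * c + 61500000000 := by
    have : ((615 * s : ℕ) : ℝ) ≤ ((728 * c + 61500000000 : ℕ) : ℝ) := by
      push_cast
      norm_num at hcos hsin
      linarith
    exact_mod_cast this
  obtain ⟨q1, q2⟩ := div_bd (728 * c + 61500000000 - 615 * s) 953 (by norm_num)
  rw [Nat.cast_sub hle] at q1 q2
  push_cast at q1 q2
  obtain ⟨q3, q4⟩ := div_bd (615 * c + 728 * s + 22500000000) 953 (by norm_num)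
  push_cast at q3 q4
  have e1 : cos (θ + x) = 728 / 953 * cos x - 615 / 953 * sin x := by
    rw [cos_add, hθc, hθs]
  have e2 : sin (θ + x) = 615 / 953 * cos x + 728 / 953 * sin x := by
    rw [sin_add, hθc, hθs]
  rw [e1, e2]
  unfold rotN
  constructor
  · rw [abs_le]
    constructor <;> linarith
  · rw [abs_le]
    constructor <;> linarith

end Fine
end Pool.Agent.MP_abb58c_co
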