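import Pool.Agent.Lib.MP_abb58c_co.FineWorld

/-! MP_abb58c_co, FINE: coordinates in the base frames, types of the labels -/

namespace Pool.Agent.MP_abb58c_co
namespace Fine

/-- the labels of the tilted squares in Trump's packing -/
def tiltS : Fin 11 → Bool :=
  ![true, false, false, true, false, false, false, false, true, true, true]

/-- first coordinate of the centre of square `l` in the base frame -/
noncomputable def Wd.U (w : Wd) (b : Bool) (l : Fin 11) : ℝ :=
  if b then (728 * w.x l + 615 * w.y l) / 953 else w.x l

/-- second coordinate of the centre of square `l` in the base frame -/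
noncomputable def Wd.V (w : Wd) (b : Bool) (l : Fin 11) : ℝ :=
  if b then (728 * w.y l - 615 * w.x l) / 953 else w.y l

/-- bias of the second coordinate -/
def vb (b : Bool) : ℕ := if b then 400000000 else 0

end Fine
end Pool.Agent.MP_abb58c_co
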