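import Pool.Agent.Lib.MP_abb58c_co.FineReal4
import Pool.Agent.Lib.MP_abb58c_co.FineTrigN
import Pool.Agent.Lib.MP_abb58c_co.FineUV

/-! MP_abb58c_co, FINE: the rows of format v4, scaled to integers (`M = 10^8`,
`F = 2^13 * 953 * M^3`) -/

namespace Pool.Agent.MP_abb58c_co
namespace Fine

open Real

/-- `(P, Q) / M` approximates the direction of the angle `th` -/
def DirM (th P Q : ℝ) : Prop :=
  |cos th - P / 100000000| ≤ 0.00000008 ∧ |sin th - Q / 100000000| ≤ 0.00000008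

/-- rotation by `k` quarter turns -/
theorem DirM.rot {th P Q P' Q' : ℝ} (h : DirM th P Q) {k : ℕ}
    (hk : (k = 0 ∧ P' = P ∧ Q' = Q) ∨ (k = 1 ∧ P' = -Q ∧ Q' = P) ∨
      (k = 2 ∧ P' = -P ∧ Q' = -Q) ∨ (k = 3 ∧ P' = Q ∧ Q' = -P)) :
    DirM (th + k * (π / 2)) P' Q' := by
  obtain ⟨h1, h2⟩ := h
  rcases hk with ⟨rfl, rfl, rfl⟩ | ⟨rfl, rfl, rfl⟩ | ⟨rfl, rfl, rfl⟩ | ⟨rfl, rfl, rfl⟩
  · simp only [Nat.cast_zero, zero_mul, add_zero]
    exact ⟨h1, h2⟩
  · simp only [Nat.cast_one, one_mul]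
    refine ⟨?_, ?_⟩
    · rw [cos_add_pi_div_two, neg_div, sub_neg_eq_add, neg_add_eq_sub, abs_sub_comm]
      exact h2
    · rw [sin_add_pi_div_two]
      exact h1
  · have e : th + ((2 : ℕ) : ℝ) * (π / 2) = th + π := by push_cast; ring
    rw [e]
    refine ⟨?_, ?_⟩
    · rw [cos_add_pi, neg_div, sub_neg_eq_add, neg_add_eq_sub, abs_sub_comm]
      exact h1
    · rw [sin_add_pi, neg_div, sub_neg_eq_add, neg_add_eq_sub, abs_sub_comm]
      exact h2
  · have e : th + ((3 : ℕ) : ℝ) * (π / 2) = (th + π) + π / 2 := by push_cast; ring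
    rw [e]
    refine ⟨?_, ?_⟩
    · rw [cos_add_pi_div_two, sin_add_pi, neg_neg]
      exact h2
    · rw [sin_add_pi_div_two, cos_add_pi, neg_div, sub_neg_eq_add, neg_add_eq_sub,
        abs_sub_comm]
      exact h1

/-- displacements are less than `2.88` -/
theorem World.dbound {w : Wd} (h : World w) (i j : Fin 11) :
    |w.x j - w.x i| ≤ 2.88 ∧ |w.y j - w.y i| ≤ 2.88 := by
  have hi := hh_ge_half (w.t i)
  have hj := hh_ge_half (w.t j)
  have h1 := h.left i
  have h2 := h.right i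
  have h3 := h.left j
  have h4 := h.right j
  have h5 := h.bot i
  have h6 := h.top i
  have h7 := h.bot j
  have h8 := h.top j
  unfold whi wlo at *
  constructor
  · rw [abs_le]; constructor <;> norm_num at * <;> linarith
  · rw [abs_le]; constructor <;> norm_num at * <;> linarith

theorem dir_nm {th P Q : ℝ} (h : DirM th P Q) {dx dy : ℝ} (hx : |dx| ≤ 2.88)
    (hy : |dy| ≤ 2.88) :
    |cos th * dx + sin th * dy - (P * dx + Q * dy) / 100000000| ≤ 0.00000047 ∧
    |-sin th * dx + cos th * dy - (-Q * dx + P * dy) / 100000000| ≤ 0.00000047 := by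
  obtain ⟨h1, h2⟩ := h
  have a1 : |(cos th - P / 100000000) * dx| ≤ 0.00000008 * 2.88 := by
    rw [abs_mul]; exact mul_le_mul h1 hx (abs_nonneg _) (by norm_num)
  have a2 : |(sin th - Q / 100000000) * dy| ≤ 0.00000008 * 2.88 := by
    rw [abs_mul]; exact mul_le_mul h2 hy (abs_nonneg _) (by norm_num)
  have a3 : |(sin th - Q / 100000000) * dx| ≤ 0.00000008 * 2.88 := by
    rw [abs_mul]; exact mul_le_mul h2 hx (abs_nonneg _) (by norm_num)
  have a4 : |(cos th - P / 100000000) * dy| ≤ 0.00000008 * 2.88 := by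
    rw [abs_mul]; exact mul_le_mul h1 hy (abs_nonneg _) (by norm_num)
  constructor
  · have e : cos th * dx + sin th * dy - (P * dx + Q * dy) / 100000000 =
        (cos th - P / 100000000) * dx + (sin th - Q / 100000000) * dy := by ring
    rw [e]
    refine (abs_add_le _ _).trans ?_
    refine (add_le_add a1 a2).trans ?_
    norm_num
  · have e : -sin th * dx + cos th * dy - (-Q * dx + P * dy) / 100000000 =
        (cos th - P / 100000000) * dy - (sin th - Q / 100000000) * dx := by ring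
    rw [e]
    refine (abs_sub _ _).trans ?_
    refine (add_le_add a4 a3).trans ?_
    norm_num

/-- `953 M (p x + q y)` in the coordinates of the base frames -/
theorem lin_UV (w : Wd) (b : Bool) (l : Fin 11) (p q : ℝ) :
    953 * 100000000 * (p * w.x l + q * w.y l) =
      if b then (728 * p + 615 * q) * ((MM : ℝ) * w.U b l) +
        (728 * q - 615 * p) * (((MM : ℝ) * w.V b l + vb b) - 400000000)
      else 953 * p * ((MM : ℝ) * w.U b l) + 953 * q * ((MM : ℝ) * w.V b l + vb b) := by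
  cases b
  · simp only [Wd.U, Wd.V, vb, Bool.false_eq_true, if_false]
    push_cast
    ring
  · simp only [Wd.U, Wd.V, vb, if_true]
    push_cast
    ring

/-- `div_bd` in one direction -/
theorem le_div_add_one (a den : ℕ) (h : 0 < den) :
    (a : ℝ) / den ≤ ((a / den : ℕ) : ℝ) + 1 := by
  obtain ⟨-, h2⟩ := div_bd a den h
  have hd : (0 : ℝ) < den := by exact_mod_cast h
  rw [div_le_iff₀ hd]
  linarith

/-- bounds for the lateral component from the integer bounds -/
theorem v_bounds {MF : ℝ} {vl vh vs w2 vm : ℕ}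
    (hvl : ((vl : ℝ) - 1099511627776) * 1073741824 ≤ MF)
    (hvh : MF ≤ ((vh : ℝ) - 1099511627776) * 1073741824) (hvs : vs = vl + vh)
    (hw2 : (w2 : ℝ) = vh - vl) (h1 : vh ≤ vm + 1099511627776)
    (h2 : 1099511627776 ≤ vm + vl) :
    |MF / 9530000000000000000 - ((vs : ℝ) - 2199023255552) * 536870912 / 9530000000000000000| ≤
      (w2 : ℝ) * 536870912 / 9530000000000000000 ∧
    |MF / 9530000000000000000| ≤ (vm : ℝ) * 1073741824 / 9530000000000000000 ∧
    |((vs : ℝ) - 2199023255552) * 536870912 / 9530000000000000000| +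
      (w2 : ℝ) * 536870912 / 9530000000000000000 ≤
      (vm : ℝ) * 1073741824 / 9530000000000000000 := by
  have h1' : (vh : ℝ) ≤ vm + 1099511627776 := by exact_mod_cast h1
  have h2' : (1099511627776 : ℝ) ≤ vm + vl := by exact_mod_cast h2
  have hvs' : (vs : ℝ) = vl + vh := by rw [hvs]; push_cast; ring
  rw [hvs', hw2]
  refine ⟨?_, ?_, ?_⟩
  · rw [abs_le]; constructor <;> linarith
  · rw [abs_le]; constructor <;> linarith
  · rw [← le_sub_iff_add_le, abs_le]
    constructor <;> linarith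

/-- the real value of a number with bias `64` -/
theorem bias64 {e : ℕ} (he : e ≤ 128) : |((e : ℝ) - 64) / 64| ≤ 1 := by
  have : (e : ℝ) ≤ 128 := by exact_mod_cast he
  have h0 : (0 : ℝ) ≤ e := Nat.cast_nonneg e
  rw [abs_le]
  constructor <;> linarith

/-- the absolute value of a number with bias `64` -/
theorem bias64_abs {e ea : ℕ} (h : ea = (e - 64) + (64 - e)) : |((e : ℝ) - 64) / 64| = (ea : ℝ) / 64 := by
  rw [abs_div]
  norm_num
  rw [h]
  push_cast
  rcases Nat.le_total e 64 with h1 | h1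
  · have h2 : (e : ℝ) ≤ 64 := by exact_mod_cast h1
    rw [abs_of_nonpos (by linarith), Nat.sub_eq_zero_of_le h1, Nat.cast_sub h1]
    push_cast
    ring
  · have h2 : (64 : ℝ) ≤ e := by exact_mod_cast h1
    rw [abs_of_nonneg (by linarith), Nat.sub_eq_zero_of_le h1, Nat.cast_sub h1]
    push_cast
    ring

set_option maxHeartbeats 1000000 in
/-- the mean row of format v4 -/
theorem R4_int {w : Wd} (hw : World w) {i j : Fin 11} {b0 : Bool} {kap t ti tj : ℕ} {P Q : ℝ}
    (hsep : Alt (w.t i + kap * (π / 2)) (w.t j - w.t i) (w.x j - w.x i) (w.y j - w.y i) ∨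
      Alt (w.t j + kap * (π / 2)) (w.t i - w.t j) (w.x j - w.x i) (w.y j - w.y i))
    (hdir : DirM (base b0 + ((t : ℝ) - 100000000) / 100000000 + kap * (π / 2)) P Q)
    (htt : ti + tj = 2 * t) {gp gn : ℕ} (hgp : gp = tj - ti) (hgn : gn = ti - tj)
    {zi zj : ℝ} (hzi : zi = 100000000 * (w.t i - base b0) + 100000000)
    (hzj : zj = 100000000 * (w.t j - base b0) + 100000000)
    {A B R D : ℕ} (hA : |zi - ti| ≤ A) (hB : |zj - tj| ≤ B) (hR : R = A + B)
    (hD : D = R + (gp + gn)) (hD1 : D ≤ 100000000)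
    {NF MF : ℝ} (hNF : NF = 953 * 100000000 * (P * (w.x j - w.x i) + Q * (w.y j - w.y i)))
    (hMF : MF = 953 * 100000000 * (-Q * (w.x j - w.x i) + P * (w.y j - w.y i)))
    (hn0 : 0 ≤ NF) {nh : ℕ} (hnh : NF / 9530000000000000000 ≤ (nh : ℝ) / 1024)
    {vl vh vs w2 vm : ℕ}
    (hvl : ((vl : ℝ) - 1099511627776) * 1073741824 ≤ MF)
    (hvh : MF ≤ ((vh : ℝ) - 1099511627776) * 1073741824) (hvs : vs = vl + vh)
    (hw2 : (w2 : ℝ) = vh - vl) (hvm1 : vh ≤ vm + 1099511627776)
    (hvm2 : 1099511627776 ≤ vm + vl)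
    {e lam mu a0 ea x nu n1 n2 : ℕ} (he : e ≤ 128) (hlam : lam ≤ 128) (hmu : mu ≤ 128)
    (hea : ea = (e - 64) + (64 - e))
    (hx : ea * 16384 + ((vm * 1125899906842624 / 9530000000000000000 +
      R * nh * 512 / 100000000 + 4) * 80000000000000000 / (80000000000000000 - D * D) + 1) ≤
      x + 1048576)
    (hN : (nu : ℝ) / 1024 ≤ NF / 9530000000000000000 ∨
      nu + (128 * (D * D) / 10000000000000000 + x * D / 204800000000 +
        R * vm * 549755813888 / 953000000000000000000000000 + 4) ≤ 1024)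
    (hn1 : n1 = nu - 1024) (hn2 : n2 = 1024 - nu) :
    0 ≤ 819200000000 * NF - 64 * ((lam : ℝ) - 64) * R * MF +
      (2199023255552 * ((vs : ℝ) - 2199023255552) + 34359738368 * ((lam : ℝ) - 64) * w2 -
        190600000000 * n1 * ((a0 : ℝ) - 1073741824) + 6099200000000 * B * ((mu : ℝ) - 64) -
        195174400000000 * ((gp : ℝ) - gn) + 609920000000000000000 * ((e : ℝ) - 64)) * (zi - ti) +
      (2199023255552 * ((vs : ℝ) - 2199023255552) + 34359738368 * ((lam : ℝ) - 64) * w2 -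
        190600000000 * n1 * ((a0 : ℝ) - 1073741824) + 6099200000000 * A * ((mu : ℝ) - 64) +
        195174400000000 * ((gp : ℝ) - gn) - 609920000000000000000 * ((e : ℝ) - 64)) * (zj - tj) +
      (2199023255552 * R * w2 + 97587200000000 * ((gp : ℝ) + gn) ^ 2 +
        390348800000000 * (A * B) +
        95300000000 * (n1 * ((a0 : ℝ) - 1073741824) ^ 2 + n2 * (R : ℝ) ^ 2) -
        609920000000000000000 * ((e : ℝ) - 64) * ((gp : ℝ) - gn) +
        37226562500000000 * (x * D) + ((7624 * ea * (D * D * D) / 3 : ℕ) : ℝ) +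
        ((R * R * R * vm * 549755813888 / 30000000000000000 : ℕ) : ℝ) +
        (((1024 + n1) * 953 * (R * R * (R * R)) / 4800000000 : ℕ) : ℝ) +
        7806976000000000000000003 - 7806976000000000000000000000000 +
        34359738368 * ((lam : ℝ) - 64) * R * ((vs : ℝ) - 2199023255552)) := by
  obtain ⟨dx, hdx⟩ : ∃ dx, dx = w.x j - w.x i := ⟨_, rfl⟩
  obtain ⟨dy, hdy⟩ : ∃ dy, dy = w.y j - w.y i := ⟨_, rfl⟩
  obtain ⟨bx, by'⟩ := hw.dbound i j
  rw [← hdx] at bx hNF hMF hsep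
  rw [← hdy] at by' hNF hMF hsep
  obtain ⟨q1, q2⟩ := dir_nm hdir bx by'
  obtain ⟨th0, hth0⟩ : ∃ th0, th0 =
    base b0 + ((t : ℝ) - 100000000) / 100000000 + kap * (π / 2) := ⟨_, rfl⟩
  rw [← hth0] at q1 q2
  obtain ⟨n, hn⟩ : ∃ n, n = NF / 9530000000000000000 := ⟨_, rfl⟩
  obtain ⟨m, hm⟩ : ∃ m, m = MF / 9530000000000000000 := ⟨_, rfl⟩
  have en : (P * dx + Q * dy) / 100000000 = n := by
    rw [hn, hNF]; ring
  have em : (-Q * dx + P * dy) / 100000000 = m := by
    rw [hm, hMF]; ring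
  rw [en] at q1
  rw [em] at q2
  obtain ⟨hV, hVm, hVW⟩ := v_bounds hvl hvh hvs hw2 hvm1 hvm2
  rw [← hm] at hV hVm
  rw [← hn] at hnh hN
  have hn0' : 0 ≤ n := by rw [hn]; exact div_nonneg hn0 (by norm_num)
  obtain ⟨a, ha⟩ : ∃ a, a = (zi - ti) / 100000000 := ⟨_, rfl⟩
  obtain ⟨b, hb⟩ : ∃ b, b = (zj - tj) / 100000000 := ⟨_, rfl⟩
  obtain ⟨g, hg⟩ : ∃ g : ℝ, g = (gp : ℝ) - gn := ⟨_, rfl⟩
  obtain ⟨g0, hg0⟩ : ∃ g0 : ℝ, g0 = g / 100000000 := ⟨_, rfl⟩
  have htt' : (ti : ℝ) + tj = 2 * t := by exact_mod_cast htt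
  have hg' : g = (tj : ℝ) - ti ∧ |g| = (gp : ℝ) + gn ∧ g ^ 2 = ((gp : ℝ) + gn) ^ 2 := by
    rcases Nat.le_total ti tj with h | h
    · have h0 : gn = 0 := by omega
      have h1 : (gp : ℝ) = (tj : ℝ) - ti := by rw [hgp, Nat.cast_sub h]
      rw [hg, h0, Nat.cast_zero, sub_zero, add_zero]
      exact ⟨h1, abs_of_nonneg (Nat.cast_nonneg _), rfl⟩
    · have h0 : gp = 0 := by omega
      have h1 : (gn : ℝ) = (ti : ℝ) - tj := by rw [hgn, Nat.cast_sub h]
      rw [hg, h0, Nat.cast_zero, zero_sub, zero_add, abs_neg, neg_sq]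
      exact ⟨by rw [h1]; ring, abs_of_nonneg (Nat.cast_nonneg _), rfl⟩
  obtain ⟨hg1, hg2, hg3⟩ := hg'
  rw [← hg, ← hg3]
  have e1 : w.t i + kap * (π / 2) = th0 - g0 / 2 + a := by
    rw [hth0, hg0, ha, hzi, hg1]; linarith
  have e2 : w.t j + kap * (π / 2) = th0 + g0 / 2 + b := by
    rw [hth0, hg0, hb, hzj, hg1]; linarith
  have e3 : w.t j - w.t i = g0 + b - a := by
    rw [hg0, ha, hb, hzi, hzj, hg1]; ring
  have e4 : w.t i - w.t j = -(g0 + b - a) := by rw [← e3]; ring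
  rw [e1, e2, e3, e4] at hsep
  have hsep' : Alt (th0 - g0 / 2 + a) (g0 + b - a) dx dy ∨
      Alt (th0 + g0 / 2 + b) (g0 + b - a) dx dy := hsep.imp id Alt.neg
  have hA' : |a| ≤ (A : ℝ) / 100000000 := by
    rw [ha, abs_div]
    norm_num
    linarith
  have hB' : |b| ≤ (B : ℝ) / 100000000 := by
    rw [hb, abs_div]
    norm_num
    linarith
  have hg0a : |g0| = ((gp : ℝ) + gn) / 100000000 := by
    rw [hg0, abs_div, hg2]
    norm_num
  have hRr : (R : ℝ) = (A : ℝ) + B := by rw [hR]; push_cast; ring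
  have hDr : (D : ℝ) / 100000000 = |g0| + (A : ℝ) / 100000000 + (B : ℝ) / 100000000 := by
    rw [hg0a, hD]; push_cast; rw [hRr]; ring
  have hDr1 : (D : ℝ) ≤ 100000000 := by exact_mod_cast hD1
  have hD1' : (D : ℝ) / 100000000 ≤ 1 := by
    rw [div_le_one (by norm_num)]
    exact hDr1
  have hDD : D * D ≤ 10000000000000000 := by
    have := Nat.mul_le_mul hD1 hD1
    omega
  have hden : ((80000000000000000 - D * D : ℕ) : ℝ) = 80000000000000000 - (D : ℝ) * D := by
    rw [Nat.cast_sub (by omega)]; push_cast; ring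
  have hden0 : (0 : ℝ) < 80000000000000000 - (D : ℝ) * D := by
    rw [← hden]; exact_mod_cast (by omega : 0 < 80000000000000000 - D * D)
  -- the bound of the lateral component in the mean frame
  have hLf1 := le_div_add_one (vm * 1125899906842624) 9530000000000000000 (by norm_num)
  have hLf2 := le_div_add_one (R * nh * 512) 100000000 (by norm_num)
  obtain ⟨LmI, hLmI⟩ : ∃ LmI, LmI = vm * 1125899906842624 / 9530000000000000000 +
      R * nh * 512 / 100000000 + 4 := ⟨_, rfl⟩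
  rw [← hLmI] at hx
  have hLmI' : (LmI : ℝ) = ((vm * 1125899906842624 / 9530000000000000000 : ℕ) : ℝ) +
      ((R * nh * 512 / 100000000 : ℕ) : ℝ) + 4 := by rw [hLmI]; push_cast; rfl
  have hLam : (vm : ℝ) * 1073741824 / 9530000000000000000 +
      ((A : ℝ) / 100000000 + B / 100000000) / 2 * ((nh : ℝ) / 1024) + 2 * 0.00000047 ≤
      (LmI : ℝ) / 1048576 := by
    rw [hLmI']
    push_cast at hLf1 hLf2
    rw [hRr] at hLf2
    rw [le_div_iff₀ (by norm_num)]
    norm_num at hLf1 hLf2 ⊢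
    linarith
  have hq := le_div_add_one (LmI * 80000000000000000) (80000000000000000 - D * D) (by omega)
  rw [hden] at hq
  push_cast at hq
  have hxr : (ea : ℝ) * 16384 + (((LmI * 80000000000000000 / (80000000000000000 - D * D) : ℕ) : ℝ)
      + 1) ≤ x + 1048576 := by exact_mod_cast hx
  have hx' : |((e : ℝ) - 64) / 64| + (LmI : ℝ) / 1048576 / (1 - ((D : ℝ) / 100000000) ^ 2 / 8) - 1 ≤
      (x : ℝ) / 1048576 := by
    rw [bias64_abs hea]
    have e5 : (LmI : ℝ) / 1048576 / (1 - ((D : ℝ) / 100000000) ^ 2 / 8) =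
        (LmI : ℝ) * 80000000000000000 / (80000000000000000 - (D : ℝ) * D) / 1048576 := by
      have e6 : 1 - ((D : ℝ) / 100000000) ^ 2 / 8 =
          (80000000000000000 - (D : ℝ) * D) / 80000000000000000 := by ring
      rw [e6]
      field_simp
    rw [e5]
    linarith
  -- the lower bound of the longitudinal component
  have hf1 := le_div_add_one (128 * (D * D)) 10000000000000000 (by norm_num)
  have hf2 := le_div_add_one (x * D) 204800000000 (by norm_num)
  have hf3 := le_div_add_one (R * vm * 549755813888) 953000000000000000000000000 (by norm_num)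
  have hN' : (nu : ℝ) / 1024 ≤ n ∨ (nu : ℝ) / 1024 ≤ 1 - ((D : ℝ) / 100000000) ^ 2 / 8 -
      (x : ℝ) / 1048576 * ((D : ℝ) / 100000000) / 2 -
      ((A : ℝ) / 100000000 + B / 100000000) / 2 * ((vm : ℝ) * 1073741824 / 9530000000000000000) -
      2 * 0.00000047 := by
    refine hN.imp id fun hN => ?_
    have h1 : (nu : ℝ) + (((128 * (D * D) / 10000000000000000 : ℕ) : ℝ) +
        ((x * D / 204800000000 : ℕ) : ℝ) +
        ((R * vm * 549755813888 / 953000000000000000000000000 : ℕ) : ℝ) + 4) ≤ 1024 := by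
      exact_mod_cast hN
    push_cast at hf1 hf2 hf3 h1
    rw [hRr] at hf3
    norm_num at hf1 hf2 hf3 ⊢
    linarith
  -- rounding errors
  have hE1 := le_div_add_one (7624 * ea * (D * D * D)) 3 (by norm_num)
  have hE2 := le_div_add_one (R * R * R * vm * 549755813888) 30000000000000000 (by norm_num)
  have hE3 := le_div_add_one ((1024 + n1) * 953 * (R * R * (R * R))) 4800000000 (by norm_num)
  obtain ⟨E1, hE1d⟩ : ∃ E1 : ℝ, E1 = ((7624 * ea * (D * D * D) / 3 : ℕ) : ℝ) := ⟨_, rfl⟩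
  obtain ⟨E2, hE2d⟩ : ∃ E2 : ℝ, E2 =
    ((R * R * R * vm * 549755813888 / 30000000000000000 : ℕ) : ℝ) := ⟨_, rfl⟩
  obtain ⟨E3, hE3d⟩ : ∃ E3 : ℝ, E3 =
    (((1024 + n1) * 953 * (R * R * (R * R)) / 4800000000 : ℕ) : ℝ) := ⟨_, rfl⟩
  rw [← hE1d] at hE1 ⊢
  rw [← hE2d] at hE2 ⊢
  rw [← hE3d] at hE3 ⊢
  push_cast at hE1 hE2 hE3
  have hab := bias64_abs hea
  have hS : 0 ≤ (A : ℝ) / 100000000 + B / 100000000 :=
    add_nonneg (div_nonneg (Nat.cast_nonneg A) (by norm_num))
      (div_nonneg (Nat.cast_nonneg B) (by norm_num))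
  have hZ0 : 0 ≤ (((A : ℝ) / 100000000 + B / 100000000) / 2) ^ 3 / 6 :=
    div_nonneg (pow_nonneg (div_nonneg hS (by norm_num)) 3) (by norm_num)
  have hx0 : (0 : ℝ) ≤ (x : ℝ) / 1048576 := div_nonneg (Nat.cast_nonneg x) (by norm_num)
  have hVW' := mul_le_mul_of_nonneg_left hVW hZ0
  have ena : zi - ti = 100000000 * a := by rw [ha]; ring
  have enb : zj - tj = 100000000 * b := by rw [hb]; ring
  have eNF : NF = 9530000000000000000 * n := by rw [hn]; ring
  have eMF : MF = 9530000000000000000 * m := by rw [hm]; ring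
  have egg : g = 100000000 * g0 := by rw [hg0]; ring
  rw [ena, enb, eNF, eMF, egg]
  rcases Nat.lt_or_ge nu 1024 with hc | hc
  · have hn1' : n1 = 0 := by omega
    have hn2' : (n2 : ℝ) = 1024 - nu := by
      rw [hn2, Nat.cast_sub hc.le]; norm_num
    have hc' : (nu : ℝ) ≤ 1024 := by exact_mod_cast hc.le
    have r := rowR4 hsep' (Or.inl rfl) hA' hB' hDr hD1' q1 q2 hn0' hnh hN'
      hV hVm hLam (bias64 he) hx0 hx' (bias64 hlam) (bias64 hmu) (a0 := 0)
      (Or.inr ⟨by linarith, rfl, rfl⟩)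
    rw [hab] at r
    rw [hn1'] at hE3 ⊢
    rw [hn2']
    rw [hRr] at hE2 hE3 ⊢
    have r2 := mul_nonneg (show (0 : ℝ) ≤ 7806976000000000000000000000000 by norm_num) r
    simp only [Nat.cast_zero] at hE3 ⊢
    clear hsep' hA' hB' hDr hD1' q1 q2 hnh hN' hV hVm hLam hx' hx hq hxr hLmI' hLf1 hLf2 hf1 hf2
      hf3 hN hlam hmu he hvl hvh hVW hsep bx by' hzi hzj hA hB e1 e2 e3 e4
    linarith
  · have hn1' : (n1 : ℝ) = nu - 1024 := by
      rw [hn1, Nat.cast_sub hc]; norm_num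
    have hn2' : n2 = 0 := by omega
    have hc' : (1024 : ℝ) ≤ nu := by exact_mod_cast hc
    have r := rowR4 hsep' (Or.inl rfl) hA' hB' hDr hD1' q1 q2 hn0' hnh hN'
      hV hVm hLam (bias64 he) hx0 hx' (bias64 hlam) (bias64 hmu)
      (a0 := ((a0 : ℝ) - 1073741824) / 200000000)
      (Or.inl ⟨by linarith, rfl, rfl⟩)
    rw [hab] at r
    rw [hn1'] at hE3 ⊢
    rw [hn2']
    rw [hRr] at hE2 hE3 ⊢
    have r2 := mul_nonneg (show (0 : ℝ) ≤ 7806976000000000000000000000000 by norm_num) r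
    simp only [Nat.cast_zero]
    clear hsep' hA' hB' hDr hD1' q1 q2 hnh hN' hV hVm hLam hx' hx hq hxr hLmI' hLf1 hLf2 hf1 hf2
      hf3 hN hlam hmu he hvl hvh hVW hsep bx by' hzi hzj hA hB e1 e2 e3 e4
    linarith

end Fine
end Pool.Agent.MP_abb58c_co
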