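import Pool.Agent.Lib.MP_abb58c_co.FineCheck
import Pool.Agent.Lib.MP_abb58c_co.FineV4
import Pool.Agent.Lib.MP_abb58c_co.FineTrigN

/-! MP_abb58c_co, FINE: soundness of the small procedures `dirK`, `relK`, `gK`, `rotK`, `vK` of the
checker (helper40) -/

set_option autoImplicit false

namespace Pool.Agent.MP_abb58c_co
namespace Fine

open Real

/-! ### directions -/

theorem condT {c r : Bool} (h : cond c r false = true) : c = true ∧ r = true := by
  cases c
  · exact absurd h (by simp)
  · exact ⟨rfl, h⟩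

theorem dirK_eq (bc bs tau : ℕ) (k : ℕ → ℕ → Bool) : dirK bc bs tau k =
    cond (Nat.ble ((tau - 100000000) + (100000000 - tau)) 30000000)
      (k ((bc * (trigN tau).1 + bs * 100000000 - bs * (trigN tau).2) / 953)
        ((bs * (trigN tau).1 + bc * (trigN tau).2 + (953 - bc) * 100000000) / 953)) false := by
  obtain ⟨u, hu⟩ : ∃ u, u = (tau - 100000000) + (100000000 - tau) := ⟨_, rfl⟩
  have e1 : (trigN tau).1 = trigC (u * u / 100000000)
      (u * u / 100000000 * (u * u / 100000000) / 100000000)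
      (u * u / 100000000 * (u * u / 100000000) / 100000000 * (u * u / 100000000) / 100000000) := by
    unfold trigN
    simp only [← hu]
  have e2 : (trigN tau).2 = if 100000000 ≤ tau then 100000000 + trigS u (u * u / 100000000)
      (u * u / 100000000 * (u * u / 100000000) / 100000000) else
      100000000 - trigS u (u * u / 100000000)
      (u * u / 100000000 * (u * u / 100000000) / 100000000) := by
    unfold trigN
    simp only [← hu]
  have e3 : (cond (Nat.ble 100000000 tau)
      (100000000 + trigS u (u * u / 100000000)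
        (u * u / 100000000 * (u * u / 100000000) / 100000000))
      (100000000 - trigS u (u * u / 100000000)
        (u * u / 100000000 * (u * u / 100000000) / 100000000))) = (trigN tau).2 := by
    rw [e2]
    by_cases h : 100000000 ≤ tau
    · rw [if_pos h, Nat.ble_eq_true_of_le h]; rfl
    · have : Nat.ble 100000000 tau = false := by
        rw [Bool.eq_false_iff]
        intro h'
        exact h (Nat.le_of_ble_eq_true h')
      rw [if_neg h, this]; rfl
  rw [← e3, e1, ← hu]
  have key : dirK bc bs tau k = (fun u : ℕ => cond (Nat.ble u 30000000)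
      (k ((bc * trigC (u * u / 100000000)
      (u * u / 100000000 * (u * u / 100000000) / 100000000)
      (u * u / 100000000 * (u * u / 100000000) / 100000000 * (u * u / 100000000) / 100000000) +
      bs * 100000000 - bs * (cond (Nat.ble 100000000 tau)
      (100000000 + trigS u (u * u / 100000000)
        (u * u / 100000000 * (u * u / 100000000) / 100000000))
      (100000000 - trigS u (u * u / 100000000)
        (u * u / 100000000 * (u * u / 100000000) / 100000000)))) / 953)
        ((bs * trigC (u * u / 100000000)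
      (u * u / 100000000 * (u * u / 100000000) / 100000000)
      (u * u / 100000000 * (u * u / 100000000) / 100000000 * (u * u / 100000000) / 100000000) +
      bc * (cond (Nat.ble 100000000 tau)
      (100000000 + trigS u (u * u / 100000000)
        (u * u / 100000000 * (u * u / 100000000) / 100000000))
      (100000000 - trigS u (u * u / 100000000)
        (u * u / 100000000 * (u * u / 100000000) / 100000000))) + (953 - bc) * 100000000) / 953))
        false) ((tau - 100000000) + (100000000 - tau)) := rfl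
  rw [key, ← hu]

theorem dirK_sound {b : Bool} {tau : ℕ} {k : ℕ → ℕ → Bool}
    (h : dirK (baseC b) (baseS b) tau k = true) :
    ∃ C S : ℕ, DirM (base b + ((tau : ℝ) - 100000000) / 100000000) (C : ℝ) ((S : ℝ) - 100000000) ∧
      k C S = true := by
  rw [dirK_eq] at h
  obtain ⟨h1, h2⟩ := condT h
  have hu := Nat.le_of_ble_eq_true h1
  have ht1 : 70000000 ≤ tau := by omega
  have ht2 : tau ≤ 130000000 := by omega
  obtain ⟨k1, k2⟩ := trigN_err ht1 ht2
  refine ⟨_, _, ?_, h2⟩
  have ht1' : (70000000 : ℝ) ≤ tau := by exact_mod_cast ht1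
  have ht2' : (tau : ℝ) ≤ 130000000 := by exact_mod_cast ht2
  obtain ⟨x, hx⟩ : ∃ x, x = ((tau : ℝ) - 100000000) / 100000000 := ⟨_, rfl⟩
  rw [← hx] at k1 k2 ⊢
  have hxa : |x| ≤ 0.3 := by
    rw [hx, abs_le]; constructor <;> norm_num <;> linarith
  cases b
  · have e1 : (baseC false * (trigN tau).1 + baseS false * 100000000 -
        baseS false * (trigN tau).2) / 953 = (trigN tau).1 := by
      simp only [baseC, baseS, Bool.false_eq_true, if_false]
      omega
    have e2 : (baseS false * (trigN tau).1 + baseC false * (trigN tau).2 +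
        (953 - baseC false) * 100000000) / 953 = (trigN tau).2 := by
      simp only [baseC, baseS, Bool.false_eq_true, if_false]
      omega
    rw [e1, e2]
    simp only [base, Bool.false_eq_true, if_false, zero_add]
    obtain ⟨a1, a2⟩ := abs_le.1 k1
    obtain ⟨a3, a4⟩ := abs_le.1 k2
    constructor
    · rw [abs_le]; constructor <;> linarith
    · rw [abs_le]; constructor <;> linarith
  · have hr := rotN_err cos_thb sin_thb hxa k1 k2
    have e1 : (baseC true * (trigN tau).1 + baseS true * 100000000 -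
        baseS true * (trigN tau).2) / 953 = (rotN (trigN tau).1 (trigN tau).2).1 := by
      simp only [baseC, baseS, if_true, rotN]
    have e2 : (baseS true * (trigN tau).1 + baseC true * (trigN tau).2 +
        (953 - baseC true) * 100000000) / 953 = (rotN (trigN tau).1 (trigN tau).2).2 := by
      simp only [baseC, baseS, if_true, rotN]
    rw [e1, e2]
    simp only [base, if_true]
    obtain ⟨a1, a2⟩ := abs_le.1 hr.1
    obtain ⟨a3, a4⟩ := abs_le.1 hr.2
    constructor
    · rw [abs_le]; constructor <;> linarith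
    · rw [abs_le]; constructor <;> linarith

/-! ### relative directions -/

/-- `(c, s) / M` approximates the direction of a relative angle -/
def RelM (r c s : ℝ) : Prop :=
  |cos r - c / 100000000| ≤ 0.00000034 ∧ |sin r - s / 100000000| ≤ 0.00000034

theorem relK_eq (Ci Si Cj Sj : ℕ) (k : ℕ → ℕ → Bool) : relK Ci Si Cj Sj k =
    k ((Ci * Cj + Si * Sj + 50000000000000000 - (Si + Sj) * 100000000) / 100000000)
      ((Sj * Ci + Cj * 100000000 + 40000000000000000 - (Ci * 100000000 + Cj * Si)) / 100000000) :=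
  rfl

/-- products of approximate values -/
theorem prod_err {a b A B : ℝ} (ha : |a| ≤ 1) (hA : |a - A| ≤ 0.00000008)
    (hb : |b| ≤ 1) (hB : |b - B| ≤ 0.00000008) : |a * b - A * B| ≤ 0.0000001601 := by
  have e : a * b - A * B = a * (b - B) + b * (a - A) - (a - A) * (b - B) := by ring
  rw [e]
  have h1 : |a * (b - B)| ≤ 1 * 0.00000008 := by
    rw [abs_mul]; exact mul_le_mul ha hB (abs_nonneg _) (by norm_num)
  have h2 : |b * (a - A)| ≤ 1 * 0.00000008 := by
    rw [abs_mul]; exact mul_le_mul hb hA (abs_nonneg _) (by norm_num)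
  have h3 : |(a - A) * (b - B)| ≤ 0.00000008 * 0.00000008 := by
    rw [abs_mul]; exact mul_le_mul hA hB (abs_nonneg _) (by norm_num)
  rw [abs_le] at h1 h2 h3 ⊢
  constructor
  · norm_num at *; linarith
  · norm_num at *; linarith

theorem relK_sound {th1 th2 : ℝ} {Ci Si Cj Sj : ℕ} (hi : DirM th1 (Ci : ℝ) ((Si : ℝ) - 100000000))
    (hj : DirM th2 (Cj : ℝ) ((Sj : ℝ) - 100000000)) {k : ℕ → ℕ → Bool}
    (h : relK Ci Si Cj Sj k = true) :
    ∃ c0 s0 : ℕ, RelM (th2 - th1) ((c0 : ℝ) - 400000000) ((s0 : ℝ) - 400000000) ∧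
      k c0 s0 = true := by
  rw [relK_eq] at h
  refine ⟨_, _, ?_, h⟩
  obtain ⟨hi1, hi2⟩ := hi
  obtain ⟨hj1, hj2⟩ := hj
  have ci := abs_cos_le_one th1
  have si := abs_sin_le_one th1
  have cj := abs_cos_le_one th2
  have sj := abs_sin_le_one th2
  have p1 := abs_le.1 (prod_err ci hi1 cj hj1)
  have p2 := abs_le.1 (prod_err si hi2 sj hj2)
  have p3 := abs_le.1 (prod_err ci hi1 sj hj2)
  have p4 := abs_le.1 (prod_err si hi2 cj hj1)
  have b1 : |cos th1 * cos th2| ≤ 1 := by
    rw [abs_mul]; exact mul_le_one₀ ci (abs_nonneg _) cj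
  have b2 : |sin th1 * sin th2| ≤ 1 := by
    rw [abs_mul]; exact mul_le_one₀ si (abs_nonneg _) sj
  have b3 : |cos th1 * sin th2| ≤ 1 := by
    rw [abs_mul]; exact mul_le_one₀ ci (abs_nonneg _) sj
  have b4 : |sin th1 * cos th2| ≤ 1 := by
    rw [abs_mul]; exact mul_le_one₀ si (abs_nonneg _) cj
  obtain ⟨c1, c2⟩ := abs_le.1 b1
  obtain ⟨c3, c4⟩ := abs_le.1 b2
  obtain ⟨c5, c6⟩ := abs_le.1 b3
  obtain ⟨c7, c8⟩ := abs_le.1 b4
  -- the two numerators
  have n1 : (Ci : ℝ) / 100000000 * ((Cj : ℝ) / 100000000) * 10000000000000000 = Ci * Cj := by ring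
  have n2 : ((Si : ℝ) - 100000000) / 100000000 * (((Sj : ℝ) - 100000000) / 100000000) *
      10000000000000000 = Si * Sj - (Si + Sj) * 100000000 + 10000000000000000 := by ring
  have n3 : (Ci : ℝ) / 100000000 * (((Sj : ℝ) - 100000000) / 100000000) * 10000000000000000 =
      Sj * Ci - Ci * 100000000 := by ring
  have n4 : ((Si : ℝ) - 100000000) / 100000000 * ((Cj : ℝ) / 100000000) * 10000000000000000 =
      Cj * Si - Cj * 100000000 := by ring
  have le1 : (Si + Sj) * 100000000 ≤ Ci * Cj + Si * Sj + 50000000000000000 := by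
    have : (((Si + Sj) * 100000000 : ℕ) : ℝ) ≤ ((Ci * Cj + Si * Sj + 50000000000000000 : ℕ) : ℝ) := by
      push_cast
      norm_num at *
      linarith
    exact_mod_cast this
  have le2 : Ci * 100000000 + Cj * Si ≤ Sj * Ci + Cj * 100000000 + 40000000000000000 := by
    have : ((Ci * 100000000 + Cj * Si : ℕ) : ℝ) ≤
        ((Sj * Ci + Cj * 100000000 + 40000000000000000 : ℕ) : ℝ) := by
      push_cast
      norm_num at *
      linarith
    exact_mod_cast this
  obtain ⟨q1, q2⟩ := div_bd (Ci * Cj + Si * Sj + 50000000000000000 - (Si + Sj) * 100000000)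
    100000000 (by norm_num)
  obtain ⟨q3, q4⟩ := div_bd (Sj * Ci + Cj * 100000000 + 40000000000000000 -
    (Ci * 100000000 + Cj * Si)) 100000000 (by norm_num)
  rw [Nat.cast_sub le1] at q1 q2
  rw [Nat.cast_sub le2] at q3 q4
  push_cast at q1 q2 q3 q4
  constructor
  · rw [cos_sub, abs_le]
    constructor
    · norm_num at *; linarith
    · norm_num at *; linarith
  · rw [sin_sub, abs_le]
    constructor
    · norm_num at *; linarith
    · norm_num at *; linarith

/-! ### the gradient of the half width -/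

theorem gK_eq (e1 e2 c0 s0 : ℕ) (k : ℕ → ℕ → ℕ → Bool) : gK e1 e2 c0 s0 k =
    cond (Nat.ble (400000000 * (e1 + e2) + 64 * s0) (e1 * c0 + e2 * s0 + 25600000000))
      (k ((e1 * c0 + e2 * s0 + 25600000000) - (400000000 * (e1 + e2) + 64 * s0))
        ((400000000 * e1 + e2 * c0 + 25600000000) - (e1 * s0 + 400000000 * e2 + 64 * c0))
        ((e1 * s0 + 400000000 * e2 + 64 * c0) - (400000000 * e1 + e2 * c0 + 25600000000)))
      false := rfl

theorem sub_sub_real (q m : ℕ) : ((q - m : ℕ) : ℝ) - ((m - q : ℕ) : ℝ) = (q : ℝ) - m := by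
  rcases Nat.le_total q m with h | h
  · rw [Nat.sub_eq_zero_of_le h, Nat.cast_sub h]; push_cast; ring
  · rw [Nat.sub_eq_zero_of_le h, Nat.cast_sub h]; push_cast; ring

theorem abs_sub_sub_real (q m : ℕ) :
    |((q - m : ℕ) : ℝ) - ((m - q : ℕ) : ℝ)| = ((q - m : ℕ) : ℝ) + ((m - q : ℕ) : ℝ) := by
  rcases Nat.le_total q m with h | h
  · rw [Nat.sub_eq_zero_of_le h]
    simp
  · rw [Nat.sub_eq_zero_of_le h]
    simp

theorem gK_sound {e1 e2 c0 s0 : ℕ} {k : ℕ → ℕ → ℕ → Bool} (h : gK e1 e2 c0 s0 k = true) :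
    ∃ g0 gp gn : ℕ,
      (g0 : ℝ) = e1 * ((c0 : ℝ) - 400000000) + ((e2 : ℝ) - 64) * ((s0 : ℝ) - 400000000) ∧
      (gp : ℝ) - gn = ((e2 : ℝ) - 64) * ((c0 : ℝ) - 400000000) - e1 * ((s0 : ℝ) - 400000000) ∧
      |(gp : ℝ) - gn| = gp + gn ∧ k g0 gp gn = true := by
  rw [gK_eq] at h
  obtain ⟨h1, h2⟩ := condT h
  have h3 := Nat.le_of_ble_eq_true h1
  refine ⟨_, _, _, ?_, ?_, ?_, h2⟩
  · rw [Nat.cast_sub h3]; push_cast; ring
  · rw [sub_sub_real]; push_cast; ring
  · exact abs_sub_sub_real _ _

/-! ### quarter turns -/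

theorem rotK_sound {th : ℝ} {C S kap : ℕ} (hd : DirM th (C : ℝ) ((S : ℝ) - 100000000))
    {k : ℕ → ℕ → ℕ → ℕ → Bool} (h : rotK kap C S k = true) :
    ∃ Pp Pn Qp Qn : ℕ, kap < 4 ∧
      DirM (th + kap * (π / 2)) ((Pp : ℝ) - Pn) ((Qp : ℝ) - Qn) ∧ k Pp Pn Qp Qn = true := by
  unfold rotK at h
  rcases Nat.lt_or_ge kap 4 with hk | hk
  · have hcase : kap = 0 ∨ kap = 1 ∨ kap = 2 ∨ kap = 3 := by omega
    rcases hcase with rfl | rfl | rfl | rfl
    · exact ⟨C, 0, S, 100000000, hk, hd.rot (Or.inl ⟨rfl, by push_cast; ring, by push_cast; ring⟩), h⟩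
    · exact ⟨100000000, S, C, 0, hk, hd.rot (Or.inr (Or.inl ⟨rfl, by push_cast; ring,
        by push_cast; ring⟩)), h⟩
    · exact ⟨0, C, 100000000, S, hk, hd.rot (Or.inr (Or.inr (Or.inl ⟨rfl, by push_cast; ring,
        by push_cast; ring⟩))), h⟩
    · exact ⟨S, 100000000, 0, C, hk, hd.rot (Or.inr (Or.inr (Or.inr ⟨rfl, by push_cast; ring,
        by push_cast; ring⟩))), h⟩
  · exfalso
    have f0 : Nat.beq kap 0 = false := by
      rw [Bool.eq_false_iff]; intro h'; have := Nat.eq_of_beq_eq_true h'; omega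
    have f1 : Nat.beq kap 1 = false := by
      rw [Bool.eq_false_iff]; intro h'; have := Nat.eq_of_beq_eq_true h'; omega
    have f2 : Nat.beq kap 2 = false := by
      rw [Bool.eq_false_iff]; intro h'; have := Nat.eq_of_beq_eq_true h'; omega
    have f3 : Nat.beq kap 3 = false := by
      rw [Bool.eq_false_iff]; intro h'; have := Nat.eq_of_beq_eq_true h'; omega
    rw [f0, f1, f2, f3] at h
    simp at h

/-! ### the range of the lateral form -/

theorem vK_eq (MLp MLn MHp MHn : ℕ) (k : ℕ → ℕ → ℕ → Bool) : vK MLp MLn MHp MHn k =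
    cond (Nat.ble MLn (MLp + 1180591620717411303424))
      (k ((MLp + 1180591620717411303424 - MLn) / 1073741824 +
          ((MHp + 1180591620717411303424 - MHn) / 1073741824 + 1))
        (((MHp + 1180591620717411303424 - MHn) / 1073741824 + 1) -
          (MLp + 1180591620717411303424 - MLn) / 1073741824)
        (cond (Nat.ble (((MHp + 1180591620717411303424 - MHn) / 1073741824 + 1) - 1099511627776)
          (1099511627776 - (MLp + 1180591620717411303424 - MLn) / 1073741824))
          (1099511627776 - (MLp + 1180591620717411303424 - MLn) / 1073741824)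
          (((MHp + 1180591620717411303424 - MHn) / 1073741824 + 1) - 1099511627776))) false := rfl

theorem cond_ble_max (a b : ℕ) : (cond (Nat.ble a b) b a) = max a b := by
  cases hb : Nat.ble a b
  · have : ¬ a ≤ b := by
      intro h'
      rw [Nat.ble_eq_true_of_le h'] at hb
      exact absurd hb (by simp)
    show a = max a b
    rw [max_eq_left (by omega)]
  · show b = max a b
    rw [max_eq_right (Nat.le_of_ble_eq_true hb)]

theorem vK_aux {a b c d : ℕ} {MF : ℝ} (A B : ℕ) (hB : 0 < B) (h1 : (a : ℝ) - b ≤ MF)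
    (h2 : MF ≤ (c : ℝ) - d) (h5 : b ≤ a + A * B) :
    ((((a + A * B - b) / B : ℕ) : ℝ) - A) * B ≤ MF ∧
    MF ≤ ((((c + A * B - d) / B + 1 : ℕ) : ℝ) - A) * B := by
  obtain ⟨q1, -⟩ := div_bd (a + A * B - b) B hB
  obtain ⟨-, q4⟩ := div_bd (c + A * B - d) B hB
  rw [Nat.cast_sub h5] at q1
  have q5 : (c : ℝ) + A * B - d ≤ ((c + A * B - d : ℕ) : ℝ) := by
    rcases Nat.le_total d (c + A * B) with h6 | h6
    · rw [Nat.cast_sub h6]; push_cast; linarith
    · rw [Nat.sub_eq_zero_of_le h6]
      have : ((c + A * B : ℕ) : ℝ) ≤ d := by exact_mod_cast h6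
      push_cast at this ⊢
      linarith
  push_cast at q1 q4 ⊢
  constructor
  · nlinarith
  · nlinarith

theorem vK_sound {MLp MLn MHp MHn : ℕ} {MF : ℝ} (h1 : (MLp : ℝ) - MLn ≤ MF)
    (h2 : MF ≤ (MHp : ℝ) - MHn) {k : ℕ → ℕ → ℕ → Bool} (h : vK MLp MLn MHp MHn k = true) :
    ∃ vl vh vs w2 vm : ℕ, ((vl : ℝ) - 1099511627776) * 1073741824 ≤ MF ∧
      MF ≤ ((vh : ℝ) - 1099511627776) * 1073741824 ∧ vs = vl + vh ∧ (w2 : ℝ) = vh - vl ∧
      vh ≤ vm + 1099511627776 ∧ 1099511627776 ≤ vm + vl ∧ k vs w2 vm = true := by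
  rw [vK_eq, cond_ble_max] at h
  obtain ⟨h3, h4⟩ := condT h
  have h5 := Nat.le_of_ble_eq_true h3
  have e0 : 1180591620717411303424 = 1099511627776 * 1073741824 := by norm_num
  rw [e0] at h4 h5
  obtain ⟨a1, a2⟩ := vK_aux 1099511627776 1073741824 (by norm_num) h1 h2 h5
  obtain ⟨vl, hvl⟩ : ∃ vl, vl = (MLp + 1099511627776 * 1073741824 - MLn) / 1073741824 := ⟨_, rfl⟩
  obtain ⟨vh, hvh⟩ : ∃ vh, vh = (MHp + 1099511627776 * 1073741824 - MHn) / 1073741824 + 1 :=
    ⟨_, rfl⟩
  rw [← hvl] at a1 h4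
  rw [← hvh] at a2 h4
  have a1' : ((vl : ℝ) - 1099511627776) * 1073741824 ≤ MF := by exact_mod_cast a1
  have a2' : MF ≤ ((vh : ℝ) - 1099511627776) * 1073741824 := by exact_mod_cast a2
  have hle : vl ≤ vh := by
    have : (vl : ℝ) ≤ vh := by linarith
    exact_mod_cast this
  refine ⟨vl, vh, vl + vh, vh - vl, max (vh - 1099511627776) (1099511627776 - vl), a1', a2', rfl,
    Nat.cast_sub hle, ?_, ?_, h4⟩
  · have := le_max_left (vh - 1099511627776) (1099511627776 - vl)
    omega
  · have := le_max_right (vh - 1099511627776) (1099511627776 - vl)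
    omega

end Fine
end Pool.Agent.MP_abb58c_co
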