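import Pool.Agent.Lib.MP_abb58c_co.FineZv
import Pool.Agent.Lib.MP_abb58c_co.FineV4b
import Pool.Agent.Lib.MP_abb58c_co.FinePack
import Pool.Agent.Lib.MP_abb58c_co.FineDirK

/-! MP_abb58c_co, FINE: soundness of the wall rows `wallK` (helper40) -/

set_option autoImplicit false

namespace Pool.Agent.MP_abb58c_co
namespace Fine

open Real

/-- the coordinates of the centre in the local variables -/
theorem wall_xy (w : Wd) {i : ℕ} (hi : i ≤ 10) :
    953 * 100000000 * w.x (lab i) = (baseC (tiltS (lab i)) : ℝ) * zv w (3 * i) -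
      (baseS (tiltS (lab i)) : ℝ) * (zv w (3 * i + 1) - vb (tiltS (lab i))) ∧
    953 * 100000000 * w.y (lab i) = (baseS (tiltS (lab i)) : ℝ) * zv w (3 * i) +
      (baseC (tiltS (lab i)) : ℝ) * (zv w (3 * i + 1) - vb (tiltS (lab i))) := by
  rw [wzv_x w hi, wzv_y w hi]
  have h1 := lin_UV w (tiltS (lab i)) (lab i) 1 0
  have h2 := lin_UV w (tiltS (lab i)) (lab i) 0 1
  cases hb : tiltS (lab i)
  · rw [hb] at h1 h2
    simp only [Bool.false_eq_true, if_false] at h1 h2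
    simp only [baseC, baseS, vb, Bool.false_eq_true, if_false] at h1 h2 ⊢
    push_cast at h1 h2 ⊢
    constructor <;> linarith
  · rw [hb] at h1 h2
    simp only [if_true] at h1 h2
    simp only [baseC, baseS, if_true, vb] at h1 h2 ⊢
    push_cast at h1 h2 ⊢
    constructor <;> linarith

/-- the packed row -/
theorem wall_pack {w : Wd} {i xp xn yp yn tp tn cp cn : ℕ} {k : ℕ → Bool} (hi : i ≤ 10)
    (h : (fldK xp xn fun fx => fldK yp yn fun fy => fldK tp tn fun ft =>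
      cstK cp cn fun fc => k (rowP1 i (grpK fx fy ft) fc)) = true)
    (h0 : 0 ≤ ((xp : ℝ) - xn) * zv w (3 * i) + ((yp : ℝ) - yn) * zv w (3 * i + 1) +
      ((tp : ℝ) - tn) * zv w (3 * i + 2) + ((cp : ℝ) - cn)) :
    ∃ P, RowOK (zv w) P ∧ k P = true := by
  obtain ⟨fx, ex, bx, h⟩ := fldK_ok h
  obtain ⟨fy, ey, by', h⟩ := fldK_ok h
  obtain ⟨ft, et, bt, h⟩ := fldK_ok h
  obtain ⟨fc, ec, bc, h⟩ := cstK_ok h
  refine ⟨_, rowP1_ok hi bx by' bt bc ?_, h⟩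
  rw [ex, ey, et, wzv_33]
  linarith

theorem specWall (hT : SpecTyp) (hG : SpecGetL) : SpecWall := by
  intro w hw LO HI hbox i sd e1 e2 k h
  unfold wallK at h
  obtain ⟨g1, h⟩ := condT h
  obtain ⟨g2, h⟩ := condT h
  obtain ⟨g3, h⟩ := condT h
  have hi := Nat.le_of_ble_eq_true g1
  have he1 := Nat.le_of_ble_eq_true g2
  have he2 := Nat.le_of_ble_eq_true g3
  have h := hT i _ hi h
  obtain ⟨lx, hx, ly, hy, lt, ht, -, -, ⟨hlt, hht⟩, h⟩ := hG _ LO HI hbox i _ hi h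
  obtain ⟨b, hb⟩ : ∃ b, b = tiltS (lab i) := ⟨_, rfl⟩
  have hxy := wall_xy w hi
  have hzt := wzv_t w hi
  rw [← hb] at h hxy hzt
  obtain ⟨t, htt⟩ : ∃ t, t = (lt + ht) >>> 1 := ⟨_, rfl⟩
  obtain ⟨A, hAA⟩ : ∃ A, A = ht - t := ⟨_, rfl⟩
  have hA : |zv w (3 * i + 2) - t| ≤ A := by
    rw [hAA, htt]; exact half_bd hlt hht
  simp only [nadd, nsub, nmul, nshr, ndiv] at h
  rw [← htt, ← hAA] at h
  obtain ⟨C, S, hd, h⟩ := dirK_sound h
  obtain ⟨g4, h⟩ := condT h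
  have hle := Nat.le_of_ble_eq_true g4
  obtain ⟨h0, hh0⟩ : ∃ h0, h0 = (e1 * C + e2 * S + 6400000000) - (64 * S + 100000000 * e2) :=
    ⟨_, rfl⟩
  obtain ⟨hp, hhp⟩ : ∃ hp, hp = (100000000 * e1 + e2 * C) - (e1 * S + 64 * C) := ⟨_, rfl⟩
  obtain ⟨hn, hhn⟩ : ∃ hn, hn = (e1 * S + 64 * C) - (100000000 * e1 + e2 * C) := ⟨_, rfl⟩
  rw [← hh0, ← hhp, ← hhn] at h
  have r0 : (h0 : ℝ) = e1 * (C : ℝ) + ((e2 : ℝ) - 64) * ((S : ℝ) - 100000000) := by
    rw [hh0, Nat.cast_sub hle]; push_cast; ring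
  have r1 : (hp : ℝ) - hn = ((e2 : ℝ) - 64) * (C : ℝ) - e1 * ((S : ℝ) - 100000000) := by
    rw [hhp, hhn, sub_sub_real]; push_cast; ring
  have hK := wall_int_aux (w := w) (i := lab i) hd hzt hA he1 he2 r0 r1
  obtain ⟨E, hE⟩ : ∃ E, E = 30496 * (hp + hn) * (A * A * A) / 300000000 := ⟨_, rfl⟩
  have hE' : 30496 * (hp + hn) * (A * A * A) / 300000000 = E := hE.symm
  rw [hE'] at hK h
  obtain ⟨c0p, hc0p⟩ : ∃ c0p, c0p = 30496 * h0 * (A * A) + E + 6099200000000 * hp * t +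
    1561395200000000000000001 := ⟨_, rfl⟩
  obtain ⟨c0n, hc0n⟩ : ∃ c0n, c0n = 609920000000000000000 * h0 + 6099200000000 * hn * t :=
    ⟨_, rfl⟩
  rw [← hc0p, ← hc0n] at h
  obtain ⟨z0, hz0⟩ : ∃ z0, z0 = zv w (3 * i) := ⟨_, rfl⟩
  obtain ⟨z1, hz1⟩ : ∃ z1, z1 = zv w (3 * i + 1) := ⟨_, rfl⟩
  obtain ⟨z2, hz2⟩ : ∃ z2, z2 = zv w (3 * i + 2) := ⟨_, rfl⟩
  rw [← hz2] at hK
  rw [← hz0, ← hz1] at hxy
  have c0p' : (c0p : ℝ) = 30496 * h0 * (A * A) + E + 6099200000000 * hp * t +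
      1561395200000000000000001 := by rw [hc0p]; push_cast; ring
  have c0n' : (c0n : ℝ) = 609920000000000000000 * h0 + 6099200000000 * hn * t := by
    rw [hc0n]; push_cast; ring
  have hK' : (c0n : ℝ) - c0p + 6099200000000 * ((hp : ℝ) - hn) * z2 ≤
      7806976000000000000000000000000 * hh (w.t (lab i)) := by
    refine le_trans (le_of_eq ?_) hK
    rw [c0p', c0n']
    ring
  obtain ⟨ex, ey⟩ := hxy
  rcases condE h with ⟨-, h⟩ | ⟨-, h⟩
  · -- left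
    have hl := wall_left hw hK'
    rw [ex] at hl
    refine wall_pack hi h ?_
    rw [← hz0, ← hz1, ← hz2]
    push_cast
    linarith
  rcases condE h with ⟨-, h⟩ | ⟨-, h⟩
  · -- right
    have hl := wall_right hw hK'
    rw [ex] at hl
    refine wall_pack hi h ?_
    rw [← hz0, ← hz1, ← hz2]
    push_cast
    linarith
  rcases condE h with ⟨-, h⟩ | ⟨-, h⟩
  · -- bottom
    have hl := wall_bot hw hK'
    rw [ey] at hl
    refine wall_pack hi h ?_
    rw [← hz0, ← hz1, ← hz2]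
    push_cast
    linarith
  rcases condE h with ⟨-, h⟩ | ⟨-, h⟩
  · -- top
    have hl := wall_top hw hK'
    rw [ey] at hl
    refine wall_pack hi h ?_
    rw [← hz0, ← hz1, ← hz2]
    push_cast
    linarith
  · exact absurd h (by simp)

end Fine
end Pool.Agent.MP_abb58c_co
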