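import Pool.Agent.Lib.MP_abb58c_co.FineDirK
import Pool.Agent.Lib.MP_abb58c_co.FineSem2
import Pool.Agent.Lib.MP_abb58c_co.FineLin
import Pool.Agent.Lib.MP_abb58c_co.FineOwn
import Pool.Agent.Lib.MP_abb58c_co.FineWall

/-! MP_abb58c_co, FINE: the parts of the checker without hypotheses -/

namespace Pool.Agent.MP_abb58c_co
namespace Fine

open Real

theorem specDirK : SpecDirK := fun _ _ _ h => dirK_sound h

theorem specRelK : SpecRelK := by
  intro th1 th2 Ci Si Cj Sj k h1 h2 h
  obtain ⟨c0, s0, h3, h4⟩ := relK_sound h1 h2 h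
  exact ⟨c0, s0, h3.1, h3.2, h4⟩

theorem specGK : SpecGK := by
  intro e1 e2 c0 s0 k h
  obtain ⟨g0, gp, gn, h1, h2, -, h3⟩ := gK_sound h
  exact ⟨g0, gp, gn, h1, h2, h3⟩

theorem specRotK : SpecRotK := fun _ _ _ _ _ h1 h => rotK_sound h1 h

theorem specVK : SpecVK := fun _ _ _ _ _ _ h1 h2 h => vK_sound h1 h2 h

theorem specOwn' : SpecOwn :=
  specOwn specTyp specGetL specCoef specBnd specDirK specRelK specGK specRotK specVK

theorem specExcl' : SpecExcl := specExcl specOwn'

theorem specWall' : SpecWall := specWall specTyp specGetL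

end Fine
end Pool.Agent.MP_abb58c_co
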