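import Pool.Agent.Lib.MP_abb58c_co.FineSem2
import Pool.Agent.Lib.MP_abb58c_co.FinePack

/-! MP_abb58c_co, FINE: soundness of `row1K` (helper14) -/

set_option autoImplicit false

namespace Pool.Agent.MP_abb58c_co
namespace Fine
namespace Row1M

open Real

theorem ndiv (a b : ℕ) : Nat.div a b = a / b := rfl

theorem zv33 (w : Wd) : zv w 33 = 1073741824 := by
  unfold zv
  rw [if_pos rfl]

theorem maxK_cases (a b : ℕ) : maxK a b = a ∨ maxK a b = b ∧ a ≤ b := by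
  unfold maxK
  cases h : Nat.ble a b
  · exact Or.inl rfl
  · exact Or.inr ⟨rfl, ble_le h⟩

theorem absK_sq (a b : ℕ) : ((absK a b : ℕ) : ℝ) * ((absK a b : ℕ) : ℝ) = ((a : ℝ) - b) ^ 2 := by
  unfold absK
  simp only [nadd, nsub]
  rcases Nat.le_total a b with h | h
  · rw [Nat.sub_eq_zero_of_le h, zero_add, Nat.cast_sub h]
    ring
  · rw [Nat.sub_eq_zero_of_le h, add_zero, Nat.cast_sub h]
    ring

/-- the lower bound for the longitudinal form -/
theorem nu_ok {NLp NLn nu X : ℕ} {NF : ℝ} (h1 : (NLp : ℝ) - NLn ≤ NF)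
    (h : maxK ((NLp - NLn) * 1024 / 9530000000000000000) (1024 - (X + 2)) = nu) (h0 : 0 < nu) :
    (nu : ℝ) / 1024 ≤ NF / 9530000000000000000 ∨ nu + (X + 2) ≤ 1024 := by
  rcases maxK_cases ((NLp - NLn) * 1024 / 9530000000000000000) (1024 - (X + 2)) with h2 | ⟨h2, -⟩
  · left
    rw [h] at h2
    have h3 : nu * 9530000000000000000 ≤ (NLp - NLn) * 1024 := by
      rw [h2]
      exact Nat.div_mul_le_self _ _
    have h4 : NLn ≤ NLp := by omega
    have h5 : (nu : ℝ) * 9530000000000000000 ≤ ((NLp : ℝ) - NLn) * 1024 := by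
      rw [← Nat.cast_sub h4]
      exact_mod_cast h3
    rw [div_le_div_iff₀ (by norm_num) (by norm_num)]
    nlinarith
  · right
    rw [h] at h2
    omega

end Row1M

open Row1M Real

set_option maxHeartbeats 4000000 in
theorem specRow1 (ho : SpecOwn) : SpecRow1 := by
  intro w hw LO HI hbox i j o kap e1 e2 lam a0 k hsep h
  unfold row1K at h
  obtain ⟨hij, hj, he1, he2, hkap, A, Ap, ta, tb, g0, gsp, gsn, xpi, xni, ypi, yni, xpj, xnj, ypj,
    ynj, kNp, kNn, NLp, NLn, NHp, NHn, kMp, kMn, vs, w2, vm, vl, vh, a, b, bo, bp', sig, P, Q, r0,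
    c0, s0, NF, MF, hab, hown, hg0, hg1, hNF, hMF, hNL, hNH, hvl, hvh, hvs, hw2, hvm1, hvm2, h⟩ :=
    ho w hw LO HI hbox i j o kap e1 e2 _ h
  beta_reduce at h
  obtain ⟨h1, h⟩ := cond_true h
  obtain ⟨h2, h⟩ := cond_true h
  have hA1 := ble_le h1
  have hlam := ble_le h2
  generalize hnu : maxK (Nat.div (Nat.mul (Nat.sub NLp NLn) 1024) 9530000000000000000)
              (Nat.sub 1024
                (Nat.add
                  (Nat.div (Nat.mul (Nat.mul A vm) 1099511627776) 953000000000000000000000000) 2))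
    = nu at h
  generalize hw2p : Nat.add (Nat.add w2 (Nat.shiftRight (Nat.mul (Nat.mul 953 g0) Ap) 36)) 1 =
    w2p at h
  have hsgn := @sgn_abs lam
  generalize absK lam 64 = La at h hsgn
  generalize Nat.ble 64 lam = s at h hsgn
  have haa := absK_sq a0 1073741824
  generalize absK a0 1073741824 = aa at h haa
  beta_reduce at h
  obtain ⟨h3, h⟩ := cond_true h
  obtain ⟨h4, h⟩ := cond_true h
  have hnu0 := blt_lt h3
  have hk := ble_le h4
  generalize hk0 : Nat.sub (Nat.mul nu 100000000) (Nat.mul 8 g0) = k0 at h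
  generalize hl : Nat.mul (Nat.mul 128 La) A = l at h
  beta_reduce at h
  obtain ⟨ap, an, hap, h⟩ := sgK_ok h
  beta_reduce at h
  obtain ⟨bp, bn, hbp, h⟩ := sgK_ok h
  beta_reduce at h
  obtain ⟨cp, cn, hcp, h⟩ := lcK_ok h
  beta_reduce at h
  obtain ⟨dp, dn, hdp, h⟩ := lcK_ok h
  beta_reduce at h
  obtain ⟨xjp, xjn, hxj, h⟩ := lcK_ok h
  beta_reduce at h
  obtain ⟨yjp, yjn, hyj, h⟩ := lcK_ok h
  beta_reduce at h
  obtain ⟨xip, xin, hxi, h⟩ := lcK_ok h
  beta_reduce at h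
  obtain ⟨yip, yin, hyi, h⟩ := lcK_ok h
  beta_reduce at h
  obtain ⟨fxi, hfxi, lfxi, h⟩ := fldK_ok h
  beta_reduce at h
  obtain ⟨fyi, hfyi, lfyi, h⟩ := fldK_ok h
  beta_reduce at h
  obtain ⟨fxj, hfxj, lfxj, h⟩ := fldK_ok h
  beta_reduce at h
  obtain ⟨fyj, hfyj, lfyj, h⟩ := fldK_ok h
  beta_reduce at h
  obtain ⟨fa, hfa, lfa, h⟩ := fldK_ok h
  beta_reduce at h
  obtain ⟨fb, hfb, lfb, h⟩ := fldK_ok h
  beta_reduce at h
  obtain ⟨fc, hfc, lfc, h⟩ := cstK_ok h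
  beta_reduce at h
  -- the alternative in the frame of the owner
  have hsep' : Alt (w.t (lab a) + kap * (π / 2)) (w.t (lab b) - w.t (lab a))
      (w.x (lab j) - w.x (lab i)) (w.y (lab j) - w.y (lab i)) := by
    rcases hsep with ⟨h5, h6⟩ | ⟨h5, h6⟩
    · rcases hab with ⟨_, ha, hb⟩ | ⟨h7, _, _⟩
      · rw [ha, hb]; exact h6
      · omega
    · rcases hab with ⟨h7, _, _⟩ | ⟨_, ha, hb⟩
      · omega
      · rw [ha, hb]; exact h6
  have r := R1_int hw hown hA1 hsep' hvl hvh hvs hw2 hvm1 hvm2 (lam := lam) (a0 := a0) he1 he2 hlam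
    hg0 hg1 (nu_ok hNL hnu hnu0) hnu0 hk hk0.symm (w2p := w2p) (by
      rw [← hw2p]
      simp only [nadd, nmul, nshr]
      rw [Nat.shiftRight_eq_div_pow])
  simp only [nadd, nmul, nsub, ndiv] at hap hbp hcp hdp hxj hyj hxi hyi hfc hl
  obtain ⟨E1, hE1⟩ : ∃ E1, E1 = A * A * A * (2 * vm + 1) * 2199023255552 / 30000000000000000 :=
    ⟨_, rfl⟩
  obtain ⟨E2, hE2⟩ : ∃ E2, E2 = 953 * nu * (A * A * (A * A)) / 300000000 := ⟨_, rfl⟩
  obtain ⟨E3, hE3⟩ : ∃ E3, E3 =
    30496 * (gsp + gsn) * ((A + Ap) * (A + Ap) * (A + Ap)) / 300000000 := ⟨_, rfl⟩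
  rw [← hE1, ← hE2, ← hE3] at r hcp
  push_cast at hap hbp hcp hdp hxj hyj hxi hyi hfc haa
  have hl' : (l : ℝ) = 128 * La * A := by rw [← hl]; push_cast; ring
  have K : 0 ≤ ((xip : ℝ) - xin) * zv w (3 * i) + ((yip : ℝ) - yin) * zv w (3 * i + 1) +
      ((xjp : ℝ) - xjn) * zv w (3 * j) + ((yjp : ℝ) - yjn) * zv w (3 * j + 1) +
      ((ap : ℝ) - an) * zv w (3 * a + 2) + ((bp : ℝ) - bn) * zv w (3 * b + 2) +
      ((fc : ℝ) - 2 ^ 79) * 1073741824 := by
    have eA : (ap : ℝ) - an = 4398046511104 * ((vs : ℝ) - 2199023255552) -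
        7624 * k0 * ((a0 : ℝ) - 1073741824) + 6099200000000 * ((gsp : ℝ) - gsn) +
        68719476736 * ((lam : ℝ) - 64) * w2p := by
      linear_combination hap + 68719476736 * (w2p : ℝ) * hsgn
    have eB : (bp : ℝ) - bn = 953 * g0 * ((lam : ℝ) - 64) * A -
        6099200000000 * ((gsp : ℝ) - gsn) := by
      linear_combination hbp + 953 * (g0 : ℝ) * A * hsgn
    have exj : (xjp : ℝ) - xjn = 819200000000 * ((xpj : ℝ) - xnj) +
        128 * ((lam : ℝ) - 64) * A * ((ypj : ℝ) - ynj) := by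
      rw [hxj, hl']; linear_combination 128 * (A : ℝ) * ((ypj : ℝ) - ynj) * hsgn
    have eyj : (yjp : ℝ) - yjn = 819200000000 * ((ypj : ℝ) - ynj) +
        128 * ((lam : ℝ) - 64) * A * ((xnj : ℝ) - xpj) := by
      rw [hyj, hl']; linear_combination 128 * (A : ℝ) * ((xnj : ℝ) - xpj) * hsgn
    have exi : (xip : ℝ) - xin = 819200000000 * ((xni : ℝ) - xpi) +
        128 * ((lam : ℝ) - 64) * A * ((yni : ℝ) - ypi) := by
      rw [hxi, hl']; linear_combination 128 * (A : ℝ) * ((yni : ℝ) - ypi) * hsgn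
    have eyi : (yip : ℝ) - yin = 819200000000 * ((yni : ℝ) - ypi) +
        128 * ((lam : ℝ) - 64) * A * ((xpi : ℝ) - xni) := by
      rw [hyi, hl']; linear_combination 128 * (A : ℝ) * ((xpi : ℝ) - xni) * hsgn
    have ed : (dp : ℝ) - dn = 819200000000 * ((kNp : ℝ) - kNn) +
        128 * ((lam : ℝ) - 64) * A * ((kMn : ℝ) - kMp) := by
      rw [hdp, hl']; linear_combination 128 * (A : ℝ) * ((kMn : ℝ) - kMp) * hsgn
    have ec : (cp : ℝ) - cn = 4398046511104 * A * w2p + 3812 * k0 * ((a0 : ℝ) - 1073741824) ^ 2 +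
        30496 * g0 * (Ap * Ap) + E1 + E2 + E3 +
        15613952000000000000000003 - 3903488000000000000000000000000 -
        609920000000000000000 * g0 +
        68719476736 * ((lam : ℝ) - 64) * A * ((vs : ℝ) - 2199023255552) := by
      rw [hcp, hl']
      linear_combination 68719476736 * (A : ℝ) * ((vs : ℝ) - 2199023255552) * hsgn +
        3812 * (k0 : ℝ) * haa
    rw [hNF, hMF] at r
    linear_combination r + hfc - zv w (3 * i) * exi - zv w (3 * i + 1) * eyi -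
      zv w (3 * j) * exj - zv w (3 * j + 1) * eyj - (zv w (3 * a + 2) - ta) * eA -
      (zv w (3 * b + 2) - tb) * eB - ec - ed
  rcases hab with ⟨ho0, ha, hb⟩ | ⟨ho1, ha, hb⟩
  · subst ho0 ha hb
    refine ⟨_, ?_, h⟩
    refine rowP_ok hij hj lfxi lfyi lfa lfxj lfyj lfb lfc ?_
    rw [hfxi, hfyi, hfxj, hfyj, hfa, hfb, zv33]
    linarith
  · subst ho1 ha hb
    refine ⟨_, ?_, h⟩
    refine rowP_ok hij hj lfxi lfyi lfb lfxj lfyj lfa lfc ?_
    rw [hfxi, hfyi, hfxj, hfyj, hfa, hfb, zv33]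
    linarith

end Fine
end Pool.Agent.MP_abb58c_co
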