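import Pool.Agent.Lib.MP_abb58c_co.FineZv
import Pool.Agent.Lib.MP_abb58c_co.FinePack
import Pool.Agent.Lib.MP_abb58c_co.FineDirK

/-! MP_abb58c_co, FINE: soundness of `row3K` (helper57, beginning by helper14) -/

set_option autoImplicit false
set_option linter.unusedVariables false

namespace Pool.Agent.MP_abb58c_co
namespace Fine
namespace Row3M

open Real

/-! ### `row3K` cut into steps -/

/-- the packed row -/
def s10 (i j e a0 : ℕ) (k : ℕ → Bool) (xp xn yp yn vs w2 vm ti tj A B gp gn R D x aa n1 n2 l : ℕ)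
    (s : Bool) (ap an bp bn : ℕ) : Bool :=
  lcK s 1 (Nat.mul 536870912 l) (Nat.add (Nat.add (Nat.add (Nat.add (Nat.add (Nat.add (Nat.add (Nat.add (Nat.add (Nat.mul (Nat.mul 2199023255552 R) w2) (Nat.mul 97587200000000
    (Nat.mul (Nat.add gp gn) (Nat.add gp gn)))) (Nat.mul 390348800000000 (Nat.mul A B))) (Nat.mul 95300000000 (Nat.add (Nat.mul n1 (Nat.mul aa aa)) (Nat.mul n2
    (Nat.mul R R))))) (Nat.mul 609920000000000000000 (Nat.add (Nat.mul e gn) (Nat.mul 64 gp)))) (Nat.mul 37226562500000000 (Nat.mul x D))) (Nat.div (Nat.mul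
    (Nat.mul 7624 (absK e 64)) (Nat.mul (Nat.mul D D) D)) 3)) (Nat.div (Nat.mul (Nat.mul (Nat.mul (Nat.mul R R) R) vm) 549755813888) 30000000000000000)) (Nat.div
    (Nat.mul (Nat.mul (Nat.add 1024 n1) 953) (Nat.mul (Nat.mul R R) (Nat.mul R R))) 4800000000)) 7806976000000000000000003) (Nat.add
    7806976000000000000000000000000 (Nat.mul 609920000000000000000 (Nat.add (Nat.mul e gp) (Nat.mul 64 gn)))) vs 2199023255552 fun cp cn => lcK s 819200000000 l xp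
    xn yp yn fun xjp xjn => lcK s 819200000000 l yp yn xn xp fun yjp yjn => fldK xjn xjp fun fxi => fldK yjn yjp fun fyi => fldK xjp xjn fun fxj => fldK yjp yjn
    fun fyj => fldK ap an fun fa => fldK bp bn fun fb => cstK (Nat.add (Nat.add cp (Nat.mul an ti)) (Nat.mul bn tj)) (Nat.add (Nat.add cn (Nat.mul ap ti)) (Nat.mul
    bp tj)) fun fc => k (rowP i j (grpK fxi fyi fa) (grpK fxj fyj fb) fc)

def s9 (i j e mu a0 : ℕ) (k : ℕ → Bool) (xp xn yp yn vs w2 vm ti tj A B gp gn R D x aa n1 n2 l : ℕ)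
    (s : Bool) (zp zn : ℕ) : Bool :=
  s10 i j e a0 k xp xn yp yn vs w2 vm ti tj A B gp gn R D x aa n1 n2 l s
    (Nat.add (Nat.add (Nat.add zp (Nat.mul 6099200000000 (Nat.mul B mu))) (Nat.mul
    195174400000000 gn)) (Nat.mul 609920000000000000000 e)) (Nat.add (Nat.add (Nat.add zn (Nat.mul 390348800000000 B)) (Nat.mul 195174400000000 gp))
    39034880000000000000000) (Nat.add (Nat.add (Nat.add zp (Nat.mul 6099200000000 (Nat.mul A mu))) (Nat.mul 195174400000000 gp)) 39034880000000000000000) (Nat.add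
    (Nat.add (Nat.add zn (Nat.mul 390348800000000 A)) (Nat.mul 195174400000000 gn)) (Nat.mul 609920000000000000000 e))

def s8 (i j e mu a0 : ℕ) (k : ℕ → Bool) (xp xn yp yn vs w2 vm ti tj A B gp gn R D x La aa : ℕ)
    (s : Bool) (n1 n2 l : ℕ) : Bool :=
  sgK s (Nat.add (Nat.mul 2199023255552 vs) (Nat.mul 204655191654400000000 n1)) (Nat.add
    4835703278458516698824704 (Nat.mul (Nat.mul 190600000000 a0) n1)) (Nat.mul (Nat.mul 34359738368 La) w2)
    fun zp zn => s9 i j e mu a0 k xp xn yp yn vs w2 vm ti tj A B gp gn R D x aa n1 n2 l s zp zn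

def s7 (i j e mu a0 : ℕ) (k : ℕ → Bool) (xp xn yp yn vs w2 vm ti tj A B gp gn R D x La aa : ℕ)
    (s : Bool) (nu : ℕ) : Bool :=
  s8 i j e mu a0 k xp xn yp yn vs w2 vm ti tj A B gp gn R D x La aa s (Nat.sub nu 1024)
    (Nat.sub 1024 nu) (Nat.mul (Nat.mul 64 La) R)

def s6 (i j e mu a0 : ℕ) (k : ℕ → Bool) (xp xn yp yn NLp NLn vs w2 vm ti tj A B gp gn R D x La : ℕ)
    (s : Bool) (aa : ℕ) : Bool :=
  s7 i j e mu a0 k xp xn yp yn vs w2 vm ti tj A B gp gn R D x La aa s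
    (maxK (Nat.div (Nat.mul (Nat.sub NLp NLn) 1024) 9530000000000000000) (Nat.sub 1024 (Nat.add (Nat.add (Nat.add (Nat.div (Nat.mul
    128 (Nat.mul D D)) 10000000000000000) (Nat.div (Nat.mul x D) 204800000000)) (Nat.div (Nat.mul (Nat.mul R vm) 549755813888) 953000000000000000000000000)) 4)))

def s5 (i j e lam mu a0 : ℕ) (k : ℕ → Bool) (xp xn yp yn NLp NLn NHp NHn vs w2 vm ti tj A B gp gn
    R D : ℕ) : Bool :=
  cond (Nat.ble D 100000000) (cond (Nat.ble NLn NLp)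
    (s6 i j e mu a0 k xp xn yp yn NLp NLn vs w2 vm ti tj A B gp gn R D
      (Nat.sub (Nat.add (Nat.mul (absK e 64) 16384) (Nat.add (Nat.div (Nat.mul (Nat.add (Nat.add (Nat.div (Nat.mul vm 1125899906842624) 9530000000000000000) (Nat.div
    (Nat.mul (Nat.mul R (Nat.add (Nat.div (Nat.mul (Nat.sub NHp NHn) 1024) 9530000000000000000) 1)) 512) 100000000)) 4) 80000000000000000) (Nat.sub
    80000000000000000 (Nat.mul D D))) 1)) 1048576) (absK lam 64) (Nat.ble 64 lam) (absK a0 1073741824))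
    false) false

def s4 (i j e lam mu a0 : ℕ) (k : ℕ → Bool) (xp xn yp yn NLp NLn NHp NHn vs w2 vm ti tj A B gp gn :
    ℕ) : Bool :=
  s5 i j e lam mu a0 k xp xn yp yn NLp NLn NHp NHn vs w2 vm ti tj A B gp gn (Nat.add A B)
    (Nat.add (Nat.add A B) (Nat.add gp gn))

def s3 (i j e lam mu a0 : ℕ) (k : ℕ → Bool) (xp xn yp yn NLp NLn NHp NHn vs w2 vm hti htj tj ti :
    ℕ) : Bool :=
  s4 i j e lam mu a0 k xp xn yp yn NLp NLn NHp NHn vs w2 vm ti tj (Nat.sub hti ti)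
    (Nat.sub htj tj) (Nat.sub tj ti) (Nat.sub ti tj)

def s2 (i j kap e lam mu a0 : ℕ) (k : ℕ → Bool) (bci bsi lxi hxi lyi hyi hti lxj hxj lyj hyj htj tj
    t : ℕ) : Bool :=
  cond (Nat.ble tj (Nat.mul 2 t)) (dirK bci bsi t fun C S => rotK kap C S fun Pp Pn Qp Qn => coefK bci bsi Pp Pn Qp
    Qn fun xp xn yp yn => bndK 0 0 xp xn yp yn xp xn yp yn lxi hxi lyi hyi lxj hxj lyj hyj fun _ _ NLp NLn NHp NHn => bndK 0 0 yn yp xp xn yn yp xp xn lxi hxi lyi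
    hyi lxj hxj lyj hyj fun _ _ MLp MLn MHp MHn => vK MLp MLn MHp MHn fun vs w2 vm =>
    s3 i j e lam mu a0 k xp xn yp yn NLp NLn NHp NHn vs w2 vm hti htj tj (Nat.sub (Nat.mul 2 t) tj))
    false

def s1 (i j kap e lam mu a0 : ℕ) (k : ℕ → Bool) (bci bsi lxi hxi lyi hyi lti hti lxj hxj lyj hyj
    htj tj : ℕ) : Bool :=
  s2 i j kap e lam mu a0 k bci bsi lxi hxi lyi hyi hti lxj hxj lyj hyj htj tj
    (Nat.shiftRight (Nat.add (Nat.shiftRight (Nat.add lti hti) 1) tj) 1)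

theorem row3K_eq (LO HI i j kap e lam mu a0 : ℕ) (k : ℕ → Bool) :
    row3K LO HI i j kap e lam mu a0 k =
    cond (Nat.blt i j) (cond (Nat.ble j 10) (cond (Nat.ble e 128) (cond (Nat.ble lam 128)
      (cond (Nat.ble mu 128) (typ i fun bci bsi _ => typ j fun bcj _ _ => cond (Nat.beq bci bcj)
        (getL LO HI i fun lxi hxi lyi hyi lti hti => getL LO HI j fun lxj
          hxj lyj hyj ltj htj =>
          s1 i j kap e lam mu a0 k bci bsi lxi hxi lyi hyi lti hti lxj hxj lyj hyj htj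
            (Nat.shiftRight (Nat.add ltj htj) 1)) false) false) false) false) false) false := rfl

/-! ### the form -/

/-- the form `953 M (P dx + Q dy)` for two labels of the same type -/
theorem form_eq (w : Wd) (b : Bool) (li lj : Fin 11) (P Q : ℝ) :
    953 * 100000000 * (P * (w.x lj - w.x li) + Q * (w.y lj - w.y li)) =
      ((baseC b : ℝ) * P + baseS b * Q) * ((MM : ℝ) * w.U b lj) +
      ((baseC b : ℝ) * Q - baseS b * P) * (((MM : ℝ) * w.V b lj + vb b) - (0 : ℕ)) -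
      ((baseC b : ℝ) * P + baseS b * Q) * ((MM : ℝ) * w.U b li) -
      ((baseC b : ℝ) * Q - baseS b * P) * (((MM : ℝ) * w.V b li + vb b) - (0 : ℕ)) := by
  have h1 := lin_UV w b li P Q
  have h2 := lin_UV w b lj P Q
  have h3 : 953 * 100000000 * (P * (w.x lj - w.x li) + Q * (w.y lj - w.y li)) =
      953 * 100000000 * (P * w.x lj + Q * w.y lj) - 953 * 100000000 * (P * w.x li + Q * w.y li) := by
    ring
  rw [h3, h1, h2]
  cases b
  · simp only [baseC, baseS, vb, Bool.false_eq_true, if_false]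
    push_cast
    ring
  · simp only [baseC, baseS, vb, if_true]
    push_cast
    ring

theorem mid_bound {l h t : ℕ} {z : ℝ} (hl : (l : ℝ) ≤ z) (hh : z ≤ h) (h1 : 2 * t ≤ l + h)
    (h2 : t ≤ h) : |z - t| ≤ ((h - t : ℕ) : ℝ) := by
  have h1' : 2 * (t : ℝ) ≤ l + h := by exact_mod_cast h1
  rw [Nat.cast_sub h2, abs_le]
  constructor <;> linarith

theorem maxK_eq (a b : ℕ) : maxK a b = max a b := by
  unfold maxK
  exact cond_ble_max a b

end Row3M

open Row3M Real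

set_option maxHeartbeats 4000000 in
theorem specRow3 (hT : SpecTyp) (hG : SpecGetL) (hC : SpecCoef) (hBn : SpecBnd) : SpecRow3 := by
  intro w hw LO HI hbox i j kap e lam mu a0 k hsep h
  rw [row3K_eq] at h
  obtain ⟨h1, h⟩ := cond_true h
  obtain ⟨h2, h⟩ := cond_true h
  obtain ⟨h3, h⟩ := cond_true h
  obtain ⟨h4, h⟩ := cond_true h
  obtain ⟨h5, h⟩ := cond_true h
  have hij := blt_lt h1
  have hj := ble_le h2
  have he := ble_le h3
  have hlam := ble_le h4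
  have hmu := ble_le h5
  have hi : i ≤ 10 := by omega
  have h := hT i _ hi h
  have h := hT j _ hj h
  beta_reduce at h
  obtain ⟨h6, h⟩ := cond_true h
  have hb : tiltS (lab j) = tiltS (lab i) := by
    have h6' : baseC (tiltS (lab i)) = baseC (tiltS (lab j)) := by
      rwa [Nat.beq_eq] at h6
    revert h6'
    cases tiltS (lab i) <;> cases tiltS (lab j) <;> simp [baseC]
  obtain ⟨lxi, hxi, lyi, hyi, lti, hti, ⟨bx1, bx2⟩, ⟨by1, by2⟩, ⟨bt1, bt2⟩, h⟩ :=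
    hG _ LO HI hbox i _ hi h
  obtain ⟨lxj, hxj, lyj, hyj, ltj, htj, ⟨cx1, cx2⟩, ⟨cy1, cy2⟩, ⟨ct1, ct2⟩, h⟩ :=
    hG _ LO HI hbox j _ hj h
  obtain ⟨b, hbd⟩ : ∃ b, b = tiltS (lab i) := ⟨_, rfl⟩
  rw [← hbd] at hb h
  -- the midpoints
  obtain ⟨tj, htj'⟩ : ∃ tj, tj = Nat.shiftRight (Nat.add ltj htj) 1 := ⟨_, rfl⟩
  rw [← htj'] at h
  unfold s1 at h
  obtain ⟨t, ht'⟩ : ∃ t, t = Nat.shiftRight (Nat.add (Nat.shiftRight (Nat.add lti hti) 1) tj) 1 :=
    ⟨_, rfl⟩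
  rw [← ht'] at h
  unfold s2 at h
  obtain ⟨h7, h⟩ := cond_true h
  have htt := ble_le h7
  obtain ⟨C, S, hCS, h⟩ := dirK_sound h
  obtain ⟨Pp, Pn, Qp, Qn, hkap, hPQ, h⟩ := rotK_sound hCS h
  obtain ⟨xp, xn, yp, yn, hxc, hyc, h⟩ := hC b Pp Pn Qp Qn _ h
  obtain ⟨P, hP⟩ : ∃ P : ℝ, P = (Pp : ℝ) - Pn := ⟨_, rfl⟩
  obtain ⟨Q, hQ⟩ : ∃ Q : ℝ, Q = (Qp : ℝ) - Qn := ⟨_, rfl⟩
  rw [← hP, ← hQ] at hPQ hxc hyc
  obtain ⟨NF, hNF⟩ : ∃ NF, NF = 953 * 100000000 * (P * (w.x (lab j) - w.x (lab i)) +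
    Q * (w.y (lab j) - w.y (lab i))) := ⟨_, rfl⟩
  obtain ⟨MF, hMF⟩ : ∃ MF, MF = 953 * 100000000 * (-Q * (w.x (lab j) - w.x (lab i)) +
    P * (w.y (lab j) - w.y (lab i))) := ⟨_, rfl⟩
  have ex : zv w (3 * i) = (MM : ℝ) * w.U b (lab i) := by rw [wzv_x w hi, ← hbd]
  have ey : zv w (3 * i + 1) = (MM : ℝ) * w.V b (lab i) + vb b := by rw [wzv_y w hi, ← hbd]
  have fx : zv w (3 * j) = (MM : ℝ) * w.U b (lab j) := by rw [wzv_x w hj, hb]
  have fy : zv w (3 * j + 1) = (MM : ℝ) * w.V b (lab j) + vb b := by rw [wzv_y w hj, hb]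
  have hzi : zv w (3 * i + 2) = 100000000 * (w.t (lab i) - base b) + 100000000 := by
    rw [wzv_t w hi, ← hbd]
  have hzj : zv w (3 * j + 2) = 100000000 * (w.t (lab j) - base b) + 100000000 := by
    rw [wzv_t w hj, hb]
  have eNF := form_eq w b (lab i) (lab j) P Q
  have eMF := form_eq w b (lab i) (lab j) (-Q) P
  rw [← hNF, ← ex, ← ey, ← fx, ← fy, ← hxc, ← hyc] at eNF
  rw [← hMF, ← ex, ← ey, ← fx, ← fy] at eMF
  have hxc' : (baseC b : ℝ) * -Q + baseS b * P = (yn : ℝ) - yp := by linarith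
  have hyc' : (baseC b : ℝ) * P - baseS b * -Q = (xp : ℝ) - xn := by linarith
  rw [hxc', hyc'] at eMF
  obtain ⟨-, -, NLp, NLn, NHp, NHn, -, hNL, hNH, h⟩ := hBn 0 0 xp xn yp yn xp xn yp yn lxi hxi lyi
    hyi lxj hxj lyj hyj _ _ _ _ NF _ bx1 bx2 by1 by2 cx1 cx2 cy1 cy2 eNF h
  obtain ⟨-, -, MLp, MLn, MHp, MHn, -, hML, hMH, h⟩ := hBn 0 0 yn yp xp xn yn yp xp xn lxi hxi lyi
    hyi lxj hxj lyj hyj _ _ _ _ MF _ bx1 bx2 by1 by2 cx1 cx2 cy1 cy2 eMF h
  obtain ⟨vl, vh, vs, w2, vm, hvl, hvh, hvs, hw2, hvm1, hvm2, h⟩ := vK_sound hML hMH h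
  obtain ⟨ti, hti'⟩ : ∃ ti, ti = Nat.sub (Nat.mul 2 t) tj := ⟨_, rfl⟩
  rw [← hti'] at h
  simp only [nadd, nsub, nmul, nshr] at htj' ht' htt hti'
  unfold s3 at h
  obtain ⟨A, hA⟩ : ∃ A, A = Nat.sub hti ti := ⟨_, rfl⟩
  obtain ⟨B, hB⟩ : ∃ B, B = Nat.sub htj tj := ⟨_, rfl⟩
  obtain ⟨gp, hgp⟩ : ∃ gp, gp = Nat.sub tj ti := ⟨_, rfl⟩
  obtain ⟨gn, hgn⟩ : ∃ gn, gn = Nat.sub ti tj := ⟨_, rfl⟩
  rw [← hA, ← hB, ← hgp, ← hgn] at h
  unfold s4 at h
  obtain ⟨R, hR⟩ : ∃ R, R = Nat.add A B := ⟨_, rfl⟩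
  rw [← hR] at h
  obtain ⟨D, hD⟩ : ∃ D, D = Nat.add R (Nat.add gp gn) := ⟨_, rfl⟩
  rw [← hD] at h
  unfold s5 at h
  obtain ⟨h8, h⟩ := cond_true h
  obtain ⟨h9, h⟩ := cond_true h
  have hD1 := ble_le h8
  have hNLn := ble_le h9
  obtain ⟨x, hx⟩ : ∃ x, x = (Nat.sub (Nat.add (Nat.mul (absK e 64) 16384) (Nat.add (Nat.div (Nat.mul (Nat.add (Nat.add (Nat.div (Nat.mul vm 1125899906842624) 9530000000000000000) (Nat.div
    (Nat.mul (Nat.mul R (Nat.add (Nat.div (Nat.mul (Nat.sub NHp NHn) 1024) 9530000000000000000) 1)) 512) 100000000)) 4) 80000000000000000) (Nat.sub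
    80000000000000000 (Nat.mul D D))) 1)) 1048576) := ⟨_, rfl⟩
  rw [← hx] at h
  unfold s6 at h
  obtain ⟨nu, hnu⟩ : ∃ nu, nu = (maxK (Nat.div (Nat.mul (Nat.sub NLp NLn) 1024) 9530000000000000000) (Nat.sub 1024 (Nat.add (Nat.add (Nat.add (Nat.div (Nat.mul
    128 (Nat.mul D D)) 10000000000000000) (Nat.div (Nat.mul x D) 204800000000)) (Nat.div (Nat.mul (Nat.mul R vm) 549755813888) 953000000000000000000000000)) 4))) :=
    ⟨_, rfl⟩
  rw [← hnu] at h
  unfold s7 at h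
  obtain ⟨n1, hn1⟩ : ∃ n1, n1 = Nat.sub nu 1024 := ⟨_, rfl⟩
  obtain ⟨n2, hn2⟩ : ∃ n2, n2 = Nat.sub 1024 nu := ⟨_, rfl⟩
  rw [← hn1, ← hn2] at h
  simp only [nadd, nsub, nmul, ndiv] at hA hB hgp hgn hR hD hx hnu hn1 hn2
  unfold s8 at h
  obtain ⟨zp, zn, hz, h⟩ := sgK_ok h
  unfold s9 s10 at h
  simp only [nadd, nmul, ndiv] at h hz
  obtain ⟨ap, hap⟩ : ∃ ap, ap = zp + 6099200000000 * (B * mu) + 195174400000000 * gn +
    609920000000000000000 * e := ⟨_, rfl⟩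
  obtain ⟨an, han⟩ : ∃ an, an = zn + 390348800000000 * B + 195174400000000 * gp +
    39034880000000000000000 := ⟨_, rfl⟩
  obtain ⟨bp, hbp⟩ : ∃ bp, bp = zp + 6099200000000 * (A * mu) + 195174400000000 * gp +
    39034880000000000000000 := ⟨_, rfl⟩
  obtain ⟨bn, hbn⟩ : ∃ bn, bn = zn + 390348800000000 * A + 195174400000000 * gn +
    609920000000000000000 * e := ⟨_, rfl⟩
  rw [← hap, ← han, ← hbp, ← hbn] at h
  obtain ⟨cp, cn, hc, h⟩ := lcK_ok h
  obtain ⟨xjp, xjn, hxj', h⟩ := lcK_ok h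
  obtain ⟨yjp, yjn, hyj', h⟩ := lcK_ok h
  obtain ⟨fxi, exi, bxi, h⟩ := fldK_ok h
  obtain ⟨fyi, eyi, byi, h⟩ := fldK_ok h
  obtain ⟨fxj, exj, bxj, h⟩ := fldK_ok h
  obtain ⟨fyj, eyj, byj, h⟩ := fldK_ok h
  obtain ⟨fa, ea', ba, h⟩ := fldK_ok h
  obtain ⟨fb, eb', bb, h⟩ := fldK_ok h
  obtain ⟨fc, ec, bc, h⟩ := cstK_ok h
  refine ⟨_, rowP_ok hij hj bxi byi ba bxj byj bb bc ?_, h⟩
  clear h
  -- the hypotheses of `R4_int`
  have hsep' : Alt (w.t (lab i) + kap * (π / 2)) (w.t (lab j) - w.t (lab i))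
      (w.x (lab j) - w.x (lab i)) (w.y (lab j) - w.y (lab i)) ∨
      Alt (w.t (lab j) + kap * (π / 2)) (w.t (lab i) - w.t (lab j))
      (w.x (lab j) - w.x (lab i)) (w.y (lab j) - w.y (lab i)) := by
    rcases hsep with (⟨-, hs⟩ | ⟨h0, -⟩) | (⟨h0, -⟩ | ⟨-, hs⟩)
    · exact Or.inl hs
    · exact absurd h0 (by norm_num)
    · exact absurd h0 (by norm_num)
    · exact Or.inr hs
  have q1 : lti ≤ hti := by
    have : (lti : ℝ) ≤ hti := bt1.trans bt2
    exact_mod_cast this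
  have q2 : ltj ≤ htj := by
    have : (ltj : ℝ) ≤ htj := ct1.trans ct2
    exact_mod_cast this
  rw [Nat.shiftRight_eq_div_pow, pow_one] at htj'
  rw [Nat.shiftRight_eq_div_pow, Nat.shiftRight_eq_div_pow, pow_one] at ht'
  have hA' : |zv w (3 * i + 2) - ti| ≤ (A : ℝ) := by
    rw [hA]
    exact mid_bound bt1 bt2 (by omega) (by omega)
  have hB' : |zv w (3 * j + 2) - tj| ≤ (B : ℝ) := by
    rw [hB]
    exact mid_bound ct1 ct2 (by omega) (by omega)
  have hn0 : 0 ≤ NF := by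
    have : (NLn : ℝ) ≤ NLp := by exact_mod_cast hNLn
    linarith
  obtain ⟨nh, hnh⟩ : ∃ nh, nh = (NHp - NHn) * 1024 / 9530000000000000000 + 1 := ⟨_, rfl⟩
  rw [← hnh] at hx
  have hNH' : (NHn : ℝ) ≤ NHp := by linarith
  have hNHn : NHn ≤ NHp := by exact_mod_cast hNH'
  have hnh' : NF / 9530000000000000000 ≤ (nh : ℝ) / 1024 := by
    have g1 := le_div_add_one ((NHp - NHn) * 1024) 9530000000000000000 (by norm_num)
    rw [Nat.cast_mul, Nat.cast_sub hNHn] at g1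
    rw [hnh]
    push_cast at g1 ⊢
    rw [div_le_div_iff₀ (by norm_num) (by norm_num)]
    rw [div_le_iff₀ (by norm_num)] at g1
    linarith
  have hx' : absK e 64 * 16384 + ((vm * 1125899906842624 / 9530000000000000000 +
      R * nh * 512 / 100000000 + 4) * 80000000000000000 / (80000000000000000 - D * D) + 1) ≤
      x + 1048576 := by omega
  have hea : absK e 64 = (e - 64) + (64 - e) := rfl
  have hN : (nu : ℝ) / 1024 ≤ NF / 9530000000000000000 ∨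
      nu + (128 * (D * D) / 10000000000000000 + x * D / 204800000000 +
        R * vm * 549755813888 / 953000000000000000000000000 + 4) ≤ 1024 := by
    rw [maxK_eq] at hnu
    obtain ⟨Z, hZ⟩ : ∃ Z, Z = 128 * (D * D) / 10000000000000000 + x * D / 204800000000 +
        R * vm * 549755813888 / 953000000000000000000000000 + 4 := ⟨_, rfl⟩
    rw [← hZ] at hnu ⊢
    rcases max_choice ((NLp - NLn) * 1024 / 9530000000000000000) (1024 - Z) with hm | hm
    · left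
      rw [hm] at hnu
      obtain ⟨g1, -⟩ := div_bd ((NLp - NLn) * 1024) 9530000000000000000 (by norm_num)
      rw [← hnu, Nat.cast_mul, Nat.cast_sub hNLn] at g1
      push_cast at g1
      rw [div_le_div_iff₀ (by norm_num) (by norm_num)]
      linarith
    · rw [hm] at hnu
      rcases Nat.le_total Z 1024 with hZ1 | hZ1
      · right
        omega
      · left
        have : nu = 0 := by omega
        rw [this]
        simp only [Nat.cast_zero, zero_div]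
        exact div_nonneg hn0 (by norm_num)
  have r := R4_int hw hsep' hPQ (by omega : ti + tj = 2 * t) hgp hgn hzi hzj hA' hB' hR hD hD1 hNF
    hMF hn0 hnh' hvl hvh hvs hw2 hvm1 hvm2 he hlam hmu hea hx' hN hn1 hn2 (a0 := a0)
  obtain ⟨E1, hE1⟩ : ∃ E1, E1 = 7624 * absK e 64 * (D * D * D) / 3 := ⟨_, rfl⟩
  obtain ⟨E2, hE2⟩ : ∃ E2, E2 = R * R * R * vm * 549755813888 / 30000000000000000 := ⟨_, rfl⟩
  obtain ⟨E3, hE3⟩ : ∃ E3, E3 = (1024 + n1) * 953 * (R * R * (R * R)) / 4800000000 := ⟨_, rfl⟩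
  rw [← hE1, ← hE2, ← hE3] at r hc
  have hL := sgn_abs (lam := lam)
  obtain ⟨sg, hsg⟩ : ∃ sg, sg = sgn (Nat.ble 64 lam) := ⟨_, rfl⟩
  obtain ⟨La, hLa⟩ : ∃ La, La = absK lam 64 := ⟨_, rfl⟩
  obtain ⟨aa, haa⟩ : ∃ aa, aa = absK a0 1073741824 := ⟨_, rfl⟩
  have haa2 : (aa : ℝ) * aa = ((a0 : ℝ) - 1073741824) ^ 2 := by
    rw [haa]
    unfold absK
    simp only [nadd, nsub]
    rcases Nat.le_total a0 1073741824 with g | g
    · rw [Nat.sub_eq_zero_of_le g, zero_add, Nat.cast_sub g]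
      push_cast
      ring
    · rw [Nat.sub_eq_zero_of_le g, add_zero, Nat.cast_sub g]
      push_cast
      ring
  rw [← hsg, ← hLa] at hL hz hc hxj' hyj'
  rw [← haa] at hc
  push_cast at hz hc hxj' hyj' ec
  have e3 : (ap : ℝ) - an = (zp : ℝ) - zn + 6099200000000 * B * ((mu : ℝ) - 64) -
      195174400000000 * ((gp : ℝ) - gn) + 609920000000000000000 * ((e : ℝ) - 64) := by
    rw [hap, han]; push_cast; ring
  have e4 : (bp : ℝ) - bn = (zp : ℝ) - zn + 6099200000000 * A * ((mu : ℝ) - 64) +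
      195174400000000 * ((gp : ℝ) - gn) - 609920000000000000000 * ((e : ℝ) - 64) := by
    rw [hbp, hbn]; push_cast; ring
  have ez : (zp : ℝ) - zn = 2199023255552 * ((vs : ℝ) - 2199023255552) +
      34359738368 * ((lam : ℝ) - 64) * w2 - 190600000000 * n1 * ((a0 : ℝ) - 1073741824) := by
    rw [hz, ← hL]; ring
  have e1 : (xjp : ℝ) - xjn = 819200000000 * ((xp : ℝ) - xn) +
      64 * ((lam : ℝ) - 64) * R * ((yp : ℝ) - yn) := by
    rw [hxj', ← hL]; ring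
  have e2 : (yjp : ℝ) - yjn = 819200000000 * ((yp : ℝ) - yn) +
      64 * ((lam : ℝ) - 64) * R * ((xn : ℝ) - xp) := by
    rw [hyj', ← hL]; ring
  have e5 : (cp : ℝ) - cn = 2199023255552 * R * w2 + 97587200000000 * ((gp : ℝ) + gn) ^ 2 +
        390348800000000 * (A * B) +
        95300000000 * (n1 * ((a0 : ℝ) - 1073741824) ^ 2 + n2 * (R : ℝ) ^ 2) -
        609920000000000000000 * ((e : ℝ) - 64) * ((gp : ℝ) - gn) +
        37226562500000000 * (x * D) + E1 + E2 + E3 +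
        7806976000000000000000003 - 7806976000000000000000000000000 +
        34359738368 * ((lam : ℝ) - 64) * R * ((vs : ℝ) - 2199023255552) := by
    rw [hc, ← haa2, ← hL]; ring
  rw [exi, eyi, exj, eyj, ea', eb', wzv_33]
  have f1 : (xjn : ℝ) - xjp = -((xjp : ℝ) - xjn) := by ring
  have f2 : (yjn : ℝ) - yjp = -((yjp : ℝ) - yjn) := by ring
  rw [f1, f2, e1, e2, e3, e4, ez]
  rw [eNF, eMF] at r
  have ec' : (cp : ℝ) - cn - ((ap : ℝ) - an) * ti - ((bp : ℝ) - bn) * tj ≤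
      ((fc : ℝ) - 2 ^ 79) * 1073741824 := by
    refine le_trans (le_of_eq ?_) ec
    ring
  rw [e3, e4, ez, e5] at ec'
  simp only [Nat.cast_zero, sub_zero] at r
  linear_combination r + ec'

end Fine
end Pool.Agent.MP_abb58c_co
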