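import Pool.Agent.Lib.MP_abb58c_co.FineOwn

/-! MP_abb58c_co, FINE: soundness of the rows `xyP` (helper90) -/

set_option autoImplicit false

namespace Pool.Agent.MP_abb58c_co
namespace Fine

/-- rounding up of the constant field -/
theorem XYM.div_up (n : ℕ) :
    (n : ℝ) - 649037107316853453566312041152512 ≤
      ((((n / 1073741824 + 1 : ℕ) : ℝ)) - 2 ^ 79) * 1073741824 := by
  have h5 : n ≤ (n / 1073741824 + 1) * 1073741824 := by omega
  have h6 : ((n : ℕ) : ℝ) ≤ (((n / 1073741824 + 1) * 1073741824 : ℕ) : ℝ) := by exact_mod_cast h5
  push_cast at h6 ⊢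
  norm_num at h6 ⊢
  linarith

theorem XYM.fc_lt {n : ℕ} (h : n ≤ 1000000000000000000000000000000000) :
    n / 1073741824 + 1 < 2 ^ 80 := by
  norm_num
  omega

theorem XYM.base_true : ((baseC true : ℕ) : ℝ) = 728 ∧ ((baseS true : ℕ) : ℝ) = 615 ∧
    ((vb true : ℕ) : ℝ) = 400000000 := by
  refine ⟨?_, ?_, ?_⟩
  · norm_num [baseC]
  · norm_num [baseS]
  · norm_num [vb]

theorem specXY : SpecXY := by
  intro w l sd B hl ht hB h
  obtain ⟨z0, hz0⟩ : ∃ z0, z0 = zv w (3 * l) := ⟨_, rfl⟩
  obtain ⟨z1, hz1⟩ : ∃ z1, z1 = zv w (3 * l + 1) := ⟨_, rfl⟩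
  obtain ⟨z2, hz2⟩ : ∃ z2, z2 = zv w (3 * l + 2) := ⟨_, rfl⟩
  have ex := lin_b w hl 1 0
  have ey := lin_b w hl 0 1
  obtain ⟨b1, b2, b3⟩ := XYM.base_true
  rw [ht, b1, b2, b3, ← hz0, ← hz1] at ex ey
  have hBr : (B : ℝ) ≤ 500000000 := by exact_mod_cast hB
  have hB0 : (0 : ℝ) ≤ (B : ℝ) := Nat.cast_nonneg B
  have e79 : (2 : ℝ) ^ 79 = 604462909807314587353088 := by norm_num
  rcases h with ⟨rfl, h⟩ | ⟨rfl, h⟩ | ⟨rfl, h⟩ | ⟨rfl, h⟩
  · -- lower bound of x
    have e : xyP l 0 B = rowP1 l
      (grpK (604462909807314587353088 + 59637760000000000000000)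
        (604462909807314587353088 - 50380800000000000000000) 604462909807314587353088)
      ((649037107316853453566312041152512 + 20152320000000000000000000000000 -
        78069760000000000000000 * B) / 1073741824 + 1) := rfl
    rw [e]
    refine rowP1_ok hl (by norm_num) (by norm_num) (by norm_num) (XYM.fc_lt (by omega)) ?_
    have u := XYM.div_up (649037107316853453566312041152512 + 20152320000000000000000000000000 -
        78069760000000000000000 * B)
    rw [Nat.cast_sub (by omega)] at u
    rw [zv_33, ← hz0, ← hz1, ← hz2]
    rw [Nat.cast_add, Nat.cast_sub (by norm_num)]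
    rw [e79] at u ⊢
    push_cast at u ⊢
    linarith
  · -- upper bound of x
    have e : xyP l 1 B = rowP1 l
      (grpK (604462909807314587353088 - 59637760000000000000000)
        (604462909807314587353088 + 50380800000000000000000) 604462909807314587353088)
      ((649037107316853453566312041152512 + 78069760000000000000000 * B -
        20152320000000000000000000000000) / 1073741824 + 1) := rfl
    rw [e]
    refine rowP1_ok hl (by norm_num) (by norm_num) (by norm_num) (XYM.fc_lt (by omega)) ?_
    have u := XYM.div_up (649037107316853453566312041152512 + 78069760000000000000000 * B -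
        20152320000000000000000000000000)
    rw [Nat.cast_sub (by omega)] at u
    rw [zv_33, ← hz0, ← hz1, ← hz2]
    rw [Nat.cast_sub (by norm_num), Nat.cast_add 604462909807314587353088]
    rw [e79] at u ⊢
    push_cast at u ⊢
    linarith
  · -- lower bound of y
    have e : xyP l 2 B = rowP1 l
      (grpK (604462909807314587353088 + 50380800000000000000000)
        (604462909807314587353088 + 59637760000000000000000) 604462909807314587353088)
      ((649037107316853453566312041152512 - 23855104000000000000000000000000 -
        78069760000000000000000 * B) / 1073741824 + 1) := rfl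
    rw [e]
    refine rowP1_ok hl (by norm_num) (by norm_num) (by norm_num) (XYM.fc_lt (by omega)) ?_
    have u := XYM.div_up (649037107316853453566312041152512 - 23855104000000000000000000000000 -
        78069760000000000000000 * B)
    rw [Nat.cast_sub (by omega), Nat.cast_sub (by norm_num)] at u
    rw [zv_33, ← hz0, ← hz1, ← hz2]
    rw [Nat.cast_add 604462909807314587353088, Nat.cast_add 604462909807314587353088]
    rw [e79] at u ⊢
    push_cast at u ⊢
    linarith
  · -- upper bound of y
    have e : xyP l 3 B = rowP1 l
      (grpK (604462909807314587353088 - 50380800000000000000000)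
        (604462909807314587353088 - 59637760000000000000000) 604462909807314587353088)
      ((649037107316853453566312041152512 + 78069760000000000000000 * B +
        23855104000000000000000000000000) / 1073741824 + 1) := rfl
    rw [e]
    refine rowP1_ok hl (by norm_num) (by norm_num) (by norm_num) (XYM.fc_lt (by omega)) ?_
    have u := XYM.div_up (649037107316853453566312041152512 + 78069760000000000000000 * B +
        23855104000000000000000000000000)
    rw [zv_33, ← hz0, ← hz1, ← hz2]
    rw [Nat.cast_sub (by norm_num), Nat.cast_sub (by norm_num)]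
    rw [e79] at u ⊢
    push_cast at u ⊢
    linarith

end Fine
end Pool.Agent.MP_abb58c_co
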