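import Pool.Agent.Lib.MP_abb58c_co.LocalD

/-! MP_abb58c_co, module LOCAL, part E: the linear inequalities of the contacts -/

namespace Pool.Agent.MP_abb58c_co
namespace Local

variable {T : TrumpData} {L r : ℝ} {q : Fin 11 → Sq}

theorem ef_bound (N : Num T) {dx dy dx0 dy0 X Y : ℝ} (hx : |dx - dx0| ≤ 0.002006)
    (hy : |dy - dy0| ≤ 0.002006) (hX : |dx0| ≤ X) (hY : |dy0| ≤ Y) (hX4 : X ≤ 4) (hY4 : Y ≤ 4) :
    |dx * T.c + dy * T.s - (dx0 * 0.7639995 + dy0 * 0.6452169)| ≤ 0.00284 ∧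
    |dy * T.c - dx * T.s - (dy0 * 0.7639995 - dx0 * 0.6452169)| ≤ 0.00284 := by
  have hX0 : 0 ≤ X := le_trans (abs_nonneg _) hX
  have hY0 : 0 ≤ Y := le_trans (abs_nonneg _) hY
  have hc : |T.c - 0.7639995| ≤ 0.0000001 := by
    rw [abs_le]; constructor <;> linarith [N.c0, N.c1]
  have hs : |T.s - 0.6452169| ≤ 0.0000001 := by
    rw [abs_le]; constructor <;> linarith [N.s0, N.s1]
  have oc : |(0.7639995 : ℝ)| ≤ 0.7639995 := by norm_num [abs_of_pos]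
  have os : |(0.6452169 : ℝ)| ≤ 0.6452169 := by norm_num [abs_of_pos]
  have a5 := two_sided hx hc hX oc
  have a6 := two_sided hy hs hY os
  have a7 := two_sided hy hc hY oc
  have a8 := two_sided hx hs hX os
  refine ⟨?_, ?_⟩
  · rw [abs_le]; constructor <;> linarith [a5.1, a5.2, a6.1, a6.2]
  · rw [abs_le]; constructor <;> linarith [a7.1, a7.2, a8.1, a8.2]

theorem c_round (N : Num T) {z : ℝ} (hz : |z| ≤ 2 * r) :
    |T.c * z - 0.764 * z| ≤ 0.00001 * r ∧ |T.s * z - 0.6452 * z| ≤ 0.00004 * r := by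
  have hr : 0 ≤ r := by linarith [abs_nonneg z]
  have h1 : |T.c - 0.764| ≤ 0.000001 := by
    rw [abs_le]; constructor <;> linarith [N.c0, N.c1]
  have h2 : |T.s - 0.6452| ≤ 0.00002 := by
    rw [abs_le]; constructor <;> linarith [N.s0, N.s1]
  constructor
  · rw [← sub_mul, abs_mul]
    calc |T.c - 0.764| * |z| ≤ 0.000001 * (2 * r) := mul_le_mul h1 hz (abs_nonneg _) (by norm_num)
      _ ≤ 0.00001 * r := by linarith
  · rw [← sub_mul, abs_mul]
    calc |T.s - 0.6452| * |z| ≤ 0.00002 * (2 * r) := mul_le_mul h2 hz (abs_nonneg _) (by norm_num)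
      _ ≤ 0.00004 * r := by linarith

theorem diffA (D : Dev T L q r) (i j : Fin 11) : |dA T q j - dA T q i| ≤ 2 * r := by
  have := abs_sub (dA T q j) (dA T q i)
  linarith [D.a i, D.a j]

theorem diffB (D : Dev T L q r) (i j : Fin 11) : |dB T q j - dB T q i| ≤ 2 * r := by
  have := abs_sub (dB T q j) (dB T q i)
  linarith [D.b i, D.b j]

theorem wAl (D : Dev T L q r) : 0 ≤ 1 * dA T q 0 + (-249/500) * dG T q 0 ∧
    0 ≤ 1 * dA T q 0 + (249/500) * dG T q 0 := by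
  obtain ⟨-, -, -, qg, hh⟩ := D.axis 0 rfl rfl
  have hw := D.pack.left 0
  have e : dA T q 0 = (q 0).x - (1 / 2) := rfl
  rw [← qg] at hh
  have h1 := le_abs_self (dG T q 0)
  have h2 := neg_abs_le (dG T q 0)
  constructor <;> linarith

theorem wAb (D : Dev T L q r) : 0 ≤ 1 * dB T q 0 + (-249/500) * dG T q 0 ∧
    0 ≤ 1 * dB T q 0 + (249/500) * dG T q 0 := by
  obtain ⟨-, -, -, qg, hh⟩ := D.axis 0 rfl rfl
  have hw := D.pack.bot 0
  have e : dB T q 0 = (q 0).y - (1 / 2) := rfl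
  rw [← qg] at hh
  have h1 := le_abs_self (dG T q 0)
  have h2 := neg_abs_le (dG T q 0)
  constructor <;> linarith

theorem wBb (D : Dev T L q r) : 0 ≤ 1 * dB T q 1 + (-249/500) * dG T q 1 ∧
    0 ≤ 1 * dB T q 1 + (249/500) * dG T q 1 := by
  obtain ⟨-, -, -, qg, hh⟩ := D.axis 1 rfl rfl
  have hw := D.pack.bot 1
  have e : dB T q 1 = (q 1).y - (1 / 2) := rfl
  rw [← qg] at hh
  have h1 := le_abs_self (dG T q 1)
  have h2 := neg_abs_le (dG T q 1)
  constructor <;> linarith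

theorem wCl (D : Dev T L q r) : 0 ≤ 1 * dA T q 2 + (-249/500) * dG T q 2 ∧
    0 ≤ 1 * dA T q 2 + (249/500) * dG T q 2 := by
  obtain ⟨-, -, -, qg, hh⟩ := D.axis 2 rfl rfl
  have hw := D.pack.left 2
  have e : dA T q 2 = (q 2).x - (1 / 2) := rfl
  rw [← qg] at hh
  have h1 := le_abs_self (dG T q 2)
  have h2 := neg_abs_le (dG T q 2)
  constructor <;> linarith

theorem wDl (D : Dev T L q r) : 0 ≤ 1 * dA T q 3 + (-249/500) * dG T q 3 ∧
    0 ≤ 1 * dA T q 3 + (249/500) * dG T q 3 := by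
  obtain ⟨-, -, -, qg, hh⟩ := D.axis 3 rfl rfl
  have hw := D.pack.left 3
  have e : dA T q 3 = (q 3).x - (1 / 2) := rfl
  rw [← qg] at hh
  have h1 := le_abs_self (dG T q 3)
  have h2 := neg_abs_le (dG T q 3)
  constructor <;> linarith

theorem wEr (D : Dev T L q r) : 0 ≤ (-1) * dA T q 4 + (-249/500) * dG T q 4 + (-1) * (T.L - L) ∧
    0 ≤ (-1) * dA T q 4 + (249/500) * dG T q 4 + (-1) * (T.L - L) := by
  obtain ⟨-, -, -, qg, hh⟩ := D.axis 4 rfl rfl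
  have hw := D.pack.right 4
  have e : dA T q 4 = (q 4).x - (T.L - 1 / 2) := rfl
  rw [← qg] at hh
  have h1 := le_abs_self (dG T q 4)
  have h2 := neg_abs_le (dG T q 4)
  constructor <;> linarith

theorem wEb (D : Dev T L q r) : 0 ≤ 1 * dB T q 4 + (-249/500) * dG T q 4 ∧
    0 ≤ 1 * dB T q 4 + (249/500) * dG T q 4 := by
  obtain ⟨-, -, -, qg, hh⟩ := D.axis 4 rfl rfl
  have hw := D.pack.bot 4
  have e : dB T q 4 = (q 4).y - (1 / 2) := rfl
  rw [← qg] at hh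
  have h1 := le_abs_self (dG T q 4)
  have h2 := neg_abs_le (dG T q 4)
  constructor <;> linarith

theorem wFr (D : Dev T L q r) : 0 ≤ (-1) * dA T q 5 + (-249/500) * dG T q 5 + (-1) * (T.L - L) ∧
    0 ≤ (-1) * dA T q 5 + (249/500) * dG T q 5 + (-1) * (T.L - L) := by
  obtain ⟨-, -, -, qg, hh⟩ := D.axis 5 rfl rfl
  have hw := D.pack.right 5
  have e : dA T q 5 = (q 5).x - (T.L - 1 / 2) := rfl
  rw [← qg] at hh
  have h1 := le_abs_self (dG T q 5)
  have h2 := neg_abs_le (dG T q 5)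
  constructor <;> linarith

theorem wFt (D : Dev T L q r) : 0 ≤ (-1) * dB T q 5 + (-249/500) * dG T q 5 + (-1) * (T.L - L) ∧
    0 ≤ (-1) * dB T q 5 + (249/500) * dG T q 5 + (-1) * (T.L - L) := by
  obtain ⟨-, -, -, qg, hh⟩ := D.axis 5 rfl rfl
  have hw := D.pack.top 5
  have e : dB T q 5 = (q 5).y - (T.L - 1 / 2) := rfl
  rw [← qg] at hh
  have h1 := le_abs_self (dG T q 5)
  have h2 := neg_abs_le (dG T q 5)
  constructor <;> linarith

/-- half width of a tilted square -/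
theorem tilt_h (D : Dev T L q r) (i : Fin 11) (hc : (T.cfg i).c = T.c) (hs : (T.cfg i).s = T.s) :
    (T.c + T.s) / 2 + 0.0594 * dG T q i - 0.0021 * r ≤ (q i).h := by
  obtain ⟨hu, hpos, hg, ec, es⟩ := D.tilt i hc hs
  have hgr := D.g i
  have N := D.num
  have hr := D.hr
  have hk1 : dK T q i ≤ 1 := by nlinarith [sq_nonneg (dG T q i)]
  have hk2 : 1 - dK T q i ≤ 0.00283 * r := by
    have h1 : 1 - dK T q i ≤ dG T q i ^ 2 := by nlinarith
    have h2 : dG T q i ^ 2 ≤ 0.00283 * r := by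
      rw [← sq_abs, pow_two]
      exact mul_le_mul hg hgr (abs_nonneg _) (by norm_num)
    linarith
  have c1 := le_abs_self (q i).c
  have c2 := le_abs_self (q i).s
  have e1 : (T.c + T.s) * (1 - dK T q i) ≤ 1.4093 * (0.00283 * r) := by
    refine mul_le_mul (by linarith [N.c1, N.s1]) hk2 (by linarith) (by norm_num)
  have e2 : |(T.c - T.s) / 2 * dG T q i - 0.0594 * dG T q i| ≤ 0.00001 * r := by
    rw [← sub_mul, abs_mul]
    refine mul_le_mul ?_ hgr (abs_nonneg _) (by norm_num)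
    rw [abs_le]; constructor <;> linarith [N.c0, N.c1, N.s0, N.s1]
  have e3 := (abs_le.1 e2).1
  unfold Sq.h
  rw [ec, es] at *
  linarith

theorem w4t (D : Dev T L q r) : (-21/10000) * r ≤ (-1) * dB T q 9 + (-297/5000) * dG T q 9 + (-1) * (T.L - L) := by
  have h := tilt_h D 9 rfl rfl
  have hw := D.pack.top 9
  have e : dB T q 9 = (q 9).y - ((T.c + (T.d + 1) * T.s + 1 / 2) * T.s + (T.w + 1) * T.c) := rfl
  have := T.top
  linarith

theorem w5r (D : Dev T L q r) : (-21/10000) * r ≤ (-1) * dA T q 10 + (-297/5000) * dG T q 10 + (-1) * (T.L - L) := by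
  have h := tilt_h D 10 rfl rfl
  have hw := D.pack.right 10
  have e : dA T q 10 = (q 10).x - ((2 * T.c + T.s + 3 / 2) * T.c - (T.w - 1) * T.s) := rfl
  have := T.right
  linarith

theorem pAB (D : Dev T L q r) : (-61/10000) * r ≤ (-1) * dA T q 0 + (1/2) * dG T q 0 + 1 * dA T q 1 + (-1/2) * dG T q 1 ∧
    (-61/10000) * r ≤ (-1) * dA T q 0 + (-1/2) * dG T q 0 + 1 * dA T q 1 + (1/2) * dG T q 1 := by
  have hS := D.sep 0 1 (by decide)
  have hx : |(q 1).x - (q 0).x - 1.0| ≤ 0.002006 := by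
    have := D.dx 0 1
    have e : RX 1 - RX 0 = 1.0 := by
      change (1.5 : ℝ) - 0.5 = 1.0
      norm_num
    rwa [e] at this
  have hy : |(q 1).y - (q 0).y - 0.0| ≤ 0.002006 := by
    have := D.dy 0 1
    have e : RY 1 - RY 0 = 0.0 := by
      change (0.5 : ℝ) - 0.5 = 0.0
      norm_num
    rwa [e] at this
  have hX : |(1.0 : ℝ)| ≤ 1.001 := abs_le.2 ⟨by norm_num, by norm_num⟩
  have hY : |(0.0 : ℝ)| ≤ 0.001 := abs_le.2 ⟨by norm_num, by norm_num⟩
  obtain ⟨qpos, qs, qc, qg, -⟩ := D.axis 0 rfl rfl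
  obtain ⟨rpos, rs, rc, rg, -⟩ := D.axis 1 rfl rfl
  obtain ⟨v1, v2, v3, v4, hH⟩ := excl_edge hx hy (D.nc 0) (D.ns 0) (D.nc 1) (D.ns 1) hX hY
    (by norm_num [RC]) (by norm_num [RS]) (by norm_num [RC, RS]) (by norm_num [RC, RS])
  have h : 1 / 2 + relH (q 0) (q 1) ≤ ((q 1).x - (q 0).x) * (q 0).c + ((q 1).y - (q 0).y) * (q 0).s ∨
      1 / 2 + relH (q 0) (q 1) ≤ ((q 1).x - (q 0).x) * (q 1).c + ((q 1).y - (q 0).y) * (q 1).s := by
    have rc0 : RC 0 = 1 := rfl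
    have rs0 : RS 0 = 0 := rfl
    rw [abs_le, rc0, rs0] at v1 v2 v3 v4
    obtain ⟨v1, v1'⟩ := v1
    obtain ⟨v2, v2'⟩ := v2
    obtain ⟨v3, v3'⟩ := v3
    obtain ⟨v4, v4'⟩ := v4
    rcases hS with h | h | h | h <;> rcases le_abs.1 h with h | h
    all_goals first | exact Or.inl h | exact Or.inr h | (exfalso; linarith)
  have hEq : ((q 1).x - (q 0).x) * (q 0).c + ((q 1).y - (q 0).y) * (q 0).s = (((q 1).x - (q 0).x)) * (q 0).c + (((q 1).y - (q 0).y)) * (q 0).s := by ring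
  have hEr : ((q 1).x - (q 0).x) * (q 1).c + ((q 1).y - (q 0).y) * (q 1).s = (((q 1).x - (q 0).x)) * (q 1).c + (((q 1).y - (q 0).y)) * (q 1).s := by ring
  rw [hEq, hEr] at h
  have hE : 0 ≤ (((q 1).x - (q 0).x)) := by linarith [(abs_le.1 hx).1, (abs_le.1 hy).1]
  have hF : |(((q 1).y - (q 0).y)) - 0| ≤ 0.0029 := by
    rw [abs_le]; constructor <;> linarith [(abs_le.1 hx).1, (abs_le.1 hy).1, (abs_le.1 hx).2, (abs_le.1 hy).2]
  have h3 : |(q 0).s| ≤ r := by rw [← qg]; exact D.g 0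
  have h4 : |(q 1).s| ≤ r := by rw [← rg]; exact D.g 1
  obtain ⟨k1, k2⟩ := edge_final (C := 1) (S := 0) (by norm_num) (D.pack.unit 0) (D.pack.unit 1)
    qpos rpos (by linarith) (by linarith) h3 h4 (by ring) (by ring) (by ring) (by ring) hE hF
    (by norm_num) (by norm_num) h
  have X0 : (T.cfg 0).x = 1 / 2 := rfl
  have Y0 : (T.cfg 0).y = 1 / 2 := rfl
  have X1 : (T.cfg 1).x = 3 / 2 := rfl
  have Y1 : (T.cfg 1).y = 1 / 2 := rfl
  have hex : (((q 1).x - (q 0).x)) - 1 = 1 * (dA T q 1 - dA T q 0) + 0 * (dB T q 1 - dB T q 0) := by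
    unfold dA dB
    rw [X0, Y0, X1, Y1]
    ring
  rw [hex, ← qg, ← rg] at k1 k2
  constructor <;> linarith [D.hr]

theorem pAC (D : Dev T L q r) : (-61/10000) * r ≤ (-1) * dB T q 0 + (1/2) * dG T q 0 + 1 * dB T q 2 + (-1/2) * dG T q 2 ∧
    (-61/10000) * r ≤ (-1) * dB T q 0 + (-1/2) * dG T q 0 + 1 * dB T q 2 + (1/2) * dG T q 2 := by
  have hS := D.sep 0 2 (by decide)
  have hx : |(q 2).x - (q 0).x - 0.0| ≤ 0.002006 := by
    have := D.dx 0 2
    have e : RX 2 - RX 0 = 0.0 := by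
      change (0.5 : ℝ) - 0.5 = 0.0
      norm_num
    rwa [e] at this
  have hy : |(q 2).y - (q 0).y - 1.0| ≤ 0.002006 := by
    have := D.dy 0 2
    have e : RY 2 - RY 0 = 1.0 := by
      change (1.5 : ℝ) - 0.5 = 1.0
      norm_num
    rwa [e] at this
  have hX : |(0.0 : ℝ)| ≤ 0.001 := abs_le.2 ⟨by norm_num, by norm_num⟩
  have hY : |(1.0 : ℝ)| ≤ 1.001 := abs_le.2 ⟨by norm_num, by norm_num⟩
  obtain ⟨qpos, qs, qc, qg, -⟩ := D.axis 0 rfl rfl
  obtain ⟨rpos, rs, rc, rg, -⟩ := D.axis 2 rfl rfl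
  obtain ⟨v1, v2, v3, v4, hH⟩ := excl_edge hx hy (D.nc 0) (D.ns 0) (D.nc 2) (D.ns 2) hX hY
    (by norm_num [RC]) (by norm_num [RS]) (by norm_num [RC, RS]) (by norm_num [RC, RS])
  have h : 1 / 2 + relH (q 0) (q 2) ≤ ((q 2).y - (q 0).y) * (q 0).c - ((q 2).x - (q 0).x) * (q 0).s ∨
      1 / 2 + relH (q 0) (q 2) ≤ ((q 2).y - (q 0).y) * (q 2).c - ((q 2).x - (q 0).x) * (q 2).s := by
    have rc0 : RC 0 = 1 := rfl
    have rs0 : RS 0 = 0 := rfl
    rw [abs_le, rc0, rs0] at v1 v2 v3 v4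
    obtain ⟨v1, v1'⟩ := v1
    obtain ⟨v2, v2'⟩ := v2
    obtain ⟨v3, v3'⟩ := v3
    obtain ⟨v4, v4'⟩ := v4
    rcases hS with h | h | h | h <;> rcases le_abs.1 h with h | h
    all_goals first | exact Or.inl h | exact Or.inr h | (exfalso; linarith)
  have hEq : ((q 2).y - (q 0).y) * (q 0).c - ((q 2).x - (q 0).x) * (q 0).s = (((q 2).y - (q 0).y)) * (q 0).c + (-(((q 2).x - (q 0).x))) * (q 0).s := by ring
  have hEr : ((q 2).y - (q 0).y) * (q 2).c - ((q 2).x - (q 0).x) * (q 2).s = (((q 2).y - (q 0).y)) * (q 2).c + (-(((q 2).x - (q 0).x))) * (q 2).s := by ring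
  rw [hEq, hEr] at h
  have hE : 0 ≤ (((q 2).y - (q 0).y)) := by linarith [(abs_le.1 hx).1, (abs_le.1 hy).1]
  have hF : |(-(((q 2).x - (q 0).x))) - 0| ≤ 0.0029 := by
    rw [abs_le]; constructor <;> linarith [(abs_le.1 hx).1, (abs_le.1 hy).1, (abs_le.1 hx).2, (abs_le.1 hy).2]
  have h3 : |(q 0).s| ≤ r := by rw [← qg]; exact D.g 0
  have h4 : |(q 2).s| ≤ r := by rw [← rg]; exact D.g 2
  obtain ⟨k1, k2⟩ := edge_final (C := 1) (S := 0) (by norm_num) (D.pack.unit 0) (D.pack.unit 2)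
    qpos rpos (by linarith) (by linarith) h3 h4 (by ring) (by ring) (by ring) (by ring) hE hF
    (by norm_num) (by norm_num) h
  have X0 : (T.cfg 0).x = 1 / 2 := rfl
  have Y0 : (T.cfg 0).y = 1 / 2 := rfl
  have X2 : (T.cfg 2).x = 1 / 2 := rfl
  have Y2 : (T.cfg 2).y = 3 / 2 := rfl
  have hex : (((q 2).y - (q 0).y)) - 1 = 1 * (dB T q 2 - dB T q 0) - 0 * (dA T q 2 - dA T q 0) := by
    unfold dA dB
    rw [X0, Y0, X2, Y2]
    ring
  rw [hex, ← qg, ← rg] at k1 k2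
  constructor <;> linarith [D.hr]

theorem p12 (D : Dev T L q r) : (-61/10000) * r ≤ (-1613/2500) * dA T q 6 + (191/250) * dB T q 6 + (1/2) * dG T q 6 + (1613/2500) * dA T q 7 + (-191/250) * dB T q 7 + (-953/2500) * dG T q 7 ∧
    (-61/10000) * r ≤ (-1613/2500) * dA T q 6 + (191/250) * dB T q 6 + (-953/2500) * dG T q 6 + (1613/2500) * dA T q 7 + (-191/250) * dB T q 7 + (1/2) * dG T q 7 := by
  have hS := D.sep 6 7 (by decide)
  have hx : |(q 7).x - (q 6).x - 0.735966| ≤ 0.002006 := by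
    have := D.dx 6 7
    have e : RX 7 - RX 6 = 0.735966 := by
      change (2.424525 : ℝ) - 1.688559 = 0.735966
      norm_num
    rwa [e] at this
  have hy : |(q 7).y - (q 6).y - (-0.687359)| ≤ 0.002006 := by
    have := D.dy 6 7
    have e : RY 7 - RY 6 = (-0.687359) := by
      change (1.272254 : ℝ) - 1.959613 = (-0.687359)
      norm_num
    rwa [e] at this
  have hX : |(0.735966 : ℝ)| ≤ 0.736966 := abs_le.2 ⟨by norm_num, by norm_num⟩
  have hY : |((-0.687359) : ℝ)| ≤ 0.688359 := abs_le.2 ⟨by norm_num, by norm_num⟩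
  obtain ⟨qu, qpos, qs, qc', qs'⟩ := D.tilt 6 rfl rfl
  obtain ⟨ru, rpos, rs, rc', rs'⟩ := D.tilt 7 rfl rfl
  have nqc : |(q 6).c - 0.7639995| ≤ 0.002001 := D.nc 6
  have nqs : |(q 6).s - 0.6452169| ≤ 0.002001 := D.ns 6
  have nrc : |(q 7).c - 0.7639995| ≤ 0.002001 := D.nc 7
  have nrs : |(q 7).s - 0.6452169| ≤ 0.002001 := D.ns 7
  obtain ⟨v1, v2, v3, v4, hH⟩ := excl_edge hx hy nqc nqs nrc nrs hX hY
    (by norm_num) (by norm_num) (by norm_num) (by norm_num)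
  have h : 1 / 2 + relH (q 6) (q 7) ≤ -(((q 7).y - (q 6).y) * (q 6).c - ((q 7).x - (q 6).x) * (q 6).s) ∨
      1 / 2 + relH (q 6) (q 7) ≤ -(((q 7).y - (q 6).y) * (q 7).c - ((q 7).x - (q 6).x) * (q 7).s) := by
    rw [abs_le] at v1 v2 v3 v4
    obtain ⟨v1, v1'⟩ := v1
    obtain ⟨v2, v2'⟩ := v2
    obtain ⟨v3, v3'⟩ := v3
    obtain ⟨v4, v4'⟩ := v4
    rcases hS with h | h | h | h <;> rcases le_abs.1 h with h | h
    all_goals first | exact Or.inl h | exact Or.inr h | (exfalso; linarith)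
  have hEq : -(((q 7).y - (q 6).y) * (q 6).c - ((q 7).x - (q 6).x) * (q 6).s) = (-(((q 7).y - (q 6).y) * T.c - ((q 7).x - (q 6).x) * T.s)) * dK T q 6 + (((q 7).x - (q 6).x) * T.c + ((q 7).y - (q 6).y) * T.s) * dG T q 6 := by
    rw [qc', qs']; ring
  have hEr : -(((q 7).y - (q 6).y) * (q 7).c - ((q 7).x - (q 6).x) * (q 7).s) = (-(((q 7).y - (q 6).y) * T.c - ((q 7).x - (q 6).x) * T.s)) * dK T q 7 + (((q 7).x - (q 6).x) * T.c + ((q 7).y - (q 6).y) * T.s) * dG T q 7 := by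
    rw [rc', rs']; ring
  rw [hEq, hEr] at h
  obtain ⟨w1, w2⟩ := ef_bound D.num hx hy hX hY (by norm_num) (by norm_num)
  rw [abs_le] at w1 w2
  have hE : 0 ≤ (-(((q 7).y - (q 6).y) * T.c - ((q 7).x - (q 6).x) * T.s)) := by linarith [w1.1, w1.2, w2.1, w2.2]
  have hF : |(((q 7).x - (q 6).x) * T.c + ((q 7).y - (q 6).y) * T.s) - 0.1188| ≤ 0.0029 := by
    rw [abs_le]; constructor <;> linarith [w1.1, w1.2, w2.1, w2.2]
  obtain ⟨k1, k2⟩ := edge_final T.cs1 qu ru qpos rpos qs rs (D.g 6) (D.g 7) qc' qs' rc' rs'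
    hE hF (by norm_num) (by norm_num) h
  have X6 : (T.cfg 6).x = (T.c + 2 * T.s + 1 / 2) * T.c - (T.d * T.c - T.s - 1 / 2) * T.s := rfl
  have Y6 : (T.cfg 6).y = (T.c + 2 * T.s + 1 / 2) * T.s + (T.d * T.c - T.s - 1 / 2) * T.c := rfl
  have X7 : (T.cfg 7).x = (2 * T.c + T.s + 1 / 2) * T.c - (T.d * T.c - T.s - 3 / 2) * T.s := rfl
  have Y7 : (T.cfg 7).y = (2 * T.c + T.s + 1 / 2) * T.s + (T.d * T.c - T.s - 3 / 2) * T.c := rfl
  have hex : (-(((q 7).y - (q 6).y) * T.c - ((q 7).x - (q 6).x) * T.s)) - 1 = -(T.c * (dB T q 7 - dB T q 6) - T.s * (dA T q 7 - dA T q 6)) := by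
    unfold dA dB
    rw [X6, Y6, X7, Y7]
    linear_combination T.cs1
  have z1 := c_round D.num (diffA D 6 7)
  have z2 := c_round D.num (diffB D 6 7)
  have z3 := abs_le.1 z1.1
  have z4 := abs_le.1 z1.2
  have z5 := abs_le.1 z2.1
  have z6 := abs_le.1 z2.2
  rw [hex] at k1 k2
  constructor <;> linarith

theorem p13 (D : Dev T L q r) : (-61/10000) * r ≤ (-191/250) * dA T q 6 + (-1613/2500) * dB T q 6 + (1/2) * dG T q 6 + (191/250) * dA T q 8 + (1613/2500) * dB T q 8 + (-4751/10000) * dG T q 8 ∧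
    (-61/10000) * r ≤ (-191/250) * dA T q 6 + (-1613/2500) * dB T q 6 + (-4751/10000) * dG T q 6 + (191/250) * dA T q 8 + (1613/2500) * dB T q 8 + (1/2) * dG T q 8 := by
  have hS := D.sep 6 8 (by decide)
  have hx : |(q 8).x - (q 6).x - 0.747950| ≤ 0.002006 := by
    have := D.dx 6 8
    have e : RX 8 - RX 6 = 0.747950 := by
      change (2.436509 : ℝ) - 1.688559 = 0.747950
      norm_num
    rwa [e] at this
  have hy : |(q 8).y - (q 6).y - 0.664221| ≤ 0.002006 := by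
    have := D.dy 6 8
    have e : RY 8 - RY 6 = 0.664221 := by
      change (2.623834 : ℝ) - 1.959613 = 0.664221
      norm_num
    rwa [e] at this
  have hX : |(0.747950 : ℝ)| ≤ 0.748950 := abs_le.2 ⟨by norm_num, by norm_num⟩
  have hY : |(0.664221 : ℝ)| ≤ 0.665221 := abs_le.2 ⟨by norm_num, by norm_num⟩
  obtain ⟨qu, qpos, qs, qc', qs'⟩ := D.tilt 6 rfl rfl
  obtain ⟨ru, rpos, rs, rc', rs'⟩ := D.tilt 8 rfl rfl
  have nqc : |(q 6).c - 0.7639995| ≤ 0.002001 := D.nc 6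
  have nqs : |(q 6).s - 0.6452169| ≤ 0.002001 := D.ns 6
  have nrc : |(q 8).c - 0.7639995| ≤ 0.002001 := D.nc 8
  have nrs : |(q 8).s - 0.6452169| ≤ 0.002001 := D.ns 8
  obtain ⟨v1, v2, v3, v4, hH⟩ := excl_edge hx hy nqc nqs nrc nrs hX hY
    (by norm_num) (by norm_num) (by norm_num) (by norm_num)
  have h : 1 / 2 + relH (q 6) (q 8) ≤ ((q 8).x - (q 6).x) * (q 6).c + ((q 8).y - (q 6).y) * (q 6).s ∨
      1 / 2 + relH (q 6) (q 8) ≤ ((q 8).x - (q 6).x) * (q 8).c + ((q 8).y - (q 6).y) * (q 8).s := by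
    rw [abs_le] at v1 v2 v3 v4
    obtain ⟨v1, v1'⟩ := v1
    obtain ⟨v2, v2'⟩ := v2
    obtain ⟨v3, v3'⟩ := v3
    obtain ⟨v4, v4'⟩ := v4
    rcases hS with h | h | h | h <;> rcases le_abs.1 h with h | h
    all_goals first | exact Or.inl h | exact Or.inr h | (exfalso; linarith)
  have hEq : ((q 8).x - (q 6).x) * (q 6).c + ((q 8).y - (q 6).y) * (q 6).s = (((q 8).x - (q 6).x) * T.c + ((q 8).y - (q 6).y) * T.s) * dK T q 6 + (((q 8).y - (q 6).y) * T.c - ((q 8).x - (q 6).x) * T.s) * dG T q 6 := by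
    rw [qc', qs']; ring
  have hEr : ((q 8).x - (q 6).x) * (q 8).c + ((q 8).y - (q 6).y) * (q 8).s = (((q 8).x - (q 6).x) * T.c + ((q 8).y - (q 6).y) * T.s) * dK T q 8 + (((q 8).y - (q 6).y) * T.c - ((q 8).x - (q 6).x) * T.s) * dG T q 8 := by
    rw [rc', rs']; ring
  rw [hEq, hEr] at h
  obtain ⟨w1, w2⟩ := ef_bound D.num hx hy hX hY (by norm_num) (by norm_num)
  rw [abs_le] at w1 w2
  have hE : 0 ≤ (((q 8).x - (q 6).x) * T.c + ((q 8).y - (q 6).y) * T.s) := by linarith [w1.1, w1.2, w2.1, w2.2]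
  have hF : |(((q 8).y - (q 6).y) * T.c - ((q 8).x - (q 6).x) * T.s) - 0.0249| ≤ 0.0029 := by
    rw [abs_le]; constructor <;> linarith [w1.1, w1.2, w2.1, w2.2]
  obtain ⟨k1, k2⟩ := edge_final T.cs1 qu ru qpos rpos qs rs (D.g 6) (D.g 8) qc' qs' rc' rs'
    hE hF (by norm_num) (by norm_num) h
  have X6 : (T.cfg 6).x = (T.c + 2 * T.s + 1 / 2) * T.c - (T.d * T.c - T.s - 1 / 2) * T.s := rfl
  have Y6 : (T.cfg 6).y = (T.c + 2 * T.s + 1 / 2) * T.s + (T.d * T.c - T.s - 1 / 2) * T.c := rfl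
  have X8 : (T.cfg 8).x = (T.c + 2 * T.s + 3 / 2) * T.c - (T.w) * T.s := rfl
  have Y8 : (T.cfg 8).y = (T.c + 2 * T.s + 3 / 2) * T.s + (T.w) * T.c := rfl
  have hex : (((q 8).x - (q 6).x) * T.c + ((q 8).y - (q 6).y) * T.s) - 1 = T.c * (dA T q 8 - dA T q 6) + T.s * (dB T q 8 - dB T q 6) := by
    unfold dA dB
    rw [X6, Y6, X8, Y8]
    linear_combination T.cs1
  have z1 := c_round D.num (diffA D 6 8)
  have z2 := c_round D.num (diffB D 6 8)
  have z3 := abs_le.1 z1.1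
  have z4 := abs_le.1 z1.2
  have z5 := abs_le.1 z2.1
  have z6 := abs_le.1 z2.2
  rw [hex] at k1 k2
  constructor <;> linarith

theorem p25 (D : Dev T L q r) : (-61/10000) * r ≤ (-191/250) * dA T q 7 + (-1613/2500) * dB T q 7 + (1/2) * dG T q 7 + (191/250) * dA T q 10 + (1613/2500) * dB T q 10 + (-4751/10000) * dG T q 10 ∧
    (-61/10000) * r ≤ (-191/250) * dA T q 7 + (-1613/2500) * dB T q 7 + (-4751/10000) * dG T q 7 + (191/250) * dA T q 10 + (1613/2500) * dB T q 10 + (1/2) * dG T q 10 := by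
  have hS := D.sep 7 10 (by decide)
  have hx : |(q 10).x - (q 7).x - 0.747950| ≤ 0.002006 := by
    have := D.dx 7 10
    have e : RX 10 - RX 7 = 0.747950 := by
      change (3.172475 : ℝ) - 2.424525 = 0.747950
      norm_num
    rwa [e] at this
  have hy : |(q 10).y - (q 7).y - 0.664221| ≤ 0.002006 := by
    have := D.dy 7 10
    have e : RY 10 - RY 7 = 0.664221 := by
      change (1.936475 : ℝ) - 1.272254 = 0.664221
      norm_num
    rwa [e] at this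
  have hX : |(0.747950 : ℝ)| ≤ 0.748950 := abs_le.2 ⟨by norm_num, by norm_num⟩
  have hY : |(0.664221 : ℝ)| ≤ 0.665221 := abs_le.2 ⟨by norm_num, by norm_num⟩
  obtain ⟨qu, qpos, qs, qc', qs'⟩ := D.tilt 7 rfl rfl
  obtain ⟨ru, rpos, rs, rc', rs'⟩ := D.tilt 10 rfl rfl
  have nqc : |(q 7).c - 0.7639995| ≤ 0.002001 := D.nc 7
  have nqs : |(q 7).s - 0.6452169| ≤ 0.002001 := D.ns 7
  have nrc : |(q 10).c - 0.7639995| ≤ 0.002001 := D.nc 10
  have nrs : |(q 10).s - 0.6452169| ≤ 0.002001 := D.ns 10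
  obtain ⟨v1, v2, v3, v4, hH⟩ := excl_edge hx hy nqc nqs nrc nrs hX hY
    (by norm_num) (by norm_num) (by norm_num) (by norm_num)
  have h : 1 / 2 + relH (q 7) (q 10) ≤ ((q 10).x - (q 7).x) * (q 7).c + ((q 10).y - (q 7).y) * (q 7).s ∨
      1 / 2 + relH (q 7) (q 10) ≤ ((q 10).x - (q 7).x) * (q 10).c + ((q 10).y - (q 7).y) * (q 10).s := by
    rw [abs_le] at v1 v2 v3 v4
    obtain ⟨v1, v1'⟩ := v1
    obtain ⟨v2, v2'⟩ := v2
    obtain ⟨v3, v3'⟩ := v3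
    obtain ⟨v4, v4'⟩ := v4
    rcases hS with h | h | h | h <;> rcases le_abs.1 h with h | h
    all_goals first | exact Or.inl h | exact Or.inr h | (exfalso; linarith)
  have hEq : ((q 10).x - (q 7).x) * (q 7).c + ((q 10).y - (q 7).y) * (q 7).s = (((q 10).x - (q 7).x) * T.c + ((q 10).y - (q 7).y) * T.s) * dK T q 7 + (((q 10).y - (q 7).y) * T.c - ((q 10).x - (q 7).x) * T.s) * dG T q 7 := by
    rw [qc', qs']; ring
  have hEr : ((q 10).x - (q 7).x) * (q 10).c + ((q 10).y - (q 7).y) * (q 10).s = (((q 10).x - (q 7).x) * T.c + ((q 10).y - (q 7).y) * T.s) * dK T q 10 + (((q 10).y - (q 7).y) * T.c - ((q 10).x - (q 7).x) * T.s) * dG T q 10 := by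
    rw [rc', rs']; ring
  rw [hEq, hEr] at h
  obtain ⟨w1, w2⟩ := ef_bound D.num hx hy hX hY (by norm_num) (by norm_num)
  rw [abs_le] at w1 w2
  have hE : 0 ≤ (((q 10).x - (q 7).x) * T.c + ((q 10).y - (q 7).y) * T.s) := by linarith [w1.1, w1.2, w2.1, w2.2]
  have hF : |(((q 10).y - (q 7).y) * T.c - ((q 10).x - (q 7).x) * T.s) - 0.0249| ≤ 0.0029 := by
    rw [abs_le]; constructor <;> linarith [w1.1, w1.2, w2.1, w2.2]
  obtain ⟨k1, k2⟩ := edge_final T.cs1 qu ru qpos rpos qs rs (D.g 7) (D.g 10) qc' qs' rc' rs'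
    hE hF (by norm_num) (by norm_num) h
  have X7 : (T.cfg 7).x = (2 * T.c + T.s + 1 / 2) * T.c - (T.d * T.c - T.s - 3 / 2) * T.s := rfl
  have Y7 : (T.cfg 7).y = (2 * T.c + T.s + 1 / 2) * T.s + (T.d * T.c - T.s - 3 / 2) * T.c := rfl
  have X10 : (T.cfg 10).x = (2 * T.c + T.s + 3 / 2) * T.c - (T.w - 1) * T.s := rfl
  have Y10 : (T.cfg 10).y = (2 * T.c + T.s + 3 / 2) * T.s + (T.w - 1) * T.c := rfl
  have hex : (((q 10).x - (q 7).x) * T.c + ((q 10).y - (q 7).y) * T.s) - 1 = T.c * (dA T q 10 - dA T q 7) + T.s * (dB T q 10 - dB T q 7) := by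
    unfold dA dB
    rw [X7, Y7, X10, Y10]
    linear_combination T.cs1
  have z1 := c_round D.num (diffA D 7 10)
  have z2 := c_round D.num (diffB D 7 10)
  have z3 := abs_le.1 z1.1
  have z4 := abs_le.1 z1.2
  have z5 := abs_le.1 z2.1
  have z6 := abs_le.1 z2.2
  rw [hex] at k1 k2
  constructor <;> linarith

theorem p34 (D : Dev T L q r) : (-61/10000) * r ≤ (1613/2500) * dA T q 8 + (-191/250) * dB T q 8 + (1/2) * dG T q 8 + (-1613/2500) * dA T q 9 + (191/250) * dB T q 9 + (-831/5000) * dG T q 9 ∧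
    (-61/10000) * r ≤ (1613/2500) * dA T q 8 + (-191/250) * dB T q 8 + (-831/5000) * dG T q 8 + (-1613/2500) * dA T q 9 + (191/250) * dB T q 9 + (1/2) * dG T q 9 := by
  have hS := D.sep 8 9 (by decide)
  have hx : |(q 9).x - (q 8).x - (-0.900222)| ≤ 0.002006 := by
    have := D.dx 8 9
    have e : RX 9 - RX 8 = (-0.900222) := by
      change (1.536287 : ℝ) - 2.436509 = (-0.900222)
      norm_num
    rwa [e] at this
  have hy : |(q 9).y - (q 8).y - 0.548641| ≤ 0.002006 := by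
    have := D.dy 8 9
    have e : RY 9 - RY 8 = 0.548641 := by
      change (3.172475 : ℝ) - 2.623834 = 0.548641
      norm_num
    rwa [e] at this
  have hX : |((-0.900222) : ℝ)| ≤ 0.901222 := abs_le.2 ⟨by norm_num, by norm_num⟩
  have hY : |(0.548641 : ℝ)| ≤ 0.549641 := abs_le.2 ⟨by norm_num, by norm_num⟩
  obtain ⟨qu, qpos, qs, qc', qs'⟩ := D.tilt 8 rfl rfl
  obtain ⟨ru, rpos, rs, rc', rs'⟩ := D.tilt 9 rfl rfl
  have nqc : |(q 8).c - 0.7639995| ≤ 0.002001 := D.nc 8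
  have nqs : |(q 8).s - 0.6452169| ≤ 0.002001 := D.ns 8
  have nrc : |(q 9).c - 0.7639995| ≤ 0.002001 := D.nc 9
  have nrs : |(q 9).s - 0.6452169| ≤ 0.002001 := D.ns 9
  obtain ⟨v1, v2, v3, v4, hH⟩ := excl_edge hx hy nqc nqs nrc nrs hX hY
    (by norm_num) (by norm_num) (by norm_num) (by norm_num)
  have h : 1 / 2 + relH (q 8) (q 9) ≤ ((q 9).y - (q 8).y) * (q 8).c - ((q 9).x - (q 8).x) * (q 8).s ∨
      1 / 2 + relH (q 8) (q 9) ≤ ((q 9).y - (q 8).y) * (q 9).c - ((q 9).x - (q 8).x) * (q 9).s := by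
    rw [abs_le] at v1 v2 v3 v4
    obtain ⟨v1, v1'⟩ := v1
    obtain ⟨v2, v2'⟩ := v2
    obtain ⟨v3, v3'⟩ := v3
    obtain ⟨v4, v4'⟩ := v4
    rcases hS with h | h | h | h <;> rcases le_abs.1 h with h | h
    all_goals first | exact Or.inl h | exact Or.inr h | (exfalso; linarith)
  have hEq : ((q 9).y - (q 8).y) * (q 8).c - ((q 9).x - (q 8).x) * (q 8).s = (((q 9).y - (q 8).y) * T.c - ((q 9).x - (q 8).x) * T.s) * dK T q 8 + (-(((q 9).x - (q 8).x) * T.c + ((q 9).y - (q 8).y) * T.s)) * dG T q 8 := by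
    rw [qc', qs']; ring
  have hEr : ((q 9).y - (q 8).y) * (q 9).c - ((q 9).x - (q 8).x) * (q 9).s = (((q 9).y - (q 8).y) * T.c - ((q 9).x - (q 8).x) * T.s) * dK T q 9 + (-(((q 9).x - (q 8).x) * T.c + ((q 9).y - (q 8).y) * T.s)) * dG T q 9 := by
    rw [rc', rs']; ring
  rw [hEq, hEr] at h
  obtain ⟨w1, w2⟩ := ef_bound D.num hx hy hX hY (by norm_num) (by norm_num)
  rw [abs_le] at w1 w2
  have hE : 0 ≤ (((q 9).y - (q 8).y) * T.c - ((q 9).x - (q 8).x) * T.s) := by linarith [w1.1, w1.2, w2.1, w2.2]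
  have hF : |(-(((q 9).x - (q 8).x) * T.c + ((q 9).y - (q 8).y) * T.s)) - 0.3338| ≤ 0.0029 := by
    rw [abs_le]; constructor <;> linarith [w1.1, w1.2, w2.1, w2.2]
  obtain ⟨k1, k2⟩ := edge_final T.cs1 qu ru qpos rpos qs rs (D.g 8) (D.g 9) qc' qs' rc' rs'
    hE hF (by norm_num) (by norm_num) h
  have X8 : (T.cfg 8).x = (T.c + 2 * T.s + 3 / 2) * T.c - (T.w) * T.s := rfl
  have Y8 : (T.cfg 8).y = (T.c + 2 * T.s + 3 / 2) * T.s + (T.w) * T.c := rfl
  have X9 : (T.cfg 9).x = (T.c + (T.d + 1) * T.s + 1 / 2) * T.c - (T.w + 1) * T.s := rfl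
  have Y9 : (T.cfg 9).y = (T.c + (T.d + 1) * T.s + 1 / 2) * T.s + (T.w + 1) * T.c := rfl
  have hex : (((q 9).y - (q 8).y) * T.c - ((q 9).x - (q 8).x) * T.s) - 1 = T.c * (dB T q 9 - dB T q 8) - T.s * (dA T q 9 - dA T q 8) := by
    unfold dA dB
    rw [X8, Y8, X9, Y9]
    linear_combination T.cs1
  have z1 := c_round D.num (diffA D 8 9)
  have z2 := c_round D.num (diffB D 8 9)
  have z3 := abs_le.1 z1.1
  have z4 := abs_le.1 z1.2
  have z5 := abs_le.1 z2.1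
  have z6 := abs_le.1 z2.2
  rw [hex] at k1 k2
  constructor <;> linarith

theorem p35 (D : Dev T L q r) : (-61/10000) * r ≤ (-1613/2500) * dA T q 8 + (191/250) * dB T q 8 + (1/2) * dG T q 8 + (1613/2500) * dA T q 10 + (-191/250) * dB T q 10 + (-953/2500) * dG T q 10 ∧
    (-61/10000) * r ≤ (-1613/2500) * dA T q 8 + (191/250) * dB T q 8 + (-953/2500) * dG T q 8 + (1613/2500) * dA T q 10 + (-191/250) * dB T q 10 + (1/2) * dG T q 10 := by
  have hS := D.sep 8 10 (by decide)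
  have hx : |(q 10).x - (q 8).x - 0.735966| ≤ 0.002006 := by
    have := D.dx 8 10
    have e : RX 10 - RX 8 = 0.735966 := by
      change (3.172475 : ℝ) - 2.436509 = 0.735966
      norm_num
    rwa [e] at this
  have hy : |(q 10).y - (q 8).y - (-0.687359)| ≤ 0.002006 := by
    have := D.dy 8 10
    have e : RY 10 - RY 8 = (-0.687359) := by
      change (1.936475 : ℝ) - 2.623834 = (-0.687359)
      norm_num
    rwa [e] at this
  have hX : |(0.735966 : ℝ)| ≤ 0.736966 := abs_le.2 ⟨by norm_num, by norm_num⟩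
  have hY : |((-0.687359) : ℝ)| ≤ 0.688359 := abs_le.2 ⟨by norm_num, by norm_num⟩
  obtain ⟨qu, qpos, qs, qc', qs'⟩ := D.tilt 8 rfl rfl
  obtain ⟨ru, rpos, rs, rc', rs'⟩ := D.tilt 10 rfl rfl
  have nqc : |(q 8).c - 0.7639995| ≤ 0.002001 := D.nc 8
  have nqs : |(q 8).s - 0.6452169| ≤ 0.002001 := D.ns 8
  have nrc : |(q 10).c - 0.7639995| ≤ 0.002001 := D.nc 10
  have nrs : |(q 10).s - 0.6452169| ≤ 0.002001 := D.ns 10
  obtain ⟨v1, v2, v3, v4, hH⟩ := excl_edge hx hy nqc nqs nrc nrs hX hY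
    (by norm_num) (by norm_num) (by norm_num) (by norm_num)
  have h : 1 / 2 + relH (q 8) (q 10) ≤ -(((q 10).y - (q 8).y) * (q 8).c - ((q 10).x - (q 8).x) * (q 8).s) ∨
      1 / 2 + relH (q 8) (q 10) ≤ -(((q 10).y - (q 8).y) * (q 10).c - ((q 10).x - (q 8).x) * (q 10).s) := by
    rw [abs_le] at v1 v2 v3 v4
    obtain ⟨v1, v1'⟩ := v1
    obtain ⟨v2, v2'⟩ := v2
    obtain ⟨v3, v3'⟩ := v3
    obtain ⟨v4, v4'⟩ := v4
    rcases hS with h | h | h | h <;> rcases le_abs.1 h with h | h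
    all_goals first | exact Or.inl h | exact Or.inr h | (exfalso; linarith)
  have hEq : -(((q 10).y - (q 8).y) * (q 8).c - ((q 10).x - (q 8).x) * (q 8).s) = (-(((q 10).y - (q 8).y) * T.c - ((q 10).x - (q 8).x) * T.s)) * dK T q 8 + (((q 10).x - (q 8).x) * T.c + ((q 10).y - (q 8).y) * T.s) * dG T q 8 := by
    rw [qc', qs']; ring
  have hEr : -(((q 10).y - (q 8).y) * (q 10).c - ((q 10).x - (q 8).x) * (q 10).s) = (-(((q 10).y - (q 8).y) * T.c - ((q 10).x - (q 8).x) * T.s)) * dK T q 10 + (((q 10).x - (q 8).x) * T.c + ((q 10).y - (q 8).y) * T.s) * dG T q 10 := by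
    rw [rc', rs']; ring
  rw [hEq, hEr] at h
  obtain ⟨w1, w2⟩ := ef_bound D.num hx hy hX hY (by norm_num) (by norm_num)
  rw [abs_le] at w1 w2
  have hE : 0 ≤ (-(((q 10).y - (q 8).y) * T.c - ((q 10).x - (q 8).x) * T.s)) := by linarith [w1.1, w1.2, w2.1, w2.2]
  have hF : |(((q 10).x - (q 8).x) * T.c + ((q 10).y - (q 8).y) * T.s) - 0.1188| ≤ 0.0029 := by
    rw [abs_le]; constructor <;> linarith [w1.1, w1.2, w2.1, w2.2]
  obtain ⟨k1, k2⟩ := edge_final T.cs1 qu ru qpos rpos qs rs (D.g 8) (D.g 10) qc' qs' rc' rs'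
    hE hF (by norm_num) (by norm_num) h
  have X8 : (T.cfg 8).x = (T.c + 2 * T.s + 3 / 2) * T.c - (T.w) * T.s := rfl
  have Y8 : (T.cfg 8).y = (T.c + 2 * T.s + 3 / 2) * T.s + (T.w) * T.c := rfl
  have X10 : (T.cfg 10).x = (2 * T.c + T.s + 3 / 2) * T.c - (T.w - 1) * T.s := rfl
  have Y10 : (T.cfg 10).y = (2 * T.c + T.s + 3 / 2) * T.s + (T.w - 1) * T.c := rfl
  have hex : (-(((q 10).y - (q 8).y) * T.c - ((q 10).x - (q 8).x) * T.s)) - 1 = -(T.c * (dB T q 10 - dB T q 8) - T.s * (dA T q 10 - dA T q 8)) := by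
    unfold dA dB
    rw [X8, Y8, X10, Y10]
    linear_combination T.cs1
  have z1 := c_round D.num (diffA D 8 10)
  have z2 := c_round D.num (diffB D 8 10)
  have z3 := abs_le.1 z1.1
  have z4 := abs_le.1 z1.2
  have z5 := abs_le.1 z2.1
  have z6 := abs_le.1 z2.2
  rw [hex] at k1 k2
  constructor <;> linarith

theorem pB2 (D : Dev T L q r) : (-33/5000) * r ≤ (-191/250) * dA T q 1 + (-1613/2500) * dB T q 1 + (297/5000) * dG T q 1 + (191/250) * dA T q 7 + (1613/2500) * dB T q 7 + (-659/10000) * dG T q 7 := by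
  have hS := D.sep 1 7 (by decide)
  have hx : |(q 7).x - (q 1).x - 0.924525| ≤ 0.002006 := by
    have := D.dx 1 7
    have e : RX 7 - RX 1 = 0.924525 := by
      change (2.424525 : ℝ) - 1.5 = 0.924525
      norm_num
    rwa [e] at this
  have hy : |(q 7).y - (q 1).y - 0.772254| ≤ 0.002006 := by
    have := D.dy 1 7
    have e : RY 7 - RY 1 = 0.772254 := by
      change (1.272254 : ℝ) - 0.5 = 0.772254
      norm_num
    rwa [e] at this
  have hX : |(0.924525 : ℝ)| ≤ 0.925525 := abs_le.2 ⟨by norm_num, by norm_num⟩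
  have hY : |(0.772254 : ℝ)| ≤ 0.773254 := abs_le.2 ⟨by norm_num, by norm_num⟩
  obtain ⟨qpos, qs, qc, qg, -⟩ := D.axis 1 rfl rfl
  obtain ⟨ru, rpos, rs, rc', rs'⟩ := D.tilt 7 rfl rfl
  have hqs : |(q 1).s - 0| ≤ 0.002 := by rw [sub_zero]; linarith
  obtain ⟨v1, v2, v3, v4, hH⟩ := excl_corner hx hy qc hqs (D.nc 7) (D.ns 7) hX hY
  have h : 1 / 2 + relH (q 1) (q 7) ≤ ((q 7).x - (q 1).x) * (q 7).c + ((q 7).y - (q 1).y) * (q 7).s := by
    rw [abs_le] at v1 v2 v3 v4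
    obtain ⟨v1, v1'⟩ := v1
    obtain ⟨v2, v2'⟩ := v2
    obtain ⟨v3, v3'⟩ := v3
    obtain ⟨v4, v4'⟩ := v4
    rcases hS with h | h | h | h <;> rcases le_abs.1 h with h | h
    all_goals first | exact h | (exfalso; linarith)
  have hEF : ((q 7).x - (q 1).x) * (q 7).c + ((q 7).y - (q 1).y) * (q 7).s = (((q 7).x - (q 1).x) * T.c + ((q 7).y - (q 1).y) * T.s) * dK T q 7 + (((q 7).y - (q 1).y) * T.c - ((q 7).x - (q 1).x) * T.s) * dG T q 7 := by
    rw [rc', rs']; ring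
  rw [hEF] at h
  obtain ⟨w1, w2⟩ := ef_bound D.num hx hy hX hY (by norm_num) (by norm_num)
  rw [abs_le] at w1 w2
  have hE : 0 ≤ (((q 7).x - (q 1).x) * T.c + ((q 7).y - (q 1).y) * T.s) := by linarith [w1.1, w1.2, w2.1, w2.2]
  have hF : |(((q 7).y - (q 1).y) * T.c - ((q 7).x - (q 1).x) * T.s) - (-0.0065)| ≤ 0.0029 := by
    rw [abs_le]; constructor <;> linarith [w1.1, w1.2, w2.1, w2.2]
  have h3 : |(q 1).s| ≤ r := by rw [← qg]; exact D.g 1
  have key := corner_final D.num (D.pack.unit 1) ru qpos rpos qs rs h3 (D.g 7) rc' rs' hE hF h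
  have X1 : (T.cfg 1).x = 3 / 2 := rfl
  have Y1 : (T.cfg 1).y = 1 / 2 := rfl
  have X7 : (T.cfg 7).x = (2 * T.c + T.s + 1 / 2) * T.c - (T.d * T.c - T.s - 3 / 2) * T.s := rfl
  have Y7 : (T.cfg 7).y = (2 * T.c + T.s + 1 / 2) * T.s + (T.d * T.c - T.s - 3 / 2) * T.c := rfl
  have hex : (((q 7).x - (q 1).x) * T.c + ((q 7).y - (q 1).y) * T.s) - (1 / 2 + (T.c + T.s) / 2) = T.c * (dA T q 7 - dA T q 1) + T.s * (dB T q 7 - dB T q 1) := by
    unfold dA dB
    rw [X1, Y1, X7, Y7]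
    linear_combination (2 * T.c + T.s + 1 / 2) * T.cs1
  have z1 := c_round D.num (diffA D 1 7)
  have z2 := c_round D.num (diffB D 1 7)
  have z3 := abs_le.1 z1.1
  have z4 := abs_le.1 z1.2
  have z5 := abs_le.1 z2.1
  have z6 := abs_le.1 z2.2
  rw [hex, ← qg] at key
  linarith

theorem pC1 (D : Dev T L q r) : (-33/5000) * r ≤ (-191/250) * dA T q 2 + (-1613/2500) * dB T q 2 + (297/5000) * dG T q 2 + (191/250) * dA T q 6 + (1613/2500) * dB T q 6 + (-4751/10000) * dG T q 6 := by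
  have hS := D.sep 2 6 (by decide)
  have hx : |(q 6).x - (q 2).x - 1.188559| ≤ 0.002006 := by
    have := D.dx 2 6
    have e : RX 6 - RX 2 = 1.188559 := by
      change (1.688559 : ℝ) - 0.5 = 1.188559
      norm_num
    rwa [e] at this
  have hy : |(q 6).y - (q 2).y - 0.459613| ≤ 0.002006 := by
    have := D.dy 2 6
    have e : RY 6 - RY 2 = 0.459613 := by
      change (1.959613 : ℝ) - 1.5 = 0.459613
      norm_num
    rwa [e] at this
  have hX : |(1.188559 : ℝ)| ≤ 1.189559 := abs_le.2 ⟨by norm_num, by norm_num⟩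
  have hY : |(0.459613 : ℝ)| ≤ 0.460613 := abs_le.2 ⟨by norm_num, by norm_num⟩
  obtain ⟨qpos, qs, qc, qg, -⟩ := D.axis 2 rfl rfl
  obtain ⟨ru, rpos, rs, rc', rs'⟩ := D.tilt 6 rfl rfl
  have hqs : |(q 2).s - 0| ≤ 0.002 := by rw [sub_zero]; linarith
  obtain ⟨v1, v2, v3, v4, hH⟩ := excl_corner hx hy qc hqs (D.nc 6) (D.ns 6) hX hY
  have h : 1 / 2 + relH (q 2) (q 6) ≤ ((q 6).x - (q 2).x) * (q 6).c + ((q 6).y - (q 2).y) * (q 6).s := by
    rw [abs_le] at v1 v2 v3 v4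
    obtain ⟨v1, v1'⟩ := v1
    obtain ⟨v2, v2'⟩ := v2
    obtain ⟨v3, v3'⟩ := v3
    obtain ⟨v4, v4'⟩ := v4
    rcases hS with h | h | h | h <;> rcases le_abs.1 h with h | h
    all_goals first | exact h | (exfalso; linarith)
  have hEF : ((q 6).x - (q 2).x) * (q 6).c + ((q 6).y - (q 2).y) * (q 6).s = (((q 6).x - (q 2).x) * T.c + ((q 6).y - (q 2).y) * T.s) * dK T q 6 + (((q 6).y - (q 2).y) * T.c - ((q 6).x - (q 2).x) * T.s) * dG T q 6 := by
    rw [rc', rs']; ring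
  rw [hEF] at h
  obtain ⟨w1, w2⟩ := ef_bound D.num hx hy hX hY (by norm_num) (by norm_num)
  rw [abs_le] at w1 w2
  have hE : 0 ≤ (((q 6).x - (q 2).x) * T.c + ((q 6).y - (q 2).y) * T.s) := by linarith [w1.1, w1.2, w2.1, w2.2]
  have hF : |(((q 6).y - (q 2).y) * T.c - ((q 6).x - (q 2).x) * T.s) - (-0.4157)| ≤ 0.0029 := by
    rw [abs_le]; constructor <;> linarith [w1.1, w1.2, w2.1, w2.2]
  have h3 : |(q 2).s| ≤ r := by rw [← qg]; exact D.g 2
  have key := corner_final D.num (D.pack.unit 2) ru qpos rpos qs rs h3 (D.g 6) rc' rs' hE hF h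
  have X2 : (T.cfg 2).x = 1 / 2 := rfl
  have Y2 : (T.cfg 2).y = 3 / 2 := rfl
  have X6 : (T.cfg 6).x = (T.c + 2 * T.s + 1 / 2) * T.c - (T.d * T.c - T.s - 1 / 2) * T.s := rfl
  have Y6 : (T.cfg 6).y = (T.c + 2 * T.s + 1 / 2) * T.s + (T.d * T.c - T.s - 1 / 2) * T.c := rfl
  have hex : (((q 6).x - (q 2).x) * T.c + ((q 6).y - (q 2).y) * T.s) - (1 / 2 + (T.c + T.s) / 2) = T.c * (dA T q 6 - dA T q 2) + T.s * (dB T q 6 - dB T q 2) := by
    unfold dA dB
    rw [X2, Y2, X6, Y6]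
    linear_combination (T.c + 2 * T.s + 1 / 2) * T.cs1
  have z1 := c_round D.num (diffA D 2 6)
  have z2 := c_round D.num (diffB D 2 6)
  have z3 := abs_le.1 z1.1
  have z4 := abs_le.1 z1.2
  have z5 := abs_le.1 z2.1
  have z6 := abs_le.1 z2.2
  rw [hex, ← qg] at key
  linarith

theorem pD1 (D : Dev T L q r) : (-33/5000) * r ≤ (-1613/2500) * dA T q 3 + (191/250) * dB T q 3 + (297/5000) * dG T q 3 + (1613/2500) * dA T q 6 + (-191/250) * dB T q 6 + (479/1000) * dG T q 6 := by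
  have hS := D.sep 3 6 (by decide)
  have hx : |(q 6).x - (q 3).x - 1.188559| ≤ 0.002006 := by
    have := D.dx 3 6
    have e : RX 6 - RX 3 = 1.188559 := by
      change (1.688559 : ℝ) - 0.5 = 1.188559
      norm_num
    rwa [e] at this
  have hy : |(q 6).y - (q 3).y - (-0.572945)| ≤ 0.002006 := by
    have := D.dy 3 6
    have e : RY 6 - RY 3 = (-0.572945) := by
      change (1.959613 : ℝ) - 2.532558 = (-0.572945)
      norm_num
    rwa [e] at this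
  have hX : |(1.188559 : ℝ)| ≤ 1.189559 := abs_le.2 ⟨by norm_num, by norm_num⟩
  have hY : |((-0.572945) : ℝ)| ≤ 0.573945 := abs_le.2 ⟨by norm_num, by norm_num⟩
  obtain ⟨qpos, qs, qc, qg, -⟩ := D.axis 3 rfl rfl
  obtain ⟨ru, rpos, rs, rc', rs'⟩ := D.tilt 6 rfl rfl
  have hqs : |(q 3).s - 0| ≤ 0.002 := by rw [sub_zero]; linarith
  obtain ⟨v1, v2, v3, v4, hH⟩ := excl_corner hx hy qc hqs (D.nc 6) (D.ns 6) hX hY
  have h : 1 / 2 + relH (q 3) (q 6) ≤ -(((q 6).y - (q 3).y) * (q 6).c - ((q 6).x - (q 3).x) * (q 6).s) := by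
    rw [abs_le] at v1 v2 v3 v4
    obtain ⟨v1, v1'⟩ := v1
    obtain ⟨v2, v2'⟩ := v2
    obtain ⟨v3, v3'⟩ := v3
    obtain ⟨v4, v4'⟩ := v4
    rcases hS with h | h | h | h <;> rcases le_abs.1 h with h | h
    all_goals first | exact h | (exfalso; linarith)
  have hEF : -(((q 6).y - (q 3).y) * (q 6).c - ((q 6).x - (q 3).x) * (q 6).s) = (-(((q 6).y - (q 3).y) * T.c - ((q 6).x - (q 3).x) * T.s)) * dK T q 6 + (((q 6).x - (q 3).x) * T.c + ((q 6).y - (q 3).y) * T.s) * dG T q 6 := by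
    rw [rc', rs']; ring
  rw [hEF] at h
  obtain ⟨w1, w2⟩ := ef_bound D.num hx hy hX hY (by norm_num) (by norm_num)
  rw [abs_le] at w1 w2
  have hE : 0 ≤ (-(((q 6).y - (q 3).y) * T.c - ((q 6).x - (q 3).x) * T.s)) := by linarith [w1.1, w1.2, w2.1, w2.2]
  have hF : |(((q 6).x - (q 3).x) * T.c + ((q 6).y - (q 3).y) * T.s) - 0.5384| ≤ 0.0029 := by
    rw [abs_le]; constructor <;> linarith [w1.1, w1.2, w2.1, w2.2]
  have h3 : |(q 3).s| ≤ r := by rw [← qg]; exact D.g 3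
  have key := corner_final D.num (D.pack.unit 3) ru qpos rpos qs rs h3 (D.g 6) rc' rs' hE hF h
  have X3 : (T.cfg 3).x = 1 / 2 := rfl
  have Y3 : (T.cfg 3).y = T.d + 1 / 2 := rfl
  have X6 : (T.cfg 6).x = (T.c + 2 * T.s + 1 / 2) * T.c - (T.d * T.c - T.s - 1 / 2) * T.s := rfl
  have Y6 : (T.cfg 6).y = (T.c + 2 * T.s + 1 / 2) * T.s + (T.d * T.c - T.s - 1 / 2) * T.c := rfl
  have hex : (-(((q 6).y - (q 3).y) * T.c - ((q 6).x - (q 3).x) * T.s)) - (1 / 2 + (T.c + T.s) / 2) = -(T.c * (dB T q 6 - dB T q 3) - T.s * (dA T q 6 - dA T q 3)) := by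
    unfold dA dB
    rw [X3, Y3, X6, Y6]
    linear_combination (-(T.d * T.c - T.s - 1 / 2)) * T.cs1
  have z1 := c_round D.num (diffA D 3 6)
  have z2 := c_round D.num (diffB D 3 6)
  have z3 := abs_le.1 z1.1
  have z4 := abs_le.1 z1.2
  have z5 := abs_le.1 z2.1
  have z6 := abs_le.1 z2.2
  rw [hex, ← qg] at key
  linarith

theorem pD4 (D : Dev T L q r) : (-33/5000) * r ≤ (-191/250) * dA T q 3 + (-1613/2500) * dB T q 3 + (297/5000) * dG T q 3 + (191/250) * dA T q 9 + (1613/2500) * dB T q 9 + (-2391/10000) * dG T q 9 := by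
  have hS := D.sep 3 9 (by decide)
  have hx : |(q 9).x - (q 3).x - 1.036287| ≤ 0.002006 := by
    have := D.dx 3 9
    have e : RX 9 - RX 3 = 1.036287 := by
      change (1.536287 : ℝ) - 0.5 = 1.036287
      norm_num
    rwa [e] at this
  have hy : |(q 9).y - (q 3).y - 0.639917| ≤ 0.002006 := by
    have := D.dy 3 9
    have e : RY 9 - RY 3 = 0.639917 := by
      change (3.172475 : ℝ) - 2.532558 = 0.639917
      norm_num
    rwa [e] at this
  have hX : |(1.036287 : ℝ)| ≤ 1.037287 := abs_le.2 ⟨by norm_num, by norm_num⟩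
  have hY : |(0.639917 : ℝ)| ≤ 0.640917 := abs_le.2 ⟨by norm_num, by norm_num⟩
  obtain ⟨qpos, qs, qc, qg, -⟩ := D.axis 3 rfl rfl
  obtain ⟨ru, rpos, rs, rc', rs'⟩ := D.tilt 9 rfl rfl
  have hqs : |(q 3).s - 0| ≤ 0.002 := by rw [sub_zero]; linarith
  obtain ⟨v1, v2, v3, v4, hH⟩ := excl_corner hx hy qc hqs (D.nc 9) (D.ns 9) hX hY
  have h : 1 / 2 + relH (q 3) (q 9) ≤ ((q 9).x - (q 3).x) * (q 9).c + ((q 9).y - (q 3).y) * (q 9).s := by
    rw [abs_le] at v1 v2 v3 v4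
    obtain ⟨v1, v1'⟩ := v1
    obtain ⟨v2, v2'⟩ := v2
    obtain ⟨v3, v3'⟩ := v3
    obtain ⟨v4, v4'⟩ := v4
    rcases hS with h | h | h | h <;> rcases le_abs.1 h with h | h
    all_goals first | exact h | (exfalso; linarith)
  have hEF : ((q 9).x - (q 3).x) * (q 9).c + ((q 9).y - (q 3).y) * (q 9).s = (((q 9).x - (q 3).x) * T.c + ((q 9).y - (q 3).y) * T.s) * dK T q 9 + (((q 9).y - (q 3).y) * T.c - ((q 9).x - (q 3).x) * T.s) * dG T q 9 := by
    rw [rc', rs']; ring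
  rw [hEF] at h
  obtain ⟨w1, w2⟩ := ef_bound D.num hx hy hX hY (by norm_num) (by norm_num)
  rw [abs_le] at w1 w2
  have hE : 0 ≤ (((q 9).x - (q 3).x) * T.c + ((q 9).y - (q 3).y) * T.s) := by linarith [w1.1, w1.2, w2.1, w2.2]
  have hF : |(((q 9).y - (q 3).y) * T.c - ((q 9).x - (q 3).x) * T.s) - (-0.1797)| ≤ 0.0029 := by
    rw [abs_le]; constructor <;> linarith [w1.1, w1.2, w2.1, w2.2]
  have h3 : |(q 3).s| ≤ r := by rw [← qg]; exact D.g 3
  have key := corner_final D.num (D.pack.unit 3) ru qpos rpos qs rs h3 (D.g 9) rc' rs' hE hF h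
  have X3 : (T.cfg 3).x = 1 / 2 := rfl
  have Y3 : (T.cfg 3).y = T.d + 1 / 2 := rfl
  have X9 : (T.cfg 9).x = (T.c + (T.d + 1) * T.s + 1 / 2) * T.c - (T.w + 1) * T.s := rfl
  have Y9 : (T.cfg 9).y = (T.c + (T.d + 1) * T.s + 1 / 2) * T.s + (T.w + 1) * T.c := rfl
  have hex : (((q 9).x - (q 3).x) * T.c + ((q 9).y - (q 3).y) * T.s) - (1 / 2 + (T.c + T.s) / 2) = T.c * (dA T q 9 - dA T q 3) + T.s * (dB T q 9 - dB T q 3) := by
    unfold dA dB
    rw [X3, Y3, X9, Y9]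
    linear_combination (T.c + (T.d + 1) * T.s + 1 / 2) * T.cs1
  have z1 := c_round D.num (diffA D 3 9)
  have z2 := c_round D.num (diffB D 3 9)
  have z3 := abs_le.1 z1.1
  have z4 := abs_le.1 z1.2
  have z5 := abs_le.1 z2.1
  have z6 := abs_le.1 z2.2
  rw [hex, ← qg] at key
  linarith

theorem pE2 (D : Dev T L q r) : (-33/5000) * r ≤ (1613/2500) * dA T q 4 + (-191/250) * dB T q 4 + (297/5000) * dG T q 4 + (-1613/2500) * dA T q 7 + (191/250) * dB T q 7 + (1701/10000) * dG T q 7 := by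
  have hS := D.sep 4 7 (by decide)
  have hx : |(q 7).x - (q 4).x - (-0.952559)| ≤ 0.002006 := by
    have := D.dx 4 7
    have e : RX 7 - RX 4 = (-0.952559) := by
      change (2.424525 : ℝ) - 3.377084 = (-0.952559)
      norm_num
    rwa [e] at this
  have hy : |(q 7).y - (q 4).y - 0.772254| ≤ 0.002006 := by
    have := D.dy 4 7
    have e : RY 7 - RY 4 = 0.772254 := by
      change (1.272254 : ℝ) - 0.5 = 0.772254
      norm_num
    rwa [e] at this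
  have hX : |((-0.952559) : ℝ)| ≤ 0.953559 := abs_le.2 ⟨by norm_num, by norm_num⟩
  have hY : |(0.772254 : ℝ)| ≤ 0.773254 := abs_le.2 ⟨by norm_num, by norm_num⟩
  obtain ⟨qpos, qs, qc, qg, -⟩ := D.axis 4 rfl rfl
  obtain ⟨ru, rpos, rs, rc', rs'⟩ := D.tilt 7 rfl rfl
  have hqs : |(q 4).s - 0| ≤ 0.002 := by rw [sub_zero]; linarith
  obtain ⟨v1, v2, v3, v4, hH⟩ := excl_corner hx hy qc hqs (D.nc 7) (D.ns 7) hX hY
  have h : 1 / 2 + relH (q 4) (q 7) ≤ ((q 7).y - (q 4).y) * (q 7).c - ((q 7).x - (q 4).x) * (q 7).s := by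
    rw [abs_le] at v1 v2 v3 v4
    obtain ⟨v1, v1'⟩ := v1
    obtain ⟨v2, v2'⟩ := v2
    obtain ⟨v3, v3'⟩ := v3
    obtain ⟨v4, v4'⟩ := v4
    rcases hS with h | h | h | h <;> rcases le_abs.1 h with h | h
    all_goals first | exact h | (exfalso; linarith)
  have hEF : ((q 7).y - (q 4).y) * (q 7).c - ((q 7).x - (q 4).x) * (q 7).s = (((q 7).y - (q 4).y) * T.c - ((q 7).x - (q 4).x) * T.s) * dK T q 7 + (-(((q 7).x - (q 4).x) * T.c + ((q 7).y - (q 4).y) * T.s)) * dG T q 7 := by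
    rw [rc', rs']; ring
  rw [hEF] at h
  obtain ⟨w1, w2⟩ := ef_bound D.num hx hy hX hY (by norm_num) (by norm_num)
  rw [abs_le] at w1 w2
  have hE : 0 ≤ (((q 7).y - (q 4).y) * T.c - ((q 7).x - (q 4).x) * T.s) := by linarith [w1.1, w1.2, w2.1, w2.2]
  have hF : |(-(((q 7).x - (q 4).x) * T.c + ((q 7).y - (q 4).y) * T.s)) - 0.2295| ≤ 0.0029 := by
    rw [abs_le]; constructor <;> linarith [w1.1, w1.2, w2.1, w2.2]
  have h3 : |(q 4).s| ≤ r := by rw [← qg]; exact D.g 4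
  have key := corner_final D.num (D.pack.unit 4) ru qpos rpos qs rs h3 (D.g 7) rc' rs' hE hF h
  have X4 : (T.cfg 4).x = T.L - 1 / 2 := rfl
  have Y4 : (T.cfg 4).y = 1 / 2 := rfl
  have X7 : (T.cfg 7).x = (2 * T.c + T.s + 1 / 2) * T.c - (T.d * T.c - T.s - 3 / 2) * T.s := rfl
  have Y7 : (T.cfg 7).y = (2 * T.c + T.s + 1 / 2) * T.s + (T.d * T.c - T.s - 3 / 2) * T.c := rfl
  have hex : (((q 7).y - (q 4).y) * T.c - ((q 7).x - (q 4).x) * T.s) - (1 / 2 + (T.c + T.s) / 2) = T.c * (dB T q 7 - dB T q 4) - T.s * (dA T q 7 - dA T q 4) := by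
    unfold dA dB
    rw [X4, Y4, X7, Y7]
    linear_combination (T.d * T.c - T.s - 3 / 2) * T.cs1 + T.dc
  have z1 := c_round D.num (diffA D 4 7)
  have z2 := c_round D.num (diffB D 4 7)
  have z3 := abs_le.1 z1.1
  have z4 := abs_le.1 z1.2
  have z5 := abs_le.1 z2.1
  have z6 := abs_le.1 z2.2
  rw [hex, ← qg] at key
  linarith

theorem pF3 (D : Dev T L q r) : (-33/5000) * r ≤ (191/250) * dA T q 5 + (1613/2500) * dB T q 5 + (297/5000) * dG T q 5 + (-191/250) * dA T q 8 + (-1613/2500) * dB T q 8 + (-227/2500) * dG T q 8 := by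
  have hS := D.sep 5 8 (by decide)
  have hx : |(q 8).x - (q 5).x - (-0.940575)| ≤ 0.002006 := by
    have := D.dx 5 8
    have e : RX 8 - RX 5 = (-0.940575) := by
      change (2.436509 : ℝ) - 3.377084 = (-0.940575)
      norm_num
    rwa [e] at this
  have hy : |(q 8).y - (q 5).y - (-0.753250)| ≤ 0.002006 := by
    have := D.dy 5 8
    have e : RY 8 - RY 5 = (-0.753250) := by
      change (2.623834 : ℝ) - 3.377084 = (-0.753250)
      norm_num
    rwa [e] at this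
  have hX : |((-0.940575) : ℝ)| ≤ 0.941575 := abs_le.2 ⟨by norm_num, by norm_num⟩
  have hY : |((-0.753250) : ℝ)| ≤ 0.754250 := abs_le.2 ⟨by norm_num, by norm_num⟩
  obtain ⟨qpos, qs, qc, qg, -⟩ := D.axis 5 rfl rfl
  obtain ⟨ru, rpos, rs, rc', rs'⟩ := D.tilt 8 rfl rfl
  have hqs : |(q 5).s - 0| ≤ 0.002 := by rw [sub_zero]; linarith
  obtain ⟨v1, v2, v3, v4, hH⟩ := excl_corner hx hy qc hqs (D.nc 8) (D.ns 8) hX hY
  have h : 1 / 2 + relH (q 5) (q 8) ≤ -(((q 8).x - (q 5).x) * (q 8).c + ((q 8).y - (q 5).y) * (q 8).s) := by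
    rw [abs_le] at v1 v2 v3 v4
    obtain ⟨v1, v1'⟩ := v1
    obtain ⟨v2, v2'⟩ := v2
    obtain ⟨v3, v3'⟩ := v3
    obtain ⟨v4, v4'⟩ := v4
    rcases hS with h | h | h | h <;> rcases le_abs.1 h with h | h
    all_goals first | exact h | (exfalso; linarith)
  have hEF : -(((q 8).x - (q 5).x) * (q 8).c + ((q 8).y - (q 5).y) * (q 8).s) = (-(((q 8).x - (q 5).x) * T.c + ((q 8).y - (q 5).y) * T.s)) * dK T q 8 + (-(((q 8).y - (q 5).y) * T.c - ((q 8).x - (q 5).x) * T.s)) * dG T q 8 := by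
    rw [rc', rs']; ring
  rw [hEF] at h
  obtain ⟨w1, w2⟩ := ef_bound D.num hx hy hX hY (by norm_num) (by norm_num)
  rw [abs_le] at w1 w2
  have hE : 0 ≤ (-(((q 8).x - (q 5).x) * T.c + ((q 8).y - (q 5).y) * T.s)) := by linarith [w1.1, w1.2, w2.1, w2.2]
  have hF : |(-(((q 8).y - (q 5).y) * T.c - ((q 8).x - (q 5).x) * T.s)) - (-0.0314)| ≤ 0.0029 := by
    rw [abs_le]; constructor <;> linarith [w1.1, w1.2, w2.1, w2.2]
  have h3 : |(q 5).s| ≤ r := by rw [← qg]; exact D.g 5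
  have key := corner_final D.num (D.pack.unit 5) ru qpos rpos qs rs h3 (D.g 8) rc' rs' hE hF h
  have X5 : (T.cfg 5).x = T.L - 1 / 2 := rfl
  have Y5 : (T.cfg 5).y = T.L - 1 / 2 := rfl
  have X8 : (T.cfg 8).x = (T.c + 2 * T.s + 3 / 2) * T.c - (T.w) * T.s := rfl
  have Y8 : (T.cfg 8).y = (T.c + 2 * T.s + 3 / 2) * T.s + (T.w) * T.c := rfl
  have hex : (-(((q 8).x - (q 5).x) * T.c + ((q 8).y - (q 5).y) * T.s)) - (1 / 2 + (T.c + T.s) / 2) = -(T.c * (dA T q 8 - dA T q 5) + T.s * (dB T q 8 - dB T q 5)) := by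
    unfold dA dB
    rw [X5, Y5, X8, Y8]
    linear_combination (-(T.c + 2 * T.s + 3 / 2)) * T.cs1 + T.Lcs
  have z1 := c_round D.num (diffA D 5 8)
  have z2 := c_round D.num (diffB D 5 8)
  have z3 := abs_le.1 z1.1
  have z4 := abs_le.1 z1.2
  have z5 := abs_le.1 z2.1
  have z6 := abs_le.1 z2.2
  rw [hex, ← qg] at key
  linarith

end Local
end Pool.Agent.MP_abb58c_co
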