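import Pool.Agent.Lib.MP_abb58c_co.LocalB
import Pool.Agent.Lib.MP_abb58c_co.LocalE

/-! MP_abb58c_co, module LOCAL: Trump's packing is locally optimal -/

namespace Pool.Agent.MP_abb58c_co
namespace Local

variable {T : TrumpData} {L r : ℝ} {q : Fin 11 → Sq}

theorem Dev.ineqs (D : Dev T L q r) : Ineqs (dA T q) (dB T q) (dG T q) (T.L - L) r where
  wAlp := (wAl D).1
  wAlm := (wAl D).2
  wAbp := (wAb D).1
  wAbm := (wAb D).2
  wBbp := (wBb D).1
  wBbm := (wBb D).2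
  wClp := (wCl D).1
  wClm := (wCl D).2
  wDlp := (wDl D).1
  wDlm := (wDl D).2
  wErp := (wEr D).1
  wErm := (wEr D).2
  wEbp := (wEb D).1
  wEbm := (wEb D).2
  wFrp := (wFr D).1
  wFrm := (wFr D).2
  wFtp := (wFt D).1
  wFtm := (wFt D).2
  w4t := w4t D
  w5r := w5r D
  pABp := (pAB D).1
  pABm := (pAB D).2
  pACp := (pAC D).1
  pACm := (pAC D).2
  p12p := (p12 D).1
  p12m := (p12 D).2
  p13p := (p13 D).1
  p13m := (p13 D).2
  p25p := (p25 D).1
  p25m := (p25 D).2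
  p34p := (p34 D).1
  p34m := (p34 D).2
  p35p := (p35 D).1
  p35m := (p35 D).2
  pB2 := pB2 D
  pC1 := pC1 D
  pD1 := pD1 D
  pD4 := pD4 D
  pE2 := pE2 D
  pF3 := pF3 D

end Local

open Local in
/-- (LOCAL) -/
theorem specLocal (hE : SpecExist) (hS : SpecSat) : SpecLocal := by
  intro T L q hL hP hdev
  obtain ⟨-, -, hnum, -⟩ := hE
  obtain ⟨n1, n2, n3, n4, n5, n6, n7, n8, n9, n10⟩ := hnum T
  have N : Num T := ⟨n1, n2, n3, n4, n5, n6, n7, n8, n9, n10⟩
  have hsep : ∀ i j, i ≠ j → Sep (q i) (q j) := fun i j hij =>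
    hS.1 (q i) (q j) (hP.unit i) (hP.unit j) (hP.disj i j hij)
  -- the maximal deviation
  obtain ⟨k, hk⟩ : ∃ k, ∀ i, max |dA T q i| (max |dB T q i| |dG T q i|) ≤
      max |dA T q k| (max |dB T q k| |dG T q k|) := Finite.exists_max _
  obtain ⟨r, hr⟩ : ∃ r, r = max |dA T q k| (max |dB T q k| |dG T q k|) := ⟨_, rfl⟩
  rw [← hr] at hk
  have D : Dev T L q r := ⟨N, hP, hL, hsep, fun i => (hdev i).1, fun i => (hdev i).2.1,
    fun i => (hdev i).2.2.1, fun i => (hdev i).2.2.2,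
    fun i => le_trans (le_max_left _ _) (hk i),
    fun i => le_trans (le_trans (le_max_left _ _) (le_max_right _ _)) (hk i),
    fun i => le_trans (le_trans (le_max_right _ _) (le_max_right _ _)) (hk i)⟩
  have hr0 := D.hr
  have hl : 0 ≤ T.L - L := sub_nonneg.2 hL
  obtain ⟨ha, hb, hg⟩ := D.ineqs.all hl hr0 k
  have hle : r ≤ r / 2 := by
    rw [hr] at ha hb hg ⊢
    exact max_le ha (max_le hb hg)
  have hz : r = 0 := by linarith
  have h5 := D.ineqs.w5r
  have a10 := D.a 10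
  have g10 := D.g 10
  rw [hz] at a10 g10 h5
  have a0 : dA T q 10 = 0 := abs_nonpos_iff.1 a10
  have g0 : dG T q 10 = 0 := abs_nonpos_iff.1 g10
  rw [a0, g0] at h5
  linarith

end Pool.Agent.MP_abb58c_co
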