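import Pool.Agent.Lib.MP_abb58c_co.FineMain
import Pool.Agent.Lib.MP_abb58c_co.FineExit3
import Pool.Agent.Lib.MP_abb58c_co.FineParts
import Pool.Agent.Lib.MP_abb58c_co.FineXY
import Pool.Agent.Lib.MP_abb58c_co.FineRow1K
import Pool.Agent.Lib.MP_abb58c_co.FineRow3K
import Pool.Agent.Lib.MP_abb58c_co.FineCertB
import Pool.Agent.Lib.MP_abb58c_co.Local
import Pool.Agent.Lib.MP_abb58c_co.Exist

/-! MP_abb58c_co, FINE: the entry node `nd 33` is good. -/

namespace Pool.Agent.MP_abb58c_co
namespace Fine

theorem specRow3' : SpecRow3 := specRow3 specTyp specGetL specCoef specBnd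

theorem specRow1' : SpecRow1 := specRow1 specOwn'

theorem specRun' : SpecRun := specRun specRow1' specRow3' specWall' specExcl'

theorem goodX : EntGood xy33 entX :=
  fun _T _L _w hL hc _hW _hxy hin =>
    exit3 (specLocal (specExist specSat) specSat) (tl := tiltS) (lo := eLo entX) (hi := eHi entX) (by decide +kernel) hL hc
      (inUBox_of_ent hin)

theorem goodA : EntGood xy33 entA :=
  entGood_run specRun' specXY (tab := [entX]) (c := cA) (rs := [])
    (fun e' he' => by rw [List.mem_singleton.1 he']; exact goodX)
    (by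
      rw [Bool.and_eq_true, Bool.and_eq_true]
      exact ⟨⟨by decide +kernel, rfl⟩, runA⟩)

theorem goodB : EntGood xy33 entB :=
  entGood_run specRun' specXY (tab := [entA]) (c := cB) (rs := [])
    (fun e' he' => by rw [List.mem_singleton.1 he']; exact goodA)
    (by
      rw [Bool.and_eq_true, Bool.and_eq_true]
      exact ⟨⟨by decide +kernel, rfl⟩, runB⟩)

end Fine

open Fine in
/-- FINE: the last node of the valley -/
theorem fine : GoodC (nd 33) := goodC_entry (xy := xy33) (e := entB) (by decide +kernel) goodB

end Pool.Agent.MP_abb58c_co
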