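import Mathlib

/-!
# MP_abb58c_co, FINE stage: SIMD arithmetic for Farkas certificates

Vectors with 34 entries are packed into one natural number, 144 bits per entry.
-/

set_option autoImplicit false

namespace Pool.Agent.MP_abb58c_co.Fine

open Finset

/-- digit number `v` in base `2^K` -/
def dg (K P v : ℕ) : ℕ := (P >>> (K * v)) % 2 ^ K

/-- packing -/
def pk (K n : ℕ) (f : ℕ → ℕ) : ℕ := ∑ v ∈ range n, f v * 2 ^ (K * v)

section pack

variable {K n : ℕ} {f g : ℕ → ℕ}

lemma pk_succ (K n : ℕ) (f : ℕ → ℕ) : pk K (n + 1) f = 2 ^ (K * n) * f n + pk K n f := by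
  unfold pk
  rw [sum_range_succ]
  ring

lemma pk_lt (hf : ∀ v < n, f v < 2 ^ K) : pk K n f < 2 ^ (K * n) := by
  induction n with
  | zero => simp [pk]
  | succ n ih =>
    rw [pk_succ]
    have h1 := ih (fun v hv => hf v (by omega))
    have h2 := hf n (by omega)
    have h3 : 2 ^ (K * (n + 1)) = 2 ^ (K * n) * 2 ^ K := by rw [← pow_add]; ring_nf
    rw [h3]
    have h4 : 2 ^ (K * n) * f n + 2 ^ (K * n) ≤ 2 ^ (K * n) * 2 ^ K := by
      have : 2 ^ (K * n) * (f n + 1) ≤ 2 ^ (K * n) * 2 ^ K := Nat.mul_le_mul_left _ h2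
      linarith [this]
    omega

lemma pk_congr (h : ∀ v < n, f v = g v) : pk K n f = pk K n g :=
  sum_congr rfl (fun v hv => by rw [h v (mem_range.1 hv)])

lemma pk_add (K n : ℕ) (f g : ℕ → ℕ) : pk K n (fun v => f v + g v) = pk K n f + pk K n g := by
  unfold pk
  rw [← sum_add_distrib]
  exact sum_congr rfl (fun v _ => by ring)

lemma pk_smul (K n a : ℕ) (f : ℕ → ℕ) : pk K n (fun v => a * f v) = a * pk K n f := by
  unfold pk
  rw [mul_sum]
  exact sum_congr rfl (fun v _ => by ring)

lemma dg_eq (K P v : ℕ) : dg K P v = P / 2 ^ (K * v) % 2 ^ K := by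
  unfold dg
  rw [Nat.shiftRight_eq_div_pow]

lemma dg_lt (K P v : ℕ) : dg K P v < 2 ^ K := Nat.mod_lt _ (Nat.two_pow_pos K)

lemma dg_pk (hf : ∀ v < n, f v < 2 ^ K) : ∀ v < n, dg K (pk K n f) v = f v := by
  induction n with
  | zero => intro v hv; omega
  | succ n ih =>
    intro v hv
    have hlt := pk_lt (K := K) (n := n) (f := f) (fun v hv => hf v (by omega))
    rw [pk_succ, dg_eq]
    rcases Nat.lt_succ_iff_lt_or_eq.1 hv with h | h
    · have h1 : 2 ^ (K * n) = 2 ^ (K * v) * (2 ^ K * 2 ^ (K * (n - 1 - v))) := by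
        rw [← pow_add, ← pow_add]
        congr 1
        have : n = v + 1 + (n - 1 - v) := by omega
        conv_lhs => rw [this]
        ring
      rw [h1, mul_assoc, Nat.mul_add_div (Nat.two_pow_pos _), mul_assoc, Nat.mul_add_mod,
        ← dg_eq]
      exact ih (fun v hv => hf v (by omega)) v h
    · subst h
      rw [Nat.mul_add_div (Nat.two_pow_pos _), Nat.div_eq_of_lt hlt, add_zero,
        Nat.mod_eq_of_lt (hf v (by omega))]

lemma pk_dg (K n : ℕ) : ∀ P : ℕ, P < 2 ^ (K * n) → pk K n (dg K P) = P := by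
  induction n with
  | zero =>
    intro P hP
    simp only [Nat.mul_zero, pow_zero, Nat.lt_one_iff] at hP
    subst hP
    simp [pk]
  | succ n ih =>
    intro P hP
    rw [pk_succ]
    have h3 : 2 ^ (K * (n + 1)) = 2 ^ (K * n) * 2 ^ K := by rw [← pow_add]; ring_nf
    have h1 : P / 2 ^ (K * n) < 2 ^ K := Nat.div_lt_of_lt_mul (by rw [← h3]; exact hP)
    have h2 : dg K P n = P / 2 ^ (K * n) := by rw [dg_eq, Nat.mod_eq_of_lt h1]
    have h4 : pk K n (dg K P) = P % 2 ^ (K * n) := by
      rw [← ih (P % 2 ^ (K * n)) (Nat.mod_lt _ (Nat.two_pow_pos _))]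
      refine pk_congr (fun v hv => ?_)
      rw [dg_eq, dg_eq]
      have h5 : 2 ^ (K * n) = 2 ^ (K * v) * (2 ^ K * 2 ^ (K * (n - 1 - v))) := by
        rw [← pow_add, ← pow_add]
        congr 1
        have : n = v + 1 + (n - 1 - v) := by omega
        conv_lhs => rw [this]
        ring
      conv_lhs => rw [← Nat.div_add_mod P (2 ^ (K * n))]
      rw [h5, mul_assoc, Nat.mul_add_div (Nat.two_pow_pos _), mul_assoc, Nat.mul_add_mod]
    rw [h2, h4]
    exact Nat.div_add_mod P (2 ^ (K * n))

lemma land_add (m a b c d : ℕ) (hb : b < 2 ^ m) (hd : d < 2 ^ m) :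
    (2 ^ m * a + b) &&& (2 ^ m * c + d) = 2 ^ m * (a &&& c) + (b &&& d) := by
  have hbd : b &&& d < 2 ^ m := lt_of_le_of_lt Nat.and_le_left hb
  apply Nat.eq_of_testBit_eq
  intro j
  rw [Nat.testBit_and, Nat.testBit_two_pow_mul_add _ hb, Nat.testBit_two_pow_mul_add _ hd,
    Nat.testBit_two_pow_mul_add _ hbd]
  split_ifs
  · rw [Nat.testBit_and]
  · rw [Nat.testBit_and]

lemma land_pk (hf : ∀ v < n, f v < 2 ^ K) (hg : ∀ v < n, g v < 2 ^ K) :
    pk K n f &&& pk K n g = pk K n (fun v => f v &&& g v) := by
  induction n with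
  | zero => simp [pk]
  | succ n ih =>
    rw [pk_succ, pk_succ, pk_succ, land_add _ _ _ _ _ (pk_lt (fun v hv => hf v (by omega)))
      (pk_lt (fun v hv => hg v (by omega))), ih (fun v hv => hf v (by omega))
      (fun v hv => hg v (by omega))]

/-- the middle digit of a product -/
lemma dg_mul (K n : ℕ) (hn : 1 ≤ n) (f h : ℕ → ℕ) (a b : ℕ) (hab : n * (a * b) < 2 ^ K)
    (hf : ∀ v < n, f v ≤ a) (hh : ∀ v < n, h v ≤ b) :
    dg K (pk K n f * pk K n (fun k => h (n - 1 - k))) (n - 1) = ∑ v ∈ range n, f v * h v := by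
  set h' : ℕ → ℕ := fun k => h (n - 1 - k) with hh'
  set s : ℕ → ℕ := fun k => ∑ i ∈ range n, if i ≤ k ∧ k - i < n then f i * h' (k - i) else 0
    with hs
  have h1 : pk K n f * pk K n h' = pk K (2 * n) s := by
    unfold pk
    rw [sum_mul]
    simp only [hs, sum_mul]
    rw [sum_comm]
    refine sum_congr rfl (fun i hi => ?_)
    have hi' := mem_range.1 hi
    rw [mul_sum]
    have e1 : ∀ k ∈ range (2 * n), (if i ≤ k ∧ k - i < n then f i * h' (k - i) else 0) *
        2 ^ (K * k) = if i ≤ k ∧ k - i < n then f i * h' (k - i) * 2 ^ (K * k) else 0 := by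
      intro k _
      split_ifs
      · rfl
      · rw [zero_mul]
    rw [sum_congr rfl e1, ← sum_filter]
    refine sum_bij' (fun j _ => i + j) (fun k _ => k - i) ?_ ?_ ?_ ?_ ?_
    · intro j hj
      have := mem_range.1 hj
      rw [mem_filter, mem_range]
      omega
    · intro k hk
      rw [mem_filter, mem_range] at hk
      rw [mem_range]
      omega
    · intro j hj
      simp
    · intro k hk
      rw [mem_filter, mem_range] at hk
      omega
    · intro j hj
      rw [Nat.add_sub_cancel_left, show K * (i + j) = K * i + K * j by ring, pow_add]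
      ring
  have hsb : ∀ k < 2 * n, s k < 2 ^ K := by
    intro k _
    refine lt_of_le_of_lt ?_ hab
    have : ∀ i ∈ range n, (if i ≤ k ∧ k - i < n then f i * h' (k - i) else 0) ≤ a * b := by
      intro i hi
      split_ifs with hc
      · exact Nat.mul_le_mul (hf i (mem_range.1 hi)) (hh _ (by omega))
      · exact Nat.zero_le _
    calc s k ≤ ∑ i ∈ range n, a * b := sum_le_sum this
      _ = n * (a * b) := by rw [sum_const, card_range, smul_eq_mul]
  rw [h1, dg_pk hsb (n - 1) (by omega)]
  simp only [hs]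
  refine sum_congr rfl (fun i hi => ?_)
  have hi' := mem_range.1 hi
  rw [if_pos (by omega)]
  simp only [hh']
  congr 2
  omega

/-- replacing a digit -/
def setDg (K P v U : ℕ) : ℕ := P - dg K P v * 2 ^ (K * v) + U * 2 ^ (K * v)

lemma split3 (K P v : ℕ) :
    P = 2 ^ (K * v) * (2 ^ K * (P / 2 ^ (K * v) / 2 ^ K) + dg K P v) + P % 2 ^ (K * v) := by
  rw [dg_eq, Nat.div_add_mod, Nat.div_add_mod]

lemma setDg_eq (K P v U : ℕ) :
    setDg K P v U = 2 ^ (K * v) * (2 ^ K * (P / 2 ^ (K * v) / 2 ^ K) + U) + P % 2 ^ (K * v) := by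
  unfold setDg
  conv_lhs => rw [split3 K P v]
  have h0 : dg K (2 ^ (K * v) * (2 ^ K * (P / 2 ^ (K * v) / 2 ^ K) + dg K P v) +
    P % 2 ^ (K * v)) v = dg K P v := by
    rw [← split3 K P v]
  rw [h0]
  set q := P / 2 ^ (K * v) / 2 ^ K
  set r := P % 2 ^ (K * v)
  set d := dg K P v
  have h1 : 2 ^ (K * v) * (2 ^ K * q + d) + r = d * 2 ^ (K * v) + (2 ^ (K * v) * (2 ^ K * q) + r) := by
    ring
  rw [h1, Nat.add_sub_cancel_left]
  ring

lemma dg_setDg (K P v U w : ℕ) (hU : U < 2 ^ K) :
    dg K (setDg K P v U) w = if w = v then U else dg K P w := by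
  rw [setDg_eq]
  have hr : P % 2 ^ (K * v) < 2 ^ (K * v) := Nat.mod_lt _ (Nat.two_pow_pos _)
  split_ifs with h
  · subst h
    rw [dg_eq, Nat.mul_add_div (Nat.two_pow_pos _), Nat.div_eq_of_lt hr, add_zero,
      Nat.mul_add_mod, Nat.mod_eq_of_lt hU]
  · conv_rhs => rw [split3 K P v]
    rcases Nat.lt_or_ge w v with hw | hw
    · have h5 : 2 ^ (K * v) = 2 ^ (K * w) * (2 ^ K * 2 ^ (K * (v - 1 - w))) := by
        rw [← pow_add, ← pow_add]
        congr 1
        have : v = w + 1 + (v - 1 - w) := by omega
        conv_lhs => rw [this]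
        ring
      rw [dg_eq, dg_eq]
      generalize P % 2 ^ (K * v) = r
      rw [h5, mul_assoc, mul_assoc, mul_assoc, mul_assoc, Nat.mul_add_div (Nat.two_pow_pos _),
        Nat.mul_add_div (Nat.two_pow_pos _), Nat.mul_add_mod, Nat.mul_add_mod]
    · have hw' : v < w := lt_of_le_of_ne hw (Ne.symm h)
      have h5 : 2 ^ (K * w) = 2 ^ (K * v) * (2 ^ K * 2 ^ (K * (w - 1 - v))) := by
        rw [← pow_add, ← pow_add]
        congr 1
        have : w = v + 1 + (w - 1 - v) := by omega
        conv_lhs => rw [this]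
        ring
      have key : ∀ u, u < 2 ^ K → (2 ^ (K * v) * (2 ^ K * (P / 2 ^ (K * v) / 2 ^ K) + u) +
          P % 2 ^ (K * v)) / 2 ^ (K * w) = P / 2 ^ (K * v) / 2 ^ K / 2 ^ (K * (w - 1 - v)) := by
        intro u hu
        rw [h5, ← Nat.div_div_eq_div_mul, Nat.mul_add_div (Nat.two_pow_pos _),
          Nat.div_eq_of_lt hr, add_zero, ← Nat.div_div_eq_div_mul,
          Nat.mul_add_div (Nat.two_pow_pos _), Nat.div_eq_of_lt hu, add_zero]
      rw [dg_eq, dg_eq, key U hU, key _ (dg_lt K P v)]

lemma setDg_lt (K P v U m : ℕ) (hU : U < 2 ^ K) (hv : v < m) (hP : P < 2 ^ (K * m)) :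
    setDg K P v U < 2 ^ (K * m) := by
  rw [setDg_eq]
  have hr : P % 2 ^ (K * v) < 2 ^ (K * v) := Nat.mod_lt _ (Nat.two_pow_pos _)
  have h5 : 2 ^ (K * m) = 2 ^ (K * v) * (2 ^ K * 2 ^ (K * (m - 1 - v))) := by
    rw [← pow_add, ← pow_add]
    congr 1
    have : m = v + 1 + (m - 1 - v) := by omega
    conv_lhs => rw [this]
    ring
  have h6 : P / 2 ^ (K * v) / 2 ^ K < 2 ^ (K * (m - 1 - v)) := by
    rw [Nat.div_div_eq_div_mul]
    refine Nat.div_lt_of_lt_mul ?_
    rw [mul_assoc, ← h5]
    exact hP
  rw [h5]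
  set q := P / 2 ^ (K * v) / 2 ^ K
  have h7 : 2 ^ K * q + U < 2 ^ K * 2 ^ (K * (m - 1 - v)) := by
    have : 2 ^ K * (q + 1) ≤ 2 ^ K * 2 ^ (K * (m - 1 - v)) := Nat.mul_le_mul_left _ h6
    have h8 : 2 ^ K * (q + 1) = 2 ^ K * q + 2 ^ K := by ring
    omega
  have h9 : 2 ^ (K * v) * (2 ^ K * q + U + 1) ≤ 2 ^ (K * v) * (2 ^ K * 2 ^ (K * (m - 1 - v))) :=
    Nat.mul_le_mul_left _ h7
  have h10 : 2 ^ (K * v) * (2 ^ K * q + U + 1) = 2 ^ (K * v) * (2 ^ K * q + U) + 2 ^ (K * v) := by
    ring
  omega

end pack

/-! ### The Farkas check -/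

/-- all fields 1 -/
def ALL : ℕ := 312276566222594187130508537648441060960219640962971690693265898003540783138203393603759781560989234642763464479132812901724107586873108266919690072623925744318873388794965455504830008779546947824790480600234946210728247544164021704943220010965596548150996723914941955299054606397628850782304144223306319174492553013689645609609365733504000189075630225727081876566791541786537721555289212177374145586960251458714746705752708118112030284215495039849345794104988963990777003724648328010261837085532616832505867902429841420770177104160002940346699377587353702409967383142703192765247956914572809022247217619468193161986675091849110448775655710014585759820303336746268448673928003855368748581345053980447165374029463401732845404773913838024228560258683433644039404380445717556544982457558817567950147960378565668082494823779092491671586210199968618632005531395139472518701681819541555664414419416513450825947950446754519637898937117283558565379184498266528412306946392121421598262446519361848464325119833084974252964960385071857094386270285796379465518247117118746275356357913151293169635449255246819386969804381949298232077763004911220408051256805559493682190707361059605181866737745783890553538111838003761059106307363011525080327289316808380231122708361049662719074525304751341479200198812793374643112668329421972085904725064674349053964486255580949874744054594387531786684878766101359219047107969978826161435499329230865830665781249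
/-- all fields `2^143` -/
def TOP : ℕ := 3482000067401073745175210682825168124807125461571254043550873830740801738902037351403180763762226089319007112640705155166258740141523748274223520455771381235648378804240988840706041292375879933088670282536802883990473550113213545729222918740678616666741547779598794598981289208090686455019817921294915871902388472812319415635916959652998254076074412711600037959884838349398546463540267426389021125790622304362651088013266951565799815857248787196374454713033392026501283385289484687774496706092223623395133349396363619051979097965369034077957951919970937318368867932415668932427761415164948622220230398481708712405844374447878701873183464166885038092204602477251568997300784340947881308849664116207230370892364981542104514544915253769690198033581044465206959852104118296429691388973223896781299157392106350081466855663044531496879851933842975396261175133250744519317452696317249182909405682277367731878913039227261425082174438112982957505933578894392788955300891418806685299487180699305403538542760016081263759393281823737747094645613497540836800463557777334009862021338850737664789878696194614606942548531676017246970975695862956844984160619839251352698200013817531684674009993427532276845122740016019000856277793979001808565403670587009497711092787622539277084297229056140669834995629835487012902765540560447150329684676824905939250479110633327531175448704459938459006631495003342171419817479151619812399345715704389426173394476084270907968423980611017515682420221167009792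
/-- all fields `2^79` -/
def BALL : ℕ := 188759601883545851079430437782583254540222842319567729646731536770777004527273093602550075565479843228732952566850035630133228299302005383178216052225086823309500579149788383179319942150365965580599812589360029590865132436274537355913275359514334005773527766698063770665498031357868502013180375052301756053345429707855978003869243714914544634906691170854293297398653753182113825315249356272708139045929642502405579503774513538320943976838968067303272026541220535205143324694419115239706449235378822994014242437892733646489969881843467977109208423383369583601876095527143200704322287652837671850067011087697869368075686942285237579388131141959398796132871662195095460663826614664368727140780774480722981560597294308623896873803804791728427004813772246169726972163129154128453662644613551085975148202163390459630969222173498006096633039748918273548833548562141404194900101628913005890329306712904329538405046866065966372872418617118723784786175103836717179781658314318049308332428387705883185038633569241792683481434665992642821081551714534464605385760301965877517076387233164930277782617942947303418384649734965729669660863986944620780952483769064503777953320573162092944311689868640252116059062614633254657753801585430228553283528273178196877273796206599732626509547547829358120948679542539948907778733677906938828385413187794917083644819304369894939128700386785567132056560776209938006096361983399341158209375240582417132398670603424018419486898532646912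

lemma ALL_eq : ALL = pk 144 34 (fun _ => 1) := by
  decide +kernel

lemma TOP_eq : TOP = pk 144 34 (fun _ => 2 ^ 143) := by
  decide +kernel

lemma BALL_eq : BALL = pk 144 34 (fun _ => 2 ^ 79) := by
  decide +kernel

/-- digit `v` in base `2^144`, in a form which is fast in the kernel -/
def dgB (P v : ℕ) : ℕ :=
  Nat.mod (Nat.shiftRight P (Nat.mul 144 v))
    22300745198530623141535718272648361505980416

lemma dgB_eq (P v : ℕ) : dgB P v = dg 144 P v := rfl

/-- the box `LO, HI` (fields in reversed order) contradicts the inequality `T - 2^79 L ALL` -/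
def fk (T L LO HI : ℕ) : Bool :=
  let X := Nat.sub (Nat.add T TOP) (Nat.mul L BALL)
  let top := Nat.land X TOP
  let Gp := Nat.land X (Nat.sub top (Nat.shiftRight top 143))
  let nt := Nat.sub TOP top
  let Gm := Nat.sub nt (Nat.land X (Nat.sub nt (Nat.shiftRight nt 143)))
  Nat.blt (dgB (Nat.mul Gp HI) 33) (dgB (Nat.mul Gm LO) 33)

lemma nadd (a b : ℕ) : Nat.add a b = a + b := rfl
lemma nsub (a b : ℕ) : Nat.sub a b = a - b := rfl
lemma nmul (a b : ℕ) : Nat.mul a b = a * b := rfl
lemma nland (a b : ℕ) : Nat.land a b = a &&& b := rfl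
lemma nshr (a b : ℕ) : Nat.shiftRight a b = a >>> b := rfl

lemma fk_iff (T L LO HI : ℕ) : fk T L LO HI = true ↔
    dg 144 (((T + TOP - L * BALL) &&& (((T + TOP - L * BALL) &&& TOP) -
      ((T + TOP - L * BALL) &&& TOP) >>> 143)) * HI) 33 <
    dg 144 (((TOP - ((T + TOP - L * BALL) &&& TOP)) - ((T + TOP - L * BALL) &&&
      ((TOP - ((T + TOP - L * BALL) &&& TOP)) -
        (TOP - ((T + TOP - L * BALL) &&& TOP)) >>> 143))) * LO) 33 := by
  unfold fk
  simp only [dgB_eq, nadd, nsub, nmul, nland, nshr]
  rw [Nat.blt_eq]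

/-- weighted sum of the rows; encoding of the multipliers: lowest bit `0`: the row is skipped (stop
if nothing is left); lowest bit `1`: the next 20 bits are the multiplier -/
def comb (env : List ℕ) : ℕ → ℕ → ℕ → (ℕ → ℕ → Bool) → Bool :=
  List.rec (motive := fun _ => ℕ → ℕ → ℕ → (ℕ → ℕ → Bool) → Bool)
    (fun _ T L k => k T L)
    (fun P _ ih lam T L k =>
      cond (Nat.beq (Nat.land lam 1) 0)
        (cond (Nat.beq lam 0) (k T L) (ih (Nat.shiftRight lam 1) T L k))
        (ih (Nat.shiftRight lam 21)
          (Nat.add T (Nat.mul (Nat.land (Nat.shiftRight lam 1) 1048575) P))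
          (Nat.add L (Nat.land (Nat.shiftRight lam 1) 1048575)) k)) env

/-- Farkas certificate -/
def farkas (env : List ℕ) (lam LO HI : ℕ) : Bool :=
  comb env lam 0 0 (fun T L => cond (Nat.blt L 67108864) (fk T L LO HI) false)

/-- the packed number `P` represents a valid linear inequality `∑ c_v z_v ≥ 0` -/
def RowOK (z : ℕ → ℝ) (P : ℕ) : Prop :=
  ∃ (c : ℕ → ℤ) (f : ℕ → ℕ), P = pk 144 34 f ∧
    (∀ v < 34, (f v : ℤ) = c v + 2 ^ 79 ∧ f v < 2 ^ 80) ∧
    0 ≤ ∑ v ∈ range 34, (c v : ℝ) * z v

/-- partial sums -/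
def PartOK (z : ℕ → ℝ) (T L : ℕ) : Prop :=
  ∃ (g : ℕ → ℤ) (t : ℕ → ℕ), T = pk 144 34 t ∧
    (∀ v < 34, (t v : ℤ) = g v + L * 2 ^ 79 ∧ t v ≤ L * 2 ^ 80) ∧
    0 ≤ ∑ v ∈ range 34, (g v : ℝ) * z v

lemma PartOK.zero (z : ℕ → ℝ) : PartOK z 0 0 :=
  ⟨fun _ => 0, fun _ => 0, by simp [pk], by simp, by simp⟩

lemma PartOK.step {z : ℕ → ℝ} {T L P : ℕ} (h : PartOK z T L) (hP : RowOK z P) (a : ℕ) :
    PartOK z (T + a * P) (L + a) := by
  obtain ⟨g, t, h1, h2, h3⟩ := h
  obtain ⟨c, f, k1, k2, k3⟩ := hP
  refine ⟨fun v => g v + a * c v, fun v => t v + a * f v, ?_, fun v hv => ⟨?_, ?_⟩, ?_⟩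
  · rw [pk_add, pk_smul, h1, k1]
  · push_cast
    rw [(h2 v hv).1, (k2 v hv).1]
    ring
  · have e1 := (h2 v hv).2
    have e2 : a * f v ≤ a * 2 ^ 80 := Nat.mul_le_mul_left _ (k2 v hv).2.le
    calc t v + a * f v ≤ L * 2 ^ 80 + a * 2 ^ 80 := Nat.add_le_add e1 e2
      _ = (L + a) * 2 ^ 80 := by ring
  · have e : ∑ v ∈ range 34, (((g v + a * c v : ℤ)) : ℝ) * z v =
        ∑ v ∈ range 34, (g v : ℝ) * z v + a * ∑ v ∈ range 34, (c v : ℝ) * z v := by
      rw [mul_sum, ← sum_add_distrib]
      refine sum_congr rfl (fun v _ => ?_)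
      push_cast
      ring
    rw [e]
    exact add_nonneg h3 (mul_nonneg (Nat.cast_nonneg _) k3)

lemma comb_sound {z : ℕ → ℝ} (env : List ℕ) (henv : ∀ P ∈ env, RowOK z P) :
    ∀ (lam T L : ℕ) (k : ℕ → ℕ → Bool), PartOK z T L → comb env lam T L k = true →
      ∃ T' L', PartOK z T' L' ∧ k T' L' = true := by
  induction env with
  | nil =>
    intro lam T L k h hk
    exact ⟨T, L, h, hk⟩
  | cons P env ih =>
    intro lam T L k h hk
    have ih' := ih (fun Q hQ => henv Q (List.mem_cons_of_mem _ hQ))
    change cond (Nat.beq (Nat.land lam 1) 0)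
        (cond (Nat.beq lam 0) (k T L) (comb env (Nat.shiftRight lam 1) T L k))
        (comb env (Nat.shiftRight lam 21)
          (Nat.add T (Nat.mul (Nat.land (Nat.shiftRight lam 1) 1048575) P))
          (Nat.add L (Nat.land (Nat.shiftRight lam 1) 1048575)) k) = true at hk
    cases h1 : Nat.beq (Nat.land lam 1) 0
    · rw [h1] at hk
      exact ih' _ _ _ k (h.step (henv P List.mem_cons_self) _) hk
    · rw [h1] at hk
      cases h2 : Nat.beq lam 0
      · rw [h2] at hk
        exact ih' _ _ _ k h hk
      · rw [h2] at hk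
        exact ⟨T, L, h, hk⟩

/-- the box (fields reversed) contains `z` -/
structure BoxOK (z : ℕ → ℝ) (LO HI : ℕ) : Prop where
  lo_lt : LO < 2 ^ (144 * 34)
  hi_lt : HI < 2 ^ (144 * 34)
  bnd : ∀ v < 34, dg 144 HI (33 - v) < 2 ^ 32
  le : ∀ v < 34, (dg 144 LO (33 - v) : ℝ) ≤ z v
  ge : ∀ v < 34, z v ≤ (dg 144 HI (33 - v) : ℝ)

lemma land_top (x : ℕ) (hx : x < 2 ^ 144) : x &&& 2 ^ 143 = if 2 ^ 143 ≤ x then 2 ^ 143 else 0 := by
  rw [Nat.and_two_pow]
  split_ifs with h
  · have h1 : x = 2 ^ 143 * 1 + (x - 2 ^ 143) := by omega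
    have h2 : x - 2 ^ 143 < 2 ^ 143 := by
      have : (2 : ℕ) ^ 144 = 2 ^ 143 * 2 := by norm_num
      omega
    rw [h1, Nat.testBit_two_pow_mul_add _ h2]
    simp
  · rw [Nat.testBit_lt_two_pow (by omega)]
    simp

lemma land_low (x : ℕ) : x &&& (2 ^ 143 - 1) = x % 2 ^ 143 := Nat.and_two_pow_sub_one_eq_mod _ _

lemma fk_sound {z : ℕ → ℝ} {T L LO HI : ℕ} (h : PartOK z T L) (hL : L < 67108864)
    (hb : BoxOK z LO HI) (hk : fk T L LO HI = true) : False := by
  obtain ⟨g, t, h1, h2, h3⟩ := h
  -- the vector X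
  set x : ℕ → ℕ := fun v => (2 ^ 143 + g v).toNat with hx
  have hL' : (L : ℤ) < 2 ^ 26 := by
    have : (L : ℤ) < 67108864 := by exact_mod_cast hL
    linarith [show (2 : ℤ) ^ 26 = 67108864 by norm_num]
  have hL0 : (0 : ℤ) ≤ L := Int.natCast_nonneg _
  have hg : ∀ v < 34, -(2 ^ 105 : ℤ) < g v ∧ g v < 2 ^ 106 := by
    intro v hv
    obtain ⟨e1, e2⟩ := h2 v hv
    have e3 : (t v : ℤ) ≤ L * 2 ^ 80 := by exact_mod_cast e2
    have e4 : (0 : ℤ) ≤ t v := Int.natCast_nonneg _
    constructor
    · nlinarith [show (2 : ℤ) ^ 105 = 2 ^ 26 * 2 ^ 79 by norm_num]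
    · nlinarith [show (2 : ℤ) ^ 106 = 2 ^ 26 * 2 ^ 80 by norm_num]
  have hxv : ∀ v < 34, (x v : ℤ) = 2 ^ 143 + g v := by
    intro v hv
    simp only [hx]
    rw [Int.toNat_of_nonneg]
    have := (hg v hv).1
    norm_num at this ⊢
    linarith
  have hxlt : ∀ v < 34, x v < 2 ^ 144 := by
    intro v hv
    have e1 := hxv v hv
    have e2 := (hg v hv).2
    have : (x v : ℤ) < 2 ^ 144 := by
      rw [e1]
      norm_num at e2 ⊢
      linarith
    exact_mod_cast this
  have hX : T + TOP - L * BALL = pk 144 34 x := by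
    have e : T + TOP = pk 144 34 x + L * BALL := by
      rw [h1, TOP_eq, BALL_eq, ← pk_add, ← pk_smul, ← pk_add]
      refine pk_congr (fun v hv => ?_)
      have e1 := (h2 v hv).1
      have e2 := hxv v hv
      zify
      rw [e1, e2]
      ring
    rw [e, Nat.add_sub_cancel]
  -- sign masks
  set σ : ℕ → ℕ := fun v => if 0 ≤ g v then 1 else 0 with hσ
  have hσ1 : ∀ v, σ v ≤ 1 := by
    intro v
    simp only [hσ]
    split_ifs <;> norm_num
  have hsgn : ∀ v < 34, (2 ^ 143 ≤ x v ↔ 0 ≤ g v) := by
    intro v hv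
    have e1 := hxv v hv
    constructor
    · intro h
      have : (2 ^ 143 : ℤ) ≤ x v := by exact_mod_cast h
      linarith
    · intro h
      have : (2 ^ 143 : ℤ) ≤ x v := by linarith
      exact_mod_cast this
  have htop : pk 144 34 x &&& TOP = pk 144 34 (fun v => 2 ^ 143 * σ v) := by
    rw [TOP_eq, land_pk hxlt (fun v _ => by norm_num)]
    refine pk_congr (fun v hv => ?_)
    rw [land_top _ (hxlt v hv)]
    simp only [hσ]
    by_cases hc : 0 ≤ g v
    · rw [if_pos ((hsgn v hv).2 hc), if_pos hc, mul_one]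
    · rw [if_neg (fun h => hc ((hsgn v hv).1 h)), if_neg hc, mul_zero]
  have hshift : ∀ τ : ℕ → ℕ, pk 144 34 (fun v => 2 ^ 143 * τ v) >>> 143 = pk 144 34 τ := by
    intro τ
    rw [pk_smul, Nat.shiftRight_eq_div_pow, Nat.mul_div_cancel_left _ (Nat.two_pow_pos _)]
  have hmask : ∀ τ : ℕ → ℕ, pk 144 34 (fun v => 2 ^ 143 * τ v) - pk 144 34 τ =
      pk 144 34 (fun v => (2 ^ 143 - 1) * τ v) := by
    intro τ
    have : pk 144 34 (fun v => 2 ^ 143 * τ v) = pk 144 34 (fun v => (2 ^ 143 - 1) * τ v) +
        pk 144 34 τ := by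
      rw [← pk_add]
      refine pk_congr (fun v _ => ?_)
      have : (2 : ℕ) ^ 143 = (2 ^ 143 - 1) + 1 := by norm_num
      conv_lhs => rw [this]
      ring
    rw [this, Nat.add_sub_cancel]
  have hlow : ∀ τ : ℕ → ℕ, (∀ v, τ v ≤ 1) → pk 144 34 x &&& pk 144 34 (fun v => (2 ^ 143 - 1) * τ v) =
      pk 144 34 (fun v => x v % 2 ^ 143 * τ v) := by
    intro τ hτ
    rw [land_pk hxlt]
    · refine pk_congr (fun v _ => ?_)
      have := hτ v
      interval_cases h : τ v
      · simp
      · simp only [mul_one]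
        exact land_low _
    · intro v _
      have := hτ v
      interval_cases h : τ v <;> norm_num
  -- positive part
  set gp : ℕ → ℕ := fun v => x v % 2 ^ 143 * σ v with hgp
  set σ' : ℕ → ℕ := fun v => 1 - σ v with hσ'
  set gm : ℕ → ℕ := fun v => 2 ^ 143 * σ' v - x v % 2 ^ 143 * σ' v with hgm
  have hGp : pk 144 34 x &&& (pk 144 34 (fun v => 2 ^ 143 * σ v) -
      pk 144 34 (fun v => 2 ^ 143 * σ v) >>> 143) = pk 144 34 gp := by
    rw [hshift, hmask, hlow σ hσ1]
  have hnt : TOP - pk 144 34 (fun v => 2 ^ 143 * σ v) = pk 144 34 (fun v => 2 ^ 143 * σ' v) := by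
    have : TOP = pk 144 34 (fun v => 2 ^ 143 * σ' v) + pk 144 34 (fun v => 2 ^ 143 * σ v) := by
      rw [TOP_eq, ← pk_add]
      refine pk_congr (fun v _ => ?_)
      have := hσ1 v
      simp only [hσ']
      rw [← mul_add, Nat.sub_add_cancel this, mul_one]
    rw [this, Nat.add_sub_cancel]
  have hGm : pk 144 34 (fun v => 2 ^ 143 * σ' v) - (pk 144 34 x &&&
      (pk 144 34 (fun v => 2 ^ 143 * σ' v) - pk 144 34 (fun v => 2 ^ 143 * σ' v) >>> 143)) =
      pk 144 34 gm := by
    have hσ'1 : ∀ v, σ' v ≤ 1 := fun v => Nat.sub_le _ _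
    rw [hshift, hmask, hlow σ' hσ'1]
    have : pk 144 34 (fun v => 2 ^ 143 * σ' v) = pk 144 34 gm +
        pk 144 34 (fun v => x v % 2 ^ 143 * σ' v) := by
      rw [← pk_add]
      refine pk_congr (fun v _ => ?_)
      simp only [hgm]
      rw [Nat.sub_add_cancel]
      exact Nat.mul_le_mul_right _ (Nat.mod_lt _ (Nat.two_pow_pos _)).le
    rw [this, Nat.add_sub_cancel]
  -- values of gp, gm
  have hval : ∀ v < 34, (gp v : ℤ) - gm v = g v ∧ gp v < 2 ^ 106 ∧ gm v ≤ 2 ^ 105 ∧
      (gp v = 0 ∨ gm v = 0) := by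
    intro v hv
    have e1 := hxv v hv
    obtain ⟨e2, e3⟩ := hg v hv
    by_cases hc : 0 ≤ g v
    · have hs : σ v = 1 := by simp only [hσ]; rw [if_pos hc]
      have hm0 : gm v = 0 := by simp only [hgm, hσ', hs]; norm_num
      have hp0 : gp v = x v % 2 ^ 143 := by simp only [hgp, hs]; norm_num
      have e4 : (x v % 2 ^ 143 : ℕ) = (g v).toNat := by
        have : x v = (g v).toNat + 2 ^ 143 := by
          zify
          rw [e1, Int.toNat_of_nonneg hc]
          ring
        rw [this, Nat.add_mod_right, Nat.mod_eq_of_lt]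
        have : ((g v).toNat : ℤ) < 2 ^ 143 := by
          rw [Int.toNat_of_nonneg hc]
          norm_num at e3 ⊢
          linarith
        exact_mod_cast this
      have e5 : (gp v : ℤ) = g v := by rw [hp0, e4, Int.toNat_of_nonneg hc]
      refine ⟨by rw [e5, hm0]; simp, ?_, by rw [hm0]; norm_num, Or.inr hm0⟩
      have : (gp v : ℤ) < 2 ^ 106 := by rw [e5]; exact e3
      exact_mod_cast this
    · have hs : σ v = 0 := by simp only [hσ]; rw [if_neg hc]
      have hp0 : gp v = 0 := by simp only [hgp, hs]; norm_num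
      have hxl : x v < 2 ^ 143 := by
        have := (hsgn v hv).not.2 hc
        omega
      have hm0 : gm v = 2 ^ 143 - x v := by
        simp only [hgm, hσ', hs, Nat.sub_zero, mul_one]
        rw [Nat.mod_eq_of_lt hxl]
      have e5 : (gm v : ℤ) = - g v := by
        rw [hm0, Nat.cast_sub hxl.le]
        push_cast
        linarith
      refine ⟨by rw [e5, hp0]; simp, by rw [hp0]; norm_num, ?_, Or.inl hp0⟩
      have : (gm v : ℤ) ≤ 2 ^ 105 := by rw [e5]; linarith
      exact_mod_cast this
  -- the final comparison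
  set lo : ℕ → ℕ := fun v => dg 144 LO (33 - v) with hlo
  set hi : ℕ → ℕ := fun v => dg 144 HI (33 - v) with hhi
  have hHI : HI = pk 144 34 (fun k => hi (34 - 1 - k)) := by
    conv_lhs => rw [← pk_dg 144 34 HI hb.hi_lt]
    refine pk_congr (fun v hv => ?_)
    simp only [hhi]
    rw [show 33 - (34 - 1 - v) = v by omega]
  have hLO : LO = pk 144 34 (fun k => lo (34 - 1 - k)) := by
    conv_lhs => rw [← pk_dg 144 34 LO hb.lo_lt]
    refine pk_congr (fun v hv => ?_)
    simp only [hlo]
    rw [show 33 - (34 - 1 - v) = v by omega]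
  have hhib : ∀ v < 34, hi v ≤ 2 ^ 32 := fun v hv => (hb.bnd v hv).le
  have hlob : ∀ v < 34, lo v ≤ 2 ^ 32 := by
    intro v hv
    have e1 : (lo v : ℝ) ≤ hi v := (hb.le v hv).trans (hb.ge v hv)
    exact le_trans (by exact_mod_cast e1) (hhib v hv)
  have hbound : 34 * (2 ^ 106 * 2 ^ 32) < 2 ^ 144 := by norm_num
  have hbound2 : 34 * (2 ^ 105 * 2 ^ 32) < 2 ^ 144 := by norm_num
  have m1 := dg_mul 144 34 (by norm_num) gp hi (2 ^ 106) (2 ^ 32) hbound
    (fun v hv => (hval v hv).2.1.le) hhib
  have m2 := dg_mul 144 34 (by norm_num) gm lo (2 ^ 105) (2 ^ 32) hbound2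
    (fun v hv => (hval v hv).2.2.1) hlob
  rw [← hHI] at m1
  rw [← hLO] at m2
  rw [show (34 : ℕ) - 1 = 33 by norm_num] at m1 m2
  rw [fk_iff, hX, htop, hGp, hnt, hGm, m1, m2] at hk
  have hk' : (∑ v ∈ range 34, (gp v : ℝ) * hi v) < ∑ v ∈ range 34, (gm v : ℝ) * lo v := by
    exact_mod_cast hk
  have e : ∑ v ∈ range 34, (g v : ℝ) * z v ≤
      (∑ v ∈ range 34, (gp v : ℝ) * hi v) - ∑ v ∈ range 34, (gm v : ℝ) * lo v := by
    rw [← sum_sub_distrib]
    refine sum_le_sum (fun v hv => ?_)
    have hv' := mem_range.1 hv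
    have e1 : (g v : ℝ) = (gp v : ℝ) - gm v := by
      have := (hval v hv').1
      rw [← this]
      push_cast
      ring
    rw [e1, sub_mul]
    have e2 : (gp v : ℝ) * z v ≤ (gp v : ℝ) * hi v :=
      mul_le_mul_of_nonneg_left (hb.ge v hv') (Nat.cast_nonneg _)
    have e3 : (gm v : ℝ) * lo v ≤ (gm v : ℝ) * z v :=
      mul_le_mul_of_nonneg_left (hb.le v hv') (Nat.cast_nonneg _)
    linarith
  linarith

lemma cond_true {a b : Bool} (h : cond a b false = true) : a = true ∧ b = true := by
  cases a
  · exact Bool.noConfusion h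
  · exact ⟨rfl, h⟩

lemma blt_lt {a b : ℕ} (h : Nat.blt a b = true) : a < b := by rwa [Nat.blt_eq] at h

lemma ble_le {a b : ℕ} (h : Nat.ble a b = true) : a ≤ b := Nat.le_of_ble_eq_true h

theorem farkas_sound {z : ℕ → ℝ} {env : List ℕ} (henv : ∀ P ∈ env, RowOK z P) {lam LO HI : ℕ}
    (hb : BoxOK z LO HI) (hk : farkas env lam LO HI = true) : False := by
  obtain ⟨T, L, h1, h2⟩ := comb_sound env henv lam 0 0 _ (PartOK.zero z) hk
  obtain ⟨h3, h4⟩ := cond_true h2
  exact fk_sound h1 (blt_lt h3) hb h4

end Pool.Agent.MP_abb58c_co.Fine
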