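import Pool.Agent.Lib.MP_abb58c_co.FineArith

/-!
# MP_abb58c_co, FINE stage: the checker (definitions)

Raw operations on natural numbers in continuation passing style, for fast evaluation in the kernel.
Signed numbers are pairs (positive part, negative part). `M = 10^8`.
Format: `/team-store/MP_abb58c_FINE_V4.md`.
-/

set_option autoImplicit false

namespace Pool.Agent.MP_abb58c_co.Fine


/-- the six entries of label `i` of the box: `lx hx ly hy lt ht` -/
def getL (LO HI i : ℕ) (k : ℕ → ℕ → ℕ → ℕ → ℕ → ℕ → Bool) : Bool :=
  (fun s =>
      (fun a b =>
          k (Nat.mod (Nat.shiftRight a 288) 22300745198530623141535718272648361505980416)
            (Nat.mod (Nat.shiftRight b 288) 22300745198530623141535718272648361505980416)
            (Nat.mod (Nat.shiftRight a 144) 22300745198530623141535718272648361505980416)
            (Nat.mod (Nat.shiftRight b 144) 22300745198530623141535718272648361505980416)
            (Nat.mod a 22300745198530623141535718272648361505980416)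
            (Nat.mod b 22300745198530623141535718272648361505980416))
        (Nat.shiftRight LO s) (Nat.shiftRight HI s))
    (Nat.sub 4464 (Nat.mul 432 i))

/-- type of label `i`: `bc bs T4` -/
def typ (i : ℕ) (k : ℕ → ℕ → ℕ → Bool) : Bool :=
  cond (Nat.beq (Nat.land (Nat.shiftRight 1801 i) 1) 0) (k 953 0 0) (k 728 615 400000000)

/-- direction `C, S + M` of the reference angle `tau` -/
def dirK (bc bs tau : ℕ) (k : ℕ → ℕ → Bool) : Bool :=
  (fun u =>
      cond (Nat.ble u 30000000)
        ((fun B2 =>
            (fun B4 =>
                (fun c s =>
                    (fun s' =>
                        k
                          (Nat.div
                            (Nat.sub (Nat.add (Nat.mul bc c) (Nat.mul bs 100000000))
                              (Nat.mul bs s')) 953)
                          (Nat.div
                            (Nat.add (Nat.add (Nat.mul bs c) (Nat.mul bc s'))
                              (Nat.mul (Nat.sub 953 bc) 100000000)) 953))
                      (cond (Nat.ble 100000000 tau) (Nat.add 100000000 s) (Nat.sub 100000000 s)))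
                  (Nat.sub (Nat.add 100000000 (Nat.div B4 24))
                    (Nat.add (Nat.div B2 2) (Nat.div (Nat.div (Nat.mul B4 B2) 100000000) 720)))
                  (Nat.div
                    (Nat.mul u (Nat.sub (Nat.add 100000000 (Nat.div B4 120)) (Nat.div B2 6)))
                    100000000))
              (Nat.div (Nat.mul B2 B2) 100000000))
          (Nat.div (Nat.mul u u) 100000000)) false)
    (Nat.add (Nat.sub tau 100000000) (Nat.sub 100000000 tau))

/-- the direction of alternative `kap`, as two signed numbers -/
def rotK (kap C S : ℕ) (k : ℕ → ℕ → ℕ → ℕ → Bool) : Bool :=
  cond (Nat.beq kap 0) (k C 0 S 100000000)
    (cond (Nat.beq kap 1) (k 100000000 S C 0)
      (cond (Nat.beq kap 2) (k 0 C 100000000 S)
        (cond (Nat.beq kap 3) (k S 100000000 0 C) false)))

/-- coefficients of the direction in local coordinates, normalised -/
def coefK (bc bs Pp Pn Qp Qn : ℕ) (k : ℕ → ℕ → ℕ → ℕ → Bool) : Bool :=
  (fun xp xn yp yn => k (Nat.sub xp xn) (Nat.sub xn xp) (Nat.sub yp yn) (Nat.sub yn yp))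
    (Nat.add (Nat.mul bc Pp) (Nat.mul bs Qp)) (Nat.add (Nat.mul bc Pn) (Nat.mul bs Qn))
    (Nat.add (Nat.mul bc Qp) (Nat.mul bs Pn)) (Nat.add (Nat.mul bc Qn) (Nat.mul bs Pp))

/-- relative reference direction, biased by `4 M`: `c0 + 4M`, `s0 + 4M` -/
def relK (Ci Si Cj Sj : ℕ) (k : ℕ → ℕ → Bool) : Bool :=
  k
    (Nat.div
      (Nat.sub (Nat.add (Nat.add (Nat.mul Ci Cj) (Nat.mul Si Sj)) 50000000000000000)
        (Nat.mul (Nat.add Si Sj) 100000000)) 100000000)
    (Nat.div
      (Nat.sub (Nat.add (Nat.add (Nat.mul Sj Ci) (Nat.mul Cj 100000000)) 40000000000000000)
        (Nat.add (Nat.mul Ci 100000000) (Nat.mul Cj Si))) 100000000)

/-- `g0`, and `g1` as a normalised signed number; `e2` biased by `64` -/
def gK (e1 e2 c0 s0 : ℕ) (k : ℕ → ℕ → ℕ → Bool) : Bool :=
  (fun p n =>
      cond (Nat.ble n p)
        ((fun q m => k (Nat.sub p n) (Nat.sub q m) (Nat.sub m q))
          (Nat.add (Nat.add (Nat.mul 400000000 e1) (Nat.mul e2 c0)) 25600000000)
          (Nat.add (Nat.add (Nat.mul e1 s0) (Nat.mul 400000000 e2)) (Nat.mul 64 c0))) false)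
    (Nat.add (Nat.add (Nat.mul e1 c0) (Nat.mul e2 s0)) 25600000000)
    (Nat.add (Nat.mul 400000000 (Nat.add e1 e2)) (Nat.mul 64 s0))

/-- the range of the lateral form: `vs = vl + vh + 2^41`, `w2 = vh - vl`,
`vm = max (|vl|, |vh|)`, in units `2^30` -/
def vK (MLp MLn MHp MHn : ℕ) (k : ℕ → ℕ → ℕ → Bool) : Bool :=
  cond (Nat.ble MLn (Nat.add MLp 1180591620717411303424))
    ((fun vl vh =>
        k (Nat.add vl vh) (Nat.sub vh vl)
          ((fun a b => cond (Nat.ble a b) b a) (Nat.sub vh 1099511627776)
            (Nat.sub 1099511627776 vl)))
      (Nat.div (Nat.sub (Nat.add MLp 1180591620717411303424) MLn) 1073741824)
      (Nat.add (Nat.div (Nat.sub (Nat.add MHp 1180591620717411303424) MHn) 1073741824) 1)) false

/-- `m a + (± l) b` for signed numbers `a`, `b` -/
def lcK (s : Bool) (m l ap an bp bn : ℕ) (k : ℕ → ℕ → Bool) : Bool :=
  cond s (k (Nat.add (Nat.mul m ap) (Nat.mul l bp)) (Nat.add (Nat.mul m an) (Nat.mul l bn)))
    (k (Nat.add (Nat.mul m ap) (Nat.mul l bn)) (Nat.add (Nat.mul m an) (Nat.mul l bp)))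

/-- biased field of a signed number -/
def fldK (p n : ℕ) (k : ℕ → Bool) : Bool :=
  (fun q =>
      cond (Nat.ble n q)
        ((fun f => cond (Nat.blt f 1208925819614629174706176) (k f) false) (Nat.sub q n)) false)
    (Nat.add p 604462909807314587353088)

/-- field of the constant: the constant `p - n` is a multiple of `z_33 = 2^30` (rounded up) -/
def cstK (p n : ℕ) (k : ℕ → Bool) : Bool :=
  (fun q =>
      cond (Nat.ble n q)
        ((fun f => cond (Nat.blt f 1208925819614629174706176) (k f) false)
          (Nat.add (Nat.div (Nat.sub q n) 1073741824) 1)) false)
    (Nat.add p 649037107316853453566312041152512)

/-- all fields `2^79`, except for the last one -/
def BAL0 : ℕ :=
  Nat.sub BALL (Nat.pow 2 4831)

/-- three fields -/
def grpK (fx fy ft : ℕ) : ℕ :=
  Nat.add (Nat.add fx (Nat.shiftLeft fy 144)) (Nat.shiftLeft ft 288)

/-- `2^79 (1 + 2^144 + 2^288)` -/
def B3 : ℕ :=
  Nat.add (Nat.add (Nat.pow 2 79) (Nat.pow 2 223)) (Nat.pow 2 367)

/-- row with the fields of two labels -/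
def rowP (i j gi gj f : ℕ) : ℕ :=
  Nat.sub
    (Nat.add
      (Nat.add (Nat.add BAL0 (Nat.shiftLeft gi (Nat.mul 432 i))) (Nat.shiftLeft gj (Nat.mul 432 j)))
      (Nat.shiftLeft f 4752))
    (Nat.add (Nat.shiftLeft B3 (Nat.mul 432 i)) (Nat.shiftLeft B3 (Nat.mul 432 j)))

/-- row with the fields of one label -/
def rowP1 (i gi f : ℕ) : ℕ :=
  Nat.sub (Nat.add (Nat.add BAL0 (Nat.shiftLeft gi (Nat.mul 432 i))) (Nat.shiftLeft f 4752))
    (Nat.shiftLeft B3 (Nat.mul 432 i))

/-- bounds of a linear form on the box: constants `kp kn` and `Lp - Ln ≤ form ≤ Hp - Hn` -/
def bndK (T4i T4j xpi xni ypi yni xpj xnj ypj ynj lxi hxi lyi hyi lxj hxj lyj hyj : ℕ)
    (k : ℕ → ℕ → ℕ → ℕ → ℕ → ℕ → Bool) : Bool :=
  (fun kp kn =>
      k kp kn
        (Nat.add
          (Nat.add (Nat.add (Nat.add (Nat.mul xpj lxj) (Nat.mul ypj lyj)) (Nat.mul xni lxi))
            (Nat.mul yni lyi)) kp)
        (Nat.add
          (Nat.add (Nat.add (Nat.add (Nat.mul xnj hxj) (Nat.mul ynj hyj)) (Nat.mul xpi hxi))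
            (Nat.mul ypi hyi)) kn)
        (Nat.add
          (Nat.add (Nat.add (Nat.add (Nat.mul xpj hxj) (Nat.mul ypj hyj)) (Nat.mul xni hxi))
            (Nat.mul yni hyi)) kp)
        (Nat.add
          (Nat.add (Nat.add (Nat.add (Nat.mul xnj lxj) (Nat.mul ynj lyj)) (Nat.mul xpi lxi))
            (Nat.mul ypi lyi)) kn))
    (Nat.add (Nat.mul T4j ynj) (Nat.mul T4i ypi)) (Nat.add (Nat.mul T4j ypj) (Nat.mul T4i yni))

/-- everything about the frame of the owner `o` of the pair `i < j` -/
def ownK (LO HI i j o kap e1 e2 : ℕ)
    (k : ℕ → ℕ → ℕ → ℕ → ℕ → ℕ → ℕ → ℕ → ℕ → ℕ → ℕ → ℕ → ℕ → ℕ → ℕ → ℕ → ℕ → ℕ → ℕ → ℕ → ℕ →
      ℕ → ℕ → ℕ → ℕ → ℕ → Bool) : Bool :=
  cond (Nat.blt i j)
    (cond (Nat.ble j 10)
      (cond (Nat.ble e1 64)
        (cond (Nat.ble e2 128)
          (typ i fun bci bsi T4i =>
            typ j fun bcj bsj T4j =>
              getL LO HI i fun lxi hxi lyi hyi lti hti =>
                getL LO HI j fun lxj hxj lyj hyj ltj htj =>
                  (fun ti tj =>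
                      dirK bci bsi ti fun Ci Si =>
                        dirK bcj bsj tj fun Cj Sj =>
                          relK Ci Si Cj Sj fun c0 s0 =>
                            gK e1 e2 c0 s0 fun g0 gp gn =>
                              (fun kk : ℕ → ℕ → ℕ → ℕ → ℕ → ℕ → ℕ → ℕ → Bool =>
                                  cond (Nat.beq o 0)
                                    (kk Ci Si (Nat.sub hti ti) (Nat.sub htj tj) ti tj gp gn)
                                    (cond (Nat.beq o 1)
                                      (kk Cj Sj (Nat.sub htj tj) (Nat.sub hti ti) tj ti gn gp)
                                      false))
                                fun C S A Ap ta tb gsp gsn =>
                                  rotK kap C S fun Pp Pn Qp Qn =>
                                    coefK bci bsi Pp Pn Qp Qn fun xpi xni ypi yni =>
                                      coefK bcj bsj Pp Pn Qp Qn fun xpj xnj ypj ynj =>
                                        bndK T4i T4j xpi xni ypi yni xpj xnj ypj ynj lxi hxi lyi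
                                          hyi lxj hxj lyj hyj fun kNp kNn NLp NLn NHp NHn =>
                                          bndK T4i T4j yni ypi xpi xni ynj ypj xpj xnj lxi hxi lyi
                                            hyi lxj hxj lyj hyj fun kMp kMn MLp MLn MHp MHn =>
                                            vK MLp MLn MHp MHn fun vs w2 vm =>
                                              k A Ap ta tb g0 gsp gsn xpi xni ypi yni xpj xnj ypj
                                                ynj kNp kNn NLp NLn NHp NHn kMp kMn vs w2 vm)
                    (Nat.shiftRight (Nat.add lti hti) 1) (Nat.shiftRight (Nat.add ltj htj) 1))
          false) false) false) false

/-- exclusion of an alternative by the box -/
def exclK (LO HI i j o kap e1 e2 : ℕ) : Bool :=
  ownK LO HI i j o kap e1 e2 fun A Ap _ _ g0 gsp gsn _ _ _ _ _ _ _ _ _ _ _ _ NHp NHn _ _ _ _ vm =>
    cond (Nat.ble A 100000000)
      ((fun B =>
          Nat.blt
            (Nat.add
              (Nat.add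
                (Nat.add
                  (Nat.add (Nat.div (Nat.mul (Nat.sub NHp NHn) 128) 95300000000)
                    (Nat.div (Nat.mul (Nat.mul A vm) 137438953472) 9530000000000000000))
                  (Nat.div (Nat.mul (Nat.mul g0 B) B) 20000000000000000))
                (Nat.div (Nat.mul (Nat.add gsp gsn) B) 100000000)) 21000) (Nat.add 6400000000 g0))
        (Nat.add A Ap)) false

/-- maximum -/
def maxK (a b : ℕ) : ℕ := cond (Nat.ble a b) b a

/-- absolute difference -/
def absK (a b : ℕ) : ℕ :=
  Nat.add (Nat.sub a b) (Nat.sub b a)

/-- add `± X` to a signed number -/
def sgK (s : Bool) (p n X : ℕ) (k : ℕ → ℕ → Bool) : Bool :=
  cond s (k (Nat.add p X) n) (k p (Nat.add n X))

/-- the row of a single alternative -/
def row1K (LO HI i j o kap e1 e2 lam a0 : ℕ) (k : ℕ → Bool) : Bool :=
  ownK LO HI i j o kap e1 e2
    fun A Ap ta tb g0 gsp gsn xpi xni ypi yni xpj xnj ypj ynj kNp kNn NLp NLn _ _ kMp kMn vs w2 vm =>
      cond (Nat.ble A 100000000)
        (cond (Nat.ble lam 128)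
          ((fun nu w2' La s aa =>
              cond (Nat.blt 0 nu)
                (cond (Nat.ble (Nat.mul 8 g0) (Nat.mul nu 100000000))
                  ((fun k0 l =>
                      sgK s
                        (Nat.add (Nat.add (Nat.mul 4398046511104 vs) (Nat.mul 8186207666176 k0))
                          (Nat.mul 6099200000000 gsp))
                        (Nat.add
                          (Nat.add 9671406556917033397649408 (Nat.mul (Nat.mul 7624 a0) k0))
                          (Nat.mul 6099200000000 gsn)) (Nat.mul (Nat.mul 68719476736 La) w2')
                        fun ap an =>
                          sgK s (Nat.mul 6099200000000 gsn) (Nat.mul 6099200000000 gsp)
                            (Nat.mul (Nat.mul (Nat.mul 953 g0) La) A) fun bp bn =>
                            lcK s 1 (Nat.mul 536870912 l)
                              (Nat.add
                                (Nat.add
                                  (Nat.add
                                    (Nat.add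
                                      (Nat.add
                                        (Nat.add (Nat.mul (Nat.mul 4398046511104 A) w2')
                                          (Nat.mul (Nat.mul 3812 k0) (Nat.mul aa aa)))
                                        (Nat.mul (Nat.mul 30496 g0) (Nat.mul Ap Ap)))
                                      (Nat.div
                                        (Nat.mul
                                          (Nat.mul (Nat.mul (Nat.mul A A) A)
                                            (Nat.add (Nat.mul 2 vm) 1)) 2199023255552)
                                        30000000000000000))
                                    (Nat.div
                                      (Nat.mul (Nat.mul 953 nu)
                                        (Nat.mul (Nat.mul A A) (Nat.mul A A))) 300000000))
                                  ((fun B =>
                                      Nat.div
                                        (Nat.mul (Nat.mul 30496 (Nat.add gsp gsn))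
                                          (Nat.mul (Nat.mul B B) B)) 300000000)
                                    (Nat.add A Ap))) 15613952000000000000000003)
                              (Nat.add 3903488000000000000000000000000
                                (Nat.mul 609920000000000000000 g0)) vs 2199023255552 fun cp cn =>
                              lcK s 819200000000 l kNp kNn kMn kMp fun dp dn =>
                                lcK s 819200000000 l xpj xnj ypj ynj fun xjp xjn =>
                                  lcK s 819200000000 l ypj ynj xnj xpj fun yjp yjn =>
                                    lcK s 819200000000 l xni xpi yni ypi fun xip xin =>
                                      lcK s 819200000000 l yni ypi xpi xni fun yip yin =>
                                        fldK xip xin fun fxi =>
                                          fldK yip yin fun fyi =>
                                            fldK xjp xjn fun fxj =>
                                              fldK yjp yjn fun fyj =>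
                                                fldK ap an fun fa =>
                                                  fldK bp bn fun fb =>
                                                    cstK
                                                      (Nat.add
                                                        (Nat.add (Nat.add cp dp) (Nat.mul an ta))
                                                        (Nat.mul bn tb))
                                                      (Nat.add
                                                        (Nat.add (Nat.add cn dn) (Nat.mul ap ta))
                                                        (Nat.mul bp tb)) fun fc =>
                                                      cond (Nat.beq o 0)
                                                        (k
                                                          (rowP i j (grpK fxi fyi fa)
                                                            (grpK fxj fyj fb) fc))
                                                        (k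
                                                          (rowP i j (grpK fxi fyi fb)
                                                            (grpK fxj fyj fa) fc)))
                    (Nat.sub (Nat.mul nu 100000000) (Nat.mul 8 g0)) (Nat.mul (Nat.mul 128 La) A))
                  false) false)
            (maxK (Nat.div (Nat.mul (Nat.sub NLp NLn) 1024) 9530000000000000000)
              (Nat.sub 1024
                (Nat.add
                  (Nat.div (Nat.mul (Nat.mul A vm) 1099511627776) 953000000000000000000000000) 2)))
            (Nat.add (Nat.add w2 (Nat.shiftRight (Nat.mul (Nat.mul 953 g0) Ap) 36)) 1)
            (absK lam 64) (Nat.ble 64 lam) (absK a0 1073741824)) false) false

/-- the row of a near-parallel pair in the mean frame -/
def row3K (LO HI i j kap e lam mu a0 : ℕ) (k : ℕ → Bool) : Bool :=
  cond (Nat.blt i j)
    (cond (Nat.ble j 10)
      (cond (Nat.ble e 128)
        (cond (Nat.ble lam 128)
          (cond (Nat.ble mu 128)
            (typ i fun bci bsi _ =>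
              typ j fun bcj _ _ =>
                cond (Nat.beq bci bcj)
                  (getL LO HI i fun lxi hxi lyi hyi lti hti =>
                    getL LO HI j fun lxj hxj lyj hyj ltj htj =>
                      (fun tj =>
                          (fun t =>
                              cond (Nat.ble tj (Nat.mul 2 t))
                                (dirK bci bsi t fun C S =>
                                  rotK kap C S fun Pp Pn Qp Qn =>
                                    coefK bci bsi Pp Pn Qp Qn fun xp xn yp yn =>
                                      bndK 0 0 xp xn yp yn xp xn yp yn lxi hxi lyi hyi lxj hxj lyj
                                        hyj fun _ _ NLp NLn NHp NHn =>
                                        bndK 0 0 yn yp xp xn yn yp xp xn lxi hxi lyi hyi lxj hxj
                                          lyj hyj fun _ _ MLp MLn MHp MHn =>
                                          vK MLp MLn MHp MHn fun vs w2 vm =>
                                            (fun ti =>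
                                                (fun A B gp gn =>
                                                    (fun R D =>
                                                        cond (Nat.ble D 100000000)
                                                          (cond (Nat.ble NLn NLp)
                                                            ((fun x La s aa =>
                                                                (fun nu =>
                                                                    (fun n1 n2 l =>
                                                                        sgK s
                                                                          (Nat.add
                                                                            (Nat.mul 2199023255552
                                                                              vs)
                                                                            (Nat.mul
                                                                              204655191654400000000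
                                                                              n1))
                                                                          (Nat.add
                                                                            4835703278458516698824704
                                                                            (Nat.mul
                                                                              (Nat.mul
                                                                                190600000000 a0)
                                                                              n1))
                                                                          (Nat.mul
                                                                            (Nat.mul 34359738368 La)
                                                                            w2) fun zp zn =>
                                                                          (fun ap an bp bn =>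
                                                                              lcK s 1
                                                                                (Nat.mul 536870912
                                                                                  l)
                                                                                (Nat.add
                                                                                  (Nat.add
                                                                                    (Nat.add
                                                                                      (Nat.add
                                                                                        (Nat.add
                                                                                          (Nat.add
                                                                                            (Nat.add
                                                                                              (Nat.add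
                                                                                                (Nat.add
                                                                                                  (Nat.mul
                                                                                                    (Nat.mul
                                                                                                      2199023255552
                                                                                                      R)
                                                                                                    w2)
                                                                                                  (Nat.mul
                                                                                                    97587200000000
                                                                                                    (Nat.mul
                                                                                                      (Nat.add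
                                                                                                        gp
                                                                                                        gn)
                                                                                                      (Nat.add
                                                                                                        gp
                                                                                                        gn))))
                                                                                                (Nat.mul
                                                                                                  390348800000000
                                                                                                  (Nat.mul
                                                                                                    A
                                                                                                    B)))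
                                                                                              (Nat.mul
                                                                                                95300000000
                                                                                                (Nat.add
                                                                                                  (Nat.mul
                                                                                                    n1
                                                                                                    (Nat.mul
                                                                                                      aa
                                                                                                      aa))
                                                                                                  (Nat.mul
                                                                                                    n2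
                                                                                                    (Nat.mul
                                                                                                      R
                                                                                                      R)))))
                                                                                            (Nat.mul
                                                                                              609920000000000000000
                                                                                              (Nat.add
                                                                                                (Nat.mul
                                                                                                  e
                                                                                                  gn)
                                                                                                (Nat.mul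
                                                                                                  64
                                                                                                  gp))))
                                                                                          (Nat.mul
                                                                                            37226562500000000
                                                                                            (Nat.mul
                                                                                              x D)))
                                                                                        (Nat.div
                                                                                          (Nat.mul
                                                                                            (Nat.mul
                                                                                              7624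
                                                                                              (absK
                                                                                                e
                                                                                                64))
                                                                                            (Nat.mul
                                                                                              (Nat.mul
                                                                                                D
                                                                                                D)
                                                                                              D))
                                                                                          3))
                                                                                      (Nat.div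
                                                                                        (Nat.mul
                                                                                          (Nat.mul
                                                                                            (Nat.mul
                                                                                              (Nat.mul
                                                                                                R
                                                                                                R)
                                                                                              R)
                                                                                            vm)
                                                                                          549755813888)
                                                                                        30000000000000000))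
                                                                                    (Nat.div
                                                                                      (Nat.mul
                                                                                        (Nat.mul
                                                                                          (Nat.add
                                                                                            1024
                                                                                            n1)
                                                                                          953)
                                                                                        (Nat.mul
                                                                                          (Nat.mul
                                                                                            R R)
                                                                                          (Nat.mul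
                                                                                            R R)))
                                                                                      4800000000))
                                                                                  7806976000000000000000003)
                                                                                (Nat.add
                                                                                  7806976000000000000000000000000
                                                                                  (Nat.mul
                                                                                    609920000000000000000
                                                                                    (Nat.add
                                                                                      (Nat.mul e gp)
                                                                                      (Nat.mul 64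
                                                                                        gn)))) vs
                                                                                2199023255552
                                                                                fun cp cn =>
                                                                                  lcK s
                                                                                    819200000000 l
                                                                                    xp xn yp yn
                                                                                    fun xjp xjn =>
                                                                                      lcK s
                                                                                        819200000000
                                                                                        l yp yn xn
                                                                                        xp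
                                                                                        fun yjp yjn =>
                                                                                          fldK xjn
                                                                                            xjp
                                                                                            fun fxi =>
                                                                                              fldK
                                                                                                yjn
                                                                                                yjp
                                                                                                fun fyi =>
                                                                                                  fldK
                                                                                                    xjp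
                                                                                                    xjn
                                                                                                    fun fxj =>
                                                                                                      fldK
                                                                                                        yjp
                                                                                                        yjn
                                                                                                        fun fyj =>
                                                                                                          fldK
                                                                                                            ap
                                                                                                            an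
                                                                                                            fun fa =>
                                                                                                              fldK
                                                                                                                bp
                                                                                                                bn
                                                                                                                fun fb =>
                                                                                                                  cstK
                                                                                                                    (Nat.add
                                                                                                                      (Nat.add
                                                                                                                        cp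
                                                                                                                        (Nat.mul
                                                                                                                          an
                                                                                                                          ti))
                                                                                                                      (Nat.mul
                                                                                                                        bn
                                                                                                                        tj))
                                                                                                                    (Nat.add
                                                                                                                      (Nat.add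
                                                                                                                        cn
                                                                                                                        (Nat.mul
                                                                                                                          ap
                                                                                                                          ti))
                                                                                                                      (Nat.mul
                                                                                                                        bp
                                                                                                                        tj))
                                                                                                                    fun fc =>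
                                                                                                                      k
                                                                                                                        (rowP
                                                                                                                          i
                                                                                                                          j
                                                                                                                          (grpK
                                                                                                                            fxi
                                                                                                                            fyi
                                                                                                                            fa)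
                                                                                                                          (grpK
                                                                                                                            fxj
                                                                                                                            fyj
                                                                                                                            fb)
                                                                                                                          fc))
                                                                            (Nat.add
                                                                              (Nat.add
                                                                                (Nat.add zp
                                                                                  (Nat.mul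
                                                                                    6099200000000
                                                                                    (Nat.mul B mu)))
                                                                                (Nat.mul
                                                                                  195174400000000
                                                                                  gn))
                                                                              (Nat.mul
                                                                                609920000000000000000
                                                                                e))
                                                                            (Nat.add
                                                                              (Nat.add
                                                                                (Nat.add zn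
                                                                                  (Nat.mul
                                                                                    390348800000000
                                                                                    B))
                                                                                (Nat.mul
                                                                                  195174400000000
                                                                                  gp))
                                                                              39034880000000000000000)
                                                                            (Nat.add
                                                                              (Nat.add
                                                                                (Nat.add zp
                                                                                  (Nat.mul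
                                                                                    6099200000000
                                                                                    (Nat.mul A mu)))
                                                                                (Nat.mul
                                                                                  195174400000000
                                                                                  gp))
                                                                              39034880000000000000000)
                                                                            (Nat.add
                                                                              (Nat.add
                                                                                (Nat.add zn
                                                                                  (Nat.mul
                                                                                    390348800000000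
                                                                                    A))
                                                                                (Nat.mul
                                                                                  195174400000000
                                                                                  gn))
                                                                              (Nat.mul
                                                                                609920000000000000000
                                                                                e)))
                                                                      (Nat.sub nu 1024)
                                                                      (Nat.sub 1024 nu)
                                                                      (Nat.mul (Nat.mul 64 La) R))
                                                                  (maxK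
                                                                    (Nat.div
                                                                      (Nat.mul (Nat.sub NLp NLn)
                                                                        1024) 9530000000000000000)
                                                                    (Nat.sub 1024
                                                                      (Nat.add
                                                                        (Nat.add
                                                                          (Nat.add
                                                                            (Nat.div
                                                                              (Nat.mul 128
                                                                                (Nat.mul D D))
                                                                              10000000000000000)
                                                                            (Nat.div (Nat.mul x D)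
                                                                              204800000000))
                                                                          (Nat.div
                                                                            (Nat.mul
                                                                              (Nat.mul R vm)
                                                                              549755813888)
                                                                            953000000000000000000000000))
                                                                        4))))
                                                              (Nat.sub
                                                                (Nat.add
                                                                  (Nat.mul (absK e 64) 16384)
                                                                  (Nat.add
                                                                    (Nat.div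
                                                                      (Nat.mul
                                                                        (Nat.add
                                                                          (Nat.add
                                                                            (Nat.div
                                                                              (Nat.mul vm
                                                                                1125899906842624)
                                                                              9530000000000000000)
                                                                            (Nat.div
                                                                              (Nat.mul
                                                                                (Nat.mul R
                                                                                  (Nat.add
                                                                                    (Nat.div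
                                                                                      (Nat.mul
                                                                                        (Nat.sub
                                                                                          NHp NHn)
                                                                                        1024)
                                                                                      9530000000000000000)
                                                                                    1)) 512)
                                                                              100000000)) 4)
                                                                        80000000000000000)
                                                                      (Nat.sub 80000000000000000
                                                                        (Nat.mul D D))) 1))
                                                                1048576) (absK lam 64)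
                                                              (Nat.ble 64 lam)
                                                              (absK a0 1073741824)) false) false)
                                                      (Nat.add A B)
                                                      (Nat.add (Nat.add A B) (Nat.add gp gn)))
                                                  (Nat.sub hti ti) (Nat.sub htj tj)
                                                  (Nat.sub tj ti) (Nat.sub ti tj))
                                              (Nat.sub (Nat.mul 2 t) tj)) false)
                            (Nat.shiftRight (Nat.add (Nat.shiftRight (Nat.add lti hti) 1) tj) 1))
                        (Nat.shiftRight (Nat.add ltj htj) 1)) false) false) false) false) false)
    false

/-- the row of a wall: side `0`: left, `1`: right, `2`: bottom, `3`: top -/
def wallK (LO HI i sd e1 e2 : ℕ) (k : ℕ → Bool) : Bool :=
  cond (Nat.ble i 10)
    (cond (Nat.ble e1 64)
      (cond (Nat.ble e2 128)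
        (typ i fun bc bs T4 =>
          getL LO HI i fun _ _ _ _ lt ht =>
            (fun t =>
                dirK bc bs t fun C S =>
                  (fun p n =>
                      cond (Nat.ble n p)
                        ((fun h0 A q m =>
                            (fun hp hn =>
                                (fun c0p c0n xk =>
                                    cond (Nat.beq sd 0)
                                      (xk (Nat.mul 81920000000000000000 bc) 0 0
                                        (Nat.mul 81920000000000000000 bs)
                                        (Nat.add c0p (Nat.mul (Nat.mul 81920000000000000000 bs) T4))
                                        (Nat.add c0n 64017203200000000000000000))
                                      (cond (Nat.beq sd 1)
                                        (xk 0 (Nat.mul 81920000000000000000 bc)
                                          (Nat.mul 81920000000000000000 bs) 0
                                          (Nat.add c0p 30268362632396800000000000000000)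
                                          (Nat.add c0n
                                            (Nat.mul (Nat.mul 81920000000000000000 bs) T4)))
                                        (cond (Nat.beq sd 2)
                                          (xk (Nat.mul 81920000000000000000 bs) 0
                                            (Nat.mul 81920000000000000000 bc) 0 c0p
                                            (Nat.add
                                              (Nat.add c0n
                                                (Nat.mul (Nat.mul 81920000000000000000 bc) T4))
                                              64017203200000000000000000))
                                          (cond (Nat.beq sd 3)
                                            (xk 0 (Nat.mul 81920000000000000000 bs) 0
                                              (Nat.mul 81920000000000000000 bc)
                                              (Nat.add
                                                (Nat.add c0p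
                                                  (Nat.mul (Nat.mul 81920000000000000000 bc) T4))
                                                30268362632396800000000000000000) c0n) false))))
                                  (Nat.add
                                    (Nat.add
                                      (Nat.add (Nat.mul (Nat.mul 30496 h0) (Nat.mul A A))
                                        (Nat.div
                                          (Nat.mul (Nat.mul 30496 (Nat.add hp hn))
                                            (Nat.mul (Nat.mul A A) A)) 300000000))
                                      (Nat.mul (Nat.mul 6099200000000 hp) t))
                                    1561395200000000000000001)
                                  (Nat.add (Nat.mul 609920000000000000000 h0)
                                    (Nat.mul (Nat.mul 6099200000000 hn) t))
                                  fun xp xn yp yn cp cn =>
                                    fldK xp xn fun fx =>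
                                      fldK yp yn fun fy =>
                                        fldK (Nat.mul 6099200000000 hn) (Nat.mul 6099200000000 hp)
                                          fun ft =>
                                            cstK cp cn fun fc => k (rowP1 i (grpK fx fy ft) fc))
                              (Nat.sub q m) (Nat.sub m q))
                          (Nat.sub p n) (Nat.sub ht t)
                          (Nat.add (Nat.mul 100000000 e1) (Nat.mul e2 C))
                          (Nat.add (Nat.mul e1 S) (Nat.mul 64 C))) false)
                    (Nat.add (Nat.add (Nat.mul e1 C) (Nat.mul e2 S)) 6400000000)
                    (Nat.add (Nat.mul 64 S) (Nat.mul 100000000 e2)))
              (Nat.shiftRight (Nat.add lt ht) 1)) false) false) false

/-- certificates -/
inductive Cert
  | fin (lam : ℕ)
  | cite (k : ℕ)
  | tight (v s U lam : ℕ) (c : Cert)
  | split (v U : ℕ) (c1 c2 : Cert)
  | excl (i j o kap e1 e2 : ℕ) (c : Cert)
  | alt (i j b : ℕ) (c1 c2 : Cert)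
  | nofact (i j : ℕ)
  | wall (i sd e1 e2 : ℕ) (c : Cert)
  | row1 (i j o kap e1 e2 lam a0 : ℕ) (c : Cert)
  | row3 (i j kap e lam mu a0 : ℕ) (c : Cert)
  | keep (mask : ℕ) (c : Cert)

/-- entry of the table: box (reversed fields) and facts -/
structure Ent where
  lo : ℕ
  hi : ℕ
  fb : ℕ

/-- the mask of the pair `i j`; bit `4 f + κ` -/
def mskK (FB i j : ℕ) : ℕ :=
  Nat.mod (Nat.shiftRight FB (Nat.mul 8 (Nat.add (Nat.mul 16 i) j))) 256

/-- digit-wise comparison of the first `n` digits -/
def leDig (P Q n : ℕ) : Bool :=
  Nat.rec (motive := fun _ => Bool) true
    (fun v ih => cond (Nat.ble (dgB P v) (dgB Q v)) ih false) n

/-- the box and the facts are contained in the entry -/
def inEnt (e : Ent) (LO HI FB : ℕ) : Bool :=
  cond (Nat.beq (Nat.land FB (Ent.fb e)) FB)
    (cond (leDig (Ent.lo e) LO 34) (leDig HI (Ent.hi e) 34) false) false

/-- look up in the table -/
def citeK (tab : List Ent) (LO HI FB : ℕ) : ℕ → Bool :=
  List.rec (motive := fun _ => ℕ → Bool) (fun _ => false)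
    (fun e _ ih k => cond (Nat.beq k 0) (inEnt e LO HI FB) (ih (Nat.sub k 1))) tab

/-- keep the rows whose bit in `mask` is set (the newest row first) -/
def keepK (env : List ℕ) : ℕ → List ℕ :=
  List.rec (motive := fun _ => ℕ → List ℕ) (fun _ => [])
    (fun P _ ih m =>
      cond (Nat.beq m 0) []
        (cond (Nat.beq (Nat.land m 1) 0) (ih (Nat.shiftRight m 1)) (P :: (ih (Nat.shiftRight m 1)))))
    env

/-- replace digit `w` -/
def setB (P w U : ℕ) : ℕ :=
  Nat.add (Nat.sub P (Nat.shiftLeft (dgB P w) (Nat.mul 144 w))) (Nat.shiftLeft U (Nat.mul 144 w))

/-- the checker -/
noncomputable def run (tab : List Ent) (c : Cert) : List ℕ → ℕ → ℕ → ℕ → Bool :=
  Cert.rec (motive := fun _ => List ℕ → ℕ → ℕ → ℕ → Bool)
    (fun lam env _ LO HI => farkas env lam LO HI) (fun k _ FB LO HI => citeK tab LO HI FB k)
    (fun v s U lam _ ih env FB LO HI =>
      cond (Nat.blt U 4294967296)
        (cond (Nat.ble v 32)
          (cond (Nat.beq s 0)
            (cond (farkas env lam LO (setB HI (Nat.sub 33 v) U))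
              (ih env FB (setB LO (Nat.sub 33 v) U) HI) false)
            (cond (farkas env lam (setB LO (Nat.sub 33 v) U) HI)
              (ih env FB LO (setB HI (Nat.sub 33 v) U)) false)) false) false)
    (fun v U _ _ ih1 ih2 env FB LO HI =>
      cond (Nat.blt U 4294967296)
        (cond (Nat.ble v 32)
          (cond (ih1 env FB LO (setB HI (Nat.sub 33 v) U))
            (ih2 env FB (setB LO (Nat.sub 33 v) U) HI) false) false) false)
    (fun i j o kap e1 e2 _ ih env FB LO HI =>
      cond (exclK LO HI i j o kap e1 e2)
        (ih env
          (Nat.xor FB
            (Nat.pow 2 (Nat.add (Nat.add (Nat.mul 8 (Nat.add (Nat.mul 16 i) j)) (Nat.mul 4 o)) kap)))
          LO HI) false)
    (fun i j b _ _ ih1 ih2 env FB LO HI =>
      cond (Nat.blt i j)
        (cond (Nat.ble j 10)
          (cond (Nat.ble b 7)
            (cond
              (ih1 env
                (Nat.add
                  (Nat.sub FB (Nat.shiftLeft (mskK FB i j) (Nat.mul 8 (Nat.add (Nat.mul 16 i) j))))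
                  (Nat.pow 2 (Nat.add (Nat.mul 8 (Nat.add (Nat.mul 16 i) j)) b))) LO HI)
              (ih2 env (Nat.xor FB (Nat.pow 2 (Nat.add (Nat.mul 8 (Nat.add (Nat.mul 16 i) j)) b)))
                LO HI) false) false) false) false)
    (fun i j _ FB _ _ =>
      cond (Nat.blt i j) (cond (Nat.ble j 10) (Nat.beq (mskK FB i j) 0) false) false)
    (fun i sd e1 e2 _ ih env FB LO HI => wallK LO HI i sd e1 e2 fun P => ih (P :: env) FB LO HI)
    (fun i j o kap e1 e2 lam a0 _ ih env FB LO HI =>
      cond (Nat.beq (mskK FB i j) (Nat.pow 2 (Nat.add (Nat.mul 4 o) kap)))
        (row1K LO HI i j o kap e1 e2 lam a0 fun P => ih (P :: env) FB LO HI) false)
    (fun i j kap e lam mu a0 _ ih env FB LO HI =>
      cond (Nat.beq (Nat.lor (mskK FB i j) (Nat.shiftLeft 17 kap)) (Nat.shiftLeft 17 kap))
        (row3K LO HI i j kap e lam mu a0 fun P => ih (P :: env) FB LO HI) false)
    (fun mask _ ih env FB LO HI => ih (keepK env mask) FB LO HI) c

/-- bound of the coordinate `x` (`sd = 0, 1`) or `y` (`sd = 2, 3`) of the tilted label `l` as a row;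
lower bounds for `sd` even -/
def xyP (l sd B : ℕ) : ℕ :=
  cond (Nat.beq sd 0)
    (rowP1 l
      (grpK (Nat.add 604462909807314587353088 59637760000000000000000)
        (Nat.sub 604462909807314587353088 50380800000000000000000) 604462909807314587353088)
      (Nat.add
        (Nat.div
          (Nat.sub (Nat.add 649037107316853453566312041152512 20152320000000000000000000000000)
            (Nat.mul 78069760000000000000000 B)) 1073741824) 1))
    (cond (Nat.beq sd 1)
      (rowP1 l
        (grpK (Nat.sub 604462909807314587353088 59637760000000000000000)
          (Nat.add 604462909807314587353088 50380800000000000000000) 604462909807314587353088)
        (Nat.add
          (Nat.div
            (Nat.sub
              (Nat.add 649037107316853453566312041152512 (Nat.mul 78069760000000000000000 B))
              20152320000000000000000000000000) 1073741824) 1))
      (cond (Nat.beq sd 2)
        (rowP1 l
          (grpK (Nat.add 604462909807314587353088 50380800000000000000000)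
            (Nat.add 604462909807314587353088 59637760000000000000000) 604462909807314587353088)
          (Nat.add
            (Nat.div
              (Nat.sub
                (Nat.sub 649037107316853453566312041152512 23855104000000000000000000000000)
                (Nat.mul 78069760000000000000000 B)) 1073741824) 1))
        (rowP1 l
          (grpK (Nat.sub 604462909807314587353088 50380800000000000000000)
            (Nat.sub 604462909807314587353088 59637760000000000000000) 604462909807314587353088)
          (Nat.add
            (Nat.div
              (Nat.add
                (Nat.add 649037107316853453566312041152512 (Nat.mul 78069760000000000000000 B))
                23855104000000000000000000000000) 1073741824) 1))))

end Pool.Agent.MP_abb58c_co.Fine
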