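import Pool.Agent.Lib.MP_abb58c_co.FineExit

/-! MP_abb58c_co, FINE: entry and exit with coordinates in the base frames -/

namespace Pool.Agent.MP_abb58c_co
namespace Fine

open Real Case

/-- box of a world, coordinates in the base frames -/
def InUBox (tl : Fin 11 → Bool) (lo hi : ℕ → ℕ) (w : Wd) : Prop :=
  ∀ l : Fin 11,
    ((lo (3 * l) : ℝ) ≤ (MM : ℝ) * w.U (tl l) l ∧ (MM : ℝ) * w.U (tl l) l ≤ hi (3 * l)) ∧
    ((lo (3 * l + 1) : ℝ) ≤ (MM : ℝ) * w.V (tl l) l + vb (tl l) ∧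
      (MM : ℝ) * w.V (tl l) l + vb (tl l) ≤ hi (3 * l + 1)) ∧
    ((lo (3 * l + 2) : ℝ) ≤ (MM : ℝ) * (w.t l - base (tl l)) + MM ∧
      (MM : ℝ) * (w.t l - base (tl l)) + MM ≤ hi (3 * l + 2))

/-- bounds for the coordinates `x`, `y`; `xy (4 l)`, ..., `xy (4 l + 3)` are
lower and upper bound for `M x_l`, lower and upper bound for `M y_l` -/
def InXY (xy : ℕ → ℕ) (w : Wd) : Prop :=
  ∀ l : Fin 11, ((xy (4 * l) : ℝ) ≤ (MM : ℝ) * w.x l ∧ (MM : ℝ) * w.x l ≤ xy (4 * l + 1)) ∧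
    ((xy (4 * l + 2) : ℝ) ≤ (MM : ℝ) * w.y l ∧ (MM : ℝ) * w.y l ≤ xy (4 * l + 3))

/-- check of the coordinates of a tilted label -/
def uvOK (X0 X1 Y0 Y1 U0 U1 V0 V1 : ℕ) : Bool :=
  decide (953 * U0 ≤ 728 * X0 + 615 * Y0) && decide (728 * X1 + 615 * Y1 ≤ 953 * U1) &&
  decide (953 * V0 + 615 * X1 ≤ 728 * Y0 + 381200000000) &&
  decide (728 * Y1 + 381200000000 ≤ 953 * V1 + 615 * X0)

/-- check of the coordinates of one label -/
def coOK (b : Bool) (X0 X1 Y0 Y1 U0 U1 V0 V1 : ℕ) : Bool :=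
  if b then uvOK X0 X1 Y0 Y1 U0 U1 V0 V1 else
    decide (U0 ≤ X0) && decide (X1 ≤ U1) && decide (V0 ≤ Y0) && decide (Y1 ≤ V1)

/-- the entry check: `xy` holds bounds for `M x_l`, `M y_l`, `lo` and `hi` are bounds for
`M U_l`, `M V_l` + bias, `M (t_l - base) + M` -/
def entryOK2 (N : Node) (tl : Fin 11 → Bool) (xy lo hi : ℕ → ℕ) : Bool :=
  (List.finRange 11).all fun l =>
    (match N[(l : ℕ)]? with
    | none => true
    | some n => n.B.all fun bx => boxOK (tl l) bx (xy (4 * l)) (xy (4 * l + 1)) (xy (4 * l + 2))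
        (xy (4 * l + 3)) (lo (3 * l + 2)) (hi (3 * l + 2))) &&
    coOK (tl l) (xy (4 * l)) (xy (4 * l + 1)) (xy (4 * l + 2)) (xy (4 * l + 3))
      (lo (3 * l)) (hi (3 * l)) (lo (3 * l + 1)) (hi (3 * l + 1))

/-- from bounds of `x`, `y` to bounds in the base frame -/
theorem co_bounds {w : Wd} {l : Fin 11} {b : Bool} {X0 X1 Y0 Y1 U0 U1 V0 V1 : ℕ}
    (h : coOK b X0 X1 Y0 Y1 U0 U1 V0 V1 = true)
    (h1 : (X0 : ℝ) ≤ (MM : ℝ) * w.x l) (h2 : (MM : ℝ) * w.x l ≤ X1)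
    (h3 : (Y0 : ℝ) ≤ (MM : ℝ) * w.y l) (h4 : (MM : ℝ) * w.y l ≤ Y1) :
    ((U0 : ℝ) ≤ (MM : ℝ) * w.U b l ∧ (MM : ℝ) * w.U b l ≤ U1) ∧
    ((V0 : ℝ) ≤ (MM : ℝ) * w.V b l + vb b ∧ (MM : ℝ) * w.V b l + vb b ≤ V1) := by
  cases b
  · simp only [coOK, Bool.false_eq_true, if_false, Bool.and_eq_true, decide_eq_true_eq] at h
    obtain ⟨⟨⟨g1, g2⟩, g3⟩, g4⟩ := h
    simp only [Wd.U, Wd.V, vb, Bool.false_eq_true, if_false, Nat.cast_zero, add_zero]
    refine ⟨⟨le_trans (by exact_mod_cast g1) h1, h2.trans (by exact_mod_cast g2)⟩,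
      le_trans (by exact_mod_cast g3) h3, h4.trans (by exact_mod_cast g4)⟩
  · simp only [coOK, uvOK, if_true, Bool.and_eq_true, decide_eq_true_eq] at h
    obtain ⟨⟨⟨g1, g2⟩, g3⟩, g4⟩ := h
    have hMM : ((MM : ℕ) : ℝ) = 100000000 := by norm_num
    rw [hMM] at h1 h2 h3 h4 ⊢
    have g1' : 953 * (U0 : ℝ) ≤ 728 * X0 + 615 * Y0 := by exact_mod_cast g1
    have g2' : 728 * (X1 : ℝ) + 615 * Y1 ≤ 953 * U1 := by exact_mod_cast g2
    have g3' : 953 * (V0 : ℝ) + 615 * X1 ≤ 728 * Y0 + 381200000000 := by exact_mod_cast g3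
    have g4' : 728 * (Y1 : ℝ) + 381200000000 ≤ 953 * V1 + 615 * X0 := by exact_mod_cast g4
    simp only [Wd.U, Wd.V, vb, if_true]
    push_cast
    refine ⟨⟨?_, ?_⟩, ?_, ?_⟩ <;> linarith

/-- ENTRY -/
theorem entry2 {N : Node} {tl : Fin 11 → Bool} {xy lo hi : ℕ → ℕ}
    (hchk : entryOK2 N tl xy lo hi = true)
    {T : TrumpData} {L : ℝ} {q : Fin 11 → Sq} (hL : L ≤ T.L) (hq : CPack L q)
    (hN : InNode N q) : ∃ w : Wd, CPack L w.sq ∧ World w ∧ InUBox tl lo hi w ∧ InXY xy w ∧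
      (∀ i, w.x i = (q i).x) ∧ (∀ i, w.y i = (q i).y) ∧ (∀ i, (w.sq i).op = (q i).op) := by
  have hu : ∀ i, (q i).c ^ 2 + (q i).s ^ 2 = 1 := (CPack.iff.1 hq).1
  have key : ∀ l : Fin 11, ∃ t : ℝ,
      (⟨(q l).x, (q l).y, cos t, sin t⟩ : Sq).op = (q l).op ∧
      (⟨(q l).x, (q l).y, cos t, sin t⟩ : Sq).h = (q l).h ∧
      ((xy (4 * l) : ℝ) ≤ (MM : ℝ) * (q l).x ∧ (MM : ℝ) * (q l).x ≤ xy (4 * l + 1)) ∧
      ((xy (4 * l + 2) : ℝ) ≤ (MM : ℝ) * (q l).y ∧ (MM : ℝ) * (q l).y ≤ xy (4 * l + 3)) ∧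
      ((lo (3 * l + 2) : ℝ) ≤ (MM : ℝ) * (t - base (tl l)) + MM ∧
        (MM : ℝ) * (t - base (tl l)) + MM ≤ hi (3 * l + 2)) := by
    intro l
    obtain ⟨n, hn, -, -, bx, hbx, hin⟩ := hN l
    have h0 := List.all_eq_true.1 hchk l (List.mem_finRange l)
    rw [Bool.and_eq_true] at h0
    have h1 := h0.1
    simp only [hn] at h1
    have h2 := List.all_eq_true.1 h1 bx hbx
    simp only [boxOK, Bool.and_eq_true, decide_eq_true_eq] at h2
    obtain ⟨⟨⟨⟨g1, g2⟩, g3⟩, g4⟩, g5⟩ := h2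
    obtain ⟨t, k1, k2, k3, k4⟩ := angle_entry (hu l) hin g5
    obtain ⟨b1, b2, b3, b4, -⟩ := hin
    have hDD : ((DD : ℕ) : ℝ) = 100000 := by norm_num
    have hMM : ((MM : ℕ) : ℝ) = 100000000 := by norm_num
    rw [hDD] at b1 b2 b3 b4
    have g1' : ((xy (4 * l) : ℕ) : ℝ) ≤ 1000 * bx.x0 := by exact_mod_cast g1
    have g2' : 1000 * (bx.x1 : ℝ) ≤ ((xy (4 * l + 1) : ℕ) : ℝ) := by exact_mod_cast g2
    have g3' : ((xy (4 * l + 2) : ℕ) : ℝ) ≤ 1000 * bx.y0 := by exact_mod_cast g3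
    have g4' : 1000 * (bx.y1 : ℝ) ≤ ((xy (4 * l + 3) : ℕ) : ℝ) := by exact_mod_cast g4
    rw [div_le_iff₀ (by norm_num)] at b1 b3
    rw [le_div_iff₀ (by norm_num)] at b2 b4
    have hop : (⟨(q l).x, (q l).y, cos t, sin t⟩ : Sq).op = (q l).op ∧
        (⟨(q l).x, (q l).y, cos t, sin t⟩ : Sq).h = (q l).h := by
      cases htu : turned (tl l) bx
      · obtain ⟨e1, e2⟩ := k1 htu
        rw [← e1, ← e2]
        exact ⟨rfl, rfl⟩
      · obtain ⟨e1, e2⟩ := k2 htu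
        rw [← e1, ← e2]
        exact ⟨op_turn _, h_turn _⟩
    refine ⟨t, hop.1, hop.2, ⟨?_, ?_⟩, ⟨?_, ?_⟩, k3, k4⟩
    · rw [hMM]; linarith
    · rw [hMM]; linarith
    · rw [hMM]; linarith
    · rw [hMM]; linarith
  choose t ht1 ht2 ht3 ht4 ht5 using key
  have hc : CPack L (Wd.sq ⟨fun i => (q i).x, fun i => (q i).y, t⟩) :=
    cpack_congr hq (fun i => cos_sq_add_sin_sq _) (fun _ => rfl) (fun _ => rfl) ht2 ht1
  refine ⟨⟨fun i => (q i).x, fun i => (q i).y, t⟩, hc, world_of_cpack hL hc,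
    fun l => ?_, fun l => ⟨ht3 l, ht4 l⟩, fun _ => rfl, fun _ => rfl, ht1⟩
  have h0 := List.all_eq_true.1 hchk l (List.mem_finRange l)
  rw [Bool.and_eq_true] at h0
  obtain ⟨r1, r2⟩ := co_bounds (w := ⟨fun i => (q i).x, fun i => (q i).y, t⟩) h0.2
    (ht3 l).1 (ht3 l).2 (ht4 l).1 (ht4 l).2
  exact ⟨r1, r2, ht5 l⟩

/-- centres in the base frames, units `1/M`, second coordinate with bias -/
def exU : Fin 11 → ℕ := ![224285921, 337709180, 237709180, 179059823, 337709180, 50000820,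
  50000820, 337709180, 279060192, 190923205, 290923574]

/-- see `exU` -/
def exV : Fin 11 → ℕ := ![302766619, 237709180, 337709180, 502773351, 337709180, 337709180,
  50000820, 134453348, 505245925, 402771585, 405244159]

/-- the exit check -/
def exitOK2 (tl : Fin 11 → Bool) (lo hi : ℕ → ℕ) : Bool :=
  (List.finRange 11).all fun l =>
    (tl l == tiltS l) &&
    (decide (exU l ≤ lo (3 * l) + 34700) && decide (hi (3 * l) ≤ exU l + 34700)) &&
    (decide (exV l ≤ lo (3 * l + 1) + 34700) && decide (hi (3 * l + 1) ≤ exV l + 34700)) &&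
    (decide (100000000 ≤ lo (3 * l + 2) + 188000) && decide (hi (3 * l + 2) ≤ 100188000))

/-- the rounded centres in the base frames -/
theorem exUV_bd (l : Fin 11) : (if tiltS l then
    953 * exU l ≤ 728 * exX l + 615 * exY l + 953 ∧ 728 * exX l + 615 * exY l ≤ 953 * exU l + 953 ∧
    953 * exV l + 615 * exX l ≤ 728 * exY l + 381200000000 + 953 ∧
    728 * exY l + 381200000000 ≤ 953 * exV l + 615 * exX l + 953 else
    exU l = exX l ∧ exV l = exY l) := by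
  revert l
  decide

/-- the content of the exit check -/
theorem exit_bounds2 {tl : Fin 11 → Bool} {lo hi : ℕ → ℕ} (hchk : exitOK2 tl lo hi = true)
    {w : Wd} (hb : InUBox tl lo hi w) (l : Fin 11) :
    |w.x l - (exX l : ℝ) / 100000000| ≤ 0.00049 ∧ |w.y l - (exY l : ℝ) / 100000000| ≤ 0.00049 ∧
    |w.t l - base (tiltS l)| ≤ 0.00188 := by
  have h1 := List.all_eq_true.1 hchk l (List.mem_finRange l)
  simp only [Bool.and_eq_true, decide_eq_true_eq, beq_iff_eq] at h1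
  obtain ⟨⟨⟨g1, g2, g3⟩, g4, g5⟩, g6, g7⟩ := h1
  obtain ⟨⟨b1, b2⟩, ⟨b3, b4⟩, b5, b6⟩ := hb l
  have hMM : ((MM : ℕ) : ℝ) = 100000000 := by norm_num
  rw [hMM] at b1 b2 b3 b4 b5 b6
  rw [g1] at b1 b2 b3 b4 b5 b6
  have g2' : (exU l : ℝ) ≤ (lo (3 * l) : ℝ) + 34700 := by exact_mod_cast g2
  have g3' : ((hi (3 * l) : ℕ) : ℝ) ≤ (exU l : ℝ) + 34700 := by exact_mod_cast g3
  have g4' : (exV l : ℝ) ≤ (lo (3 * l + 1) : ℝ) + 34700 := by exact_mod_cast g4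
  have g5' : ((hi (3 * l + 1) : ℕ) : ℝ) ≤ (exV l : ℝ) + 34700 := by exact_mod_cast g5
  have g6' : (100000000 : ℝ) ≤ (lo (3 * l + 2) : ℝ) + 188000 := by exact_mod_cast g6
  have g7' : ((hi (3 * l + 2) : ℕ) : ℝ) ≤ 100188000 := by exact_mod_cast g7
  have hE := exUV_bd l
  cases hT : tiltS l
  · rw [hT] at hE b1 b2 b3 b4 b5 b6
    simp only [Bool.false_eq_true, if_false] at hE
    obtain ⟨e1, e2⟩ := hE
    rw [e1] at g2' g3'
    rw [e2] at g4' g5'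
    simp only [Wd.U, Wd.V, vb, Bool.false_eq_true, if_false, Nat.cast_zero, add_zero]
      at b1 b2 b3 b4
    refine ⟨?_, ?_, ?_⟩
    · rw [abs_le]; constructor <;> linarith
    · rw [abs_le]; constructor <;> linarith
    · rw [abs_le]; constructor <;> linarith
  · rw [hT] at hE b1 b2 b3 b4 b5 b6
    simp only [if_true] at hE
    obtain ⟨e1, e2, e3, e4⟩ := hE
    have e1' : 953 * (exU l : ℝ) ≤ 728 * exX l + 615 * exY l + 953 := by exact_mod_cast e1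
    have e2' : 728 * (exX l : ℝ) + 615 * exY l ≤ 953 * exU l + 953 := by exact_mod_cast e2
    have e3' : 953 * (exV l : ℝ) + 615 * exX l ≤ 728 * exY l + 381200000000 + 953 := by
      exact_mod_cast e3
    have e4' : 728 * (exY l : ℝ) + 381200000000 ≤ 953 * exV l + 615 * exX l + 953 := by
      exact_mod_cast e4
    simp only [Wd.U, Wd.V, vb, if_true] at b1 b2 b3 b4
    push_cast at b1 b2 b3 b4
    -- `728 U - 615 V` and `615 U + 728 V`
    refine ⟨?_, ?_, ?_⟩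
    · rw [abs_le]; constructor <;> linarith
    · rw [abs_le]; constructor <;> linarith
    · rw [abs_le]; constructor <;> linarith

/-- EXIT -/
theorem exit2 (hLoc : SpecLocal) {tl : Fin 11 → Bool} {lo hi : ℕ → ℕ} (hchk : exitOK2 tl lo hi = true)
    {T : TrumpData} {L : ℝ} {w : Wd} (hL : L ≤ T.L) (hc : CPack L w.sq)
    (hb : InUBox tl lo hi w) : L = T.L :=
  exit_core hLoc hL hc (exit_bounds2 hchk hb)

end Fine
end Pool.Agent.MP_abb58c_co
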