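import Pool.Agent.Lib.MP_abb58c_co.FineUV

/-! MP_abb58c_co, FINE: exit to the local optimality theorem -/

namespace Pool.Agent.MP_abb58c_co
namespace Fine

open Real Case

/-- bounds of a product of two positive numbers -/
theorem mulb {a b a0 a1 b0 b1 : ℝ} (ha : 0 ≤ a0) (hb : 0 ≤ b0) (h1 : a0 < a) (h2 : a < a1)
    (h3 : b0 < b) (h4 : b < b1) : a0 * b0 ≤ a * b ∧ a * b ≤ a1 * b1 :=
  ⟨mul_le_mul h1.le h3.le hb (ha.trans h1.le),
   mul_le_mul h2.le h4.le (hb.trans h3.le) ((ha.trans h1.le).trans h2.le)⟩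

/-- centres of the squares of Trump's packing (turned by 180 degrees, centred), units `1/M` -/
def exX : Fin 11 → ℕ := ![234080461, 337709180, 237709180, 70461637, 337709180, 50000820,
  50000820, 337709180, 145256638, 144058309, 218853309]

/-- see `exX` -/
def exY : Fin 11 → ℕ := ![70461637, 237709180, 337709180, 194061690, 337709180, 337709180,
  50000820, 134453348, 260483790, 125325797, 191747897]

/-- the label of square `i` of `T.cfg` -/
def labT : Fin 11 → Fin 11 := ![4, 2, 1, 7, 5, 6, 10, 8, 9, 0, 3]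

theorem labT_inj : Function.Injective labT := by decide

/-- `labT` as a permutation -/
noncomputable def labE : Equiv.Perm (Fin 11) :=
  Equiv.ofBijective labT (Finite.injective_iff_bijective.1 labT_inj)

theorem labE_apply (i : Fin 11) : labE i = labT i := rfl

/-- the exit check -/
def exitOK (tl : Fin 11 → Bool) (lo hi : ℕ → ℕ) : Bool :=
  (List.finRange 11).all fun l =>
    (tl l == tiltS l) &&
    (decide (exX l ≤ lo (3 * l) + 49000) && decide (hi (3 * l) ≤ exX l + 49000)) &&
    (decide (exY l ≤ lo (3 * l + 1) + 49000) && decide (hi (3 * l + 1) ≤ exY l + 49000)) &&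
    (decide (100000000 ≤ lo (3 * l + 2) + 188000) && decide (hi (3 * l + 2) ≤ 100188000))

/-- the content of the exit check -/
theorem exit_bounds {tl : Fin 11 → Bool} {lo hi : ℕ → ℕ} (hchk : exitOK tl lo hi = true)
    {w : Wd} (hb : InFBox tl lo hi w) (l : Fin 11) :
    |w.x l - (exX l : ℝ) / 100000000| ≤ 0.00049 ∧ |w.y l - (exY l : ℝ) / 100000000| ≤ 0.00049 ∧
    |w.t l - base (tiltS l)| ≤ 0.00188 := by
  have h1 := List.all_eq_true.1 hchk l (List.mem_finRange l)
  simp only [Bool.and_eq_true, decide_eq_true_eq, beq_iff_eq] at h1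
  obtain ⟨⟨⟨g1, g2, g3⟩, g4, g5⟩, g6, g7⟩ := h1
  obtain ⟨⟨b1, b2⟩, ⟨b3, b4⟩, b5, b6⟩ := hb l
  have hMM : ((MM : ℕ) : ℝ) = 100000000 := by norm_num
  rw [hMM] at b1 b2 b3 b4 b5 b6
  rw [g1] at b5 b6
  have g2' : (exX l : ℝ) ≤ (lo (3 * l) : ℝ) + 49000 := by exact_mod_cast g2
  have g3' : ((hi (3 * l) : ℕ) : ℝ) ≤ (exX l : ℝ) + 49000 := by exact_mod_cast g3
  have g4' : (exY l : ℝ) ≤ (lo (3 * l + 1) : ℝ) + 49000 := by exact_mod_cast g4
  have g5' : ((hi (3 * l + 1) : ℕ) : ℝ) ≤ (exY l : ℝ) + 49000 := by exact_mod_cast g5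
  have g6' : (100000000 : ℝ) ≤ (lo (3 * l + 2) : ℝ) + 188000 := by exact_mod_cast g6
  have g7' : ((hi (3 * l + 2) : ℕ) : ℝ) ≤ 100188000 := by exact_mod_cast g7
  refine ⟨?_, ?_, ?_⟩
  · rw [abs_le]; constructor <;> linarith
  · rw [abs_le]; constructor <;> linarith
  · rw [abs_le]; constructor <;> linarith

set_option maxHeartbeats 4000000 in
/-- EXIT, from bounds for the coordinates -/
theorem exit_core (hLoc : SpecLocal) {T : TrumpData} {L : ℝ} {w : Wd} (hL : L ≤ T.L) (hc : CPack L w.sq)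
    (B : ∀ l : Fin 11, |w.x l - (exX l : ℝ) / 100000000| ≤ 0.00049 ∧
      |w.y l - (exY l : ℝ) / 100000000| ≤ 0.00049 ∧
      |w.t l - base (tiltS l)| ≤ 0.00188) : L = T.L := by
  obtain ⟨n1, n2, n3, n4, n5, n6, n7, n8, n9, n10⟩ := trumpData_bounds T
  have hL0 : T.L - 0.00099 ≤ L := by
    have h1 := (CPack.iff.1 hc).2.2.1 4
    rw [h_eq, sig_eq] at h1
    have h2 := hh_ge_half (w.t 4)
    have h3 := (abs_le.1 (B 4).1).1
    have e : ((exX 4 : ℕ) : ℝ) = 337709180 := by
      rw [show exX 4 = 337709180 from rfl]; norm_num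
    rw [e] at h3
    change w.x 4 ≤ _ at h1
    norm_num at h1 h2 h3 n1 n2 ⊢
    linarith
  have hP : Pack L (fun i => shiftSq L (rotSq^[2] (w.sq (labE i)))) :=
    (hc.relabel labE).rot_iter 2
  refine hLoc T L _ hL hP fun i => ?_
  have e2 : ∀ q : Sq, rotSq^[2] q = ⟨sig - q.x, sig - q.y, q.c, q.s⟩ := fun q => rfl
  simp only [e2, shiftSq, labE_apply, Wd.sq, sig_eq]
  -- bounds for the centre and for the direction
  have key : ∀ (X Y X' Y' c' s' cb sb : ℝ) (l : Fin 11), ((exX l : ℕ) : ℝ) = X' →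
      ((exY l : ℕ) : ℝ) = Y' → cos (base (tiltS l)) = cb → sin (base (tiltS l)) = sb →
      |(3.8771 + T.L) / 2 - X - X' / 100000000| ≤ 0.000005 →
      |(3.8771 + T.L) / 2 - Y - Y' / 100000000| ≤ 0.000005 →
      |cb - c'| ≤ 0.000115 → |sb - s'| ≤ 0.000115 →
      |3.8771 - w.x l - (3.8771 - L) / 2 - X| ≤ 1 / 1000 ∧
      |3.8771 - w.y l - (3.8771 - L) / 2 - Y| ≤ 1 / 1000 ∧
      |cos (w.t l) - c'| ≤ 1 / 500 ∧ |sin (w.t l) - s'| ≤ 1 / 500 := by
    intro X Y X' Y' c' s' cb sb l hX' hY' hcb hsb h1 h2 h3 h4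
    obtain ⟨b1, b2, b3⟩ := B l
    rw [hX'] at b1
    rw [hY'] at b2
    have hcc := abs_cos_sub_cos_le (w.t l) (base (tiltS l))
    have hss := abs_sin_sub_sin_le (w.t l) (base (tiltS l))
    rw [hcb] at hcc
    rw [hsb] at hss
    have k1 := abs_le.1 (hcc.trans b3)
    have k2 := abs_le.1 (hss.trans b3)
    have k3 := abs_le.1 h3
    have k4 := abs_le.1 h4
    have k5 := abs_le.1 h1
    have k6 := abs_le.1 h2
    have k7 := abs_le.1 b1
    have k8 := abs_le.1 b2
    refine ⟨?_, ?_, ?_, ?_⟩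
    · rw [abs_le]
      constructor <;> linarith
    · rw [abs_le]
      constructor <;> linarith
    · rw [abs_le]
      constructor <;> linarith
    · rw [abs_le]
      constructor <;> linarith
  have cbt : cos (base true) = 728 / 953 := by rw [cos_base]; norm_num [baseC]
  have sbt : sin (base true) = 615 / 953 := by rw [sin_base]; norm_num [baseS]
  have cbf : cos (base false) = 1 := by rw [cos_base]; norm_num [baseC]
  have sbf : sin (base false) = 0 := by rw [sin_base]; norm_num [baseS]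
  -- products
  obtain ⟨c0, c1⟩ := mulb (by norm_num) (by norm_num) n3 n4 n3 n4
  obtain ⟨x0, x1⟩ := mulb (by norm_num) (by norm_num) n3 n4 n5 n6
  obtain ⟨s0, s1⟩ := mulb (by norm_num) (by norm_num) n5 n6 n5 n6
  obtain ⟨dc0, dc1⟩ := mulb (by norm_num) (by norm_num) n7 n8 n3 n4
  obtain ⟨ds0, ds1⟩ := mulb (by norm_num) (by norm_num) n7 n8 n5 n6
  obtain ⟨wc0, wc1⟩ := mulb (by norm_num) (by norm_num) n9 n10 n3 n4
  obtain ⟨ws0, ws1⟩ := mulb (by norm_num) (by norm_num) n9 n10 n5 n6
  have c00 : (0 : ℝ) ≤ T.c := by linarith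
  have s00 : (0 : ℝ) ≤ T.s := by linarith
  have dcc0 := mul_le_mul_of_nonneg_right dc0 c00
  have dcc1 := mul_le_mul_of_nonneg_right dc1 c00
  have dcs0 := mul_le_mul_of_nonneg_right dc0 s00
  have dcs1 := mul_le_mul_of_nonneg_right dc1 s00
  have dss0 := mul_le_mul_of_nonneg_right ds0 s00
  have dss1 := mul_le_mul_of_nonneg_right ds1 s00
  norm_num at n1 n2 n3 n4 n5 n6 n7 n8 n9 n10 c0 c1 x0 x1 s0 s1 dc0 dc1 ds0 ds1 wc0 wc1 ws0 ws1
  norm_num at dcc0 dcc1 dcs0 dcs1 dss0 dss1
  fin_cases i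
  · refine key (1 / 2)
      (1 / 2) 337709180 337709180 1 0 1 0 4
      (by rw [show exX 4 = 337709180 from rfl]; norm_num)
      (by rw [show exY 4 = 337709180 from rfl]; norm_num) cbf sbf ?_ ?_ ?_ ?_
    · rw [abs_le]; norm_num; constructor <;> linarith
    · rw [abs_le]; norm_num; constructor <;> linarith
    · norm_num
    · norm_num
  · refine key (3 / 2)
      (1 / 2) 237709180 337709180 1 0 1 0 2
      (by rw [show exX 2 = 237709180 from rfl]; norm_num)
      (by rw [show exY 2 = 337709180 from rfl]; norm_num) cbf sbf ?_ ?_ ?_ ?_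
    · rw [abs_le]; norm_num; constructor <;> linarith
    · rw [abs_le]; norm_num; constructor <;> linarith
    · norm_num
    · norm_num
  · refine key (1 / 2)
      (3 / 2) 337709180 237709180 1 0 1 0 1
      (by rw [show exX 1 = 337709180 from rfl]; norm_num)
      (by rw [show exY 1 = 237709180 from rfl]; norm_num) cbf sbf ?_ ?_ ?_ ?_
    · rw [abs_le]; norm_num; constructor <;> linarith
    · rw [abs_le]; norm_num; constructor <;> linarith
    · norm_num
    · norm_num
  · refine key (1 / 2)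
      (T.d + 1 / 2) 337709180 134453348 1 0 1 0 7
      (by rw [show exX 7 = 337709180 from rfl]; norm_num)
      (by rw [show exY 7 = 134453348 from rfl]; norm_num) cbf sbf ?_ ?_ ?_ ?_
    · rw [abs_le]; norm_num; constructor <;> linarith
    · rw [abs_le]; norm_num; constructor <;> linarith
    · norm_num
    · norm_num
  · refine key (T.L - 1 / 2)
      (1 / 2) 50000820 337709180 1 0 1 0 5
      (by rw [show exX 5 = 50000820 from rfl]; norm_num)
      (by rw [show exY 5 = 337709180 from rfl]; norm_num) cbf sbf ?_ ?_ ?_ ?_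
    · rw [abs_le]; norm_num; constructor <;> linarith
    · rw [abs_le]; norm_num; constructor <;> linarith
    · norm_num
    · norm_num
  · refine key (T.L - 1 / 2)
      (T.L - 1 / 2) 50000820 50000820 1 0 1 0 6
      (by rw [show exX 6 = 50000820 from rfl]; norm_num)
      (by rw [show exY 6 = 50000820 from rfl]; norm_num) cbf sbf ?_ ?_ ?_ ?_
    · rw [abs_le]; norm_num; constructor <;> linarith
    · rw [abs_le]; norm_num; constructor <;> linarith
    · norm_num
    · norm_num
  · refine key ((T.c + 2 * T.s + 1 / 2) * T.c - (T.d * T.c - T.s - 1 / 2) * T.s)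
      ((T.c + 2 * T.s + 1 / 2) * T.s + (T.d * T.c - T.s - 1 / 2) * T.c) 218853309 191747897 T.c T.s (728 / 953) (615 / 953) 10
      (by rw [show exX 10 = 218853309 from rfl]; norm_num)
      (by rw [show exY 10 = 191747897 from rfl]; norm_num) cbt sbt ?_ ?_ ?_ ?_
    · rw [abs_le]; norm_num; constructor <;> linarith
    · rw [abs_le]; norm_num; constructor <;> linarith
    · rw [abs_le]; norm_num; constructor <;> linarith
    · rw [abs_le]; norm_num; constructor <;> linarith
  · refine key ((2 * T.c + T.s + 1 / 2) * T.c - (T.d * T.c - T.s - 3 / 2) * T.s)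
      ((2 * T.c + T.s + 1 / 2) * T.s + (T.d * T.c - T.s - 3 / 2) * T.c) 145256638 260483790 T.c T.s (728 / 953) (615 / 953) 8
      (by rw [show exX 8 = 145256638 from rfl]; norm_num)
      (by rw [show exY 8 = 260483790 from rfl]; norm_num) cbt sbt ?_ ?_ ?_ ?_
    · rw [abs_le]; norm_num; constructor <;> linarith
    · rw [abs_le]; norm_num; constructor <;> linarith
    · rw [abs_le]; norm_num; constructor <;> linarith
    · rw [abs_le]; norm_num; constructor <;> linarith
  · refine key ((T.c + 2 * T.s + 3 / 2) * T.c - T.w * T.s)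
      ((T.c + 2 * T.s + 3 / 2) * T.s + T.w * T.c) 144058309 125325797 T.c T.s (728 / 953) (615 / 953) 9
      (by rw [show exX 9 = 144058309 from rfl]; norm_num)
      (by rw [show exY 9 = 125325797 from rfl]; norm_num) cbt sbt ?_ ?_ ?_ ?_
    · rw [abs_le]; norm_num; constructor <;> linarith
    · rw [abs_le]; norm_num; constructor <;> linarith
    · rw [abs_le]; norm_num; constructor <;> linarith
    · rw [abs_le]; norm_num; constructor <;> linarith
  · refine key ((T.c + (T.d + 1) * T.s + 1 / 2) * T.c - (T.w + 1) * T.s)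
      ((T.c + (T.d + 1) * T.s + 1 / 2) * T.s + (T.w + 1) * T.c) 234080461 70461637 T.c T.s (728 / 953) (615 / 953) 0
      (by rw [show exX 0 = 234080461 from rfl]; norm_num)
      (by rw [show exY 0 = 70461637 from rfl]; norm_num) cbt sbt ?_ ?_ ?_ ?_
    · rw [abs_le]; norm_num; constructor <;> linarith
    · rw [abs_le]; norm_num; constructor <;> linarith
    · rw [abs_le]; norm_num; constructor <;> linarith
    · rw [abs_le]; norm_num; constructor <;> linarith
  · refine key ((2 * T.c + T.s + 3 / 2) * T.c - (T.w - 1) * T.s)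
      ((2 * T.c + T.s + 3 / 2) * T.s + (T.w - 1) * T.c) 70461637 194061690 T.c T.s (728 / 953) (615 / 953) 3
      (by rw [show exX 3 = 70461637 from rfl]; norm_num)
      (by rw [show exY 3 = 194061690 from rfl]; norm_num) cbt sbt ?_ ?_ ?_ ?_
    · rw [abs_le]; norm_num; constructor <;> linarith
    · rw [abs_le]; norm_num; constructor <;> linarith
    · rw [abs_le]; norm_num; constructor <;> linarith
    · rw [abs_le]; norm_num; constructor <;> linarith

/-- EXIT -/
theorem exit (hLoc : SpecLocal) {tl : Fin 11 → Bool} {lo hi : ℕ → ℕ} (hchk : exitOK tl lo hi = true)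
    {T : TrumpData} {L : ℝ} {w : Wd} (hL : L ≤ T.L) (hc : CPack L w.sq)
    (hb : InFBox tl lo hi w) : L = T.L :=
  exit_core hLoc hL hc (exit_bounds hchk hb)

end Fine
end Pool.Agent.MP_abb58c_co
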