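import Pool.Agent.Lib.MP_abb58c_co.SweepSpec

/-! MP_abb58c_co, SWEEP: points which lie in every square of a slab (Z-check), and the splitting
of a weighted point list into sure points (constant), active points and dropped points
(helper73). -/

namespace Pool.Agent.MP_abb58c_co

namespace Sweep

/-- the point `(px, py)` is seen from every position of the domain (rectangle and window) -/
def inside (a b h x0 x1 y0 y1 ul uh vl vh px py : ℕ) : Bool :=
  Nat.blt (uc a b px py) (h + max ul (a * x0 + b * y0)) &&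
  Nat.blt (min uh (a * x1 + b * y1)) (h + uc a b px py) &&
  Nat.blt (vc a b px py) (h + max vl (a * y0 + b * (S0 - x1))) &&
  Nat.blt (min vh (a * y1 + b * (S0 - x0))) (h + vc a b px py) &&
  Nat.ble x1 S0

theorem inside_sound {a b h x0 x1 y0 y1 ul uh vl vh px py : ℕ}
    (hc : inside a b h x0 x1 y0 y1 ul uh vl vh px py = true) {X Y : ℝ}
    (hX0 : (x0 : ℝ) ≤ X) (hX1 : X ≤ x1) (hY0 : (y0 : ℝ) ≤ Y) (hY1 : Y ≤ y1)
    (hul : (ul : ℝ) ≤ a * X + b * Y) (huh : a * X + b * Y ≤ uh)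
    (hvl : (vl : ℝ) ≤ a * Y + b * (S0 - X)) (hvh : a * Y + b * (S0 - X) ≤ vh) :
    |(uc a b px py : ℝ) - (a * X + b * Y)| < h ∧
      |(vc a b px py : ℝ) - (a * Y + b * (S0 - X))| < h := by
  unfold inside at hc
  simp only [Bool.and_eq_true, Nat.blt_eq, Nat.ble_eq] at hc
  obtain ⟨⟨⟨⟨h1, h2⟩, h3⟩, h4⟩, h5⟩ := hc
  have ha : (0 : ℝ) ≤ a := Nat.cast_nonneg a
  have hb : (0 : ℝ) ≤ b := Nat.cast_nonneg b
  have h1' : (uc a b px py : ℝ) < h + max (ul : ℝ) (a * x0 + b * y0) := by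
    exact_mod_cast h1
  have h2' : min (uh : ℝ) (a * x1 + b * y1) < h + (uc a b px py : ℝ) := by
    exact_mod_cast h2
  have h3' : (vc a b px py : ℝ) < h + max (vl : ℝ) (a * y0 + b * ((S0 - x1 : ℕ) : ℝ)) := by
    exact_mod_cast h3
  have h4' : min (vh : ℝ) (a * y1 + b * ((S0 - x0 : ℕ) : ℝ)) < h + (vc a b px py : ℝ) := by
    exact_mod_cast h4
  have e1 : ((S0 - x1 : ℕ) : ℝ) = (S0 : ℝ) - x1 := by
    rw [Nat.cast_sub h5]
  have e0 : (S0 : ℝ) - x0 ≤ ((S0 - x0 : ℕ) : ℝ) := by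
    have : (S0 : ℝ) ≤ ((S0 - x0 : ℕ) : ℝ) + x0 := by
      have h0 : S0 ≤ (S0 - x0) + x0 := by omega
      exact_mod_cast h0
    linarith
  have m1 : max (ul : ℝ) (a * x0 + b * y0) ≤ a * X + b * Y := by
    apply max_le hul
    have := mul_le_mul_of_nonneg_left hX0 ha
    have := mul_le_mul_of_nonneg_left hY0 hb
    linarith
  have m2 : a * X + b * Y ≤ min (uh : ℝ) (a * x1 + b * y1) := by
    apply le_min huh
    have := mul_le_mul_of_nonneg_left hX1 ha
    have := mul_le_mul_of_nonneg_left hY1 hb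
    linarith
  have m3 : max (vl : ℝ) (a * y0 + b * ((S0 - x1 : ℕ) : ℝ)) ≤ a * Y + b * (S0 - X) := by
    apply max_le hvl
    rw [e1]
    have := mul_le_mul_of_nonneg_left hY0 ha
    have := mul_le_mul_of_nonneg_left hX1 hb
    linarith
  have m4 : a * Y + b * (S0 - X) ≤ min (vh : ℝ) (a * y1 + b * ((S0 - x0 : ℕ) : ℝ)) := by
    apply le_min hvh
    have := mul_le_mul_of_nonneg_left hY1 ha
    have := mul_le_mul_of_nonneg_left hX0 hb
    have := mul_le_mul_of_nonneg_left e0 hb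
    linarith
  refine ⟨abs_lt.2 ⟨by linarith, by linarith⟩, abs_lt.2 ⟨by linarith, by linarith⟩⟩

/-- the point `(px, py)` is not seen from any position of the domain -/
def outside (a b h x0 x1 y0 y1 ul uh vl vh px py : ℕ) : Bool :=
  Nat.ble (h + min uh (a * x1 + b * y1)) (uc a b px py) ||
  Nat.ble (h + uc a b px py) (max ul (a * x0 + b * y0)) ||
  Nat.ble (h + min vh (a * y1 + b * (S0 - x0))) (vc a b px py) ||
  (Nat.ble x1 S0 && Nat.ble (h + vc a b px py) (max vl (a * y0 + b * (S0 - x1))))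

/-- the Z-check: the point `z` gives a certificate with weight `1` and threshold `1` -/
theorem covers_z {a b h x0 x1 y0 y1 ul uh vl vh : ℕ} {z : ℕ × ℕ}
    (hc : inside a b h x0 x1 y0 y1 ul uh vl vh z.1 z.2 = true) :
    Covers a b h x0 x1 y0 y1 ul uh vl vh 1 [(z.1, z.2, 1)] := by
  intro X Y hX0 hX1 hY0 hY1 hul huh hvl hvh
  have := inside_sound hc hX0 hX1 hY0 hY1 hul huh hvl hvh
  simp only [seen, List.map_cons, List.map_nil, List.sum_cons, List.sum_nil]
  rw [if_pos this]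
  norm_num

theorem pt_mem_of_wt {z : ℕ × ℕ} {q : Sq} (h : (1 : ℝ) ≤ wt [(z.1, z.2, 1)] q) :
    pt z ∈ q.op := by
  by_contra hn
  have hn' : pt (z.1, z.2) ∉ q.op := hn
  simp only [wt, List.map_cons, List.map_nil, List.sum_cons, List.sum_nil] at h
  rw [if_neg hn'] at h
  norm_num at h

/-- sum of the weights -/
def wsum (pts : List (ℕ × ℕ × ℕ)) : ℕ := (pts.map fun p => p.2.2).sum

theorem seen_nonneg (a b h : ℕ) (pts : List (ℕ × ℕ × ℕ)) (U V : ℝ) : 0 ≤ seen a b h pts U V := by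
  unfold seen
  apply List.sum_nonneg
  intro x hx
  obtain ⟨p, _, rfl⟩ := List.mem_map.1 hx
  split_ifs
  · exact Nat.cast_nonneg _
  · exact le_rfl

theorem seen_append (a b h : ℕ) (l m : List (ℕ × ℕ × ℕ)) (U V : ℝ) :
    seen a b h (l ++ m) U V = seen a b h l U V + seen a b h m U V := by
  unfold seen
  rw [List.map_append, List.sum_append]

theorem seen_cons (a b h : ℕ) (p : ℕ × ℕ × ℕ) (m : List (ℕ × ℕ × ℕ)) (U V : ℝ) :
    seen a b h (p :: m) U V = seen a b h [p] U V + seen a b h m U V := seen_append a b h [p] m U V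

theorem seen_perm (a b h : ℕ) {l m : List (ℕ × ℕ × ℕ)} (hp : l.Perm m) (U V : ℝ) :
    seen a b h l U V = seen a b h m U V := by
  unfold seen
  exact (hp.map _).sum_eq

theorem seen_sublist (a b h : ℕ) {l m : List (ℕ × ℕ × ℕ)} (hs : l.Sublist m) (U V : ℝ) :
    seen a b h l U V ≤ seen a b h m U V := by
  induction hs with
  | slnil => exact le_rfl
  | cons p _ ih => rw [seen_cons a b h p]; linarith [seen_nonneg a b h [p] U V]
  | @cons_cons l₁ l₂ p _ ih =>
    have e1 := seen_cons a b h p l₁ U V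
    have e2 := seen_cons a b h p l₂ U V
    linarith

theorem seen_inside {a b h x0 x1 y0 y1 ul uh vl vh : ℕ} {X Y : ℝ}
    (hX0 : (x0 : ℝ) ≤ X) (hX1 : X ≤ x1) (hY0 : (y0 : ℝ) ≤ Y) (hY1 : Y ≤ y1)
    (hul : (ul : ℝ) ≤ a * X + b * Y) (huh : a * X + b * Y ≤ uh)
    (hvl : (vl : ℝ) ≤ a * Y + b * (S0 - X)) (hvh : a * Y + b * (S0 - X) ≤ vh) :
    ∀ pts : List (ℕ × ℕ × ℕ),
    (∀ p ∈ pts, inside a b h x0 x1 y0 y1 ul uh vl vh p.1 p.2.1 = true) →
    seen a b h pts (a * X + b * Y) (a * Y + b * (S0 - X)) = wsum pts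
  | [], _ => by simp [seen, wsum]
  | p :: pts, hp => by
    rw [seen_cons, seen_inside hX0 hX1 hY0 hY1 hul huh hvl hvh pts
      (fun q hq => hp q (List.mem_cons_of_mem _ hq))]
    have h1 := inside_sound (hp p List.mem_cons_self) hX0 hX1 hY0 hY1 hul huh hvl hvh
    have h2 : seen a b h [p] (a * X + b * Y) (a * Y + b * (S0 - X)) = p.2.2 := by
      simp only [seen, List.map_cons, List.map_nil, List.sum_cons, List.sum_nil]
      rw [if_pos h1, add_zero]
    rw [h2]
    simp [wsum]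

/-- Splitting of the point list: the points of `sure` are seen from the whole domain and give a
constant, the points of `rest` are dropped, the sweep is only done for `act`. -/
theorem covers_split {a b h x0 x1 y0 y1 ul uh vl vh thr : ℕ}
    {pts sure act rest : List (ℕ × ℕ × ℕ)}
    (hperm : pts.Perm (sure ++ act ++ rest))
    (hsure : ∀ p ∈ sure, inside a b h x0 x1 y0 y1 ul uh vl vh p.1 p.2.1 = true)
    (hact : thr ≤ wsum sure ∨
      Covers a b h x0 x1 y0 y1 ul uh vl vh (thr - wsum sure) act) :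
    Covers a b h x0 x1 y0 y1 ul uh vl vh thr pts := by
  intro X Y hX0 hX1 hY0 hY1 hul huh hvl hvh
  rw [seen_perm a b h hperm, seen_append, seen_append,
    seen_inside hX0 hX1 hY0 hY1 hul huh hvl hvh sure hsure]
  have h1 := seen_nonneg a b h act (a * X + b * Y) (a * Y + b * (S0 - X))
  have h2 := seen_nonneg a b h rest (a * X + b * Y) (a * Y + b * (S0 - X))
  rcases hact with h3 | h3
  · have : (thr : ℝ) ≤ (wsum sure : ℝ) := by exact_mod_cast h3
    linarith
  · have h4 := h3 X Y hX0 hX1 hY0 hY1 hul huh hvl hvh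
    have h5 : (thr : ℝ) ≤ ((thr - wsum sure : ℕ) : ℝ) + wsum sure := by
      have : thr ≤ (thr - wsum sure) + wsum sure := by omega
      exact_mod_cast this
    linarith

end Sweep

end Pool.Agent.MP_abb58c_co
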