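import Pool.Agent.Lib.MP_abb58c_co.SweepGeom
import Pool.Agent.Lib.MP_abb58c_co.ZCheck

/-! MP_abb58c_co, SWEEP: from slabs to boxes; the counting lemma. -/

namespace Pool.Agent.MP_abb58c_co

namespace Sweep

/-- blocked points get the weight of the threshold -/
def withBlocked (mu : List (ℕ × ℕ × ℕ)) (A : List (ℕ × ℕ)) (thr : ℕ) : List (ℕ × ℕ × ℕ) :=
  A.map (fun p => (p.1, p.2, thr)) ++ mu

/-- rectangle for the centre, cut with the shrunk container -/
def rx0 (b : Box) (k k' : ℕ) : ℕ := max b.x0 (hm k k')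
/-- rectangle for the centre, cut with the shrunk container -/
def rx1 (b : Box) (k k' : ℕ) : ℕ := min b.x1 (S0 - hm k k')
/-- rectangle for the centre, cut with the shrunk container -/
def ry0 (b : Box) (k k' : ℕ) : ℕ := max b.y0 (hm k k')
/-- rectangle for the centre, cut with the shrunk container -/
def ry1 (b : Box) (k k' : ℕ) : ℕ := min b.y1 (S0 - hm k k')

/-- window for `U` from the contained points -/
def ulo (C : List (ℕ × ℕ)) (k k' : ℕ) : ℕ :=
  C.foldr (fun p r => max (uc (fa k k') (fb k k') p.1 p.2 - hout k k') r) 0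
/-- window for `U` from the contained points -/
def uhi (C : List (ℕ × ℕ)) (k k' : ℕ) : ℕ :=
  C.foldr (fun p r => min (uc (fa k k') (fb k k') p.1 p.2 + hout k k') r)
    ((fa k k' + fb k k') * S0)
/-- window for `V` from the contained points -/
def vlo (C : List (ℕ × ℕ)) (k k' : ℕ) : ℕ :=
  C.foldr (fun p r => max (vc (fa k k') (fb k k') p.1 p.2 - hout k k') r) 0
/-- window for `V` from the contained points -/
def vhi (C : List (ℕ × ℕ)) (k k' : ℕ) : ℕ :=
  C.foldr (fun p r => min (vc (fa k k') (fb k k') p.1 p.2 + hout k k') r)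
    ((fa k k' + fb k k') * S0)

/-- the arithmetic statement for one slab of one box of a label -/
def SlabCov (mu : List (ℕ × ℕ × ℕ)) (C A : List (ℕ × ℕ)) (b : Box) (thr k k' : ℕ) : Prop :=
  Covers (fa k k') (fb k k') (hin k k') (rx0 b k k') (rx1 b k k') (ry0 b k k') (ry1 b k k')
    (ulo C k k') (uhi C k k') (vlo C k k') (vhi C k k') thr (withBlocked mu A thr)

/-- every unit square in the container, in the box, containing `C` and avoiding `A` has weight at
least `thr` -/
def BoxSound (mu : List (ℕ × ℕ × ℕ)) (C A : List (ℕ × ℕ)) (b : Box) (thr : ℕ) : Prop :=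
  ∀ q : Sq, q.c ^ 2 + q.s ^ 2 = 1 → InCont q → InBox b q → (∀ p ∈ C, pt p ∈ q.op) →
    (∀ p ∈ A, pt p ∉ q.op) → (thr : ℝ) ≤ wt mu q

/-- the coordinates of all points are in the container -/
def PtsIn (mu : List (ℕ × ℕ × ℕ)) (C A : List (ℕ × ℕ)) : Prop :=
  (∀ p ∈ mu, p.1 ≤ S0) ∧ (∀ p ∈ C, p.1 ≤ S0) ∧ (∀ p ∈ A, p.1 ≤ S0)

/-- `P` holds for all slabs of the chain `k, ks...` -/
def Chain (P : ℕ → ℕ → Prop) : ℕ → List ℕ → Prop
  | _, [] => True
  | k, k' :: t => P k k' ∧ Chain P k' t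

theorem wt_withBlocked (mu : List (ℕ × ℕ × ℕ)) (A : List (ℕ × ℕ)) (thr : ℕ) (q : Sq)
    (hA : ∀ p ∈ A, pt p ∉ q.op) : wt (withBlocked mu A thr) q = wt mu q := by
  classical
  rw [wt, wt, withBlocked, List.map_append, List.sum_append]
  have : (List.map (fun p : ℕ × ℕ × ℕ => if pt (p.1, p.2.1) ∈ q.op then (p.2.2 : ℝ) else 0)
      (List.map (fun p : ℕ × ℕ => (p.1, p.2, thr)) A)).sum = 0 := by
    apply List.sum_eq_zero
    intro x hx
    simp only [List.map_map, List.mem_map, Function.comp_apply] at hx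
    obtain ⟨p, hp, rfl⟩ := hx
    rw [if_neg (hA p hp)]
  rw [this, zero_add]

theorem lo_le (C : List (ℕ × ℕ)) (f : ℕ × ℕ → ℕ) (h : ℕ) (U : ℝ) (hU : 0 ≤ U)
    (H : ∀ p ∈ C, |(f p : ℝ) - U| < h) :
    ((C.foldr (fun p r => max (f p - h) r) 0 : ℕ) : ℝ) ≤ U := by
  induction C with
  | nil => simpa using hU
  | cons p C ih =>
    rw [List.foldr_cons]
    push_cast
    apply max_le
    · have h1 := abs_lt.1 (H p (by simp))
      rcases le_total (f p) h with h2 | h2
      · rw [Nat.sub_eq_zero_of_le h2]; simpa using hU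
      · rw [Nat.cast_sub h2]; linarith
    · exact ih fun p hp => H p (by simp [hp])

theorem le_hi (C : List (ℕ × ℕ)) (f : ℕ × ℕ → ℕ) (h M : ℕ) (U : ℝ) (hU : U ≤ M)
    (H : ∀ p ∈ C, |(f p : ℝ) - U| < h) :
    U ≤ ((C.foldr (fun p r => min (f p + h) r) M : ℕ) : ℝ) := by
  induction C with
  | nil => simpa using hU
  | cons p C ih =>
    rw [List.foldr_cons]
    push_cast
    apply le_min
    · have h1 := abs_lt.1 (H p (by simp))
      linarith
    · exact ih fun p hp => H p (by simp [hp])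

/-- one slab of a box -/
theorem slab_sound {mu : List (ℕ × ℕ × ℕ)} {C A : List (ℕ × ℕ)} {b : Box} {thr k k' : ℕ}
    (hin : PtsIn mu C A) (hok : slabOk k k' = true) (hcov : SlabCov mu C A b thr k k')
    (q : Sq) (hu : q.c ^ 2 + q.s ^ 2 = 1) (hcont : InCont q) (hbox : InBox b q)
    (hcone : InCone k k' q) (hC : ∀ p ∈ C, pt p ∈ q.op) (hA : ∀ p ∈ A, pt p ∉ q.op) :
    (thr : ℝ) ≤ wt mu q := by
  rw [← wt_withBlocked mu A thr q hA]
  have hDD : ((DD : ℕ) : ℝ) = 100000 := by norm_num [DD]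
  have hS0 : ((S0 : ℕ) : ℝ) = 387710 := by norm_num [S0]
  refine specSlab k k' _ _ _ _ _ _ _ _ thr _ C q hok hcov ?_ hin.2.1 hu hcone hcont ?_ ?_ hC
  · intro p hp
    rw [withBlocked, List.mem_append] at hp
    rcases hp with hp | hp
    · obtain ⟨r, hr, rfl⟩ := List.mem_map.1 hp
      exact hin.2.2 r hr
    · exact hin.1 p hp
  · intro h1 h2 h3 h4
    obtain ⟨b1, b2, b3, b4, -⟩ := hbox
    rw [hDD] at *
    rw [div_le_iff₀ (by norm_num)] at b1 b3
    rw [le_div_iff₀ (by norm_num)] at b2 b4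
    have hm' : hm k k' ≤ S0 := by
      have : (hm k k' : ℝ) ≤ (S0 : ℝ) := by
        have h5 : (0:ℝ) ≤ hm k k' := Nat.cast_nonneg _
        linarith
      exact_mod_cast this
    simp only [rx0, rx1, ry0, ry1]
    push_cast [Nat.cast_sub hm']
    refine ⟨max_le (by linarith) h1, le_min (by linarith) h2, max_le (by linarith) h3,
      le_min (by linarith) h4⟩
  · intro U V hU hV hp hUe hVe
    obtain ⟨hcl, hcr, hcb, hct⟩ := hcont
    have hh : 0 ≤ q.h := by rw [Sq.h]; positivity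
    have hx0 : 0 ≤ (DD : ℝ) * q.x := by rw [hDD]; linarith
    have hy0 : 0 ≤ (DD : ℝ) * q.y := by rw [hDD]; linarith
    have hx1 : (DD : ℝ) * q.x ≤ S0 := by rw [hDD, hS0] at *; linarith
    have hy1 : (DD : ℝ) * q.y ≤ S0 := by rw [hDD, hS0] at *; linarith
    have ha : (0:ℝ) ≤ fa k k' := Nat.cast_nonneg _
    have hb : (0:ℝ) ≤ fb k k' := Nat.cast_nonneg _
    refine ⟨lo_le C _ _ U hU fun p hpC => (hp p hpC).1, le_hi C _ _ _ U ?_ fun p hpC => (hp p hpC).1,
      lo_le C _ _ V hV fun p hpC => (hp p hpC).2, le_hi C _ _ _ V ?_ fun p hpC => (hp p hpC).2⟩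
    · rw [hUe]; push_cast
      have h1 := mul_le_mul_of_nonneg_left hx1 ha
      have h2 := mul_le_mul_of_nonneg_left hy1 hb
      rw [hDD, hS0] at h1 h2
      linarith
    · rw [hVe]; push_cast
      have h1 := mul_le_mul_of_nonneg_left hy1 ha
      have h2 := mul_nonneg hb hx0
      rw [hDD, hS0] at h1
      rw [hDD] at h2
      linarith

/-- all slabs of a box -/
theorem box_sound {mu : List (ℕ × ℕ × ℕ)} {C A : List (ℕ × ℕ)} {b : Box} {thr : ℕ}
    (hin : PtsIn mu C A) (ks : List ℕ) (hne : ks ≠ []) (hlast : ks.getLast hne = b.k1)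
    (h : Chain (fun k k' => slabOk k k' = true ∧ SlabCov mu C A b thr k k') b.k0 ks) :
    BoxSound mu C A b thr := by
  intro q hu hcont hbox hC hA
  have main : ∀ (ks : List ℕ) (hne : ks ≠ []) (k : ℕ), ks.getLast hne = b.k1 →
      Chain (fun k k' => slabOk k k' = true ∧ SlabCov mu C A b thr k k') k ks →
      0 ≤ ((dir k).1 : ℝ) * q.s - ((dir k).2 : ℝ) * q.c → (thr : ℝ) ≤ wt mu q := by
    intro ks
    induction ks with
    | nil => intro hne; exact absurd rfl hne
    | cons k' t ih =>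
      intro hne k hl hch hk
      obtain ⟨⟨hok, hcov⟩, hch'⟩ := hch
      rcases le_total 0 (((dir k').1 : ℝ) * q.s - ((dir k').2 : ℝ) * q.c) with h1 | h1
      · rcases List.eq_nil_or_concat t with ht | ht
        · subst ht
          rw [List.getLast_singleton] at hl
          subst hl
          exact slab_sound hin hok hcov q hu hcont hbox
            ⟨hbox.2.2.2.2.1, hbox.2.2.2.2.2.1, hk, hbox.2.2.2.2.2.2.2⟩ hC hA
        · have htne : t ≠ [] := by
            obtain ⟨L, a, rfl⟩ := ht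
            simp
          refine ih htne k' ?_ hch' h1
          rw [← hl, List.getLast_cons htne]
      · exact slab_sound hin hok hcov q hu hcont hbox
          ⟨hbox.2.2.2.2.1, hbox.2.2.2.2.2.1, hk, by linarith⟩ hC hA
  exact main ks hne b.k0 hlast h hbox.2.2.2.2.2.2.1

/-- counting: disjoint squares share the total weight -/
theorem sum_wt_le {ι : Type*} [Fintype ι] (mu : List (ℕ × ℕ × ℕ)) (q : ι → Sq)
    (hd : ∀ i j, i ≠ j → Disjoint (q i).op (q j).op) :
    ∑ i, wt mu (q i) ≤ ((mu.map fun p => p.2.2).sum : ℕ) := by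
  classical
  induction mu with
  | nil => simp [wt]
  | cons p mu ih =>
    have h1 : ∀ i, wt (p :: mu) (q i) =
        (if pt (p.1, p.2.1) ∈ (q i).op then (p.2.2 : ℝ) else 0) + wt mu (q i) := by
      intro i
      rw [wt, wt, List.map_cons, List.sum_cons]
    simp only [h1]
    rw [Finset.sum_add_distrib, List.map_cons, List.sum_cons]
    push_cast
    refine add_le_add ?_ (by simpa using ih)
    by_cases hex : ∃ i, pt (p.1, p.2.1) ∈ (q i).op
    · obtain ⟨i, hi⟩ := hex
      rw [Finset.sum_eq_single i]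
      · rw [if_pos hi]
      · intro j _ hj
        rw [if_neg]
        intro hj'
        exact Set.disjoint_left.1 (hd i j (Ne.symm hj)) hi hj'
      · intro h; exact absurd (Finset.mem_univ i) h
    · push Not at hex
      rw [Finset.sum_eq_zero]
      · exact Nat.cast_nonneg _
      · intro i _
        rw [if_neg (hex i)]

/-- permutations of the point list do not matter -/
theorem covers_perm {a b h x0 x1 y0 y1 ul uh vl vh thr : ℕ} {pts pts' : List (ℕ × ℕ × ℕ)}
    (hp : pts.Perm pts') (hc : Covers a b h x0 x1 y0 y1 ul uh vl vh thr pts) :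
    Covers a b h x0 x1 y0 y1 ul uh vl vh thr pts' := by
  intro X Y h1 h2 h3 h4 h5 h6 h7 h8
  rw [← seen_perm a b h hp]
  exact hc X Y h1 h2 h3 h4 h5 h6 h7 h8

/-- points may be dropped -/
theorem covers_sublist {a b h x0 x1 y0 y1 ul uh vl vh thr : ℕ} {pts pts' : List (ℕ × ℕ × ℕ)}
    (hp : pts.Sublist pts') (hc : Covers a b h x0 x1 y0 y1 ul uh vl vh thr pts) :
    Covers a b h x0 x1 y0 y1 ul uh vl vh thr pts' := by
  intro X Y h1 h2 h3 h4 h5 h6 h7 h8
  exact (hc X Y h1 h2 h3 h4 h5 h6 h7 h8).trans (seen_sublist a b h hp _ _)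

/-- all squares of a label (in all its boxes) contain the point `z` -/
def ZSound (C A : List (ℕ × ℕ)) (B : List Box) (z : ℕ × ℕ) : Prop :=
  ∀ q : Sq, q.c ^ 2 + q.s ^ 2 = 1 → InCont q → (∃ b ∈ B, InBox b q) → (∀ p ∈ C, pt p ∈ q.op) →
    (∀ p ∈ A, pt p ∉ q.op) → pt z ∈ q.op

theorem zsound_of_boxes {C A : List (ℕ × ℕ)} {B : List Box} {z : ℕ × ℕ}
    (h : ∀ b ∈ B, BoxSound [(z.1, z.2, 1)] C A b 1) : ZSound C A B z := by
  rintro q hu hcont ⟨b, hb, hbox⟩ hC hA
  have := h b hb q hu hcont hbox hC hA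
  exact pt_mem_of_wt (by exact_mod_cast this)

theorem Pack.inCont {q : Fin 11 → Sq} (h : Pack ((S0 : ℝ) / DD) q) (l : Fin 11) :
    InCont (q l) := ⟨h.left l, h.right l, h.bot l, h.top l⟩

/-- Soundness of a measure certificate. `zs l` are points contained in every square of label `l`
(e.g. the points of `C_l` and points found by the Z-check); `blk l` are the blocked points used for
label `l`. -/
theorem refuted_of_measure (N : Node) (mu : List (ℕ × ℕ × ℕ)) (m : Fin 11 → ℕ)
    (zs blk : Fin 11 → List (ℕ × ℕ))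
    (hz : ∀ (l : Fin 11) (n : Lbl), N[(l : ℕ)]? = some n → ∀ z ∈ zs l, ZSound n.C n.A n.B z)
    (hblk : ∀ (l : Fin 11) (n : Lbl), N[(l : ℕ)]? = some n → ∀ p ∈ blk l,
      p ∈ n.A ∨ ∃ j : Fin 11, j ≠ l ∧ ((∃ n' : Lbl, N[(j : ℕ)]? = some n' ∧ p ∈ n'.C) ∨ p ∈ zs j))
    (hbox : ∀ (l : Fin 11) (n : Lbl), N[(l : ℕ)]? = some n → ∀ b ∈ n.B, BoxSound mu n.C (blk l) b (m l))
    (hsum : (mu.map fun p => p.2.2).sum < ∑ l, m l) : Refuted N := by
  intro q hq hN
  have hlab : ∀ l : Fin 11, (m l : ℝ) ≤ wt mu (q l) := by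
    intro l
    obtain ⟨n, hn, hC, hA, b, hb, hbx⟩ := hN l
    refine hbox l n hn b hb (q l) (hq.unit l) (Pack.inCont hq l) hbx hC ?_
    intro p hp
    rcases hblk l n hn p hp with h1 | ⟨j, hj, h2⟩
    · exact hA p h1
    · have hmem : pt p ∈ (q j).op := by
        rcases h2 with ⟨n', hn', hp'⟩ | h2
        · obtain ⟨n'', hn'', hC'', -⟩ := hN j
          rw [hn'] at hn''
          cases hn''
          exact hC'' p hp'
        · obtain ⟨n'', hn'', hC'', hA'', hb''⟩ := hN j
          exact hz j n'' hn'' p h2 (q j) (hq.unit j) (Pack.inCont hq j) hb'' hC'' hA''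
      exact fun hmem' => Set.disjoint_left.1 (hq.disj j l hj) hmem hmem'
  have h1 := sum_wt_le mu q hq.disj
  have h2 : ((∑ l, m l : ℕ) : ℝ) ≤ ∑ l, wt mu (q l) := by
    push_cast
    exact Finset.sum_le_sum fun l _ => hlab l
  have h3 : ((∑ l, m l : ℕ) : ℝ) ≤ ((mu.map fun p => p.2.2).sum : ℕ) := h2.trans h1
  have h4 : (∑ l, m l : ℕ) ≤ (mu.map fun p => p.2.2).sum := by exact_mod_cast h3
  omega

end Sweep

end Pool.Agent.MP_abb58c_co
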