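import Pool.Agent.Lib.MP_abb58c_co.NodeC
import Pool.Agent.Lib.MP_abb58c_co.SweepBox

/-! MP_abb58c_co, TREE: the certificate tree over nodes, its checker and its soundness.

The checker is parametric in the measure format `μ`, the auxiliary data `σ` of the slab checker and
the two Boolean procedures `sw` (sweep) and `zc` (Z-check), see `Ops`. -/

namespace Pool.Agent.MP_abb58c_co

open Sweep Case

/-! ### The certificate -/

/-- a binary subdivision of a box into pieces which are kept or dropped (`ax = 0,1,2`: cut at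
`x = v`, `y = v`, `direction = dir v`) -/
inductive Cut (σ : Type) where
  | keep (a : σ)
  | drop (a : σ)
  | cut (ax v : ℕ) (c1 c2 : Cut σ)

/-- what a `tight` step does with one label: weight at least `m` on the kept pieces, at least `m'`
on the dropped pieces, `blk` are the avoided points used, one `Cut` for every box of the label.
No `Cut` at all (`cuts = []`) means: `m = 0`, or `m` follows from the fact number `m'`. -/
structure Task (σ : Type) where
  m : ℕ
  m' : ℕ
  blk : List (ℕ × ℕ)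
  cuts : List (Cut σ)

/-- a fact which may be used by several labels: every square in one of the boxes has weight at
least `thr` for the measure together with the extra weighted points `E` -/
structure Fact (σ : Type) where
  E : List (ℕ × ℕ × ℕ)
  thr : ℕ
  bs : List (Box × σ)

/-- the certificate tree -/
inductive Tree (μ σ : Type) where
  /-- some label has no box left -/
  | done
  /-- the node is contained in the node number `k` of the table -/
  | cite (k : ℕ)
  /-- the node is contained in the node `N` -/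
  | weaken (N : Node) (t : Tree μ σ)
  /-- a measure, facts about it, and the tasks of the labels: the dropped pieces are impossible -/
  | tight (m : μ) (fs : List (Fact σ)) (ts : List (Task σ)) (t : Tree μ σ)
  /-- the point `z` lies in every square of label `l` -/
  | addZ (l : ℕ) (z : ℕ × ℕ) (blk : List (ℕ × ℕ)) (a : σ) (t : Tree μ σ)
  /-- the boxes of label `l` are cut -/
  | split (l ax v : ℕ) (t1 t2 : Tree μ σ)
  /-- the point `p` is in the square of label `l` (`t1`) or not (`t2`) -/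
  | splitPt (l : ℕ) (p : ℕ × ℕ) (t1 t2 : Tree μ σ)
  /-- rotation `(x, y) -> (S0 - y, x)` of the node -/
  | rot (t : Tree μ σ)
  /-- reflection `(x, y) -> (x, S0 - y)` of the node -/
  | refl (t : Tree μ σ)
  /-- label `i` of the new node is label `e[i]` of the old one -/
  | relabel (e : List ℕ) (t : Tree μ σ)

/-- the procedures used by the tree checker -/
structure Ops (μ σ : Type) where
  /-- the weighted points `(X, Y, w)` of a measure -/
  dec : μ → List (ℕ × ℕ × ℕ)
  /-- (an upper bound for) the total mass -/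
  tot : μ → ℕ
  /-- sweep of a list of boxes `(b, thr, a)` for the measure `m` with the extra weighted points
  `E`, contained points `C` and avoided points `A`: `sw m E C A ts` -/
  sw : μ → List (ℕ × ℕ × ℕ) → List (ℕ × ℕ) → List (ℕ × ℕ) → List (Box × ℕ × σ) → Bool
  /-- Z-check: `zc z C A B a` -/
  zc : ℕ × ℕ → List (ℕ × ℕ) → List (ℕ × ℕ) → List Box → σ → Bool

structure Ops.Sound {μ σ : Type} (o : Ops μ σ) : Prop where
  tot : ∀ m, ((o.dec m).map fun p => p.2.2).sum ≤ o.tot m
  sw : ∀ m E C A ts, o.sw m E C A ts = true → ∀ t ∈ ts, BoxSound (o.dec m ++ E) C A t.1 t.2.1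
  zc : ∀ z C A B a, o.zc z C A B a = true → ZSound C A B z

/-! ### Boxes -/

/-- the part of the box with coordinate at most `v` -/
def Box.lo (b : Box) (ax v : ℕ) : Box :=
  match ax with
  | 0 => ⟨b.x0, v, b.y0, b.y1, b.k0, b.k1⟩
  | 1 => ⟨b.x0, b.x1, b.y0, v, b.k0, b.k1⟩
  | _ => ⟨b.x0, b.x1, b.y0, b.y1, b.k0, v⟩

/-- the part of the box with coordinate at least `v` -/
def Box.hi (b : Box) (ax v : ℕ) : Box :=
  match ax with
  | 0 => ⟨v, b.x1, b.y0, b.y1, b.k0, b.k1⟩
  | 1 => ⟨b.x0, b.x1, v, b.y1, b.k0, b.k1⟩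
  | _ => ⟨b.x0, b.x1, b.y0, b.y1, v, b.k1⟩

/-- lower coordinate -/
def Box.c0 (b : Box) (ax : ℕ) : ℕ :=
  match ax with
  | 0 => b.x0
  | 1 => b.y0
  | _ => b.k0

/-- upper coordinate -/
def Box.c1 (b : Box) (ax : ℕ) : ℕ :=
  match ax with
  | 0 => b.x1
  | 1 => b.y1
  | _ => b.k1

theorem Box.lo_or_hi {b : Box} {q : Sq} (h : InBox b q) (ax v : ℕ) :
    InBox (b.lo ax v) q ∨ InBox (b.hi ax v) q := by
  obtain ⟨h1, h2, h3, h4, h5, h6, h7, h8⟩ := h
  match ax with
  | 0 =>
    rcases le_total q.x ((v : ℝ) / DD) with h | h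
    · exact Or.inl ⟨h1, h, h3, h4, h5, h6, h7, h8⟩
    · exact Or.inr ⟨h, h2, h3, h4, h5, h6, h7, h8⟩
  | 1 =>
    rcases le_total q.y ((v : ℝ) / DD) with h | h
    · exact Or.inl ⟨h1, h2, h3, h, h5, h6, h7, h8⟩
    · exact Or.inr ⟨h1, h2, h, h4, h5, h6, h7, h8⟩
  | (n + 2) =>
    rcases le_total (((dir v).1 : ℝ) * q.s - ((dir v).2 : ℝ) * q.c) 0 with h | h
    · exact Or.inl ⟨h1, h2, h3, h4, h5, h6, h7, by
        change 0 ≤ ((dir v).2 : ℝ) * q.c - ((dir v).1 : ℝ) * q.s
        linarith⟩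
    · exact Or.inr ⟨h1, h2, h3, h4, h5, h6, h, h8⟩

/-- the list of boxes for the lower child of a split -/
def splitLo (ax v : ℕ) : List Box → List Box
  | [] => []
  | b :: B => cond (Nat.ble (b.c1 ax) v) (b :: splitLo ax v B)
      (cond (Nat.ble v (b.c0 ax)) (splitLo ax v B) (b.lo ax v :: splitLo ax v B))

/-- the list of boxes for the upper child of a split -/
def splitHi (ax v : ℕ) : List Box → List Box
  | [] => []
  | b :: B => cond (Nat.ble (b.c1 ax) v) (splitHi ax v B)
      (cond (Nat.ble v (b.c0 ax)) (b :: splitHi ax v B) (b.hi ax v :: splitHi ax v B))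

theorem split_sound (ax v : ℕ) {B : List Box} {q : Sq} (h : ∃ b ∈ B, InBox b q) :
    (∃ b ∈ splitLo ax v B, InBox b q) ∨ ∃ b ∈ splitHi ax v B, InBox b q := by
  induction B with
  | nil => simp at h
  | cons b B ih =>
    obtain ⟨b', hb', hq⟩ := h
    simp only [splitLo, splitHi]
    rcases List.mem_cons.1 hb' with rfl | hb'
    · cases Nat.ble (b'.c1 ax) v
      · cases Nat.ble v (b'.c0 ax)
        · rcases Box.lo_or_hi hq ax v with h | h
          · exact Or.inl ⟨_, List.mem_cons_self, h⟩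
          · exact Or.inr ⟨_, List.mem_cons_self, h⟩
        · exact Or.inr ⟨_, List.mem_cons_self, hq⟩
      · exact Or.inl ⟨_, List.mem_cons_self, hq⟩
    · have hmono : ∀ (c c' : Bool) (L X Y : List Box), (∃ b ∈ L, InBox b q) →
          (∀ x ∈ L, x ∈ X) → (∀ x ∈ L, x ∈ Y) → ∃ b ∈ cond c X (cond c' L Y), InBox b q := by
        intro c c' L X Y h hX hY
        obtain ⟨b, hb, hbq⟩ := h
        cases c
        · cases c'
          · exact ⟨b, hY b hb, hbq⟩
          · exact ⟨b, hb, hbq⟩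
        · exact ⟨b, hX b hb, hbq⟩
      have hmono' : ∀ (c c' : Bool) (L X Y : List Box), (∃ b ∈ L, InBox b q) →
          (∀ x ∈ L, x ∈ X) → (∀ x ∈ L, x ∈ Y) → ∃ b ∈ cond c L (cond c' X Y), InBox b q := by
        intro c c' L X Y h hX hY
        obtain ⟨b, hb, hbq⟩ := h
        cases c
        · cases c'
          · exact ⟨b, hY b hb, hbq⟩
          · exact ⟨b, hX b hb, hbq⟩
        · exact ⟨b, hb, hbq⟩
      rcases ih ⟨b', hb', hq⟩ with h | h
      · exact Or.inl (hmono _ _ _ _ _ h (fun x hx => List.mem_cons_of_mem _ hx)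
          (fun x hx => List.mem_cons_of_mem _ hx))
      · exact Or.inr (hmono' _ _ _ _ _ h (fun x hx => List.mem_cons_of_mem _ hx)
          (fun x hx => List.mem_cons_of_mem _ hx))

/-! ### Pieces of a `Cut` -/

namespace Cut

variable {σ : Type}

/-- the boxes to be swept, in front of `acc` -/
def tasks (m m' : ℕ) : Cut σ → Box → List (Box × ℕ × σ) → List (Box × ℕ × σ)
  | keep a, b, acc => (b, m, a) :: acc
  | drop a, b, acc => (b, m', a) :: acc
  | cut ax v c1 c2, b, acc => tasks m m' c1 (b.lo ax v) (tasks m m' c2 (b.hi ax v) acc)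

/-- the kept pieces, in front of `acc` -/
def kept : Cut σ → Box → List Box → List Box
  | keep _, b, acc => b :: acc
  | drop _, _, acc => acc
  | cut ax v c1 c2, b, acc => kept c1 (b.lo ax v) (kept c2 (b.hi ax v) acc)

/-- is there a dropped piece? -/
def hasDrop : Cut σ → Bool
  | keep _ => false
  | drop _ => true
  | cut _ _ c1 c2 => c1.hasDrop || c2.hasDrop

theorem mem_tasks_acc {m m' : ℕ} (c : Cut σ) (b : Box) (acc : List (Box × ℕ × σ)) :
    ∀ t ∈ acc, t ∈ tasks m m' c b acc := by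
  induction c generalizing b acc with
  | keep a => intro t ht; exact List.mem_cons_of_mem _ ht
  | drop a => intro t ht; exact List.mem_cons_of_mem _ ht
  | cut ax v c1 c2 ih1 ih2 => intro t ht; exact ih1 _ _ t (ih2 _ _ t ht)

theorem mem_kept_acc (c : Cut σ) (b : Box) (acc : List Box) :
    ∀ t ∈ acc, t ∈ kept c b acc := by
  induction c generalizing b acc with
  | keep a => intro t ht; exact List.mem_cons_of_mem _ ht
  | drop a => intro t ht; exact ht
  | cut ax v c1 c2 ih1 ih2 => intro t ht; exact ih1 _ _ t (ih2 _ _ t ht)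

theorem piece {m m' : ℕ} (c : Cut σ) {b : Box} {q : Sq} (h : InBox b q)
    (acc : List (Box × ℕ × σ)) (acc' : List Box) :
    ∃ t ∈ tasks m m' c b acc, InBox t.1 q ∧
      ((t.2.1 = m ∧ t.1 ∈ kept c b acc') ∨ (t.2.1 = m' ∧ c.hasDrop = true)) := by
  induction c generalizing b acc acc' with
  | keep a =>
    exact ⟨_, List.mem_cons_self, h, Or.inl ⟨rfl, List.mem_cons_self⟩⟩
  | drop a =>
    exact ⟨_, List.mem_cons_self, h, Or.inr ⟨rfl, rfl⟩⟩
  | cut ax v c1 c2 ih1 ih2 =>
    rcases Box.lo_or_hi h ax v with h1 | h1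
    · obtain ⟨t, ht, hq, h2⟩ := ih1 h1 (tasks m m' c2 (b.hi ax v) acc)
        (kept c2 (b.hi ax v) acc')
      refine ⟨t, ht, hq, ?_⟩
      rcases h2 with ⟨h2, h3⟩ | ⟨h2, h3⟩
      · exact Or.inl ⟨h2, h3⟩
      · exact Or.inr ⟨h2, by simp [hasDrop, h3]⟩
    · obtain ⟨t, ht, hq, h2⟩ := ih2 h1 acc acc'
      refine ⟨t, mem_tasks_acc c1 _ _ t ht, hq, ?_⟩
      rcases h2 with ⟨h2, h3⟩ | ⟨h2, h3⟩
      · exact Or.inl ⟨h2, mem_kept_acc c1 _ _ _ h3⟩
      · exact Or.inr ⟨h2, by simp [hasDrop, h3]⟩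

/-- all boxes of a label -/
def tasksAll (m m' : ℕ) : List (Cut σ) → List Box → List (Box × ℕ × σ)
  | c :: cs, b :: B => tasks m m' c b (tasksAll m m' cs B)
  | _, _ => []

/-- all boxes of a label -/
def keptAll : List (Cut σ) → List Box → List Box
  | c :: cs, b :: B => kept c b (keptAll cs B)
  | _, _ => []

/-- is there a dropped piece? -/
def anyDrop : List (Cut σ) → Bool
  | [] => false
  | c :: cs => c.hasDrop || anyDrop cs

/-- same length -/
def sameLen {α β : Type} : List α → List β → Bool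
  | [], [] => true
  | _ :: l, _ :: l' => sameLen l l'
  | _, _ => false

theorem pieceAll {m m' : ℕ} {q : Sq} : ∀ (cs : List (Cut σ)) (B : List Box),
    sameLen cs B = true → (∃ b ∈ B, InBox b q) →
    ∃ t ∈ tasksAll m m' cs B, InBox t.1 q ∧
      ((t.2.1 = m ∧ t.1 ∈ keptAll cs B) ∨ (t.2.1 = m' ∧ anyDrop cs = true)) := by
  intro cs
  induction cs with
  | nil =>
    intro B hl h
    cases B with
    | nil => simp at h
    | cons b B => simp [sameLen] at hl
  | cons c cs ih =>
    intro B hl h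
    cases B with
    | nil => simp at h
    | cons b B =>
      obtain ⟨b', hb', hq⟩ := h
      rcases List.mem_cons.1 hb' with rfl | hb'
      · obtain ⟨t, ht, h1, h2⟩ := piece (m := m) (m' := m') c hq (tasksAll m m' cs B)
          (keptAll cs B)
        refine ⟨t, ht, h1, ?_⟩
        rcases h2 with ⟨h2, h3⟩ | ⟨h2, h3⟩
        · exact Or.inl ⟨h2, h3⟩
        · exact Or.inr ⟨h2, by simp [anyDrop, h3]⟩
      · obtain ⟨t, ht, h1, h2⟩ := ih B hl ⟨b', hb', hq⟩
        refine ⟨t, mem_tasks_acc c _ _ t ht, h1, ?_⟩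
        rcases h2 with ⟨h2, h3⟩ | ⟨h2, h3⟩
        · exact Or.inl ⟨h2, mem_kept_acc c _ _ _ h3⟩
        · exact Or.inr ⟨h2, by simp [anyDrop, h3]⟩

end Cut

/-! ### Points -/

/-- membership of an integer point in a list -/
def memP (p : ℕ × ℕ) : List (ℕ × ℕ) → Bool
  | [] => false
  | r :: L => (Nat.beq r.1 p.1 && Nat.beq r.2 p.2) || memP p L

theorem memP_iff {p : ℕ × ℕ} {L : List (ℕ × ℕ)} (h : memP p L = true) : p ∈ L := by
  induction L with
  | nil => simp [memP] at h
  | cons r L ih =>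
    simp only [memP, Bool.or_eq_true, Bool.and_eq_true, Nat.beq_eq] at h
    rcases h with ⟨h1, h2⟩ | h
    · rw [show p = r from Prod.ext h1.symm h2.symm]
      exact List.mem_cons_self
    · exact List.mem_cons_of_mem _ (ih h)

/-- the point `p` is in `C_j` for some label `j ≠ l` (labels counted from `j`) -/
def inC (l : ℕ) (p : ℕ × ℕ) : ℕ → Node → Bool
  | _, [] => false
  | j, n :: N => (!Nat.beq j l && memP p n.C) || inC l p (j + 1) N

/-- the point `p` is a known point of a label `≠ l` -/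
def inZ (l : ℕ) (p : ℕ × ℕ) : List (ℕ × ℕ × ℕ) → Bool
  | [] => false
  | z :: zs => (Nat.beq z.1 p.1 && Nat.beq z.2.1 p.2 && !Nat.beq z.2.2 l && Nat.blt z.2.2 11) ||
      inZ l p zs

/-- the point `p` is a known point of the label `l` -/
def inZl (l : ℕ) (p : ℕ × ℕ) : List (ℕ × ℕ × ℕ) → Bool
  | [] => false
  | z :: zs => (Nat.beq z.1 p.1 && Nat.beq z.2.1 p.2 && Nat.beq z.2.2 l) || inZl l p zs

/-- known points: `(X, Y, l)` lies in the square of label `l` -/
def Zs (zs : List (ℕ × ℕ × ℕ)) (q : Fin 11 → Sq) : Prop :=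
  ∀ z ∈ zs, ∀ l : Fin 11, (l : ℕ) = z.2.2 → pt (z.1, z.2.1) ∈ (q l).op

theorem inC_iff {l : ℕ} {p : ℕ × ℕ} {N : Node} : ∀ {j : ℕ}, inC l p j N = true →
    ∃ i n, N[i]? = some n ∧ j + i ≠ l ∧ p ∈ n.C := by
  induction N with
  | nil => intro j h; simp [inC] at h
  | cons n N ih =>
    intro j h
    rw [inC, Bool.or_eq_true, Bool.and_eq_true] at h
    rcases h with ⟨h1, h2⟩ | h
    · refine ⟨0, n, rfl, ?_, memP_iff h2⟩
      intro h3
      rw [Bool.not_eq_true', ← Bool.not_eq_true, Nat.beq_eq] at h1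
      exact h1 (by omega)
    · obtain ⟨i, n', h1, h2, h3⟩ := ih h
      exact ⟨i + 1, n', by simpa using h1, by omega, h3⟩

theorem inZ_iff {l : ℕ} {p : ℕ × ℕ} {zs : List (ℕ × ℕ × ℕ)} (h : inZ l p zs = true) :
    ∃ z ∈ zs, p = (z.1, z.2.1) ∧ z.2.2 ≠ l ∧ z.2.2 < 11 := by
  induction zs with
  | nil => simp [inZ] at h
  | cons z zs ih =>
    rw [inZ, Bool.or_eq_true] at h
    rcases h with h | h
    · rw [Bool.and_eq_true, Bool.and_eq_true, Bool.and_eq_true, Nat.beq_eq, Nat.beq_eq,
        Bool.not_eq_true', ← Bool.not_eq_true, Nat.beq_eq, Nat.blt_eq] at h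
      obtain ⟨⟨⟨h1, h2⟩, h3⟩, h4⟩ := h
      exact ⟨z, List.mem_cons_self, Prod.ext h1.symm h2.symm, h3, h4⟩
    · obtain ⟨z', h1, h2⟩ := ih h
      exact ⟨z', List.mem_cons_of_mem _ h1, h2⟩

theorem inZl_iff {l : ℕ} {p : ℕ × ℕ} {zs : List (ℕ × ℕ × ℕ)} (h : inZl l p zs = true) :
    ∃ z ∈ zs, p = (z.1, z.2.1) ∧ z.2.2 = l := by
  induction zs with
  | nil => simp [inZl] at h
  | cons z zs ih =>
    rw [inZl, Bool.or_eq_true] at h
    rcases h with h | h
    · rw [Bool.and_eq_true, Bool.and_eq_true, Nat.beq_eq, Nat.beq_eq, Nat.beq_eq] at h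
      obtain ⟨⟨h1, h2⟩, h3⟩ := h
      exact ⟨z, List.mem_cons_self, Prod.ext h1.symm h2.symm, h3⟩
    · obtain ⟨z', h1, h2⟩ := ih h
      exact ⟨z', List.mem_cons_of_mem _ h1, h2⟩

/-- all points of the list are avoided by the square of label `l` -/
def blkOk (N : Node) (zs : List (ℕ × ℕ × ℕ)) (l : ℕ) (A : List (ℕ × ℕ)) : List (ℕ × ℕ) → Bool
  | [] => true
  | p :: L => (memP p A || inC l p 0 N || inZ l p zs) && blkOk N zs l A L

/-- the squares of a packing in the node -/
structure St (N : Node) (zs : List (ℕ × ℕ × ℕ)) (q : Fin 11 → Sq) : Prop where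
  len : N.length = 11
  mem : InNode N q
  zs : Zs zs q

theorem blk_sound {N : Node} {zs : List (ℕ × ℕ × ℕ)} {q : Fin 11 → Sq} (hS : St N zs q)
    (hd : ∀ i j, i ≠ j → Disjoint (q i).op (q j).op) (l : Fin 11) {n : Lbl}
    (hn : N[(l : ℕ)]? = some n) {L : List (ℕ × ℕ)} (h : blkOk N zs l n.A L = true) :
    ∀ p ∈ L, pt p ∉ (q l).op := by
  induction L with
  | nil => simp
  | cons r L ih =>
    rw [blkOk, Bool.and_eq_true, Bool.or_eq_true, Bool.or_eq_true] at h
    obtain ⟨h, h'⟩ := h
    intro p hp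
    rcases List.mem_cons.1 hp with rfl | hp
    · rcases h with (h | h) | h
      · obtain ⟨n', hn', -, hA, -⟩ := hS.mem l
        rw [hn] at hn'
        cases hn'
        exact hA p (memP_iff h)
      · obtain ⟨i, n', h1, h2, h3⟩ := inC_iff h
        have hi : i < 11 := by
          have := (List.getElem?_eq_some_iff.1 h1).1
          rwa [hS.len] at this
        obtain ⟨n'', hn'', hC, -⟩ := hS.mem ⟨i, hi⟩
        rw [h1] at hn''
        cases hn''
        intro hmem
        refine Set.disjoint_left.1 (hd ⟨i, hi⟩ l ?_) (hC p h3) hmem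
        intro he
        apply h2
        rw [← he]
        simp
      · obtain ⟨z, h1, h2, h3, h4⟩ := inZ_iff h
        intro hmem
        refine Set.disjoint_left.1 (hd ⟨z.2.2, h4⟩ l ?_) (h2 ▸ hS.zs z h1 ⟨z.2.2, h4⟩ rfl) hmem
        intro he
        apply h3
        rw [← he]
    · exact ih h' p hp

/-! ### Containment of boxes -/

/-- the cone of `b` is contained in the cone of `b'`, and the rectangle too -/
def leBox (b b' : Box) : Bool :=
  Nat.ble b'.x0 b.x0 && Nat.ble b.x1 b'.x1 && Nat.ble b'.y0 b.y0 && Nat.ble b.y1 b'.y1 &&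
  (Nat.beq b.k0 b'.k0 ||
    (Nat.ble ((dir b'.k0).2 * (dir b.k0).1) ((dir b'.k0).1 * (dir b.k0).2) &&
      Nat.blt 0 ((dir b.k0).1 + (dir b.k0).2))) &&
  (Nat.beq b.k1 b'.k1 ||
    (Nat.ble ((dir b.k1).2 * (dir b'.k1).1) ((dir b.k1).1 * (dir b'.k1).2) &&
      Nat.blt 0 ((dir b.k1).1 + (dir b.k1).2)))

/-- if `u` is not after `v`, and `q` is not before `v`, then `q` is not before `u` -/
theorem cone_lo {a b c d x y : ℝ} (ha : 0 ≤ a) (hc : 0 ≤ c) (hcd : 0 < c + d) (hx : 0 ≤ x) (hy : 0 ≤ y) (h : b * c ≤ a * d) (hq : 0 ≤ c * y - d * x) :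
    0 ≤ a * y - b * x := by
  rcases eq_or_lt_of_le hc with h0 | hc'
  · subst h0
    have hd' : 0 < d := by linarith
    have hx0 : x = 0 := by nlinarith
    subst hx0
    have : 0 ≤ a * y := by positivity
    linarith
  · have : 0 ≤ c * (a * y - b * x) := by nlinarith [mul_nonneg ha hq, mul_nonneg hx (sub_nonneg.2 h)]
    exact nonneg_of_mul_nonneg_right this hc'

theorem leBox_sound {b b' : Box} (h : leBox b b' = true) {q : Sq} (hq : InBox b q) :
    InBox b' q := by
  simp only [leBox, Bool.and_eq_true, Bool.or_eq_true, Nat.beq_eq, Nat.ble_eq, Nat.blt_eq] at h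
  obtain ⟨⟨⟨⟨⟨h1, h2⟩, h3⟩, h4⟩, h5⟩, h6⟩ := h
  obtain ⟨q1, q2, q3, q4, q5, q6, q7, q8⟩ := hq
  have hD : (0 : ℝ) < DD := by norm_num [DD]
  refine ⟨le_trans ?_ q1, q2.trans ?_, le_trans ?_ q3, q4.trans ?_, q5, q6, ?_, ?_⟩
  · exact div_le_div_of_nonneg_right (by exact_mod_cast h1) hD.le
  · exact div_le_div_of_nonneg_right (by exact_mod_cast h2) hD.le
  · exact div_le_div_of_nonneg_right (by exact_mod_cast h3) hD.le
  · exact div_le_div_of_nonneg_right (by exact_mod_cast h4) hD.le
  · rcases h5 with h5 | ⟨h5, h5'⟩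
    · rw [← h5]; exact q7
    · refine cone_lo (Nat.cast_nonneg _) (Nat.cast_nonneg _) ?_ q5 q6
        (by exact_mod_cast h5) q7
      exact_mod_cast h5'
  · rcases h6 with h6 | ⟨h6, h6'⟩
    · rw [← h6]; exact q8
    · have := cone_lo (a := ((dir b'.k1).2 : ℝ)) (b := ((dir b'.k1).1 : ℝ))
        (c := ((dir b.k1).2 : ℝ)) (d := ((dir b.k1).1 : ℝ)) (x := q.s) (y := q.c)
        (Nat.cast_nonneg _) (Nat.cast_nonneg _)
        (by rw [add_comm]; exact_mod_cast h6') q6 q5
        (by rw [mul_comm, mul_comm ((dir b'.k1).2 : ℝ)]; exact_mod_cast h6) q8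
      exact this

/-- `b` is contained in one of the boxes -/
def leAny (b : Box) : List Box → Bool
  | [] => false
  | b' :: B => leBox b b' || leAny b B

/-- every box of the first list is contained in a box of the second -/
def leAll (B' : List Box) : List Box → Bool
  | [] => true
  | b :: B => leAny b B' && leAll B' B

theorem leAny_sound {b : Box} {B : List Box} (h : leAny b B = true) {q : Sq} (hq : InBox b q) :
    ∃ b ∈ B, InBox b q := by
  induction B with
  | nil => simp [leAny] at h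
  | cons b' B ih =>
    rw [leAny, Bool.or_eq_true] at h
    rcases h with h | h
    · exact ⟨b', List.mem_cons_self, leBox_sound h hq⟩
    · obtain ⟨b'', h1, h2⟩ := ih h
      exact ⟨b'', List.mem_cons_of_mem _ h1, h2⟩

theorem leAll_sound {B' B : List Box} (h : leAll B' B = true) {q : Sq}
    (hq : ∃ b ∈ B, InBox b q) : ∃ b ∈ B', InBox b q := by
  induction B with
  | nil => simp at hq
  | cons b B ih =>
    rw [leAll, Bool.and_eq_true] at h
    obtain ⟨b', hb', hq'⟩ := hq
    rcases List.mem_cons.1 hb' with rfl | hb'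
    · exact leAny_sound h.1 hq'
    · exact ih h.2 ⟨b', hb', hq'⟩

/-! ### The step `tight` -/

/-- boxes of a fact with its threshold -/
def Fact.jobs {σ : Type} (thr : ℕ) : List (Box × σ) → List (Box × ℕ × σ)
  | [] => []
  | b :: B => (b.1, thr, b.2) :: jobs thr B

/-- boxes of a fact -/
def Fact.boxes {σ : Type} : List (Box × σ) → List Box
  | [] => []
  | b :: B => b.1 :: boxes B

/-- check of the facts -/
def okFacts {μ σ : Type} (o : Ops μ σ) (mu : μ) : List (Fact σ) → Bool
  | [] => true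
  | f :: fs => o.sw mu f.E [] [] (Fact.jobs f.thr f.bs) && okFacts o mu fs

/-- total weight of the points of `E` which are not known to be avoided by the label `l` -/
def rest (N : Node) (zs : List (ℕ × ℕ × ℕ)) (l : ℕ) (A : List (ℕ × ℕ)) : List (ℕ × ℕ × ℕ) → ℕ
  | [] => 0
  | p :: E => cond (memP (p.1, p.2.1) A || inC l (p.1, p.2.1) 0 N || inZ l (p.1, p.2.1) zs)
      (rest N zs l A E) (p.2.2 + rest N zs l A E)

/-- the label has weight at least `m` by the fact `f` -/
def useFact {σ : Type} (N : Node) (zs : List (ℕ × ℕ × ℕ)) (l : ℕ) (n : Lbl) (m : ℕ) :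
    Option (Fact σ) → Bool
  | none => false
  | some f => Nat.ble (m + rest N zs l n.A f.E) f.thr && leAll (Fact.boxes f.bs) n.B

/-- check of one label -/
def okTask {μ σ : Type} (o : Ops μ σ) (mu : μ) (fs : List (Fact σ)) (W M : ℕ) (N : Node)
    (zs : List (ℕ × ℕ × ℕ)) (l : ℕ) (n : Lbl) (t : Task σ) : Bool :=
  match t.cuts with
  | [] => Nat.beq t.m 0 || useFact N zs l n t.m fs[t.m']?
  | c :: cs =>
    Nat.ble t.m t.m' && Cut.sameLen (c :: cs) n.B &&
    (!Cut.anyDrop (c :: cs) || Nat.blt (W + t.m) (M + t.m')) && blkOk N zs l n.A t.blk &&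
    o.sw mu [] n.C t.blk (Cut.tasksAll t.m t.m' (c :: cs) n.B)

/-- check of all labels -/
def okTasks {μ σ : Type} (o : Ops μ σ) (mu : μ) (fs : List (Fact σ)) (W M : ℕ) (N0 : Node)
    (zs : List (ℕ × ℕ × ℕ)) : ℕ → Node → List (Task σ) → Bool
  | _, [], [] => true
  | l, n :: N, t :: ts => okTask o mu fs W M N0 zs l n t && okTasks o mu fs W M N0 zs (l + 1) N ts
  | _, _, _ => false

/-- the new label -/
def newLbl {σ : Type} (n : Lbl) (t : Task σ) : Lbl :=
  match t.cuts with
  | [] => n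
  | c :: cs => ⟨n.C, n.A, Cut.keptAll (c :: cs) n.B⟩

/-- the new node -/
def newNode {σ : Type} : Node → List (Task σ) → Node
  | n :: N, t :: ts => newLbl n t :: newNode N ts
  | _, _ => []

/-- sum of the thresholds -/
def msum {σ : Type} : List (Task σ) → ℕ
  | [] => 0
  | t :: ts => t.m + msum ts

theorem okTasks_get {μ σ : Type} {o : Ops μ σ} {mu : μ} {fs : List (Fact σ)} {W M : ℕ}
    {N0 : Node} {zs : List (ℕ × ℕ × ℕ)} : ∀ {N : Node} {ts : List (Task σ)} {l : ℕ},
    okTasks o mu fs W M N0 zs l N ts = true → ts.length = N.length ∧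
    ∀ i n, N[i]? = some n → ∃ t, ts[i]? = some t ∧ okTask o mu fs W M N0 zs (l + i) n t = true ∧
      (newNode N ts)[i]? = some (newLbl n t) := by
  intro N
  induction N with
  | nil =>
    intro ts l h
    cases ts with
    | nil => exact ⟨rfl, fun i n hi => by simp at hi⟩
    | cons t ts => simp [okTasks] at h
  | cons n N ih =>
    intro ts l h
    cases ts with
    | nil => simp [okTasks] at h
    | cons t ts =>
      rw [okTasks, Bool.and_eq_true] at h
      obtain ⟨h1, h2⟩ := ih h.2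
      refine ⟨by simp [h1], ?_⟩
      intro i n' hi
      cases i with
      | zero =>
        simp only [List.getElem?_cons_zero, Option.some.injEq] at hi
        subst hi
        exact ⟨t, rfl, h.1, rfl⟩
      | succ i =>
        simp only [List.getElem?_cons_succ] at hi
        obtain ⟨t', h3, h4, h5⟩ := h2 i n' hi
        refine ⟨t', by simpa using h3, ?_, by simpa [newNode] using h5⟩
        rw [show l + (i + 1) = l + 1 + i by ring]
        exact h4

theorem newNode_length {σ : Type} : ∀ {N : Node} {ts : List (Task σ)},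
    ts.length = N.length → (newNode N ts).length = N.length := by
  intro N
  induction N with
  | nil => intro ts _; cases ts <;> rfl
  | cons n N ih =>
    intro ts h
    cases ts with
    | nil => simp at h
    | cons t ts => simp only [newNode, List.length_cons, ih (by simpa using h)]

theorem msum_eq {σ : Type} : ∀ (ts : List (Task σ)) (k : ℕ), ts.length = k →
    ∀ (m : Fin k → ℕ), (∀ i : Fin k, ∃ t, ts[(i : ℕ)]? = some t ∧ t.m = m i) →
    msum ts = ∑ i, m i := by
  intro ts
  induction ts with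
  | nil =>
    intro k hk m _
    simp only [List.length_nil] at hk
    subst hk
    simp [msum]
  | cons t ts ih =>
    intro k hk m hm
    cases k with
    | zero => simp at hk
    | succ k =>
      rw [Fin.sum_univ_succ, msum]
      congr 1
      · obtain ⟨t', h1, h2⟩ := hm 0
        simp only [Fin.val_zero, List.getElem?_cons_zero, Option.some.injEq] at h1
        rw [h1, h2]
      · refine ih k (by simpa using hk) (fun i => m i.succ) fun i => ?_
        obtain ⟨t', h1, h2⟩ := hm i.succ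
        exact ⟨t', by simpa using h1, h2⟩

theorem wt_nonneg (pts : List (ℕ × ℕ × ℕ)) (q : Sq) : 0 ≤ wt pts q := by
  classical
  rw [wt]
  apply List.sum_nonneg
  intro x hx
  obtain ⟨p, -, rfl⟩ := List.mem_map.1 hx
  split_ifs
  · positivity
  · exact le_refl _

theorem wt_append (l m : List (ℕ × ℕ × ℕ)) (q : Sq) : wt (l ++ m) q = wt l q + wt m q := by
  rw [wt, wt, wt, List.map_append, List.sum_append]

theorem mem_jobs {σ : Type} {thr : ℕ} {bs : List (Box × σ)} {b : Box} (h : b ∈ Fact.boxes bs) :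
    ∃ t ∈ Fact.jobs thr bs, t.1 = b ∧ t.2.1 = thr := by
  induction bs with
  | nil => simp [Fact.boxes] at h
  | cons a bs ih =>
    rcases List.mem_cons.1 h with rfl | h
    · exact ⟨_, List.mem_cons_self, rfl, rfl⟩
    · obtain ⟨t, h1, h2⟩ := ih h
      exact ⟨t, List.mem_cons_of_mem _ h1, h2⟩

/-- the facts hold -/
theorem okFacts_sound {μ σ : Type} {o : Ops μ σ} (ho : o.Sound) {mu : μ} {fs : List (Fact σ)}
    (h : okFacts o mu fs = true) : ∀ f ∈ fs, ∀ b ∈ Fact.boxes f.bs,
    BoxSound (o.dec mu ++ f.E) [] [] b f.thr := by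
  induction fs with
  | nil => simp
  | cons g fs ih =>
    rw [okFacts, Bool.and_eq_true] at h
    intro f hf b hb
    rcases List.mem_cons.1 hf with rfl | hf
    · obtain ⟨t, h1, h2, h3⟩ := mem_jobs (thr := f.thr) hb
      have := ho.sw mu f.E [] [] _ h.1 t h1
      rwa [h2, h3] at this
    · exact ih h.2 f hf b hb

theorem rest_sound {N : Node} {zs : List (ℕ × ℕ × ℕ)} {q : Fin 11 → Sq} (hS : St N zs q)
    (hd : ∀ i j, i ≠ j → Disjoint (q i).op (q j).op) (l : Fin 11) {n : Lbl}
    (hn : N[(l : ℕ)]? = some n) (E : List (ℕ × ℕ × ℕ)) :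
    wt E (q l) ≤ rest N zs l n.A E := by
  classical
  induction E with
  | nil => simp [wt, rest]
  | cons p E ih =>
    have e : wt (p :: E) (q l) = (if pt (p.1, p.2.1) ∈ (q l).op then (p.2.2 : ℝ) else 0) +
        wt E (q l) := by
      rw [wt, wt, List.map_cons, List.sum_cons]
    rw [e, rest]
    cases hc : (memP (p.1, p.2.1) n.A || inC l (p.1, p.2.1) 0 N || inZ l (p.1, p.2.1) zs) with
    | false =>
      rw [cond_false]
      push_cast
      split_ifs
      · linarith
      · have : (0 : ℝ) ≤ (p.2.2 : ℝ) := Nat.cast_nonneg _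
        linarith
    | true =>
      rw [cond_true]
      have hb : blkOk N zs l n.A [(p.1, p.2.1)] = true := by
        rw [blkOk, hc]
        rfl
      rw [if_neg (blk_sound hS hd l hn hb _ List.mem_cons_self), zero_add]
      exact ih

theorem useFact_sound {μ σ : Type} {o : Ops μ σ} {mu : μ} {fs : List (Fact σ)}
    (hf : ∀ f ∈ fs, ∀ b ∈ Fact.boxes f.bs, BoxSound (o.dec mu ++ f.E) [] [] b f.thr)
    {N : Node} {zs : List (ℕ × ℕ × ℕ)} {q : Fin 11 → Sq} (hS : St N zs q)
    (hq : Pack sig q) (l : Fin 11) {n : Lbl} (hn : N[(l : ℕ)]? = some n) {m j : ℕ}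
    (h : useFact N zs l n m fs[j]? = true) : (m : ℝ) ≤ wt (o.dec mu) (q l) := by
  obtain ⟨n', hn', hC, hA, hB⟩ := hS.mem l
  rw [hn] at hn'
  cases hn'
  cases hj : fs[j]? with
  | none => rw [hj] at h; simp [useFact] at h
  | some f =>
    rw [hj] at h
    simp only [useFact, Bool.and_eq_true, Nat.ble_eq] at h
    obtain ⟨b, hb, hqb⟩ := leAll_sound h.2 hB
    have h1 := hf f (List.mem_of_getElem? hj) b hb (q l) (hq.unit l) (Pack.inCont hq l) hqb
      (by simp) (by simp)
    rw [wt_append] at h1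
    have h2 := rest_sound hS hq.disj l hn f.E
    have h3 : (m : ℝ) + (rest N zs l n.A f.E : ℕ) ≤ f.thr := by exact_mod_cast h.1
    linarith

/-- what is known about a label after the sweep -/
theorem okTask_sound {μ σ : Type} {o : Ops μ σ} (ho : o.Sound) {mu : μ} {fs : List (Fact σ)}
    (hf : ∀ f ∈ fs, ∀ b ∈ Fact.boxes f.bs, BoxSound (o.dec mu ++ f.E) [] [] b f.thr)
    {W M : ℕ} {N : Node} {zs : List (ℕ × ℕ × ℕ)} {q : Fin 11 → Sq} (hS : St N zs q)
    (hq : Pack sig q) (l : Fin 11) {n : Lbl} (hn : N[(l : ℕ)]? = some n) {t : Task σ}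
    (h : okTask o mu fs W M N zs l n t = true) :
    (t.m : ℝ) ≤ wt (o.dec mu) (q l) ∧
    (InLbl (newLbl n t) (q l) ∨ ((t.m' : ℝ) ≤ wt (o.dec mu) (q l) ∧ W + t.m < M + t.m')) := by
  obtain ⟨n', hn', hC, hA, hB⟩ := hS.mem l
  rw [hn] at hn'
  cases hn'
  rw [okTask] at h
  cases hc : t.cuts with
  | nil =>
    rw [hc] at h
    simp only [Bool.or_eq_true, Nat.beq_eq] at h
    constructor
    · rcases h with h | h
      · rw [h, Nat.cast_zero]
        exact wt_nonneg _ _
      · exact useFact_sound hf hS hq l hn h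
    · left
      rw [newLbl, hc]
      exact ⟨hC, hA, hB⟩
  | cons c cs =>
    rw [hc] at h
    simp only [Bool.and_eq_true] at h
    obtain ⟨⟨⟨⟨h1, h2⟩, h3⟩, h4⟩, h5⟩ := h
    have hblk := blk_sound hS hq.disj l hn h4
    obtain ⟨r, hr, hrq, hr'⟩ := Cut.pieceAll (m := t.m) (m' := t.m') (c :: cs) n.B h2 hB
    have hw := ho.sw mu [] n.C t.blk _ h5 r hr (q l) (hq.unit l) (Pack.inCont hq l) hrq hC hblk
    rw [List.append_nil] at hw
    have hmm : (t.m : ℝ) ≤ t.m' := by exact_mod_cast Nat.le_of_ble_eq_true h1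
    rcases hr' with ⟨e, hk⟩ | ⟨e, hk⟩
    · rw [e] at hw
      refine ⟨hw, Or.inl ?_⟩
      rw [newLbl, hc]
      exact ⟨hC, hA, r.1, hk, hrq⟩
    · rw [e] at hw
      refine ⟨hmm.trans hw, Or.inr ⟨hw, ?_⟩⟩
      rw [hk] at h3
      simpa using h3

theorem tight_sound {μ σ : Type} {o : Ops μ σ} (ho : o.Sound) {mu : μ} {N : Node}
    {zs : List (ℕ × ℕ × ℕ)} {q : Fin 11 → Sq} (hS : St N zs q)
    (hq : Pack sig q) {fs : List (Fact σ)} {ts : List (Task σ)} (hfs : okFacts o mu fs = true)
    (h : okTasks o mu fs (o.tot mu) (msum ts) N zs 0 N ts = true) : St (newNode N ts) zs q := by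
  have hf := okFacts_sound ho hfs
  obtain ⟨hl, hg⟩ := okTasks_get h
  refine ⟨by rw [newNode_length hl]; exact hS.len, ?_, hS.zs⟩
  -- the task of every label
  have hlab : ∀ l : Fin 11, ∃ n t, N[(l : ℕ)]? = some n ∧ ts[(l : ℕ)]? = some t ∧
      okTask o mu fs (o.tot mu) (msum ts) N zs l n t = true ∧
      (newNode N ts)[(l : ℕ)]? = some (newLbl n t) := by
    intro l
    obtain ⟨n, hn, -⟩ := hS.mem l
    obtain ⟨t, h1, h2, h3⟩ := hg l n hn
    rw [Nat.zero_add] at h2
    exact ⟨n, t, hn, h1, h2, h3⟩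
  choose n t hn ht hok hnew using hlab
  have hsum : msum ts = ∑ l, (t l).m :=
    msum_eq ts 11 (by rw [hl, hS.len]) (fun l => (t l).m) fun l => ⟨t l, ht l, rfl⟩
  intro l
  refine ⟨_, hnew l, ?_⟩
  rcases (okTask_sound ho hf hS hq l (hn l) (hok l)).2 with h1 | ⟨h1, h2⟩
  · exact h1
  · exfalso
    have h3 := sum_wt_le (o.dec mu) q hq.disj
    have h4 : ((o.dec mu).map fun p => p.2.2).sum ≤ o.tot mu := ho.tot mu
    have h5 : ∑ j ∈ Finset.univ.erase l, ((t j).m : ℝ) ≤
        ∑ j ∈ Finset.univ.erase l, wt (o.dec mu) (q j) :=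
      Finset.sum_le_sum fun j _ => (okTask_sound ho hf hS hq j (hn j) (hok j)).1
    have h6 := Finset.add_sum_erase Finset.univ (fun j => wt (o.dec mu) (q j))
      (Finset.mem_univ l)
    have h7 := Finset.add_sum_erase Finset.univ (fun j => ((t j).m : ℝ)) (Finset.mem_univ l)
    have h8 : ((msum ts : ℕ) : ℝ) = ∑ j, ((t j).m : ℝ) := by
      rw [hsum]; push_cast; rfl
    have h9 : ((((o.dec mu).map fun p => p.2.2).sum : ℕ) : ℝ) ≤ ((o.tot mu : ℕ) : ℝ) :=
      Nat.cast_le.2 h4
    have h10 : ((o.tot mu : ℕ) : ℝ) + (t l).m < (msum ts : ℕ) + (t l).m' := by exact_mod_cast h2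
    linarith

/-! ### Containment of nodes -/

/-- all points of the list are in `C` or known points of the label -/
def cOk (zs : List (ℕ × ℕ × ℕ)) (l : ℕ) (C : List (ℕ × ℕ)) : List (ℕ × ℕ) → Bool
  | [] => true
  | p :: L => (memP p C || inZl l p zs) && cOk zs l C L

/-- the node `N` (with the known points `zs`) is contained in `N'` -/
def leNode (N0 : Node) (zs : List (ℕ × ℕ × ℕ)) : ℕ → Node → Node → Bool
  | _, [], [] => true
  | l, n :: N, n' :: N' => cOk zs l n.C n'.C && blkOk N0 zs l n.A n'.A && leAll n'.B n.B &&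
      leNode N0 zs (l + 1) N N'
  | _, _, _ => false

theorem cOk_sound {zs : List (ℕ × ℕ × ℕ)} {l : Fin 11} {C L : List (ℕ × ℕ)}
    (h : cOk zs l C L = true) {q : Fin 11 → Sq} (hz : Zs zs q)
    (hC : ∀ p ∈ C, pt p ∈ (q l).op) : ∀ p ∈ L, pt p ∈ (q l).op := by
  induction L with
  | nil => simp
  | cons r L ih =>
    rw [cOk, Bool.and_eq_true, Bool.or_eq_true] at h
    intro p hp
    rcases List.mem_cons.1 hp with rfl | hp
    · rcases h.1 with h1 | h1
      · exact hC p (memP_iff h1)
      · obtain ⟨z, h2, h3, h4⟩ := inZl_iff h1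
        rw [h3]
        exact hz z h2 l h4.symm
    · exact ih h.2 p hp

theorem leNode_get {N0 : Node} {zs : List (ℕ × ℕ × ℕ)} : ∀ {N N' : Node} {l : ℕ},
    leNode N0 zs l N N' = true → N'.length = N.length ∧
    ∀ i n, N[i]? = some n → ∃ n', N'[i]? = some n' ∧ cOk zs (l + i) n.C n'.C = true ∧
      blkOk N0 zs (l + i) n.A n'.A = true ∧ leAll n'.B n.B = true := by
  intro N
  induction N with
  | nil =>
    intro N' l h
    cases N' with
    | nil => exact ⟨rfl, fun i n hi => by simp at hi⟩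
    | cons t ts => simp [leNode] at h
  | cons n N ih =>
    intro N' l h
    cases N' with
    | nil => simp [leNode] at h
    | cons n' N' =>
      simp only [leNode, Bool.and_eq_true] at h
      obtain ⟨⟨⟨h1, h2⟩, h3⟩, h4⟩ := h
      obtain ⟨h5, h6⟩ := ih h4
      refine ⟨by simp [h5], ?_⟩
      intro i m hi
      cases i with
      | zero =>
        simp only [List.getElem?_cons_zero, Option.some.injEq] at hi
        subst hi
        exact ⟨n', rfl, h1, h2, h3⟩
      | succ i =>
        simp only [List.getElem?_cons_succ] at hi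
        obtain ⟨m', g1, g2, g3, g4⟩ := h6 i m hi
        refine ⟨m', by simpa using g1, ?_, ?_, g4⟩
        · rw [show l + (i + 1) = l + 1 + i by ring]; exact g2
        · rw [show l + (i + 1) = l + 1 + i by ring]; exact g3

theorem leNode_sound {N N' : Node} {zs : List (ℕ × ℕ × ℕ)} (h : leNode N zs 0 N N' = true)
    {q : Fin 11 → Sq} (hS : St N zs q) (hd : ∀ i j, i ≠ j → Disjoint (q i).op (q j).op) :
    St N' zs q := by
  obtain ⟨h1, h2⟩ := leNode_get h
  refine ⟨by rw [h1, hS.len], ?_, hS.zs⟩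
  intro l
  obtain ⟨n, hn, hC, hA, hB⟩ := hS.mem l
  obtain ⟨n', g1, g2, g3, g4⟩ := h2 l n hn
  rw [Nat.zero_add] at g2 g3
  exact ⟨n', g1, cOk_sound g2 hS.zs hC, blk_sound hS hd l hn g3, leAll_sound g4 hB⟩

/-! ### Replacing one label -/

theorem inNode_set {N : Node} {q : Fin 11 → Sq} (h : InNode N q) {l : ℕ} {n' : Lbl}
    (hn' : ∀ i : Fin 11, (i : ℕ) = l → InLbl n' (q i)) : InNode (N.set l n') q := by
  intro i
  obtain ⟨n, hn, hq⟩ := h i
  rw [List.getElem?_set]
  split_ifs with h1 h2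
  · exact ⟨n', rfl, hn' i h1.symm⟩
  · exact absurd (List.getElem?_eq_some_iff.1 hn).1 (by rw [← h1]; exact h2)
  · exact ⟨n, hn, hq⟩

theorem St.set {N : Node} {zs : List (ℕ × ℕ × ℕ)} {q : Fin 11 → Sq} (h : St N zs q) {l : ℕ}
    {n' : Lbl} (hn' : ∀ i : Fin 11, (i : ℕ) = l → InLbl n' (q i)) : St (N.set l n') zs q :=
  ⟨by rw [List.length_set]; exact h.len, inNode_set h.mem hn', h.zs⟩

/-! ### Symmetries -/

/-- the points are in the container -/
def ptsOk : List (ℕ × ℕ) → Bool
  | [] => true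
  | p :: L => Nat.ble p.2 S0 && ptsOk L

/-- the boxes are in the container -/
def boxesOk : List Box → Bool
  | [] => true
  | b :: B => Nat.ble b.y0 S0 && Nat.ble b.y1 S0 && Nat.ble b.k0 900 && Nat.ble b.k1 900 &&
      boxesOk B

def symOk : Node → Bool
  | [] => true
  | n :: N => ptsOk n.C && ptsOk n.A && boxesOk n.B && symOk N

def zsOk : List (ℕ × ℕ × ℕ) → Bool
  | [] => true
  | z :: zs => Nat.ble z.2.1 S0 && zsOk zs

def rotBox (b : Box) : Box := ⟨S0 - b.y1, S0 - b.y0, b.x0, b.x1, b.k0, b.k1⟩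
def reflBox (b : Box) : Box := ⟨b.x0, b.x1, S0 - b.y1, S0 - b.y0, 900 - b.k1, 900 - b.k0⟩

def rotLbl (n : Lbl) : Lbl := ⟨n.C.map rotP, n.A.map rotP, n.B.map rotBox⟩
def reflLbl (n : Lbl) : Lbl := ⟨n.C.map reflP, n.A.map reflP, n.B.map reflBox⟩

def rotZ (z : ℕ × ℕ × ℕ) : ℕ × ℕ × ℕ := (S0 - z.2.1, z.1, z.2.2)
def reflZ (z : ℕ × ℕ × ℕ) : ℕ × ℕ × ℕ := (z.1, S0 - z.2.1, z.2.2)

theorem rotBox_sound {b : Box} {q : Sq} (h0 : b.y0 ≤ S0) (h1 : b.y1 ≤ S0) (h : InBox b q) :
    InBox (rotBox b) (rotSq q) := by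
  obtain ⟨q1, q2, q3, q4, q5, q6, q7, q8⟩ := h
  have e : ∀ y : ℕ, y ≤ S0 → ((S0 - y : ℕ) : ℝ) / DD = sig - (y : ℝ) / DD := by
    intro y hy
    rw [Nat.cast_sub hy, sub_div]
  refine ⟨?_, ?_, q1, q2, q5, q6, q7, q8⟩
  · change ((S0 - b.y1 : ℕ) : ℝ) / DD ≤ sig - q.y
    rw [e _ h1]; linarith
  · change sig - q.y ≤ ((S0 - b.y0 : ℕ) : ℝ) / DD
    rw [e _ h0]; linarith

/-- the table of directions is symmetric -/
def dirSym : ℕ → Bool
  | 0 => true
  | k + 1 => Nat.beq (dir (900 - k)).1 (dir k).2 && Nat.beq (dir (900 - k)).2 (dir k).1 && dirSym k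

theorem dirSym_sound : ∀ {n : ℕ}, dirSym n = true → ∀ k < n, (dir (900 - k)).1 = (dir k).2 ∧
    (dir (900 - k)).2 = (dir k).1 := by
  intro n
  induction n with
  | zero => intro _ k hk; omega
  | succ n ih =>
    intro h k hk
    simp only [dirSym, Bool.and_eq_true, Nat.beq_eq] at h
    rcases Nat.lt_succ_iff_lt_or_eq.1 hk with h1 | rfl
    · exact ih h.2 k h1
    · exact h.1

theorem dir_sym {k : ℕ} (hk : k ≤ 900) : (dir (900 - k)).1 = (dir k).2 ∧
    (dir (900 - k)).2 = (dir k).1 :=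
  dirSym_sound (n := 901) (by decide +kernel) k (by omega)

theorem reflBox_sound {b : Box} {q : Sq} (h0 : b.y0 ≤ S0) (h1 : b.y1 ≤ S0) (h2 : b.k0 ≤ 900)
    (h3 : b.k1 ≤ 900) (h : InBox b q) : InBox (reflBox b) (reflSq q) := by
  obtain ⟨q1, q2, q3, q4, q5, q6, q7, q8⟩ := h
  have e : ∀ y : ℕ, y ≤ S0 → ((S0 - y : ℕ) : ℝ) / DD = sig - (y : ℝ) / DD := by
    intro y hy
    rw [Nat.cast_sub hy, sub_div]
  refine ⟨q1, q2, ?_, ?_, q6, q5, ?_, ?_⟩
  · change ((S0 - b.y1 : ℕ) : ℝ) / DD ≤ sig - q.y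
    rw [e _ h1]; linarith
  · change sig - q.y ≤ ((S0 - b.y0 : ℕ) : ℝ) / DD
    rw [e _ h0]; linarith
  · change 0 ≤ ((dir (900 - b.k1)).1 : ℝ) * q.c - ((dir (900 - b.k1)).2 : ℝ) * q.s
    rw [(dir_sym h3).1, (dir_sym h3).2]
    exact q8
  · change 0 ≤ ((dir (900 - b.k0)).2 : ℝ) * q.s - ((dir (900 - b.k0)).1 : ℝ) * q.c
    rw [(dir_sym h2).1, (dir_sym h2).2]
    exact q7

theorem ptsOk_sound {L : List (ℕ × ℕ)} (h : ptsOk L = true) : ∀ p ∈ L, p.2 ≤ S0 := by
  induction L with
  | nil => simp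
  | cons r L ih =>
    simp only [ptsOk, Bool.and_eq_true, Nat.ble_eq] at h
    intro p hp
    rcases List.mem_cons.1 hp with rfl | hp
    · exact h.1
    · exact ih h.2 p hp

theorem boxesOk_sound {B : List Box} (h : boxesOk B = true) :
    ∀ b ∈ B, b.y0 ≤ S0 ∧ b.y1 ≤ S0 ∧ b.k0 ≤ 900 ∧ b.k1 ≤ 900 := by
  induction B with
  | nil => simp
  | cons r L ih =>
    simp only [boxesOk, Bool.and_eq_true, Nat.ble_eq] at h
    obtain ⟨⟨⟨⟨h1, h2⟩, h3⟩, h4⟩, h5⟩ := h
    intro p hp
    rcases List.mem_cons.1 hp with rfl | hp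
    · exact ⟨h1, h2, h3, h4⟩
    · exact ih h5 p hp

theorem symOk_sound {N : Node} (h : symOk N = true) {i : ℕ} {n : Lbl} (hn : N[i]? = some n) :
    ptsOk n.C = true ∧ ptsOk n.A = true ∧ boxesOk n.B = true := by
  induction N generalizing i with
  | nil => simp at hn
  | cons m N ih =>
    simp only [symOk, Bool.and_eq_true] at h
    obtain ⟨⟨⟨h1, h2⟩, h3⟩, h4⟩ := h
    cases i with
    | zero =>
      simp only [List.getElem?_cons_zero, Option.some.injEq] at hn
      subst hn
      exact ⟨h1, h2, h3⟩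
    | succ i => exact ih h4 (by simpa using hn)

theorem zsOk_sound {zs : List (ℕ × ℕ × ℕ)} (h : zsOk zs = true) : ∀ z ∈ zs, z.2.1 ≤ S0 := by
  induction zs with
  | nil => simp
  | cons r L ih =>
    simp only [zsOk, Bool.and_eq_true, Nat.ble_eq] at h
    intro p hp
    rcases List.mem_cons.1 hp with rfl | hp
    · exact h.1
    · exact ih h.2 p hp

theorem St.rot {N : Node} {zs : List (ℕ × ℕ × ℕ)} {q : Fin 11 → Sq} (h : St N zs q)
    (h1 : symOk N = true) (h2 : zsOk zs = true) :
    St (N.map rotLbl) (zs.map rotZ) (fun i => rotSq (q i)) := by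
  refine ⟨by rw [List.length_map]; exact h.len, ?_, ?_⟩
  · intro l
    obtain ⟨n, hn, hC, hA, b, hb, hq⟩ := h.mem l
    obtain ⟨g1, g2, g3⟩ := symOk_sound h1 hn
    refine ⟨rotLbl n, by rw [List.getElem?_map, hn]; rfl, ?_, ?_, ?_⟩
    · intro p hp
      obtain ⟨r, hr, rfl⟩ := List.mem_map.1 hp
      exact (mem_rot (ptsOk_sound g1 r hr)).2 (hC r hr)
    · intro p hp
      obtain ⟨r, hr, rfl⟩ := List.mem_map.1 hp
      exact fun hm => hA r hr ((mem_rot (ptsOk_sound g2 r hr)).1 hm)
    · obtain ⟨b1, b2, -, -⟩ := boxesOk_sound g3 b hb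
      exact ⟨rotBox b, List.mem_map.2 ⟨b, hb, rfl⟩, rotBox_sound b1 b2 hq⟩
  · intro z hz l hl
    obtain ⟨r, hr, rfl⟩ := List.mem_map.1 hz
    exact (mem_rot (p := (r.1, r.2.1)) (zsOk_sound h2 r hr)).2 (h.zs r hr l hl)

theorem St.refl {N : Node} {zs : List (ℕ × ℕ × ℕ)} {q : Fin 11 → Sq} (h : St N zs q)
    (h1 : symOk N = true) (h2 : zsOk zs = true) :
    St (N.map reflLbl) (zs.map reflZ) (fun i => reflSq (q i)) := by
  refine ⟨by rw [List.length_map]; exact h.len, ?_, ?_⟩
  · intro l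
    obtain ⟨n, hn, hC, hA, b, hb, hq⟩ := h.mem l
    obtain ⟨g1, g2, g3⟩ := symOk_sound h1 hn
    refine ⟨reflLbl n, by rw [List.getElem?_map, hn]; rfl, ?_, ?_, ?_⟩
    · intro p hp
      obtain ⟨r, hr, rfl⟩ := List.mem_map.1 hp
      exact (mem_refl (ptsOk_sound g1 r hr)).2 (hC r hr)
    · intro p hp
      obtain ⟨r, hr, rfl⟩ := List.mem_map.1 hp
      exact fun hm => hA r hr ((mem_refl (ptsOk_sound g2 r hr)).1 hm)
    · obtain ⟨b1, b2, b3, b4⟩ := boxesOk_sound g3 b hb
      exact ⟨reflBox b, List.mem_map.2 ⟨b, hb, rfl⟩, reflBox_sound b1 b2 b3 b4 hq⟩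
  · intro z hz l hl
    obtain ⟨r, hr, rfl⟩ := List.mem_map.1 hz
    exact (mem_refl (p := (r.1, r.2.1)) (zsOk_sound h2 r hr)).2 (h.zs r hr l hl)

/-- membership in a list of naturals -/
def memN (i : ℕ) : List ℕ → Bool
  | [] => false
  | j :: L => Nat.beq j i || memN i L

/-- the list has distinct entries below `11` -/
def permOk : List ℕ → Bool
  | [] => true
  | i :: L => Nat.blt i 11 && !memN i L && permOk L

/-- the relabelled node -/
def relNode (N : Node) : List ℕ → Node
  | [] => []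
  | i :: L => match N[i]? with
    | some n => n :: relNode N L
    | none => []

theorem memN_of_mem {i : ℕ} {L : List ℕ} (h : i ∈ L) : memN i L = true := by
  induction L with
  | nil => simp at h
  | cons j L ih =>
    rw [memN, Bool.or_eq_true, Nat.beq_eq]
    rcases List.mem_cons.1 h with rfl | h
    · exact Or.inl rfl
    · exact Or.inr (ih h)

theorem permOk_sound {L : List ℕ} (h : permOk L = true) : L.Nodup ∧ ∀ i ∈ L, i < 11 := by
  induction L with
  | nil => exact ⟨List.nodup_nil, by simp⟩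
  | cons i L ih =>
    simp only [permOk, Bool.and_eq_true, Nat.blt_eq, Bool.not_eq_true'] at h
    obtain ⟨⟨h1, h2⟩, h3⟩ := h
    obtain ⟨g1, g2⟩ := ih h3
    refine ⟨List.nodup_cons.2 ⟨fun hm => ?_, g1⟩, ?_⟩
    · rw [memN_of_mem hm] at h2
      exact absurd h2 (by simp)
    · intro j hj
      rcases List.mem_cons.1 hj with rfl | hj
      · exact h1
      · exact g2 j hj

theorem relNode_get {N : Node} (hN : N.length = 11) : ∀ {L : List ℕ}, (∀ i ∈ L, i < 11) →
    (relNode N L).length = L.length ∧ ∀ (i k : ℕ), L[i]? = some k → (relNode N L)[i]? = N[k]? := by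
  intro L
  induction L with
  | nil => intro _; exact ⟨rfl, fun i k h => by simp at h⟩
  | cons j L ih =>
    intro h
    obtain ⟨g1, g2⟩ := ih fun i hi => h i (List.mem_cons_of_mem _ hi)
    have hj : j < N.length := by rw [hN]; exact h j List.mem_cons_self
    have e : N[j]? = some N[j] := List.getElem?_eq_getElem hj
    have e2 : relNode N (j :: L) = N[j] :: relNode N L := by
      simp only [relNode, e]
    rw [e2]
    refine ⟨by simp [g1], ?_⟩
    intro i k hi
    cases i with
    | zero =>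
      simp only [List.getElem?_cons_zero, Option.some.injEq] at hi
      subst hi
      rw [e]
      rfl
    | succ i =>
      simp only [List.getElem?_cons_succ] at hi ⊢
      exact g2 i k hi

theorem St.relabel {N : Node} {zs : List (ℕ × ℕ × ℕ)} {q : Fin 11 → Sq} (h : St N zs q)
    {L : List ℕ} (hl : L.length = 11) (hp : permOk L = true) :
    ∃ e : Equiv.Perm (Fin 11), St (relNode N L) [] (fun i => q (e i)) := by
  obtain ⟨h1, h2⟩ := permOk_sound hp
  have hlt : ∀ i : Fin 11, L[(i : ℕ)]'(by rw [hl]; exact i.2) < 11 := fun i =>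
    h2 _ (List.getElem_mem _)
  let f : Fin 11 → Fin 11 := fun i => ⟨L[(i : ℕ)]'(by rw [hl]; exact i.2), hlt i⟩
  have hf : Function.Injective f := by
    intro i j hij
    have := congrArg Fin.val hij
    simp only [f] at this
    exact Fin.ext ((List.Nodup.getElem_inj_iff h1).1 this)
  let e : Equiv.Perm (Fin 11) := Equiv.ofBijective f (Finite.injective_iff_bijective.1 hf)
  have he : ∀ i, e i = f i := fun i => rfl
  obtain ⟨g1, g2⟩ := relNode_get h.len (L := L) h2
  refine ⟨e, by rw [g1, hl], ?_, ?_⟩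
  · intro l
    obtain ⟨n, hn, hq⟩ := h.mem (f l)
    refine ⟨n, ?_, hq⟩
    rw [g2 l (f l) (List.getElem?_eq_getElem (by rw [hl]; exact l.2))]
    exact hn
  · intro z hz
    simp at hz

/-! ### The checker -/

/-- some label has no box -/
def anyEmpty : Node → Bool
  | [] => false
  | n :: N => (match n.B with | [] => true | _ :: _ => false) || anyEmpty N

theorem anyEmpty_sound {N : Node} {zs : List (ℕ × ℕ × ℕ)} {q : Fin 11 → Sq} (h : St N zs q)
    (he : anyEmpty N = true) : False := by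
  have : ∀ (N : Node), anyEmpty N = true → ∃ (i : ℕ) (n : Lbl), N[i]? = some n ∧ n.B = [] := by
    intro N
    induction N with
    | nil => intro h; simp [anyEmpty] at h
    | cons n N ih =>
      intro h
      rw [anyEmpty, Bool.or_eq_true] at h
      rcases h with h | h
      · refine ⟨0, n, rfl, ?_⟩
        cases hB : n.B with
        | nil => rfl
        | cons b B => rw [hB] at h; simp at h
      · obtain ⟨i, m, h1, h2⟩ := ih h
        exact ⟨i + 1, m, by simpa using h1, h2⟩
  obtain ⟨i, n, h1, h2⟩ := this N he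
  have hi : i < 11 := by
    have := (List.getElem?_eq_some_iff.1 h1).1
    rwa [h.len] at this
  obtain ⟨n', hn', -, -, b, hb, -⟩ := h.mem ⟨i, hi⟩
  rw [h1] at hn'
  cases hn'
  rw [h2] at hb
  simp at hb

namespace Tree

variable {μ σ : Type}

/-- the checker -/
def check (o : Ops μ σ) (tbl : List Node) : Tree μ σ → Node → List (ℕ × ℕ × ℕ) → Bool
  | done, N, _ => anyEmpty N
  | cite k, N, zs => match tbl[k]? with
    | none => false
    | some N' => leNode N zs 0 N N'
  | weaken N' t, N, zs => leNode N zs 0 N N' && check o tbl t N' zs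
  | tight m fs ts t, N, zs =>
    okTasks o m fs (o.tot m) (msum ts) N zs 0 N ts && okFacts o m fs &&
      check o tbl t (newNode N ts) zs
  | addZ l z blk a t, N, zs => match N[l]? with
    | none => false
    | some n => Nat.blt l 11 && blkOk N zs l n.A blk && o.zc z n.C blk n.B a &&
        check o tbl t N ((z.1, z.2, l) :: zs)
  | split l ax v t1 t2, N, zs => match N[l]? with
    | none => false
    | some n => check o tbl t1 (N.set l ⟨n.C, n.A, splitLo ax v n.B⟩) zs &&
        check o tbl t2 (N.set l ⟨n.C, n.A, splitHi ax v n.B⟩) zs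
  | splitPt l p t1 t2, N, zs => match N[l]? with
    | none => false
    | some n => check o tbl t1 (N.set l ⟨p :: n.C, n.A, n.B⟩) zs &&
        check o tbl t2 (N.set l ⟨n.C, p :: n.A, n.B⟩) zs
  | rot t, N, zs => symOk N && zsOk zs && check o tbl t (N.map rotLbl) (zs.map rotZ)
  | refl t, N, zs => symOk N && zsOk zs && check o tbl t (N.map reflLbl) (zs.map reflZ)
  | relabel e t, N, _ => Nat.beq e.length 11 && permOk e && check o tbl t (relNode N e) []

theorem sound {o : Ops μ σ} (ho : o.Sound) {tbl : List Node} (htbl : ∀ N ∈ tbl, GoodC N)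
    (T : TrumpData) (L : ℝ) (hL : L ≤ T.L) : ∀ (t : Tree μ σ) (N : Node)
    (zs : List (ℕ × ℕ × ℕ)) (q : Fin 11 → Sq), check o tbl t N zs = true → CPack L q →
    St N zs q → L = T.L := by
  intro t
  induction t with
  | done =>
    intro N zs q h hq hS
    exact absurd (anyEmpty_sound hS h) (by simp)
  | cite k =>
    intro N zs q h hq hS
    rw [check] at h
    cases hk : tbl[k]? with
    | none => rw [hk] at h; simp at h
    | some N' =>
      rw [hk] at h
      have hP := hq.pack (hL.trans T.L_lt_sig.le)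
      exact htbl N' (List.mem_of_getElem? hk) T L q hL hq (leNode_sound h hS hP.disj).mem
  | weaken N' t ih =>
    intro N zs q h hq hS
    rw [check, Bool.and_eq_true] at h
    have hP := hq.pack (hL.trans T.L_lt_sig.le)
    exact ih N' zs q h.2 hq (leNode_sound h.1 hS hP.disj)
  | tight m fs ts t ih =>
    intro N zs q h hq hS
    rw [check, Bool.and_eq_true, Bool.and_eq_true] at h
    have hP := hq.pack (hL.trans T.L_lt_sig.le)
    exact ih _ zs q h.2 hq (tight_sound ho hS hP h.1.2 h.1.1)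
  | addZ l z blk a t ih =>
    intro N zs q h hq hS
    rw [check] at h
    cases hk : N[l]? with
    | none => rw [hk] at h; simp at h
    | some n =>
      rw [hk] at h
      simp only [Bool.and_eq_true, Nat.blt_eq] at h
      obtain ⟨⟨⟨h1, h2⟩, h3⟩, h4⟩ := h
      have hP := hq.pack (hL.trans T.L_lt_sig.le)
      refine ih N _ q h4 hq ⟨hS.len, hS.mem, ?_⟩
      intro w hw i hi
      rcases List.mem_cons.1 hw with rfl | hw
      · have hil : (i : ℕ) = l := hi
        have hn : N[(i : ℕ)]? = some n := by rw [hil]; exact hk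
        obtain ⟨n', hn', hC, hA, hB⟩ := hS.mem i
        rw [hn] at hn'
        cases hn'
        refine ho.zc z n.C blk n.B a h3 (q i) (hP.unit i) (Pack.inCont hP i) hB hC ?_
        exact blk_sound hS hP.disj i hn (by rw [hil]; exact h2)
      · exact hS.zs w hw i hi
  | split l ax v t1 t2 ih1 ih2 =>
    intro N zs q h hq hS
    rw [check] at h
    cases hk : N[l]? with
    | none => rw [hk] at h; simp at h
    | some n =>
      rw [hk] at h
      simp only [Bool.and_eq_true] at h
      by_cases hl : l < 11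
      · obtain ⟨n', hn', hC, hA, hB⟩ := hS.mem ⟨l, hl⟩
        rw [show ((⟨l, hl⟩ : Fin 11) : ℕ) = l from rfl, hk] at hn'
        cases hn'
        rcases split_sound ax v hB with hB' | hB'
        · refine ih1 _ zs q h.1 hq (hS.set fun i hi => ?_)
          rw [show i = ⟨l, hl⟩ from Fin.ext hi]
          exact ⟨hC, hA, hB'⟩
        · refine ih2 _ zs q h.2 hq (hS.set fun i hi => ?_)
          rw [show i = ⟨l, hl⟩ from Fin.ext hi]
          exact ⟨hC, hA, hB'⟩
      · refine ih1 _ zs q h.1 hq (hS.set fun i hi => ?_)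
        exact absurd i.2 (by omega)
  | splitPt l p t1 t2 ih1 ih2 =>
    intro N zs q h hq hS
    rw [check] at h
    cases hk : N[l]? with
    | none => rw [hk] at h; simp at h
    | some n =>
      rw [hk] at h
      simp only [Bool.and_eq_true] at h
      by_cases hl : l < 11
      · obtain ⟨n', hn', hC, hA, hB⟩ := hS.mem ⟨l, hl⟩
        rw [show ((⟨l, hl⟩ : Fin 11) : ℕ) = l from rfl, hk] at hn'
        cases hn'
        by_cases hp : pt p ∈ (q ⟨l, hl⟩).op
        · refine ih1 _ zs q h.1 hq (hS.set fun i hi => ?_)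
          rw [show i = ⟨l, hl⟩ from Fin.ext hi]
          refine ⟨fun r hr => ?_, hA, hB⟩
          rcases List.mem_cons.1 hr with rfl | hr
          · exact hp
          · exact hC r hr
        · refine ih2 _ zs q h.2 hq (hS.set fun i hi => ?_)
          rw [show i = ⟨l, hl⟩ from Fin.ext hi]
          refine ⟨hC, fun r hr => ?_, hB⟩
          rcases List.mem_cons.1 hr with rfl | hr
          · exact hp
          · exact hA r hr
      · refine ih1 _ zs q h.1 hq (hS.set fun i hi => ?_)
        exact absurd i.2 (by omega)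
  | rot t ih =>
    intro N zs q h hq hS
    rw [check, Bool.and_eq_true, Bool.and_eq_true] at h
    exact ih _ _ _ h.2 hq.rot (hS.rot h.1.1 h.1.2)
  | refl t ih =>
    intro N zs q h hq hS
    rw [check, Bool.and_eq_true, Bool.and_eq_true] at h
    exact ih _ _ _ h.2 hq.refl (hS.refl h.1.1 h.1.2)
  | relabel e t ih =>
    intro N zs q h hq hS
    rw [check, Bool.and_eq_true, Bool.and_eq_true, Nat.beq_eq] at h
    obtain ⟨e', he'⟩ := hS.relabel h.1.1 h.1.2
    exact ih _ _ _ h.2 (hq.relabel e') he'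

/-- a checked tree proves that the node is good -/
theorem goodC {o : Ops μ σ} (ho : o.Sound) {tbl : List Node} (htbl : ∀ N ∈ tbl, GoodC N)
    {t : Tree μ σ} {N : Node} (h : (Nat.beq N.length 11 && check o tbl t N []) = true) :
    GoodC N := by
  rw [Bool.and_eq_true, Nat.beq_eq] at h
  intro T L q hL hq hN
  exact sound ho htbl T L hL t N [] q h.2 hq ⟨h.1, hN, fun z hz => by simp at hz⟩

end Tree

end Pool.Agent.MP_abb58c_co
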