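import Pool.Agent.Lib.MP_abb58c_co.Roots
import Pool.Agent.Lib.MP_abb58c_co.Tree

/-! MP_abb58c_co: the nodes `nd 0, ..., nd 33` of the valley (angle of `Q0` in `[37, 42]` degrees).
`nd (i + 1)` is `nd i` with new boxes for one label; `nd 33` is the entry of FINE. -/

namespace Pool.Agent.MP_abb58c_co

open Roots

/-- new boxes for the label `l` -/
def setB (N : Node) (l : ℕ) (B : List Box) : Node :=
  match N[l]? with
  | none => N
  | some n => N.set l ⟨n.C, n.A, B⟩

/-- the steps of the valley: label and its new boxes -/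
def steps : List (ℕ × List Box) :=
  [(6, [⟨25000, 75000, 25000, 75000, 0, 80⟩, ⟨25000, 75000, 25000, 75000, 820, 900⟩]),
   (8, [⟨120300, 170300, 235500, 285500, 250, 550⟩]),
   (9, [⟨119100, 169100, 100300, 150300, 250, 550⟩]),
   (4, [⟨312700, 362700, 312700, 362700, 0, 80⟩, ⟨312700, 362700, 312700, 362700, 820, 900⟩]),
   (7, [⟨312700, 362700, 45000, 160000, 0, 80⟩, ⟨312700, 362700, 45000, 160000, 820, 900⟩]),
   (3, [⟨45500, 95500, 169100, 219100, 250, 550⟩]),
   (0, [⟨209100, 259100, 45500, 95500, 0, 80⟩, ⟨209100, 259100, 45500, 95500, 250, 550⟩, ⟨209100, 259100, 45500, 95500, 820, 900⟩]),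
   (1, [⟨312700, 362700, 212700, 262700, 0, 80⟩, ⟨312700, 362700, 212700, 262700, 820, 900⟩]),
   (2, [⟨212700, 262700, 312700, 362700, 0, 80⟩, ⟨212700, 262700, 312700, 362700, 820, 900⟩]),
   (5, [⟨25000, 75000, 312700, 362700, 0, 80⟩, ⟨25000, 75000, 312700, 362700, 820, 900⟩]),
   (10, [⟨193900, 243900, 166800, 216800, 370, 420⟩]),
   (6, [⟨35000, 65000, 35000, 65000, 0, 60⟩, ⟨35000, 65000, 35000, 65000, 840, 900⟩]),
   (8, [⟨130260, 160260, 245480, 275480, 320, 480⟩]),
   (9, [⟨129060, 159060, 110330, 140330, 320, 480⟩]),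
   (4, [⟨322700, 352700, 322700, 352700, 0, 60⟩, ⟨322700, 352700, 322700, 352700, 840, 900⟩]),
   (7, [⟨322700, 352700, 105000, 160000, 0, 60⟩, ⟨322700, 352700, 105000, 160000, 840, 900⟩]),
   (3, [⟨55460, 85460, 179060, 209060, 320, 480⟩]),
   (0, [⟨219080, 249080, 55460, 85460, 320, 480⟩]),
   (1, [⟨322700, 352700, 222700, 252700, 0, 60⟩, ⟨322700, 352700, 222700, 252700, 840, 900⟩]),
   (2, [⟨222700, 252700, 322700, 352700, 0, 60⟩, ⟨222700, 252700, 322700, 352700, 840, 900⟩]),
   (5, [⟨35000, 65000, 322700, 352700, 0, 60⟩, ⟨35000, 65000, 322700, 352700, 840, 900⟩]),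
   (10, [⟨203850, 233850, 176750, 206750, 370, 420⟩]),
   (6, [⟨40000, 60000, 40000, 60000, 0, 40⟩, ⟨40000, 60000, 40000, 60000, 860, 900⟩]),
   (8, [⟨135260, 155260, 250480, 270480, 340, 460⟩]),
   (9, [⟨134060, 154060, 115330, 135330, 340, 460⟩]),
   (4, [⟨327700, 347700, 327700, 347700, 0, 40⟩, ⟨327700, 347700, 327700, 347700, 860, 900⟩]),
   (7, [⟨327700, 347700, 115000, 155000, 0, 40⟩, ⟨327700, 347700, 115000, 155000, 860, 900⟩]),
   (3, [⟨60460, 80460, 184060, 204060, 340, 460⟩]),
   (1, [⟨327700, 347700, 227700, 247700, 0, 40⟩, ⟨327700, 347700, 227700, 247700, 860, 900⟩]),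
   (2, [⟨227700, 247700, 327700, 347700, 0, 40⟩, ⟨227700, 247700, 327700, 347700, 860, 900⟩]),
   (5, [⟨40000, 60000, 327700, 347700, 0, 40⟩, ⟨40000, 60000, 327700, 347700, 860, 900⟩]),
   (10, [⟨208850, 228850, 181750, 201750, 370, 420⟩]),
   (0, [⟨224080, 244080, 60460, 80460, 340, 460⟩])]

/-- the nodes of the valley -/
def ndAux : Node → List (ℕ × List Box) → ℕ → Node
  | N, [], _ => N
  | N, s :: ss, i => match i with
    | 0 => N
    | i + 1 => ndAux (setB N s.1 s.2) ss i

/-- the nodes of the valley -/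
def nd (i : ℕ) : Node := ndAux (RA 370 420) steps i

/-- a certificate for a node -/
theorem goodC_leaf {μ σ : Type} {o : Ops μ σ} (ho : o.Sound) {t : Tree μ σ} {N : Node}
    (h : (Nat.beq N.length 11 && Tree.check o [] t N []) = true) : GoodC N :=
  Tree.goodC ho (by simp) h

/-- a certificate for a node, which cites one other node -/
theorem goodC_step {μ σ : Type} {o : Ops μ σ} (ho : o.Sound) {t : Tree μ σ} {N N' : Node}
    (h : (Nat.beq N.length 11 && Tree.check o [N'] t N []) = true) (hN' : GoodC N') : GoodC N :=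
  Tree.goodC ho (by simpa using hN') h

/-- the statement of the certificate number `i` of the valley -/
def VStep (i : ℕ) : Prop := GoodC (nd (i + 1)) → GoodC (nd i)

/-- all steps and the entry of FINE give the window -/
theorem goodC_valley (hs : ∀ i < 33, VStep i) (hF : GoodC (nd 33)) : GoodC (RA 370 420) := by
  have key : ∀ n, (∀ i < n, VStep i) → GoodC (nd n) → GoodC (nd 0) := by
    intro n
    induction n with
    | zero => intro _ h; exact h
    | succ n ih => intro h hn; exact ih (fun i hi => h i (by omega)) (h n (by omega) hn)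
  exact key 33 hs hF

end Pool.Agent.MP_abb58c_co
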