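import Pool.Agent.Lib.MP_abb58c_co.FineRun
import Pool.Agent.Lib.MP_abb58c_co.FineEntry2
import Pool.Agent.Lib.MP_abb58c_co.Nodes

/-! MP_abb58c_co, FINE: from checked certificates to `GoodC` of the entry node. -/

namespace Pool.Agent.MP_abb58c_co
namespace Fine

open Real Case

/-- lower ends of the box of an entry -/
def eLo (e : Ent) (v : ℕ) : ℕ := dg 144 e.lo (33 - v)

/-- upper ends of the box of an entry -/
def eHi (e : Ent) (v : ℕ) : ℕ := dg 144 e.hi (33 - v)

/-- the box of the entry is well formed -/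
def entOK (e : Ent) : Bool :=
  Nat.blt e.lo (Nat.pow 2 (Nat.mul 144 34)) && Nat.blt e.hi (Nat.pow 2 (Nat.mul 144 34)) &&
    (List.range 34).all fun v => Nat.blt (eHi e v) (Nat.pow 2 32)

theorem boxOK_of_ent {w : Wd} {e : Ent} (h : entOK e = true) (hin : InEnt w e) :
    BoxOK (zv w) e.lo e.hi := by
  unfold entOK at h
  rw [Bool.and_eq_true, Bool.and_eq_true] at h
  obtain ⟨⟨h1, h2⟩, h3⟩ := h
  rw [Nat.blt_eq] at h1 h2
  refine ⟨h1, h2, fun v hv => ?_, fun v hv => (hin.1 v hv).1, fun v hv => (hin.1 v hv).2⟩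
  have := List.all_eq_true.1 h3 v (List.mem_range.2 hv)
  rw [Nat.blt_eq] at this
  exact this

/-- every packing of the entry is optimal; `xy` are the bounds of the coordinates of the centres at
the entry of FINE -/
def EntGood (xy : ℕ → ℕ) (e : Ent) : Prop :=
  ∀ (T : TrumpData) (L : ℝ) (w : Wd), L ≤ T.L → CPack L w.sq → World w → InXY xy w →
    InEnt w e → L = T.L

/-- the environment given by the bounds `xy`: `(l, sd)` is the row `xyP l sd` -/
def envXY (xy : ℕ → ℕ) (rs : List (ℕ × ℕ)) : List ℕ :=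
  rs.map fun p => xyP p.1 p.2 (xy (4 * p.1 + p.2))

/-- the rows of the environment are allowed -/
def rsOK (xy : ℕ → ℕ) (rs : List (ℕ × ℕ)) : Bool :=
  rs.all fun p => Nat.ble p.1 10 && Nat.ble p.2 3 && tiltS (lab p.1) &&
    Nat.ble (xy (4 * p.1 + p.2)) 500000000

theorem envXY_ok (hXY : SpecXY) {xy : ℕ → ℕ} {rs : List (ℕ × ℕ)} (h : rsOK xy rs = true) {w : Wd}
    (hw : InXY xy w) : ∀ P ∈ envXY xy rs, RowOK (zv w) P := by
  intro P hP
  obtain ⟨⟨l, sd⟩, hp, rfl⟩ := List.mem_map.1 hP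
  have h1 := List.all_eq_true.1 h _ hp
  rw [Bool.and_eq_true, Bool.and_eq_true, Bool.and_eq_true] at h1
  obtain ⟨⟨⟨h1, h2⟩, h3⟩, h4⟩ := h1
  have h1' : l ≤ 10 := ble_le h1
  have h2' : sd ≤ 3 := ble_le h2
  have h4' : xy (4 * l + sd) ≤ 500000000 := ble_le h4
  have hl : ((lab l : Fin 11) : ℕ) = l := by
    unfold lab
    rw [Fin.val_ofNat]
    exact Nat.mod_eq_of_lt (by omega)
  obtain ⟨⟨g1, g2⟩, g3, g4⟩ := hw (lab l)
  rw [hl] at g1 g2 g3 g4
  have hMM : ((MM : ℕ) : ℝ) = 100000000 := by norm_num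
  rw [hMM] at g1 g2 g3 g4
  refine hXY w l sd _ h1' h3 h4' ?_
  have h5 : sd = 0 ∨ sd = 1 ∨ sd = 2 ∨ sd = 3 := by omega
  rcases h5 with rfl | rfl | rfl | rfl
  · exact Or.inl ⟨rfl, g1⟩
  · exact Or.inr (Or.inl ⟨rfl, g2⟩)
  · exact Or.inr (Or.inr (Or.inl ⟨rfl, g3⟩))
  · exact Or.inr (Or.inr (Or.inr ⟨rfl, g4⟩))

/-- a checked piece -/
theorem entGood_run (hR : SpecRun) (hXY : SpecXY) {xy : ℕ → ℕ} {tab : List Ent} {c : Cert}
    {rs : List (ℕ × ℕ)} {e : Ent} (htab : ∀ e' ∈ tab, EntGood xy e')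
    (h : (entOK e && rsOK xy rs && run tab c (envXY xy rs) e.fb e.lo e.hi) = true) :
    EntGood xy e := by
  rw [Bool.and_eq_true, Bool.and_eq_true] at h
  obtain ⟨⟨h1, h2⟩, h3⟩ := h
  intro T L w hL hc hW hxy hin
  exact hR w hW (L = T.L) tab (fun e' he' hin' => htab e' he' T L w hL hc hW hxy hin') c _ _ _ _
    (envXY_ok hXY h2 hxy) hin.2 (boxOK_of_ent h1 hin) h3

theorem zv_three (w : Wd) (l : Fin 11) (r : ℕ) (hr : r < 3) : zv w (3 * l + r) =
    if r = 0 then (MM : ℝ) * w.U (tiltS l) l else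
    if r = 1 then (MM : ℝ) * w.V (tiltS l) l + vb (tiltS l) else
    (MM : ℝ) * (w.t l - base (tiltS l)) + MM := by
  have hl := l.2
  have h1 : (3 * (l : ℕ) + r) / 3 = l := by omega
  have h2 : (3 * (l : ℕ) + r) % 3 = r := by omega
  have h3 : lab (l : ℕ) = l := by
    unfold lab
    ext
    rw [Fin.val_ofNat]
    exact Nat.mod_eq_of_lt hl
  unfold zv
  rw [h1, h2, h3, if_neg (by omega)]

/-- from the entry to the box -/
theorem inUBox_of_ent {w : Wd} {e : Ent} (h : InEnt w e) : InUBox tiltS (eLo e) (eHi e) w := by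
  intro l
  have hl := l.2
  have h0 := h.1 (3 * l) (by omega)
  have h1 := h.1 (3 * l + 1) (by omega)
  have h2 := h.1 (3 * l + 2) (by omega)
  have e0 := zv_three w l 0 (by norm_num)
  have e1 := zv_three w l 1 (by norm_num)
  have e2 := zv_three w l 2 (by norm_num)
  rw [if_pos rfl, add_zero] at e0
  rw [if_neg (by norm_num), if_pos rfl] at e1
  rw [if_neg (by norm_num), if_neg (by norm_num)] at e2
  rw [e0] at h0
  rw [e1] at h1
  rw [e2] at h2
  exact ⟨h0, h1, h2⟩

/-- from the box to the entry -/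
theorem bounds_of_inUBox {w : Wd} {e : Ent} (h : InUBox tiltS (eLo e) (eHi e) w)
    (h0 : eLo e 33 = 1073741824) (h1 : eHi e 33 = 1073741824) :
    ∀ v < 34, (dg 144 e.lo (33 - v) : ℝ) ≤ zv w v ∧ zv w v ≤ (dg 144 e.hi (33 - v) : ℝ) := by
  intro v hv
  by_cases hv3 : v = 33
  · subst hv3
    have e0 : zv w 33 = 1073741824 := by
      unfold zv
      rw [if_pos rfl]
    unfold eLo at h0
    unfold eHi at h1
    rw [e0, h0, h1]
    constructor <;> norm_num
  · obtain ⟨l, r, hr, rfl⟩ : ∃ (l : Fin 11) (r : ℕ), r < 3 ∧ v = 3 * l + r :=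
      ⟨⟨v / 3, by omega⟩, v % 3, by omega, by
        change v = 3 * (v / 3) + v % 3
        omega⟩
    rw [zv_three w l r hr]
    obtain ⟨g0, g1, g2⟩ := h l
    have h5 : r = 0 ∨ r = 1 ∨ r = 2 := by omega
    rcases h5 with rfl | rfl | rfl
    · rw [if_pos rfl]
      exact g0
    · rw [if_neg (by norm_num), if_pos rfl]
      exact g1
    · rw [if_neg (by norm_num), if_neg (by norm_num)]
      exact g2

/-- the exit -/
theorem entGood_exit (hLoc : SpecLocal) {xy : ℕ → ℕ} {e : Ent} (h : exitOK2 tiltS (eLo e) (eHi e) = true) :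
    EntGood xy e :=
  fun _T _L _w hL hc _hW _hxy hin => exit2 hLoc h hL hc (inUBox_of_ent hin)

/-- all facts are possible -/
def fbFull (FB : ℕ) : Bool :=
  (List.range 11).all fun i => (List.range 11).all fun j =>
    !(Nat.blt i j) || Nat.beq (mskK FB i j) 255

theorem fbok_full {w : Wd} (hW : World w) {FB : ℕ} (h : fbFull FB = true) : FBOK w FB := by
  intro i j hi hj
  have h1 := List.all_eq_true.1 (List.all_eq_true.1 h i (List.mem_range.2 (by omega))) j
    (List.mem_range.2 (by omega))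
  have h2 : Nat.blt i j = true := by rw [Nat.blt_eq]; exact hi
  rw [h2, Bool.not_true, Bool.false_or, Nat.beq_eq] at h1
  have hne : lab i ≠ lab j := by
    intro he
    have := congrArg Fin.val he
    unfold lab at this
    rw [Fin.val_ofNat, Fin.val_ofNat, Nat.mod_eq_of_lt (by omega), Nat.mod_eq_of_lt (by omega)]
      at this
    omega
  have hbit : ∀ b < 8, FB.testBit (8 * (16 * i + j) + b) = true := by
    intro b hb
    rw [← RunM.testBit_dg _ _ _ hb, ← RunM.mskK_eq, h1]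
    revert b
    decide
  obtain ⟨κ, hκ, h3 | h3⟩ := hW.sep (lab i) (lab j) hne
  · exact ⟨0, κ, by omega, by omega, hbit _ (by omega), Or.inl ⟨rfl, h3⟩⟩
  · exact ⟨1, κ, by omega, by omega, hbit _ (by omega), Or.inr ⟨rfl, h3⟩⟩

/-- the entry check -/
def startOK (N : Node) (xy : ℕ → ℕ) (e : Ent) : Bool :=
  entryOK2 N tiltS xy (eLo e) (eHi e) && Nat.beq (eLo e 33) 1073741824 &&
    Nat.beq (eHi e 33) 1073741824 && fbFull e.fb

/-- from the entry of FINE to the node -/
theorem goodC_entry {N : Node} {xy : ℕ → ℕ} {e : Ent} (h : startOK N xy e = true)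
    (hg : EntGood xy e) : GoodC N := by
  unfold startOK at h
  rw [Bool.and_eq_true, Bool.and_eq_true, Bool.and_eq_true, Nat.beq_eq, Nat.beq_eq] at h
  obtain ⟨⟨⟨h1, h2⟩, h3⟩, h4⟩ := h
  intro T L q hL hq hN
  obtain ⟨w, hc, hW, hbox, hxy, -⟩ := entry2 h1 hL hq hN
  exact hg T L w hL hc hW hxy ⟨bounds_of_inUBox hbox h2 h3, fbok_full hW h4⟩

/-- the bounds of the coordinates of the centres in the entry node `nd 33` -/
def xy33 (k : ℕ) : ℕ :=
  match (nd 33)[k / 4]? with
  | none => 0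
  | some n => match n.B with
    | [] => 0
    | b :: _ => 1000 * (match k % 4 with
      | 0 => b.x0
      | 1 => b.x1
      | 2 => b.y0
      | _ => b.y1)

end Fine
end Pool.Agent.MP_abb58c_co
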