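import Pool.Agent.Lib.MP_abb58c_co.FineRow3

/-! MP_abb58c_co, FINE: real lemmas for the format v4 -/

namespace Pool.Agent.MP_abb58c_co
namespace Fine

open Real

/-- near-parallel pair in the mean frame, all signs -/
theorem par_mean4 {th δ dx dy Lam D e x : ℝ}
    (h : Alt (th - δ / 2) δ dx dy ∨ Alt (th + δ / 2) δ dx dy)
    (hδ : |δ| ≤ D) (hD : D ≤ 1) (hL : |-sin th * dx + cos th * dy| ≤ Lam)
    (he : |e| ≤ 1) (hx0 : 0 ≤ x) (hx : |e| + Lam / (1 - D ^ 2 / 8) - 1 ≤ x) :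
    1 - δ ^ 2 / 8 + (e * δ / 2 - |e| * D ^ 3 / 48 - x * D / 2) ≤ cos th * dx + sin th * dy := by
  have hD0 : 0 ≤ D := (abs_nonneg _).trans hδ
  have hb := par_basic (k := 1 - Lam / (1 - D ^ 2 / 8)) h hδ hD hL (by linarith)
  have h1 := cos_lower (δ / 2)
  have hs0 : 0 ≤ |sin (δ / 2)| := abs_nonneg _
  have hs1 : |sin (δ / 2)| ≤ D / 2 := by
    refine (abs_sin_le_abs).trans ?_
    rw [abs_div]
    norm_num
    linarith
  have h2 : |sin (δ / 2)| * (|e| - x) ≤ |sin (δ / 2)| * (1 - Lam / (1 - D ^ 2 / 8)) :=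
    mul_le_mul_of_nonneg_left (by linarith) hs0
  have h3 : |sin (δ / 2)| * x ≤ D / 2 * x := mul_le_mul_of_nonneg_right hs1 hx0
  have h4 : e * sin (δ / 2) ≤ |sin (δ / 2)| * |e| := by
    calc e * sin (δ / 2) ≤ |e * sin (δ / 2)| := le_abs_self _
      _ = |sin (δ / 2)| * |e| := by rw [abs_mul, mul_comm]
  have h7 : |δ / 2| ^ 3 / 6 ≤ D ^ 3 / 48 := by
    have h8 := pow_le_pow_left₀ (abs_nonneg δ) hδ 3
    have h9 : |δ / 2| = |δ| / 2 := by rw [abs_div]; norm_num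
    rw [h9, div_pow]
    linarith
  have h5 : |e * (sin (δ / 2) - δ / 2)| ≤ |e| * (D ^ 3 / 48) := by
    rw [abs_mul]
    exact mul_le_mul_of_nonneg_left ((abs_sin_sub (δ / 2)).trans h7) (abs_nonneg _)
  have h6 := (abs_le.1 h5).1
  linarith

/-- R3: near-parallel pair in the mean frame (format v4) -/
theorem rowR4 {dx dy th0 g0 a b ρ n m η A B V W Vm Nhi Lam D e x N Q N' lam μ a0 : ℝ}
    (h : Alt (th0 - g0 / 2 + a) ρ dx dy ∨ Alt (th0 + g0 / 2 + b) ρ dx dy)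
    (hρ : ρ = g0 + b - a ∨ ρ = -(g0 + b - a))
    (ha : |a| ≤ A) (hb : |b| ≤ B) (hD : D = |g0| + A + B) (hD1 : D ≤ 1)
    (hn : |cos th0 * dx + sin th0 * dy - n| ≤ η) (hm : |-sin th0 * dx + cos th0 * dy - m| ≤ η)
    (hn0 : 0 ≤ n) (hNhi : n ≤ Nhi)
    (hN : N ≤ n ∨ N ≤ 1 - D ^ 2 / 8 - x * D / 2 - (A + B) / 2 * Vm - 2 * η)
    (hV : |m - V| ≤ W)
    (hVm : |m| ≤ Vm) (hLam : Vm + (A + B) / 2 * Nhi + 2 * η ≤ Lam)
    (he : |e| ≤ 1) (hx0 : 0 ≤ x) (hx : |e| + Lam / (1 - D ^ 2 / 8) - 1 ≤ x)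
    (hl : |lam| ≤ 1) (hμ : |μ| ≤ 1)
    (hQ : (1 ≤ N ∧ N' = N ∧ Q = (N - 1) / 2 * (a0 ^ 2 - 2 * a0 * ((a + b) / 2))) ∨
      (N ≤ 1 ∧ N' = 1 ∧ Q = (1 - N) / 2 * ((A + B) / 2) ^ 2)) :
    0 ≤ n + (a + b) / 2 * V + (A + B) / 2 * W +
      lam * ((a + b) / 2 * W - (A + B) / 2 * (m - V)) - 1 +
      g0 ^ 2 / 8 + g0 * (b - a) / 4 + A * B / 2 + μ * (A * b + B * a) / 2 + Q -
      e * (g0 + b - a) / 2 + |e| * D ^ 3 / 48 + x * D / 2 +
      ((A + B) / 2) ^ 3 / 6 * (|V| + W) + N' * ((A + B) / 2) ^ 4 / 24 + 2 * η := by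
  have hA0 : 0 ≤ A := (abs_nonneg a).trans ha
  have hB0 : 0 ≤ B := (abs_nonneg b).trans hb
  obtain ⟨δ, hδd⟩ : ∃ δ, δ = g0 + b - a := ⟨_, rfl⟩
  obtain ⟨th, hth⟩ : ∃ th, th = th0 + (a + b) / 2 := ⟨_, rfl⟩
  have e1 : th - δ / 2 = th0 - g0 / 2 + a := by rw [hth, hδd]; ring
  have e2 : th + δ / 2 = th0 + g0 / 2 + b := by rw [hth, hδd]; ring
  have h' : Alt (th - δ / 2) δ dx dy ∨ Alt (th + δ / 2) δ dx dy := by
    rw [e1, e2]
    rcases hρ with hρ | hρ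
    · rw [hρ, ← hδd] at h
      exact h
    · rw [hρ, ← hδd] at h
      exact h.imp Alt.neg Alt.neg
  have hδD : |δ| ≤ D := by
    rw [hδd, hD]
    calc |g0 + b - a| ≤ |g0 + b| + |a| := abs_sub _ _
      _ ≤ |g0| + |b| + |a| := by linarith [abs_add_le g0 b]
      _ ≤ |g0| + A + B := by linarith
  have hD0 : 0 ≤ D := (abs_nonneg _).trans hδD
  have hz : |(a + b) / 2| ≤ (A + B) / 2 := by
    rw [abs_div]
    have := abs_add_le a b
    norm_num
    linarith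
  have hZ1 : (A + B) / 2 ≤ 1 := by
    have := abs_nonneg g0
    linarith
  have hnm : |n| ≤ Nhi := by
    rw [abs_of_nonneg hn0]
    exact hNhi
  have hL : |-sin th * dx + cos th * dy| ≤ Lam := by
    rw [hth]
    exact (lat_le hn hm hz hnm hVm).trans hLam
  have hp := par_mean4 h' hδD hD1 hL he hx0 hx
  -- lower bound for `n`
  have hNn : N ≤ n := by
    rcases hN with hN | hN
    · exact hN
    · have hx' : |(0 : ℝ)| + Lam / (1 - D ^ 2 / 8) - 1 ≤ x := by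
        rw [abs_zero]
        have := abs_nonneg e
        linarith
      have hp0 := par_mean4 (e := 0) h' hδD hD1 hL (by simp) hx0 hx'
      have hδ2 : δ ^ 2 ≤ D ^ 2 := by
        have := pow_le_pow_left₀ (abs_nonneg δ) hδD 2
        rwa [sq_abs] at this
      have hcomp := comp_le (a := (a + b) / 2) hn hm
      have hsm : sin ((a + b) / 2) * m ≤ (A + B) / 2 * Vm := by
        calc sin ((a + b) / 2) * m ≤ |sin ((a + b) / 2) * m| := le_abs_self _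
          _ = |sin ((a + b) / 2)| * |m| := abs_mul _ _
          _ ≤ (A + B) / 2 * Vm := mul_le_mul ((abs_sin_le_abs).trans hz) hVm (abs_nonneg _)
              ((abs_nonneg _).trans hz)
      have hcn : cos ((a + b) / 2) * n ≤ 1 * n :=
        mul_le_mul_of_nonneg_right (cos_le_one _) hn0
      rw [abs_zero, hth] at hp0
      linarith
  have hyp : 1 - (g0 + (b - a)) ^ 2 / 8 + (e * δ / 2 - |e| * D ^ 3 / 48 - x * D / 2) ≤
      cos (th0 + (a + b) / 2) * dx + sin (th0 + (a + b) / 2) * dy := by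
    rw [← hth, show g0 + (b - a) = δ by rw [hδd]; ring]
    exact hp
  rcases hQ with ⟨hN2, hN', hQ⟩ | ⟨hN2, hN', hQ⟩
  · have hr := row3 (ν1 := N - 1) (ν2 := 0) (a0 := a0) hyp ha hb hn hm (by linarith) le_rfl
      (by linarith) hV hl hμ
    rw [hQ, hN']
    rw [hδd] at hr
    linarith
  · have hr := row3 (ν1 := 0) (ν2 := 1 - N) (a0 := 0) hyp ha hb hn hm le_rfl (by linarith)
      (by linarith) hV hl hμ
    rw [hQ, hN']
    rw [hδd] at hr
    linarith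

end Fine
end Pool.Agent.MP_abb58c_co
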