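import Pool.Agent.Lib.MP_abb58c_co.FineTrig
import Pool.Agent.Lib.MP_abb58c_co.Basic

/-! MP_abb58c_co, FINE: the row lemma (linear inequality implied by a separation alternative of two
squares), the wall row. All parameters are real numbers; the integer checker verifies the
hypotheses. See `/team-store/MP_abb58c_FINE_FORMAT.md`. -/

namespace Pool.Agent.MP_abb58c_co
namespace Fine

open Real

/-- half width of a square whose direction makes the angle `ρ` with the axis -/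
noncomputable def hh (ρ : ℝ) : ℝ := (|cos ρ| + |sin ρ|) / 2

/-- separation alternative: `th` angle of the separating direction (from the first square to the
second one), `ρ` relative angle of the two squares, `(dx,dy)` displacement of the centres -/
def Alt (th ρ dx dy : ℝ) : Prop := 1 / 2 + hh ρ ≤ cos th * dx + sin th * dy

/-- hypothesis of the row lemma (`g`: an extra constant, usually `0`) -/
def Hyp (g e1 e2 th ρ dx dy : ℝ) : Prop :=
  1 / 2 + (e1 * cos ρ + e2 * sin ρ) / 2 ≤ cos th * dx + sin th * dy + g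

theorem le_abs_mul {e x : ℝ} (he : |e| ≤ 1) : e * x ≤ |x| := by
  calc e * x ≤ |e * x| := le_abs_self _
    _ = |e| * |x| := abs_mul _ _
    _ ≤ 1 * |x| := mul_le_mul_of_nonneg_right he (abs_nonneg x)
    _ = |x| := one_mul _

theorem le_hh {e1 e2 : ℝ} (he1 : |e1| ≤ 1) (he2 : |e2| ≤ 1) (ρ : ℝ) :
    (e1 * cos ρ + e2 * sin ρ) / 2 ≤ hh ρ := by
  have h1 := le_abs_mul (x := cos ρ) he1
  have h2 := le_abs_mul (x := sin ρ) he2
  unfold hh
  linarith

theorem hh_ge_half (ρ : ℝ) : 1 / 2 ≤ hh ρ := by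
  have h1 := abs_nonneg (cos ρ)
  have h2 := abs_nonneg (sin ρ)
  have h3 : |cos ρ| ≤ 1 := abs_cos_le_one ρ
  have h4 : |sin ρ| ≤ 1 := abs_sin_le_one ρ
  have h5 : |cos ρ| ^ 2 + |sin ρ| ^ 2 = 1 := by
    rw [sq_abs, sq_abs]
    linarith [sin_sq_add_cos_sq ρ]
  unfold hh
  nlinarith

/-- linear functions of the linearisation errors -/
theorem comb_le {e1 e2 x y ε : ℝ} (he1 : |e1| ≤ 1) (he2 : |e2| ≤ 1) (hx : |x| ≤ ε) (hy : |y| ≤ ε) :
    |e1 * x + e2 * y| ≤ 2 * ε := by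
  have h1 : |e1 * x| ≤ ε := by
    rw [abs_mul]
    calc |e1| * |x| ≤ 1 * |x| := mul_le_mul_of_nonneg_right he1 (abs_nonneg x)
      _ ≤ ε := by rw [one_mul]; exact hx
  have h2 : |e2 * y| ≤ ε := by
    rw [abs_mul]
    calc |e2| * |y| ≤ 1 * |y| := mul_le_mul_of_nonneg_right he2 (abs_nonneg y)
      _ ≤ ε := by rw [one_mul]; exact hy
  calc |e1 * x + e2 * y| ≤ |e1 * x| + |e2 * y| := abs_add_le _ _
    _ ≤ 2 * ε := by linarith

/-- McCormick bound of a product, with parameter `lam` -/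
theorem mccormick {a A w W lam : ℝ} (ha : |a| ≤ A) (hw : |w| ≤ W) (hl : |lam| ≤ 1) :
    a * w ≤ A * W + lam * (a * W - A * w) := by
  obtain ⟨ha1, ha2⟩ := abs_le.1 ha
  obtain ⟨hw1, hw2⟩ := abs_le.1 hw
  obtain ⟨hl1, hl2⟩ := abs_le.1 hl
  have h1 : 0 ≤ (A + a) * (W - w) := mul_nonneg (by linarith) (by linarith)
  have h2 : 0 ≤ (A - a) * (W + w) := mul_nonneg (by linarith) (by linarith)
  have h3 : 0 ≤ (1 + lam) * ((A + a) * (W - w)) := mul_nonneg (by linarith) h1
  have h4 : 0 ≤ (1 - lam) * ((A - a) * (W + w)) := mul_nonneg (by linarith) h2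
  nlinarith

/-- ROW LEMMA. `n = p dx + q dy`, `m = -q dx + p dy`; `(p,q)` approximates `(cos th0, sin th0)`,
`(c0,s0)` approximates `(cos r0, sin r0)`; `a`, `ap` are the deviations of the angles of the owner
and of the other square. -/
theorem row {dx dy th0 r0 a ap g e1 e2 p q c0 s0 ε A Ap N V W G0 G1 W' lam a0 Dd : ℝ}
    (hyp : Hyp g e1 e2 (th0 + a) (r0 + (ap - a)) dx dy)
    (he1 : |e1| ≤ 1) (he2 : |e2| ≤ 1)
    (ha : |a| ≤ A) (hap : |ap| ≤ Ap)
    (hp : |cos th0 - p| ≤ ε) (hq : |sin th0 - q| ≤ ε)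
    (hc : |cos r0 - c0| ≤ ε) (hs : |sin r0 - s0| ≤ ε)
    (hN : N ≤ p * dx + q * dy) (hV : |(-q * dx + p * dy) - V| ≤ W)
    (hDx : |dx| + |dy| ≤ Dd)
    (hG0 : G0 = (e1 * c0 + e2 * s0) / 2) (hG1 : G1 = (-e1 * s0 + e2 * c0) / 2)
    (hG0' : 0 ≤ G0) (hNG : G0 ≤ N) (hW' : W' = W + G0 * Ap) (hl : |lam| ≤ 1) :
    0 ≤ (p * dx + q * dy) + a * V - 1 / 2 - G0 - G1 * (ap - a) + A * W' +
      lam * (a * W' - A * ((-q * dx + p * dy) - V - G0 * ap)) +
      (N - G0) / 2 * (a0 ^ 2 - 2 * a0 * a) + G0 / 2 * Ap ^ 2 +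
      (A ^ 3 / 6 * (|V| + W) + N * A ^ 4 / 24 + |G1| * (A + Ap) ^ 3 / 6 +
        2 * ε * Dd + 2 * ε + g) := by
  obtain ⟨n, hn⟩ : ∃ n, n = p * dx + q * dy := ⟨_, rfl⟩
  obtain ⟨m, hm⟩ : ∃ m, m = -q * dx + p * dy := ⟨_, rfl⟩
  rw [← hn] at hN ⊢
  rw [← hm] at hV ⊢
  have hA0 : 0 ≤ A := (abs_nonneg a).trans ha
  have hAp0 : 0 ≤ Ap := (abs_nonneg ap).trans hap
  have hε0 : 0 ≤ ε := (abs_nonneg _).trans hp
  have hN0 : 0 ≤ N := hG0'.trans hNG
  have hW0 : 0 ≤ W := (abs_nonneg _).trans hV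
  unfold Hyp at hyp
  rw [cos_add th0 a, sin_add th0 a, cos_add r0, sin_add r0] at hyp
  set b := ap - a with hb
  -- errors of the directions
  have hdx : |cos a * ((cos th0 - p) * dx + (sin th0 - q) * dy)| ≤ ε * Dd := by
    rw [abs_mul]
    have h1 : |(cos th0 - p) * dx + (sin th0 - q) * dy| ≤ ε * Dd := by
      calc |(cos th0 - p) * dx + (sin th0 - q) * dy| ≤ |(cos th0 - p) * dx| + |(sin th0 - q) * dy| :=
            abs_add_le _ _
        _ = |cos th0 - p| * |dx| + |sin th0 - q| * |dy| := by rw [abs_mul, abs_mul]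
        _ ≤ ε * |dx| + ε * |dy| := add_le_add (mul_le_mul_of_nonneg_right hp (abs_nonneg _))
            (mul_le_mul_of_nonneg_right hq (abs_nonneg _))
        _ = ε * (|dx| + |dy|) := by ring
        _ ≤ ε * Dd := mul_le_mul_of_nonneg_left hDx hε0
    calc |cos a| * |(cos th0 - p) * dx + (sin th0 - q) * dy| ≤ 1 * (ε * Dd) :=
          mul_le_mul (abs_cos_le_one a) h1 (abs_nonneg _) zero_le_one
      _ = ε * Dd := one_mul _
  have hdy : |sin a * (-(sin th0 - q) * dx + (cos th0 - p) * dy)| ≤ ε * Dd := by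
    rw [abs_mul]
    have h1 : |-(sin th0 - q) * dx + (cos th0 - p) * dy| ≤ ε * Dd := by
      calc |-(sin th0 - q) * dx + (cos th0 - p) * dy| ≤
            |-(sin th0 - q) * dx| + |(cos th0 - p) * dy| := abs_add_le _ _
        _ = |sin th0 - q| * |dx| + |cos th0 - p| * |dy| := by rw [abs_mul, abs_mul, abs_neg]
        _ ≤ ε * |dx| + ε * |dy| := add_le_add (mul_le_mul_of_nonneg_right hq (abs_nonneg _))
            (mul_le_mul_of_nonneg_right hp (abs_nonneg _))
        _ = ε * (|dx| + |dy|) := by ring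
        _ ≤ ε * Dd := mul_le_mul_of_nonneg_left hDx hε0
    calc |sin a| * |-(sin th0 - q) * dx + (cos th0 - p) * dy| ≤ 1 * (ε * Dd) :=
          mul_le_mul (abs_sin_le_one a) h1 (abs_nonneg _) zero_le_one
      _ = ε * Dd := one_mul _
  -- errors of the relative direction
  have hr1 : |cos b * (e1 * (cos r0 - c0) + e2 * (sin r0 - s0))| ≤ 2 * ε := by
    rw [abs_mul]
    calc |cos b| * |e1 * (cos r0 - c0) + e2 * (sin r0 - s0)| ≤ 1 * (2 * ε) :=
          mul_le_mul (abs_cos_le_one b) (comb_le he1 he2 hc hs) (abs_nonneg _) zero_le_one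
      _ = 2 * ε := one_mul _
  have hr2 : |sin b * (-e1 * (sin r0 - s0) + e2 * (cos r0 - c0))| ≤ 2 * ε := by
    rw [abs_mul]
    calc |sin b| * |-e1 * (sin r0 - s0) + e2 * (cos r0 - c0)| ≤ 1 * (2 * ε) :=
          mul_le_mul (abs_sin_le_one b) (comb_le (by rwa [abs_neg]) he2 hs hc) (abs_nonneg _)
            zero_le_one
      _ = 2 * ε := one_mul _
  obtain ⟨-, hdx⟩ := abs_le.1 hdx
  obtain ⟨-, hdy⟩ := abs_le.1 hdy
  obtain ⟨hr1, -⟩ := abs_le.1 hr1
  obtain ⟨hr2, -⟩ := abs_le.1 hr2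
  -- the inequality in terms of n, m, G0, G1
  have key : 1 / 2 + cos b * G0 + sin b * G1 ≤
      cos a * n + sin a * m + 2 * ε * Dd + 2 * ε + g := by
    have e : cos b * G0 + sin b * G1 =
        (e1 * (cos r0 * cos b - sin r0 * sin b) + e2 * (sin r0 * cos b + cos r0 * sin b)) / 2 -
        cos b * (e1 * (cos r0 - c0) + e2 * (sin r0 - s0)) / 2 -
        sin b * (-e1 * (sin r0 - s0) + e2 * (cos r0 - c0)) / 2 := by
      rw [hG0, hG1]; ring
    have e' : cos a * n + sin a * m =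
        (cos th0 * cos a - sin th0 * sin a) * dx + (sin th0 * cos a + cos th0 * sin a) * dy -
        cos a * ((cos th0 - p) * dx + (sin th0 - q) * dy) -
        sin a * (-(sin th0 - q) * dx + (cos th0 - p) * dy) := by
      rw [hn, hm]; ring
    linarith
  -- one variable estimates
  have hca : cos a * n ≤ n - N * (a ^ 2 / 2 - a ^ 4 / 24) := by
    have h1 := cos_upper a
    have h2 := cos_le_one a
    have h3 := mul_nonneg (sub_nonneg.2 h2) (sub_nonneg.2 hN)
    have h4 := mul_nonneg hN0 (sub_nonneg.2 h1)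
    linarith
  have hm' : |m| ≤ |V| + W := by
    calc |m| = |V + (m - V)| := by congr 1; ring
      _ ≤ |V| + |m - V| := abs_add_le _ _
      _ ≤ |V| + W := by linarith
  have hA3 : |a| ^ 3 / 6 ≤ A ^ 3 / 6 := by
    have := pow_le_pow_left₀ (abs_nonneg a) ha 3
    linarith
  have hsa : sin a * m ≤ a * m + A ^ 3 / 6 * (|V| + W) := by
    have h1 : |(sin a - a) * m| ≤ A ^ 3 / 6 * (|V| + W) := by
      rw [abs_mul]
      exact mul_le_mul ((abs_sin_sub a).trans hA3) hm' (abs_nonneg _) (by positivity)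
    have h2 := (abs_le.1 h1).2
    linarith
  have hcb : G0 - G0 * (b ^ 2 / 2) ≤ cos b * G0 := by
    have h1 := mul_nonneg hG0' (sub_nonneg.2 (cos_lower b))
    linarith
  have hbA : |b| ≤ A + Ap := by
    rw [hb]
    calc |ap - a| ≤ |ap| + |a| := abs_sub _ _
      _ ≤ A + Ap := by linarith
  have hb3 : |b| ^ 3 / 6 ≤ (A + Ap) ^ 3 / 6 := by
    have := pow_le_pow_left₀ (abs_nonneg b) hbA 3
    linarith
  have hsb : G1 * b - |G1| * (A + Ap) ^ 3 / 6 ≤ sin b * G1 := by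
    have h1 : |(sin b - b) * G1| ≤ (A + Ap) ^ 3 / 6 * |G1| := by
      rw [abs_mul]
      exact mul_le_mul_of_nonneg_right ((abs_sin_sub b).trans hb3) (abs_nonneg _)
    have h2 := (abs_le.1 h1).1
    linarith
  have ha4 : N * (a ^ 4 / 24) ≤ N * A ^ 4 / 24 := by
    have h1 : a ^ 4 ≤ A ^ 4 := by
      have := pow_le_pow_left₀ (abs_nonneg a) ha 4
      have e4 : |a| ^ 4 = a ^ 4 := by
        rw [← abs_pow]; exact abs_of_nonneg (by positivity)
      rwa [e4] at this
    have h2 := mul_nonneg hN0 (sub_nonneg.2 h1)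
    linarith
  -- quadratic part
  have hw' : |(m - V) - G0 * ap| ≤ W' := by
    rw [hW']
    calc |(m - V) - G0 * ap| ≤ |m - V| + |G0 * ap| := abs_sub _ _
      _ ≤ W + G0 * Ap := by
        rw [abs_mul, abs_of_nonneg hG0']
        exact add_le_add hV (mul_le_mul_of_nonneg_left hap hG0')
  have hmc := mccormick ha hw' hl
  have hAp2 : G0 * (ap ^ 2 / 2) ≤ G0 / 2 * Ap ^ 2 := by
    have h1 : ap ^ 2 ≤ Ap ^ 2 := by
      have := pow_le_pow_left₀ (abs_nonneg ap) hap 2
      rwa [sq_abs] at this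
    have h2 := mul_nonneg hG0' (sub_nonneg.2 h1)
    linarith
  have htan : -((N - G0) / 2 * a ^ 2) ≤ (N - G0) / 2 * (a0 ^ 2 - 2 * a0 * a) := by
    have h1 : 0 ≤ (N - G0) / 2 := by linarith
    have h2 := mul_nonneg h1 (sq_nonneg (a - a0))
    linarith
  have hbsq : b ^ 2 = ap ^ 2 - 2 * a * ap + a ^ 2 := by rw [hb]; ring
  rw [hbsq] at hcb
  have e5 : G1 * b = G1 * (ap - a) := rfl
  linarith

/-- an alternative gives the hypothesis of the row lemma -/
theorem Alt.hyp {th ρ dx dy g e1 e2 : ℝ} (h : Alt th ρ dx dy) (he1 : |e1| ≤ 1) (he2 : |e2| ≤ 1)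
    (hg : 0 ≤ g) : Hyp g e1 e2 th ρ dx dy := by
  have := le_hh he1 he2 ρ
  unfold Alt at h
  unfold Hyp
  linarith

/-- near-parallel pair: separation in the frame of the owner or in the frame of the other square,
lateral displacement at most `ell ≤ 1/2` in the frame of the owner -/
theorem hyp_of_par {th ρ dx dy e1 e2 ell : ℝ} (h : Alt th ρ dx dy ∨ Alt (th + ρ) ρ dx dy)
    (hρ : 0 < cos ρ) (hell : |-sin th * dx + cos th * dy| ≤ ell)
    (he1 : |e1| ≤ 1) (he2 : |e2| ≤ 1 - 2 * ell) : Hyp 0 e1 e2 th ρ dx dy := by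
  have hell0 : 0 ≤ ell := (abs_nonneg _).trans hell
  rcases h with h | h
  · exact h.hyp he1 (he2.trans (by linarith)) le_rfl
  · have h12 : 0 ≤ 1 - 2 * ell := (abs_nonneg _).trans he2
    have hc1 : cos ρ ≤ 1 := cos_le_one ρ
    obtain ⟨n, hn⟩ : ∃ n, n = cos th * dx + sin th * dy := ⟨_, rfl⟩
    obtain ⟨m, hm⟩ : ∃ m, m = -sin th * dx + cos th * dy := ⟨_, rfl⟩
    rw [← hm] at hell
    unfold Alt at h
    unfold Hyp
    rw [← hn]
    have e : cos (th + ρ) * dx + sin (th + ρ) * dy = cos ρ * n + sin ρ * m := by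
      rw [cos_add, sin_add, hn, hm]; ring
    rw [e] at h
    unfold hh at h
    rw [abs_of_pos hρ] at h
    have h1 : sin ρ * m ≤ |sin ρ| * ell := by
      calc sin ρ * m ≤ |sin ρ * m| := le_abs_self _
        _ = |sin ρ| * |m| := abs_mul _ _
        _ ≤ |sin ρ| * ell := mul_le_mul_of_nonneg_left hell (abs_nonneg _)
    have h2 : e2 * sin ρ ≤ (1 - 2 * ell) * |sin ρ| := by
      calc e2 * sin ρ ≤ |e2 * sin ρ| := le_abs_self _
        _ = |e2| * |sin ρ| := abs_mul _ _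
        _ ≤ (1 - 2 * ell) * |sin ρ| := mul_le_mul_of_nonneg_right he2 (abs_nonneg _)
    have h3 : e1 * cos ρ ≤ cos ρ := by
      have := le_abs_mul (x := cos ρ) he1
      rwa [abs_of_pos hρ] at this
    have h4 : 0 ≤ (1 - 2 * ell) * |sin ρ| := mul_nonneg h12 (abs_nonneg _)
    -- cos ρ * n ≥ 1/2 + cos ρ / 2 + (1 - 2 ell)|sin ρ| / 2 =: K ≥ 0, hence n ≥ K
    have h5 : 1 / 2 + cos ρ / 2 + (1 - 2 * ell) * |sin ρ| / 2 ≤ cos ρ * n := by linarith
    have h6 : cos ρ * n ≤ n := by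
      have hn0 : 0 ≤ n := by
        by_contra hneg
        push Not at hneg
        have := mul_neg_of_pos_of_neg hρ hneg
        linarith
      nlinarith
    linarith

/-- near-parallel pair, general lateral displacement: `e2 = 0` and an extra constant `g` -/
theorem hyp_of_par' {th ρ dx dy e1 ell g sm : ℝ} (h : Alt th ρ dx dy ∨ Alt (th + ρ) ρ dx dy)
    (hρ : 0 < cos ρ) (hell : |-sin th * dx + cos th * dy| ≤ ell) (hs : |sin ρ| ≤ sm)
    (he1 : |e1| ≤ 1) (hg0 : 0 ≤ g) (hg : (2 * ell - 1) / 2 * sm ≤ g) (hg1 : g ≤ 1 / 2)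
    (hell1 : 1 / 2 ≤ ell) : Hyp g e1 0 th ρ dx dy := by
  rcases h with h | h
  · exact h.hyp he1 (by norm_num) hg0
  · have hc1 : cos ρ ≤ 1 := cos_le_one ρ
    obtain ⟨n, hn⟩ : ∃ n, n = cos th * dx + sin th * dy := ⟨_, rfl⟩
    obtain ⟨m, hm⟩ : ∃ m, m = -sin th * dx + cos th * dy := ⟨_, rfl⟩
    rw [← hm] at hell
    unfold Alt at h
    unfold Hyp
    rw [← hn]
    have e : cos (th + ρ) * dx + sin (th + ρ) * dy = cos ρ * n + sin ρ * m := by
      rw [cos_add, sin_add, hn, hm]; ring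
    rw [e] at h
    unfold hh at h
    rw [abs_of_pos hρ] at h
    have h1 : sin ρ * m ≤ |sin ρ| * ell := by
      calc sin ρ * m ≤ |sin ρ * m| := le_abs_self _
        _ = |sin ρ| * |m| := abs_mul _ _
        _ ≤ |sin ρ| * ell := mul_le_mul_of_nonneg_left hell (abs_nonneg _)
    have h2 : (2 * ell - 1) / 2 * |sin ρ| ≤ g :=
      (mul_le_mul_of_nonneg_left hs (by linarith)).trans hg
    have h3 : e1 * cos ρ ≤ cos ρ := by
      have := le_abs_mul (x := cos ρ) he1
      rwa [abs_of_pos hρ] at this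
    have h5 : 1 / 2 + cos ρ / 2 - g ≤ cos ρ * n := by linarith
    have h6 : cos ρ * n ≤ n := by
      have hn0 : 0 ≤ n := by
        by_contra hneg
        push Not at hneg
        have := mul_neg_of_pos_of_neg hρ hneg
        linarith
      nlinarith
    linarith

/-- exclusion of an alternative by a box -/
theorem Alt.excl {th0 a ρ dx dy p q ε A Nhi Vm Dd : ℝ} (h : Alt (th0 + a) ρ dx dy)
    (ha : |a| ≤ A) (hA1 : A ≤ 1) (hp : |cos th0 - p| ≤ ε) (hq : |sin th0 - q| ≤ ε)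
    (hN : p * dx + q * dy ≤ Nhi) (hNhi : 0 ≤ Nhi) (hV : |-q * dx + p * dy| ≤ Vm)
    (hDx : |dx| + |dy| ≤ Dd) : 1 / 2 + hh ρ ≤ Nhi + A * Vm + 2 * ε * Dd := by
  have hA0 : 0 ≤ A := (abs_nonneg a).trans ha
  have hε0 : 0 ≤ ε := (abs_nonneg _).trans hp
  unfold Alt at h
  rw [cos_add th0 a, sin_add th0 a] at h
  have hdx : cos a * ((cos th0 - p) * dx + (sin th0 - q) * dy) ≤ ε * Dd := by
    refine (le_abs_self _).trans ?_
    rw [abs_mul]
    have h1 : |(cos th0 - p) * dx + (sin th0 - q) * dy| ≤ ε * Dd := by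
      calc |(cos th0 - p) * dx + (sin th0 - q) * dy| ≤ |(cos th0 - p) * dx| + |(sin th0 - q) * dy| :=
            abs_add_le _ _
        _ = |cos th0 - p| * |dx| + |sin th0 - q| * |dy| := by rw [abs_mul, abs_mul]
        _ ≤ ε * |dx| + ε * |dy| := add_le_add (mul_le_mul_of_nonneg_right hp (abs_nonneg _))
            (mul_le_mul_of_nonneg_right hq (abs_nonneg _))
        _ = ε * (|dx| + |dy|) := by ring
        _ ≤ ε * Dd := mul_le_mul_of_nonneg_left hDx hε0
    calc |cos a| * |(cos th0 - p) * dx + (sin th0 - q) * dy| ≤ 1 * (ε * Dd) :=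
          mul_le_mul (abs_cos_le_one a) h1 (abs_nonneg _) zero_le_one
      _ = ε * Dd := one_mul _
  have hdy : sin a * (-(sin th0 - q) * dx + (cos th0 - p) * dy) ≤ ε * Dd := by
    refine (le_abs_self _).trans ?_
    rw [abs_mul]
    have h1 : |-(sin th0 - q) * dx + (cos th0 - p) * dy| ≤ ε * Dd := by
      calc |-(sin th0 - q) * dx + (cos th0 - p) * dy| ≤
            |-(sin th0 - q) * dx| + |(cos th0 - p) * dy| := abs_add_le _ _
        _ = |sin th0 - q| * |dx| + |cos th0 - p| * |dy| := by rw [abs_mul, abs_mul, abs_neg]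
        _ ≤ ε * |dx| + ε * |dy| := add_le_add (mul_le_mul_of_nonneg_right hq (abs_nonneg _))
            (mul_le_mul_of_nonneg_right hp (abs_nonneg _))
        _ = ε * (|dx| + |dy|) := by ring
        _ ≤ ε * Dd := mul_le_mul_of_nonneg_left hDx hε0
    calc |sin a| * |-(sin th0 - q) * dx + (cos th0 - p) * dy| ≤ 1 * (ε * Dd) :=
          mul_le_mul (abs_sin_le_one a) h1 (abs_nonneg _) zero_le_one
      _ = ε * Dd := one_mul _
  obtain ⟨n, hn⟩ : ∃ n, n = p * dx + q * dy := ⟨_, rfl⟩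
  obtain ⟨m, hm⟩ : ∃ m, m = -q * dx + p * dy := ⟨_, rfl⟩
  rw [← hn] at hN
  rw [← hm] at hV
  have e' : (cos th0 * cos a - sin th0 * sin a) * dx + (sin th0 * cos a + cos th0 * sin a) * dy =
      cos a * n + sin a * m + cos a * ((cos th0 - p) * dx + (sin th0 - q) * dy) +
      sin a * (-(sin th0 - q) * dx + (cos th0 - p) * dy) := by
    rw [hn, hm]; ring
  rw [e'] at h
  have hca : 0 ≤ cos a := by
    have h1 := cos_lower a
    have h2 : a ^ 2 ≤ 1 := by
      rw [← sq_abs]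
      exact pow_le_one₀ (abs_nonneg a) (ha.trans hA1)
    linarith
  have h1 : cos a * n ≤ Nhi := by
    rcases le_total 0 n with h0 | h0
    · calc cos a * n ≤ 1 * n := mul_le_mul_of_nonneg_right (cos_le_one a) h0
        _ ≤ Nhi := by linarith
    · have := mul_nonpos_of_nonneg_of_nonpos hca h0
      linarith
  have h2 : sin a * m ≤ A * Vm := by
    calc sin a * m ≤ |sin a * m| := le_abs_self _
      _ = |sin a| * |m| := abs_mul _ _
      _ ≤ A * Vm := mul_le_mul ((abs_sin_le_abs).trans ha) hV (abs_nonneg _) hA0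
  linarith

/-- exclusion of an alternative by a box, simple form -/
theorem Alt.excl' {th0 a ρ dx dy p q ε A Nhi Vm Dd : ℝ} (h : Alt (th0 + a) ρ dx dy)
    (ha : |a| ≤ A) (hA1 : A ≤ 1) (hp : |cos th0 - p| ≤ ε) (hq : |sin th0 - q| ≤ ε)
    (hN : p * dx + q * dy ≤ Nhi) (hNhi : 0 ≤ Nhi) (hV : |-q * dx + p * dy| ≤ Vm)
    (hDx : |dx| + |dy| ≤ Dd) : 1 ≤ Nhi + A * Vm + 2 * ε * Dd := by
  have h1 := h.excl ha hA1 hp hq hN hNhi hV hDx
  have h2 := hh_ge_half ρ
  linarith

/-- lower bound for the half width of a square with angle `th0 + a` -/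
theorem wall {th0 a e1 e2 p q ε A H0 H1 : ℝ} (he1 : |e1| ≤ 1) (he2 : |e2| ≤ 1)
    (ha : |a| ≤ A) (hp : |cos th0 - p| ≤ ε) (hq : |sin th0 - q| ≤ ε)
    (hH0 : H0 = (e1 * p + e2 * q) / 2) (hH1 : H1 = (-e1 * q + e2 * p) / 2) (h0 : 0 ≤ H0) :
    H0 * (1 - A ^ 2 / 2) + H1 * a - |H1| * A ^ 3 / 6 - 2 * ε ≤ hh (th0 + a) := by
  refine le_trans ?_ (le_hh he1 he2 (th0 + a))
  rw [cos_add, sin_add]
  have hr1 : |cos a * (e1 * (cos th0 - p) + e2 * (sin th0 - q))| ≤ 2 * ε := by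
    rw [abs_mul]
    calc |cos a| * |e1 * (cos th0 - p) + e2 * (sin th0 - q)| ≤ 1 * (2 * ε) :=
          mul_le_mul (abs_cos_le_one a) (comb_le he1 he2 hp hq) (abs_nonneg _) zero_le_one
      _ = 2 * ε := one_mul _
  have hr2 : |sin a * (-e1 * (sin th0 - q) + e2 * (cos th0 - p))| ≤ 2 * ε := by
    rw [abs_mul]
    calc |sin a| * |-e1 * (sin th0 - q) + e2 * (cos th0 - p)| ≤ 1 * (2 * ε) :=
          mul_le_mul (abs_sin_le_one a) (comb_le (by rwa [abs_neg]) he2 hq hp) (abs_nonneg _)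
            zero_le_one
      _ = 2 * ε := one_mul _
  obtain ⟨hr1, -⟩ := abs_le.1 hr1
  obtain ⟨hr2, -⟩ := abs_le.1 hr2
  have e : (e1 * (cos th0 * cos a - sin th0 * sin a) +
      e2 * (sin th0 * cos a + cos th0 * sin a)) / 2 = cos a * H0 + sin a * H1 +
      cos a * (e1 * (cos th0 - p) + e2 * (sin th0 - q)) / 2 +
      sin a * (-e1 * (sin th0 - q) + e2 * (cos th0 - p)) / 2 := by
    rw [hH0, hH1]; ring
  rw [e]
  have h1 : H0 * (1 - A ^ 2 / 2) ≤ cos a * H0 := by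
    have h2 := cos_lower a
    have h3 : a ^ 2 ≤ A ^ 2 := by
      have := pow_le_pow_left₀ (abs_nonneg a) ha 2
      rwa [sq_abs] at this
    have h4 := mul_nonneg h0 (sub_nonneg.2 h2)
    have h5 := mul_nonneg h0 (sub_nonneg.2 h3)
    linarith
  have h2 : H1 * a - |H1| * A ^ 3 / 6 ≤ sin a * H1 := by
    have hA3 : |a| ^ 3 / 6 ≤ A ^ 3 / 6 := by
      have := pow_le_pow_left₀ (abs_nonneg a) ha 3
      linarith
    have h3 : |(sin a - a) * H1| ≤ A ^ 3 / 6 * |H1| := by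
      rw [abs_mul]
      exact mul_le_mul_of_nonneg_right ((abs_sin_sub a).trans hA3) (abs_nonneg _)
    have h4 := (abs_le.1 h3).1
    linarith
  linarith

/-- the separation alternatives in terms of angles -/
theorem alt_of_sep {q r : Sq} {t u : ℝ} (hqc : q.c = cos t) (hqs : q.s = sin t)
    (hrc : r.c = cos u) (hrs : r.s = sin u) (h : Sep q r) : ∃ κ : ℕ, κ < 4 ∧
      (Alt (t + κ * (π / 2)) (u - t) (r.x - q.x) (r.y - q.y) ∨
       Alt (u + κ * (π / 2)) (t - u) (r.x - q.x) (r.y - q.y)) := by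
  have e1 : relH q r = hh (u - t) := by
    unfold relH hh
    rw [hqc, hqs, hrc, hrs, cos_sub, sin_sub]
    congr 3
    · ring
    · ring
  have e2 : relH q r = hh (t - u) := by
    rw [e1]
    unfold hh
    rw [← neg_sub t u, cos_neg, sin_neg, abs_neg]
  have c1 : ∀ z : ℝ, cos (z + π / 2 + π / 2 + π / 2) = sin z := by
    intro z
    rw [cos_add_pi_div_two, sin_add_pi_div_two, cos_add_pi_div_two, neg_neg]
  have c2 : ∀ z : ℝ, sin (z + π / 2 + π / 2 + π / 2) = -cos z := by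
    intro z
    rw [sin_add_pi_div_two, cos_add_pi_div_two, sin_add_pi_div_two]
  have c3 : ∀ z : ℝ, cos (z + π / 2 + π / 2) = -cos z := by
    intro z
    rw [cos_add_pi_div_two, sin_add_pi_div_two]
  have c4 : ∀ z : ℝ, sin (z + π / 2 + π / 2) = -sin z := by
    intro z
    rw [sin_add_pi_div_two, cos_add_pi_div_two]
  have a0 : ∀ z : ℝ, z + ((0 : ℕ) : ℝ) * (π / 2) = z := fun z => by push_cast; ring
  have a1 : ∀ z : ℝ, z + ((1 : ℕ) : ℝ) * (π / 2) = z + π / 2 := fun z => by push_cast; ring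
  have a2 : ∀ z : ℝ, z + ((2 : ℕ) : ℝ) * (π / 2) = z + π / 2 + π / 2 := fun z => by
    push_cast; ring
  have a3 : ∀ z : ℝ, z + ((3 : ℕ) : ℝ) * (π / 2) = z + π / 2 + π / 2 + π / 2 := fun z => by
    push_cast; ring
  rcases h with h | h | h | h
  · rw [hqc, hqs] at h
    rw [e1] at h
    rcases le_abs'.1 h with h | h
    · refine ⟨2, by norm_num, Or.inl ?_⟩
      unfold Alt
      rw [a2, c3, c4]
      linarith
    · refine ⟨0, by norm_num, Or.inl ?_⟩
      unfold Alt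
      rw [a0]
      linarith
  · rw [hqc, hqs] at h
    rw [e1] at h
    rcases le_abs'.1 h with h | h
    · refine ⟨3, by norm_num, Or.inl ?_⟩
      unfold Alt
      rw [a3, c1, c2]
      linarith
    · refine ⟨1, by norm_num, Or.inl ?_⟩
      unfold Alt
      rw [a1, cos_add_pi_div_two, sin_add_pi_div_two]
      linarith
  · rw [hrc, hrs] at h
    rw [e2] at h
    rcases le_abs'.1 h with h | h
    · refine ⟨2, by norm_num, Or.inr ?_⟩
      unfold Alt
      rw [a2, c3, c4]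
      linarith
    · refine ⟨0, by norm_num, Or.inr ?_⟩
      unfold Alt
      rw [a0]
      linarith
  · rw [hrc, hrs] at h
    rw [e2] at h
    rcases le_abs'.1 h with h | h
    · refine ⟨3, by norm_num, Or.inr ?_⟩
      unfold Alt
      rw [a3, c1, c2]
      linarith
    · refine ⟨1, by norm_num, Or.inr ?_⟩
      unfold Alt
      rw [a1, cos_add_pi_div_two, sin_add_pi_div_two]
      linarith

end Fine
end Pool.Agent.MP_abb58c_co
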