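import Pool.Agent.Lib.MP_abb58c_co.FineRow

/-! MP_abb58c_co, FINE: general forms of the rows. `n`, `m` are arbitrary approximations (error `η`)
of the components of the displacement along the reference direction `th0` and its normal. -/

namespace Pool.Agent.MP_abb58c_co
namespace Fine

open Real

theorem hh_neg (ρ : ℝ) : hh (-ρ) = hh ρ := by
  unfold hh
  rw [cos_neg, sin_neg, abs_neg]

theorem Alt.neg {th ρ dx dy : ℝ} (h : Alt th (-ρ) dx dy) : Alt th ρ dx dy := by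
  unfold Alt at *
  rwa [hh_neg] at h

/-- `a * e` for `|a| ≤ 1` -/
theorem abs_mul_le_of {a e η : ℝ} (ha : |a| ≤ 1) (he : |e| ≤ η) : |a * e| ≤ η := by
  rw [abs_mul]
  calc |a| * |e| ≤ 1 * |e| := mul_le_mul_of_nonneg_right ha (abs_nonneg e)
    _ ≤ η := by rw [one_mul]; exact he

/-- components of the displacement in a rotated frame, upper bound -/
theorem comp_le {dx dy th0 a n m η : ℝ}
    (hn : |cos th0 * dx + sin th0 * dy - n| ≤ η) (hm : |-sin th0 * dx + cos th0 * dy - m| ≤ η) :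
    cos (th0 + a) * dx + sin (th0 + a) * dy ≤ cos a * n + sin a * m + 2 * η := by
  have h1 := (abs_le.1 (abs_mul_le_of (abs_cos_le_one a) hn)).2
  have h2 := (abs_le.1 (abs_mul_le_of (abs_sin_le_one a) hm)).2
  have e : cos (th0 + a) * dx + sin (th0 + a) * dy = cos a * n + sin a * m +
      cos a * (cos th0 * dx + sin th0 * dy - n) + sin a * (-sin th0 * dx + cos th0 * dy - m) := by
    rw [cos_add, sin_add]; ring
  linarith

/-- the lateral component of the displacement in a rotated frame -/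
theorem lat_le {dx dy th0 a n m η A Nm Vm : ℝ}
    (hn : |cos th0 * dx + sin th0 * dy - n| ≤ η) (hm : |-sin th0 * dx + cos th0 * dy - m| ≤ η)
    (ha : |a| ≤ A) (hN : |n| ≤ Nm) (hV : |m| ≤ Vm) :
    |-sin (th0 + a) * dx + cos (th0 + a) * dy| ≤ Vm + A * Nm + 2 * η := by
  have hA0 : 0 ≤ A := (abs_nonneg a).trans ha
  have h1 := abs_mul_le_of (abs_sin_le_one a) hn
  have h2 := abs_mul_le_of (abs_cos_le_one a) hm
  have e : -sin (th0 + a) * dx + cos (th0 + a) * dy = cos a * m - sin a * n +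
      (cos a * (-sin th0 * dx + cos th0 * dy - m) - sin a * (cos th0 * dx + sin th0 * dy - n)) := by
    rw [cos_add, sin_add]; ring
  have h3 : |cos a * m| ≤ Vm := abs_mul_le_of (abs_cos_le_one a) hV
  have h4 : |sin a * n| ≤ A * Nm := by
    rw [abs_mul]
    exact mul_le_mul (abs_sin_le_abs.trans ha) hN (abs_nonneg _) hA0
  rw [e]
  calc |cos a * m - sin a * n + (cos a * (-sin th0 * dx + cos th0 * dy - m) -
        sin a * (cos th0 * dx + sin th0 * dy - n))|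
      ≤ |cos a * m - sin a * n| + |cos a * (-sin th0 * dx + cos th0 * dy - m) -
        sin a * (cos th0 * dx + sin th0 * dy - n)| := abs_add_le _ _
    _ ≤ (|cos a * m| + |sin a * n|) + (|cos a * (-sin th0 * dx + cos th0 * dy - m)| +
        |sin a * (cos th0 * dx + sin th0 * dy - n)|) := add_le_add (abs_sub _ _) (abs_sub _ _)
    _ ≤ Vm + A * Nm + 2 * η := by linarith

/-- ROW LEMMA, general form (single alternative, frame of the owner) -/
theorem rowG {dx dy th0 r0 a ap g e1 e2 n m η c0 s0 ε A Ap N V W G0 G1 W' lam a0 : ℝ}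
    (hyp : Hyp g e1 e2 (th0 + a) (r0 + (ap - a)) dx dy)
    (he1 : |e1| ≤ 1) (he2 : |e2| ≤ 1)
    (ha : |a| ≤ A) (hap : |ap| ≤ Ap)
    (hn : |cos th0 * dx + sin th0 * dy - n| ≤ η) (hm : |-sin th0 * dx + cos th0 * dy - m| ≤ η)
    (hc : |cos r0 - c0| ≤ ε) (hs : |sin r0 - s0| ≤ ε)
    (hN : N ≤ n) (hV : |m - V| ≤ W)
    (hG0 : G0 = (e1 * c0 + e2 * s0) / 2) (hG1 : G1 = (-e1 * s0 + e2 * c0) / 2)
    (hG0' : 0 ≤ G0) (hNG : G0 ≤ N) (hW' : W' = W + G0 * Ap) (hl : |lam| ≤ 1) :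
    0 ≤ n + a * V - 1 / 2 - G0 - G1 * (ap - a) + A * W' +
      lam * (a * W' - A * (m - V - G0 * ap)) +
      (N - G0) / 2 * (a0 ^ 2 - 2 * a0 * a) + G0 / 2 * Ap ^ 2 +
      (A ^ 3 / 6 * (|V| + W) + N * A ^ 4 / 24 + |G1| * (A + Ap) ^ 3 / 6 +
        2 * η + 2 * ε + g) := by
  have hA0 : 0 ≤ A := (abs_nonneg a).trans ha
  have hAp0 : 0 ≤ Ap := (abs_nonneg ap).trans hap
  have hN0 : 0 ≤ N := hG0'.trans hNG
  have hW0 : 0 ≤ W := (abs_nonneg _).trans hV
  have hcomp := comp_le (a := a) hn hm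
  unfold Hyp at hyp
  have hyp2 := hyp.trans (add_le_add_left hcomp g)
  clear hyp
  rw [cos_add r0, sin_add r0] at hyp2
  obtain ⟨b, hb⟩ : ∃ b, b = ap - a := ⟨_, rfl⟩
  rw [← hb] at hyp2 ⊢
  -- errors of the relative direction
  have hr1 : |cos b * (e1 * (cos r0 - c0) + e2 * (sin r0 - s0))| ≤ 2 * ε :=
    abs_mul_le_of (abs_cos_le_one b) (comb_le he1 he2 hc hs)
  have hr2 : |sin b * (-e1 * (sin r0 - s0) + e2 * (cos r0 - c0))| ≤ 2 * ε :=
    abs_mul_le_of (abs_sin_le_one b) (comb_le (by rwa [abs_neg]) he2 hs hc)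
  obtain ⟨hr1, -⟩ := abs_le.1 hr1
  obtain ⟨hr2, -⟩ := abs_le.1 hr2
  -- the inequality in terms of n, m, G0, G1
  have key : 1 / 2 + cos b * G0 + sin b * G1 ≤
      cos a * n + sin a * m + 2 * η + 2 * ε + g := by
    have e : cos b * G0 + sin b * G1 =
        (e1 * (cos r0 * cos b - sin r0 * sin b) + e2 * (sin r0 * cos b + cos r0 * sin b)) / 2 -
        cos b * (e1 * (cos r0 - c0) + e2 * (sin r0 - s0)) / 2 -
        sin b * (-e1 * (sin r0 - s0) + e2 * (cos r0 - c0)) / 2 := by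
      rw [hG0, hG1]; ring
    linarith
  -- one variable estimates
  have hca : cos a * n ≤ n - N * (a ^ 2 / 2 - a ^ 4 / 24) := by
    have h1 := cos_upper a
    have h2 := cos_le_one a
    have h3 := mul_nonneg (sub_nonneg.2 h2) (sub_nonneg.2 hN)
    have h4 := mul_nonneg hN0 (sub_nonneg.2 h1)
    linarith
  have hm' : |m| ≤ |V| + W := by
    calc |m| = |V + (m - V)| := by congr 1; ring
      _ ≤ |V| + |m - V| := abs_add_le _ _
      _ ≤ |V| + W := by linarith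
  have hA3 : |a| ^ 3 / 6 ≤ A ^ 3 / 6 := by
    have := pow_le_pow_left₀ (abs_nonneg a) ha 3
    linarith
  have hsa : sin a * m ≤ a * m + A ^ 3 / 6 * (|V| + W) := by
    have h1 : |(sin a - a) * m| ≤ A ^ 3 / 6 * (|V| + W) := by
      rw [abs_mul]
      exact mul_le_mul ((abs_sin_sub a).trans hA3) hm' (abs_nonneg _) (by positivity)
    have h2 := (abs_le.1 h1).2
    linarith
  have hcb : G0 - G0 * (b ^ 2 / 2) ≤ cos b * G0 := by
    have h1 := mul_nonneg hG0' (sub_nonneg.2 (cos_lower b))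
    linarith
  have hbA : |b| ≤ A + Ap := by
    rw [hb]
    calc |ap - a| ≤ |ap| + |a| := abs_sub _ _
      _ ≤ A + Ap := by linarith
  have hb3 : |b| ^ 3 / 6 ≤ (A + Ap) ^ 3 / 6 := by
    have := pow_le_pow_left₀ (abs_nonneg b) hbA 3
    linarith
  have hsb : G1 * b - |G1| * (A + Ap) ^ 3 / 6 ≤ sin b * G1 := by
    have h1 : |(sin b - b) * G1| ≤ (A + Ap) ^ 3 / 6 * |G1| := by
      rw [abs_mul]
      exact mul_le_mul_of_nonneg_right ((abs_sin_sub b).trans hb3) (abs_nonneg _)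
    have h2 := (abs_le.1 h1).1
    linarith
  have ha4 : N * (a ^ 4 / 24) ≤ N * A ^ 4 / 24 := by
    have h1 : a ^ 4 ≤ A ^ 4 := by
      have := pow_le_pow_left₀ (abs_nonneg a) ha 4
      have e4 : |a| ^ 4 = a ^ 4 := by
        rw [← abs_pow]; exact abs_of_nonneg (by positivity)
      rwa [e4] at this
    have h2 := mul_nonneg hN0 (sub_nonneg.2 h1)
    linarith
  -- quadratic part
  have hw' : |(m - V) - G0 * ap| ≤ W' := by
    rw [hW']
    calc |(m - V) - G0 * ap| ≤ |m - V| + |G0 * ap| := abs_sub _ _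
      _ ≤ W + G0 * Ap := by
        rw [abs_mul, abs_of_nonneg hG0']
        exact add_le_add hV (mul_le_mul_of_nonneg_left hap hG0')
  have hmc := mccormick ha hw' hl
  have hAp2 : G0 * (ap ^ 2 / 2) ≤ G0 / 2 * Ap ^ 2 := by
    have h1 : ap ^ 2 ≤ Ap ^ 2 := by
      have := pow_le_pow_left₀ (abs_nonneg ap) hap 2
      rwa [sq_abs] at this
    have h2 := mul_nonneg hG0' (sub_nonneg.2 h1)
    linarith
  have htan : -((N - G0) / 2 * a ^ 2) ≤ (N - G0) / 2 * (a0 ^ 2 - 2 * a0 * a) := by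
    have h1 : 0 ≤ (N - G0) / 2 := by linarith
    have h2 := mul_nonneg h1 (sq_nonneg (a - a0))
    linarith
  have hbsq : b ^ 2 = ap ^ 2 - 2 * a * ap + a ^ 2 := by rw [hb]; ring
  rw [hbsq] at hcb
  have e5 : G1 * b = G1 * (ap - a) := by rw [hb]
  linarith

/-! ### near-parallel pairs in the mean frame -/

/-- `1/2 + hh δ` for small `δ` -/
theorem half_add_hh {δ : ℝ} (hδ : |δ| ≤ 1) :
    1 / 2 + hh δ = cos (δ / 2) ^ 2 + |sin (δ / 2)| * cos (δ / 2) := by
  have h1 : 0 ≤ cos δ := by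
    have h2 := cos_lower δ
    have h3 : δ ^ 2 ≤ 1 := by
      rw [← sq_abs]
      exact pow_le_one₀ (abs_nonneg δ) hδ
    linarith
  have h2 : 0 ≤ cos (δ / 2) := by
    have h2 := cos_lower (δ / 2)
    have h3 : δ ^ 2 ≤ 1 := by
      rw [← sq_abs]
      exact pow_le_one₀ (abs_nonneg δ) hδ
    linarith
  have e1 : cos δ = 2 * cos (δ / 2) ^ 2 - 1 := by
    rw [← cos_two_mul]; congr 1; ring
  have e2 : sin δ = 2 * sin (δ / 2) * cos (δ / 2) := by
    rw [← sin_two_mul]; congr 1; ring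
  unfold hh
  rw [abs_of_nonneg h1, e2, abs_mul, abs_mul, abs_of_nonneg h2, e1]
  norm_num
  ring

/-- near-parallel pair in the mean frame: the basic inequality -/
theorem par_basic {th δ dx dy Lam D k : ℝ}
    (h : Alt (th - δ / 2) δ dx dy ∨ Alt (th + δ / 2) δ dx dy)
    (hδ : |δ| ≤ D) (hD : D ≤ 1) (hL : |-sin th * dx + cos th * dy| ≤ Lam)
    (hk : k + Lam / (1 - D ^ 2 / 8) ≤ 1) :
    cos (δ / 2) + |sin (δ / 2)| * k ≤ cos th * dx + sin th * dy := by
  have hL0 : 0 ≤ Lam := (abs_nonneg _).trans hL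
  have hD0 : 0 ≤ D := (abs_nonneg _).trans hδ
  have hδ2 : δ ^ 2 ≤ D ^ 2 := by
    have := pow_le_pow_left₀ (abs_nonneg δ) hδ 2
    rwa [sq_abs] at this
  have hD2 : D ^ 2 ≤ 1 := pow_le_one₀ hD0 hD
  have hc : 1 - D ^ 2 / 8 ≤ cos (δ / 2) := by
    have h2 := cos_lower (δ / 2)
    linarith
  have hc0 : 0 < 1 - D ^ 2 / 8 := by linarith
  have hc1 : 0 < cos (δ / 2) := hc0.trans_le hc
  obtain ⟨n, hn⟩ : ∃ n, n = cos th * dx + sin th * dy := ⟨_, rfl⟩
  obtain ⟨m, hm⟩ : ∃ m, m = -sin th * dx + cos th * dy := ⟨_, rfl⟩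
  rw [← hm] at hL
  rw [← hn]
  have e := half_add_hh (hδ.trans hD)
  have hsm : |sin (δ / 2) * m| ≤ |sin (δ / 2)| * Lam := by
    rw [abs_mul]
    exact mul_le_mul_of_nonneg_left hL (abs_nonneg _)
  obtain ⟨hsm1, hsm2⟩ := abs_le.1 hsm
  have key : cos (δ / 2) ^ 2 + |sin (δ / 2)| * cos (δ / 2) ≤
      cos (δ / 2) * n + |sin (δ / 2)| * Lam := by
    rcases h with h | h
    · unfold Alt at h
      rw [e] at h
      have e1 : cos (th - δ / 2) * dx + sin (th - δ / 2) * dy =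
          cos (δ / 2) * n - sin (δ / 2) * m := by
        rw [cos_sub, sin_sub, hn, hm]; ring
      rw [e1] at h
      linarith
    · unfold Alt at h
      rw [e] at h
      have e1 : cos (th + δ / 2) * dx + sin (th + δ / 2) * dy =
          cos (δ / 2) * n + sin (δ / 2) * m := by
        rw [cos_add, sin_add, hn, hm]; ring
      rw [e1] at h
      linarith
  -- divide by `cos (δ / 2)`
  have hdiv : Lam / cos (δ / 2) ≤ Lam / (1 - D ^ 2 / 8) :=
    div_le_div_of_nonneg_left hL0 hc0 hc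
  have hkk : k ≤ 1 - Lam / cos (δ / 2) := by linarith
  have h3 : |sin (δ / 2)| * k ≤ |sin (δ / 2)| * (1 - Lam / cos (δ / 2)) :=
    mul_le_mul_of_nonneg_left hkk (abs_nonneg _)
  have h4 : cos (δ / 2) + |sin (δ / 2)| * (1 - Lam / cos (δ / 2)) ≤ n := by
    have h5 : cos (δ / 2) * (cos (δ / 2) + |sin (δ / 2)| * (1 - Lam / cos (δ / 2))) ≤
        cos (δ / 2) * n := by
      have e2 : cos (δ / 2) * (cos (δ / 2) + |sin (δ / 2)| * (1 - Lam / cos (δ / 2))) =
          cos (δ / 2) ^ 2 + |sin (δ / 2)| * cos (δ / 2) - |sin (δ / 2)| * Lam := by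
        field_simp
        ring
      rw [e2]
      linarith
    exact le_of_mul_le_mul_left h5 hc1
  linarith

/-- mean frame, `k ≥ 0` -/
theorem par_pos {th δ dx dy Lam D k w : ℝ}
    (h : Alt (th - δ / 2) δ dx dy ∨ Alt (th + δ / 2) δ dx dy)
    (hδ : |δ| ≤ D) (hD : D ≤ 1) (hL : |-sin th * dx + cos th * dy| ≤ Lam)
    (hk : k + Lam / (1 - D ^ 2 / 8) ≤ 1) (hk0 : 0 ≤ k) (hw : |w| ≤ 1) :
    1 - δ ^ 2 / 8 + (k * w * δ / 2 - k * D ^ 3 / 48) ≤ cos th * dx + sin th * dy := by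
  have hb := par_basic h hδ hD hL hk
  have h1 := cos_lower (δ / 2)
  have h2 : w * sin (δ / 2) ≤ |sin (δ / 2)| := le_abs_mul hw
  have h3 : |w * (sin (δ / 2) - δ / 2)| ≤ |δ / 2| ^ 3 / 6 :=
    abs_mul_le_of hw (abs_sin_sub (δ / 2))
  have h4 := (abs_le.1 h3).1
  have h5 : |δ / 2| ^ 3 / 6 ≤ D ^ 3 / 48 := by
    have h6 := pow_le_pow_left₀ (abs_nonneg δ) hδ 3
    have h7 : |δ / 2| = |δ| / 2 := by rw [abs_div]; norm_num
    rw [h7, div_pow]
    linarith
  have h6 : w * δ / 2 - D ^ 3 / 48 ≤ |sin (δ / 2)| := by linarith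
  have h7 := mul_le_mul_of_nonneg_left h6 hk0
  linarith

/-- mean frame, `k ≤ 0` -/
theorem par_neg {th δ dx dy Lam D k : ℝ}
    (h : Alt (th - δ / 2) δ dx dy ∨ Alt (th + δ / 2) δ dx dy)
    (hδ : |δ| ≤ D) (hD : D ≤ 1) (hL : |-sin th * dx + cos th * dy| ≤ Lam)
    (hk : k + Lam / (1 - D ^ 2 / 8) ≤ 1) (hk0 : k ≤ 0) :
    1 - δ ^ 2 / 8 + k * D / 2 ≤ cos th * dx + sin th * dy := by
  have hb := par_basic h hδ hD hL hk
  have h1 := cos_lower (δ / 2)
  have h2 : |sin (δ / 2)| ≤ D / 2 := by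
    refine (abs_sin_le_abs).trans ?_
    rw [abs_div]
    norm_num
    linarith
  have h3 := mul_le_mul_of_nonpos_left h2 hk0
  linarith

/-- MEAN ROW: linearisation of `1 - δ^2/8 + X ≤ n(th)·d` with `th = th0 + (a + b) / 2`,
`δ = g0 + (b - a)`; `a`, `b` are the deviations of the two angles from their reference angles. -/
theorem row3 {dx dy th0 a b g0 X n m η A B V W ν1 ν2 lam μ a0 : ℝ}
    (hyp : 1 - (g0 + (b - a)) ^ 2 / 8 + X ≤
      cos (th0 + (a + b) / 2) * dx + sin (th0 + (a + b) / 2) * dy)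
    (ha : |a| ≤ A) (hb : |b| ≤ B)
    (hn : |cos th0 * dx + sin th0 * dy - n| ≤ η) (hm : |-sin th0 * dx + cos th0 * dy - m| ≤ η)
    (hν1 : 0 ≤ ν1) (hν2 : 0 ≤ ν2) (hN : 1 + ν1 - ν2 ≤ n) (hV : |m - V| ≤ W)
    (hl : |lam| ≤ 1) (hμ : |μ| ≤ 1) :
    0 ≤ n + (a + b) / 2 * V - 1 - X + (A + B) / 2 * W +
      lam * ((a + b) / 2 * W - (A + B) / 2 * (m - V)) +
      g0 ^ 2 / 8 + g0 * (b - a) / 4 + (A * B / 2 + μ * (A * b + B * a) / 2) +
      ν1 / 2 * (a0 ^ 2 - 2 * a0 * ((a + b) / 2)) + ν2 * ((A + B) / 2) ^ 2 / 2 +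
      (((A + B) / 2) ^ 3 / 6 * (|V| + W) + (1 + ν1) * ((A + B) / 2) ^ 4 / 24 + 2 * η) := by
  have hA0 : 0 ≤ A := (abs_nonneg a).trans ha
  have hB0 : 0 ≤ B := (abs_nonneg b).trans hb
  have hW0 : 0 ≤ W := (abs_nonneg _).trans hV
  have hcomp := comp_le (a := (a + b) / 2) hn hm
  obtain ⟨z, hz⟩ : ∃ z, z = (a + b) / 2 := ⟨_, rfl⟩
  obtain ⟨Z, hZ⟩ : ∃ Z, Z = (A + B) / 2 := ⟨_, rfl⟩
  have hyp2 := hyp.trans hcomp
  clear hyp hcomp
  have hzZ : |z| ≤ Z := by
    rw [hz, hZ, abs_div]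
    have := abs_add_le a b
    norm_num
    linarith
  have hZ0 : 0 ≤ Z := (abs_nonneg z).trans hzZ
  have hm' : |m| ≤ |V| + W := by
    calc |m| = |V + (m - V)| := by congr 1; ring
      _ ≤ |V| + |m - V| := abs_add_le _ _
      _ ≤ |V| + W := by linarith
  have hA3 : |z| ^ 3 / 6 ≤ Z ^ 3 / 6 := by
    have := pow_le_pow_left₀ (abs_nonneg z) hzZ 3
    linarith
  have hsa : sin z * m ≤ z * m + Z ^ 3 / 6 * (|V| + W) := by
    have h1 : |(sin z - z) * m| ≤ Z ^ 3 / 6 * (|V| + W) := by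
      rw [abs_mul]
      exact mul_le_mul ((abs_sin_sub z).trans hA3) hm' (abs_nonneg _) (by positivity)
    have h2 := (abs_le.1 h1).2
    linarith
  have hz2 : z ^ 2 ≤ Z ^ 2 := by
    have := pow_le_pow_left₀ (abs_nonneg z) hzZ 2
    rwa [sq_abs] at this
  have hz4 : z ^ 4 ≤ Z ^ 4 := by
    have := pow_le_pow_left₀ (abs_nonneg z) hzZ 4
    have e4 : |z| ^ 4 = z ^ 4 := by
      rw [← abs_pow]; exact abs_of_nonneg (by positivity)
    rwa [e4] at this
  have hmc := mccormick hzZ hV hl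
  have hmc2 : -(a * b) ≤ A * B + μ * (A * b + B * a) := by
    have h := mccormick (a := a) (w := -b) (A := A) (W := B) (lam := μ) ha (by rwa [abs_neg]) hμ
    have : μ * (a * B - A * -b) = μ * (A * b + B * a) := by ring
    linarith
  -- `cos z * n ≤ n - z^2/2 + Z^4/24 + ...`
  have hca : cos z * n ≤ n - z ^ 2 / 2 + ν1 / 2 * (a0 ^ 2 - 2 * a0 * z) + ν2 * Z ^ 2 / 2 +
      (1 + ν1) * Z ^ 4 / 24 := by
    have h1 := cos_upper z
    have h2 := cos_le_one z
    have h3 := cos_lower z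
    have h4 := mul_nonneg (sub_nonneg.2 h2) (sub_nonneg.2 hN)
    -- (1 - cos z) (n - 1 - ν1 + ν2) ≥ 0
    have h5 := mul_nonneg hν1 (sub_nonneg.2 h1)
    have h6 : ν2 * (1 - cos z) ≤ ν2 * (Z ^ 2 / 2) :=
      mul_le_mul_of_nonneg_left (by linarith) hν2
    have h7 := mul_nonneg hν1 (sq_nonneg (z - a0))
    have h8 := mul_nonneg hν1 (sub_nonneg.2 hz4)
    linarith
  rw [← hz] at hyp2
  rw [← hz, ← hZ]
  have e6 : -(z ^ 2) / 2 + (g0 + (b - a)) ^ 2 / 8 =
      -(a * b) / 2 + g0 ^ 2 / 8 + g0 * (b - a) / 4 := by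
    rw [hz]; ring
  linarith

/-- exclusion of an alternative by a box, general form -/
theorem Alt.exclG {th0 a ρ dx dy n m η A Nhi Vm : ℝ} (h : Alt (th0 + a) ρ dx dy)
    (ha : |a| ≤ A) (hA1 : A ≤ 1)
    (hn : |cos th0 * dx + sin th0 * dy - n| ≤ η) (hm : |-sin th0 * dx + cos th0 * dy - m| ≤ η)
    (hN : n ≤ Nhi) (hNhi : 0 ≤ Nhi) (hV : |m| ≤ Vm) :
    1 / 2 + hh ρ ≤ Nhi + A * Vm + 2 * η := by
  have hA0 : 0 ≤ A := (abs_nonneg a).trans ha
  have hcomp := comp_le (a := a) hn hm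
  unfold Alt at h
  have hca : 0 ≤ cos a := by
    have h1 := cos_lower a
    have h2 : a ^ 2 ≤ 1 := by
      rw [← sq_abs]
      exact pow_le_one₀ (abs_nonneg a) (ha.trans hA1)
    linarith
  have h1 : cos a * n ≤ Nhi := by
    rcases le_total 0 n with h0 | h0
    · calc cos a * n ≤ 1 * n := mul_le_mul_of_nonneg_right (cos_le_one a) h0
        _ ≤ Nhi := by linarith
    · have := mul_nonpos_of_nonneg_of_nonpos hca h0
      linarith
  have h2 : sin a * m ≤ A * Vm := by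
    calc sin a * m ≤ |sin a * m| := le_abs_self _
      _ = |sin a| * |m| := abs_mul _ _
      _ ≤ A * Vm := mul_le_mul ((abs_sin_le_abs).trans ha) hV (abs_nonneg _) hA0
  linarith

/-- the lower bound `1 - A * Vm - 2 η` for `n` from the alternative itself -/
theorem Alt.nlo {th0 a ρ dx dy n m η A Vm : ℝ} (h : Alt (th0 + a) ρ dx dy)
    (ha : |a| ≤ A) (hA1 : A ≤ 1)
    (hn : |cos th0 * dx + sin th0 * dy - n| ≤ η) (hm : |-sin th0 * dx + cos th0 * dy - m| ≤ η)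
    (hV : |m| ≤ Vm) (hlt : A * Vm + 2 * η < 1) : 1 - A * Vm - 2 * η ≤ n := by
  have h1 := hh_ge_half ρ
  rcases le_total 0 n with h0 | h0
  · have := h.exclG ha hA1 hn hm le_rfl h0 hV
    linarith
  · have := h.exclG ha hA1 hn hm h0 le_rfl hV
    linarith

/-- lower bound for `n` from a bound `K ≤ n(th)·d` -/
theorem nlo_of_le {K th0 a dx dy n m η A Vm : ℝ} (h : K ≤ cos (th0 + a) * dx + sin (th0 + a) * dy)
    (ha : |a| ≤ A) (hA1 : A ≤ 1)
    (hn : |cos th0 * dx + sin th0 * dy - n| ≤ η) (hm : |-sin th0 * dx + cos th0 * dy - m| ≤ η)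
    (hV : |m| ≤ Vm) (hlt : A * Vm + 2 * η < K) : K - A * Vm - 2 * η ≤ n := by
  have hA0 : 0 ≤ A := (abs_nonneg a).trans ha
  have hcomp := comp_le (a := a) hn hm
  have hca : 0 ≤ cos a := by
    have h1 := cos_lower a
    have h2 : a ^ 2 ≤ 1 := by
      rw [← sq_abs]
      exact pow_le_one₀ (abs_nonneg a) (ha.trans hA1)
    linarith
  have h2 : sin a * m ≤ A * Vm := by
    calc sin a * m ≤ |sin a * m| := le_abs_self _
      _ = |sin a| * |m| := abs_mul _ _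
      _ ≤ A * Vm := mul_le_mul ((abs_sin_le_abs).trans ha) hV (abs_nonneg _) hA0
  rcases le_total 0 n with h0 | h0
  · have h1 : cos a * n ≤ 1 * n := mul_le_mul_of_nonneg_right (cos_le_one a) h0
    linarith
  · have h1 := mul_nonpos_of_nonneg_of_nonpos hca h0
    linarith

end Fine
end Pool.Agent.MP_abb58c_co
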