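import Pool.Agent.Lib.MP_abb58c_co.FineRow2

/-! MP_abb58c_co, FINE: the two row lemmas in the form used by the checker (format v3) -/

namespace Pool.Agent.MP_abb58c_co
namespace Fine

open Real

/-- R1: single alternative. `ρ = t_j - t_i` for both frames; `σ = 1` for the frame of `i`,
`σ = -1` for the frame of `j`. -/
theorem row1 {dx dy th0 r0 a ap g e1 e2 n m η c0 s0 ε A Ap N V W G0 G1 W' lam a0 σ : ℝ}
    (hσ : σ = 1 ∨ σ = -1)
    (hyp : Hyp g e1 e2 (th0 + a) (r0 + σ * (ap - a)) dx dy)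
    (he1 : |e1| ≤ 1) (he2 : |e2| ≤ 1)
    (ha : |a| ≤ A) (hap : |ap| ≤ Ap)
    (hn : |cos th0 * dx + sin th0 * dy - n| ≤ η) (hm : |-sin th0 * dx + cos th0 * dy - m| ≤ η)
    (hc : |cos r0 - c0| ≤ ε) (hs : |sin r0 - s0| ≤ ε)
    (hN : N ≤ n) (hV : |m - V| ≤ W)
    (hG0 : G0 = (e1 * c0 + e2 * s0) / 2) (hG1 : G1 = (-e1 * s0 + e2 * c0) / 2)
    (hG0' : 0 ≤ G0) (hNG : G0 ≤ N) (hW' : W' = W + G0 * Ap) (hl : |lam| ≤ 1) :
    0 ≤ n + a * V - 1 / 2 - G0 - σ * G1 * (ap - a) + A * W' +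
      lam * (a * W' - A * (m - V - G0 * ap)) +
      (N - G0) / 2 * (a0 ^ 2 - 2 * a0 * a) + G0 / 2 * Ap ^ 2 +
      (A ^ 3 / 6 * (|V| + W) + N * A ^ 4 / 24 + |G1| * (A + Ap) ^ 3 / 6 +
        2 * η + 2 * ε + g) := by
  rcases hσ with rfl | rfl
  · have hyp' : Hyp g e1 e2 (th0 + a) (r0 + (ap - a)) dx dy := by rwa [one_mul] at hyp
    have h := rowG (a0 := a0) hyp' he1 he2 ha hap hn hm hc hs hN hV hG0 hG1 hG0' hNG hW' hl
    rw [one_mul]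
    exact h
  · have hyp' : Hyp g e1 (-e2) (th0 + a) (-r0 + (ap - a)) dx dy := by
      unfold Hyp at hyp ⊢
      have e : r0 + -1 * (ap - a) = -(-r0 + (ap - a)) := by ring
      rw [e, cos_neg, sin_neg] at hyp
      have : e1 * cos (-r0 + (ap - a)) + -e2 * sin (-r0 + (ap - a)) =
        e1 * cos (-r0 + (ap - a)) + e2 * -sin (-r0 + (ap - a)) := by ring
      rw [this]
      exact hyp
    have hc' : |cos (-r0) - c0| ≤ ε := by rwa [cos_neg]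
    have hs' : |sin (-r0) - -s0| ≤ ε := by
      rw [sin_neg]
      have : -sin r0 - -s0 = -(sin r0 - s0) := by ring
      rw [this, abs_neg]
      exact hs
    have hG0n : G0 = (e1 * c0 + -e2 * -s0) / 2 := by rw [hG0]; ring
    have hG1n : -G1 = (-e1 * -s0 + -e2 * c0) / 2 := by rw [hG1]; ring
    have h := rowG (a0 := a0) hyp' he1 (by rwa [abs_neg]) ha hap hn hm hc' hs' hN hV hG0n hG1n
      hG0' hNG hW' hl
    rw [abs_neg] at h
    have e : -1 * G1 * (ap - a) = -G1 * (ap - a) := by ring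
    rw [e]
    exact h

theorem inv_bd {D : ℝ} (h0 : 0 ≤ D) (hD : D ≤ 1) : 1 / (1 - D ^ 2 / 8) ≤ 1 + D ^ 2 / 7 := by
  have h2 : D ^ 2 ≤ 1 := pow_le_one₀ h0 hD
  have h3 : 0 ≤ D ^ 2 := by positivity
  rw [div_le_iff₀ (by linarith)]
  nlinarith

/-- near-parallel pair in the mean frame, all signs -/
theorem par_mean {th δ dx dy Lam D e x : ℝ}
    (h : Alt (th - δ / 2) δ dx dy ∨ Alt (th + δ / 2) δ dx dy)
    (hδ : |δ| ≤ D) (hD : D ≤ 1) (hL : |-sin th * dx + cos th * dy| ≤ Lam)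
    (he : |e| ≤ 1) (hx0 : 0 ≤ x) (hx : |e| + Lam * (1 + D ^ 2 / 7) - 1 ≤ x) :
    1 - δ ^ 2 / 8 + (e * δ / 2 - D ^ 3 / 48 - x * D / 2) ≤ cos th * dx + sin th * dy := by
  have hL0 : 0 ≤ Lam := (abs_nonneg _).trans hL
  have hD0 : 0 ≤ D := (abs_nonneg _).trans hδ
  have hk : (1 - Lam * (1 + D ^ 2 / 7)) + Lam / (1 - D ^ 2 / 8) ≤ 1 := by
    have h1 := mul_le_mul_of_nonneg_left (inv_bd hD0 hD) hL0
    have h2 : Lam / (1 - D ^ 2 / 8) = Lam * (1 / (1 - D ^ 2 / 8)) := by ring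
    rw [h2]
    linarith
  have hb := par_basic h hδ hD hL hk
  have h1 := cos_lower (δ / 2)
  have hs0 : 0 ≤ |sin (δ / 2)| := abs_nonneg _
  have hs1 : |sin (δ / 2)| ≤ D / 2 := by
    refine (abs_sin_le_abs).trans ?_
    rw [abs_div]
    norm_num
    linarith
  have h2 : |sin (δ / 2)| * (|e| - x) ≤ |sin (δ / 2)| * (1 - Lam * (1 + D ^ 2 / 7)) :=
    mul_le_mul_of_nonneg_left (by linarith) hs0
  have h3 : |sin (δ / 2)| * x ≤ D / 2 * x := mul_le_mul_of_nonneg_right hs1 hx0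
  have h4 : e * sin (δ / 2) ≤ |sin (δ / 2)| * |e| := by
    calc e * sin (δ / 2) ≤ |e * sin (δ / 2)| := le_abs_self _
      _ = |sin (δ / 2)| * |e| := by rw [abs_mul, mul_comm]
  have h5 : |e * (sin (δ / 2) - δ / 2)| ≤ |δ / 2| ^ 3 / 6 :=
    abs_mul_le_of he (abs_sin_sub (δ / 2))
  have h6 := (abs_le.1 h5).1
  have h7 : |δ / 2| ^ 3 / 6 ≤ D ^ 3 / 48 := by
    have h8 := pow_le_pow_left₀ (abs_nonneg δ) hδ 3
    have h9 : |δ / 2| = |δ| / 2 := by rw [abs_div]; norm_num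
    rw [h9, div_pow]
    linarith
  linarith

set_option maxHeartbeats 1000000 in
/-- R3: near-parallel pair in the mean frame (format v3) -/
theorem rowR3 {dx dy th0 g0 a b ρ n m η A B V W Vm Nhi Lam D e x N Q lam μ a0 : ℝ}
    (h : Alt (th0 - g0 / 2 + a) ρ dx dy ∨ Alt (th0 + g0 / 2 + b) ρ dx dy)
    (hρ : ρ = g0 + b - a ∨ ρ = -(g0 + b - a))
    (ha : |a| ≤ A) (hb : |b| ≤ B) (hD : D = |g0| + A + B) (hD1 : D ≤ 1)
    (hn : |cos th0 * dx + sin th0 * dy - n| ≤ η) (hm : |-sin th0 * dx + cos th0 * dy - m| ≤ η)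
    (hN : N ≤ n) (hN0 : 0 ≤ N) (hN1 : N ≤ 3 / 2) (hNhi : n ≤ Nhi) (hV : |m - V| ≤ W)
    (hVm : |m| ≤ Vm) (hLam : Vm + (A + B) / 2 * Nhi + 2 * η ≤ Lam)
    (he : |e| ≤ 1) (hx0 : 0 ≤ x) (hx : |e| + Lam * (1 + D ^ 2 / 7) - 1 ≤ x)
    (hl : |lam| ≤ 1) (hμ : |μ| ≤ 1)
    (hQ : (1 ≤ N ∧ Q = (N - 1) / 2 * (a0 ^ 2 - 2 * a0 * ((a + b) / 2))) ∨
      (N ≤ 1 ∧ Q = (1 - N) / 2 * ((A + B) / 2) ^ 2)) :
    0 ≤ n + (a + b) / 2 * V + (A + B) / 2 * W +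
      lam * ((a + b) / 2 * W - (A + B) / 2 * (m - V)) - 1 +
      g0 ^ 2 / 8 + g0 * (b - a) / 4 + A * B / 2 + μ * (A * b + B * a) / 2 + Q -
      e * (g0 + b - a) / 2 + D ^ 3 / 48 + x * D / 2 +
      ((A + B) / 2) ^ 3 / 6 * (|V| + W) + ((A + B) / 2) ^ 4 / 16 + 2 * η := by
  have hA0 : 0 ≤ A := (abs_nonneg a).trans ha
  have hB0 : 0 ≤ B := (abs_nonneg b).trans hb
  obtain ⟨δ, hδd⟩ : ∃ δ, δ = g0 + b - a := ⟨_, rfl⟩
  obtain ⟨th, hth⟩ : ∃ th, th = th0 + (a + b) / 2 := ⟨_, rfl⟩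
  have e1 : th - δ / 2 = th0 - g0 / 2 + a := by rw [hth, hδd]; ring
  have e2 : th + δ / 2 = th0 + g0 / 2 + b := by rw [hth, hδd]; ring
  have h' : Alt (th - δ / 2) δ dx dy ∨ Alt (th + δ / 2) δ dx dy := by
    rw [e1, e2]
    rcases hρ with hρ | hρ
    · rw [hρ, ← hδd] at h
      exact h
    · rw [hρ, ← hδd] at h
      exact h.imp Alt.neg Alt.neg
  have hδD : |δ| ≤ D := by
    rw [hδd, hD]
    calc |g0 + b - a| ≤ |g0 + b| + |a| := abs_sub _ _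
      _ ≤ |g0| + |b| + |a| := by linarith [abs_add_le g0 b]
      _ ≤ |g0| + A + B := by linarith
  have hz : |(a + b) / 2| ≤ (A + B) / 2 := by
    rw [abs_div]
    have := abs_add_le a b
    norm_num
    linarith
  have hnm : |n| ≤ Nhi := by
    rw [abs_of_nonneg (hN0.trans hN)]
    exact hNhi
  have hL : |-sin th * dx + cos th * dy| ≤ Lam := by
    rw [hth]
    exact (lat_le hn hm hz hnm hVm).trans hLam
  have hp := par_mean h' hδD hD1 hL he hx0 hx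
  have hyp : 1 - (g0 + (b - a)) ^ 2 / 8 + (e * δ / 2 - D ^ 3 / 48 - x * D / 2) ≤
      cos (th0 + (a + b) / 2) * dx + sin (th0 + (a + b) / 2) * dy := by
    rw [← hth, show g0 + (b - a) = δ by rw [hδd]; ring]
    exact hp
  rcases hQ with ⟨hN2, hQ⟩ | ⟨hN2, hQ⟩
  · have hr := row3 (ν1 := N - 1) (ν2 := 0) (a0 := a0) hyp ha hb hn hm (by linarith) le_rfl
      (by linarith) hV hl hμ
    have h4 : (1 + (N - 1)) * ((A + B) / 2) ^ 4 / 24 ≤ ((A + B) / 2) ^ 4 / 16 := by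
      have : 0 ≤ ((A + B) / 2) ^ 4 := by positivity
      nlinarith
    rw [hQ]
    rw [hδd] at hr
    linarith
  · have hr := row3 (ν1 := 0) (ν2 := 1 - N) (a0 := 0) hyp ha hb hn hm le_rfl (by linarith)
      (by linarith) hV hl hμ
    have h4 : (1 + 0) * ((A + B) / 2) ^ 4 / 24 ≤ ((A + B) / 2) ^ 4 / 16 := by
      have : 0 ≤ ((A + B) / 2) ^ 4 := by positivity
      linarith
    rw [hQ]
    rw [hδd] at hr
    linarith

end Fine
end Pool.Agent.MP_abb58c_co
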