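import Pool.Agent.Lib.MP_abb58c_co.FineSem

/-! MP_abb58c_co, FINE: soundness of the checker `run` (`SpecRun`). -/

namespace Pool.Agent.MP_abb58c_co
namespace Fine

open Real

namespace RunM

/-! ### The continuations -/

theorem typ_ex {i : ℕ} {k : ℕ → ℕ → ℕ → Bool} (h : typ i k = true) : ∃ a b c, k a b c = true := by
  unfold typ at h
  cases h1 : Nat.beq (Nat.land (Nat.shiftRight 1801 i) 1) 0 <;> rw [h1] at h
  · exact ⟨_, _, _, h⟩
  · exact ⟨_, _, _, h⟩

theorem getL_ex {LO HI i : ℕ} {k : ℕ → ℕ → ℕ → ℕ → ℕ → ℕ → Bool} (h : getL LO HI i k = true) :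
    ∃ a b c d e f, k a b c d e f = true := ⟨_, _, _, _, _, _, h⟩

theorem dirK_ex {bc bs tau : ℕ} {k : ℕ → ℕ → Bool} (h : dirK bc bs tau k = true) :
    ∃ a b, k a b = true := by
  unfold dirK at h
  exact ⟨_, _, (cond_true h).2⟩

theorem relK_ex {Ci Si Cj Sj : ℕ} {k : ℕ → ℕ → Bool} (h : relK Ci Si Cj Sj k = true) :
    ∃ a b, k a b = true := ⟨_, _, h⟩

theorem gK_ex {e1 e2 c0 s0 : ℕ} {k : ℕ → ℕ → ℕ → Bool} (h : gK e1 e2 c0 s0 k = true) :
    ∃ a b c, k a b c = true := by
  unfold gK at h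
  exact ⟨_, _, _, (cond_true h).2⟩

theorem rotK_ex {kap C S : ℕ} {k : ℕ → ℕ → ℕ → ℕ → Bool} (h : rotK kap C S k = true) :
    kap ≤ 3 := by
  unfold rotK at h
  by_contra hk
  have h0 : Nat.beq kap 0 = false := by
    rw [Bool.eq_false_iff]; intro h'; rw [Nat.beq_eq] at h'; omega
  have h1 : Nat.beq kap 1 = false := by
    rw [Bool.eq_false_iff]; intro h'; rw [Nat.beq_eq] at h'; omega
  have h2 : Nat.beq kap 2 = false := by
    rw [Bool.eq_false_iff]; intro h'; rw [Nat.beq_eq] at h'; omega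
  have h3 : Nat.beq kap 3 = false := by
    rw [Bool.eq_false_iff]; intro h'; rw [Nat.beq_eq] at h'; omega
  rw [h0, h1, h2, h3] at h
  simp at h

theorem ownK_range {LO HI i j o kap e1 e2 : ℕ}
    {k : ℕ → ℕ → ℕ → ℕ → ℕ → ℕ → ℕ → ℕ → ℕ → ℕ → ℕ → ℕ → ℕ → ℕ → ℕ → ℕ → ℕ → ℕ → ℕ → ℕ → ℕ →
      ℕ → ℕ → ℕ → ℕ → ℕ → Bool} (h : ownK LO HI i j o kap e1 e2 k = true) :
    i < j ∧ j ≤ 10 ∧ o ≤ 1 ∧ kap ≤ 3 := by
  unfold ownK at h
  obtain ⟨h1, h⟩ := cond_true h
  obtain ⟨h2, h⟩ := cond_true h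
  obtain ⟨-, h⟩ := cond_true h
  obtain ⟨-, h⟩ := cond_true h
  obtain ⟨_, _, _, h⟩ := typ_ex h
  obtain ⟨_, _, _, h⟩ := typ_ex h
  obtain ⟨_, _, _, _, _, _, h⟩ := getL_ex h
  obtain ⟨_, _, _, _, _, _, h⟩ := getL_ex h
  obtain ⟨_, _, h⟩ := dirK_ex h
  obtain ⟨_, _, h⟩ := dirK_ex h
  obtain ⟨_, _, h⟩ := relK_ex h
  obtain ⟨_, _, _, h⟩ := gK_ex h
  refine ⟨blt_lt h1, ble_le h2, ?_⟩
  cases h0 : Nat.beq o 0
  · rw [h0] at h
    obtain ⟨h3, h⟩ := cond_true h
    rw [Nat.beq_eq] at h3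
    exact ⟨h3.le, rotK_ex h⟩
  · rw [h0] at h
    rw [Nat.beq_eq] at h0
    dsimp only [cond] at h
    exact ⟨by omega, rotK_ex h⟩

theorem exclK_range {LO HI i j o kap e1 e2 : ℕ} (h : exclK LO HI i j o kap e1 e2 = true) :
    i < j ∧ j ≤ 10 ∧ o ≤ 1 ∧ kap ≤ 3 := ownK_range h

theorem row1K_range {LO HI i j o kap e1 e2 lam a0 : ℕ} {k : ℕ → Bool}
    (h : row1K LO HI i j o kap e1 e2 lam a0 k = true) :
    i < j ∧ j ≤ 10 ∧ o ≤ 1 ∧ kap ≤ 3 := ownK_range h

theorem row3K_range {LO HI i j kap e lam mu a0 : ℕ} {k : ℕ → Bool}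
    (h : row3K LO HI i j kap e lam mu a0 k = true) : i < j ∧ j ≤ 10 ∧ kap ≤ 3 := by
  unfold row3K at h
  obtain ⟨h1, h⟩ := cond_true h
  obtain ⟨h2, h⟩ := cond_true h
  obtain ⟨-, h⟩ := cond_true h
  obtain ⟨-, h⟩ := cond_true h
  obtain ⟨-, h⟩ := cond_true h
  obtain ⟨_, _, _, h⟩ := typ_ex h
  obtain ⟨_, _, _, h⟩ := typ_ex h
  obtain ⟨-, h⟩ := cond_true h
  obtain ⟨_, _, _, _, _, _, h⟩ := getL_ex h
  obtain ⟨_, _, _, _, _, _, h⟩ := getL_ex h
  obtain ⟨-, h⟩ := cond_true h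
  obtain ⟨_, _, h⟩ := dirK_ex h
  exact ⟨blt_lt h1, ble_le h2, rotK_ex h⟩

/-! ### Facts -/

theorem testBit_dg (P v t : ℕ) (ht : t < 8) : (dg 8 P v).testBit t = P.testBit (8 * v + t) := by
  unfold dg
  rw [Nat.testBit_mod_two_pow, decide_eq_true ht, Bool.true_and, Nat.testBit_shiftRight]

theorem mskK_eq (FB i j : ℕ) : mskK FB i j = dg 8 FB (16 * i + j) := rfl

/-- the facts survive if one bit is flipped which does not belong to a true alternative -/
theorem FBOK.flip {w : Wd} {FB i j o κ : ℕ} (h : FBOK w FB) (_hi : i < j) (hj : j ≤ 10)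
    (ho : o ≤ 1) (hκ : κ ≤ 3) (hn : ¬ AltN w i j o κ) :
    FBOK w (FB ^^^ 2 ^ (8 * (16 * i + j) + (4 * o + κ))) := by
  intro i' j' hi' hj'
  obtain ⟨o', κ', ho', hκ', hb, hA⟩ := h i' j' hi' hj'
  refine ⟨o', κ', ho', hκ', ?_, hA⟩
  rw [Nat.testBit_xor, hb, Nat.testBit_two_pow]
  have hne : ¬ 8 * (16 * i + j) + (4 * o + κ) = 8 * (16 * i' + j') + (4 * o' + κ') := by
    intro he
    have e1 : i = i' := by omega
    subst e1
    have e2 : j = j' := by omega
    subst e2
    have e3 : o = o' := by omega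
    subst e3
    have e4 : κ = κ' := by omega
    subst e4
    exact hn hA
  rw [decide_eq_false hne]
  rfl

/-- the facts after a positive choice -/
theorem FBOK.choose {w : Wd} {FB i j o κ : ℕ} (h : FBOK w FB) (hi : i < j) (hj : j ≤ 10)
    (ho : o ≤ 1) (hκ : κ ≤ 3) (hA : AltN w i j o κ) :
    FBOK w (setDg 8 FB (16 * i + j) (2 ^ (4 * o + κ))) := by
  have hU : 2 ^ (4 * o + κ) < 2 ^ 8 := Nat.pow_lt_pow_right (by norm_num) (by omega)
  intro i' j' hi' hj'
  by_cases he : i' = i ∧ j' = j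
  · obtain ⟨rfl, rfl⟩ := he
    refine ⟨o, κ, ho, hκ, ?_, hA⟩
    rw [← testBit_dg _ _ _ (by omega), dg_setDg _ _ _ _ _ hU, if_pos rfl, Nat.testBit_two_pow]
    simp
  · obtain ⟨o', κ', ho', hκ', hb, hA'⟩ := h i' j' hi' hj'
    refine ⟨o', κ', ho', hκ', ?_, hA'⟩
    rw [← testBit_dg _ _ _ (by omega), dg_setDg _ _ _ _ _ hU, if_neg, testBit_dg _ _ _ (by omega)]
    · exact hb
    · intro h'
      apply he
      omega

/-- the true alternative of a pair is in the mask -/
theorem FBOK.mask {w : Wd} {FB i j : ℕ} (h : FBOK w FB) (hi : i < j) (hj : j ≤ 10) :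
    ∃ o κ : ℕ, o ≤ 1 ∧ κ ≤ 3 ∧ (mskK FB i j).testBit (4 * o + κ) = true ∧ AltN w i j o κ := by
  obtain ⟨o, κ, ho, hκ, hb, hA⟩ := h i j hi hj
  refine ⟨o, κ, ho, hκ, ?_, hA⟩
  rw [mskK_eq, testBit_dg _ _ _ (by omega)]
  exact hb

theorem FBOK.single {w : Wd} {FB i j o κ : ℕ} (h : FBOK w FB) (hi : i < j) (hj : j ≤ 10)
    (_ho : o ≤ 1) (hκ : κ ≤ 3) (hm : mskK FB i j = 2 ^ (4 * o + κ)) : AltN w i j o κ := by
  obtain ⟨o', κ', ho', hκ', hb, hA⟩ := FBOK.mask h hi hj
  rw [hm, Nat.testBit_two_pow, decide_eq_true_eq] at hb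
  have e3 : o = o' := by omega
  subst e3
  have e4 : κ = κ' := by omega
  subst e4
  exact hA

theorem FBOK.double {w : Wd} {FB i j κ : ℕ} (h : FBOK w FB) (hi : i < j) (hj : j ≤ 10)
    (hκ : κ ≤ 3) (hm : mskK FB i j ||| 17 <<< κ = 17 <<< κ) :
    AltN w i j 0 κ ∨ AltN w i j 1 κ := by
  obtain ⟨o', κ', ho', hκ', hb, hA⟩ := FBOK.mask h hi hj
  have h1 : (17 <<< κ).testBit (4 * o' + κ') = true := by
    rw [← hm, Nat.testBit_or, hb, Bool.true_or]
  have h2 : ∀ k ≤ 3, ∀ o ≤ 1, ∀ k' ≤ 3, (17 <<< k).testBit (4 * o + k') = true → k' = k := by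
    decide
  have e := h2 κ hκ o' ho' κ' hκ' h1
  subst e
  have : o' = 0 ∨ o' = 1 := by omega
  rcases this with rfl | rfl
  · exact Or.inl hA
  · exact Or.inr hA

/-! ### Boxes -/

theorem setB_eq (P w U : ℕ) : setB P w U = setDg 144 P w U := by
  unfold setB setDg
  simp only [nadd, nsub, nmul, dgB_eq]
  rw [show ∀ a b : ℕ, Nat.shiftLeft a b = a <<< b from fun _ _ => rfl,
    show ∀ a b : ℕ, Nat.shiftLeft a b = a <<< b from fun _ _ => rfl,
    Nat.shiftLeft_eq, Nat.shiftLeft_eq]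

theorem BoxOK.setHi {z : ℕ → ℝ} {LO HI v U : ℕ} (h : BoxOK z LO HI) (hU : U < 4294967296)
    (hv : v ≤ 32) (hz : z v ≤ U) : BoxOK z LO (setB HI (33 - v) U) := by
  have hU' : U < 2 ^ 144 := lt_of_lt_of_le hU (by norm_num)
  refine ⟨h.lo_lt, ?_, ?_, h.le, ?_⟩
  · rw [setB_eq]
    exact setDg_lt _ _ _ _ _ hU' (by omega) h.hi_lt
  · intro u hu
    rw [setB_eq, dg_setDg _ _ _ _ _ hU']
    split_ifs with he
    · exact hU
    · exact h.bnd u hu
  · intro u hu
    rw [setB_eq, dg_setDg _ _ _ _ _ hU']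
    split_ifs with he
    · have : u = v := by omega
      rw [this]
      exact hz
    · exact h.ge u hu

theorem BoxOK.setLo {z : ℕ → ℝ} {LO HI v U : ℕ} (h : BoxOK z LO HI) (hU : U < 4294967296)
    (hv : v ≤ 32) (hz : U ≤ z v) : BoxOK z (setB LO (33 - v) U) HI := by
  have hU' : U < 2 ^ 144 := lt_of_lt_of_le hU (by norm_num)
  refine ⟨?_, h.hi_lt, h.bnd, ?_, h.ge⟩
  · rw [setB_eq]
    exact setDg_lt _ _ _ _ _ hU' (by omega) h.lo_lt
  · intro u hu
    rw [setB_eq, dg_setDg _ _ _ _ _ hU']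
    split_ifs with he
    · have : u = v := by omega
      rw [this]
      exact hz
    · exact h.le u hu

/-! ### Citations -/

theorem leDig_sound {P Q : ℕ} : ∀ {n : ℕ}, leDig P Q n = true → ∀ v < n, dg 144 P v ≤ dg 144 Q v := by
  intro n
  induction n with
  | zero => intro _ v hv; omega
  | succ n ih =>
    intro h v hv
    change cond (Nat.ble (dgB P n) (dgB Q n)) (leDig P Q n) false = true at h
    obtain ⟨h1, h2⟩ := cond_true h
    rcases Nat.lt_succ_iff_lt_or_eq.1 hv with h' | h'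
    · exact ih h2 v h'
    · subst h'
      exact ble_le h1

theorem inEnt_sound {w : Wd} {e : Ent} {LO HI FB : ℕ} (hb : BoxOK (zv w) LO HI) (hF : FBOK w FB)
    (h : inEnt e LO HI FB = true) : InEnt w e := by
  unfold inEnt at h
  obtain ⟨h1, h⟩ := cond_true h
  obtain ⟨h2, h⟩ := cond_true h
  obtain ⟨h3, -⟩ : leDig HI (Ent.hi e) 34 = true ∧ True := ⟨h, trivial⟩
  rw [Nat.beq_eq, nland] at h1
  refine ⟨fun v hv => ⟨?_, ?_⟩, ?_⟩
  · have e1 := leDig_sound h2 (33 - v) (by omega)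
    exact le_trans (by exact_mod_cast e1) (hb.le v hv)
  · have e1 := leDig_sound h3 (33 - v) (by omega)
    exact le_trans (hb.ge v hv) (by exact_mod_cast e1)
  · intro i j hi hj
    obtain ⟨o, κ, ho, hκ, hbit, hA⟩ := hF i j hi hj
    refine ⟨o, κ, ho, hκ, ?_, hA⟩
    rw [← h1, Nat.testBit_and, Bool.and_eq_true] at hbit
    exact hbit.2

theorem citeK_sound {w : Wd} {LO HI FB : ℕ} (hb : BoxOK (zv w) LO HI) (hF : FBOK w FB) :
    ∀ {tab : List Ent} {k : ℕ}, citeK tab LO HI FB k = true → ∃ e ∈ tab, InEnt w e := by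
  intro tab
  induction tab with
  | nil =>
    intro k h
    exact absurd (show false = true from h) (by simp)
  | cons e tab ih =>
    intro k h
    change cond (Nat.beq k 0) (inEnt e LO HI FB) (citeK tab LO HI FB (Nat.sub k 1)) = true at h
    cases h0 : Nat.beq k 0
    · rw [h0] at h
      obtain ⟨e', he', h'⟩ := ih (show citeK tab LO HI FB (Nat.sub k 1) = true from h)
      exact ⟨e', List.mem_cons_of_mem _ he', h'⟩
    · rw [h0] at h
      exact ⟨e, List.mem_cons_self, inEnt_sound hb hF h⟩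

/-! ### Rows -/

theorem keepK_sub : ∀ {env : List ℕ} {m : ℕ}, ∀ P ∈ keepK env m, P ∈ env := by
  intro env
  induction env with
  | nil =>
    intro m P hP
    exact absurd (show P ∈ ([] : List ℕ) from hP) (by simp)
  | cons Q env ih =>
    intro m P hP
    change P ∈ cond (Nat.beq m 0) [] (cond (Nat.beq (Nat.land m 1) 0)
      (keepK env (Nat.shiftRight m 1)) (Q :: (keepK env (Nat.shiftRight m 1)))) at hP
    cases h0 : Nat.beq m 0 <;> rw [h0] at hP
    · cases h1 : Nat.beq (Nat.land m 1) 0 <;> rw [h1] at hP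
      · rcases List.mem_cons.1 hP with rfl | hP
        · exact List.mem_cons_self
        · exact List.mem_cons_of_mem _ (ih P hP)
      · exact List.mem_cons_of_mem _ (ih P hP)
    · exact absurd (show P ∈ ([] : List ℕ) from hP) (by simp)

theorem env_cons {z : ℕ → ℝ} {env : List ℕ} {P : ℕ} (h : ∀ Q ∈ env, RowOK z Q) (hP : RowOK z P) :
    ∀ Q ∈ P :: env, RowOK z Q := by
  intro Q hQ
  rcases List.mem_cons.1 hQ with rfl | hQ
  · exact hP
  · exact h Q hQ

end RunM

open RunM in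
theorem specRun (h1 : SpecRow1) (h3 : SpecRow3) (hw : SpecWall) (he : SpecExcl) : SpecRun := by
  intro w hW G tab htab c
  induction c with
  | fin lam =>
    intro env FB LO HI henv hF hb h
    exact (farkas_sound henv hb h).elim
  | cite k =>
    intro env FB LO HI henv hF hb h
    obtain ⟨e, he, hin⟩ := citeK_sound hb hF h
    exact htab e he hin
  | tight v s U lam c ih =>
    intro env FB LO HI henv hF hb h
    change cond (Nat.blt U 4294967296)
        (cond (Nat.ble v 32)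
          (cond (Nat.beq s 0)
            (cond (farkas env lam LO (setB HI (Nat.sub 33 v) U))
              (run tab c env FB (setB LO (Nat.sub 33 v) U) HI) false)
            (cond (farkas env lam (setB LO (Nat.sub 33 v) U) HI)
              (run tab c env FB LO (setB HI (Nat.sub 33 v) U)) false)) false) false = true at h
    obtain ⟨hU, h⟩ := cond_true h
    obtain ⟨hv, h⟩ := cond_true h
    have hU' := blt_lt hU
    have hv' := ble_le hv
    cases hs : Nat.beq s 0
    · rw [hs] at h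
      obtain ⟨hf, h⟩ := cond_true h
      refine ih env FB LO _ henv hF (BoxOK.setHi hb hU' hv' ?_) h
      by_contra hlt
      push Not at hlt
      exact farkas_sound henv (BoxOK.setLo hb hU' hv' hlt.le) hf
    · rw [hs] at h
      obtain ⟨hf, h⟩ := cond_true h
      refine ih env FB _ HI henv hF (BoxOK.setLo hb hU' hv' ?_) h
      by_contra hlt
      push Not at hlt
      exact farkas_sound henv (BoxOK.setHi hb hU' hv' hlt.le) hf
  | split v U c1 c2 ih1 ih2 =>
    intro env FB LO HI henv hF hb h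
    change cond (Nat.blt U 4294967296)
        (cond (Nat.ble v 32)
          (cond (run tab c1 env FB LO (setB HI (Nat.sub 33 v) U))
            (run tab c2 env FB (setB LO (Nat.sub 33 v) U) HI) false) false) false = true at h
    obtain ⟨hU, h⟩ := cond_true h
    obtain ⟨hv, h⟩ := cond_true h
    obtain ⟨ha, hc⟩ := cond_true h
    have hU' := blt_lt hU
    have hv' := ble_le hv
    rcases le_total (zv w v) U with hz | hz
    · exact ih1 env FB LO _ henv hF (BoxOK.setHi hb hU' hv' hz) ha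
    · exact ih2 env FB _ HI henv hF (BoxOK.setLo hb hU' hv' hz) hc
  | excl i j o kap e1 e2 c ih =>
    intro env FB LO HI henv hF hb h
    change cond (exclK LO HI i j o kap e1 e2)
        (run tab c env
          (Nat.xor FB
            (Nat.pow 2 (Nat.add (Nat.add (Nat.mul 8 (Nat.add (Nat.mul 16 i) j)) (Nat.mul 4 o)) kap)))
          LO HI) false = true at h
    obtain ⟨hx, h⟩ := cond_true h
    obtain ⟨hi, hj, ho, hκ⟩ := exclK_range hx
    have hn := he w hW LO HI hb i j o kap e1 e2 hx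
    have hF' := FBOK.flip hF hi hj ho hκ hn
    rw [← Nat.add_assoc] at hF'
    exact ih env _ LO HI henv hF' hb h
  | alt i j b c1 c2 ih1 ih2 =>
    intro env FB LO HI henv hF hb h
    change cond (Nat.blt i j)
        (cond (Nat.ble j 10)
          (cond (Nat.ble b 7)
            (cond
              (run tab c1 env
                (Nat.add
                  (Nat.sub FB (Nat.shiftLeft (mskK FB i j) (Nat.mul 8 (Nat.add (Nat.mul 16 i) j))))
                  (Nat.pow 2 (Nat.add (Nat.mul 8 (Nat.add (Nat.mul 16 i) j)) b))) LO HI)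
              (run tab c2 env
                (Nat.xor FB (Nat.pow 2 (Nat.add (Nat.mul 8 (Nat.add (Nat.mul 16 i) j)) b)))
                LO HI) false) false) false) false = true at h
    obtain ⟨hi, h⟩ := cond_true h
    obtain ⟨hj, h⟩ := cond_true h
    obtain ⟨hb7, h⟩ := cond_true h
    obtain ⟨ha, hc⟩ := cond_true h
    have hi' := blt_lt hi
    have hj' := ble_le hj
    have hb' := ble_le hb7
    have hbe : b = 4 * (b / 4) + b % 4 := by omega
    by_cases hA : AltN w i j (b / 4) (b % 4)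
    · have hF' := FBOK.choose hF hi' hj' (by omega) (by omega) hA
      rw [← hbe] at hF'
      have e1 : Nat.add (Nat.sub FB (Nat.shiftLeft (mskK FB i j)
          (Nat.mul 8 (Nat.add (Nat.mul 16 i) j))))
          (Nat.pow 2 (Nat.add (Nat.mul 8 (Nat.add (Nat.mul 16 i) j)) b)) =
          setDg 8 FB (16 * i + j) (2 ^ b) := by
        simp only [nadd, nsub, nmul]
        unfold setDg
        rw [show ∀ a b : ℕ, Nat.shiftLeft a b = a <<< b from fun _ _ => rfl, Nat.shiftLeft_eq,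
          mskK_eq]
        congr 1
        change 2 ^ (8 * (16 * i + j) + b) = 2 ^ b * 2 ^ (8 * (16 * i + j))
        rw [pow_add, mul_comm]
      rw [e1] at ha
      exact ih1 env _ LO HI henv hF' hb ha
    · have hF' := FBOK.flip hF hi' hj' (by omega) (by omega) hA
      rw [← hbe] at hF'
      exact ih2 env _ LO HI henv hF' hb hc
  | nofact i j =>
    intro env FB LO HI henv hF hb h
    change cond (Nat.blt i j) (cond (Nat.ble j 10) (Nat.beq (mskK FB i j) 0) false) false = true at h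
    obtain ⟨hi, h⟩ := cond_true h
    obtain ⟨hj, h⟩ := cond_true h
    rw [Nat.beq_eq] at h
    obtain ⟨o, κ, -, -, hbit, -⟩ := FBOK.mask hF (blt_lt hi) (ble_le hj)
    rw [h, Nat.zero_testBit] at hbit
    exact absurd hbit (by simp)
  | wall i sd e1 e2 c ih =>
    intro env FB LO HI henv hF hb h
    change wallK LO HI i sd e1 e2 (fun P => run tab c (P :: env) FB LO HI) = true at h
    obtain ⟨P, hP, h⟩ := hw w hW LO HI hb i sd e1 e2 _ h
    exact ih (P :: env) FB LO HI (env_cons henv hP) hF hb h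
  | row1 i j o kap e1 e2 lam a0 c ih =>
    intro env FB LO HI henv hF hb h
    change cond (Nat.beq (mskK FB i j) (Nat.pow 2 (Nat.add (Nat.mul 4 o) kap)))
        (row1K LO HI i j o kap e1 e2 lam a0 fun P => run tab c (P :: env) FB LO HI) false = true
      at h
    obtain ⟨hm, h⟩ := cond_true h
    rw [Nat.beq_eq] at hm
    obtain ⟨hi, hj, ho, hκ⟩ := row1K_range h
    have hA := FBOK.single hF hi hj ho hκ hm
    obtain ⟨P, hP, h⟩ := h1 w hW LO HI hb i j o kap e1 e2 lam a0 _ hA h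
    exact ih (P :: env) FB LO HI (env_cons henv hP) hF hb h
  | row3 i j kap e lam mu a0 c ih =>
    intro env FB LO HI henv hF hb h
    change cond (Nat.beq (Nat.lor (mskK FB i j) (Nat.shiftLeft 17 kap)) (Nat.shiftLeft 17 kap))
        (row3K LO HI i j kap e lam mu a0 fun P => run tab c (P :: env) FB LO HI) false = true at h
    obtain ⟨hm, h⟩ := cond_true h
    rw [Nat.beq_eq] at hm
    obtain ⟨hi, hj, hκ⟩ := row3K_range h
    have hA := FBOK.double hF hi hj hκ hm
    obtain ⟨P, hP, h⟩ := h3 w hW LO HI hb i j kap e lam mu a0 _ hA h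
    exact ih (P :: env) FB LO HI (env_cons henv hP) hF hb h
  | keep mask c ih =>
    intro env FB LO HI henv hF hb h
    exact ih (keepK env mask) FB LO HI (fun P hP => henv P (keepK_sub P hP)) hF hb h

end Fine
end Pool.Agent.MP_abb58c_co
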