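import Pool.Agent.Lib.MP_abb58c_co.FineCheck
import Pool.Agent.Lib.MP_abb58c_co.FineUV

/-! MP_abb58c_co, FINE: semantics of the checker `FineCheck` and the specs of its soundness -/

namespace Pool.Agent.MP_abb58c_co
namespace Fine

open Real

/-- label number `i` -/
def lab (i : ℕ) : Fin 11 := Fin.ofNat 11 i

/-- the variables of the rows -/
noncomputable def zv (w : Wd) (v : ℕ) : ℝ :=
  if v = 33 then 1073741824 else
  if v % 3 = 0 then (MM : ℝ) * w.U (tiltS (lab (v / 3))) (lab (v / 3)) else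
  if v % 3 = 1 then
    (MM : ℝ) * w.V (tiltS (lab (v / 3))) (lab (v / 3)) + vb (tiltS (lab (v / 3))) else
  (MM : ℝ) * (w.t (lab (v / 3)) - base (tiltS (lab (v / 3)))) + MM

/-- alternative `(o, κ)` of the pair `i j` -/
def AltN (w : Wd) (i j o κ : ℕ) : Prop :=
  (o = 0 ∧ Alt (w.t (lab i) + κ * (π / 2)) (w.t (lab j) - w.t (lab i))
    (w.x (lab j) - w.x (lab i)) (w.y (lab j) - w.y (lab i))) ∨
  (o = 1 ∧ Alt (w.t (lab j) + κ * (π / 2)) (w.t (lab i) - w.t (lab j))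
    (w.x (lab j) - w.x (lab i)) (w.y (lab j) - w.y (lab i)))

/-- validity of the facts -/
def FBOK (w : Wd) (FB : ℕ) : Prop :=
  ∀ i j : ℕ, i < j → j ≤ 10 → ∃ o κ : ℕ, o ≤ 1 ∧ κ ≤ 3 ∧
    FB.testBit (8 * (16 * i + j) + (4 * o + κ)) = true ∧ AltN w i j o κ

/-- the world is in the box and the facts of the entry -/
def InEnt (w : Wd) (e : Ent) : Prop :=
  (∀ v < 34, (dg 144 e.lo (33 - v) : ℝ) ≤ zv w v ∧ zv w v ≤ (dg 144 e.hi (33 - v) : ℝ)) ∧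
  FBOK w e.fb

/-! ### Specs -/

/-- soundness of `row1K` -/
def SpecRow1 : Prop := ∀ (w : Wd), World w → ∀ LO HI : ℕ, BoxOK (zv w) LO HI →
  ∀ (i j o kap e1 e2 lam a0 : ℕ) (k : ℕ → Bool), AltN w i j o kap →
  row1K LO HI i j o kap e1 e2 lam a0 k = true → ∃ P, RowOK (zv w) P ∧ k P = true

/-- soundness of `row3K` -/
def SpecRow3 : Prop := ∀ (w : Wd), World w → ∀ LO HI : ℕ, BoxOK (zv w) LO HI →
  ∀ (i j kap e lam mu a0 : ℕ) (k : ℕ → Bool), (AltN w i j 0 kap ∨ AltN w i j 1 kap) →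
  row3K LO HI i j kap e lam mu a0 k = true → ∃ P, RowOK (zv w) P ∧ k P = true

/-- soundness of `wallK` -/
def SpecWall : Prop := ∀ (w : Wd), World w → ∀ LO HI : ℕ, BoxOK (zv w) LO HI →
  ∀ (i sd e1 e2 : ℕ) (k : ℕ → Bool),
  wallK LO HI i sd e1 e2 k = true → ∃ P, RowOK (zv w) P ∧ k P = true

/-- soundness of `exclK` -/
def SpecExcl : Prop := ∀ (w : Wd), World w → ∀ LO HI : ℕ, BoxOK (zv w) LO HI →
  ∀ i j o kap e1 e2 : ℕ, exclK LO HI i j o kap e1 e2 = true → ¬ AltN w i j o kap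

/-- soundness of the checker (to be proved from the four specs above) -/
def SpecRun : Prop := ∀ (w : Wd), World w → ∀ (G : Prop) (tab : List Ent),
  (∀ e ∈ tab, InEnt w e → G) → ∀ (c : Cert) (env : List ℕ) (FB LO HI : ℕ),
  (∀ P ∈ env, RowOK (zv w) P) → FBOK w FB → BoxOK (zv w) LO HI →
  run tab c env FB LO HI = true → G

/-- the rows for the coordinates `x`, `y` of the tilted squares -/
def SpecXY : Prop := ∀ (w : Wd) (l sd B : ℕ), l ≤ 10 → tiltS (lab l) = true → B ≤ 500000000 →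
  ((sd = 0 ∧ (B : ℝ) ≤ 100000000 * w.x (lab l)) ∨ (sd = 1 ∧ 100000000 * w.x (lab l) ≤ B) ∨
   (sd = 2 ∧ (B : ℝ) ≤ 100000000 * w.y (lab l)) ∨ (sd = 3 ∧ 100000000 * w.y (lab l) ≤ B)) →
  RowOK (zv w) (xyP l sd B)

/-! ### Specs of the parts of `ownK`; `b` is the type of the label -/

/-- the type of a label -/
def SpecTyp : Prop := ∀ (i : ℕ) (k : ℕ → ℕ → ℕ → Bool), i ≤ 10 → typ i k = true →
  k (baseC (tiltS (lab i))) (baseS (tiltS (lab i))) (vb (tiltS (lab i))) = true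

/-- the box of a label -/
def SpecGetL : Prop := ∀ (z : ℕ → ℝ) (LO HI : ℕ), BoxOK z LO HI → ∀ (i : ℕ)
  (k : ℕ → ℕ → ℕ → ℕ → ℕ → ℕ → Bool), i ≤ 10 → getL LO HI i k = true →
  ∃ lx hx ly hy lt ht : ℕ, ((lx : ℝ) ≤ z (3 * i) ∧ z (3 * i) ≤ hx) ∧
    ((ly : ℝ) ≤ z (3 * i + 1) ∧ z (3 * i + 1) ≤ hy) ∧
    ((lt : ℝ) ≤ z (3 * i + 2) ∧ z (3 * i + 2) ≤ ht) ∧ k lx hx ly hy lt ht = true

/-- coefficients of the form `953 (P x + Q y)` in local coordinates: `(xp - xn)`, `(yp - yn)` -/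
def SpecCoef : Prop := ∀ (b : Bool) (Pp Pn Qp Qn : ℕ) (k : ℕ → ℕ → ℕ → ℕ → Bool),
  coefK (baseC b) (baseS b) Pp Pn Qp Qn k = true → ∃ xp xn yp yn : ℕ,
    (xp : ℝ) - xn = baseC b * ((Pp : ℝ) - Pn) + baseS b * ((Qp : ℝ) - Qn) ∧
    (yp : ℝ) - yn = baseC b * ((Qp : ℝ) - Qn) - baseS b * ((Pp : ℝ) - Pn) ∧
    k xp xn yp yn = true

/-- bounds of the linear form `(xj) Xj + (yj) (Yj - T4j) - (xi) Xi - (yi) (Yi - T4i)` -/
def SpecBnd : Prop := ∀ (T4i T4j xpi xni ypi yni xpj xnj ypj ynj lxi hxi lyi hyi lxj hxj lyj hyj : ℕ)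
  (Xi Yi Xj Yj F : ℝ) (k : ℕ → ℕ → ℕ → ℕ → ℕ → ℕ → Bool),
  (lxi : ℝ) ≤ Xi → Xi ≤ hxi → (lyi : ℝ) ≤ Yi → Yi ≤ hyi →
  (lxj : ℝ) ≤ Xj → Xj ≤ hxj → (lyj : ℝ) ≤ Yj → Yj ≤ hyj →
  F = ((xpj : ℝ) - xnj) * Xj + ((ypj : ℝ) - ynj) * (Yj - T4j) - ((xpi : ℝ) - xni) * Xi -
    ((ypi : ℝ) - yni) * (Yi - T4i) →
  bndK T4i T4j xpi xni ypi yni xpj xnj ypj ynj lxi hxi lyi hyi lxj hxj lyj hyj k = true →
  ∃ kp kn Lp Ln Hp Hn : ℕ, (kp : ℝ) - kn = ((ypi : ℝ) - yni) * T4i - ((ypj : ℝ) - ynj) * T4j ∧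
    (Lp : ℝ) - Ln ≤ F ∧ F ≤ (Hp : ℝ) - Hn ∧ k kp kn Lp Ln Hp Hn = true

end Fine
end Pool.Agent.MP_abb58c_co
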