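import Mathlib.Analysis.SpecialFunctions.Trigonometric.Deriv
import Mathlib.Analysis.SpecialFunctions.Trigonometric.Bounds
import Mathlib.Analysis.Calculus.Deriv.MeanValue
import Mathlib.Tactic

/-! MP_abb58c_co, FINE: Taylor bounds for sine and cosine (valid for all real arguments) -/

namespace Pool.Agent.MP_abb58c_co
namespace Fine

open Real

theorem nonneg_of_deriv {f f' : ℝ → ℝ} (h0 : f 0 = 0) (hd : ∀ x, HasDerivAt f (f' x) x)
    (hf : ∀ x, 0 ≤ x → 0 ≤ f' x) {x : ℝ} (hx : 0 ≤ x) : 0 ≤ f x := by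
  have hm : MonotoneOn f (Set.Ici 0) := by
    apply monotoneOn_of_deriv_nonneg (convex_Ici 0)
    · exact fun y _ => (hd y).continuousAt.continuousWithinAt
    · exact fun y _ => (hd y).differentiableAt.differentiableWithinAt
    · intro y hy
      rw [interior_Ici] at hy
      rw [(hd y).deriv]
      exact hf y (le_of_lt hy)
  have := hm (Set.mem_Ici.2 le_rfl) (Set.mem_Ici.2 hx) hx
  rwa [h0] at this

theorem cos_ge2 {x : ℝ} (hx : 0 ≤ x) : 0 ≤ cos x - (1 - x ^ 2 / 2) := by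
  refine nonneg_of_deriv (f := fun x => cos x - (1 - x ^ 2 / 2)) (f' := fun x => x - sin x)
    (by simp) (fun y => ?_) (fun y hy => sub_nonneg.2 (sin_le hy)) hx
  have h := (hasDerivAt_cos y).sub (((hasDerivAt_const y (1 : ℝ)).sub
    ((hasDerivAt_pow 2 y).div_const 2)))
  refine h.congr_deriv ?_
  norm_num
  try ring

theorem sin_ge3 {x : ℝ} (hx : 0 ≤ x) : 0 ≤ sin x - (x - x ^ 3 / 6) := by
  refine nonneg_of_deriv (f := fun x => sin x - (x - x ^ 3 / 6))
    (f' := fun x => cos x - (1 - x ^ 2 / 2))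
    (by simp) (fun y => ?_) (fun y hy => cos_ge2 hy) hx
  have h := (hasDerivAt_sin y).sub (((hasDerivAt_id y).sub
    ((hasDerivAt_pow 3 y).div_const 6)))
  refine h.congr_deriv ?_
  norm_num
  try ring

theorem cos_le4 {x : ℝ} (hx : 0 ≤ x) : 0 ≤ (1 - x ^ 2 / 2 + x ^ 4 / 24) - cos x := by
  refine nonneg_of_deriv (f := fun x => (1 - x ^ 2 / 2 + x ^ 4 / 24) - cos x)
    (f' := fun x => sin x - (x - x ^ 3 / 6))
    (by simp) (fun y => ?_) (fun y hy => sin_ge3 hy) hx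
  have h := ((((hasDerivAt_const y (1 : ℝ)).sub ((hasDerivAt_pow 2 y).div_const 2)).add
    ((hasDerivAt_pow 4 y).div_const 24))).sub (hasDerivAt_cos y)
  refine h.congr_deriv ?_
  norm_num
  try ring

theorem sin_le5 {x : ℝ} (hx : 0 ≤ x) : 0 ≤ (x - x ^ 3 / 6 + x ^ 5 / 120) - sin x := by
  refine nonneg_of_deriv (f := fun x => (x - x ^ 3 / 6 + x ^ 5 / 120) - sin x)
    (f' := fun x => (1 - x ^ 2 / 2 + x ^ 4 / 24) - cos x)
    (by simp) (fun y => ?_) (fun y hy => cos_le4 hy) hx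
  have h := ((((hasDerivAt_id y).sub ((hasDerivAt_pow 3 y).div_const 6)).add
    ((hasDerivAt_pow 5 y).div_const 120))).sub (hasDerivAt_sin y)
  refine h.congr_deriv ?_
  norm_num
  try ring

theorem cos_ge6 {x : ℝ} (hx : 0 ≤ x) :
    0 ≤ cos x - (1 - x ^ 2 / 2 + x ^ 4 / 24 - x ^ 6 / 720) := by
  refine nonneg_of_deriv (f := fun x => cos x - (1 - x ^ 2 / 2 + x ^ 4 / 24 - x ^ 6 / 720))
    (f' := fun x => (x - x ^ 3 / 6 + x ^ 5 / 120) - sin x)
    (by simp) (fun y => ?_) (fun y hy => sin_le5 hy) hx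
  have h := (hasDerivAt_cos y).sub ((((hasDerivAt_const y (1 : ℝ)).sub
    ((hasDerivAt_pow 2 y).div_const 2)).add
    ((hasDerivAt_pow 4 y).div_const 24)).sub ((hasDerivAt_pow 6 y).div_const 720))
  refine h.congr_deriv ?_
  norm_num
  try ring

theorem sin_ge7 {x : ℝ} (hx : 0 ≤ x) :
    0 ≤ sin x - (x - x ^ 3 / 6 + x ^ 5 / 120 - x ^ 7 / 5040) := by
  refine nonneg_of_deriv (f := fun x => sin x - (x - x ^ 3 / 6 + x ^ 5 / 120 - x ^ 7 / 5040))
    (f' := fun x => cos x - (1 - x ^ 2 / 2 + x ^ 4 / 24 - x ^ 6 / 720))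
    (by simp) (fun y => ?_) (fun y hy => cos_ge6 hy) hx
  have h := (hasDerivAt_sin y).sub ((((hasDerivAt_id y).sub
    ((hasDerivAt_pow 3 y).div_const 6)).add
    ((hasDerivAt_pow 5 y).div_const 120)).sub ((hasDerivAt_pow 7 y).div_const 5040))
  refine h.congr_deriv ?_
  norm_num
  try ring

theorem cos_le8 {x : ℝ} (hx : 0 ≤ x) :
    0 ≤ (1 - x ^ 2 / 2 + x ^ 4 / 24 - x ^ 6 / 720 + x ^ 8 / 40320) - cos x := by
  refine nonneg_of_deriv
    (f := fun x => (1 - x ^ 2 / 2 + x ^ 4 / 24 - x ^ 6 / 720 + x ^ 8 / 40320) - cos x)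
    (f' := fun x => sin x - (x - x ^ 3 / 6 + x ^ 5 / 120 - x ^ 7 / 5040))
    (by simp) (fun y => ?_) (fun y hy => sin_ge7 hy) hx
  have h := (((((hasDerivAt_const y (1 : ℝ)).sub
    ((hasDerivAt_pow 2 y).div_const 2)).add
    ((hasDerivAt_pow 4 y).div_const 24)).sub ((hasDerivAt_pow 6 y).div_const 720)).add
    ((hasDerivAt_pow 8 y).div_const 40320)).sub (hasDerivAt_cos y)
  refine h.congr_deriv ?_
  norm_num
  try ring

/-- `|cos b - (1 - b^2/2 + b^4/24 - b^6/720)| ≤ b^8/40320` -/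
theorem abs_cos_sub8 (b : ℝ) :
    |cos b - (1 - b ^ 2 / 2 + b ^ 4 / 24 - b ^ 6 / 720)| ≤ b ^ 8 / 40320 := by
  have h := cos_ge6 (abs_nonneg b)
  have h' := cos_le8 (abs_nonneg b)
  have e4 : |b| ^ 4 = b ^ 4 := by
    rw [← abs_pow]; exact abs_of_nonneg (by positivity)
  have e6 : |b| ^ 6 = b ^ 6 := by
    rw [← abs_pow]; exact abs_of_nonneg (by positivity)
  have e8 : |b| ^ 8 = b ^ 8 := by
    rw [← abs_pow]; exact abs_of_nonneg (by positivity)
  rw [cos_abs, sq_abs, e4, e6] at h h'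
  rw [e8] at h'
  have h3 : 0 ≤ b ^ 8 := by positivity
  rw [abs_le]
  constructor <;> linarith

/-- `1 - b^2/2 ≤ cos b` -/
theorem cos_lower (b : ℝ) : 1 - b ^ 2 / 2 ≤ cos b := by
  have h := cos_ge2 (abs_nonneg b)
  rw [cos_abs, sq_abs] at h
  linarith

/-- `cos b ≤ 1 - b^2/2 + b^4/24` -/
theorem cos_upper (b : ℝ) : cos b ≤ 1 - b ^ 2 / 2 + b ^ 4 / 24 := by
  have h := cos_le4 (abs_nonneg b)
  have e4 : |b| ^ 4 = b ^ 4 := by
    rw [← abs_pow]; exact abs_of_nonneg (by positivity)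
  rw [cos_abs, sq_abs, e4] at h
  linarith

/-- `|sin b - b| ≤ |b|^3/6` -/
theorem abs_sin_sub (b : ℝ) : |sin b - b| ≤ |b| ^ 3 / 6 := by
  rcases le_total 0 b with hb | hb
  · rw [abs_of_nonneg hb, abs_le]
    have h1 := sin_ge3 hb
    have h2 := sin_le hb
    constructor
    · linarith
    · have : 0 ≤ b ^ 3 := by positivity
      linarith
  · have hb' : 0 ≤ -b := by linarith
    rw [abs_of_nonpos hb, abs_le]
    have h1 := sin_ge3 hb'
    have h2 := sin_le hb'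
    rw [sin_neg] at h1 h2
    have : 0 ≤ (-b) ^ 3 := by positivity
    constructor <;> linarith

/-- `|cos b - (1 - b^2/2 + b^4/24)| ≤ b^6/720` -/
theorem abs_cos_sub6 (b : ℝ) : |cos b - (1 - b ^ 2 / 2 + b ^ 4 / 24)| ≤ b ^ 6 / 720 := by
  have h := cos_ge6 (abs_nonneg b)
  have e4 : |b| ^ 4 = b ^ 4 := by
    rw [← abs_pow]; exact abs_of_nonneg (by positivity)
  have e6 : |b| ^ 6 = b ^ 6 := by
    rw [← abs_pow]; exact abs_of_nonneg (by positivity)
  rw [cos_abs, sq_abs, e4, e6] at h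
  have h2 := cos_upper b
  have h3 : 0 ≤ b ^ 6 := by positivity
  rw [abs_le]
  constructor <;> linarith

/-- `|sin b - (b - b^3/6 + b^5/120)| ≤ |b|^7/5040` -/
theorem abs_sin_sub7 (b : ℝ) : |sin b - (b - b ^ 3 / 6 + b ^ 5 / 120)| ≤ |b| ^ 7 / 5040 := by
  rcases le_total 0 b with hb | hb
  · rw [abs_of_nonneg hb, abs_le]
    have h1 := sin_ge7 hb
    have h2 := sin_le5 hb
    have : 0 ≤ b ^ 7 := by positivity
    constructor <;> linarith
  · have hb' : 0 ≤ -b := by linarith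
    rw [abs_of_nonpos hb, abs_le]
    have h1 := sin_ge7 hb'
    have h2 := sin_le5 hb'
    rw [sin_neg] at h1 h2
    have : 0 ≤ (-b) ^ 7 := by positivity
    have e3 : (-b) ^ 3 = - b ^ 3 := by ring
    have e5 : (-b) ^ 5 = - b ^ 5 := by ring
    rw [e3, e5] at h1 h2
    constructor <;> linarith

end Fine
end Pool.Agent.MP_abb58c_co
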