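import Pool.Agent.Lib.MP_abb58c_co.Spec

/-! MP_abb58c_co, module GEOM: the algebraic form of packings -/

open Real Set

namespace Pool.Agent.MP_abb58c_co

namespace Geom

/-- coordinates of a point in the frame of the square -/
lemma frame_fst {c s a b : ℝ} (h : c ^ 2 + s ^ 2 = 1) :
    (a * c + b * s) * c - (b * c - a * s) * s = a := by
  have : (a * c + b * s) * c - (b * c - a * s) * s = a * (c ^ 2 + s ^ 2) := by ring
  rw [this, h, mul_one]

lemma frame_snd {c s a b : ℝ} (h : c ^ 2 + s ^ 2 = 1) :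
    (a * c + b * s) * s + (b * c - a * s) * c = b := by
  have : (a * c + b * s) * s + (b * c - a * s) * c = b * (c ^ 2 + s ^ 2) := by ring
  rw [this, h, mul_one]

/-- the closed square in algebraic form -/
def cl (q : Sq) : Set (ℝ × ℝ) :=
  {p | |(p.1 - q.x) * q.c + (p.2 - q.y) * q.s| ≤ 1 / 2 ∧
       |(p.2 - q.y) * q.c - (p.1 - q.x) * q.s| ≤ 1 / 2}

lemma isOpen_op (q : Sq) : IsOpen q.op := by
  have h1 : Continuous fun p : ℝ × ℝ => |(p.1 - q.x) * q.c + (p.2 - q.y) * q.s| := by fun_prop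
  have h2 : Continuous fun p : ℝ × ℝ => |(p.2 - q.y) * q.c - (p.1 - q.x) * q.s| := by fun_prop
  exact (isOpen_lt h1 continuous_const).inter (isOpen_lt h2 continuous_const)

lemma op_subset_cl (q : Sq) : q.op ⊆ cl q := fun _ hp => ⟨hp.1.le, hp.2.le⟩

lemma interior_cl (q : Sq) (hq : q.c ^ 2 + q.s ^ 2 = 1) : interior (cl q) = q.op := by
  apply Subset.antisymm _ (interior_maximal (op_subset_cl q) (isOpen_op q))
  intro p hp
  have hcl : p ∈ cl q := interior_subset hp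
  have key : ∀ v : ℝ × ℝ, ∃ τ : ℝ, 0 < τ ∧ p + τ • v ∈ cl q := by
    intro v
    have hc : Continuous fun τ : ℝ => p + τ • v := by fun_prop
    have h0 : (fun τ : ℝ => p + τ • v) ⁻¹' interior (cl q) ∈ nhds (0 : ℝ) := by
      apply hc.continuousAt.preimage_mem_nhds
      simpa using isOpen_interior.mem_nhds hp
    obtain ⟨ε, hε, hball⟩ := Metric.mem_nhds_iff.1 h0
    refine ⟨ε / 2, by positivity, interior_subset (hball ?_)⟩
    rw [Metric.mem_ball, Real.dist_eq, sub_zero, abs_of_pos (by positivity)]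
    linarith
  set u := (p.1 - q.x) * q.c + (p.2 - q.y) * q.s with hu
  set v := (p.2 - q.y) * q.c - (p.1 - q.x) * q.s with hv
  have hu1 := abs_le.1 hcl.1
  have hv1 := abs_le.1 hcl.2
  have e1 : ∀ τ a : ℝ, (p + τ • ((a * q.c, a * q.s) : ℝ × ℝ) ∈ cl q) → u + τ * a ≤ 1 / 2 ∧
      -(1 / 2) ≤ u + τ * a := by
    intro τ a h
    have h1 := abs_le.1 h.1
    have h2 : ((p + τ • ((a * q.c, a * q.s) : ℝ × ℝ)).1 - q.x) * q.c +
        ((p + τ • ((a * q.c, a * q.s) : ℝ × ℝ)).2 - q.y) * q.s = u + τ * a := by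
      simp only [Prod.fst_add, Prod.snd_add, Prod.smul_fst, Prod.smul_snd, smul_eq_mul]
      have : (p.1 + τ * (a * q.c) - q.x) * q.c + (p.2 + τ * (a * q.s) - q.y) * q.s =
          u + τ * a * (q.c ^ 2 + q.s ^ 2) := by rw [hu]; ring
      rw [this, hq]; ring
    rw [h2] at h1
    exact ⟨h1.2, h1.1⟩
  have e2 : ∀ τ a : ℝ, (p + τ • ((-(a * q.s), a * q.c) : ℝ × ℝ) ∈ cl q) → v + τ * a ≤ 1 / 2 ∧
      -(1 / 2) ≤ v + τ * a := by
    intro τ a h
    have h1 := abs_le.1 h.2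
    have h2 : ((p + τ • ((-(a * q.s), a * q.c) : ℝ × ℝ)).2 - q.y) * q.c -
        ((p + τ • ((-(a * q.s), a * q.c) : ℝ × ℝ)).1 - q.x) * q.s = v + τ * a := by
      simp only [Prod.fst_add, Prod.snd_add, Prod.smul_fst, Prod.smul_snd, smul_eq_mul]
      have : (p.2 + τ * (a * q.c) - q.y) * q.c - (p.1 + τ * (-(a * q.s)) - q.x) * q.s =
          v + τ * a * (q.c ^ 2 + q.s ^ 2) := by rw [hv]; ring
      rw [this, hq]; ring
    rw [h2] at h1
    exact ⟨h1.2, h1.1⟩
  constructor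
  · rw [abs_lt]
    constructor
    · obtain ⟨τ, hτ, h⟩ := key ((-1 * q.c, -1 * q.s) : ℝ × ℝ)
      have := (e1 τ (-1) h).2
      linarith
    · obtain ⟨τ, hτ, h⟩ := key ((1 * q.c, 1 * q.s) : ℝ × ℝ)
      have := (e1 τ 1 h).1
      linarith
  · rw [abs_lt]
    constructor
    · obtain ⟨τ, hτ, h⟩ := key ((-(-1 * q.s), -1 * q.c) : ℝ × ℝ)
      have := (e2 τ (-1) h).2
      linarith
    · obtain ⟨τ, hτ, h⟩ := key ((-(1 * q.s), 1 * q.c) : ℝ × ℝ)
      have := (e2 τ 1 h).1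
      linarith

lemma abs_comb {u v c s : ℝ} (hu : |u| ≤ 1 / 2) (hv : |v| ≤ 1 / 2) :
    |u * c - v * s| ≤ (|c| + |s|) / 2 ∧ |u * s + v * c| ≤ (|c| + |s|) / 2 := by
  have h1 : |u * c| ≤ 1 / 2 * |c| := by
    rw [abs_mul]; exact mul_le_mul_of_nonneg_right hu (abs_nonneg _)
  have h2 : |v * s| ≤ 1 / 2 * |s| := by
    rw [abs_mul]; exact mul_le_mul_of_nonneg_right hv (abs_nonneg _)
  have h3 : |u * s| ≤ 1 / 2 * |s| := by
    rw [abs_mul]; exact mul_le_mul_of_nonneg_right hu (abs_nonneg _)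
  have h4 : |v * c| ≤ 1 / 2 * |c| := by
    rw [abs_mul]; exact mul_le_mul_of_nonneg_right hv (abs_nonneg _)
  constructor
  · have := abs_sub (u * c) (v * s)
    linarith
  · have := abs_add_le (u * s) (v * c)
    linarith

/-- a point of the closed square with given frame coordinates -/
lemma mem_cl (q : Sq) (hq : q.c ^ 2 + q.s ^ 2 = 1) {u v : ℝ} (hu : |u| ≤ 1 / 2)
    (hv : |v| ≤ 1 / 2) : ((q.x + (u * q.c - v * q.s), q.y + (u * q.s + v * q.c)) : ℝ × ℝ) ∈ cl q := by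
  constructor
  · have : (q.x + (u * q.c - v * q.s) - q.x) * q.c + (q.y + (u * q.s + v * q.c) - q.y) * q.s =
        u * (q.c ^ 2 + q.s ^ 2) := by ring
    show |(q.x + (u * q.c - v * q.s) - q.x) * q.c + (q.y + (u * q.s + v * q.c) - q.y) * q.s| ≤ _
    rw [this, hq, mul_one]
    exact hu
  · have : (q.y + (u * q.s + v * q.c) - q.y) * q.c - (q.x + (u * q.c - v * q.s) - q.x) * q.s =
        v * (q.c ^ 2 + q.s ^ 2) := by ring
    show |(q.y + (u * q.s + v * q.c) - q.y) * q.c - (q.x + (u * q.c - v * q.s) - q.x) * q.s| ≤ _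
    rw [this, hq, mul_one]
    exact hv

lemma exists_sign (a : ℝ) : ∃ e : ℝ, |e| ≤ 1 / 2 ∧ e * a = |a| / 2 := by
  rcases le_total 0 a with h | h
  · exact ⟨1 / 2, by norm_num, by rw [abs_of_nonneg h]; ring⟩
  · exact ⟨-(1 / 2), by rw [abs_neg]; norm_num, by rw [abs_of_nonpos h]; ring⟩

lemma cl_subset (q : Sq) (hq : q.c ^ 2 + q.s ^ 2 = 1) (L : ℝ) :
    cl q ⊆ Icc 0 L ×ˢ Icc 0 L ↔
      q.h ≤ q.x ∧ q.x ≤ L - q.h ∧ q.h ≤ q.y ∧ q.y ≤ L - q.h := by
  constructor
  · intro h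
    obtain ⟨e, he, hec⟩ := exists_sign q.c
    obtain ⟨e', he', hes⟩ := exists_sign q.s
    have hn : |(-e)| ≤ 1 / 2 := by rwa [abs_neg]
    have hn' : |(-e')| ≤ 1 / 2 := by rwa [abs_neg]
    have h1 := h (mem_cl q hq he hn')
    have h2 := h (mem_cl q hq hn he')
    have h3 := h (mem_cl q hq he' he)
    have h4 := h (mem_cl q hq hn' hn)
    have k1 : e * q.c - -e' * q.s = q.h := by unfold Sq.h; linarith
    have k2 : -e * q.c - e' * q.s = -q.h := by unfold Sq.h; linarith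
    have k3 : e' * q.s + e * q.c = q.h := by unfold Sq.h; linarith
    have k4 : -e' * q.s + -e * q.c = -q.h := by unfold Sq.h; linarith
    have i1 := h1.1.2
    have i2 := h2.1.1
    have i3 := h3.2.2
    have i4 := h4.2.1
    simp only [k1] at i1
    simp only [k2] at i2
    simp only [k3] at i3
    simp only [k4] at i4
    exact ⟨by linarith, by linarith, by linarith, by linarith⟩
  · rintro ⟨h1, h2, h3, h4⟩ p ⟨hu, hv⟩
    obtain ⟨b1, b2⟩ := abs_comb (c := q.c) (s := q.s) hu hv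
    rw [frame_fst hq] at b1
    rw [frame_snd hq] at b2
    have c1 := abs_le.1 b1
    have c2 := abs_le.1 b2
    unfold Sq.h at h1 h2 h3 h4
    exact ⟨⟨by linarith, by linarith⟩, ⟨by linarith, by linarith⟩⟩

lemma exists_angle {c s : ℝ} (h : c ^ 2 + s ^ 2 = 1) : ∃ θ : ℝ, cos θ = c ∧ sin θ = s := by
  have h1 : c ≤ 1 := by nlinarith [sq_nonneg s]
  have h2 : -1 ≤ c := by nlinarith [sq_nonneg s]
  have h3 : sin (arccos c) ^ 2 = s ^ 2 := by
    have := sin_sq_add_cos_sq (arccos c)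
    rw [cos_arccos h2 h1] at this
    linarith
  rcases sq_eq_sq_iff_eq_or_eq_neg.1 h3 with h4 | h4
  · exact ⟨arccos c, cos_arccos h2 h1, h4⟩
  · exact ⟨-arccos c, by rw [cos_neg, cos_arccos h2 h1], by rw [sin_neg, h4, neg_neg]⟩

lemma packable_iff (L : ℝ) : Packable 11 L ↔ ∃ q, Pack L q := by
  constructor
  · rintro ⟨x, y, θ, hin, hdisj⟩
    set q : Fin 11 → Sq := fun i => ⟨x i, y i, cos (θ i), sin (θ i)⟩ with hq
    have hu : ∀ i, (q i).c ^ 2 + (q i).s ^ 2 = 1 := fun i => cos_sq_add_sin_sq (θ i)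
    have hcl : ∀ i, unitSquare (x i) (y i) (θ i) = cl (q i) := fun i => rfl
    have hc := fun i => (cl_subset (q i) (hu i) L).1 (by rw [← hcl i]; exact hin i)
    refine ⟨q, hu, fun i => (hc i).1, fun i => (hc i).2.1, fun i => (hc i).2.2.1,
      fun i => (hc i).2.2.2, fun i j hij => ?_⟩
    have := hdisj i j hij
    rwa [hcl, hcl, interior_cl _ (hu i), interior_cl _ (hu j)] at this
  · rintro ⟨q, h⟩
    choose θ hθ using fun i => exists_angle (h.unit i)
    have hcl : ∀ i, unitSquare (q i).x (q i).y (θ i) = cl (q i) := by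
      intro i
      unfold unitSquare cl
      rw [(hθ i).1, (hθ i).2]
    refine ⟨fun i => (q i).x, fun i => (q i).y, θ, fun i => ?_, fun i j hij => ?_⟩
    · rw [hcl i]
      exact (cl_subset (q i) (h.unit i) L).2 ⟨h.left i, h.right i, h.bot i, h.top i⟩
    · rw [hcl i, hcl j, interior_cl _ (h.unit i), interior_cl _ (h.unit j)]
      exact h.disj i j hij

lemma mono (L L' : ℝ) (q : Fin 11 → Sq) (hL : L ≤ L') (h : Pack L q) : Pack L' q :=
  ⟨h.unit, h.left, fun i => (h.right i).trans (by linarith), h.bot,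
    fun i => (h.top i).trans (by linarith), h.disj⟩

lemma rot (L : ℝ) (q : Fin 11 → Sq) (h : Pack L q) :
    Pack L (fun i => ⟨L - (q i).y, (q i).x, (q i).c, (q i).s⟩) := by
  refine ⟨h.unit, fun i => ?_, fun i => ?_, fun i => ?_, fun i => ?_, fun i j hij => ?_⟩
  · have := h.top i
    show (q i).h ≤ L - (q i).y
    linarith
  · have := h.bot i
    show L - (q i).y ≤ L - (q i).h
    linarith
  · exact h.left i
  · exact h.right i
  · have hd := h.disj i j hij
    rw [Set.disjoint_left] at hd ⊢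
    intro p hp hp'
    refine hd (a := (p.2, L - p.1)) ?_ ?_
    · obtain ⟨h1, h2⟩ := hp
      simp only at h1 h2
      constructor
      · show |(p.2 - (q i).x) * (q i).c + (L - p.1 - (q i).y) * (q i).s| < 1 / 2
        have e : (p.2 - (q i).x) * (q i).c + (L - p.1 - (q i).y) * (q i).s =
            (p.2 - (q i).x) * (q i).c - (p.1 - (L - (q i).y)) * (q i).s := by ring
        rw [e]; exact h2
      · show |(L - p.1 - (q i).y) * (q i).c - (p.2 - (q i).x) * (q i).s| < 1 / 2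
        have e : (L - p.1 - (q i).y) * (q i).c - (p.2 - (q i).x) * (q i).s =
            -((p.1 - (L - (q i).y)) * (q i).c + (p.2 - (q i).x) * (q i).s) := by ring
        rw [e, abs_neg]; exact h1
    · obtain ⟨h1, h2⟩ := hp'
      simp only at h1 h2
      constructor
      · show |(p.2 - (q j).x) * (q j).c + (L - p.1 - (q j).y) * (q j).s| < 1 / 2
        have e : (p.2 - (q j).x) * (q j).c + (L - p.1 - (q j).y) * (q j).s =
            (p.2 - (q j).x) * (q j).c - (p.1 - (L - (q j).y)) * (q j).s := by ring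
        rw [e]; exact h2
      · show |(L - p.1 - (q j).y) * (q j).c - (p.2 - (q j).x) * (q j).s| < 1 / 2
        have e : (L - p.1 - (q j).y) * (q j).c - (p.2 - (q j).x) * (q j).s =
            -((p.1 - (L - (q j).y)) * (q j).c + (p.2 - (q j).x) * (q j).s) := by ring
        rw [e, abs_neg]; exact h1

lemma refl_mem {L : ℝ} {r : Sq} {p : ℝ × ℝ}
    (hp : p ∈ (⟨r.x, L - r.y, r.s, r.c⟩ : Sq).op) : (p.1, L - p.2) ∈ r.op := by
  obtain ⟨h1, h2⟩ := hp
  simp only at h1 h2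
  constructor
  · show |(p.1 - r.x) * r.c + (L - p.2 - r.y) * r.s| < 1 / 2
    have e : (p.1 - r.x) * r.c + (L - p.2 - r.y) * r.s =
        -((p.2 - (L - r.y)) * r.s - (p.1 - r.x) * r.c) := by ring
    rw [e, abs_neg]; exact h2
  · show |(L - p.2 - r.y) * r.c - (p.1 - r.x) * r.s| < 1 / 2
    have e : (L - p.2 - r.y) * r.c - (p.1 - r.x) * r.s =
        -((p.1 - r.x) * r.s + (p.2 - (L - r.y)) * r.c) := by ring
    rw [e, abs_neg]; exact h1

lemma refl (L : ℝ) (q : Fin 11 → Sq) (h : Pack L q) :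
    Pack L (fun i => ⟨(q i).x, L - (q i).y, (q i).s, (q i).c⟩) := by
  have hh : ∀ i, (|(q i).s| + |(q i).c|) / 2 = (q i).h := fun i => by
    unfold Sq.h; rw [add_comm]
  refine ⟨fun i => ?_, fun i => ?_, fun i => ?_, fun i => ?_, fun i => ?_, fun i j hij => ?_⟩
  · have := h.unit i
    show (q i).s ^ 2 + (q i).c ^ 2 = 1
    linarith
  · show (|(q i).s| + |(q i).c|) / 2 ≤ (q i).x
    rw [hh]; exact h.left i
  · show (q i).x ≤ L - (|(q i).s| + |(q i).c|) / 2
    rw [hh]; exact h.right i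
  · show (|(q i).s| + |(q i).c|) / 2 ≤ L - (q i).y
    rw [hh]
    have := h.top i
    linarith
  · show L - (q i).y ≤ L - (|(q i).s| + |(q i).c|) / 2
    rw [hh]
    have := h.bot i
    linarith
  · have hd := h.disj i j hij
    rw [Set.disjoint_left] at hd ⊢
    intro p hp hp'
    exact hd (refl_mem hp) (refl_mem hp')

lemma relabel (L : ℝ) (q : Fin 11 → Sq) (e : Equiv.Perm (Fin 11)) (h : Pack L q) :
    Pack L (fun i => q (e i)) :=
  ⟨fun i => h.unit _, fun i => h.left _, fun i => h.right _, fun i => h.bot _,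
    fun i => h.top _, fun i j hij => h.disj _ _ (fun he => hij (e.injective he))⟩

/-- one quarter turn of the direction vector does not change the square -/
lemma turn_op (q : Sq) : (⟨q.x, q.y, -q.s, q.c⟩ : Sq).op = q.op := by
  ext p
  have e1 : (p.1 - q.x) * -q.s + (p.2 - q.y) * q.c =
      (p.2 - q.y) * q.c - (p.1 - q.x) * q.s := by ring
  have e2 : (p.2 - q.y) * -q.s - (p.1 - q.x) * q.c =
      -((p.1 - q.x) * q.c + (p.2 - q.y) * q.s) := by ring
  constructor
  · rintro ⟨h1, h2⟩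
    simp only at h1 h2
    rw [e1] at h1
    rw [e2, abs_neg] at h2
    exact ⟨h2, h1⟩
  · rintro ⟨h1, h2⟩
    constructor
    · show |(p.1 - q.x) * -q.s + (p.2 - q.y) * q.c| < 1 / 2
      rw [e1]; exact h2
    · show |(p.2 - q.y) * -q.s - (p.1 - q.x) * q.c| < 1 / 2
      rw [e2, abs_neg]; exact h1

lemma turn_h (q : Sq) : (⟨q.x, q.y, -q.s, q.c⟩ : Sq).h = q.h := by
  unfold Sq.h
  simp only [abs_neg]
  ring

lemma normal (q : Sq) (hq : q.c ^ 2 + q.s ^ 2 = 1) : ∃ q' : Sq, q'.c ^ 2 + q'.s ^ 2 = 1 ∧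
    0 < q'.c ∧ 0 ≤ q'.s ∧ q'.x = q.x ∧ q'.y = q.y ∧ q'.op = q.op ∧ q'.h = q.h := by
  have t1 := turn_op q
  have t1' := turn_h q
  have t2 := turn_op ⟨q.x, q.y, -q.s, q.c⟩
  have t2' := turn_h ⟨q.x, q.y, -q.s, q.c⟩
  have t3 := turn_op ⟨q.x, q.y, -q.c, -q.s⟩
  have t3' := turn_h ⟨q.x, q.y, -q.c, -q.s⟩
  simp only [neg_neg] at t2 t2' t3 t3'
  by_cases hc : 0 < q.c
  · by_cases hs : 0 ≤ q.s
    · exact ⟨q, hq, hc, hs, rfl, rfl, rfl, rfl⟩
    · refine ⟨⟨q.x, q.y, -q.s, q.c⟩, ?_, ?_, hc.le, rfl, rfl, t1, t1'⟩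
      · show (-q.s) ^ 2 + q.c ^ 2 = 1
        linarith [neg_sq q.s]
      · show 0 < -q.s
        linarith [not_le.1 hs]
  · by_cases hs : 0 < q.s
    · refine ⟨⟨q.x, q.y, q.s, -q.c⟩, ?_, hs, ?_, rfl, rfl, ?_, ?_⟩
      · show q.s ^ 2 + (-q.c) ^ 2 = 1
        linarith [neg_sq q.c]
      · show 0 ≤ -q.c
        linarith [not_lt.1 hc]
      · rw [t3, t2, t1]
      · rw [t3', t2', t1']
    · by_cases hc' : q.c < 0
      · refine ⟨⟨q.x, q.y, -q.c, -q.s⟩, ?_, ?_, ?_, rfl, rfl, ?_, ?_⟩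
        · show (-q.c) ^ 2 + (-q.s) ^ 2 = 1
          linarith [neg_sq q.c, neg_sq q.s]
        · show 0 < -q.c
          linarith
        · show 0 ≤ -q.s
          linarith [not_lt.1 hs]
        · rw [t2, t1]
        · rw [t2', t1']
      · have hc0 : q.c = 0 := le_antisymm (not_lt.1 hc) (not_lt.1 hc')
        have hs0 : q.s < 0 := by
          rcases (not_lt.1 hs).lt_or_eq with h | h
          · exact h
          · rw [hc0, h] at hq
            norm_num at hq
        refine ⟨⟨q.x, q.y, -q.s, q.c⟩, ?_, ?_, ?_, rfl, rfl, t1, t1'⟩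
        · show (-q.s) ^ 2 + q.c ^ 2 = 1
          linarith [neg_sq q.s]
        · show 0 < -q.s
          linarith
        · show 0 ≤ q.c
          rw [hc0]

end Geom

theorem specGeom : SpecGeom :=
  ⟨Geom.packable_iff, Geom.mono, Geom.rot, Geom.refl, fun L q e => Geom.relabel L q e,
    Geom.normal⟩

end Pool.Agent.MP_abb58c_co
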