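import Pool.Agent.Lib.MP_abb58c_co.Spec
import Mathlib.Analysis.LocallyConvex.Separation

/-! MP_abb58c_co: module SAT, the separating axis theorem for two unit squares -/

namespace Pool.Agent.MP_abb58c_co

namespace Sat

/-- one cone -/
lemma core0 {C S u v m n : ℝ} (hCS : C ^ 2 + S ^ 2 = 1) (hC : 0 ≤ C) (hS : 0 ≤ S)
    (h1 : 2 * u < 1 + C + S) (h2 : 2 * (u * C + v * S) < 1 + C + S) (hm : 0 ≤ m) (hn : 0 ≤ n)
    (hmn : n * C ≤ m * S) (hne : 0 < m + n) :
    2 * (m * u + n * v) < m + n + (m * C + n * S) + (m * S - n * C) := by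
  rcases hS.eq_or_lt with rfl | hS
  · have hC1 : C = 1 := by nlinarith
    subst hC1
    have hn0 : n = 0 := by linarith
    subst hn0
    have hm0 : 0 < m := by linarith
    nlinarith
  · have hpos : 0 < (m * S - n * C) + n := by
      rcases hn.eq_or_lt with rfl | hn
      · have : 0 < m := by linarith
        have := mul_pos this hS
        linarith
      · linarith
    have key : S * (2 * (m * u + n * v)) <
        S * (m + n + (m * C + n * S) + (m * S - n * C)) := by
      have e1 : S * (2 * (m * u + n * v)) = (m * S - n * C) * (2 * u) +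
          n * (2 * (u * C + v * S)) := by ring
      have e2 : S * (m + n + (m * C + n * S) + (m * S - n * C)) =
          ((m * S - n * C) + n) * (1 + C + S) - n * (1 - (C ^ 2 + S ^ 2)) := by ring
      rw [e1, e2, hCS]
      have h3 : (m * S - n * C) * (2 * u) ≤ (m * S - n * C) * (1 + C + S) :=
        mul_le_mul_of_nonneg_left h1.le (by linarith)
      have h4 : n * (2 * (u * C + v * S)) ≤ n * (1 + C + S) :=
        mul_le_mul_of_nonneg_left h2.le hn
      rcases hn.eq_or_lt with hn0 | hn0
      · have h5 : (m * S - n * C) * (2 * u) < (m * S - n * C) * (1 + C + S) :=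
          mul_lt_mul_of_pos_left h1 (by linarith)
        linarith
      · have h5 : n * (2 * (u * C + v * S)) < n * (1 + C + S) :=
          mul_lt_mul_of_pos_left h2 hn0
        linarith
    exact lt_of_mul_lt_mul_left key hS.le

/-- first quadrant for both -/
lemma core1 {C S u v m n : ℝ} (hCS : C ^ 2 + S ^ 2 = 1) (hC : 0 ≤ C) (hS : 0 ≤ S)
    (h1 : 2 * |u| < 1 + C + S) (h2 : 2 * |v| < 1 + C + S)
    (h3 : 2 * |u * C + v * S| < 1 + C + S) (hm : 0 ≤ m) (hn : 0 ≤ n) (hne : 0 < m + n) :
    2 * (m * u + n * v) < |m| + |n| + |m * C + n * S| + |n * C - m * S| := by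
  have hu := le_abs_self u
  have hv := le_abs_self v
  have h3' := le_abs_self (u * C + v * S)
  have hp : 0 ≤ m * C + n * S := by positivity
  rw [abs_of_nonneg hm, abs_of_nonneg hn, abs_of_nonneg hp]
  rcases le_total (n * C) (m * S) with h | h
  · rw [abs_of_nonpos (by linarith)]
    have := core0 hCS hC hS (by linarith) (by linarith) hm hn h hne (u := u) (v := v)
    linarith
  · rw [abs_of_nonneg (by linarith)]
    have hne' : 0 < (m * C + n * S) + (n * C - m * S) := by
      by_contra hcon
      have h5 : m * C + n * S = 0 := by linarith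
      have h6 : n * C - m * S = 0 := by linarith
      have h7 : m = 0 := by
        have : m * (C ^ 2 + S ^ 2) = (m * C + n * S) * C - (n * C - m * S) * S := by ring
        rw [hCS, h5, h6] at this
        linarith
      have h8 : n = 0 := by
        have : n * (C ^ 2 + S ^ 2) = (m * C + n * S) * S + (n * C - m * S) * C := by ring
        rw [hCS, h5, h6] at this
        linarith
      linarith
    have := core0 (C := S) (S := C) (u := u * C + v * S) (v := v * C - u * S)
      (m := m * C + n * S) (n := n * C - m * S) (by linarith) hS hC (by linarith)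
      (by
        have e : (u * C + v * S) * S + (v * C - u * S) * C = v * (C ^ 2 + S ^ 2) := by ring
        rw [e, hCS]
        linarith) hp (by linarith)
      (by
        have e : (m * C + n * S) * C - (n * C - m * S) * S = m * (C ^ 2 + S ^ 2) := by ring
        rw [hCS] at e
        linarith) hne'
    have e1 : (m * C + n * S) * (u * C + v * S) + (n * C - m * S) * (v * C - u * S) =
        (m * u + n * v) * (C ^ 2 + S ^ 2) := by ring
    have e2 : (m * C + n * S) * S + (n * C - m * S) * C = n * (C ^ 2 + S ^ 2) := by ring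
    have e3 : (m * C + n * S) * C - (n * C - m * S) * S = m * (C ^ 2 + S ^ 2) := by ring
    rw [e1, e2, e3, hCS] at this
    linarith

/-- first quadrant for the second square -/
lemma core2 {C S u v m n : ℝ} (hCS : C ^ 2 + S ^ 2 = 1) (hC : 0 ≤ C) (hS : 0 ≤ S)
    (h1 : 2 * |u| < 1 + C + S) (h2 : 2 * |v| < 1 + C + S)
    (h3 : 2 * |u * C + v * S| < 1 + C + S) (h4 : 2 * |v * C - u * S| < 1 + C + S)
    (hne : 0 < |m| + |n|) :
    2 * (m * u + n * v) < |m| + |n| + |m * C + n * S| + |n * C - m * S| := by
  have e3 : |-v * C + u * S| = |v * C - u * S| := by rw [← abs_neg]; ring_nf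
  have e3' : |v * C + -u * S| = |v * C - u * S| := by ring_nf
  have e4 : |-u * C + -v * S| = |u * C + v * S| := by rw [← abs_neg]; ring_nf
  rcases le_total 0 m with hm | hm <;> rcases le_total 0 n with hn | hn
  · refine core1 hCS hC hS h1 h2 h3 hm hn ?_
    rwa [abs_of_nonneg hm, abs_of_nonneg hn] at hne
  · -- m ≥ 0, n ≤ 0
    have := core1 (u := -v) (v := u) (m := -n) (n := m) hCS hC hS (by rwa [abs_neg]) h1
      (by rwa [e3]) (by linarith) hm
      (by rw [abs_of_nonneg hm, abs_of_nonpos hn] at hne; linarith)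
    rw [abs_neg] at this
    have e5 : |-n * C + m * S| = |n * C - m * S| := by rw [← abs_neg]; ring_nf
    have e6 : |m * C - -n * S| = |m * C + n * S| := by ring_nf
    rw [e5, e6] at this
    linarith
  · -- m ≤ 0, n ≥ 0
    have := core1 (u := v) (v := -u) (m := n) (n := -m) hCS hC hS h2 (by rwa [abs_neg])
      (by rwa [e3']) hn (by linarith)
      (by rw [abs_of_nonpos hm, abs_of_nonneg hn] at hne; linarith)
    rw [abs_neg] at this
    have e5 : |n * C + -m * S| = |n * C - m * S| := by ring_nf
    have e6 : |-m * C - n * S| = |m * C + n * S| := by rw [← abs_neg]; ring_nf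
    rw [e5, e6] at this
    linarith
  · have := core1 (u := -u) (v := -v) (m := -m) (n := -n) hCS hC hS (by rwa [abs_neg])
      (by rwa [abs_neg]) (by rwa [e4]) (by linarith) (by linarith)
      (by rw [abs_of_nonpos hm, abs_of_nonpos hn] at hne; linarith)
    rw [abs_neg, abs_neg] at this
    have e5 : |-m * C + -n * S| = |m * C + n * S| := by rw [← abs_neg]; ring_nf
    have e6 : |-n * C - -m * S| = |n * C - m * S| := by rw [← abs_neg]; ring_nf
    rw [e5, e6] at this
    linarith

lemma core3 {C S u v m n : ℝ} (hCS : C ^ 2 + S ^ 2 = 1)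
    (h1 : 2 * |u| < 1 + |C| + |S|) (h2 : 2 * |v| < 1 + |C| + |S|)
    (h3 : 2 * |u * C + v * S| < 1 + |C| + |S|) (h4 : 2 * |v * C - u * S| < 1 + |C| + |S|)
    (hne : 0 < |m| + |n|) :
    2 * (m * u + n * v) < |m| + |n| + |m * C + n * S| + |n * C - m * S| := by
  rcases le_total 0 C with hC | hC <;> rcases le_total 0 S with hS | hS
  · rw [abs_of_nonneg hC, abs_of_nonneg hS] at h1 h2 h3 h4
    exact core2 hCS hC hS h1 h2 h3 h4 hne
  · rw [abs_of_nonneg hC, abs_of_nonpos hS] at h1 h2 h3 h4
    have e1 : |u * -S + v * C| = |v * C - u * S| := by ring_nf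
    have e2 : |v * -S - u * C| = |u * C + v * S| := by rw [← abs_neg]; ring_nf
    have e3 : |m * -S + n * C| = |n * C - m * S| := by ring_nf
    have e4 : |n * -S - m * C| = |m * C + n * S| := by rw [← abs_neg]; ring_nf
    have := core2 (C := -S) (S := C) (u := u) (v := v) (m := m) (n := n) (by nlinarith)
      (by linarith) hC (by linarith) (by linarith) (by rw [e1]; linarith) (by rw [e2]; linarith) hne
    rw [e3, e4] at this
    linarith
  · rw [abs_of_nonpos hC, abs_of_nonneg hS] at h1 h2 h3 h4
    have e1 : |u * S + v * -C| = |v * C - u * S| := by rw [← abs_neg]; ring_nf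
    have e2 : |v * S - u * -C| = |u * C + v * S| := by ring_nf
    have e3 : |m * S + n * -C| = |n * C - m * S| := by rw [← abs_neg]; ring_nf
    have e4 : |n * S - m * -C| = |m * C + n * S| := by ring_nf
    have := core2 (C := S) (S := -C) (u := u) (v := v) (m := m) (n := n) (by nlinarith)
      hS (by linarith) (by linarith) (by linarith) (by rw [e1]; linarith) (by rw [e2]; linarith) hne
    rw [e3, e4] at this
    linarith
  · rw [abs_of_nonpos hC, abs_of_nonpos hS] at h1 h2 h3 h4
    have e1 : |u * -C + v * -S| = |u * C + v * S| := by rw [← abs_neg]; ring_nf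
    have e2 : |v * -C - u * -S| = |v * C - u * S| := by rw [← abs_neg]; ring_nf
    have e3 : |m * -C + n * -S| = |m * C + n * S| := by rw [← abs_neg]; ring_nf
    have e4 : |n * -C - m * -S| = |n * C - m * S| := by rw [← abs_neg]; ring_nf
    have := core2 (C := -C) (S := -S) (u := u) (v := v) (m := m) (n := n) (by nlinarith)
      (by linarith) (by linarith) (by linarith) (by linarith) (by rw [e1]; linarith)
      (by rw [e2]; linarith) hne
    rw [e3, e4] at this
    linarith

lemma abs_combo_lt {a b x y t : ℝ} (ha : 0 ≤ a) (hb : 0 ≤ b) (hab : a + b = 1) (hx : |x| < t)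
    (hy : |y| < t) : |a * x + b * y| < t := by
  rw [abs_lt] at hx hy ⊢
  rcases ha.eq_or_lt with rfl | ha
  · have : b = 1 := by linarith
    subst this
    constructor <;> linarith [hy.1, hy.2]
  · constructor
    · nlinarith [mul_lt_mul_of_pos_left hx.1 ha, mul_le_mul_of_nonneg_left hy.1.le hb]
    · nlinarith [mul_lt_mul_of_pos_left hx.2 ha, mul_le_mul_of_nonneg_left hy.2.le hb]

lemma convex_op (q : Sq) : Convex ℝ q.op := by
  rintro p hp r hr a b ha hb hab
  constructor
  · have h := abs_combo_lt ha hb hab hp.1 hr.1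
    have e : ((a • p + b • r).1 - q.x) * q.c + ((a • p + b • r).2 - q.y) * q.s =
        a * ((p.1 - q.x) * q.c + (p.2 - q.y) * q.s) +
          b * ((r.1 - q.x) * q.c + (r.2 - q.y) * q.s) := by
      have hb' : b = 1 - a := by linarith
      simp only [Prod.fst_add, Prod.snd_add, Prod.smul_fst, Prod.smul_snd, smul_eq_mul, hb']
      ring
    rw [e]
    exact h
  · have h := abs_combo_lt ha hb hab hp.2 hr.2
    have e : ((a • p + b • r).2 - q.y) * q.c - ((a • p + b • r).1 - q.x) * q.s =
        a * ((p.2 - q.y) * q.c - (p.1 - q.x) * q.s) +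
          b * ((r.2 - q.y) * q.c - (r.1 - q.x) * q.s) := by
      have hb' : b = 1 - a := by linarith
      simp only [Prod.fst_add, Prod.snd_add, Prod.smul_fst, Prod.smul_snd, smul_eq_mul, hb']
      ring
    rw [e]
    exact h

lemma isOpen_op (q : Sq) : IsOpen q.op := by
  have h1 : Continuous fun p : ℝ × ℝ => |(p.1 - q.x) * q.c + (p.2 - q.y) * q.s| := by fun_prop
  have h2 : Continuous fun p : ℝ × ℝ => |(p.2 - q.y) * q.c - (p.1 - q.x) * q.s| := by fun_prop
  exact (isOpen_lt h1 continuous_const).inter (isOpen_lt h2 continuous_const)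

lemma mem_op (q : Sq) (hq : q.c ^ 2 + q.s ^ 2 = 1) {α β : ℝ} (hα : |α| < 1 / 2)
    (hβ : |β| < 1 / 2) :
    ((q.x + α * q.c - β * q.s, q.y + α * q.s + β * q.c) : ℝ × ℝ) ∈ q.op := by
  constructor
  · have e : (q.x + α * q.c - β * q.s - q.x) * q.c + (q.y + α * q.s + β * q.c - q.y) * q.s =
        α * (q.c ^ 2 + q.s ^ 2) := by ring
    simp only [e, hq, mul_one]
    exact hα
  · have e : (q.y + α * q.s + β * q.c - q.y) * q.c - (q.x + α * q.c - β * q.s - q.x) * q.s =
        β * (q.c ^ 2 + q.s ^ 2) := by ring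
    simp only [e, hq, mul_one]
    exact hβ

/-- bound on the support function -/
lemma support (q : Sq) (hq : q.c ^ 2 + q.s ^ 2 = 1) {A B w : ℝ}
    (h : ∀ p ∈ q.op, p.1 * A + p.2 * B < w) :
    q.x * A + q.y * B + (|A * q.c + B * q.s| + |B * q.c - A * q.s|) / 2 ≤ w := by
  set m := A * q.c + B * q.s with hm
  set n := B * q.c - A * q.s with hn
  have key : ∀ t : ℝ, 0 < t → t < 1 → q.x * A + q.y * B + t * ((|m| + |n|) / 2) < w := by
    intro t ht0 ht1
    obtain ⟨α, hα, hαm⟩ : ∃ α : ℝ, |α| < 1 / 2 ∧ α * m = t / 2 * |m| := by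
      rcases le_total 0 m with h | h
      · exact ⟨t / 2, by rw [abs_of_pos (by linarith)]; linarith, by rw [abs_of_nonneg h]⟩
      · exact ⟨-(t / 2), by rw [abs_neg, abs_of_pos (by linarith)]; linarith, by
          rw [abs_of_nonpos h]; ring⟩
    obtain ⟨β, hβ, hβn⟩ : ∃ β : ℝ, |β| < 1 / 2 ∧ β * n = t / 2 * |n| := by
      rcases le_total 0 n with h | h
      · exact ⟨t / 2, by rw [abs_of_pos (by linarith)]; linarith, by rw [abs_of_nonneg h]⟩
      · exact ⟨-(t / 2), by rw [abs_neg, abs_of_pos (by linarith)]; linarith, by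
          rw [abs_of_nonpos h]; ring⟩
    have h1 := h _ (mem_op q hq hα hβ)
    have e : (q.x + α * q.c - β * q.s) * A + (q.y + α * q.s + β * q.c) * B =
        q.x * A + q.y * B + α * m + β * n := by
      rw [hm, hn]; ring
    simp only [e] at h1
    rw [hαm, hβn] at h1
    linarith
  by_contra hcon
  rw [not_le] at hcon
  set G := (|m| + |n|) / 2 with hG
  have hG0 : 0 ≤ G := by positivity
  have h1 := key (1 / 2) (by norm_num) (by norm_num)
  have hF : q.x * A + q.y * B < w := by nlinarith
  have hGpos : 0 < G := by linarith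
  have h2 := key ((w - (q.x * A + q.y * B)) / G) (by
    apply div_pos _ hGpos
    linarith) (by
    rw [div_lt_one hGpos]
    linarith)
  rw [div_mul_cancel₀ _ hGpos.ne'] at h2
  linarith

end Sat

open Sat in
theorem specSat : SpecSat := by
  constructor
  · intro q r hq hr hd
    obtain ⟨f, w, hf1, hf2⟩ := geometric_hahn_banach_open_open (convex_op q) (isOpen_op q)
      (convex_op r) (isOpen_op r) hd
    set A := f (1, 0) with hA
    set B := f (0, 1) with hB
    have hf : ∀ p : ℝ × ℝ, f p = p.1 * A + p.2 * B := by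
      intro p
      have e : p = p.1 • ((1, 0) : ℝ × ℝ) + p.2 • ((0, 1) : ℝ × ℝ) := by
        ext <;> simp
      conv_lhs => rw [e]
      rw [map_add, map_smul, map_smul, smul_eq_mul, smul_eq_mul]
    have h1 := support q hq (A := A) (B := B) (w := w) (fun p hp => by rw [← hf]; exact hf1 p hp)
    have h2 := support r hr (A := -A) (B := -B) (w := -w) (fun p hp => by
      have := hf2 p hp
      rw [hf] at this
      linarith)
    -- frames
    set m := A * q.c + B * q.s with hm
    set n := B * q.c - A * q.s with hn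
    set C := q.c * r.c + q.s * r.s with hC
    set S := q.c * r.s - q.s * r.c with hS
    have hCS : C ^ 2 + S ^ 2 = 1 := by
      have : C ^ 2 + S ^ 2 = (q.c ^ 2 + q.s ^ 2) * (r.c ^ 2 + r.s ^ 2) := by rw [hC, hS]; ring
      rw [this, hq, hr, one_mul]
    have e1 : -A * r.c + -B * r.s = -(m * C + n * S) := by
      have : m * C + n * S = (A * r.c + B * r.s) * (q.c ^ 2 + q.s ^ 2) := by
        rw [hm, hn, hC, hS]; ring
      rw [this, hq]; ring
    have e2 : -B * r.c - -A * r.s = -(n * C - m * S) := by
      have : n * C - m * S = (B * r.c - A * r.s) * (q.c ^ 2 + q.s ^ 2) := by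
        rw [hm, hn, hC, hS]; ring
      rw [this, hq]; ring
    rw [e1, e2, abs_neg, abs_neg] at h2
    set u := (r.x - q.x) * q.c + (r.y - q.y) * q.s with hu
    set v := (r.y - q.y) * q.c - (r.x - q.x) * q.s with hv
    have e3 : m * u + n * v = (r.x - q.x) * A + (r.y - q.y) * B := by
      have : m * u + n * v = ((r.x - q.x) * A + (r.y - q.y) * B) * (q.c ^ 2 + q.s ^ 2) := by
        rw [hm, hn, hu, hv]; ring
      rw [this, hq, mul_one]
    have h3 : |m| + |n| + |m * C + n * S| + |n * C - m * S| ≤ 2 * (m * u + n * v) := by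
      rw [e3]
      linarith
    have hne : 0 < |m| + |n| := by
      by_contra hcon
      have hm0 : m = 0 := by
        rw [← abs_eq_zero]
        have := abs_nonneg m
        have := abs_nonneg n
        linarith
      have hn0 : n = 0 := by
        rw [← abs_eq_zero]
        have := abs_nonneg m
        have := abs_nonneg n
        linarith
      have hlt : q.x * A + q.y * B < r.x * A + r.y * B := by
        have h4 := hf1 _ (mem_op q hq (α := 0) (β := 0) (by norm_num) (by norm_num))
        have h5 := hf2 _ (mem_op r hr (α := 0) (β := 0) (by norm_num) (by norm_num))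
        rw [hf] at h4 h5
        simp only [zero_mul, add_zero, sub_zero] at h4 h5
        linarith
      rw [hm0, hn0] at e3
      linarith
    by_contra hsep
    unfold Sep at hsep
    push Not at hsep
    obtain ⟨s1, s2, s3, s4⟩ := hsep
    have hrel : relH q r = (|C| + |S|) / 2 := rfl
    rw [hrel] at s1 s2 s3 s4
    have e4 : (r.x - q.x) * r.c + (r.y - q.y) * r.s = u * C + v * S := by
      have : u * C + v * S =
          ((r.x - q.x) * r.c + (r.y - q.y) * r.s) * (q.c ^ 2 + q.s ^ 2) := by
        rw [hu, hv, hC, hS]; ring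
      rw [this, hq, mul_one]
    have e5 : (r.y - q.y) * r.c - (r.x - q.x) * r.s = v * C - u * S := by
      have : v * C - u * S =
          ((r.y - q.y) * r.c - (r.x - q.x) * r.s) * (q.c ^ 2 + q.s ^ 2) := by
        rw [hu, hv, hC, hS]; ring
      rw [this, hq, mul_one]
    rw [e4] at s3
    rw [e5] at s4
    have := core3 (m := m) (n := n) hCS (u := u) (v := v) (by linarith) (by linarith)
      (by linarith) (by linarith) hne
    linarith
  · intro q r hq hr hsep
    rw [Set.disjoint_left]
    rintro p ⟨hp1, hp2⟩ ⟨hp3, hp4⟩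
    set α := (p.1 - q.x) * q.c + (p.2 - q.y) * q.s with hα
    set β := (p.2 - q.y) * q.c - (p.1 - q.x) * q.s with hβ
    set γ := (p.1 - r.x) * r.c + (p.2 - r.y) * r.s with hγ
    set δ := (p.2 - r.y) * r.c - (p.1 - r.x) * r.s with hδ
    set C := q.c * r.c + q.s * r.s with hC
    set S := q.c * r.s - q.s * r.c with hS
    have hrel : relH q r = (|C| + |S|) / 2 := rfl
    have hCS : C ^ 2 + S ^ 2 = 1 := by
      have : C ^ 2 + S ^ 2 = (q.c ^ 2 + q.s ^ 2) * (r.c ^ 2 + r.s ^ 2) := by rw [hC, hS]; ring
      rw [this, hq, hr, one_mul]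
    -- bounds for combinations
    have comb : ∀ x y : ℝ, |x| < 1 / 2 → |y| < 1 / 2 → ∀ z : ℝ, |z| < 1 / 2 →
        |z - (x * C + y * S)| < 1 / 2 + (|C| + |S|) / 2 := by
      intro x y hx hy z hz
      have h1 : |x * C| ≤ 1 / 2 * |C| := by
        rw [abs_mul]
        exact mul_le_mul_of_nonneg_right hx.le (abs_nonneg _)
      have h2 : |y * S| ≤ 1 / 2 * |S| := by
        rw [abs_mul]
        exact mul_le_mul_of_nonneg_right hy.le (abs_nonneg _)
      have h3 := abs_sub z (x * C + y * S)
      have h4 := abs_add_le (x * C) (y * S)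
      linarith
    have hnβ : |-β| < 1 / 2 := by rwa [abs_neg]
    have hnδ : |-δ| < 1 / 2 := by rwa [abs_neg]
    have e1 : (r.x - q.x) * q.c + (r.y - q.y) * q.s = α - (γ * C + -δ * S) := by
      have : γ * C + -δ * S = ((p.1 - r.x) * q.c + (p.2 - r.y) * q.s) * (r.c ^ 2 + r.s ^ 2) := by
        rw [hγ, hδ, hC, hS]; ring
      rw [this, hr, hα]; ring
    have e2 : (r.y - q.y) * q.c - (r.x - q.x) * q.s = β - (δ * C + γ * S) := by
      have : δ * C + γ * S = ((p.2 - r.y) * q.c - (p.1 - r.x) * q.s) * (r.c ^ 2 + r.s ^ 2) := by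
        rw [hγ, hδ, hC, hS]; ring
      rw [this, hr, hβ]; ring
    have e3 : (r.x - q.x) * r.c + (r.y - q.y) * r.s = -(γ - (α * C + β * S)) := by
      have : α * C + β * S = ((p.1 - q.x) * r.c + (p.2 - q.y) * r.s) * (q.c ^ 2 + q.s ^ 2) := by
        rw [hα, hβ, hC, hS]; ring
      rw [this, hq, hγ]; ring
    have e4 : (r.y - q.y) * r.c - (r.x - q.x) * r.s = -(δ - (β * C + -α * S)) := by
      have : β * C + -α * S = ((p.2 - q.y) * r.c - (p.1 - q.x) * r.s) * (q.c ^ 2 + q.s ^ 2) := by
        rw [hα, hβ, hC, hS]; ring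
      rw [this, hq, hδ]; ring
    unfold Sep at hsep
    rw [hrel, e1, e2, e3, e4, abs_neg, abs_neg] at hsep
    have hnα : |-α| < 1 / 2 := by rwa [abs_neg]
    rcases hsep with h | h | h | h
    · have := comb γ (-δ) hp3 hnδ α hp1
      linarith
    · have := comb δ γ hp4 hp3 β hp2
      linarith
    · have := comb α β hp1 hp2 γ hp3
      linarith
    · have := comb β (-α) hp2 hnα δ hp4
      linarith

end Pool.Agent.MP_abb58c_co
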