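import Pool.Agent.Lib.MP_abb58c_co.CaseRA
import Pool.Agent.Lib.MP_abb58c_co.Geom
import Pool.Agent.Lib.MP_abb58c_co.ExistA
import Pool.Agent.Lib.MP_abb58c_co.Sat

/-! MP_abb58c_co: packings in the centred container `[(σ - L)/2, (σ + L)/2]^2`, `σ = S0/DD`, and the
notion `GoodC` for nodes, which is invariant under the symmetries of `[0, σ]^2`. -/

namespace Pool.Agent.MP_abb58c_co

open Case

/-- translation of a square by `(-(σ - L)/2, -(σ - L)/2)` -/
noncomputable def shiftSq (L : ℝ) (q : Sq) : Sq :=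
  ⟨q.x - (sig - L) / 2, q.y - (sig - L) / 2, q.c, q.s⟩

/-- translation of a square by `((σ - L)/2, (σ - L)/2)` -/
noncomputable def unshiftSq (L : ℝ) (q : Sq) : Sq :=
  ⟨q.x + (sig - L) / 2, q.y + (sig - L) / 2, q.c, q.s⟩

/-- a packing in the square of side `L` with the same centre as `[0, σ]^2` -/
def CPack (L : ℝ) (q : Fin 11 → Sq) : Prop := Pack L (fun i => shiftSq L (q i))

/-- every packing of the node (in a centred square of side `L ≤ L*`) has `L = L*` -/
def GoodC (N : Node) : Prop :=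
  ∀ (T : TrumpData) (L : ℝ) (q : Fin 11 → Sq), L ≤ T.L → CPack L q → InNode N q → L = T.L

lemma mem_shift {d : ℝ} {x y c s : ℝ} {p : ℝ × ℝ} :
    p ∈ (⟨x - d, y - d, c, s⟩ : Sq).op ↔ (p.1 + d, p.2 + d) ∈ (⟨x, y, c, s⟩ : Sq).op := by
  simp only [Sq.op, Set.mem_ofPred_eq]
  rw [show p.1 - (x - d) = p.1 + d - x by ring, show p.2 - (y - d) = p.2 + d - y by ring]

lemma disj_shift {d : ℝ} {q r : Sq} :
    Disjoint (⟨q.x - d, q.y - d, q.c, q.s⟩ : Sq).op (⟨r.x - d, r.y - d, r.c, r.s⟩ : Sq).op ↔
      Disjoint q.op r.op := by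
  rw [Set.disjoint_left, Set.disjoint_left]
  constructor
  · intro h p hp hp'
    refine h (a := (p.1 - d, p.2 - d)) ?_ ?_
    · rw [mem_shift]
      simpa using hp
    · rw [mem_shift]
      simpa using hp'
  · intro h p hp hp'
    rw [mem_shift] at hp hp'
    exact h hp hp'

namespace CPack

/-- the explicit form of `CPack` -/
theorem iff {L : ℝ} {q : Fin 11 → Sq} : CPack L q ↔
    (∀ i, (q i).c ^ 2 + (q i).s ^ 2 = 1) ∧
    (∀ i, (sig - L) / 2 + (q i).h ≤ (q i).x) ∧ (∀ i, (q i).x ≤ (sig + L) / 2 - (q i).h) ∧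
    (∀ i, (sig - L) / 2 + (q i).h ≤ (q i).y) ∧ (∀ i, (q i).y ≤ (sig + L) / 2 - (q i).h) ∧
    ∀ i j, i ≠ j → Disjoint (q i).op (q j).op := by
  constructor
  · intro h
    refine ⟨h.unit, fun i => ?_, fun i => ?_, fun i => ?_, fun i => ?_, fun i j hij => ?_⟩
    · have h1 : (q i).h ≤ (q i).x - (sig - L) / 2 := h.left i
      linarith
    · have h1 : (q i).x - (sig - L) / 2 ≤ L - (q i).h := h.right i
      linarith
    · have h1 : (q i).h ≤ (q i).y - (sig - L) / 2 := h.bot i
      linarith
    · have h1 : (q i).y - (sig - L) / 2 ≤ L - (q i).h := h.top i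
      linarith
    · exact disj_shift.1 (h.disj i j hij)
  · rintro ⟨h0, h1, h2, h3, h4, h5⟩
    refine ⟨h0, fun i => ?_, fun i => ?_, fun i => ?_, fun i => ?_, fun i j hij => ?_⟩
    · change (q i).h ≤ (q i).x - (sig - L) / 2
      linarith [h1 i]
    · change (q i).x - (sig - L) / 2 ≤ L - (q i).h
      linarith [h2 i]
    · change (q i).h ≤ (q i).y - (sig - L) / 2
      linarith [h3 i]
    · change (q i).y - (sig - L) / 2 ≤ L - (q i).h
      linarith [h4 i]
    · exact disj_shift.2 (h5 i j hij)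

theorem mono {L L' : ℝ} {q : Fin 11 → Sq} (hL : L ≤ L') (h : CPack L q) : CPack L' q := by
  rw [CPack.iff] at h ⊢
  obtain ⟨h0, h1, h2, h3, h4, h5⟩ := h
  exact ⟨h0, fun i => by linarith [h1 i], fun i => by linarith [h2 i],
    fun i => by linarith [h3 i], fun i => by linarith [h4 i], h5⟩

theorem pack {L : ℝ} {q : Fin 11 → Sq} (hL : L ≤ sig) (h : CPack L q) : Pack sig q := by
  have h' := h.mono hL
  have e : (fun i => shiftSq sig (q i)) = q := by
    funext i
    simp only [shiftSq, sub_self, zero_div, sub_zero]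
  unfold CPack at h'
  rw [e] at h'
  exact h'

theorem of_pack {q : Fin 11 → Sq} (h : Pack sig q) : CPack sig q := by
  have e : (fun i => shiftSq sig (q i)) = q := by
    funext i
    simp only [shiftSq, sub_self, zero_div, sub_zero]
  unfold CPack
  rw [e]
  exact h

/-- centring a packing in `[0, L]^2` -/
theorem centre {L : ℝ} {q : Fin 11 → Sq} (h : Pack L q) :
    CPack L (fun i => unshiftSq L (q i)) := by
  have e : (fun i => shiftSq L (unshiftSq L (q i))) = q := by
    funext i
    simp only [shiftSq, unshiftSq, add_sub_cancel_right]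
  unfold CPack
  rw [e]
  exact h

theorem rot {L : ℝ} {q : Fin 11 → Sq} (h : CPack L q) : CPack L (fun i => rotSq (q i)) := by
  have h1 := Geom.rot L _ h
  have e : (fun i => shiftSq L (rotSq (q i))) =
      (fun i => (⟨L - (shiftSq L (q i)).y, (shiftSq L (q i)).x, (shiftSq L (q i)).c,
        (shiftSq L (q i)).s⟩ : Sq)) := by
    funext i
    simp only [shiftSq, rotSq, Sq.mk.injEq]
    refine ⟨by ring, trivial, trivial, trivial⟩
  unfold CPack
  rw [e]
  exact h1

theorem rot_iter {L : ℝ} (m : ℕ) {q : Fin 11 → Sq} (h : CPack L q) :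
    CPack L (fun i => rotSq^[m] (q i)) := by
  induction m with
  | zero => exact h
  | succ m ih =>
    have := ih.rot
    simpa only [Function.iterate_succ_apply'] using this

theorem refl {L : ℝ} {q : Fin 11 → Sq} (h : CPack L q) : CPack L (fun i => reflSq (q i)) := by
  have h1 := Geom.refl L _ h
  have e : (fun i => shiftSq L (reflSq (q i))) =
      (fun i => (⟨(shiftSq L (q i)).x, L - (shiftSq L (q i)).y, (shiftSq L (q i)).s,
        (shiftSq L (q i)).c⟩ : Sq)) := by
    funext i
    simp only [shiftSq, reflSq, Sq.mk.injEq]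
    refine ⟨trivial, by ring, trivial, trivial⟩
  unfold CPack
  rw [e]
  exact h1

theorem relabel {L : ℝ} {q : Fin 11 → Sq} (e : Equiv.Perm (Fin 11)) (h : CPack L q) :
    CPack L (fun i => q (e i)) := Geom.relabel L _ e h

end CPack

/-- `L* < σ` -/
theorem TrumpData.L_lt_sig (T : TrumpData) : T.L < sig := by
  have h := (trumpData_bounds T).2.1
  have : sig = 3.8771 := by
    norm_num [sig, S0, DD]
  rw [this]
  linarith

theorem GoodC.of_refuted {N : Node} (h : Refuted N) : GoodC N := by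
  intro T L q hL hq hN
  exact absurd hN (h q (hq.pack (hL.trans T.L_lt_sig.le)))

/-- `GoodC` may be applied after a rotation and a relabelling -/
theorem GoodC.rot_relabel {N : Node} (h : GoodC N) {T : TrumpData} {L : ℝ} {q : Fin 11 → Sq}
    (hL : L ≤ T.L) (hq : CPack L q) (m : ℕ) (e : Equiv.Perm (Fin 11))
    (hN : InNode N (fun l => rotSq^[m] (q (e l)))) : L = T.L :=
  h T L _ hL ((hq.relabel e).rot_iter m) hN

/-- `GoodC` may be applied after the reflection and a relabelling -/
theorem GoodC.refl_relabel {N : Node} (h : GoodC N) {T : TrumpData} {L : ℝ} {q : Fin 11 → Sq}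
    (hL : L ≤ T.L) (hq : CPack L q) (e : Equiv.Perm (Fin 11))
    (hN : InNode N (fun l => reflSq (q (e l)))) : L = T.L :=
  h T L _ hL (hq.relabel e).refl hN

end Pool.Agent.MP_abb58c_co
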