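import Pool.Agent.Lib.MP_abb58c_co.FineRow
import Pool.Agent.Lib.MP_abb58c_co.NodeC
import Pool.Agent.Lib.MP_abb58c_co.Sat
import Pool.Agent.Lib.MP_abb58c_co.ExistA

/-! MP_abb58c_co, FINE: the world (real coordinates and angles), entry from a node -/

namespace Pool.Agent.MP_abb58c_co
namespace Fine

open Real Case

/-- lower end of the centred container (its side is at most `3.8770835901`) -/
noncomputable def wlo : ℝ := (3.8771 - 3.8770835901) / 2

/-- upper end of the centred container -/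
noncomputable def whi : ℝ := 3.8771 - wlo

/-- real coordinates and angles of 11 squares -/
structure Wd where
  x : Fin 11 → ℝ
  y : Fin 11 → ℝ
  t : Fin 11 → ℝ

/-- the facts used by FINE -/
structure World (w : Wd) : Prop where
  left : ∀ i, wlo + hh (w.t i) ≤ w.x i
  right : ∀ i, w.x i ≤ whi - hh (w.t i)
  bot : ∀ i, wlo + hh (w.t i) ≤ w.y i
  top : ∀ i, w.y i ≤ whi - hh (w.t i)
  sep : ∀ i j, i ≠ j → ∃ κ : ℕ, κ < 4 ∧
    (Alt (w.t i + κ * (π / 2)) (w.t j - w.t i) (w.x j - w.x i) (w.y j - w.y i) ∨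
     Alt (w.t j + κ * (π / 2)) (w.t i - w.t j) (w.x j - w.x i) (w.y j - w.y i))

/-- the squares of a world -/
noncomputable def Wd.sq (w : Wd) (i : Fin 11) : Sq := ⟨w.x i, w.y i, cos (w.t i), sin (w.t i)⟩

theorem sig_eq : sig = 3.8771 := by norm_num [sig, S0, DD]

theorem h_eq (w : Wd) (i : Fin 11) : (w.sq i).h = hh (w.t i) := rfl

theorem L_lt (T : TrumpData) : T.L < 3.8770835901 := (trumpData_bounds T).2.1

/-- a packing gives a world -/
theorem world_of_cpack {T : TrumpData} {L : ℝ} {w : Wd} (hL : L ≤ T.L) (h : CPack L w.sq) :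
    World w := by
  have h' := h.mono (hL.trans (L_lt T).le)
  rw [CPack.iff] at h'
  obtain ⟨h0, h1, h2, h3, h4, h5⟩ := h'
  have es := sig_eq
  refine ⟨fun i => ?_, fun i => ?_, fun i => ?_, fun i => ?_, fun i j hij => ?_⟩
  · have := h1 i
    rw [h_eq, es] at this
    unfold wlo
    exact this
  · have := h2 i
    rw [h_eq, es] at this
    unfold whi wlo
    refine this.trans (le_of_eq (by ring))
  · have := h3 i
    rw [h_eq, es] at this
    unfold wlo
    exact this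
  · have := h4 i
    rw [h_eq, es] at this
    unfold whi wlo
    refine this.trans (le_of_eq (by ring))
  · exact alt_of_sep rfl rfl rfl rfl (specSat.1 (w.sq i) (w.sq j) (h0 i) (h0 j) (h5 i j hij))

/-! ### the base direction of the tilted squares -/

/-- angle of the direction `(728, 615)/953`, about `40.19` degrees -/
noncomputable def thb : ℝ := arctan (615 / 728)

theorem sqrt_thb : √(1 + (615 / 728 : ℝ) ^ 2) = 953 / 728 := by
  rw [show (1 + (615 / 728 : ℝ) ^ 2) = (953 / 728) ^ 2 by norm_num]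
  exact Real.sqrt_sq (by norm_num)

theorem cos_thb : cos thb = 728 / 953 := by
  unfold thb
  rw [cos_arctan, sqrt_thb]
  norm_num

theorem sin_thb : sin thb = 615 / 953 := by
  unfold thb
  rw [sin_arctan, sqrt_thb]
  norm_num

theorem thb_pos : 0 < thb := by
  unfold thb
  have := arctan_strictMono (show (0 : ℝ) < 615 / 728 by norm_num)
  rwa [arctan_zero] at this

theorem thb_lt : thb < 1 := by
  unfold thb
  have h := arctan_strictMono (show (615 / 728 : ℝ) < 1 by norm_num)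
  rw [arctan_one] at h
  linarith [pi_lt_four]

/-- base angle of a square: `true` for tilted squares -/
noncomputable def base (b : Bool) : ℝ := if b then thb else 0

/-- numerator of the base direction (denominator `953`) -/
def baseC (b : Bool) : ℕ := if b then 728 else 953
/-- numerator of the base direction (denominator `953`) -/
def baseS (b : Bool) : ℕ := if b then 615 else 0

theorem cos_base (b : Bool) : cos (base b) = (baseC b : ℝ) / 953 := by
  cases b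
  · simp [base, baseC]
  · simp [base, baseC, cos_thb]

theorem sin_base (b : Bool) : sin (base b) = (baseS b : ℝ) / 953 := by
  cases b
  · simp [base, baseS]
  · simp [base, baseS, sin_thb]

theorem base_nonneg (b : Bool) : 0 ≤ base b := by
  cases b
  · simp [base]
  · simpa [base] using thb_pos.le

theorem base_lt (b : Bool) : base b < 1 := by
  cases b
  · simp [base]
  · simpa [base] using thb_lt

/-- unit of length and angle: `1 / MM` -/
abbrev MM : ℕ := 100000000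

/-- upper bound for `5040 M^7 (P cos (n/M) + R sin (n/M))` -/
def crossUp (P R n : ℤ) : ℤ :=
  7 * 100000000 * (P * (720 * 100000000 ^ 6 - 360 * 100000000 ^ 4 * n ^ 2 +
    30 * 100000000 ^ 2 * n ^ 4) + (P.natAbs : ℤ) * n ^ 6) +
  (R * (5040 * 100000000 ^ 6 * n - 840 * 100000000 ^ 4 * n ^ 3 + 42 * 100000000 ^ 2 * n ^ 5) +
    (R.natAbs : ℤ) * (n.natAbs : ℤ) ^ 7)

theorem crossUp_ge (P R n : ℤ) :
    5040 * (MM : ℝ) ^ 7 * ((P : ℝ) * cos ((n : ℝ) / MM) + (R : ℝ) * sin ((n : ℝ) / MM)) ≤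
      (crossUp P R n : ℝ) := by
  obtain ⟨x, hx⟩ : ∃ x : ℝ, x = (n : ℝ) / MM := ⟨_, rfl⟩
  have hn : (n : ℝ) = x * MM := by
    rw [hx]; field_simp
  have h1 := abs_cos_sub6 x
  have h2 := abs_sin_sub7 x
  have h3 : (P : ℝ) * cos x ≤ (P : ℝ) * (1 - x ^ 2 / 2 + x ^ 4 / 24) + |(P : ℝ)| * (x ^ 6 / 720) := by
    have : |(P : ℝ) * (cos x - (1 - x ^ 2 / 2 + x ^ 4 / 24))| ≤ |(P : ℝ)| * (x ^ 6 / 720) := by
      rw [abs_mul]
      exact mul_le_mul_of_nonneg_left h1 (abs_nonneg _)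
    have := (abs_le.1 this).2
    linarith
  have h4 : (R : ℝ) * sin x ≤ (R : ℝ) * (x - x ^ 3 / 6 + x ^ 5 / 120) +
      |(R : ℝ)| * (|x| ^ 7 / 5040) := by
    have : |(R : ℝ) * (sin x - (x - x ^ 3 / 6 + x ^ 5 / 120))| ≤ |(R : ℝ)| * (|x| ^ 7 / 5040) := by
      rw [abs_mul]
      exact mul_le_mul_of_nonneg_left h2 (abs_nonneg _)
    have := (abs_le.1 this).2
    linarith
  rw [← hx]
  unfold crossUp
  push_cast
  have e3 : |(n : ℝ)| = |x| * 100000000 := by
    rw [hn, abs_mul]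
    norm_num
  have hn' : (n : ℝ) = x * 100000000 := by
    rw [hn]; norm_num
  rw [e3, hn']
  linarith

/-- is the square turned by a quarter turn (axis-type label, direction near 90 degrees)? -/
def turned (b : Bool) (bx : Box) : Bool := !b && decide (450 ≤ bx.k0)

/-- coefficients of `cos x`, `sin x` in `953 (u.1 sin θ - u.2 cos θ)`, `θ = base + x (+ π/2)` -/
def coP (b tu : Bool) (u : ℕ × ℕ) : ℤ :=
  if tu then (u.1 : ℤ) * baseC b + u.2 * baseS b else (u.1 : ℤ) * baseS b - u.2 * baseC b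
/-- see `coP` -/
def coR (b tu : Bool) (u : ℕ × ℕ) : ℤ :=
  if tu then (u.2 : ℤ) * baseC b - u.1 * baseS b else (u.1 : ℤ) * baseC b + u.2 * baseS b

/-- the quarter turn as a real angle -/
noncomputable def quart (tu : Bool) : ℝ := if tu then π / 2 else 0

theorem coPR (b tu : Bool) (u : ℕ × ℕ) (x : ℝ) :
    ((coP b tu u : ℝ) * cos x + (coR b tu u : ℝ) * sin x) / 953 =
      (u.1 : ℝ) * sin (base b + x + quart tu) - u.2 * cos (base b + x + quart tu) := by
  cases tu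
  · simp only [quart, coP, coR, Bool.false_eq_true, if_false, add_zero]
    rw [sin_add, cos_add, cos_base, sin_base]
    push_cast
    ring
  · simp only [quart, coP, coR, if_true]
    rw [sin_add_pi_div_two, cos_add_pi_div_two, sin_add, cos_add, cos_base, sin_base]
    push_cast
    ring

theorem cross_nonpos {b tu : Bool} {u : ℕ × ℕ} {n : ℤ}
    (h : crossUp (coP b tu u) (coR b tu u) n ≤ 0) :
    (u.1 : ℝ) * sin (base b + (n : ℝ) / MM + quart tu) -
      u.2 * cos (base b + (n : ℝ) / MM + quart tu) ≤ 0 := by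
  have h1 := crossUp_ge (coP b tu u) (coR b tu u) n
  have h2 : ((crossUp (coP b tu u) (coR b tu u) n : ℤ) : ℝ) ≤ 0 := by exact_mod_cast h
  rw [← coPR]
  have h3 : 5040 * (MM : ℝ) ^ 7 * ((coP b tu u : ℝ) * cos ((n : ℝ) / MM) +
    (coR b tu u : ℝ) * sin ((n : ℝ) / MM)) ≤ 0 := h1.trans h2
  have h4 : (0 : ℝ) < 5040 * (MM : ℝ) ^ 7 := by positivity
  have h5 := nonpos_of_mul_nonpos_right h3 h4
  exact div_nonpos_of_nonpos_of_nonneg h5 (by norm_num)

theorem cross_nonneg {b tu : Bool} {u : ℕ × ℕ} {n : ℤ}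
    (h : crossUp (-coP b tu u) (-coR b tu u) n ≤ 0) :
    0 ≤ (u.1 : ℝ) * sin (base b + (n : ℝ) / MM + quart tu) -
      u.2 * cos (base b + (n : ℝ) / MM + quart tu) := by
  have h1 := crossUp_ge (-coP b tu u) (-coR b tu u) n
  have h2 : ((crossUp (-coP b tu u) (-coR b tu u) n : ℤ) : ℝ) ≤ 0 := by exact_mod_cast h
  rw [← coPR]
  push_cast at h1
  have h3 := h1.trans h2
  have h4 : (0 : ℝ) < 5040 * (100000000 : ℝ) ^ 7 := by positivity
  have h5 := nonpos_of_mul_nonpos_right h3 h4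
  apply div_nonneg _ (by norm_num)
  push_cast
  linarith

/-- polar form of a direction of the first quadrant -/
theorem polar {a d : ℝ} (ha : 0 ≤ a) (hd : 0 ≤ d) (h : 0 < a + d) :
    ∃ ρ φ : ℝ, 0 < ρ ∧ 0 ≤ φ ∧ φ ≤ π / 2 ∧ a = ρ * cos φ ∧ d = ρ * sin φ := by
  have h2 : 0 < a ^ 2 + d ^ 2 := by nlinarith [sq_nonneg (a - d)]
  have hρ : 0 < √(a ^ 2 + d ^ 2) := Real.sqrt_pos.2 h2
  have hs : √(a ^ 2 + d ^ 2) ^ 2 = a ^ 2 + d ^ 2 := Real.sq_sqrt h2.le
  obtain ⟨ρ, hρd⟩ : ∃ ρ, ρ = √(a ^ 2 + d ^ 2) := ⟨_, rfl⟩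
  rw [← hρd] at hρ hs
  have h0 : 0 ≤ d / ρ := div_nonneg hd hρ.le
  have h1 : d / ρ ≤ 1 := by
    rw [div_le_one hρ]
    nlinarith
  refine ⟨ρ, arcsin (d / ρ), hρ, arcsin_nonneg.2 h0, arcsin_le_pi_div_two _, ?_, ?_⟩
  · rw [cos_arcsin]
    have e : 1 - (d / ρ) ^ 2 = (a / ρ) ^ 2 := by
      field_simp
      linarith
    rw [e, Real.sqrt_sq (div_nonneg ha hρ.le)]
    field_simp
  · rw [sin_arcsin (by linarith) h1]
    field_simp

theorem low_angle {a d t θ : ℝ} (ha : 0 ≤ a) (hd : 0 ≤ d) (h : 0 < a + d)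
    (_ht1 : t ≤ π / 2) (ht0 : 0 ≤ t) (hθ : θ < π)
    (h1 : 0 ≤ a * sin t - d * cos t) (h2 : a * sin θ - d * cos θ ≤ 0) : θ ≤ t := by
  obtain ⟨ρ, φ, hρ, hφ0, hφ1, rfl, rfl⟩ := polar ha hd h
  have e1 : ρ * cos φ * sin t - ρ * sin φ * cos t = ρ * sin (t - φ) := by
    rw [sin_sub]; ring
  have e2 : ρ * cos φ * sin θ - ρ * sin φ * cos θ = ρ * sin (θ - φ) := by
    rw [sin_sub]; ring
  rw [e1] at h1
  rw [e2] at h2
  have h3 : 0 ≤ sin (t - φ) := nonneg_of_mul_nonneg_right h1 hρ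
  have h4 : sin (θ - φ) ≤ 0 := nonpos_of_mul_nonpos_right h2 hρ
  have h5 : φ ≤ t := by
    by_contra hlt
    push Not at hlt
    have := sin_neg_of_neg_of_neg_pi_lt (x := t - φ) (by linarith) (by linarith [pi_pos])
    linarith
  have h6 : θ ≤ φ := by
    by_contra hlt
    push Not at hlt
    have := sin_pos_of_pos_of_lt_pi (x := θ - φ) (by linarith) (by linarith)
    linarith
  linarith

theorem upp_angle {a d t θ : ℝ} (ha : 0 ≤ a) (hd : 0 ≤ d) (h : 0 < a + d)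
    (ht1 : t ≤ π / 2) (_ht0 : 0 ≤ t) (hθ : -(π / 2) < θ)
    (h1 : a * sin t - d * cos t ≤ 0) (h2 : 0 ≤ a * sin θ - d * cos θ) : t ≤ θ := by
  obtain ⟨ρ, φ, hρ, hφ0, hφ1, rfl, rfl⟩ := polar ha hd h
  have e1 : ρ * cos φ * sin t - ρ * sin φ * cos t = ρ * sin (t - φ) := by
    rw [sin_sub]; ring
  have e2 : ρ * cos φ * sin θ - ρ * sin φ * cos θ = ρ * sin (θ - φ) := by
    rw [sin_sub]; ring
  rw [e1] at h1
  rw [e2] at h2
  have h3 : sin (t - φ) ≤ 0 := nonpos_of_mul_nonpos_right h1 hρ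
  have h4 : 0 ≤ sin (θ - φ) := nonneg_of_mul_nonneg_right h2 hρ
  have h5 : t ≤ φ := by
    by_contra hlt
    push Not at hlt
    have := sin_pos_of_pos_of_lt_pi (x := t - φ) (by linarith) (by linarith [pi_pos])
    linarith
  have h6 : φ ≤ θ := by
    by_contra hlt
    push Not at hlt
    have := sin_neg_of_neg_of_neg_pi_lt (x := θ - φ) (by linarith) (by linarith)
    linarith
  linarith

/-- angle part of the entry check: the cone of `bx` lies in `[T0, T1]` (units `1/M`, bias `M`,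
relative to the base angle) -/
def angOK (b : Bool) (bx : Box) (T0 T1 : ℕ) : Bool :=
  decide (50000000 ≤ T0) && decide (T0 ≤ 150000000) && decide (50000000 ≤ T1) &&
  decide (T1 ≤ 150000000) &&
  decide (0 < (dir bx.k0).1 + (dir bx.k0).2) && decide (0 < (dir bx.k1).1 + (dir bx.k1).2) &&
  decide (crossUp (coP b (turned b bx) (dir bx.k0)) (coR b (turned b bx) (dir bx.k0))
    ((T0 : ℤ) - 100000000) ≤ 0) &&
  decide (crossUp (-coP b (turned b bx) (dir bx.k1)) (-coR b (turned b bx) (dir bx.k1))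
    ((T1 : ℤ) - 100000000) ≤ 0)

theorem angle_entry {b : Bool} {bx : Box} {q : Sq} {T0 T1 : ℕ} (hq : q.c ^ 2 + q.s ^ 2 = 1)
    (hB : InBox bx q) (hchk : angOK b bx T0 T1 = true) :
    ∃ t : ℝ, (turned b bx = false → q.c = cos t ∧ q.s = sin t) ∧
      (turned b bx = true → q.s = cos t ∧ -q.c = sin t) ∧
      (T0 : ℝ) ≤ (MM : ℝ) * (t - base b) + MM ∧ (MM : ℝ) * (t - base b) + MM ≤ T1 := by
  obtain ⟨-, -, -, -, hc0, hs0, hk0, hk1⟩ := hB
  simp only [angOK, Bool.and_eq_true, decide_eq_true_eq] at hchk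
  obtain ⟨⟨⟨⟨⟨⟨⟨g1, g2⟩, g3⟩, g4⟩, g5⟩, g6⟩, g7⟩, g8⟩ := hchk
  have hs1 : q.s ≤ 1 := by nlinarith
  obtain ⟨t, ht⟩ : ∃ t, t = arcsin q.s := ⟨_, rfl⟩
  have ht0 : 0 ≤ t := by rw [ht]; exact arcsin_nonneg.2 hs0
  have ht1 : t ≤ π / 2 := by rw [ht]; exact arcsin_le_pi_div_two _
  have hst : q.s = sin t := by rw [ht, sin_arcsin (by linarith) hs1]
  have hct : q.c = cos t := by
    rw [ht, cos_arcsin]
    rw [show 1 - q.s ^ 2 = q.c ^ 2 by linarith, Real.sqrt_sq hc0]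
  have r1 := cross_nonpos g7
  have r2 := cross_nonneg g8
  rw [hst, hct] at hk0 hk1
  have hbn := base_nonneg b
  have hbl := base_lt b
  have hqn : 0 ≤ quart (turned b bx) := by
    unfold quart
    split_ifs
    · exact pi_div_two_pos.le
    · exact le_rfl
  have hql : quart (turned b bx) ≤ π / 2 := by
    unfold quart
    split_ifs
    · exact le_rfl
    · exact pi_div_two_pos.le
  have hpi : (3 : ℝ) < π := pi_gt_three
  have hT0 : ((((T0 : ℤ) - 100000000 : ℤ) : ℝ)) = (T0 : ℝ) - 100000000 := by push_cast; ring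
  have hT1 : ((((T1 : ℤ) - 100000000 : ℤ) : ℝ)) = (T1 : ℝ) - 100000000 := by push_cast; ring
  have hMM : ((MM : ℕ) : ℝ) = 100000000 := by norm_num
  rw [hT0, hMM] at r1
  rw [hT1, hMM] at r2
  have g1' : (50000000 : ℝ) ≤ T0 := by exact_mod_cast g1
  have g2' : (T0 : ℝ) ≤ 150000000 := by exact_mod_cast g2
  have g3' : (50000000 : ℝ) ≤ T1 := by exact_mod_cast g3
  have g4' : (T1 : ℝ) ≤ 150000000 := by exact_mod_cast g4
  have g5' : (0 : ℝ) < ((dir bx.k0).1 : ℝ) + (dir bx.k0).2 := by exact_mod_cast g5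
  have g6' : (0 : ℝ) < ((dir bx.k1).1 : ℝ) + (dir bx.k1).2 := by exact_mod_cast g6
  have q1 : ((T0 : ℝ) - 100000000) / 100000000 ≤ 1 / 2 := by
    rw [div_le_iff₀ (by norm_num)]; linarith
  have q2 : -(1 / 2) ≤ ((T1 : ℝ) - 100000000) / 100000000 := by
    rw [le_div_iff₀ (by norm_num)]; linarith
  have hlow : base b + ((T0 : ℝ) - 100000000) / 100000000 + quart (turned b bx) ≤ t := by
    refine low_angle (Nat.cast_nonneg _) (Nat.cast_nonneg _) g5' ht1 ht0 ?_ hk0 r1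
    -- base < 1, 1/2, π/2
    linarith [pi_gt_d2]
  have hupp : t ≤ base b + ((T1 : ℝ) - 100000000) / 100000000 + quart (turned b bx) := by
    refine upp_angle (Nat.cast_nonneg _) (Nat.cast_nonneg _) g6' ht1 ht0 ?_ (by linarith) r2
    linarith
  refine ⟨t - quart (turned b bx), ?_, ?_, ?_, ?_⟩
  · intro h
    rw [h]
    simp only [quart, Bool.false_eq_true, if_false, sub_zero]
    exact ⟨hct, hst⟩
  · intro h
    rw [h]
    simp only [quart, if_true]
    rw [cos_sub_pi_div_two, sin_sub_pi_div_two]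
    exact ⟨hst, by rw [hct]⟩
  · rw [hMM]
    have : ((T0 : ℝ) - 100000000) / 100000000 ≤ t - quart (turned b bx) - base b := by linarith
    rw [div_le_iff₀ (by norm_num)] at this
    linarith
  · rw [hMM]
    have : t - quart (turned b bx) - base b ≤ ((T1 : ℝ) - 100000000) / 100000000 := by linarith
    rw [le_div_iff₀ (by norm_num)] at this
    linarith

/-- box check of one label: every box of the label lies in the given ranges -/
def boxOK (b : Bool) (bx : Box) (X0 X1 Y0 Y1 T0 T1 : ℕ) : Bool :=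
  decide (X0 ≤ 1000 * bx.x0) && decide (1000 * bx.x1 ≤ X1) &&
  decide (Y0 ≤ 1000 * bx.y0) && decide (1000 * bx.y1 ≤ Y1) && angOK b bx T0 T1

/-- the entry check: `lo v`, `hi v`, `v = 3 l, 3 l + 1, 3 l + 2`, are bounds for `M x_l`, `M y_l`,
`M (t_l - base) + M` -/
def entryOK (N : Node) (tl : Fin 11 → Bool) (lo hi : ℕ → ℕ) : Bool :=
  (List.finRange 11).all fun l =>
    match N[(l : ℕ)]? with
    | none => true
    | some n => n.B.all fun bx => boxOK (tl l) bx (lo (3 * l)) (hi (3 * l)) (lo (3 * l + 1))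
        (hi (3 * l + 1)) (lo (3 * l + 2)) (hi (3 * l + 2))

/-- box of a world -/
def InFBox (tl : Fin 11 → Bool) (lo hi : ℕ → ℕ) (w : Wd) : Prop :=
  ∀ l : Fin 11,
    ((lo (3 * l) : ℝ) ≤ (MM : ℝ) * w.x l ∧ (MM : ℝ) * w.x l ≤ hi (3 * l)) ∧
    ((lo (3 * l + 1) : ℝ) ≤ (MM : ℝ) * w.y l ∧ (MM : ℝ) * w.y l ≤ hi (3 * l + 1)) ∧
    ((lo (3 * l + 2) : ℝ) ≤ (MM : ℝ) * (w.t l - base (tl l)) + MM ∧
      (MM : ℝ) * (w.t l - base (tl l)) + MM ≤ hi (3 * l + 2))

/-- a quarter turn of the direction does not change the open square -/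
theorem op_turn (q : Sq) : (⟨q.x, q.y, q.s, -q.c⟩ : Sq).op = q.op := by
  ext p
  simp only [Sq.op, Set.mem_ofPred_eq]
  have e1 : (p.1 - q.x) * q.s + (p.2 - q.y) * -q.c =
      -((p.2 - q.y) * q.c - (p.1 - q.x) * q.s) := by ring
  have e2 : (p.2 - q.y) * q.s - (p.1 - q.x) * -q.c =
      (p.1 - q.x) * q.c + (p.2 - q.y) * q.s := by ring
  rw [e1, e2, abs_neg]
  exact and_comm

theorem h_turn (q : Sq) : (⟨q.x, q.y, q.s, -q.c⟩ : Sq).h = q.h := by
  simp only [Sq.h, abs_neg]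
  ring

/-- replacing squares by squares with the same centre, half width and open set -/
theorem cpack_congr {L : ℝ} {q q' : Fin 11 → Sq} (h : CPack L q)
    (hu : ∀ i, (q' i).c ^ 2 + (q' i).s ^ 2 = 1) (hx : ∀ i, (q' i).x = (q i).x)
    (hy : ∀ i, (q' i).y = (q i).y) (hh : ∀ i, (q' i).h = (q i).h)
    (ho : ∀ i, (q' i).op = (q i).op) : CPack L q' := by
  rw [CPack.iff] at h ⊢
  obtain ⟨h0, h1, h2, h3, h4, h5⟩ := h
  refine ⟨hu, fun i => ?_, fun i => ?_, fun i => ?_, fun i => ?_, fun i j hij => ?_⟩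
  · rw [hh, hx]; exact h1 i
  · rw [hh, hx]; exact h2 i
  · rw [hh, hy]; exact h3 i
  · rw [hh, hy]; exact h4 i
  · rw [ho, ho]; exact h5 i j hij

/-- ENTRY -/
theorem entry {N : Node} {tl : Fin 11 → Bool} {lo hi : ℕ → ℕ} (hchk : entryOK N tl lo hi = true)
    {T : TrumpData} {L : ℝ} {q : Fin 11 → Sq} (hL : L ≤ T.L) (hq : CPack L q)
    (hN : InNode N q) : ∃ w : Wd, CPack L w.sq ∧ World w ∧ InFBox tl lo hi w ∧
      (∀ i, w.x i = (q i).x) ∧ (∀ i, w.y i = (q i).y) ∧ (∀ i, (w.sq i).op = (q i).op) := by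
  have hu : ∀ i, (q i).c ^ 2 + (q i).s ^ 2 = 1 := (CPack.iff.1 hq).1
  have key : ∀ l : Fin 11, ∃ t : ℝ,
      (⟨(q l).x, (q l).y, cos t, sin t⟩ : Sq).op = (q l).op ∧
      (⟨(q l).x, (q l).y, cos t, sin t⟩ : Sq).h = (q l).h ∧
      ((lo (3 * l) : ℝ) ≤ (MM : ℝ) * (q l).x ∧ (MM : ℝ) * (q l).x ≤ hi (3 * l)) ∧
      ((lo (3 * l + 1) : ℝ) ≤ (MM : ℝ) * (q l).y ∧ (MM : ℝ) * (q l).y ≤ hi (3 * l + 1)) ∧
      ((lo (3 * l + 2) : ℝ) ≤ (MM : ℝ) * (t - base (tl l)) + MM ∧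
        (MM : ℝ) * (t - base (tl l)) + MM ≤ hi (3 * l + 2)) := by
    intro l
    obtain ⟨n, hn, -, -, bx, hbx, hin⟩ := hN l
    have h1 := List.all_eq_true.1 hchk l (List.mem_finRange l)
    simp only [hn] at h1
    have h2 := List.all_eq_true.1 h1 bx hbx
    simp only [boxOK, Bool.and_eq_true, decide_eq_true_eq] at h2
    obtain ⟨⟨⟨⟨g1, g2⟩, g3⟩, g4⟩, g5⟩ := h2
    obtain ⟨t, k1, k2, k3, k4⟩ := angle_entry (hu l) hin g5
    obtain ⟨b1, b2, b3, b4, -⟩ := hin
    have hDD : ((DD : ℕ) : ℝ) = 100000 := by norm_num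
    have hMM : ((MM : ℕ) : ℝ) = 100000000 := by norm_num
    rw [hDD] at b1 b2 b3 b4
    have g1' : ((lo (3 * l) : ℕ) : ℝ) ≤ 1000 * bx.x0 := by exact_mod_cast g1
    have g2' : 1000 * (bx.x1 : ℝ) ≤ ((hi (3 * l) : ℕ) : ℝ) := by exact_mod_cast g2
    have g3' : ((lo (3 * l + 1) : ℕ) : ℝ) ≤ 1000 * bx.y0 := by exact_mod_cast g3
    have g4' : 1000 * (bx.y1 : ℝ) ≤ ((hi (3 * l + 1) : ℕ) : ℝ) := by exact_mod_cast g4
    rw [div_le_iff₀ (by norm_num)] at b1 b3
    rw [le_div_iff₀ (by norm_num)] at b2 b4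
    have hop : (⟨(q l).x, (q l).y, cos t, sin t⟩ : Sq).op = (q l).op ∧
        (⟨(q l).x, (q l).y, cos t, sin t⟩ : Sq).h = (q l).h := by
      cases htu : turned (tl l) bx
      · obtain ⟨e1, e2⟩ := k1 htu
        rw [← e1, ← e2]
        exact ⟨rfl, rfl⟩
      · obtain ⟨e1, e2⟩ := k2 htu
        rw [← e1, ← e2]
        exact ⟨op_turn _, h_turn _⟩
    refine ⟨t, hop.1, hop.2, ⟨?_, ?_⟩, ⟨?_, ?_⟩, k3, k4⟩
    · rw [hMM]; linarith
    · rw [hMM]; linarith
    · rw [hMM]; linarith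
    · rw [hMM]; linarith
  choose t ht1 ht2 ht3 ht4 ht5 using key
  have hc : CPack L (Wd.sq ⟨fun i => (q i).x, fun i => (q i).y, t⟩) :=
    cpack_congr hq (fun i => cos_sq_add_sin_sq _) (fun _ => rfl) (fun _ => rfl) ht2 ht1
  exact ⟨⟨fun i => (q i).x, fun i => (q i).y, t⟩, hc, world_of_cpack hL hc,
    fun l => ⟨ht3 l, ht4 l, ht5 l⟩, fun _ => rfl, fun _ => rfl, ht1⟩

end Fine
end Pool.Agent.MP_abb58c_co
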