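import Pool.Agent.Lib.MP_abb58c_co.FineSem

/-! MP_abb58c_co, FINE: values of `zv`, small lemmas -/

set_option autoImplicit false

namespace Pool.Agent.MP_abb58c_co
namespace Fine

open Real

theorem wzv_x (w : Wd) {i : ℕ} (_hi : i ≤ 10) :
    zv w (3 * i) = (MM : ℝ) * w.U (tiltS (lab i)) (lab i) := by
  unfold zv
  rw [if_neg (by omega), if_pos (by omega), show 3 * i / 3 = i by omega]

theorem wzv_y (w : Wd) {i : ℕ} (_hi : i ≤ 10) :
    zv w (3 * i + 1) = (MM : ℝ) * w.V (tiltS (lab i)) (lab i) + vb (tiltS (lab i)) := by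
  unfold zv
  rw [if_neg (by omega), if_neg (by omega), if_pos (by omega),
    show (3 * i + 1) / 3 = i by omega]

theorem wzv_t (w : Wd) {i : ℕ} (hi : i ≤ 10) :
    zv w (3 * i + 2) = 100000000 * (w.t (lab i) - base (tiltS (lab i))) + 100000000 := by
  unfold zv
  rw [if_neg (by omega), if_neg (by omega), if_neg (by omega),
    show (3 * i + 2) / 3 = i by omega]
  push_cast
  ring

theorem wzv_33 (w : Wd) : zv w 33 = 1073741824 := by
  unfold zv
  rw [if_pos rfl]

theorem half_bd {lt ht : ℕ} {z : ℝ} (h1 : (lt : ℝ) ≤ z) (h2 : z ≤ ht) :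
    |z - ((lt + ht) >>> 1 : ℕ)| ≤ ((ht - (lt + ht) >>> 1 : ℕ) : ℝ) := by
  have hle : lt ≤ ht := by
    have : (lt : ℝ) ≤ ht := h1.trans h2
    exact_mod_cast this
  obtain ⟨t, ht'⟩ : ∃ t, t = (lt + ht) >>> 1 := ⟨_, rfl⟩
  rw [← ht']
  rw [Nat.shiftRight_eq_div_pow, pow_one] at ht'
  have a1 : t ≤ ht := by omega
  have a2 : 2 * t ≤ lt + ht := by omega
  rw [Nat.cast_sub a1]
  have a2' : 2 * (t : ℝ) ≤ lt + ht := by exact_mod_cast a2
  rw [abs_le]
  constructor <;> linarith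

theorem beq_eq' {a b : ℕ} (h : Nat.beq a b = true) : a = b := Nat.eq_of_beq_eq_true h

theorem condE {c a b : Bool} (h : cond c a b = true) :
    (c = true ∧ a = true) ∨ (c = false ∧ b = true) := by
  cases c
  · exact Or.inr ⟨rfl, h⟩
  · exact Or.inl ⟨rfl, h⟩

theorem ndiv (a b : ℕ) : Nat.div a b = a / b := rfl

end Fine
end Pool.Agent.MP_abb58c_co
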