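import Pool.Agent.Lib.MP_abb58c_co.SweepArith

/-! MP_abb58c_co, SWEEP: packed lanes in one natural number, general lemmas. -/

namespace Pool.Agent.MP_abb58c_co

namespace Sweep

/-- the numbers of a list packed in lanes of `L` bits, first number lowest -/
def pack (L : ℕ) : List ℕ → ℕ
  | [] => 0
  | x :: t => x + 2 ^ L * pack L t

@[simp] theorem pack_nil (L : ℕ) : pack L [] = 0 := rfl

@[simp] theorem pack_cons (L x : ℕ) (t : List ℕ) : pack L (x :: t) = x + 2 ^ L * pack L t := rfl

theorem pack_add (L : ℕ) : ∀ (xs ys : List ℕ), xs.length = ys.length →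
    pack L xs + pack L ys = pack L (List.zipWith (· + ·) xs ys)
  | [], [], _ => rfl
  | x :: xs, y :: ys, h => by
    rw [List.zipWith_cons_cons, pack_cons, pack_cons, pack_cons,
      ← pack_add L xs ys (by simpa using h)]
    ring

theorem pack_mul (L c : ℕ) : ∀ xs : List ℕ, c * pack L xs = pack L (xs.map (c * ·))
  | [] => by simp
  | x :: xs => by
    rw [List.map_cons, pack_cons, pack_cons, ← pack_mul L c xs]
    ring

theorem pack_sub (L : ℕ) : ∀ (xs ys : List ℕ), xs.length = ys.length →
    (∀ p ∈ List.zip xs ys, p.2 ≤ p.1) →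
    pack L xs - pack L ys = pack L (List.zipWith (· - ·) xs ys)
  | [], [], _, _ => rfl
  | x :: xs, y :: ys, h, h2 => by
    have hlen : xs.length = ys.length := by simpa using h
    have h3 : y ≤ x := h2 (x, y) (by simp)
    have h4 : ∀ p ∈ List.zip xs ys, p.2 ≤ p.1 := fun p hp => h2 p (by simp [hp])
    have ih := pack_sub L xs ys hlen h4
    have hle : pack L ys ≤ pack L xs := by
      clear ih h h2 h3
      induction xs generalizing ys with
      | nil =>
        cases ys with
        | nil => exact le_rfl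
        | cons y ys => simp at hlen
      | cons x xs ih =>
        cases ys with
        | nil => simp at hlen
        | cons y ys =>
          rw [pack_cons, pack_cons]
          have h5 : y ≤ x := h4 (x, y) (by simp)
          have h6 := ih ys (by simpa using hlen) (fun p hp => h4 p (by simp [hp]))
          exact add_le_add h5 (Nat.mul_le_mul_left _ h6)
    rw [List.zipWith_cons_cons, pack_cons, pack_cons, pack_cons, ← ih, Nat.mul_sub]
    have := Nat.mul_le_mul_left (2 ^ L) hle
    omega

theorem pack_lt (L : ℕ) : ∀ xs : List ℕ, (∀ x ∈ xs, x < 2 ^ L) → pack L xs < 2 ^ (L * xs.length)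
  | [], _ => by simp
  | x :: xs, h => by
    have h1 := h x (by simp)
    have h2 := pack_lt L xs fun y hy => h y (by simp [hy])
    rw [pack_cons, List.length_cons, Nat.mul_succ, pow_add, mul_comm (2 ^ (L * xs.length))]
    calc x + 2 ^ L * pack L xs < 2 ^ L + 2 ^ L * pack L xs := by omega
      _ = 2 ^ L * (pack L xs + 1) := by ring
      _ ≤ 2 ^ L * 2 ^ (L * xs.length) := Nat.mul_le_mul_left _ h2

/-- bits of a packed number -/
theorem testBit_add_mul (L x m i : ℕ) (hx : x < 2 ^ L) :
    (x + 2 ^ L * m).testBit i = if i < L then x.testBit i else m.testBit (i - L) := by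
  rw [add_comm, Nat.testBit_two_pow_mul_add m hx i]

theorem and_add_mul (L x y m n : ℕ) (hx : x < 2 ^ L) (hy : y < 2 ^ L) :
    (x + 2 ^ L * m) &&& (y + 2 ^ L * n) = (x &&& y) + 2 ^ L * (m &&& n) := by
  have hxy : (x &&& y) < 2 ^ L := lt_of_le_of_lt Nat.and_le_left hx
  apply Nat.eq_of_testBit_eq
  intro i
  rw [Nat.testBit_and, testBit_add_mul L x m i hx, testBit_add_mul L y n i hy,
    testBit_add_mul L (x &&& y) (m &&& n) i hxy]
  split_ifs
  · rw [Nat.testBit_and]
  · rw [Nat.testBit_and]

theorem pack_and (L : ℕ) : ∀ (xs ys : List ℕ), xs.length = ys.length →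
    (∀ x ∈ xs, x < 2 ^ L) → (∀ y ∈ ys, y < 2 ^ L) →
    pack L xs &&& pack L ys = pack L (List.zipWith (· &&& ·) xs ys)
  | [], [], _, _, _ => by simp
  | x :: xs, y :: ys, h, hx, hy => by
    rw [List.zipWith_cons_cons, pack_cons, pack_cons, pack_cons,
      and_add_mul L x y _ _ (hx x (by simp)) (hy y (by simp)),
      pack_and L xs ys (by simpa using h) (fun z hz => hx z (by simp [hz]))
        (fun z hz => hy z (by simp [hz]))]

/-- horizontal sum -/
theorem pack_mod (L : ℕ) : ∀ xs : List ℕ, pack L xs % (2 ^ L - 1) = xs.sum % (2 ^ L - 1)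
  | [] => rfl
  | x :: xs => by
    have ih := pack_mod L xs
    rw [pack_cons, List.sum_cons]
    have h1 : x + 2 ^ L * pack L xs = x + pack L xs + (2 ^ L - 1) * pack L xs := by
      have : 2 ^ L * pack L xs = pack L xs + (2 ^ L - 1) * pack L xs := by
        rw [Nat.sub_mul, one_mul]
        have : pack L xs ≤ 2 ^ L * pack L xs := Nat.le_mul_of_pos_left _ (by positivity)
        omega
      omega
    rw [h1, Nat.add_mul_mod_self_left, Nat.add_mod, ih, ← Nat.add_mod]

/-- horizontal sum, small case -/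
theorem pack_mod_eq (L : ℕ) (xs : List ℕ) (h : xs.sum < 2 ^ L - 1) :
    pack L xs % (2 ^ L - 1) = xs.sum := by
  rw [pack_mod, Nat.mod_eq_of_lt h]

/-- in every case the horizontal sum is at most the sum of the lanes -/
theorem pack_mod_le (L : ℕ) (xs : List ℕ) : pack L xs % (2 ^ L - 1) ≤ xs.sum := by
  rw [pack_mod]; exact Nat.mod_le _ _

theorem rep_eq_pack (L n : ℕ) (hL : 1 ≤ L) : rep L n = pack L (List.replicate n 1) := by
  induction n with
  | zero => simp [rep]
  | succ n ih =>
    rw [List.replicate_succ, pack_cons, ← ih]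
    have h2 : 2 ≤ 2 ^ L := by
      calc 2 = 2 ^ 1 := by norm_num
        _ ≤ 2 ^ L := Nat.pow_le_pow_right (by norm_num) hL
    have key : ∀ m, (2 ^ L - 1) * rep L m = 2 ^ (L * m) - 1 := by
      intro m
      rw [rep]
      apply Nat.mul_div_cancel'
      rw [pow_mul]
      exact Nat.sub_one_dvd_pow_sub_one _ _
    have h3 := key (n + 1)
    have h4 := key n
    have h5 : 0 < 2 ^ L - 1 := by omega
    apply Nat.eq_of_mul_eq_mul_left h5
    have h6 : 1 ≤ 2 ^ (L * n) := Nat.one_le_two_pow
    have h7 : 2 ^ (L * (n + 1)) = 2 ^ L * 2 ^ (L * n) := by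
      rw [show L * (n + 1) = L * n + L by ring, pow_add, mul_comm]
    have h9 : (2 ^ L - 1) * (1 + 2 ^ L * rep L n) =
        (2 ^ L - 1) + 2 ^ L * ((2 ^ L - 1) * rep L n) := by ring
    rw [h3, h9, h4, Nat.mul_sub, mul_one, h7]
    have h8 : 2 ^ L ≤ 2 ^ L * 2 ^ (L * n) := Nat.le_mul_of_pos_right _ h6
    omega

/-- guard bit of a comparison: `x + (2 ^ g - t)` has its bit `g` iff `t ≤ x` (for `x, t < 2 ^ g`) -/
theorem guard_and (g x t : ℕ) (hx : x < 2 ^ g) (ht : t ≤ 2 ^ g) :
    (x + (2 ^ g - t)) &&& 2 ^ g = if t ≤ x then 2 ^ g else 0 := by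
  split_ifs with h
  · have h1 : x + (2 ^ g - t) = (x - t) + 2 ^ g * 1 := by omega
    have h2 : x - t < 2 ^ g := by omega
    have h3 : (2 ^ g : ℕ) = 0 + 2 ^ g * 1 := by simp
    rw [h1]
    conv_lhs => rw [h3, ← h3]
    have := and_add_mul g (x - t) 0 1 1 h2 (by positivity)
    simp only [mul_one, zero_add, Nat.and_zero, Nat.and_self] at this ⊢
    exact this
  · have h1 : x + (2 ^ g - t) = (x + (2 ^ g - t)) + 2 ^ g * 0 := by simp
    have h2 : x + (2 ^ g - t) < 2 ^ g := by omega
    have := and_add_mul g (x + (2 ^ g - t)) 0 0 1 h2 (by positivity)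
    simp only [mul_one, mul_zero, add_zero, zero_add, Nat.and_zero, Nat.zero_and] at this
    exact this

end Sweep

end Pool.Agent.MP_abb58c_co
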