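import Pool.Agent.Lib.MP_abb58c_co.Spec

/-! MP_abb58c_co, module LOCAL, part A: generic estimates -/

namespace Pool.Agent.MP_abb58c_co
namespace Local

theorem mul_near {x y x0 y0 ex ey : ℝ} (hx : |x - x0| ≤ ex) (hy : |y - y0| ≤ ey) :
    |x * y - x0 * y0| ≤ |x0| * ey + |y0| * ex + ex * ey := by
  have h1 : x * y - x0 * y0 = x0 * (y - y0) + y0 * (x - x0) + (x - x0) * (y - y0) := by ring
  have hex : 0 ≤ ex := le_trans (abs_nonneg _) hx
  rw [h1]
  calc |x0 * (y - y0) + y0 * (x - x0) + (x - x0) * (y - y0)|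
      ≤ |x0 * (y - y0)| + |y0 * (x - x0)| + |(x - x0) * (y - y0)| := abs_add_three _ _ _
    _ = |x0| * |y - y0| + |y0| * |x - x0| + |x - x0| * |y - y0| := by
        rw [abs_mul, abs_mul, abs_mul]
    _ ≤ _ := by
        have a1 := mul_le_mul_of_nonneg_left hy (abs_nonneg x0)
        have a2 := mul_le_mul_of_nonneg_left hx (abs_nonneg y0)
        have a3 := mul_le_mul hx hy (abs_nonneg _) hex
        linarith

/-- half width of an almost axis parallel square -/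
theorem h_axis {c s : ℝ} (h : c ^ 2 + s ^ 2 = 1) (hc : 0 < c) (hs : |s| ≤ 1 / 500) :
    1 / 2 + 0.498 * |s| ≤ (|c| + |s|) / 2 := by
  have h1 : |c| = c := abs_of_pos hc
  have h2 : |s| ^ 2 = s ^ 2 := sq_abs s
  have h3 : c ≤ 1 := by nlinarith [sq_nonneg s]
  have h4 : c ^ 2 ≤ c := by nlinarith
  have h5 : |s| ^ 2 ≤ |s| * (1 / 500) := by
    rw [sq]; exact mul_le_mul_of_nonneg_left hs (abs_nonneg _)
  rw [h1]
  have := abs_nonneg s
  norm_num at *
  nlinarith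

theorem km_bounds {kq sq kr sr ρ D : ℝ} (hq : kq ^ 2 + sq ^ 2 = 1) (hr : kr ^ 2 + sr ^ 2 = 1)
    (hkq : 0 < kq) (hkr : 0 < kr) (h1 : |sq| ≤ 0.003) (h2 : |sr| ≤ 0.003)
    (h3 : |sq| ≤ ρ) (h4 : |sr| ≤ ρ) (hD : |sr - sq| ≤ D) :
    1 - (D + 0.0001) * ρ ≤ kq * kr + sq * sr ∧
      |kq * sr - sq * kr - (sr - sq)| ≤ 0.0001 * ρ := by
  have hρ : 0 ≤ ρ := le_trans (abs_nonneg _) h3
  have kq1 : kq ≤ 1 := by nlinarith [sq_nonneg sq]
  have kr1 : kr ≤ 1 := by nlinarith [sq_nonneg sr]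
  have kq2 : 1 - kq ≤ sq ^ 2 := by nlinarith
  have kr2 : 1 - kr ≤ sr ^ 2 := by nlinarith
  have sq2 : sq ^ 2 ≤ 0.003 * |sq| := by
    rw [← sq_abs sq, pow_two]; exact mul_le_mul_of_nonneg_right h1 (abs_nonneg _)
  have sr2 : sr ^ 2 ≤ 0.003 * |sr| := by
    rw [← sq_abs sr, pow_two]; exact mul_le_mul_of_nonneg_right h2 (abs_nonneg _)
  have sq3 : sq ^ 2 ≤ 0.00001 := by
    have : (0.003 : ℝ) * |sq| ≤ 0.003 * 0.003 := by linarith
    norm_num at *
    linarith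
  have sr3 : sr ^ 2 ≤ 0.00001 := by
    have : (0.003 : ℝ) * |sr| ≤ 0.003 * 0.003 := by linarith
    norm_num at *
    linarith
  constructor
  · have e1 : kq * kr + sq * sr = 1 - ((kr - kq) ^ 2 + (sr - sq) ^ 2) / 2 := by
      nlinarith
    have hd : (sr - sq) ^ 2 ≤ 2 * (D * ρ) := by
      rw [← sq_abs (sr - sq), pow_two]
      have t1 : |sr - sq| ≤ 2 * ρ := by
        calc |sr - sq| ≤ |sr| + |sq| := abs_sub _ _
          _ ≤ 2 * ρ := by linarith
      have hD0 : 0 ≤ D := le_trans (abs_nonneg _) hD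
      calc |sr - sq| * |sr - sq| ≤ D * (2 * ρ) := mul_le_mul hD t1 (abs_nonneg _) hD0
        _ = 2 * (D * ρ) := by ring
    have hk : (kr - kq) ^ 2 ≤ 0.0001 * ρ := by
      have a1 : |kr - kq| ≤ 0.00001 := by
        rw [abs_le]; constructor <;> norm_num at * <;> linarith
      have a2 : |kr - kq| ≤ 0.006 * ρ := by
        rw [abs_le]; constructor <;> norm_num at * <;> nlinarith
      rw [← sq_abs (kr - kq), pow_two]
      have a3 : (0:ℝ) ≤ 0.00001 := by norm_num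
      calc |kr - kq| * |kr - kq| ≤ 0.00001 * (0.006 * ρ) := mul_le_mul a1 a2 (abs_nonneg _) a3
        _ ≤ 0.0001 * ρ := by norm_num; nlinarith
    rw [e1]
    nlinarith
  · have e2 : kq * sr - sq * kr - (sr - sq) = (1 - kr) * sq - (1 - kq) * sr := by ring
    rw [e2]
    have b1 : |(1 - kr) * sq| ≤ 0.00001 * ρ := by
      rw [abs_mul, abs_of_nonneg (by linarith : 0 ≤ 1 - kr)]
      exact mul_le_mul (by linarith) h3 (abs_nonneg _) (by norm_num)
    have b2 : |(1 - kq) * sr| ≤ 0.00001 * ρ := by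
      rw [abs_mul, abs_of_nonneg (by linarith : 0 ≤ 1 - kq)]
      exact mul_le_mul (by linarith) h4 (abs_nonneg _) (by norm_num)
    calc |(1 - kr) * sq - (1 - kq) * sr| ≤ |(1 - kr) * sq| + |(1 - kq) * sr| := abs_sub _ _
      _ ≤ 0.0001 * ρ := by norm_num at *; linarith

/-- corner - edge contact -/
theorem corner {C S E F F0 kq sq kr sr ρ : ℝ}
    (hC0 : 0.7639994 < C) (hC1 : C < 0.7639995) (hS0 : 0.6452168 < S) (hS1 : S < 0.6452169)
    (hq : kq ^ 2 + sq ^ 2 = 1) (hr : kr ^ 2 + sr ^ 2 = 1)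
    (hkq : 0 < kq) (hkr : 0 < kr) (h1 : |sq| ≤ 0.002) (h2 : |sr| ≤ 0.00283)
    (h3 : |sq| ≤ ρ) (h4 : |sr| ≤ ρ) (hE : 0 ≤ E) (hF : |F - F0| ≤ 0.0029)
    (h : 1 / 2 + ((C + S) * (kq * kr + sq * sr) + (C - S) * (kq * sr - sq * kr)) / 2
      ≤ E * kr + F * sr) :
    -(0.0065 * ρ) ≤ E - (1 / 2 + (C + S) / 2) + F0 * sr - 0.0594 * (sr - sq) := by
  have hρ : 0 ≤ ρ := le_trans (abs_nonneg _) h3
  have hD : |sr - sq| ≤ 0.00483 := by
    calc |sr - sq| ≤ |sr| + |sq| := abs_sub _ _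
      _ ≤ 0.00483 := by norm_num at *; linarith
  obtain ⟨k1, m1⟩ := km_bounds hq hr hkq hkr (le_trans h1 (by norm_num)) (le_trans h2 (by norm_num))
    h3 h4 hD
  have kr1 : kr ≤ 1 := by nlinarith [sq_nonneg sr]
  have f1 : F * sr ≤ F0 * sr + 0.0029 * ρ := by
    have : |(F - F0) * sr| ≤ 0.0029 * ρ := by
      rw [abs_mul]; exact mul_le_mul hF h4 (abs_nonneg _) (by norm_num)
    have := (abs_le.1 this).2
    linarith
  have g1 : E * kr ≤ E := by nlinarith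
  set k := kq * kr + sq * sr with hk
  set m := kq * sr - sq * kr with hm
  have hm2 := abs_le.1 m1
  have c1 : (C + S) / 2 - 0.0035 * ρ ≤ (C + S) * k / 2 := by
    have t : (C + S) * (1 - (0.00483 + 0.0001) * ρ) ≤ (C + S) * k :=
      mul_le_mul_of_nonneg_left k1 (by linarith)
    have t2 : (C + S) * ρ ≤ 1.4093 * ρ := mul_le_mul_of_nonneg_right (by linarith) hρ
    norm_num at *
    linarith
  have c2 : 0.0594 * (sr - sq) - 0.00005 * ρ ≤ (C - S) * m / 2 := by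
    have t3 : |(C - S) * m / 2 - 0.0594 * (sr - sq)| ≤ 0.00005 * ρ := by
      have e : (C - S) * m / 2 - 0.0594 * (sr - sq)
          = (C - S) / 2 * (m - (sr - sq)) + ((C - S) / 2 - 0.0594) * (sr - sq) := by ring
      rw [e]
      have u1 : |(C - S) / 2 * (m - (sr - sq))| ≤ 0.06 * (0.0001 * ρ) := by
        rw [abs_mul]
        refine mul_le_mul ?_ m1 (abs_nonneg _) (by norm_num)
        rw [abs_le]; constructor <;> norm_num at * <;> linarith
      have u2 : |((C - S) / 2 - 0.0594) * (sr - sq)| ≤ 0.00001 * (2 * ρ) := by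
        rw [abs_mul]
        refine mul_le_mul ?_ ?_ (abs_nonneg _) (by norm_num)
        · rw [abs_le]; constructor <;> norm_num at * <;> linarith
        · calc |sr - sq| ≤ |sr| + |sq| := abs_sub _ _
            _ ≤ 2 * ρ := by linarith
      calc _ ≤ |(C - S) / 2 * (m - (sr - sq))| + |((C - S) / 2 - 0.0594) * (sr - sq)| :=
            abs_add_le _ _
        _ ≤ 0.00005 * ρ := by norm_num at *; linarith
    have := (abs_le.1 t3).1
    linarith
  norm_num at *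
  linarith

/-- edge - edge contact; `kx, sx` is the rotation of the square whose frame is used -/
theorem edge {E F F0 kq sq kr sr kx sx ρ : ℝ}
    (hq : kq ^ 2 + sq ^ 2 = 1) (hr : kr ^ 2 + sr ^ 2 = 1)
    (hkq : 0 < kq) (hkr : 0 < kr) (h1 : |sq| ≤ 0.00283) (h2 : |sr| ≤ 0.00283)
    (h3 : |sq| ≤ ρ) (h4 : |sr| ≤ ρ) (hE : 0 ≤ E) (hF : |F - F0| ≤ 0.0029)
    (hx : (kx = kq ∧ sx = sq) ∨ (kx = kr ∧ sx = sr))
    (h : 1 / 2 + ((kq * kr + sq * sr) + |kq * sr - sq * kr|) / 2 ≤ E * kx + F * sx) :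
    |sr - sq| / 2 - 0.006 * ρ ≤ E - 1 + F0 * sx := by
  have hρ : 0 ≤ ρ := le_trans (abs_nonneg _) h3
  have hD : |sr - sq| ≤ 0.00566 := by
    calc |sr - sq| ≤ |sr| + |sq| := abs_sub _ _
      _ ≤ 0.00566 := by norm_num at *; linarith
  obtain ⟨k1, m1⟩ := km_bounds hq hr hkq hkr (le_trans h1 (by norm_num)) (le_trans h2 (by norm_num))
    h3 h4 hD
  have kx1 : kx ≤ 1 := by
    rcases hx with ⟨e, -⟩ | ⟨e, -⟩ <;> rw [e]
    · nlinarith [sq_nonneg sq]
    · nlinarith [sq_nonneg sr]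
  have hsx : |sx| ≤ ρ := by
    rcases hx with ⟨-, e⟩ | ⟨-, e⟩ <;> rw [e] <;> assumption
  have f1 : F * sx ≤ F0 * sx + 0.0029 * ρ := by
    have : |(F - F0) * sx| ≤ 0.0029 * ρ := by
      rw [abs_mul]; exact mul_le_mul hF hsx (abs_nonneg _) (by norm_num)
    have := (abs_le.1 this).2
    linarith
  have g1 : E * kx ≤ E := by nlinarith
  have m2 : |sr - sq| - 0.0001 * ρ ≤ |kq * sr - sq * kr| := by
    have : |sr - sq| ≤ |kq * sr - sq * kr| + |kq * sr - sq * kr - (sr - sq)| := by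
      have e : sr - sq = (kq * sr - sq * kr) - (kq * sr - sq * kr - (sr - sq)) := by ring
      calc |sr - sq| = |(kq * sr - sq * kr) - (kq * sr - sq * kr - (sr - sq))| := by rw [← e]
        _ ≤ _ := abs_sub _ _
    linarith
  norm_num at *
  linarith

end Local
end Pool.Agent.MP_abb58c_co
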