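import Mathlib.Tactic

/-! MP_abb58c_co, module LOCAL, part B: the linear programming certificates -/

namespace Pool.Agent.MP_abb58c_co
namespace Local

variable {a b g : Fin 11 → ℝ} {l r : ℝ}

theorem lp_a0p (hl : 0 ≤ l) (hr : 0 ≤ r)
    (wAbp : 0 ≤ 1 * b 0 + (-249/500) * g 0)
    (wAbm : 0 ≤ 1 * b 0 + (249/500) * g 0)
    (wBbm : 0 ≤ 1 * b 1 + (249/500) * g 1)
    (wClp : 0 ≤ 1 * a 2 + (-249/500) * g 2)
    (wDlp : 0 ≤ 1 * a 3 + (-249/500) * g 3)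
    (wDlm : 0 ≤ 1 * a 3 + (249/500) * g 3)
    (wErp : 0 ≤ (-1) * a 4 + (-249/500) * g 4 + (-1) * l)
    (wEbp : 0 ≤ 1 * b 4 + (-249/500) * g 4)
    (wEbm : 0 ≤ 1 * b 4 + (249/500) * g 4)
    (wFrp : 0 ≤ (-1) * a 5 + (-249/500) * g 5 + (-1) * l)
    (wFrm : 0 ≤ (-1) * a 5 + (249/500) * g 5 + (-1) * l)
    (wFtp : 0 ≤ (-1) * b 5 + (-249/500) * g 5 + (-1) * l)
    (w4t : (-21/10000) * r ≤ (-1) * b 9 + (-297/5000) * g 9 + (-1) * l)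
    (w5r : (-21/10000) * r ≤ (-1) * a 10 + (-297/5000) * g 10 + (-1) * l)
    (pABp : (-61/10000) * r ≤ (-1) * a 0 + (1/2) * g 0 + 1 * a 1 + (-1/2) * g 1)
    (pABm : (-61/10000) * r ≤ (-1) * a 0 + (-1/2) * g 0 + 1 * a 1 + (1/2) * g 1)
    (pACp : (-61/10000) * r ≤ (-1) * b 0 + (1/2) * g 0 + 1 * b 2 + (-1/2) * g 2)
    (pACm : (-61/10000) * r ≤ (-1) * b 0 + (-1/2) * g 0 + 1 * b 2 + (1/2) * g 2)
    (p12m : (-61/10000) * r ≤ (-1613/2500) * a 6 + (191/250) * b 6 + (-953/2500) * g 6 + (1613/2500) * a 7 + (-191/250) * b 7 + (1/2) * g 7)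
    (p13p : (-61/10000) * r ≤ (-191/250) * a 6 + (-1613/2500) * b 6 + (1/2) * g 6 + (191/250) * a 8 + (1613/2500) * b 8 + (-4751/10000) * g 8)
    (p13m : (-61/10000) * r ≤ (-191/250) * a 6 + (-1613/2500) * b 6 + (-4751/10000) * g 6 + (191/250) * a 8 + (1613/2500) * b 8 + (1/2) * g 8)
    (p25p : (-61/10000) * r ≤ (-191/250) * a 7 + (-1613/2500) * b 7 + (1/2) * g 7 + (191/250) * a 10 + (1613/2500) * b 10 + (-4751/10000) * g 10)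
    (p25m : (-61/10000) * r ≤ (-191/250) * a 7 + (-1613/2500) * b 7 + (-4751/10000) * g 7 + (191/250) * a 10 + (1613/2500) * b 10 + (1/2) * g 10)
    (p34p : (-61/10000) * r ≤ (1613/2500) * a 8 + (-191/250) * b 8 + (1/2) * g 8 + (-1613/2500) * a 9 + (191/250) * b 9 + (-831/5000) * g 9)
    (p34m : (-61/10000) * r ≤ (1613/2500) * a 8 + (-191/250) * b 8 + (-831/5000) * g 8 + (-1613/2500) * a 9 + (191/250) * b 9 + (1/2) * g 9)
    (p35p : (-61/10000) * r ≤ (-1613/2500) * a 8 + (191/250) * b 8 + (1/2) * g 8 + (1613/2500) * a 10 + (-191/250) * b 10 + (-953/2500) * g 10)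
    (p35m : (-61/10000) * r ≤ (-1613/2500) * a 8 + (191/250) * b 8 + (-953/2500) * g 8 + (1613/2500) * a 10 + (-191/250) * b 10 + (1/2) * g 10)
    (pB2 : (-33/5000) * r ≤ (-191/250) * a 1 + (-1613/2500) * b 1 + (297/5000) * g 1 + (191/250) * a 7 + (1613/2500) * b 7 + (-659/10000) * g 7)
    (pC1 : (-33/5000) * r ≤ (-191/250) * a 2 + (-1613/2500) * b 2 + (297/5000) * g 2 + (191/250) * a 6 + (1613/2500) * b 6 + (-4751/10000) * g 6)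
    (pD1 : (-33/5000) * r ≤ (-1613/2500) * a 3 + (191/250) * b 3 + (297/5000) * g 3 + (1613/2500) * a 6 + (-191/250) * b 6 + (479/1000) * g 6)
    (pD4 : (-33/5000) * r ≤ (-191/250) * a 3 + (-1613/2500) * b 3 + (297/5000) * g 3 + (191/250) * a 9 + (1613/2500) * b 9 + (-2391/10000) * g 9)
    (pE2 : (-33/5000) * r ≤ (1613/2500) * a 4 + (-191/250) * b 4 + (297/5000) * g 4 + (-1613/2500) * a 7 + (191/250) * b 7 + (1701/10000) * g 7)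
    (pF3 : (-33/5000) * r ≤ (191/250) * a 5 + (1613/2500) * b 5 + (297/5000) * g 5 + (-191/250) * a 8 + (-1613/2500) * b 8 + (-227/2500) * g 8) :
    (a 0) ≤ r / 2 := by
  linarith

theorem lp_a0m (hl : 0 ≤ l) (hr : 0 ≤ r)
    (wAlp : 0 ≤ 1 * a 0 + (-249/500) * g 0)
    (wAlm : 0 ≤ 1 * a 0 + (249/500) * g 0) :
    -(a 0) ≤ r / 2 := by
  linarith

theorem lp_b0p (hl : 0 ≤ l) (hr : 0 ≤ r)
    (wAlp : 0 ≤ 1 * a 0 + (-249/500) * g 0)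
    (wAlm : 0 ≤ 1 * a 0 + (249/500) * g 0)
    (wBbm : 0 ≤ 1 * b 1 + (249/500) * g 1)
    (wClp : 0 ≤ 1 * a 2 + (-249/500) * g 2)
    (wDlp : 0 ≤ 1 * a 3 + (-249/500) * g 3)
    (wDlm : 0 ≤ 1 * a 3 + (249/500) * g 3)
    (wErp : 0 ≤ (-1) * a 4 + (-249/500) * g 4 + (-1) * l)
    (wEbp : 0 ≤ 1 * b 4 + (-249/500) * g 4)
    (wEbm : 0 ≤ 1 * b 4 + (249/500) * g 4)
    (wFrp : 0 ≤ (-1) * a 5 + (-249/500) * g 5 + (-1) * l)
    (wFrm : 0 ≤ (-1) * a 5 + (249/500) * g 5 + (-1) * l)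
    (wFtp : 0 ≤ (-1) * b 5 + (-249/500) * g 5 + (-1) * l)
    (w4t : (-21/10000) * r ≤ (-1) * b 9 + (-297/5000) * g 9 + (-1) * l)
    (w5r : (-21/10000) * r ≤ (-1) * a 10 + (-297/5000) * g 10 + (-1) * l)
    (pABp : (-61/10000) * r ≤ (-1) * a 0 + (1/2) * g 0 + 1 * a 1 + (-1/2) * g 1)
    (pABm : (-61/10000) * r ≤ (-1) * a 0 + (-1/2) * g 0 + 1 * a 1 + (1/2) * g 1)
    (pACp : (-61/10000) * r ≤ (-1) * b 0 + (1/2) * g 0 + 1 * b 2 + (-1/2) * g 2)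
    (pACm : (-61/10000) * r ≤ (-1) * b 0 + (-1/2) * g 0 + 1 * b 2 + (1/2) * g 2)
    (p12m : (-61/10000) * r ≤ (-1613/2500) * a 6 + (191/250) * b 6 + (-953/2500) * g 6 + (1613/2500) * a 7 + (-191/250) * b 7 + (1/2) * g 7)
    (p13p : (-61/10000) * r ≤ (-191/250) * a 6 + (-1613/2500) * b 6 + (1/2) * g 6 + (191/250) * a 8 + (1613/2500) * b 8 + (-4751/10000) * g 8)
    (p13m : (-61/10000) * r ≤ (-191/250) * a 6 + (-1613/2500) * b 6 + (-4751/10000) * g 6 + (191/250) * a 8 + (1613/2500) * b 8 + (1/2) * g 8)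
    (p25p : (-61/10000) * r ≤ (-191/250) * a 7 + (-1613/2500) * b 7 + (1/2) * g 7 + (191/250) * a 10 + (1613/2500) * b 10 + (-4751/10000) * g 10)
    (p25m : (-61/10000) * r ≤ (-191/250) * a 7 + (-1613/2500) * b 7 + (-4751/10000) * g 7 + (191/250) * a 10 + (1613/2500) * b 10 + (1/2) * g 10)
    (p34p : (-61/10000) * r ≤ (1613/2500) * a 8 + (-191/250) * b 8 + (1/2) * g 8 + (-1613/2500) * a 9 + (191/250) * b 9 + (-831/5000) * g 9)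
    (p34m : (-61/10000) * r ≤ (1613/2500) * a 8 + (-191/250) * b 8 + (-831/5000) * g 8 + (-1613/2500) * a 9 + (191/250) * b 9 + (1/2) * g 9)
    (p35p : (-61/10000) * r ≤ (-1613/2500) * a 8 + (191/250) * b 8 + (1/2) * g 8 + (1613/2500) * a 10 + (-191/250) * b 10 + (-953/2500) * g 10)
    (p35m : (-61/10000) * r ≤ (-1613/2500) * a 8 + (191/250) * b 8 + (-953/2500) * g 8 + (1613/2500) * a 10 + (-191/250) * b 10 + (1/2) * g 10)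
    (pB2 : (-33/5000) * r ≤ (-191/250) * a 1 + (-1613/2500) * b 1 + (297/5000) * g 1 + (191/250) * a 7 + (1613/2500) * b 7 + (-659/10000) * g 7)
    (pC1 : (-33/5000) * r ≤ (-191/250) * a 2 + (-1613/2500) * b 2 + (297/5000) * g 2 + (191/250) * a 6 + (1613/2500) * b 6 + (-4751/10000) * g 6)
    (pD1 : (-33/5000) * r ≤ (-1613/2500) * a 3 + (191/250) * b 3 + (297/5000) * g 3 + (1613/2500) * a 6 + (-191/250) * b 6 + (479/1000) * g 6)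
    (pD4 : (-33/5000) * r ≤ (-191/250) * a 3 + (-1613/2500) * b 3 + (297/5000) * g 3 + (191/250) * a 9 + (1613/2500) * b 9 + (-2391/10000) * g 9)
    (pE2 : (-33/5000) * r ≤ (1613/2500) * a 4 + (-191/250) * b 4 + (297/5000) * g 4 + (-1613/2500) * a 7 + (191/250) * b 7 + (1701/10000) * g 7)
    (pF3 : (-33/5000) * r ≤ (191/250) * a 5 + (1613/2500) * b 5 + (297/5000) * g 5 + (-191/250) * a 8 + (-1613/2500) * b 8 + (-227/2500) * g 8) :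
    (b 0) ≤ r / 2 := by
  linarith

theorem lp_b0m (hl : 0 ≤ l) (hr : 0 ≤ r)
    (wAbp : 0 ≤ 1 * b 0 + (-249/500) * g 0)
    (wAbm : 0 ≤ 1 * b 0 + (249/500) * g 0) :
    -(b 0) ≤ r / 2 := by
  linarith

theorem lp_g0p (hl : 0 ≤ l) (hr : 0 ≤ r)
    (wAlp : 0 ≤ 1 * a 0 + (-249/500) * g 0)
    (wAbp : 0 ≤ 1 * b 0 + (-249/500) * g 0)
    (wBbp : 0 ≤ 1 * b 1 + (-249/500) * g 1)
    (wClp : 0 ≤ 1 * a 2 + (-249/500) * g 2)
    (wDlp : 0 ≤ 1 * a 3 + (-249/500) * g 3)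
    (wDlm : 0 ≤ 1 * a 3 + (249/500) * g 3)
    (wErp : 0 ≤ (-1) * a 4 + (-249/500) * g 4 + (-1) * l)
    (wEbp : 0 ≤ 1 * b 4 + (-249/500) * g 4)
    (wEbm : 0 ≤ 1 * b 4 + (249/500) * g 4)
    (wFrp : 0 ≤ (-1) * a 5 + (-249/500) * g 5 + (-1) * l)
    (wFrm : 0 ≤ (-1) * a 5 + (249/500) * g 5 + (-1) * l)
    (wFtp : 0 ≤ (-1) * b 5 + (-249/500) * g 5 + (-1) * l)
    (w4t : (-21/10000) * r ≤ (-1) * b 9 + (-297/5000) * g 9 + (-1) * l)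
    (w5r : (-21/10000) * r ≤ (-1) * a 10 + (-297/5000) * g 10 + (-1) * l)
    (pABp : (-61/10000) * r ≤ (-1) * a 0 + (1/2) * g 0 + 1 * a 1 + (-1/2) * g 1)
    (pABm : (-61/10000) * r ≤ (-1) * a 0 + (-1/2) * g 0 + 1 * a 1 + (1/2) * g 1)
    (pACp : (-61/10000) * r ≤ (-1) * b 0 + (1/2) * g 0 + 1 * b 2 + (-1/2) * g 2)
    (pACm : (-61/10000) * r ≤ (-1) * b 0 + (-1/2) * g 0 + 1 * b 2 + (1/2) * g 2)
    (p12m : (-61/10000) * r ≤ (-1613/2500) * a 6 + (191/250) * b 6 + (-953/2500) * g 6 + (1613/2500) * a 7 + (-191/250) * b 7 + (1/2) * g 7)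
    (p13p : (-61/10000) * r ≤ (-191/250) * a 6 + (-1613/2500) * b 6 + (1/2) * g 6 + (191/250) * a 8 + (1613/2500) * b 8 + (-4751/10000) * g 8)
    (p13m : (-61/10000) * r ≤ (-191/250) * a 6 + (-1613/2500) * b 6 + (-4751/10000) * g 6 + (191/250) * a 8 + (1613/2500) * b 8 + (1/2) * g 8)
    (p25p : (-61/10000) * r ≤ (-191/250) * a 7 + (-1613/2500) * b 7 + (1/2) * g 7 + (191/250) * a 10 + (1613/2500) * b 10 + (-4751/10000) * g 10)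
    (p25m : (-61/10000) * r ≤ (-191/250) * a 7 + (-1613/2500) * b 7 + (-4751/10000) * g 7 + (191/250) * a 10 + (1613/2500) * b 10 + (1/2) * g 10)
    (p34p : (-61/10000) * r ≤ (1613/2500) * a 8 + (-191/250) * b 8 + (1/2) * g 8 + (-1613/2500) * a 9 + (191/250) * b 9 + (-831/5000) * g 9)
    (p34m : (-61/10000) * r ≤ (1613/2500) * a 8 + (-191/250) * b 8 + (-831/5000) * g 8 + (-1613/2500) * a 9 + (191/250) * b 9 + (1/2) * g 9)
    (p35p : (-61/10000) * r ≤ (-1613/2500) * a 8 + (191/250) * b 8 + (1/2) * g 8 + (1613/2500) * a 10 + (-191/250) * b 10 + (-953/2500) * g 10)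
    (p35m : (-61/10000) * r ≤ (-1613/2500) * a 8 + (191/250) * b 8 + (-953/2500) * g 8 + (1613/2500) * a 10 + (-191/250) * b 10 + (1/2) * g 10)
    (pB2 : (-33/5000) * r ≤ (-191/250) * a 1 + (-1613/2500) * b 1 + (297/5000) * g 1 + (191/250) * a 7 + (1613/2500) * b 7 + (-659/10000) * g 7)
    (pC1 : (-33/5000) * r ≤ (-191/250) * a 2 + (-1613/2500) * b 2 + (297/5000) * g 2 + (191/250) * a 6 + (1613/2500) * b 6 + (-4751/10000) * g 6)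
    (pD1 : (-33/5000) * r ≤ (-1613/2500) * a 3 + (191/250) * b 3 + (297/5000) * g 3 + (1613/2500) * a 6 + (-191/250) * b 6 + (479/1000) * g 6)
    (pD4 : (-33/5000) * r ≤ (-191/250) * a 3 + (-1613/2500) * b 3 + (297/5000) * g 3 + (191/250) * a 9 + (1613/2500) * b 9 + (-2391/10000) * g 9)
    (pE2 : (-33/5000) * r ≤ (1613/2500) * a 4 + (-191/250) * b 4 + (297/5000) * g 4 + (-1613/2500) * a 7 + (191/250) * b 7 + (1701/10000) * g 7)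
    (pF3 : (-33/5000) * r ≤ (191/250) * a 5 + (1613/2500) * b 5 + (297/5000) * g 5 + (-191/250) * a 8 + (-1613/2500) * b 8 + (-227/2500) * g 8) :
    (g 0) ≤ r / 2 := by
  linarith

theorem lp_g0m (hl : 0 ≤ l) (hr : 0 ≤ r)
    (wAlm : 0 ≤ 1 * a 0 + (249/500) * g 0)
    (wAbm : 0 ≤ 1 * b 0 + (249/500) * g 0)
    (wBbm : 0 ≤ 1 * b 1 + (249/500) * g 1)
    (wClp : 0 ≤ 1 * a 2 + (-249/500) * g 2)
    (wClm : 0 ≤ 1 * a 2 + (249/500) * g 2)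
    (wDlp : 0 ≤ 1 * a 3 + (-249/500) * g 3)
    (wDlm : 0 ≤ 1 * a 3 + (249/500) * g 3)
    (wErp : 0 ≤ (-1) * a 4 + (-249/500) * g 4 + (-1) * l)
    (wEbp : 0 ≤ 1 * b 4 + (-249/500) * g 4)
    (wEbm : 0 ≤ 1 * b 4 + (249/500) * g 4)
    (wFrp : 0 ≤ (-1) * a 5 + (-249/500) * g 5 + (-1) * l)
    (wFrm : 0 ≤ (-1) * a 5 + (249/500) * g 5 + (-1) * l)
    (wFtp : 0 ≤ (-1) * b 5 + (-249/500) * g 5 + (-1) * l)
    (w4t : (-21/10000) * r ≤ (-1) * b 9 + (-297/5000) * g 9 + (-1) * l)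
    (w5r : (-21/10000) * r ≤ (-1) * a 10 + (-297/5000) * g 10 + (-1) * l)
    (pABp : (-61/10000) * r ≤ (-1) * a 0 + (1/2) * g 0 + 1 * a 1 + (-1/2) * g 1)
    (pABm : (-61/10000) * r ≤ (-1) * a 0 + (-1/2) * g 0 + 1 * a 1 + (1/2) * g 1)
    (pACp : (-61/10000) * r ≤ (-1) * b 0 + (1/2) * g 0 + 1 * b 2 + (-1/2) * g 2)
    (p12m : (-61/10000) * r ≤ (-1613/2500) * a 6 + (191/250) * b 6 + (-953/2500) * g 6 + (1613/2500) * a 7 + (-191/250) * b 7 + (1/2) * g 7)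
    (p13p : (-61/10000) * r ≤ (-191/250) * a 6 + (-1613/2500) * b 6 + (1/2) * g 6 + (191/250) * a 8 + (1613/2500) * b 8 + (-4751/10000) * g 8)
    (p13m : (-61/10000) * r ≤ (-191/250) * a 6 + (-1613/2500) * b 6 + (-4751/10000) * g 6 + (191/250) * a 8 + (1613/2500) * b 8 + (1/2) * g 8)
    (p25p : (-61/10000) * r ≤ (-191/250) * a 7 + (-1613/2500) * b 7 + (1/2) * g 7 + (191/250) * a 10 + (1613/2500) * b 10 + (-4751/10000) * g 10)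
    (p25m : (-61/10000) * r ≤ (-191/250) * a 7 + (-1613/2500) * b 7 + (-4751/10000) * g 7 + (191/250) * a 10 + (1613/2500) * b 10 + (1/2) * g 10)
    (p34p : (-61/10000) * r ≤ (1613/2500) * a 8 + (-191/250) * b 8 + (1/2) * g 8 + (-1613/2500) * a 9 + (191/250) * b 9 + (-831/5000) * g 9)
    (p34m : (-61/10000) * r ≤ (1613/2500) * a 8 + (-191/250) * b 8 + (-831/5000) * g 8 + (-1613/2500) * a 9 + (191/250) * b 9 + (1/2) * g 9)
    (p35p : (-61/10000) * r ≤ (-1613/2500) * a 8 + (191/250) * b 8 + (1/2) * g 8 + (1613/2500) * a 10 + (-191/250) * b 10 + (-953/2500) * g 10)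
    (p35m : (-61/10000) * r ≤ (-1613/2500) * a 8 + (191/250) * b 8 + (-953/2500) * g 8 + (1613/2500) * a 10 + (-191/250) * b 10 + (1/2) * g 10)
    (pB2 : (-33/5000) * r ≤ (-191/250) * a 1 + (-1613/2500) * b 1 + (297/5000) * g 1 + (191/250) * a 7 + (1613/2500) * b 7 + (-659/10000) * g 7)
    (pC1 : (-33/5000) * r ≤ (-191/250) * a 2 + (-1613/2500) * b 2 + (297/5000) * g 2 + (191/250) * a 6 + (1613/2500) * b 6 + (-4751/10000) * g 6)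
    (pD1 : (-33/5000) * r ≤ (-1613/2500) * a 3 + (191/250) * b 3 + (297/5000) * g 3 + (1613/2500) * a 6 + (-191/250) * b 6 + (479/1000) * g 6)
    (pD4 : (-33/5000) * r ≤ (-191/250) * a 3 + (-1613/2500) * b 3 + (297/5000) * g 3 + (191/250) * a 9 + (1613/2500) * b 9 + (-2391/10000) * g 9)
    (pE2 : (-33/5000) * r ≤ (1613/2500) * a 4 + (-191/250) * b 4 + (297/5000) * g 4 + (-1613/2500) * a 7 + (191/250) * b 7 + (1701/10000) * g 7)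
    (pF3 : (-33/5000) * r ≤ (191/250) * a 5 + (1613/2500) * b 5 + (297/5000) * g 5 + (-191/250) * a 8 + (-1613/2500) * b 8 + (-227/2500) * g 8) :
    -(g 0) ≤ r / 2 := by
  linarith

theorem lp_a1p (hl : 0 ≤ l) (hr : 0 ≤ r)
    (wAbp : 0 ≤ 1 * b 0 + (-249/500) * g 0)
    (wAbm : 0 ≤ 1 * b 0 + (249/500) * g 0)
    (wBbp : 0 ≤ 1 * b 1 + (-249/500) * g 1)
    (wBbm : 0 ≤ 1 * b 1 + (249/500) * g 1)
    (wClp : 0 ≤ 1 * a 2 + (-249/500) * g 2)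
    (wDlp : 0 ≤ 1 * a 3 + (-249/500) * g 3)
    (wDlm : 0 ≤ 1 * a 3 + (249/500) * g 3)
    (wErp : 0 ≤ (-1) * a 4 + (-249/500) * g 4 + (-1) * l)
    (wEbp : 0 ≤ 1 * b 4 + (-249/500) * g 4)
    (wEbm : 0 ≤ 1 * b 4 + (249/500) * g 4)
    (wFrp : 0 ≤ (-1) * a 5 + (-249/500) * g 5 + (-1) * l)
    (wFrm : 0 ≤ (-1) * a 5 + (249/500) * g 5 + (-1) * l)
    (wFtp : 0 ≤ (-1) * b 5 + (-249/500) * g 5 + (-1) * l)
    (w4t : (-21/10000) * r ≤ (-1) * b 9 + (-297/5000) * g 9 + (-1) * l)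
    (w5r : (-21/10000) * r ≤ (-1) * a 10 + (-297/5000) * g 10 + (-1) * l)
    (pACp : (-61/10000) * r ≤ (-1) * b 0 + (1/2) * g 0 + 1 * b 2 + (-1/2) * g 2)
    (pACm : (-61/10000) * r ≤ (-1) * b 0 + (-1/2) * g 0 + 1 * b 2 + (1/2) * g 2)
    (p12m : (-61/10000) * r ≤ (-1613/2500) * a 6 + (191/250) * b 6 + (-953/2500) * g 6 + (1613/2500) * a 7 + (-191/250) * b 7 + (1/2) * g 7)
    (p13p : (-61/10000) * r ≤ (-191/250) * a 6 + (-1613/2500) * b 6 + (1/2) * g 6 + (191/250) * a 8 + (1613/2500) * b 8 + (-4751/10000) * g 8)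
    (p13m : (-61/10000) * r ≤ (-191/250) * a 6 + (-1613/2500) * b 6 + (-4751/10000) * g 6 + (191/250) * a 8 + (1613/2500) * b 8 + (1/2) * g 8)
    (p25p : (-61/10000) * r ≤ (-191/250) * a 7 + (-1613/2500) * b 7 + (1/2) * g 7 + (191/250) * a 10 + (1613/2500) * b 10 + (-4751/10000) * g 10)
    (p25m : (-61/10000) * r ≤ (-191/250) * a 7 + (-1613/2500) * b 7 + (-4751/10000) * g 7 + (191/250) * a 10 + (1613/2500) * b 10 + (1/2) * g 10)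
    (p34p : (-61/10000) * r ≤ (1613/2500) * a 8 + (-191/250) * b 8 + (1/2) * g 8 + (-1613/2500) * a 9 + (191/250) * b 9 + (-831/5000) * g 9)
    (p34m : (-61/10000) * r ≤ (1613/2500) * a 8 + (-191/250) * b 8 + (-831/5000) * g 8 + (-1613/2500) * a 9 + (191/250) * b 9 + (1/2) * g 9)
    (p35p : (-61/10000) * r ≤ (-1613/2500) * a 8 + (191/250) * b 8 + (1/2) * g 8 + (1613/2500) * a 10 + (-191/250) * b 10 + (-953/2500) * g 10)
    (p35m : (-61/10000) * r ≤ (-1613/2500) * a 8 + (191/250) * b 8 + (-953/2500) * g 8 + (1613/2500) * a 10 + (-191/250) * b 10 + (1/2) * g 10)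
    (pB2 : (-33/5000) * r ≤ (-191/250) * a 1 + (-1613/2500) * b 1 + (297/5000) * g 1 + (191/250) * a 7 + (1613/2500) * b 7 + (-659/10000) * g 7)
    (pC1 : (-33/5000) * r ≤ (-191/250) * a 2 + (-1613/2500) * b 2 + (297/5000) * g 2 + (191/250) * a 6 + (1613/2500) * b 6 + (-4751/10000) * g 6)
    (pD1 : (-33/5000) * r ≤ (-1613/2500) * a 3 + (191/250) * b 3 + (297/5000) * g 3 + (1613/2500) * a 6 + (-191/250) * b 6 + (479/1000) * g 6)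
    (pD4 : (-33/5000) * r ≤ (-191/250) * a 3 + (-1613/2500) * b 3 + (297/5000) * g 3 + (191/250) * a 9 + (1613/2500) * b 9 + (-2391/10000) * g 9)
    (pE2 : (-33/5000) * r ≤ (1613/2500) * a 4 + (-191/250) * b 4 + (297/5000) * g 4 + (-1613/2500) * a 7 + (191/250) * b 7 + (1701/10000) * g 7)
    (pF3 : (-33/5000) * r ≤ (191/250) * a 5 + (1613/2500) * b 5 + (297/5000) * g 5 + (-191/250) * a 8 + (-1613/2500) * b 8 + (-227/2500) * g 8) :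
    (a 1) ≤ r / 2 := by
  linarith

theorem lp_a1m (hl : 0 ≤ l) (hr : 0 ≤ r)
    (wAlp : 0 ≤ 1 * a 0 + (-249/500) * g 0)
    (wAlm : 0 ≤ 1 * a 0 + (249/500) * g 0)
    (pABp : (-61/10000) * r ≤ (-1) * a 0 + (1/2) * g 0 + 1 * a 1 + (-1/2) * g 1)
    (pABm : (-61/10000) * r ≤ (-1) * a 0 + (-1/2) * g 0 + 1 * a 1 + (1/2) * g 1) :
    -(a 1) ≤ r / 2 := by
  linarith

theorem lp_b1p (hl : 0 ≤ l) (hr : 0 ≤ r)
    (wAlp : 0 ≤ 1 * a 0 + (-249/500) * g 0)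
    (wAlm : 0 ≤ 1 * a 0 + (249/500) * g 0)
    (wAbm : 0 ≤ 1 * b 0 + (249/500) * g 0)
    (wClp : 0 ≤ 1 * a 2 + (-249/500) * g 2)
    (wDlp : 0 ≤ 1 * a 3 + (-249/500) * g 3)
    (wDlm : 0 ≤ 1 * a 3 + (249/500) * g 3)
    (wErp : 0 ≤ (-1) * a 4 + (-249/500) * g 4 + (-1) * l)
    (wEbp : 0 ≤ 1 * b 4 + (-249/500) * g 4)
    (wEbm : 0 ≤ 1 * b 4 + (249/500) * g 4)
    (wFrp : 0 ≤ (-1) * a 5 + (-249/500) * g 5 + (-1) * l)
    (wFrm : 0 ≤ (-1) * a 5 + (249/500) * g 5 + (-1) * l)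
    (wFtp : 0 ≤ (-1) * b 5 + (-249/500) * g 5 + (-1) * l)
    (w4t : (-21/10000) * r ≤ (-1) * b 9 + (-297/5000) * g 9 + (-1) * l)
    (w5r : (-21/10000) * r ≤ (-1) * a 10 + (-297/5000) * g 10 + (-1) * l)
    (pABp : (-61/10000) * r ≤ (-1) * a 0 + (1/2) * g 0 + 1 * a 1 + (-1/2) * g 1)
    (pABm : (-61/10000) * r ≤ (-1) * a 0 + (-1/2) * g 0 + 1 * a 1 + (1/2) * g 1)
    (pACp : (-61/10000) * r ≤ (-1) * b 0 + (1/2) * g 0 + 1 * b 2 + (-1/2) * g 2)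
    (pACm : (-61/10000) * r ≤ (-1) * b 0 + (-1/2) * g 0 + 1 * b 2 + (1/2) * g 2)
    (p12m : (-61/10000) * r ≤ (-1613/2500) * a 6 + (191/250) * b 6 + (-953/2500) * g 6 + (1613/2500) * a 7 + (-191/250) * b 7 + (1/2) * g 7)
    (p13p : (-61/10000) * r ≤ (-191/250) * a 6 + (-1613/2500) * b 6 + (1/2) * g 6 + (191/250) * a 8 + (1613/2500) * b 8 + (-4751/10000) * g 8)
    (p13m : (-61/10000) * r ≤ (-191/250) * a 6 + (-1613/2500) * b 6 + (-4751/10000) * g 6 + (191/250) * a 8 + (1613/2500) * b 8 + (1/2) * g 8)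
    (p25p : (-61/10000) * r ≤ (-191/250) * a 7 + (-1613/2500) * b 7 + (1/2) * g 7 + (191/250) * a 10 + (1613/2500) * b 10 + (-4751/10000) * g 10)
    (p25m : (-61/10000) * r ≤ (-191/250) * a 7 + (-1613/2500) * b 7 + (-4751/10000) * g 7 + (191/250) * a 10 + (1613/2500) * b 10 + (1/2) * g 10)
    (p34p : (-61/10000) * r ≤ (1613/2500) * a 8 + (-191/250) * b 8 + (1/2) * g 8 + (-1613/2500) * a 9 + (191/250) * b 9 + (-831/5000) * g 9)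
    (p34m : (-61/10000) * r ≤ (1613/2500) * a 8 + (-191/250) * b 8 + (-831/5000) * g 8 + (-1613/2500) * a 9 + (191/250) * b 9 + (1/2) * g 9)
    (p35p : (-61/10000) * r ≤ (-1613/2500) * a 8 + (191/250) * b 8 + (1/2) * g 8 + (1613/2500) * a 10 + (-191/250) * b 10 + (-953/2500) * g 10)
    (p35m : (-61/10000) * r ≤ (-1613/2500) * a 8 + (191/250) * b 8 + (-953/2500) * g 8 + (1613/2500) * a 10 + (-191/250) * b 10 + (1/2) * g 10)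
    (pB2 : (-33/5000) * r ≤ (-191/250) * a 1 + (-1613/2500) * b 1 + (297/5000) * g 1 + (191/250) * a 7 + (1613/2500) * b 7 + (-659/10000) * g 7)
    (pC1 : (-33/5000) * r ≤ (-191/250) * a 2 + (-1613/2500) * b 2 + (297/5000) * g 2 + (191/250) * a 6 + (1613/2500) * b 6 + (-4751/10000) * g 6)
    (pD1 : (-33/5000) * r ≤ (-1613/2500) * a 3 + (191/250) * b 3 + (297/5000) * g 3 + (1613/2500) * a 6 + (-191/250) * b 6 + (479/1000) * g 6)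
    (pD4 : (-33/5000) * r ≤ (-191/250) * a 3 + (-1613/2500) * b 3 + (297/5000) * g 3 + (191/250) * a 9 + (1613/2500) * b 9 + (-2391/10000) * g 9)
    (pE2 : (-33/5000) * r ≤ (1613/2500) * a 4 + (-191/250) * b 4 + (297/5000) * g 4 + (-1613/2500) * a 7 + (191/250) * b 7 + (1701/10000) * g 7)
    (pF3 : (-33/5000) * r ≤ (191/250) * a 5 + (1613/2500) * b 5 + (297/5000) * g 5 + (-191/250) * a 8 + (-1613/2500) * b 8 + (-227/2500) * g 8) :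
    (b 1) ≤ r / 2 := by
  linarith

theorem lp_b1m (hl : 0 ≤ l) (hr : 0 ≤ r)
    (wBbp : 0 ≤ 1 * b 1 + (-249/500) * g 1)
    (wBbm : 0 ≤ 1 * b 1 + (249/500) * g 1) :
    -(b 1) ≤ r / 2 := by
  linarith

theorem lp_g1p (hl : 0 ≤ l) (hr : 0 ≤ r)
    (wAlp : 0 ≤ 1 * a 0 + (-249/500) * g 0)
    (wAbp : 0 ≤ 1 * b 0 + (-249/500) * g 0)
    (wBbp : 0 ≤ 1 * b 1 + (-249/500) * g 1)
    (wClp : 0 ≤ 1 * a 2 + (-249/500) * g 2)
    (wClm : 0 ≤ 1 * a 2 + (249/500) * g 2)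
    (wDlp : 0 ≤ 1 * a 3 + (-249/500) * g 3)
    (wDlm : 0 ≤ 1 * a 3 + (249/500) * g 3)
    (wErp : 0 ≤ (-1) * a 4 + (-249/500) * g 4 + (-1) * l)
    (wEbp : 0 ≤ 1 * b 4 + (-249/500) * g 4)
    (wEbm : 0 ≤ 1 * b 4 + (249/500) * g 4)
    (wFrp : 0 ≤ (-1) * a 5 + (-249/500) * g 5 + (-1) * l)
    (wFrm : 0 ≤ (-1) * a 5 + (249/500) * g 5 + (-1) * l)
    (wFtp : 0 ≤ (-1) * b 5 + (-249/500) * g 5 + (-1) * l)
    (w4t : (-21/10000) * r ≤ (-1) * b 9 + (-297/5000) * g 9 + (-1) * l)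
    (w5r : (-21/10000) * r ≤ (-1) * a 10 + (-297/5000) * g 10 + (-1) * l)
    (pABp : (-61/10000) * r ≤ (-1) * a 0 + (1/2) * g 0 + 1 * a 1 + (-1/2) * g 1)
    (pACp : (-61/10000) * r ≤ (-1) * b 0 + (1/2) * g 0 + 1 * b 2 + (-1/2) * g 2)
    (pACm : (-61/10000) * r ≤ (-1) * b 0 + (-1/2) * g 0 + 1 * b 2 + (1/2) * g 2)
    (p12m : (-61/10000) * r ≤ (-1613/2500) * a 6 + (191/250) * b 6 + (-953/2500) * g 6 + (1613/2500) * a 7 + (-191/250) * b 7 + (1/2) * g 7)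
    (p13p : (-61/10000) * r ≤ (-191/250) * a 6 + (-1613/2500) * b 6 + (1/2) * g 6 + (191/250) * a 8 + (1613/2500) * b 8 + (-4751/10000) * g 8)
    (p13m : (-61/10000) * r ≤ (-191/250) * a 6 + (-1613/2500) * b 6 + (-4751/10000) * g 6 + (191/250) * a 8 + (1613/2500) * b 8 + (1/2) * g 8)
    (p25p : (-61/10000) * r ≤ (-191/250) * a 7 + (-1613/2500) * b 7 + (1/2) * g 7 + (191/250) * a 10 + (1613/2500) * b 10 + (-4751/10000) * g 10)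
    (p25m : (-61/10000) * r ≤ (-191/250) * a 7 + (-1613/2500) * b 7 + (-4751/10000) * g 7 + (191/250) * a 10 + (1613/2500) * b 10 + (1/2) * g 10)
    (p34p : (-61/10000) * r ≤ (1613/2500) * a 8 + (-191/250) * b 8 + (1/2) * g 8 + (-1613/2500) * a 9 + (191/250) * b 9 + (-831/5000) * g 9)
    (p34m : (-61/10000) * r ≤ (1613/2500) * a 8 + (-191/250) * b 8 + (-831/5000) * g 8 + (-1613/2500) * a 9 + (191/250) * b 9 + (1/2) * g 9)
    (p35p : (-61/10000) * r ≤ (-1613/2500) * a 8 + (191/250) * b 8 + (1/2) * g 8 + (1613/2500) * a 10 + (-191/250) * b 10 + (-953/2500) * g 10)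
    (p35m : (-61/10000) * r ≤ (-1613/2500) * a 8 + (191/250) * b 8 + (-953/2500) * g 8 + (1613/2500) * a 10 + (-191/250) * b 10 + (1/2) * g 10)
    (pB2 : (-33/5000) * r ≤ (-191/250) * a 1 + (-1613/2500) * b 1 + (297/5000) * g 1 + (191/250) * a 7 + (1613/2500) * b 7 + (-659/10000) * g 7)
    (pC1 : (-33/5000) * r ≤ (-191/250) * a 2 + (-1613/2500) * b 2 + (297/5000) * g 2 + (191/250) * a 6 + (1613/2500) * b 6 + (-4751/10000) * g 6)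
    (pD1 : (-33/5000) * r ≤ (-1613/2500) * a 3 + (191/250) * b 3 + (297/5000) * g 3 + (1613/2500) * a 6 + (-191/250) * b 6 + (479/1000) * g 6)
    (pD4 : (-33/5000) * r ≤ (-191/250) * a 3 + (-1613/2500) * b 3 + (297/5000) * g 3 + (191/250) * a 9 + (1613/2500) * b 9 + (-2391/10000) * g 9)
    (pE2 : (-33/5000) * r ≤ (1613/2500) * a 4 + (-191/250) * b 4 + (297/5000) * g 4 + (-1613/2500) * a 7 + (191/250) * b 7 + (1701/10000) * g 7)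
    (pF3 : (-33/5000) * r ≤ (191/250) * a 5 + (1613/2500) * b 5 + (297/5000) * g 5 + (-191/250) * a 8 + (-1613/2500) * b 8 + (-227/2500) * g 8) :
    (g 1) ≤ r / 2 := by
  linarith

theorem lp_g1m (hl : 0 ≤ l) (hr : 0 ≤ r)
    (wAlm : 0 ≤ 1 * a 0 + (249/500) * g 0)
    (wAbp : 0 ≤ 1 * b 0 + (-249/500) * g 0)
    (wAbm : 0 ≤ 1 * b 0 + (249/500) * g 0)
    (wBbm : 0 ≤ 1 * b 1 + (249/500) * g 1)
    (wClp : 0 ≤ 1 * a 2 + (-249/500) * g 2)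
    (wClm : 0 ≤ 1 * a 2 + (249/500) * g 2)
    (wDlp : 0 ≤ 1 * a 3 + (-249/500) * g 3)
    (wDlm : 0 ≤ 1 * a 3 + (249/500) * g 3)
    (wErp : 0 ≤ (-1) * a 4 + (-249/500) * g 4 + (-1) * l)
    (wEbp : 0 ≤ 1 * b 4 + (-249/500) * g 4)
    (wEbm : 0 ≤ 1 * b 4 + (249/500) * g 4)
    (wFrp : 0 ≤ (-1) * a 5 + (-249/500) * g 5 + (-1) * l)
    (wFrm : 0 ≤ (-1) * a 5 + (249/500) * g 5 + (-1) * l)
    (wFtp : 0 ≤ (-1) * b 5 + (-249/500) * g 5 + (-1) * l)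
    (w4t : (-21/10000) * r ≤ (-1) * b 9 + (-297/5000) * g 9 + (-1) * l)
    (w5r : (-21/10000) * r ≤ (-1) * a 10 + (-297/5000) * g 10 + (-1) * l)
    (pABm : (-61/10000) * r ≤ (-1) * a 0 + (-1/2) * g 0 + 1 * a 1 + (1/2) * g 1)
    (pACp : (-61/10000) * r ≤ (-1) * b 0 + (1/2) * g 0 + 1 * b 2 + (-1/2) * g 2)
    (p12m : (-61/10000) * r ≤ (-1613/2500) * a 6 + (191/250) * b 6 + (-953/2500) * g 6 + (1613/2500) * a 7 + (-191/250) * b 7 + (1/2) * g 7)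
    (p13p : (-61/10000) * r ≤ (-191/250) * a 6 + (-1613/2500) * b 6 + (1/2) * g 6 + (191/250) * a 8 + (1613/2500) * b 8 + (-4751/10000) * g 8)
    (p13m : (-61/10000) * r ≤ (-191/250) * a 6 + (-1613/2500) * b 6 + (-4751/10000) * g 6 + (191/250) * a 8 + (1613/2500) * b 8 + (1/2) * g 8)
    (p25p : (-61/10000) * r ≤ (-191/250) * a 7 + (-1613/2500) * b 7 + (1/2) * g 7 + (191/250) * a 10 + (1613/2500) * b 10 + (-4751/10000) * g 10)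
    (p25m : (-61/10000) * r ≤ (-191/250) * a 7 + (-1613/2500) * b 7 + (-4751/10000) * g 7 + (191/250) * a 10 + (1613/2500) * b 10 + (1/2) * g 10)
    (p34p : (-61/10000) * r ≤ (1613/2500) * a 8 + (-191/250) * b 8 + (1/2) * g 8 + (-1613/2500) * a 9 + (191/250) * b 9 + (-831/5000) * g 9)
    (p34m : (-61/10000) * r ≤ (1613/2500) * a 8 + (-191/250) * b 8 + (-831/5000) * g 8 + (-1613/2500) * a 9 + (191/250) * b 9 + (1/2) * g 9)
    (p35p : (-61/10000) * r ≤ (-1613/2500) * a 8 + (191/250) * b 8 + (1/2) * g 8 + (1613/2500) * a 10 + (-191/250) * b 10 + (-953/2500) * g 10)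
    (p35m : (-61/10000) * r ≤ (-1613/2500) * a 8 + (191/250) * b 8 + (-953/2500) * g 8 + (1613/2500) * a 10 + (-191/250) * b 10 + (1/2) * g 10)
    (pB2 : (-33/5000) * r ≤ (-191/250) * a 1 + (-1613/2500) * b 1 + (297/5000) * g 1 + (191/250) * a 7 + (1613/2500) * b 7 + (-659/10000) * g 7)
    (pC1 : (-33/5000) * r ≤ (-191/250) * a 2 + (-1613/2500) * b 2 + (297/5000) * g 2 + (191/250) * a 6 + (1613/2500) * b 6 + (-4751/10000) * g 6)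
    (pD1 : (-33/5000) * r ≤ (-1613/2500) * a 3 + (191/250) * b 3 + (297/5000) * g 3 + (1613/2500) * a 6 + (-191/250) * b 6 + (479/1000) * g 6)
    (pD4 : (-33/5000) * r ≤ (-191/250) * a 3 + (-1613/2500) * b 3 + (297/5000) * g 3 + (191/250) * a 9 + (1613/2500) * b 9 + (-2391/10000) * g 9)
    (pE2 : (-33/5000) * r ≤ (1613/2500) * a 4 + (-191/250) * b 4 + (297/5000) * g 4 + (-1613/2500) * a 7 + (191/250) * b 7 + (1701/10000) * g 7)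
    (pF3 : (-33/5000) * r ≤ (191/250) * a 5 + (1613/2500) * b 5 + (297/5000) * g 5 + (-191/250) * a 8 + (-1613/2500) * b 8 + (-227/2500) * g 8) :
    -(g 1) ≤ r / 2 := by
  linarith

theorem lp_a2p (hl : 0 ≤ l) (hr : 0 ≤ r)
    (wAlp : 0 ≤ 1 * a 0 + (-249/500) * g 0)
    (wAbp : 0 ≤ 1 * b 0 + (-249/500) * g 0)
    (wAbm : 0 ≤ 1 * b 0 + (249/500) * g 0)
    (wBbm : 0 ≤ 1 * b 1 + (249/500) * g 1)
    (wDlp : 0 ≤ 1 * a 3 + (-249/500) * g 3)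
    (wDlm : 0 ≤ 1 * a 3 + (249/500) * g 3)
    (wErp : 0 ≤ (-1) * a 4 + (-249/500) * g 4 + (-1) * l)
    (wEbp : 0 ≤ 1 * b 4 + (-249/500) * g 4)
    (wEbm : 0 ≤ 1 * b 4 + (249/500) * g 4)
    (wFrp : 0 ≤ (-1) * a 5 + (-249/500) * g 5 + (-1) * l)
    (wFrm : 0 ≤ (-1) * a 5 + (249/500) * g 5 + (-1) * l)
    (wFtp : 0 ≤ (-1) * b 5 + (-249/500) * g 5 + (-1) * l)
    (w4t : (-21/10000) * r ≤ (-1) * b 9 + (-297/5000) * g 9 + (-1) * l)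
    (w5r : (-21/10000) * r ≤ (-1) * a 10 + (-297/5000) * g 10 + (-1) * l)
    (pABp : (-61/10000) * r ≤ (-1) * a 0 + (1/2) * g 0 + 1 * a 1 + (-1/2) * g 1)
    (pABm : (-61/10000) * r ≤ (-1) * a 0 + (-1/2) * g 0 + 1 * a 1 + (1/2) * g 1)
    (pACp : (-61/10000) * r ≤ (-1) * b 0 + (1/2) * g 0 + 1 * b 2 + (-1/2) * g 2)
    (pACm : (-61/10000) * r ≤ (-1) * b 0 + (-1/2) * g 0 + 1 * b 2 + (1/2) * g 2)
    (p12m : (-61/10000) * r ≤ (-1613/2500) * a 6 + (191/250) * b 6 + (-953/2500) * g 6 + (1613/2500) * a 7 + (-191/250) * b 7 + (1/2) * g 7)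
    (p13p : (-61/10000) * r ≤ (-191/250) * a 6 + (-1613/2500) * b 6 + (1/2) * g 6 + (191/250) * a 8 + (1613/2500) * b 8 + (-4751/10000) * g 8)
    (p13m : (-61/10000) * r ≤ (-191/250) * a 6 + (-1613/2500) * b 6 + (-4751/10000) * g 6 + (191/250) * a 8 + (1613/2500) * b 8 + (1/2) * g 8)
    (p25p : (-61/10000) * r ≤ (-191/250) * a 7 + (-1613/2500) * b 7 + (1/2) * g 7 + (191/250) * a 10 + (1613/2500) * b 10 + (-4751/10000) * g 10)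
    (p25m : (-61/10000) * r ≤ (-191/250) * a 7 + (-1613/2500) * b 7 + (-4751/10000) * g 7 + (191/250) * a 10 + (1613/2500) * b 10 + (1/2) * g 10)
    (p34p : (-61/10000) * r ≤ (1613/2500) * a 8 + (-191/250) * b 8 + (1/2) * g 8 + (-1613/2500) * a 9 + (191/250) * b 9 + (-831/5000) * g 9)
    (p34m : (-61/10000) * r ≤ (1613/2500) * a 8 + (-191/250) * b 8 + (-831/5000) * g 8 + (-1613/2500) * a 9 + (191/250) * b 9 + (1/2) * g 9)
    (p35p : (-61/10000) * r ≤ (-1613/2500) * a 8 + (191/250) * b 8 + (1/2) * g 8 + (1613/2500) * a 10 + (-191/250) * b 10 + (-953/2500) * g 10)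
    (p35m : (-61/10000) * r ≤ (-1613/2500) * a 8 + (191/250) * b 8 + (-953/2500) * g 8 + (1613/2500) * a 10 + (-191/250) * b 10 + (1/2) * g 10)
    (pB2 : (-33/5000) * r ≤ (-191/250) * a 1 + (-1613/2500) * b 1 + (297/5000) * g 1 + (191/250) * a 7 + (1613/2500) * b 7 + (-659/10000) * g 7)
    (pC1 : (-33/5000) * r ≤ (-191/250) * a 2 + (-1613/2500) * b 2 + (297/5000) * g 2 + (191/250) * a 6 + (1613/2500) * b 6 + (-4751/10000) * g 6)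
    (pD1 : (-33/5000) * r ≤ (-1613/2500) * a 3 + (191/250) * b 3 + (297/5000) * g 3 + (1613/2500) * a 6 + (-191/250) * b 6 + (479/1000) * g 6)
    (pD4 : (-33/5000) * r ≤ (-191/250) * a 3 + (-1613/2500) * b 3 + (297/5000) * g 3 + (191/250) * a 9 + (1613/2500) * b 9 + (-2391/10000) * g 9)
    (pE2 : (-33/5000) * r ≤ (1613/2500) * a 4 + (-191/250) * b 4 + (297/5000) * g 4 + (-1613/2500) * a 7 + (191/250) * b 7 + (1701/10000) * g 7)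
    (pF3 : (-33/5000) * r ≤ (191/250) * a 5 + (1613/2500) * b 5 + (297/5000) * g 5 + (-191/250) * a 8 + (-1613/2500) * b 8 + (-227/2500) * g 8) :
    (a 2) ≤ r / 2 := by
  linarith

theorem lp_a2m (hl : 0 ≤ l) (hr : 0 ≤ r)
    (wClp : 0 ≤ 1 * a 2 + (-249/500) * g 2)
    (wClm : 0 ≤ 1 * a 2 + (249/500) * g 2) :
    -(a 2) ≤ r / 2 := by
  linarith

theorem lp_b2p (hl : 0 ≤ l) (hr : 0 ≤ r)
    (wAlp : 0 ≤ 1 * a 0 + (-249/500) * g 0)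
    (wBbp : 0 ≤ 1 * b 1 + (-249/500) * g 1)
    (wBbm : 0 ≤ 1 * b 1 + (249/500) * g 1)
    (wClp : 0 ≤ 1 * a 2 + (-249/500) * g 2)
    (wClm : 0 ≤ 1 * a 2 + (249/500) * g 2)
    (wDlp : 0 ≤ 1 * a 3 + (-249/500) * g 3)
    (wDlm : 0 ≤ 1 * a 3 + (249/500) * g 3)
    (wErp : 0 ≤ (-1) * a 4 + (-249/500) * g 4 + (-1) * l)
    (wEbp : 0 ≤ 1 * b 4 + (-249/500) * g 4)
    (wEbm : 0 ≤ 1 * b 4 + (249/500) * g 4)
    (wFrp : 0 ≤ (-1) * a 5 + (-249/500) * g 5 + (-1) * l)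
    (wFrm : 0 ≤ (-1) * a 5 + (249/500) * g 5 + (-1) * l)
    (wFtp : 0 ≤ (-1) * b 5 + (-249/500) * g 5 + (-1) * l)
    (w4t : (-21/10000) * r ≤ (-1) * b 9 + (-297/5000) * g 9 + (-1) * l)
    (w5r : (-21/10000) * r ≤ (-1) * a 10 + (-297/5000) * g 10 + (-1) * l)
    (pABp : (-61/10000) * r ≤ (-1) * a 0 + (1/2) * g 0 + 1 * a 1 + (-1/2) * g 1)
    (pABm : (-61/10000) * r ≤ (-1) * a 0 + (-1/2) * g 0 + 1 * a 1 + (1/2) * g 1)
    (p12m : (-61/10000) * r ≤ (-1613/2500) * a 6 + (191/250) * b 6 + (-953/2500) * g 6 + (1613/2500) * a 7 + (-191/250) * b 7 + (1/2) * g 7)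
    (p13p : (-61/10000) * r ≤ (-191/250) * a 6 + (-1613/2500) * b 6 + (1/2) * g 6 + (191/250) * a 8 + (1613/2500) * b 8 + (-4751/10000) * g 8)
    (p13m : (-61/10000) * r ≤ (-191/250) * a 6 + (-1613/2500) * b 6 + (-4751/10000) * g 6 + (191/250) * a 8 + (1613/2500) * b 8 + (1/2) * g 8)
    (p25p : (-61/10000) * r ≤ (-191/250) * a 7 + (-1613/2500) * b 7 + (1/2) * g 7 + (191/250) * a 10 + (1613/2500) * b 10 + (-4751/10000) * g 10)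
    (p25m : (-61/10000) * r ≤ (-191/250) * a 7 + (-1613/2500) * b 7 + (-4751/10000) * g 7 + (191/250) * a 10 + (1613/2500) * b 10 + (1/2) * g 10)
    (p34p : (-61/10000) * r ≤ (1613/2500) * a 8 + (-191/250) * b 8 + (1/2) * g 8 + (-1613/2500) * a 9 + (191/250) * b 9 + (-831/5000) * g 9)
    (p34m : (-61/10000) * r ≤ (1613/2500) * a 8 + (-191/250) * b 8 + (-831/5000) * g 8 + (-1613/2500) * a 9 + (191/250) * b 9 + (1/2) * g 9)
    (p35p : (-61/10000) * r ≤ (-1613/2500) * a 8 + (191/250) * b 8 + (1/2) * g 8 + (1613/2500) * a 10 + (-191/250) * b 10 + (-953/2500) * g 10)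
    (p35m : (-61/10000) * r ≤ (-1613/2500) * a 8 + (191/250) * b 8 + (-953/2500) * g 8 + (1613/2500) * a 10 + (-191/250) * b 10 + (1/2) * g 10)
    (pB2 : (-33/5000) * r ≤ (-191/250) * a 1 + (-1613/2500) * b 1 + (297/5000) * g 1 + (191/250) * a 7 + (1613/2500) * b 7 + (-659/10000) * g 7)
    (pC1 : (-33/5000) * r ≤ (-191/250) * a 2 + (-1613/2500) * b 2 + (297/5000) * g 2 + (191/250) * a 6 + (1613/2500) * b 6 + (-4751/10000) * g 6)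
    (pD1 : (-33/5000) * r ≤ (-1613/2500) * a 3 + (191/250) * b 3 + (297/5000) * g 3 + (1613/2500) * a 6 + (-191/250) * b 6 + (479/1000) * g 6)
    (pD4 : (-33/5000) * r ≤ (-191/250) * a 3 + (-1613/2500) * b 3 + (297/5000) * g 3 + (191/250) * a 9 + (1613/2500) * b 9 + (-2391/10000) * g 9)
    (pE2 : (-33/5000) * r ≤ (1613/2500) * a 4 + (-191/250) * b 4 + (297/5000) * g 4 + (-1613/2500) * a 7 + (191/250) * b 7 + (1701/10000) * g 7)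
    (pF3 : (-33/5000) * r ≤ (191/250) * a 5 + (1613/2500) * b 5 + (297/5000) * g 5 + (-191/250) * a 8 + (-1613/2500) * b 8 + (-227/2500) * g 8) :
    (b 2) ≤ r / 2 := by
  linarith

theorem lp_b2m (hl : 0 ≤ l) (hr : 0 ≤ r)
    (wAbp : 0 ≤ 1 * b 0 + (-249/500) * g 0)
    (wAbm : 0 ≤ 1 * b 0 + (249/500) * g 0)
    (pACp : (-61/10000) * r ≤ (-1) * b 0 + (1/2) * g 0 + 1 * b 2 + (-1/2) * g 2)
    (pACm : (-61/10000) * r ≤ (-1) * b 0 + (-1/2) * g 0 + 1 * b 2 + (1/2) * g 2) :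
    -(b 2) ≤ r / 2 := by
  linarith

theorem lp_g2p (hl : 0 ≤ l) (hr : 0 ≤ r)
    (wAlp : 0 ≤ 1 * a 0 + (-249/500) * g 0)
    (wAlm : 0 ≤ 1 * a 0 + (249/500) * g 0)
    (wAbp : 0 ≤ 1 * b 0 + (-249/500) * g 0)
    (wBbp : 0 ≤ 1 * b 1 + (-249/500) * g 1)
    (wClp : 0 ≤ 1 * a 2 + (-249/500) * g 2)
    (wDlp : 0 ≤ 1 * a 3 + (-249/500) * g 3)
    (wDlm : 0 ≤ 1 * a 3 + (249/500) * g 3)
    (wErp : 0 ≤ (-1) * a 4 + (-249/500) * g 4 + (-1) * l)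
    (wEbp : 0 ≤ 1 * b 4 + (-249/500) * g 4)
    (wEbm : 0 ≤ 1 * b 4 + (249/500) * g 4)
    (wFrp : 0 ≤ (-1) * a 5 + (-249/500) * g 5 + (-1) * l)
    (wFrm : 0 ≤ (-1) * a 5 + (249/500) * g 5 + (-1) * l)
    (wFtp : 0 ≤ (-1) * b 5 + (-249/500) * g 5 + (-1) * l)
    (w4t : (-21/10000) * r ≤ (-1) * b 9 + (-297/5000) * g 9 + (-1) * l)
    (w5r : (-21/10000) * r ≤ (-1) * a 10 + (-297/5000) * g 10 + (-1) * l)
    (pABp : (-61/10000) * r ≤ (-1) * a 0 + (1/2) * g 0 + 1 * a 1 + (-1/2) * g 1)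
    (pABm : (-61/10000) * r ≤ (-1) * a 0 + (-1/2) * g 0 + 1 * a 1 + (1/2) * g 1)
    (pACp : (-61/10000) * r ≤ (-1) * b 0 + (1/2) * g 0 + 1 * b 2 + (-1/2) * g 2)
    (p12m : (-61/10000) * r ≤ (-1613/2500) * a 6 + (191/250) * b 6 + (-953/2500) * g 6 + (1613/2500) * a 7 + (-191/250) * b 7 + (1/2) * g 7)
    (p13p : (-61/10000) * r ≤ (-191/250) * a 6 + (-1613/2500) * b 6 + (1/2) * g 6 + (191/250) * a 8 + (1613/2500) * b 8 + (-4751/10000) * g 8)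
    (p13m : (-61/10000) * r ≤ (-191/250) * a 6 + (-1613/2500) * b 6 + (-4751/10000) * g 6 + (191/250) * a 8 + (1613/2500) * b 8 + (1/2) * g 8)
    (p25p : (-61/10000) * r ≤ (-191/250) * a 7 + (-1613/2500) * b 7 + (1/2) * g 7 + (191/250) * a 10 + (1613/2500) * b 10 + (-4751/10000) * g 10)
    (p25m : (-61/10000) * r ≤ (-191/250) * a 7 + (-1613/2500) * b 7 + (-4751/10000) * g 7 + (191/250) * a 10 + (1613/2500) * b 10 + (1/2) * g 10)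
    (p34p : (-61/10000) * r ≤ (1613/2500) * a 8 + (-191/250) * b 8 + (1/2) * g 8 + (-1613/2500) * a 9 + (191/250) * b 9 + (-831/5000) * g 9)
    (p34m : (-61/10000) * r ≤ (1613/2500) * a 8 + (-191/250) * b 8 + (-831/5000) * g 8 + (-1613/2500) * a 9 + (191/250) * b 9 + (1/2) * g 9)
    (p35p : (-61/10000) * r ≤ (-1613/2500) * a 8 + (191/250) * b 8 + (1/2) * g 8 + (1613/2500) * a 10 + (-191/250) * b 10 + (-953/2500) * g 10)
    (p35m : (-61/10000) * r ≤ (-1613/2500) * a 8 + (191/250) * b 8 + (-953/2500) * g 8 + (1613/2500) * a 10 + (-191/250) * b 10 + (1/2) * g 10)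
    (pB2 : (-33/5000) * r ≤ (-191/250) * a 1 + (-1613/2500) * b 1 + (297/5000) * g 1 + (191/250) * a 7 + (1613/2500) * b 7 + (-659/10000) * g 7)
    (pC1 : (-33/5000) * r ≤ (-191/250) * a 2 + (-1613/2500) * b 2 + (297/5000) * g 2 + (191/250) * a 6 + (1613/2500) * b 6 + (-4751/10000) * g 6)
    (pD1 : (-33/5000) * r ≤ (-1613/2500) * a 3 + (191/250) * b 3 + (297/5000) * g 3 + (1613/2500) * a 6 + (-191/250) * b 6 + (479/1000) * g 6)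
    (pD4 : (-33/5000) * r ≤ (-191/250) * a 3 + (-1613/2500) * b 3 + (297/5000) * g 3 + (191/250) * a 9 + (1613/2500) * b 9 + (-2391/10000) * g 9)
    (pE2 : (-33/5000) * r ≤ (1613/2500) * a 4 + (-191/250) * b 4 + (297/5000) * g 4 + (-1613/2500) * a 7 + (191/250) * b 7 + (1701/10000) * g 7)
    (pF3 : (-33/5000) * r ≤ (191/250) * a 5 + (1613/2500) * b 5 + (297/5000) * g 5 + (-191/250) * a 8 + (-1613/2500) * b 8 + (-227/2500) * g 8) :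
    (g 2) ≤ r / 2 := by
  linarith

theorem lp_g2m (hl : 0 ≤ l) (hr : 0 ≤ r)
    (wAlp : 0 ≤ 1 * a 0 + (-249/500) * g 0)
    (wAlm : 0 ≤ 1 * a 0 + (249/500) * g 0)
    (wAbm : 0 ≤ 1 * b 0 + (249/500) * g 0)
    (wBbm : 0 ≤ 1 * b 1 + (249/500) * g 1)
    (wClm : 0 ≤ 1 * a 2 + (249/500) * g 2)
    (wDlp : 0 ≤ 1 * a 3 + (-249/500) * g 3)
    (wDlm : 0 ≤ 1 * a 3 + (249/500) * g 3)
    (wErp : 0 ≤ (-1) * a 4 + (-249/500) * g 4 + (-1) * l)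
    (wEbp : 0 ≤ 1 * b 4 + (-249/500) * g 4)
    (wEbm : 0 ≤ 1 * b 4 + (249/500) * g 4)
    (wFrp : 0 ≤ (-1) * a 5 + (-249/500) * g 5 + (-1) * l)
    (wFrm : 0 ≤ (-1) * a 5 + (249/500) * g 5 + (-1) * l)
    (wFtp : 0 ≤ (-1) * b 5 + (-249/500) * g 5 + (-1) * l)
    (w4t : (-21/10000) * r ≤ (-1) * b 9 + (-297/5000) * g 9 + (-1) * l)
    (w5r : (-21/10000) * r ≤ (-1) * a 10 + (-297/5000) * g 10 + (-1) * l)
    (pABp : (-61/10000) * r ≤ (-1) * a 0 + (1/2) * g 0 + 1 * a 1 + (-1/2) * g 1)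
    (pABm : (-61/10000) * r ≤ (-1) * a 0 + (-1/2) * g 0 + 1 * a 1 + (1/2) * g 1)
    (pACm : (-61/10000) * r ≤ (-1) * b 0 + (-1/2) * g 0 + 1 * b 2 + (1/2) * g 2)
    (p12m : (-61/10000) * r ≤ (-1613/2500) * a 6 + (191/250) * b 6 + (-953/2500) * g 6 + (1613/2500) * a 7 + (-191/250) * b 7 + (1/2) * g 7)
    (p13p : (-61/10000) * r ≤ (-191/250) * a 6 + (-1613/2500) * b 6 + (1/2) * g 6 + (191/250) * a 8 + (1613/2500) * b 8 + (-4751/10000) * g 8)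
    (p13m : (-61/10000) * r ≤ (-191/250) * a 6 + (-1613/2500) * b 6 + (-4751/10000) * g 6 + (191/250) * a 8 + (1613/2500) * b 8 + (1/2) * g 8)
    (p25p : (-61/10000) * r ≤ (-191/250) * a 7 + (-1613/2500) * b 7 + (1/2) * g 7 + (191/250) * a 10 + (1613/2500) * b 10 + (-4751/10000) * g 10)
    (p25m : (-61/10000) * r ≤ (-191/250) * a 7 + (-1613/2500) * b 7 + (-4751/10000) * g 7 + (191/250) * a 10 + (1613/2500) * b 10 + (1/2) * g 10)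
    (p34p : (-61/10000) * r ≤ (1613/2500) * a 8 + (-191/250) * b 8 + (1/2) * g 8 + (-1613/2500) * a 9 + (191/250) * b 9 + (-831/5000) * g 9)
    (p34m : (-61/10000) * r ≤ (1613/2500) * a 8 + (-191/250) * b 8 + (-831/5000) * g 8 + (-1613/2500) * a 9 + (191/250) * b 9 + (1/2) * g 9)
    (p35p : (-61/10000) * r ≤ (-1613/2500) * a 8 + (191/250) * b 8 + (1/2) * g 8 + (1613/2500) * a 10 + (-191/250) * b 10 + (-953/2500) * g 10)
    (p35m : (-61/10000) * r ≤ (-1613/2500) * a 8 + (191/250) * b 8 + (-953/2500) * g 8 + (1613/2500) * a 10 + (-191/250) * b 10 + (1/2) * g 10)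
    (pB2 : (-33/5000) * r ≤ (-191/250) * a 1 + (-1613/2500) * b 1 + (297/5000) * g 1 + (191/250) * a 7 + (1613/2500) * b 7 + (-659/10000) * g 7)
    (pC1 : (-33/5000) * r ≤ (-191/250) * a 2 + (-1613/2500) * b 2 + (297/5000) * g 2 + (191/250) * a 6 + (1613/2500) * b 6 + (-4751/10000) * g 6)
    (pD1 : (-33/5000) * r ≤ (-1613/2500) * a 3 + (191/250) * b 3 + (297/5000) * g 3 + (1613/2500) * a 6 + (-191/250) * b 6 + (479/1000) * g 6)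
    (pD4 : (-33/5000) * r ≤ (-191/250) * a 3 + (-1613/2500) * b 3 + (297/5000) * g 3 + (191/250) * a 9 + (1613/2500) * b 9 + (-2391/10000) * g 9)
    (pE2 : (-33/5000) * r ≤ (1613/2500) * a 4 + (-191/250) * b 4 + (297/5000) * g 4 + (-1613/2500) * a 7 + (191/250) * b 7 + (1701/10000) * g 7)
    (pF3 : (-33/5000) * r ≤ (191/250) * a 5 + (1613/2500) * b 5 + (297/5000) * g 5 + (-191/250) * a 8 + (-1613/2500) * b 8 + (-227/2500) * g 8) :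
    -(g 2) ≤ r / 2 := by
  linarith

theorem lp_a3p (hl : 0 ≤ l) (hr : 0 ≤ r)
    (wAlp : 0 ≤ 1 * a 0 + (-249/500) * g 0)
    (wAbp : 0 ≤ 1 * b 0 + (-249/500) * g 0)
    (wAbm : 0 ≤ 1 * b 0 + (249/500) * g 0)
    (wBbm : 0 ≤ 1 * b 1 + (249/500) * g 1)
    (wClp : 0 ≤ 1 * a 2 + (-249/500) * g 2)
    (wDlp : 0 ≤ 1 * a 3 + (-249/500) * g 3)
    (wErp : 0 ≤ (-1) * a 4 + (-249/500) * g 4 + (-1) * l)
    (wEbp : 0 ≤ 1 * b 4 + (-249/500) * g 4)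
    (wEbm : 0 ≤ 1 * b 4 + (249/500) * g 4)
    (wFrp : 0 ≤ (-1) * a 5 + (-249/500) * g 5 + (-1) * l)
    (wFrm : 0 ≤ (-1) * a 5 + (249/500) * g 5 + (-1) * l)
    (wFtp : 0 ≤ (-1) * b 5 + (-249/500) * g 5 + (-1) * l)
    (w4t : (-21/10000) * r ≤ (-1) * b 9 + (-297/5000) * g 9 + (-1) * l)
    (w5r : (-21/10000) * r ≤ (-1) * a 10 + (-297/5000) * g 10 + (-1) * l)
    (pABp : (-61/10000) * r ≤ (-1) * a 0 + (1/2) * g 0 + 1 * a 1 + (-1/2) * g 1)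
    (pABm : (-61/10000) * r ≤ (-1) * a 0 + (-1/2) * g 0 + 1 * a 1 + (1/2) * g 1)
    (pACp : (-61/10000) * r ≤ (-1) * b 0 + (1/2) * g 0 + 1 * b 2 + (-1/2) * g 2)
    (pACm : (-61/10000) * r ≤ (-1) * b 0 + (-1/2) * g 0 + 1 * b 2 + (1/2) * g 2)
    (p12m : (-61/10000) * r ≤ (-1613/2500) * a 6 + (191/250) * b 6 + (-953/2500) * g 6 + (1613/2500) * a 7 + (-191/250) * b 7 + (1/2) * g 7)
    (p13p : (-61/10000) * r ≤ (-191/250) * a 6 + (-1613/2500) * b 6 + (1/2) * g 6 + (191/250) * a 8 + (1613/2500) * b 8 + (-4751/10000) * g 8)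
    (p13m : (-61/10000) * r ≤ (-191/250) * a 6 + (-1613/2500) * b 6 + (-4751/10000) * g 6 + (191/250) * a 8 + (1613/2500) * b 8 + (1/2) * g 8)
    (p25p : (-61/10000) * r ≤ (-191/250) * a 7 + (-1613/2500) * b 7 + (1/2) * g 7 + (191/250) * a 10 + (1613/2500) * b 10 + (-4751/10000) * g 10)
    (p25m : (-61/10000) * r ≤ (-191/250) * a 7 + (-1613/2500) * b 7 + (-4751/10000) * g 7 + (191/250) * a 10 + (1613/2500) * b 10 + (1/2) * g 10)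
    (p34p : (-61/10000) * r ≤ (1613/2500) * a 8 + (-191/250) * b 8 + (1/2) * g 8 + (-1613/2500) * a 9 + (191/250) * b 9 + (-831/5000) * g 9)
    (p34m : (-61/10000) * r ≤ (1613/2500) * a 8 + (-191/250) * b 8 + (-831/5000) * g 8 + (-1613/2500) * a 9 + (191/250) * b 9 + (1/2) * g 9)
    (p35p : (-61/10000) * r ≤ (-1613/2500) * a 8 + (191/250) * b 8 + (1/2) * g 8 + (1613/2500) * a 10 + (-191/250) * b 10 + (-953/2500) * g 10)
    (p35m : (-61/10000) * r ≤ (-1613/2500) * a 8 + (191/250) * b 8 + (-953/2500) * g 8 + (1613/2500) * a 10 + (-191/250) * b 10 + (1/2) * g 10)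
    (pB2 : (-33/5000) * r ≤ (-191/250) * a 1 + (-1613/2500) * b 1 + (297/5000) * g 1 + (191/250) * a 7 + (1613/2500) * b 7 + (-659/10000) * g 7)
    (pC1 : (-33/5000) * r ≤ (-191/250) * a 2 + (-1613/2500) * b 2 + (297/5000) * g 2 + (191/250) * a 6 + (1613/2500) * b 6 + (-4751/10000) * g 6)
    (pD1 : (-33/5000) * r ≤ (-1613/2500) * a 3 + (191/250) * b 3 + (297/5000) * g 3 + (1613/2500) * a 6 + (-191/250) * b 6 + (479/1000) * g 6)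
    (pD4 : (-33/5000) * r ≤ (-191/250) * a 3 + (-1613/2500) * b 3 + (297/5000) * g 3 + (191/250) * a 9 + (1613/2500) * b 9 + (-2391/10000) * g 9)
    (pE2 : (-33/5000) * r ≤ (1613/2500) * a 4 + (-191/250) * b 4 + (297/5000) * g 4 + (-1613/2500) * a 7 + (191/250) * b 7 + (1701/10000) * g 7)
    (pF3 : (-33/5000) * r ≤ (191/250) * a 5 + (1613/2500) * b 5 + (297/5000) * g 5 + (-191/250) * a 8 + (-1613/2500) * b 8 + (-227/2500) * g 8) :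
    (a 3) ≤ r / 2 := by
  linarith

theorem lp_a3m (hl : 0 ≤ l) (hr : 0 ≤ r)
    (wDlp : 0 ≤ 1 * a 3 + (-249/500) * g 3)
    (wDlm : 0 ≤ 1 * a 3 + (249/500) * g 3) :
    -(a 3) ≤ r / 2 := by
  linarith

theorem lp_b3p (hl : 0 ≤ l) (hr : 0 ≤ r)
    (wAlp : 0 ≤ 1 * a 0 + (-249/500) * g 0)
    (wAbp : 0 ≤ 1 * b 0 + (-249/500) * g 0)
    (wAbm : 0 ≤ 1 * b 0 + (249/500) * g 0)
    (wBbm : 0 ≤ 1 * b 1 + (249/500) * g 1)
    (wClp : 0 ≤ 1 * a 2 + (-249/500) * g 2)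
    (wDlp : 0 ≤ 1 * a 3 + (-249/500) * g 3)
    (wDlm : 0 ≤ 1 * a 3 + (249/500) * g 3)
    (wFrp : 0 ≤ (-1) * a 5 + (-249/500) * g 5 + (-1) * l)
    (wFrm : 0 ≤ (-1) * a 5 + (249/500) * g 5 + (-1) * l)
    (wFtp : 0 ≤ (-1) * b 5 + (-249/500) * g 5 + (-1) * l)
    (w4t : (-21/10000) * r ≤ (-1) * b 9 + (-297/5000) * g 9 + (-1) * l)
    (w5r : (-21/10000) * r ≤ (-1) * a 10 + (-297/5000) * g 10 + (-1) * l)
    (pABp : (-61/10000) * r ≤ (-1) * a 0 + (1/2) * g 0 + 1 * a 1 + (-1/2) * g 1)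
    (pABm : (-61/10000) * r ≤ (-1) * a 0 + (-1/2) * g 0 + 1 * a 1 + (1/2) * g 1)
    (pACp : (-61/10000) * r ≤ (-1) * b 0 + (1/2) * g 0 + 1 * b 2 + (-1/2) * g 2)
    (pACm : (-61/10000) * r ≤ (-1) * b 0 + (-1/2) * g 0 + 1 * b 2 + (1/2) * g 2)
    (p13p : (-61/10000) * r ≤ (-191/250) * a 6 + (-1613/2500) * b 6 + (1/2) * g 6 + (191/250) * a 8 + (1613/2500) * b 8 + (-4751/10000) * g 8)
    (p13m : (-61/10000) * r ≤ (-191/250) * a 6 + (-1613/2500) * b 6 + (-4751/10000) * g 6 + (191/250) * a 8 + (1613/2500) * b 8 + (1/2) * g 8)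
    (p25p : (-61/10000) * r ≤ (-191/250) * a 7 + (-1613/2500) * b 7 + (1/2) * g 7 + (191/250) * a 10 + (1613/2500) * b 10 + (-4751/10000) * g 10)
    (p25m : (-61/10000) * r ≤ (-191/250) * a 7 + (-1613/2500) * b 7 + (-4751/10000) * g 7 + (191/250) * a 10 + (1613/2500) * b 10 + (1/2) * g 10)
    (p34p : (-61/10000) * r ≤ (1613/2500) * a 8 + (-191/250) * b 8 + (1/2) * g 8 + (-1613/2500) * a 9 + (191/250) * b 9 + (-831/5000) * g 9)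
    (p34m : (-61/10000) * r ≤ (1613/2500) * a 8 + (-191/250) * b 8 + (-831/5000) * g 8 + (-1613/2500) * a 9 + (191/250) * b 9 + (1/2) * g 9)
    (p35p : (-61/10000) * r ≤ (-1613/2500) * a 8 + (191/250) * b 8 + (1/2) * g 8 + (1613/2500) * a 10 + (-191/250) * b 10 + (-953/2500) * g 10)
    (p35m : (-61/10000) * r ≤ (-1613/2500) * a 8 + (191/250) * b 8 + (-953/2500) * g 8 + (1613/2500) * a 10 + (-191/250) * b 10 + (1/2) * g 10)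
    (pB2 : (-33/5000) * r ≤ (-191/250) * a 1 + (-1613/2500) * b 1 + (297/5000) * g 1 + (191/250) * a 7 + (1613/2500) * b 7 + (-659/10000) * g 7)
    (pC1 : (-33/5000) * r ≤ (-191/250) * a 2 + (-1613/2500) * b 2 + (297/5000) * g 2 + (191/250) * a 6 + (1613/2500) * b 6 + (-4751/10000) * g 6)
    (pD4 : (-33/5000) * r ≤ (-191/250) * a 3 + (-1613/2500) * b 3 + (297/5000) * g 3 + (191/250) * a 9 + (1613/2500) * b 9 + (-2391/10000) * g 9)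
    (pF3 : (-33/5000) * r ≤ (191/250) * a 5 + (1613/2500) * b 5 + (297/5000) * g 5 + (-191/250) * a 8 + (-1613/2500) * b 8 + (-227/2500) * g 8) :
    (b 3) ≤ r / 2 := by
  linarith

theorem lp_b3m (hl : 0 ≤ l) (hr : 0 ≤ r)
    (wAbp : 0 ≤ 1 * b 0 + (-249/500) * g 0)
    (wAbm : 0 ≤ 1 * b 0 + (249/500) * g 0)
    (wClp : 0 ≤ 1 * a 2 + (-249/500) * g 2)
    (wDlp : 0 ≤ 1 * a 3 + (-249/500) * g 3)
    (wDlm : 0 ≤ 1 * a 3 + (249/500) * g 3)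
    (wErp : 0 ≤ (-1) * a 4 + (-249/500) * g 4 + (-1) * l)
    (wEbp : 0 ≤ 1 * b 4 + (-249/500) * g 4)
    (wEbm : 0 ≤ 1 * b 4 + (249/500) * g 4)
    (wFrp : 0 ≤ (-1) * a 5 + (-249/500) * g 5 + (-1) * l)
    (wFrm : 0 ≤ (-1) * a 5 + (249/500) * g 5 + (-1) * l)
    (wFtp : 0 ≤ (-1) * b 5 + (-249/500) * g 5 + (-1) * l)
    (pACp : (-61/10000) * r ≤ (-1) * b 0 + (1/2) * g 0 + 1 * b 2 + (-1/2) * g 2)
    (pACm : (-61/10000) * r ≤ (-1) * b 0 + (-1/2) * g 0 + 1 * b 2 + (1/2) * g 2)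
    (p12p : (-61/10000) * r ≤ (-1613/2500) * a 6 + (191/250) * b 6 + (1/2) * g 6 + (1613/2500) * a 7 + (-191/250) * b 7 + (-953/2500) * g 7)
    (p12m : (-61/10000) * r ≤ (-1613/2500) * a 6 + (191/250) * b 6 + (-953/2500) * g 6 + (1613/2500) * a 7 + (-191/250) * b 7 + (1/2) * g 7)
    (p13p : (-61/10000) * r ≤ (-191/250) * a 6 + (-1613/2500) * b 6 + (1/2) * g 6 + (191/250) * a 8 + (1613/2500) * b 8 + (-4751/10000) * g 8)
    (p13m : (-61/10000) * r ≤ (-191/250) * a 6 + (-1613/2500) * b 6 + (-4751/10000) * g 6 + (191/250) * a 8 + (1613/2500) * b 8 + (1/2) * g 8)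
    (pC1 : (-33/5000) * r ≤ (-191/250) * a 2 + (-1613/2500) * b 2 + (297/5000) * g 2 + (191/250) * a 6 + (1613/2500) * b 6 + (-4751/10000) * g 6)
    (pD1 : (-33/5000) * r ≤ (-1613/2500) * a 3 + (191/250) * b 3 + (297/5000) * g 3 + (1613/2500) * a 6 + (-191/250) * b 6 + (479/1000) * g 6)
    (pE2 : (-33/5000) * r ≤ (1613/2500) * a 4 + (-191/250) * b 4 + (297/5000) * g 4 + (-1613/2500) * a 7 + (191/250) * b 7 + (1701/10000) * g 7)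
    (pF3 : (-33/5000) * r ≤ (191/250) * a 5 + (1613/2500) * b 5 + (297/5000) * g 5 + (-191/250) * a 8 + (-1613/2500) * b 8 + (-227/2500) * g 8) :
    -(b 3) ≤ r / 2 := by
  linarith

theorem lp_g3p (hl : 0 ≤ l) (hr : 0 ≤ r)
    (wAlp : 0 ≤ 1 * a 0 + (-249/500) * g 0)
    (wAbp : 0 ≤ 1 * b 0 + (-249/500) * g 0)
    (wAbm : 0 ≤ 1 * b 0 + (249/500) * g 0)
    (wBbm : 0 ≤ 1 * b 1 + (249/500) * g 1)
    (wClp : 0 ≤ 1 * a 2 + (-249/500) * g 2)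
    (wDlp : 0 ≤ 1 * a 3 + (-249/500) * g 3)
    (wErp : 0 ≤ (-1) * a 4 + (-249/500) * g 4 + (-1) * l)
    (wEbp : 0 ≤ 1 * b 4 + (-249/500) * g 4)
    (wEbm : 0 ≤ 1 * b 4 + (249/500) * g 4)
    (wFrp : 0 ≤ (-1) * a 5 + (-249/500) * g 5 + (-1) * l)
    (wFrm : 0 ≤ (-1) * a 5 + (249/500) * g 5 + (-1) * l)
    (wFtp : 0 ≤ (-1) * b 5 + (-249/500) * g 5 + (-1) * l)
    (w4t : (-21/10000) * r ≤ (-1) * b 9 + (-297/5000) * g 9 + (-1) * l)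
    (w5r : (-21/10000) * r ≤ (-1) * a 10 + (-297/5000) * g 10 + (-1) * l)
    (pABp : (-61/10000) * r ≤ (-1) * a 0 + (1/2) * g 0 + 1 * a 1 + (-1/2) * g 1)
    (pABm : (-61/10000) * r ≤ (-1) * a 0 + (-1/2) * g 0 + 1 * a 1 + (1/2) * g 1)
    (pACp : (-61/10000) * r ≤ (-1) * b 0 + (1/2) * g 0 + 1 * b 2 + (-1/2) * g 2)
    (pACm : (-61/10000) * r ≤ (-1) * b 0 + (-1/2) * g 0 + 1 * b 2 + (1/2) * g 2)
    (p12m : (-61/10000) * r ≤ (-1613/2500) * a 6 + (191/250) * b 6 + (-953/2500) * g 6 + (1613/2500) * a 7 + (-191/250) * b 7 + (1/2) * g 7)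
    (p13p : (-61/10000) * r ≤ (-191/250) * a 6 + (-1613/2500) * b 6 + (1/2) * g 6 + (191/250) * a 8 + (1613/2500) * b 8 + (-4751/10000) * g 8)
    (p13m : (-61/10000) * r ≤ (-191/250) * a 6 + (-1613/2500) * b 6 + (-4751/10000) * g 6 + (191/250) * a 8 + (1613/2500) * b 8 + (1/2) * g 8)
    (p25p : (-61/10000) * r ≤ (-191/250) * a 7 + (-1613/2500) * b 7 + (1/2) * g 7 + (191/250) * a 10 + (1613/2500) * b 10 + (-4751/10000) * g 10)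
    (p25m : (-61/10000) * r ≤ (-191/250) * a 7 + (-1613/2500) * b 7 + (-4751/10000) * g 7 + (191/250) * a 10 + (1613/2500) * b 10 + (1/2) * g 10)
    (p34p : (-61/10000) * r ≤ (1613/2500) * a 8 + (-191/250) * b 8 + (1/2) * g 8 + (-1613/2500) * a 9 + (191/250) * b 9 + (-831/5000) * g 9)
    (p34m : (-61/10000) * r ≤ (1613/2500) * a 8 + (-191/250) * b 8 + (-831/5000) * g 8 + (-1613/2500) * a 9 + (191/250) * b 9 + (1/2) * g 9)
    (p35p : (-61/10000) * r ≤ (-1613/2500) * a 8 + (191/250) * b 8 + (1/2) * g 8 + (1613/2500) * a 10 + (-191/250) * b 10 + (-953/2500) * g 10)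
    (p35m : (-61/10000) * r ≤ (-1613/2500) * a 8 + (191/250) * b 8 + (-953/2500) * g 8 + (1613/2500) * a 10 + (-191/250) * b 10 + (1/2) * g 10)
    (pB2 : (-33/5000) * r ≤ (-191/250) * a 1 + (-1613/2500) * b 1 + (297/5000) * g 1 + (191/250) * a 7 + (1613/2500) * b 7 + (-659/10000) * g 7)
    (pC1 : (-33/5000) * r ≤ (-191/250) * a 2 + (-1613/2500) * b 2 + (297/5000) * g 2 + (191/250) * a 6 + (1613/2500) * b 6 + (-4751/10000) * g 6)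
    (pD1 : (-33/5000) * r ≤ (-1613/2500) * a 3 + (191/250) * b 3 + (297/5000) * g 3 + (1613/2500) * a 6 + (-191/250) * b 6 + (479/1000) * g 6)
    (pD4 : (-33/5000) * r ≤ (-191/250) * a 3 + (-1613/2500) * b 3 + (297/5000) * g 3 + (191/250) * a 9 + (1613/2500) * b 9 + (-2391/10000) * g 9)
    (pE2 : (-33/5000) * r ≤ (1613/2500) * a 4 + (-191/250) * b 4 + (297/5000) * g 4 + (-1613/2500) * a 7 + (191/250) * b 7 + (1701/10000) * g 7)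
    (pF3 : (-33/5000) * r ≤ (191/250) * a 5 + (1613/2500) * b 5 + (297/5000) * g 5 + (-191/250) * a 8 + (-1613/2500) * b 8 + (-227/2500) * g 8) :
    (g 3) ≤ r / 2 := by
  linarith

theorem lp_g3m (hl : 0 ≤ l) (hr : 0 ≤ r)
    (wAlp : 0 ≤ 1 * a 0 + (-249/500) * g 0)
    (wAbp : 0 ≤ 1 * b 0 + (-249/500) * g 0)
    (wAbm : 0 ≤ 1 * b 0 + (249/500) * g 0)
    (wBbm : 0 ≤ 1 * b 1 + (249/500) * g 1)
    (wClp : 0 ≤ 1 * a 2 + (-249/500) * g 2)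
    (wDlm : 0 ≤ 1 * a 3 + (249/500) * g 3)
    (wErp : 0 ≤ (-1) * a 4 + (-249/500) * g 4 + (-1) * l)
    (wEbp : 0 ≤ 1 * b 4 + (-249/500) * g 4)
    (wEbm : 0 ≤ 1 * b 4 + (249/500) * g 4)
    (wFrp : 0 ≤ (-1) * a 5 + (-249/500) * g 5 + (-1) * l)
    (wFrm : 0 ≤ (-1) * a 5 + (249/500) * g 5 + (-1) * l)
    (wFtp : 0 ≤ (-1) * b 5 + (-249/500) * g 5 + (-1) * l)
    (w4t : (-21/10000) * r ≤ (-1) * b 9 + (-297/5000) * g 9 + (-1) * l)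
    (w5r : (-21/10000) * r ≤ (-1) * a 10 + (-297/5000) * g 10 + (-1) * l)
    (pABp : (-61/10000) * r ≤ (-1) * a 0 + (1/2) * g 0 + 1 * a 1 + (-1/2) * g 1)
    (pABm : (-61/10000) * r ≤ (-1) * a 0 + (-1/2) * g 0 + 1 * a 1 + (1/2) * g 1)
    (pACp : (-61/10000) * r ≤ (-1) * b 0 + (1/2) * g 0 + 1 * b 2 + (-1/2) * g 2)
    (pACm : (-61/10000) * r ≤ (-1) * b 0 + (-1/2) * g 0 + 1 * b 2 + (1/2) * g 2)
    (p12m : (-61/10000) * r ≤ (-1613/2500) * a 6 + (191/250) * b 6 + (-953/2500) * g 6 + (1613/2500) * a 7 + (-191/250) * b 7 + (1/2) * g 7)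
    (p13p : (-61/10000) * r ≤ (-191/250) * a 6 + (-1613/2500) * b 6 + (1/2) * g 6 + (191/250) * a 8 + (1613/2500) * b 8 + (-4751/10000) * g 8)
    (p13m : (-61/10000) * r ≤ (-191/250) * a 6 + (-1613/2500) * b 6 + (-4751/10000) * g 6 + (191/250) * a 8 + (1613/2500) * b 8 + (1/2) * g 8)
    (p25p : (-61/10000) * r ≤ (-191/250) * a 7 + (-1613/2500) * b 7 + (1/2) * g 7 + (191/250) * a 10 + (1613/2500) * b 10 + (-4751/10000) * g 10)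
    (p25m : (-61/10000) * r ≤ (-191/250) * a 7 + (-1613/2500) * b 7 + (-4751/10000) * g 7 + (191/250) * a 10 + (1613/2500) * b 10 + (1/2) * g 10)
    (p34p : (-61/10000) * r ≤ (1613/2500) * a 8 + (-191/250) * b 8 + (1/2) * g 8 + (-1613/2500) * a 9 + (191/250) * b 9 + (-831/5000) * g 9)
    (p34m : (-61/10000) * r ≤ (1613/2500) * a 8 + (-191/250) * b 8 + (-831/5000) * g 8 + (-1613/2500) * a 9 + (191/250) * b 9 + (1/2) * g 9)
    (p35p : (-61/10000) * r ≤ (-1613/2500) * a 8 + (191/250) * b 8 + (1/2) * g 8 + (1613/2500) * a 10 + (-191/250) * b 10 + (-953/2500) * g 10)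
    (p35m : (-61/10000) * r ≤ (-1613/2500) * a 8 + (191/250) * b 8 + (-953/2500) * g 8 + (1613/2500) * a 10 + (-191/250) * b 10 + (1/2) * g 10)
    (pB2 : (-33/5000) * r ≤ (-191/250) * a 1 + (-1613/2500) * b 1 + (297/5000) * g 1 + (191/250) * a 7 + (1613/2500) * b 7 + (-659/10000) * g 7)
    (pC1 : (-33/5000) * r ≤ (-191/250) * a 2 + (-1613/2500) * b 2 + (297/5000) * g 2 + (191/250) * a 6 + (1613/2500) * b 6 + (-4751/10000) * g 6)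
    (pD1 : (-33/5000) * r ≤ (-1613/2500) * a 3 + (191/250) * b 3 + (297/5000) * g 3 + (1613/2500) * a 6 + (-191/250) * b 6 + (479/1000) * g 6)
    (pD4 : (-33/5000) * r ≤ (-191/250) * a 3 + (-1613/2500) * b 3 + (297/5000) * g 3 + (191/250) * a 9 + (1613/2500) * b 9 + (-2391/10000) * g 9)
    (pE2 : (-33/5000) * r ≤ (1613/2500) * a 4 + (-191/250) * b 4 + (297/5000) * g 4 + (-1613/2500) * a 7 + (191/250) * b 7 + (1701/10000) * g 7)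
    (pF3 : (-33/5000) * r ≤ (191/250) * a 5 + (1613/2500) * b 5 + (297/5000) * g 5 + (-191/250) * a 8 + (-1613/2500) * b 8 + (-227/2500) * g 8) :
    -(g 3) ≤ r / 2 := by
  linarith

theorem lp_a4p (hl : 0 ≤ l) (hr : 0 ≤ r)
    (wErp : 0 ≤ (-1) * a 4 + (-249/500) * g 4 + (-1) * l)
    (wErm : 0 ≤ (-1) * a 4 + (249/500) * g 4 + (-1) * l) :
    (a 4) ≤ r / 2 := by
  linarith

theorem lp_a4m (hl : 0 ≤ l) (hr : 0 ≤ r)
    (wAlp : 0 ≤ 1 * a 0 + (-249/500) * g 0)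
    (wAbp : 0 ≤ 1 * b 0 + (-249/500) * g 0)
    (wAbm : 0 ≤ 1 * b 0 + (249/500) * g 0)
    (wBbm : 0 ≤ 1 * b 1 + (249/500) * g 1)
    (wClp : 0 ≤ 1 * a 2 + (-249/500) * g 2)
    (wDlp : 0 ≤ 1 * a 3 + (-249/500) * g 3)
    (wDlm : 0 ≤ 1 * a 3 + (249/500) * g 3)
    (wEbp : 0 ≤ 1 * b 4 + (-249/500) * g 4)
    (wEbm : 0 ≤ 1 * b 4 + (249/500) * g 4)
    (wFrp : 0 ≤ (-1) * a 5 + (-249/500) * g 5 + (-1) * l)
    (wFrm : 0 ≤ (-1) * a 5 + (249/500) * g 5 + (-1) * l)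
    (wFtp : 0 ≤ (-1) * b 5 + (-249/500) * g 5 + (-1) * l)
    (w4t : (-21/10000) * r ≤ (-1) * b 9 + (-297/5000) * g 9 + (-1) * l)
    (w5r : (-21/10000) * r ≤ (-1) * a 10 + (-297/5000) * g 10 + (-1) * l)
    (pABp : (-61/10000) * r ≤ (-1) * a 0 + (1/2) * g 0 + 1 * a 1 + (-1/2) * g 1)
    (pABm : (-61/10000) * r ≤ (-1) * a 0 + (-1/2) * g 0 + 1 * a 1 + (1/2) * g 1)
    (pACp : (-61/10000) * r ≤ (-1) * b 0 + (1/2) * g 0 + 1 * b 2 + (-1/2) * g 2)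
    (pACm : (-61/10000) * r ≤ (-1) * b 0 + (-1/2) * g 0 + 1 * b 2 + (1/2) * g 2)
    (p12m : (-61/10000) * r ≤ (-1613/2500) * a 6 + (191/250) * b 6 + (-953/2500) * g 6 + (1613/2500) * a 7 + (-191/250) * b 7 + (1/2) * g 7)
    (p13p : (-61/10000) * r ≤ (-191/250) * a 6 + (-1613/2500) * b 6 + (1/2) * g 6 + (191/250) * a 8 + (1613/2500) * b 8 + (-4751/10000) * g 8)
    (p13m : (-61/10000) * r ≤ (-191/250) * a 6 + (-1613/2500) * b 6 + (-4751/10000) * g 6 + (191/250) * a 8 + (1613/2500) * b 8 + (1/2) * g 8)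
    (p25p : (-61/10000) * r ≤ (-191/250) * a 7 + (-1613/2500) * b 7 + (1/2) * g 7 + (191/250) * a 10 + (1613/2500) * b 10 + (-4751/10000) * g 10)
    (p25m : (-61/10000) * r ≤ (-191/250) * a 7 + (-1613/2500) * b 7 + (-4751/10000) * g 7 + (191/250) * a 10 + (1613/2500) * b 10 + (1/2) * g 10)
    (p34p : (-61/10000) * r ≤ (1613/2500) * a 8 + (-191/250) * b 8 + (1/2) * g 8 + (-1613/2500) * a 9 + (191/250) * b 9 + (-831/5000) * g 9)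
    (p34m : (-61/10000) * r ≤ (1613/2500) * a 8 + (-191/250) * b 8 + (-831/5000) * g 8 + (-1613/2500) * a 9 + (191/250) * b 9 + (1/2) * g 9)
    (p35p : (-61/10000) * r ≤ (-1613/2500) * a 8 + (191/250) * b 8 + (1/2) * g 8 + (1613/2500) * a 10 + (-191/250) * b 10 + (-953/2500) * g 10)
    (p35m : (-61/10000) * r ≤ (-1613/2500) * a 8 + (191/250) * b 8 + (-953/2500) * g 8 + (1613/2500) * a 10 + (-191/250) * b 10 + (1/2) * g 10)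
    (pB2 : (-33/5000) * r ≤ (-191/250) * a 1 + (-1613/2500) * b 1 + (297/5000) * g 1 + (191/250) * a 7 + (1613/2500) * b 7 + (-659/10000) * g 7)
    (pC1 : (-33/5000) * r ≤ (-191/250) * a 2 + (-1613/2500) * b 2 + (297/5000) * g 2 + (191/250) * a 6 + (1613/2500) * b 6 + (-4751/10000) * g 6)
    (pD1 : (-33/5000) * r ≤ (-1613/2500) * a 3 + (191/250) * b 3 + (297/5000) * g 3 + (1613/2500) * a 6 + (-191/250) * b 6 + (479/1000) * g 6)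
    (pD4 : (-33/5000) * r ≤ (-191/250) * a 3 + (-1613/2500) * b 3 + (297/5000) * g 3 + (191/250) * a 9 + (1613/2500) * b 9 + (-2391/10000) * g 9)
    (pE2 : (-33/5000) * r ≤ (1613/2500) * a 4 + (-191/250) * b 4 + (297/5000) * g 4 + (-1613/2500) * a 7 + (191/250) * b 7 + (1701/10000) * g 7)
    (pF3 : (-33/5000) * r ≤ (191/250) * a 5 + (1613/2500) * b 5 + (297/5000) * g 5 + (-191/250) * a 8 + (-1613/2500) * b 8 + (-227/2500) * g 8) :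
    -(a 4) ≤ r / 2 := by
  linarith

theorem lp_b4p (hl : 0 ≤ l) (hr : 0 ≤ r)
    (wAlp : 0 ≤ 1 * a 0 + (-249/500) * g 0)
    (wAbp : 0 ≤ 1 * b 0 + (-249/500) * g 0)
    (wAbm : 0 ≤ 1 * b 0 + (249/500) * g 0)
    (wBbm : 0 ≤ 1 * b 1 + (249/500) * g 1)
    (wClp : 0 ≤ 1 * a 2 + (-249/500) * g 2)
    (wDlp : 0 ≤ 1 * a 3 + (-249/500) * g 3)
    (wDlm : 0 ≤ 1 * a 3 + (249/500) * g 3)
    (wErp : 0 ≤ (-1) * a 4 + (-249/500) * g 4 + (-1) * l)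
    (wErm : 0 ≤ (-1) * a 4 + (249/500) * g 4 + (-1) * l)
    (wFrp : 0 ≤ (-1) * a 5 + (-249/500) * g 5 + (-1) * l)
    (wFrm : 0 ≤ (-1) * a 5 + (249/500) * g 5 + (-1) * l)
    (wFtp : 0 ≤ (-1) * b 5 + (-249/500) * g 5 + (-1) * l)
    (w4t : (-21/10000) * r ≤ (-1) * b 9 + (-297/5000) * g 9 + (-1) * l)
    (w5r : (-21/10000) * r ≤ (-1) * a 10 + (-297/5000) * g 10 + (-1) * l)
    (pABp : (-61/10000) * r ≤ (-1) * a 0 + (1/2) * g 0 + 1 * a 1 + (-1/2) * g 1)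
    (pABm : (-61/10000) * r ≤ (-1) * a 0 + (-1/2) * g 0 + 1 * a 1 + (1/2) * g 1)
    (pACp : (-61/10000) * r ≤ (-1) * b 0 + (1/2) * g 0 + 1 * b 2 + (-1/2) * g 2)
    (pACm : (-61/10000) * r ≤ (-1) * b 0 + (-1/2) * g 0 + 1 * b 2 + (1/2) * g 2)
    (p12m : (-61/10000) * r ≤ (-1613/2500) * a 6 + (191/250) * b 6 + (-953/2500) * g 6 + (1613/2500) * a 7 + (-191/250) * b 7 + (1/2) * g 7)
    (p13p : (-61/10000) * r ≤ (-191/250) * a 6 + (-1613/2500) * b 6 + (1/2) * g 6 + (191/250) * a 8 + (1613/2500) * b 8 + (-4751/10000) * g 8)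
    (p13m : (-61/10000) * r ≤ (-191/250) * a 6 + (-1613/2500) * b 6 + (-4751/10000) * g 6 + (191/250) * a 8 + (1613/2500) * b 8 + (1/2) * g 8)
    (p25p : (-61/10000) * r ≤ (-191/250) * a 7 + (-1613/2500) * b 7 + (1/2) * g 7 + (191/250) * a 10 + (1613/2500) * b 10 + (-4751/10000) * g 10)
    (p25m : (-61/10000) * r ≤ (-191/250) * a 7 + (-1613/2500) * b 7 + (-4751/10000) * g 7 + (191/250) * a 10 + (1613/2500) * b 10 + (1/2) * g 10)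
    (p34p : (-61/10000) * r ≤ (1613/2500) * a 8 + (-191/250) * b 8 + (1/2) * g 8 + (-1613/2500) * a 9 + (191/250) * b 9 + (-831/5000) * g 9)
    (p34m : (-61/10000) * r ≤ (1613/2500) * a 8 + (-191/250) * b 8 + (-831/5000) * g 8 + (-1613/2500) * a 9 + (191/250) * b 9 + (1/2) * g 9)
    (p35p : (-61/10000) * r ≤ (-1613/2500) * a 8 + (191/250) * b 8 + (1/2) * g 8 + (1613/2500) * a 10 + (-191/250) * b 10 + (-953/2500) * g 10)
    (p35m : (-61/10000) * r ≤ (-1613/2500) * a 8 + (191/250) * b 8 + (-953/2500) * g 8 + (1613/2500) * a 10 + (-191/250) * b 10 + (1/2) * g 10)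
    (pB2 : (-33/5000) * r ≤ (-191/250) * a 1 + (-1613/2500) * b 1 + (297/5000) * g 1 + (191/250) * a 7 + (1613/2500) * b 7 + (-659/10000) * g 7)
    (pC1 : (-33/5000) * r ≤ (-191/250) * a 2 + (-1613/2500) * b 2 + (297/5000) * g 2 + (191/250) * a 6 + (1613/2500) * b 6 + (-4751/10000) * g 6)
    (pD1 : (-33/5000) * r ≤ (-1613/2500) * a 3 + (191/250) * b 3 + (297/5000) * g 3 + (1613/2500) * a 6 + (-191/250) * b 6 + (479/1000) * g 6)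
    (pD4 : (-33/5000) * r ≤ (-191/250) * a 3 + (-1613/2500) * b 3 + (297/5000) * g 3 + (191/250) * a 9 + (1613/2500) * b 9 + (-2391/10000) * g 9)
    (pE2 : (-33/5000) * r ≤ (1613/2500) * a 4 + (-191/250) * b 4 + (297/5000) * g 4 + (-1613/2500) * a 7 + (191/250) * b 7 + (1701/10000) * g 7)
    (pF3 : (-33/5000) * r ≤ (191/250) * a 5 + (1613/2500) * b 5 + (297/5000) * g 5 + (-191/250) * a 8 + (-1613/2500) * b 8 + (-227/2500) * g 8) :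
    (b 4) ≤ r / 2 := by
  linarith

theorem lp_b4m (hl : 0 ≤ l) (hr : 0 ≤ r)
    (wEbp : 0 ≤ 1 * b 4 + (-249/500) * g 4)
    (wEbm : 0 ≤ 1 * b 4 + (249/500) * g 4) :
    -(b 4) ≤ r / 2 := by
  linarith

theorem lp_g4p (hl : 0 ≤ l) (hr : 0 ≤ r)
    (wAlp : 0 ≤ 1 * a 0 + (-249/500) * g 0)
    (wAbp : 0 ≤ 1 * b 0 + (-249/500) * g 0)
    (wAbm : 0 ≤ 1 * b 0 + (249/500) * g 0)
    (wBbm : 0 ≤ 1 * b 1 + (249/500) * g 1)
    (wClp : 0 ≤ 1 * a 2 + (-249/500) * g 2)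
    (wDlp : 0 ≤ 1 * a 3 + (-249/500) * g 3)
    (wDlm : 0 ≤ 1 * a 3 + (249/500) * g 3)
    (wErp : 0 ≤ (-1) * a 4 + (-249/500) * g 4 + (-1) * l)
    (wEbp : 0 ≤ 1 * b 4 + (-249/500) * g 4)
    (wFrp : 0 ≤ (-1) * a 5 + (-249/500) * g 5 + (-1) * l)
    (wFrm : 0 ≤ (-1) * a 5 + (249/500) * g 5 + (-1) * l)
    (wFtp : 0 ≤ (-1) * b 5 + (-249/500) * g 5 + (-1) * l)
    (w4t : (-21/10000) * r ≤ (-1) * b 9 + (-297/5000) * g 9 + (-1) * l)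
    (w5r : (-21/10000) * r ≤ (-1) * a 10 + (-297/5000) * g 10 + (-1) * l)
    (pABp : (-61/10000) * r ≤ (-1) * a 0 + (1/2) * g 0 + 1 * a 1 + (-1/2) * g 1)
    (pABm : (-61/10000) * r ≤ (-1) * a 0 + (-1/2) * g 0 + 1 * a 1 + (1/2) * g 1)
    (pACp : (-61/10000) * r ≤ (-1) * b 0 + (1/2) * g 0 + 1 * b 2 + (-1/2) * g 2)
    (pACm : (-61/10000) * r ≤ (-1) * b 0 + (-1/2) * g 0 + 1 * b 2 + (1/2) * g 2)
    (p12m : (-61/10000) * r ≤ (-1613/2500) * a 6 + (191/250) * b 6 + (-953/2500) * g 6 + (1613/2500) * a 7 + (-191/250) * b 7 + (1/2) * g 7)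
    (p13p : (-61/10000) * r ≤ (-191/250) * a 6 + (-1613/2500) * b 6 + (1/2) * g 6 + (191/250) * a 8 + (1613/2500) * b 8 + (-4751/10000) * g 8)
    (p13m : (-61/10000) * r ≤ (-191/250) * a 6 + (-1613/2500) * b 6 + (-4751/10000) * g 6 + (191/250) * a 8 + (1613/2500) * b 8 + (1/2) * g 8)
    (p25p : (-61/10000) * r ≤ (-191/250) * a 7 + (-1613/2500) * b 7 + (1/2) * g 7 + (191/250) * a 10 + (1613/2500) * b 10 + (-4751/10000) * g 10)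
    (p25m : (-61/10000) * r ≤ (-191/250) * a 7 + (-1613/2500) * b 7 + (-4751/10000) * g 7 + (191/250) * a 10 + (1613/2500) * b 10 + (1/2) * g 10)
    (p34p : (-61/10000) * r ≤ (1613/2500) * a 8 + (-191/250) * b 8 + (1/2) * g 8 + (-1613/2500) * a 9 + (191/250) * b 9 + (-831/5000) * g 9)
    (p34m : (-61/10000) * r ≤ (1613/2500) * a 8 + (-191/250) * b 8 + (-831/5000) * g 8 + (-1613/2500) * a 9 + (191/250) * b 9 + (1/2) * g 9)
    (p35p : (-61/10000) * r ≤ (-1613/2500) * a 8 + (191/250) * b 8 + (1/2) * g 8 + (1613/2500) * a 10 + (-191/250) * b 10 + (-953/2500) * g 10)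
    (p35m : (-61/10000) * r ≤ (-1613/2500) * a 8 + (191/250) * b 8 + (-953/2500) * g 8 + (1613/2500) * a 10 + (-191/250) * b 10 + (1/2) * g 10)
    (pB2 : (-33/5000) * r ≤ (-191/250) * a 1 + (-1613/2500) * b 1 + (297/5000) * g 1 + (191/250) * a 7 + (1613/2500) * b 7 + (-659/10000) * g 7)
    (pC1 : (-33/5000) * r ≤ (-191/250) * a 2 + (-1613/2500) * b 2 + (297/5000) * g 2 + (191/250) * a 6 + (1613/2500) * b 6 + (-4751/10000) * g 6)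
    (pD1 : (-33/5000) * r ≤ (-1613/2500) * a 3 + (191/250) * b 3 + (297/5000) * g 3 + (1613/2500) * a 6 + (-191/250) * b 6 + (479/1000) * g 6)
    (pD4 : (-33/5000) * r ≤ (-191/250) * a 3 + (-1613/2500) * b 3 + (297/5000) * g 3 + (191/250) * a 9 + (1613/2500) * b 9 + (-2391/10000) * g 9)
    (pE2 : (-33/5000) * r ≤ (1613/2500) * a 4 + (-191/250) * b 4 + (297/5000) * g 4 + (-1613/2500) * a 7 + (191/250) * b 7 + (1701/10000) * g 7)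
    (pF3 : (-33/5000) * r ≤ (191/250) * a 5 + (1613/2500) * b 5 + (297/5000) * g 5 + (-191/250) * a 8 + (-1613/2500) * b 8 + (-227/2500) * g 8) :
    (g 4) ≤ r / 2 := by
  linarith

theorem lp_g4m (hl : 0 ≤ l) (hr : 0 ≤ r)
    (wAlp : 0 ≤ 1 * a 0 + (-249/500) * g 0)
    (wAbp : 0 ≤ 1 * b 0 + (-249/500) * g 0)
    (wAbm : 0 ≤ 1 * b 0 + (249/500) * g 0)
    (wBbm : 0 ≤ 1 * b 1 + (249/500) * g 1)
    (wClp : 0 ≤ 1 * a 2 + (-249/500) * g 2)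
    (wDlp : 0 ≤ 1 * a 3 + (-249/500) * g 3)
    (wDlm : 0 ≤ 1 * a 3 + (249/500) * g 3)
    (wErm : 0 ≤ (-1) * a 4 + (249/500) * g 4 + (-1) * l)
    (wEbm : 0 ≤ 1 * b 4 + (249/500) * g 4)
    (wFrp : 0 ≤ (-1) * a 5 + (-249/500) * g 5 + (-1) * l)
    (wFrm : 0 ≤ (-1) * a 5 + (249/500) * g 5 + (-1) * l)
    (wFtp : 0 ≤ (-1) * b 5 + (-249/500) * g 5 + (-1) * l)
    (w4t : (-21/10000) * r ≤ (-1) * b 9 + (-297/5000) * g 9 + (-1) * l)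
    (w5r : (-21/10000) * r ≤ (-1) * a 10 + (-297/5000) * g 10 + (-1) * l)
    (pABp : (-61/10000) * r ≤ (-1) * a 0 + (1/2) * g 0 + 1 * a 1 + (-1/2) * g 1)
    (pABm : (-61/10000) * r ≤ (-1) * a 0 + (-1/2) * g 0 + 1 * a 1 + (1/2) * g 1)
    (pACp : (-61/10000) * r ≤ (-1) * b 0 + (1/2) * g 0 + 1 * b 2 + (-1/2) * g 2)
    (pACm : (-61/10000) * r ≤ (-1) * b 0 + (-1/2) * g 0 + 1 * b 2 + (1/2) * g 2)
    (p12m : (-61/10000) * r ≤ (-1613/2500) * a 6 + (191/250) * b 6 + (-953/2500) * g 6 + (1613/2500) * a 7 + (-191/250) * b 7 + (1/2) * g 7)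
    (p13p : (-61/10000) * r ≤ (-191/250) * a 6 + (-1613/2500) * b 6 + (1/2) * g 6 + (191/250) * a 8 + (1613/2500) * b 8 + (-4751/10000) * g 8)
    (p13m : (-61/10000) * r ≤ (-191/250) * a 6 + (-1613/2500) * b 6 + (-4751/10000) * g 6 + (191/250) * a 8 + (1613/2500) * b 8 + (1/2) * g 8)
    (p25p : (-61/10000) * r ≤ (-191/250) * a 7 + (-1613/2500) * b 7 + (1/2) * g 7 + (191/250) * a 10 + (1613/2500) * b 10 + (-4751/10000) * g 10)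
    (p25m : (-61/10000) * r ≤ (-191/250) * a 7 + (-1613/2500) * b 7 + (-4751/10000) * g 7 + (191/250) * a 10 + (1613/2500) * b 10 + (1/2) * g 10)
    (p34p : (-61/10000) * r ≤ (1613/2500) * a 8 + (-191/250) * b 8 + (1/2) * g 8 + (-1613/2500) * a 9 + (191/250) * b 9 + (-831/5000) * g 9)
    (p34m : (-61/10000) * r ≤ (1613/2500) * a 8 + (-191/250) * b 8 + (-831/5000) * g 8 + (-1613/2500) * a 9 + (191/250) * b 9 + (1/2) * g 9)
    (p35p : (-61/10000) * r ≤ (-1613/2500) * a 8 + (191/250) * b 8 + (1/2) * g 8 + (1613/2500) * a 10 + (-191/250) * b 10 + (-953/2500) * g 10)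
    (p35m : (-61/10000) * r ≤ (-1613/2500) * a 8 + (191/250) * b 8 + (-953/2500) * g 8 + (1613/2500) * a 10 + (-191/250) * b 10 + (1/2) * g 10)
    (pB2 : (-33/5000) * r ≤ (-191/250) * a 1 + (-1613/2500) * b 1 + (297/5000) * g 1 + (191/250) * a 7 + (1613/2500) * b 7 + (-659/10000) * g 7)
    (pC1 : (-33/5000) * r ≤ (-191/250) * a 2 + (-1613/2500) * b 2 + (297/5000) * g 2 + (191/250) * a 6 + (1613/2500) * b 6 + (-4751/10000) * g 6)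
    (pD1 : (-33/5000) * r ≤ (-1613/2500) * a 3 + (191/250) * b 3 + (297/5000) * g 3 + (1613/2500) * a 6 + (-191/250) * b 6 + (479/1000) * g 6)
    (pD4 : (-33/5000) * r ≤ (-191/250) * a 3 + (-1613/2500) * b 3 + (297/5000) * g 3 + (191/250) * a 9 + (1613/2500) * b 9 + (-2391/10000) * g 9)
    (pE2 : (-33/5000) * r ≤ (1613/2500) * a 4 + (-191/250) * b 4 + (297/5000) * g 4 + (-1613/2500) * a 7 + (191/250) * b 7 + (1701/10000) * g 7)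
    (pF3 : (-33/5000) * r ≤ (191/250) * a 5 + (1613/2500) * b 5 + (297/5000) * g 5 + (-191/250) * a 8 + (-1613/2500) * b 8 + (-227/2500) * g 8) :
    -(g 4) ≤ r / 2 := by
  linarith

theorem lp_a5p (hl : 0 ≤ l) (hr : 0 ≤ r)
    (wFrp : 0 ≤ (-1) * a 5 + (-249/500) * g 5 + (-1) * l)
    (wFrm : 0 ≤ (-1) * a 5 + (249/500) * g 5 + (-1) * l) :
    (a 5) ≤ r / 2 := by
  linarith

theorem lp_a5m (hl : 0 ≤ l) (hr : 0 ≤ r)
    (wAlp : 0 ≤ 1 * a 0 + (-249/500) * g 0)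
    (wAbp : 0 ≤ 1 * b 0 + (-249/500) * g 0)
    (wAbm : 0 ≤ 1 * b 0 + (249/500) * g 0)
    (wBbm : 0 ≤ 1 * b 1 + (249/500) * g 1)
    (wClp : 0 ≤ 1 * a 2 + (-249/500) * g 2)
    (wDlp : 0 ≤ 1 * a 3 + (-249/500) * g 3)
    (wDlm : 0 ≤ 1 * a 3 + (249/500) * g 3)
    (wErp : 0 ≤ (-1) * a 4 + (-249/500) * g 4 + (-1) * l)
    (wEbp : 0 ≤ 1 * b 4 + (-249/500) * g 4)
    (wEbm : 0 ≤ 1 * b 4 + (249/500) * g 4)
    (wFtp : 0 ≤ (-1) * b 5 + (-249/500) * g 5 + (-1) * l)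
    (wFtm : 0 ≤ (-1) * b 5 + (249/500) * g 5 + (-1) * l)
    (w4t : (-21/10000) * r ≤ (-1) * b 9 + (-297/5000) * g 9 + (-1) * l)
    (w5r : (-21/10000) * r ≤ (-1) * a 10 + (-297/5000) * g 10 + (-1) * l)
    (pABp : (-61/10000) * r ≤ (-1) * a 0 + (1/2) * g 0 + 1 * a 1 + (-1/2) * g 1)
    (pABm : (-61/10000) * r ≤ (-1) * a 0 + (-1/2) * g 0 + 1 * a 1 + (1/2) * g 1)
    (pACp : (-61/10000) * r ≤ (-1) * b 0 + (1/2) * g 0 + 1 * b 2 + (-1/2) * g 2)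
    (pACm : (-61/10000) * r ≤ (-1) * b 0 + (-1/2) * g 0 + 1 * b 2 + (1/2) * g 2)
    (p12m : (-61/10000) * r ≤ (-1613/2500) * a 6 + (191/250) * b 6 + (-953/2500) * g 6 + (1613/2500) * a 7 + (-191/250) * b 7 + (1/2) * g 7)
    (p13p : (-61/10000) * r ≤ (-191/250) * a 6 + (-1613/2500) * b 6 + (1/2) * g 6 + (191/250) * a 8 + (1613/2500) * b 8 + (-4751/10000) * g 8)
    (p13m : (-61/10000) * r ≤ (-191/250) * a 6 + (-1613/2500) * b 6 + (-4751/10000) * g 6 + (191/250) * a 8 + (1613/2500) * b 8 + (1/2) * g 8)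
    (p25p : (-61/10000) * r ≤ (-191/250) * a 7 + (-1613/2500) * b 7 + (1/2) * g 7 + (191/250) * a 10 + (1613/2500) * b 10 + (-4751/10000) * g 10)
    (p25m : (-61/10000) * r ≤ (-191/250) * a 7 + (-1613/2500) * b 7 + (-4751/10000) * g 7 + (191/250) * a 10 + (1613/2500) * b 10 + (1/2) * g 10)
    (p34p : (-61/10000) * r ≤ (1613/2500) * a 8 + (-191/250) * b 8 + (1/2) * g 8 + (-1613/2500) * a 9 + (191/250) * b 9 + (-831/5000) * g 9)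
    (p34m : (-61/10000) * r ≤ (1613/2500) * a 8 + (-191/250) * b 8 + (-831/5000) * g 8 + (-1613/2500) * a 9 + (191/250) * b 9 + (1/2) * g 9)
    (p35p : (-61/10000) * r ≤ (-1613/2500) * a 8 + (191/250) * b 8 + (1/2) * g 8 + (1613/2500) * a 10 + (-191/250) * b 10 + (-953/2500) * g 10)
    (p35m : (-61/10000) * r ≤ (-1613/2500) * a 8 + (191/250) * b 8 + (-953/2500) * g 8 + (1613/2500) * a 10 + (-191/250) * b 10 + (1/2) * g 10)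
    (pB2 : (-33/5000) * r ≤ (-191/250) * a 1 + (-1613/2500) * b 1 + (297/5000) * g 1 + (191/250) * a 7 + (1613/2500) * b 7 + (-659/10000) * g 7)
    (pC1 : (-33/5000) * r ≤ (-191/250) * a 2 + (-1613/2500) * b 2 + (297/5000) * g 2 + (191/250) * a 6 + (1613/2500) * b 6 + (-4751/10000) * g 6)
    (pD1 : (-33/5000) * r ≤ (-1613/2500) * a 3 + (191/250) * b 3 + (297/5000) * g 3 + (1613/2500) * a 6 + (-191/250) * b 6 + (479/1000) * g 6)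
    (pD4 : (-33/5000) * r ≤ (-191/250) * a 3 + (-1613/2500) * b 3 + (297/5000) * g 3 + (191/250) * a 9 + (1613/2500) * b 9 + (-2391/10000) * g 9)
    (pE2 : (-33/5000) * r ≤ (1613/2500) * a 4 + (-191/250) * b 4 + (297/5000) * g 4 + (-1613/2500) * a 7 + (191/250) * b 7 + (1701/10000) * g 7)
    (pF3 : (-33/5000) * r ≤ (191/250) * a 5 + (1613/2500) * b 5 + (297/5000) * g 5 + (-191/250) * a 8 + (-1613/2500) * b 8 + (-227/2500) * g 8) :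
    -(a 5) ≤ r / 2 := by
  linarith

theorem lp_b5p (hl : 0 ≤ l) (hr : 0 ≤ r)
    (wFtp : 0 ≤ (-1) * b 5 + (-249/500) * g 5 + (-1) * l)
    (wFtm : 0 ≤ (-1) * b 5 + (249/500) * g 5 + (-1) * l) :
    (b 5) ≤ r / 2 := by
  linarith

theorem lp_b5m (hl : 0 ≤ l) (hr : 0 ≤ r)
    (wAlp : 0 ≤ 1 * a 0 + (-249/500) * g 0)
    (wAbp : 0 ≤ 1 * b 0 + (-249/500) * g 0)
    (wAbm : 0 ≤ 1 * b 0 + (249/500) * g 0)
    (wBbm : 0 ≤ 1 * b 1 + (249/500) * g 1)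
    (wClp : 0 ≤ 1 * a 2 + (-249/500) * g 2)
    (wDlp : 0 ≤ 1 * a 3 + (-249/500) * g 3)
    (wDlm : 0 ≤ 1 * a 3 + (249/500) * g 3)
    (wErp : 0 ≤ (-1) * a 4 + (-249/500) * g 4 + (-1) * l)
    (wEbp : 0 ≤ 1 * b 4 + (-249/500) * g 4)
    (wEbm : 0 ≤ 1 * b 4 + (249/500) * g 4)
    (wFrp : 0 ≤ (-1) * a 5 + (-249/500) * g 5 + (-1) * l)
    (wFrm : 0 ≤ (-1) * a 5 + (249/500) * g 5 + (-1) * l)
    (w4t : (-21/10000) * r ≤ (-1) * b 9 + (-297/5000) * g 9 + (-1) * l)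
    (w5r : (-21/10000) * r ≤ (-1) * a 10 + (-297/5000) * g 10 + (-1) * l)
    (pABp : (-61/10000) * r ≤ (-1) * a 0 + (1/2) * g 0 + 1 * a 1 + (-1/2) * g 1)
    (pABm : (-61/10000) * r ≤ (-1) * a 0 + (-1/2) * g 0 + 1 * a 1 + (1/2) * g 1)
    (pACp : (-61/10000) * r ≤ (-1) * b 0 + (1/2) * g 0 + 1 * b 2 + (-1/2) * g 2)
    (pACm : (-61/10000) * r ≤ (-1) * b 0 + (-1/2) * g 0 + 1 * b 2 + (1/2) * g 2)
    (p12m : (-61/10000) * r ≤ (-1613/2500) * a 6 + (191/250) * b 6 + (-953/2500) * g 6 + (1613/2500) * a 7 + (-191/250) * b 7 + (1/2) * g 7)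
    (p13p : (-61/10000) * r ≤ (-191/250) * a 6 + (-1613/2500) * b 6 + (1/2) * g 6 + (191/250) * a 8 + (1613/2500) * b 8 + (-4751/10000) * g 8)
    (p13m : (-61/10000) * r ≤ (-191/250) * a 6 + (-1613/2500) * b 6 + (-4751/10000) * g 6 + (191/250) * a 8 + (1613/2500) * b 8 + (1/2) * g 8)
    (p25p : (-61/10000) * r ≤ (-191/250) * a 7 + (-1613/2500) * b 7 + (1/2) * g 7 + (191/250) * a 10 + (1613/2500) * b 10 + (-4751/10000) * g 10)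
    (p25m : (-61/10000) * r ≤ (-191/250) * a 7 + (-1613/2500) * b 7 + (-4751/10000) * g 7 + (191/250) * a 10 + (1613/2500) * b 10 + (1/2) * g 10)
    (p34p : (-61/10000) * r ≤ (1613/2500) * a 8 + (-191/250) * b 8 + (1/2) * g 8 + (-1613/2500) * a 9 + (191/250) * b 9 + (-831/5000) * g 9)
    (p34m : (-61/10000) * r ≤ (1613/2500) * a 8 + (-191/250) * b 8 + (-831/5000) * g 8 + (-1613/2500) * a 9 + (191/250) * b 9 + (1/2) * g 9)
    (p35p : (-61/10000) * r ≤ (-1613/2500) * a 8 + (191/250) * b 8 + (1/2) * g 8 + (1613/2500) * a 10 + (-191/250) * b 10 + (-953/2500) * g 10)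
    (p35m : (-61/10000) * r ≤ (-1613/2500) * a 8 + (191/250) * b 8 + (-953/2500) * g 8 + (1613/2500) * a 10 + (-191/250) * b 10 + (1/2) * g 10)
    (pB2 : (-33/5000) * r ≤ (-191/250) * a 1 + (-1613/2500) * b 1 + (297/5000) * g 1 + (191/250) * a 7 + (1613/2500) * b 7 + (-659/10000) * g 7)
    (pC1 : (-33/5000) * r ≤ (-191/250) * a 2 + (-1613/2500) * b 2 + (297/5000) * g 2 + (191/250) * a 6 + (1613/2500) * b 6 + (-4751/10000) * g 6)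
    (pD1 : (-33/5000) * r ≤ (-1613/2500) * a 3 + (191/250) * b 3 + (297/5000) * g 3 + (1613/2500) * a 6 + (-191/250) * b 6 + (479/1000) * g 6)
    (pD4 : (-33/5000) * r ≤ (-191/250) * a 3 + (-1613/2500) * b 3 + (297/5000) * g 3 + (191/250) * a 9 + (1613/2500) * b 9 + (-2391/10000) * g 9)
    (pE2 : (-33/5000) * r ≤ (1613/2500) * a 4 + (-191/250) * b 4 + (297/5000) * g 4 + (-1613/2500) * a 7 + (191/250) * b 7 + (1701/10000) * g 7)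
    (pF3 : (-33/5000) * r ≤ (191/250) * a 5 + (1613/2500) * b 5 + (297/5000) * g 5 + (-191/250) * a 8 + (-1613/2500) * b 8 + (-227/2500) * g 8) :
    -(b 5) ≤ r / 2 := by
  linarith

theorem lp_g5p (hl : 0 ≤ l) (hr : 0 ≤ r)
    (wAlp : 0 ≤ 1 * a 0 + (-249/500) * g 0)
    (wAbp : 0 ≤ 1 * b 0 + (-249/500) * g 0)
    (wAbm : 0 ≤ 1 * b 0 + (249/500) * g 0)
    (wBbm : 0 ≤ 1 * b 1 + (249/500) * g 1)
    (wClp : 0 ≤ 1 * a 2 + (-249/500) * g 2)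
    (wDlp : 0 ≤ 1 * a 3 + (-249/500) * g 3)
    (wDlm : 0 ≤ 1 * a 3 + (249/500) * g 3)
    (wErp : 0 ≤ (-1) * a 4 + (-249/500) * g 4 + (-1) * l)
    (wEbp : 0 ≤ 1 * b 4 + (-249/500) * g 4)
    (wEbm : 0 ≤ 1 * b 4 + (249/500) * g 4)
    (wFrp : 0 ≤ (-1) * a 5 + (-249/500) * g 5 + (-1) * l)
    (wFtp : 0 ≤ (-1) * b 5 + (-249/500) * g 5 + (-1) * l)
    (w4t : (-21/10000) * r ≤ (-1) * b 9 + (-297/5000) * g 9 + (-1) * l)
    (w5r : (-21/10000) * r ≤ (-1) * a 10 + (-297/5000) * g 10 + (-1) * l)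
    (pABp : (-61/10000) * r ≤ (-1) * a 0 + (1/2) * g 0 + 1 * a 1 + (-1/2) * g 1)
    (pABm : (-61/10000) * r ≤ (-1) * a 0 + (-1/2) * g 0 + 1 * a 1 + (1/2) * g 1)
    (pACp : (-61/10000) * r ≤ (-1) * b 0 + (1/2) * g 0 + 1 * b 2 + (-1/2) * g 2)
    (pACm : (-61/10000) * r ≤ (-1) * b 0 + (-1/2) * g 0 + 1 * b 2 + (1/2) * g 2)
    (p12m : (-61/10000) * r ≤ (-1613/2500) * a 6 + (191/250) * b 6 + (-953/2500) * g 6 + (1613/2500) * a 7 + (-191/250) * b 7 + (1/2) * g 7)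
    (p13p : (-61/10000) * r ≤ (-191/250) * a 6 + (-1613/2500) * b 6 + (1/2) * g 6 + (191/250) * a 8 + (1613/2500) * b 8 + (-4751/10000) * g 8)
    (p13m : (-61/10000) * r ≤ (-191/250) * a 6 + (-1613/2500) * b 6 + (-4751/10000) * g 6 + (191/250) * a 8 + (1613/2500) * b 8 + (1/2) * g 8)
    (p25p : (-61/10000) * r ≤ (-191/250) * a 7 + (-1613/2500) * b 7 + (1/2) * g 7 + (191/250) * a 10 + (1613/2500) * b 10 + (-4751/10000) * g 10)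
    (p25m : (-61/10000) * r ≤ (-191/250) * a 7 + (-1613/2500) * b 7 + (-4751/10000) * g 7 + (191/250) * a 10 + (1613/2500) * b 10 + (1/2) * g 10)
    (p34p : (-61/10000) * r ≤ (1613/2500) * a 8 + (-191/250) * b 8 + (1/2) * g 8 + (-1613/2500) * a 9 + (191/250) * b 9 + (-831/5000) * g 9)
    (p34m : (-61/10000) * r ≤ (1613/2500) * a 8 + (-191/250) * b 8 + (-831/5000) * g 8 + (-1613/2500) * a 9 + (191/250) * b 9 + (1/2) * g 9)
    (p35p : (-61/10000) * r ≤ (-1613/2500) * a 8 + (191/250) * b 8 + (1/2) * g 8 + (1613/2500) * a 10 + (-191/250) * b 10 + (-953/2500) * g 10)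
    (p35m : (-61/10000) * r ≤ (-1613/2500) * a 8 + (191/250) * b 8 + (-953/2500) * g 8 + (1613/2500) * a 10 + (-191/250) * b 10 + (1/2) * g 10)
    (pB2 : (-33/5000) * r ≤ (-191/250) * a 1 + (-1613/2500) * b 1 + (297/5000) * g 1 + (191/250) * a 7 + (1613/2500) * b 7 + (-659/10000) * g 7)
    (pC1 : (-33/5000) * r ≤ (-191/250) * a 2 + (-1613/2500) * b 2 + (297/5000) * g 2 + (191/250) * a 6 + (1613/2500) * b 6 + (-4751/10000) * g 6)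
    (pD1 : (-33/5000) * r ≤ (-1613/2500) * a 3 + (191/250) * b 3 + (297/5000) * g 3 + (1613/2500) * a 6 + (-191/250) * b 6 + (479/1000) * g 6)
    (pD4 : (-33/5000) * r ≤ (-191/250) * a 3 + (-1613/2500) * b 3 + (297/5000) * g 3 + (191/250) * a 9 + (1613/2500) * b 9 + (-2391/10000) * g 9)
    (pE2 : (-33/5000) * r ≤ (1613/2500) * a 4 + (-191/250) * b 4 + (297/5000) * g 4 + (-1613/2500) * a 7 + (191/250) * b 7 + (1701/10000) * g 7)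
    (pF3 : (-33/5000) * r ≤ (191/250) * a 5 + (1613/2500) * b 5 + (297/5000) * g 5 + (-191/250) * a 8 + (-1613/2500) * b 8 + (-227/2500) * g 8) :
    (g 5) ≤ r / 2 := by
  linarith

theorem lp_g5m (hl : 0 ≤ l) (hr : 0 ≤ r)
    (wAlp : 0 ≤ 1 * a 0 + (-249/500) * g 0)
    (wAbp : 0 ≤ 1 * b 0 + (-249/500) * g 0)
    (wAbm : 0 ≤ 1 * b 0 + (249/500) * g 0)
    (wBbm : 0 ≤ 1 * b 1 + (249/500) * g 1)
    (wClp : 0 ≤ 1 * a 2 + (-249/500) * g 2)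
    (wDlp : 0 ≤ 1 * a 3 + (-249/500) * g 3)
    (wDlm : 0 ≤ 1 * a 3 + (249/500) * g 3)
    (wErp : 0 ≤ (-1) * a 4 + (-249/500) * g 4 + (-1) * l)
    (wEbp : 0 ≤ 1 * b 4 + (-249/500) * g 4)
    (wEbm : 0 ≤ 1 * b 4 + (249/500) * g 4)
    (wFrm : 0 ≤ (-1) * a 5 + (249/500) * g 5 + (-1) * l)
    (wFtm : 0 ≤ (-1) * b 5 + (249/500) * g 5 + (-1) * l)
    (w4t : (-21/10000) * r ≤ (-1) * b 9 + (-297/5000) * g 9 + (-1) * l)
    (w5r : (-21/10000) * r ≤ (-1) * a 10 + (-297/5000) * g 10 + (-1) * l)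
    (pABp : (-61/10000) * r ≤ (-1) * a 0 + (1/2) * g 0 + 1 * a 1 + (-1/2) * g 1)
    (pABm : (-61/10000) * r ≤ (-1) * a 0 + (-1/2) * g 0 + 1 * a 1 + (1/2) * g 1)
    (pACp : (-61/10000) * r ≤ (-1) * b 0 + (1/2) * g 0 + 1 * b 2 + (-1/2) * g 2)
    (pACm : (-61/10000) * r ≤ (-1) * b 0 + (-1/2) * g 0 + 1 * b 2 + (1/2) * g 2)
    (p12m : (-61/10000) * r ≤ (-1613/2500) * a 6 + (191/250) * b 6 + (-953/2500) * g 6 + (1613/2500) * a 7 + (-191/250) * b 7 + (1/2) * g 7)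
    (p13p : (-61/10000) * r ≤ (-191/250) * a 6 + (-1613/2500) * b 6 + (1/2) * g 6 + (191/250) * a 8 + (1613/2500) * b 8 + (-4751/10000) * g 8)
    (p13m : (-61/10000) * r ≤ (-191/250) * a 6 + (-1613/2500) * b 6 + (-4751/10000) * g 6 + (191/250) * a 8 + (1613/2500) * b 8 + (1/2) * g 8)
    (p25p : (-61/10000) * r ≤ (-191/250) * a 7 + (-1613/2500) * b 7 + (1/2) * g 7 + (191/250) * a 10 + (1613/2500) * b 10 + (-4751/10000) * g 10)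
    (p25m : (-61/10000) * r ≤ (-191/250) * a 7 + (-1613/2500) * b 7 + (-4751/10000) * g 7 + (191/250) * a 10 + (1613/2500) * b 10 + (1/2) * g 10)
    (p34p : (-61/10000) * r ≤ (1613/2500) * a 8 + (-191/250) * b 8 + (1/2) * g 8 + (-1613/2500) * a 9 + (191/250) * b 9 + (-831/5000) * g 9)
    (p34m : (-61/10000) * r ≤ (1613/2500) * a 8 + (-191/250) * b 8 + (-831/5000) * g 8 + (-1613/2500) * a 9 + (191/250) * b 9 + (1/2) * g 9)
    (p35p : (-61/10000) * r ≤ (-1613/2500) * a 8 + (191/250) * b 8 + (1/2) * g 8 + (1613/2500) * a 10 + (-191/250) * b 10 + (-953/2500) * g 10)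
    (p35m : (-61/10000) * r ≤ (-1613/2500) * a 8 + (191/250) * b 8 + (-953/2500) * g 8 + (1613/2500) * a 10 + (-191/250) * b 10 + (1/2) * g 10)
    (pB2 : (-33/5000) * r ≤ (-191/250) * a 1 + (-1613/2500) * b 1 + (297/5000) * g 1 + (191/250) * a 7 + (1613/2500) * b 7 + (-659/10000) * g 7)
    (pC1 : (-33/5000) * r ≤ (-191/250) * a 2 + (-1613/2500) * b 2 + (297/5000) * g 2 + (191/250) * a 6 + (1613/2500) * b 6 + (-4751/10000) * g 6)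
    (pD1 : (-33/5000) * r ≤ (-1613/2500) * a 3 + (191/250) * b 3 + (297/5000) * g 3 + (1613/2500) * a 6 + (-191/250) * b 6 + (479/1000) * g 6)
    (pD4 : (-33/5000) * r ≤ (-191/250) * a 3 + (-1613/2500) * b 3 + (297/5000) * g 3 + (191/250) * a 9 + (1613/2500) * b 9 + (-2391/10000) * g 9)
    (pE2 : (-33/5000) * r ≤ (1613/2500) * a 4 + (-191/250) * b 4 + (297/5000) * g 4 + (-1613/2500) * a 7 + (191/250) * b 7 + (1701/10000) * g 7)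
    (pF3 : (-33/5000) * r ≤ (191/250) * a 5 + (1613/2500) * b 5 + (297/5000) * g 5 + (-191/250) * a 8 + (-1613/2500) * b 8 + (-227/2500) * g 8) :
    -(g 5) ≤ r / 2 := by
  linarith

theorem lp_a6p (hl : 0 ≤ l) (hr : 0 ≤ r)
    (wAbp : 0 ≤ 1 * b 0 + (-249/500) * g 0)
    (wAbm : 0 ≤ 1 * b 0 + (249/500) * g 0)
    (wClp : 0 ≤ 1 * a 2 + (-249/500) * g 2)
    (wErp : 0 ≤ (-1) * a 4 + (-249/500) * g 4 + (-1) * l)
    (wEbp : 0 ≤ 1 * b 4 + (-249/500) * g 4)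
    (wEbm : 0 ≤ 1 * b 4 + (249/500) * g 4)
    (wFrp : 0 ≤ (-1) * a 5 + (-249/500) * g 5 + (-1) * l)
    (wFrm : 0 ≤ (-1) * a 5 + (249/500) * g 5 + (-1) * l)
    (wFtp : 0 ≤ (-1) * b 5 + (-249/500) * g 5 + (-1) * l)
    (pACp : (-61/10000) * r ≤ (-1) * b 0 + (1/2) * g 0 + 1 * b 2 + (-1/2) * g 2)
    (pACm : (-61/10000) * r ≤ (-1) * b 0 + (-1/2) * g 0 + 1 * b 2 + (1/2) * g 2)
    (p12p : (-61/10000) * r ≤ (-1613/2500) * a 6 + (191/250) * b 6 + (1/2) * g 6 + (1613/2500) * a 7 + (-191/250) * b 7 + (-953/2500) * g 7)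
    (p12m : (-61/10000) * r ≤ (-1613/2500) * a 6 + (191/250) * b 6 + (-953/2500) * g 6 + (1613/2500) * a 7 + (-191/250) * b 7 + (1/2) * g 7)
    (p13p : (-61/10000) * r ≤ (-191/250) * a 6 + (-1613/2500) * b 6 + (1/2) * g 6 + (191/250) * a 8 + (1613/2500) * b 8 + (-4751/10000) * g 8)
    (p13m : (-61/10000) * r ≤ (-191/250) * a 6 + (-1613/2500) * b 6 + (-4751/10000) * g 6 + (191/250) * a 8 + (1613/2500) * b 8 + (1/2) * g 8)
    (pC1 : (-33/5000) * r ≤ (-191/250) * a 2 + (-1613/2500) * b 2 + (297/5000) * g 2 + (191/250) * a 6 + (1613/2500) * b 6 + (-4751/10000) * g 6)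
    (pE2 : (-33/5000) * r ≤ (1613/2500) * a 4 + (-191/250) * b 4 + (297/5000) * g 4 + (-1613/2500) * a 7 + (191/250) * b 7 + (1701/10000) * g 7)
    (pF3 : (-33/5000) * r ≤ (191/250) * a 5 + (1613/2500) * b 5 + (297/5000) * g 5 + (-191/250) * a 8 + (-1613/2500) * b 8 + (-227/2500) * g 8) :
    (a 6) ≤ r / 2 := by
  linarith

theorem lp_a6m (hl : 0 ≤ l) (hr : 0 ≤ r)
    (wAlp : 0 ≤ 1 * a 0 + (-249/500) * g 0)
    (wAbp : 0 ≤ 1 * b 0 + (-249/500) * g 0)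
    (wAbm : 0 ≤ 1 * b 0 + (249/500) * g 0)
    (wBbm : 0 ≤ 1 * b 1 + (249/500) * g 1)
    (wClp : 0 ≤ 1 * a 2 + (-249/500) * g 2)
    (wDlp : 0 ≤ 1 * a 3 + (-249/500) * g 3)
    (wDlm : 0 ≤ 1 * a 3 + (249/500) * g 3)
    (wErp : 0 ≤ (-1) * a 4 + (-249/500) * g 4 + (-1) * l)
    (wEbp : 0 ≤ 1 * b 4 + (-249/500) * g 4)
    (wEbm : 0 ≤ 1 * b 4 + (249/500) * g 4)
    (wFrp : 0 ≤ (-1) * a 5 + (-249/500) * g 5 + (-1) * l)
    (wFrm : 0 ≤ (-1) * a 5 + (249/500) * g 5 + (-1) * l)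
    (wFtp : 0 ≤ (-1) * b 5 + (-249/500) * g 5 + (-1) * l)
    (w4t : (-21/10000) * r ≤ (-1) * b 9 + (-297/5000) * g 9 + (-1) * l)
    (w5r : (-21/10000) * r ≤ (-1) * a 10 + (-297/5000) * g 10 + (-1) * l)
    (pABp : (-61/10000) * r ≤ (-1) * a 0 + (1/2) * g 0 + 1 * a 1 + (-1/2) * g 1)
    (pABm : (-61/10000) * r ≤ (-1) * a 0 + (-1/2) * g 0 + 1 * a 1 + (1/2) * g 1)
    (pACp : (-61/10000) * r ≤ (-1) * b 0 + (1/2) * g 0 + 1 * b 2 + (-1/2) * g 2)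
    (pACm : (-61/10000) * r ≤ (-1) * b 0 + (-1/2) * g 0 + 1 * b 2 + (1/2) * g 2)
    (p12p : (-61/10000) * r ≤ (-1613/2500) * a 6 + (191/250) * b 6 + (1/2) * g 6 + (1613/2500) * a 7 + (-191/250) * b 7 + (-953/2500) * g 7)
    (p13p : (-61/10000) * r ≤ (-191/250) * a 6 + (-1613/2500) * b 6 + (1/2) * g 6 + (191/250) * a 8 + (1613/2500) * b 8 + (-4751/10000) * g 8)
    (p25p : (-61/10000) * r ≤ (-191/250) * a 7 + (-1613/2500) * b 7 + (1/2) * g 7 + (191/250) * a 10 + (1613/2500) * b 10 + (-4751/10000) * g 10)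
    (p25m : (-61/10000) * r ≤ (-191/250) * a 7 + (-1613/2500) * b 7 + (-4751/10000) * g 7 + (191/250) * a 10 + (1613/2500) * b 10 + (1/2) * g 10)
    (p34p : (-61/10000) * r ≤ (1613/2500) * a 8 + (-191/250) * b 8 + (1/2) * g 8 + (-1613/2500) * a 9 + (191/250) * b 9 + (-831/5000) * g 9)
    (p34m : (-61/10000) * r ≤ (1613/2500) * a 8 + (-191/250) * b 8 + (-831/5000) * g 8 + (-1613/2500) * a 9 + (191/250) * b 9 + (1/2) * g 9)
    (p35p : (-61/10000) * r ≤ (-1613/2500) * a 8 + (191/250) * b 8 + (1/2) * g 8 + (1613/2500) * a 10 + (-191/250) * b 10 + (-953/2500) * g 10)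
    (p35m : (-61/10000) * r ≤ (-1613/2500) * a 8 + (191/250) * b 8 + (-953/2500) * g 8 + (1613/2500) * a 10 + (-191/250) * b 10 + (1/2) * g 10)
    (pB2 : (-33/5000) * r ≤ (-191/250) * a 1 + (-1613/2500) * b 1 + (297/5000) * g 1 + (191/250) * a 7 + (1613/2500) * b 7 + (-659/10000) * g 7)
    (pC1 : (-33/5000) * r ≤ (-191/250) * a 2 + (-1613/2500) * b 2 + (297/5000) * g 2 + (191/250) * a 6 + (1613/2500) * b 6 + (-4751/10000) * g 6)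
    (pD1 : (-33/5000) * r ≤ (-1613/2500) * a 3 + (191/250) * b 3 + (297/5000) * g 3 + (1613/2500) * a 6 + (-191/250) * b 6 + (479/1000) * g 6)
    (pD4 : (-33/5000) * r ≤ (-191/250) * a 3 + (-1613/2500) * b 3 + (297/5000) * g 3 + (191/250) * a 9 + (1613/2500) * b 9 + (-2391/10000) * g 9)
    (pE2 : (-33/5000) * r ≤ (1613/2500) * a 4 + (-191/250) * b 4 + (297/5000) * g 4 + (-1613/2500) * a 7 + (191/250) * b 7 + (1701/10000) * g 7)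
    (pF3 : (-33/5000) * r ≤ (191/250) * a 5 + (1613/2500) * b 5 + (297/5000) * g 5 + (-191/250) * a 8 + (-1613/2500) * b 8 + (-227/2500) * g 8) :
    -(a 6) ≤ r / 2 := by
  linarith

theorem lp_b6p (hl : 0 ≤ l) (hr : 0 ≤ r)
    (wAlp : 0 ≤ 1 * a 0 + (-249/500) * g 0)
    (wAbp : 0 ≤ 1 * b 0 + (-249/500) * g 0)
    (wAbm : 0 ≤ 1 * b 0 + (249/500) * g 0)
    (wBbm : 0 ≤ 1 * b 1 + (249/500) * g 1)
    (wClp : 0 ≤ 1 * a 2 + (-249/500) * g 2)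
    (wDlp : 0 ≤ 1 * a 3 + (-249/500) * g 3)
    (wDlm : 0 ≤ 1 * a 3 + (249/500) * g 3)
    (wFrp : 0 ≤ (-1) * a 5 + (-249/500) * g 5 + (-1) * l)
    (wFrm : 0 ≤ (-1) * a 5 + (249/500) * g 5 + (-1) * l)
    (wFtp : 0 ≤ (-1) * b 5 + (-249/500) * g 5 + (-1) * l)
    (w4t : (-21/10000) * r ≤ (-1) * b 9 + (-297/5000) * g 9 + (-1) * l)
    (w5r : (-21/10000) * r ≤ (-1) * a 10 + (-297/5000) * g 10 + (-1) * l)
    (pABp : (-61/10000) * r ≤ (-1) * a 0 + (1/2) * g 0 + 1 * a 1 + (-1/2) * g 1)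
    (pABm : (-61/10000) * r ≤ (-1) * a 0 + (-1/2) * g 0 + 1 * a 1 + (1/2) * g 1)
    (pACp : (-61/10000) * r ≤ (-1) * b 0 + (1/2) * g 0 + 1 * b 2 + (-1/2) * g 2)
    (pACm : (-61/10000) * r ≤ (-1) * b 0 + (-1/2) * g 0 + 1 * b 2 + (1/2) * g 2)
    (p13p : (-61/10000) * r ≤ (-191/250) * a 6 + (-1613/2500) * b 6 + (1/2) * g 6 + (191/250) * a 8 + (1613/2500) * b 8 + (-4751/10000) * g 8)
    (p13m : (-61/10000) * r ≤ (-191/250) * a 6 + (-1613/2500) * b 6 + (-4751/10000) * g 6 + (191/250) * a 8 + (1613/2500) * b 8 + (1/2) * g 8)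
    (p25p : (-61/10000) * r ≤ (-191/250) * a 7 + (-1613/2500) * b 7 + (1/2) * g 7 + (191/250) * a 10 + (1613/2500) * b 10 + (-4751/10000) * g 10)
    (p25m : (-61/10000) * r ≤ (-191/250) * a 7 + (-1613/2500) * b 7 + (-4751/10000) * g 7 + (191/250) * a 10 + (1613/2500) * b 10 + (1/2) * g 10)
    (p34p : (-61/10000) * r ≤ (1613/2500) * a 8 + (-191/250) * b 8 + (1/2) * g 8 + (-1613/2500) * a 9 + (191/250) * b 9 + (-831/5000) * g 9)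
    (p34m : (-61/10000) * r ≤ (1613/2500) * a 8 + (-191/250) * b 8 + (-831/5000) * g 8 + (-1613/2500) * a 9 + (191/250) * b 9 + (1/2) * g 9)
    (p35p : (-61/10000) * r ≤ (-1613/2500) * a 8 + (191/250) * b 8 + (1/2) * g 8 + (1613/2500) * a 10 + (-191/250) * b 10 + (-953/2500) * g 10)
    (p35m : (-61/10000) * r ≤ (-1613/2500) * a 8 + (191/250) * b 8 + (-953/2500) * g 8 + (1613/2500) * a 10 + (-191/250) * b 10 + (1/2) * g 10)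
    (pB2 : (-33/5000) * r ≤ (-191/250) * a 1 + (-1613/2500) * b 1 + (297/5000) * g 1 + (191/250) * a 7 + (1613/2500) * b 7 + (-659/10000) * g 7)
    (pC1 : (-33/5000) * r ≤ (-191/250) * a 2 + (-1613/2500) * b 2 + (297/5000) * g 2 + (191/250) * a 6 + (1613/2500) * b 6 + (-4751/10000) * g 6)
    (pD1 : (-33/5000) * r ≤ (-1613/2500) * a 3 + (191/250) * b 3 + (297/5000) * g 3 + (1613/2500) * a 6 + (-191/250) * b 6 + (479/1000) * g 6)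
    (pD4 : (-33/5000) * r ≤ (-191/250) * a 3 + (-1613/2500) * b 3 + (297/5000) * g 3 + (191/250) * a 9 + (1613/2500) * b 9 + (-2391/10000) * g 9)
    (pF3 : (-33/5000) * r ≤ (191/250) * a 5 + (1613/2500) * b 5 + (297/5000) * g 5 + (-191/250) * a 8 + (-1613/2500) * b 8 + (-227/2500) * g 8) :
    (b 6) ≤ r / 2 := by
  linarith

theorem lp_b6m (hl : 0 ≤ l) (hr : 0 ≤ r)
    (wAlp : 0 ≤ 1 * a 0 + (-249/500) * g 0)
    (wAbp : 0 ≤ 1 * b 0 + (-249/500) * g 0)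
    (wAbm : 0 ≤ 1 * b 0 + (249/500) * g 0)
    (wBbm : 0 ≤ 1 * b 1 + (249/500) * g 1)
    (wClp : 0 ≤ 1 * a 2 + (-249/500) * g 2)
    (wDlp : 0 ≤ 1 * a 3 + (-249/500) * g 3)
    (wDlm : 0 ≤ 1 * a 3 + (249/500) * g 3)
    (wErp : 0 ≤ (-1) * a 4 + (-249/500) * g 4 + (-1) * l)
    (wEbp : 0 ≤ 1 * b 4 + (-249/500) * g 4)
    (wEbm : 0 ≤ 1 * b 4 + (249/500) * g 4)
    (w4t : (-21/10000) * r ≤ (-1) * b 9 + (-297/5000) * g 9 + (-1) * l)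
    (w5r : (-21/10000) * r ≤ (-1) * a 10 + (-297/5000) * g 10 + (-1) * l)
    (pABp : (-61/10000) * r ≤ (-1) * a 0 + (1/2) * g 0 + 1 * a 1 + (-1/2) * g 1)
    (pABm : (-61/10000) * r ≤ (-1) * a 0 + (-1/2) * g 0 + 1 * a 1 + (1/2) * g 1)
    (pACp : (-61/10000) * r ≤ (-1) * b 0 + (1/2) * g 0 + 1 * b 2 + (-1/2) * g 2)
    (pACm : (-61/10000) * r ≤ (-1) * b 0 + (-1/2) * g 0 + 1 * b 2 + (1/2) * g 2)
    (p12p : (-61/10000) * r ≤ (-1613/2500) * a 6 + (191/250) * b 6 + (1/2) * g 6 + (1613/2500) * a 7 + (-191/250) * b 7 + (-953/2500) * g 7)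
    (p12m : (-61/10000) * r ≤ (-1613/2500) * a 6 + (191/250) * b 6 + (-953/2500) * g 6 + (1613/2500) * a 7 + (-191/250) * b 7 + (1/2) * g 7)
    (p25p : (-61/10000) * r ≤ (-191/250) * a 7 + (-1613/2500) * b 7 + (1/2) * g 7 + (191/250) * a 10 + (1613/2500) * b 10 + (-4751/10000) * g 10)
    (p25m : (-61/10000) * r ≤ (-191/250) * a 7 + (-1613/2500) * b 7 + (-4751/10000) * g 7 + (191/250) * a 10 + (1613/2500) * b 10 + (1/2) * g 10)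
    (p34p : (-61/10000) * r ≤ (1613/2500) * a 8 + (-191/250) * b 8 + (1/2) * g 8 + (-1613/2500) * a 9 + (191/250) * b 9 + (-831/5000) * g 9)
    (p34m : (-61/10000) * r ≤ (1613/2500) * a 8 + (-191/250) * b 8 + (-831/5000) * g 8 + (-1613/2500) * a 9 + (191/250) * b 9 + (1/2) * g 9)
    (p35p : (-61/10000) * r ≤ (-1613/2500) * a 8 + (191/250) * b 8 + (1/2) * g 8 + (1613/2500) * a 10 + (-191/250) * b 10 + (-953/2500) * g 10)
    (p35m : (-61/10000) * r ≤ (-1613/2500) * a 8 + (191/250) * b 8 + (-953/2500) * g 8 + (1613/2500) * a 10 + (-191/250) * b 10 + (1/2) * g 10)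
    (pB2 : (-33/5000) * r ≤ (-191/250) * a 1 + (-1613/2500) * b 1 + (297/5000) * g 1 + (191/250) * a 7 + (1613/2500) * b 7 + (-659/10000) * g 7)
    (pC1 : (-33/5000) * r ≤ (-191/250) * a 2 + (-1613/2500) * b 2 + (297/5000) * g 2 + (191/250) * a 6 + (1613/2500) * b 6 + (-4751/10000) * g 6)
    (pD1 : (-33/5000) * r ≤ (-1613/2500) * a 3 + (191/250) * b 3 + (297/5000) * g 3 + (1613/2500) * a 6 + (-191/250) * b 6 + (479/1000) * g 6)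
    (pD4 : (-33/5000) * r ≤ (-191/250) * a 3 + (-1613/2500) * b 3 + (297/5000) * g 3 + (191/250) * a 9 + (1613/2500) * b 9 + (-2391/10000) * g 9)
    (pE2 : (-33/5000) * r ≤ (1613/2500) * a 4 + (-191/250) * b 4 + (297/5000) * g 4 + (-1613/2500) * a 7 + (191/250) * b 7 + (1701/10000) * g 7) :
    -(b 6) ≤ r / 2 := by
  linarith

theorem lp_g6p (hl : 0 ≤ l) (hr : 0 ≤ r)
    (wAbp : 0 ≤ 1 * b 0 + (-249/500) * g 0)
    (wAbm : 0 ≤ 1 * b 0 + (249/500) * g 0)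
    (wClp : 0 ≤ 1 * a 2 + (-249/500) * g 2)
    (wFrp : 0 ≤ (-1) * a 5 + (-249/500) * g 5 + (-1) * l)
    (wFrm : 0 ≤ (-1) * a 5 + (249/500) * g 5 + (-1) * l)
    (wFtp : 0 ≤ (-1) * b 5 + (-249/500) * g 5 + (-1) * l)
    (pACp : (-61/10000) * r ≤ (-1) * b 0 + (1/2) * g 0 + 1 * b 2 + (-1/2) * g 2)
    (pACm : (-61/10000) * r ≤ (-1) * b 0 + (-1/2) * g 0 + 1 * b 2 + (1/2) * g 2)
    (p13p : (-61/10000) * r ≤ (-191/250) * a 6 + (-1613/2500) * b 6 + (1/2) * g 6 + (191/250) * a 8 + (1613/2500) * b 8 + (-4751/10000) * g 8)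
    (p13m : (-61/10000) * r ≤ (-191/250) * a 6 + (-1613/2500) * b 6 + (-4751/10000) * g 6 + (191/250) * a 8 + (1613/2500) * b 8 + (1/2) * g 8)
    (pC1 : (-33/5000) * r ≤ (-191/250) * a 2 + (-1613/2500) * b 2 + (297/5000) * g 2 + (191/250) * a 6 + (1613/2500) * b 6 + (-4751/10000) * g 6)
    (pF3 : (-33/5000) * r ≤ (191/250) * a 5 + (1613/2500) * b 5 + (297/5000) * g 5 + (-191/250) * a 8 + (-1613/2500) * b 8 + (-227/2500) * g 8) :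
    (g 6) ≤ r / 2 := by
  linarith

theorem lp_g6m (hl : 0 ≤ l) (hr : 0 ≤ r)
    (wAlp : 0 ≤ 1 * a 0 + (-249/500) * g 0)
    (wBbp : 0 ≤ 1 * b 1 + (-249/500) * g 1)
    (wBbm : 0 ≤ 1 * b 1 + (249/500) * g 1)
    (wDlp : 0 ≤ 1 * a 3 + (-249/500) * g 3)
    (wDlm : 0 ≤ 1 * a 3 + (249/500) * g 3)
    (wErp : 0 ≤ (-1) * a 4 + (-249/500) * g 4 + (-1) * l)
    (wEbp : 0 ≤ 1 * b 4 + (-249/500) * g 4)
    (wEbm : 0 ≤ 1 * b 4 + (249/500) * g 4)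
    (w4t : (-21/10000) * r ≤ (-1) * b 9 + (-297/5000) * g 9 + (-1) * l)
    (w5r : (-21/10000) * r ≤ (-1) * a 10 + (-297/5000) * g 10 + (-1) * l)
    (pABp : (-61/10000) * r ≤ (-1) * a 0 + (1/2) * g 0 + 1 * a 1 + (-1/2) * g 1)
    (pABm : (-61/10000) * r ≤ (-1) * a 0 + (-1/2) * g 0 + 1 * a 1 + (1/2) * g 1)
    (p12p : (-61/10000) * r ≤ (-1613/2500) * a 6 + (191/250) * b 6 + (1/2) * g 6 + (1613/2500) * a 7 + (-191/250) * b 7 + (-953/2500) * g 7)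
    (p12m : (-61/10000) * r ≤ (-1613/2500) * a 6 + (191/250) * b 6 + (-953/2500) * g 6 + (1613/2500) * a 7 + (-191/250) * b 7 + (1/2) * g 7)
    (p25p : (-61/10000) * r ≤ (-191/250) * a 7 + (-1613/2500) * b 7 + (1/2) * g 7 + (191/250) * a 10 + (1613/2500) * b 10 + (-4751/10000) * g 10)
    (p25m : (-61/10000) * r ≤ (-191/250) * a 7 + (-1613/2500) * b 7 + (-4751/10000) * g 7 + (191/250) * a 10 + (1613/2500) * b 10 + (1/2) * g 10)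
    (p34p : (-61/10000) * r ≤ (1613/2500) * a 8 + (-191/250) * b 8 + (1/2) * g 8 + (-1613/2500) * a 9 + (191/250) * b 9 + (-831/5000) * g 9)
    (p34m : (-61/10000) * r ≤ (1613/2500) * a 8 + (-191/250) * b 8 + (-831/5000) * g 8 + (-1613/2500) * a 9 + (191/250) * b 9 + (1/2) * g 9)
    (p35p : (-61/10000) * r ≤ (-1613/2500) * a 8 + (191/250) * b 8 + (1/2) * g 8 + (1613/2500) * a 10 + (-191/250) * b 10 + (-953/2500) * g 10)
    (p35m : (-61/10000) * r ≤ (-1613/2500) * a 8 + (191/250) * b 8 + (-953/2500) * g 8 + (1613/2500) * a 10 + (-191/250) * b 10 + (1/2) * g 10)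
    (pB2 : (-33/5000) * r ≤ (-191/250) * a 1 + (-1613/2500) * b 1 + (297/5000) * g 1 + (191/250) * a 7 + (1613/2500) * b 7 + (-659/10000) * g 7)
    (pD1 : (-33/5000) * r ≤ (-1613/2500) * a 3 + (191/250) * b 3 + (297/5000) * g 3 + (1613/2500) * a 6 + (-191/250) * b 6 + (479/1000) * g 6)
    (pD4 : (-33/5000) * r ≤ (-191/250) * a 3 + (-1613/2500) * b 3 + (297/5000) * g 3 + (191/250) * a 9 + (1613/2500) * b 9 + (-2391/10000) * g 9)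
    (pE2 : (-33/5000) * r ≤ (1613/2500) * a 4 + (-191/250) * b 4 + (297/5000) * g 4 + (-1613/2500) * a 7 + (191/250) * b 7 + (1701/10000) * g 7) :
    -(g 6) ≤ r / 2 := by
  linarith

theorem lp_a7p (hl : 0 ≤ l) (hr : 0 ≤ r)
    (wAbp : 0 ≤ 1 * b 0 + (-249/500) * g 0)
    (wAbm : 0 ≤ 1 * b 0 + (249/500) * g 0)
    (wClp : 0 ≤ 1 * a 2 + (-249/500) * g 2)
    (wDlp : 0 ≤ 1 * a 3 + (-249/500) * g 3)
    (wDlm : 0 ≤ 1 * a 3 + (249/500) * g 3)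
    (wErp : 0 ≤ (-1) * a 4 + (-249/500) * g 4 + (-1) * l)
    (wEbp : 0 ≤ 1 * b 4 + (-249/500) * g 4)
    (wEbm : 0 ≤ 1 * b 4 + (249/500) * g 4)
    (wFrp : 0 ≤ (-1) * a 5 + (-249/500) * g 5 + (-1) * l)
    (wFrm : 0 ≤ (-1) * a 5 + (249/500) * g 5 + (-1) * l)
    (wFtp : 0 ≤ (-1) * b 5 + (-249/500) * g 5 + (-1) * l)
    (w4t : (-21/10000) * r ≤ (-1) * b 9 + (-297/5000) * g 9 + (-1) * l)
    (w5r : (-21/10000) * r ≤ (-1) * a 10 + (-297/5000) * g 10 + (-1) * l)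
    (pACp : (-61/10000) * r ≤ (-1) * b 0 + (1/2) * g 0 + 1 * b 2 + (-1/2) * g 2)
    (pACm : (-61/10000) * r ≤ (-1) * b 0 + (-1/2) * g 0 + 1 * b 2 + (1/2) * g 2)
    (p12p : (-61/10000) * r ≤ (-1613/2500) * a 6 + (191/250) * b 6 + (1/2) * g 6 + (1613/2500) * a 7 + (-191/250) * b 7 + (-953/2500) * g 7)
    (p12m : (-61/10000) * r ≤ (-1613/2500) * a 6 + (191/250) * b 6 + (-953/2500) * g 6 + (1613/2500) * a 7 + (-191/250) * b 7 + (1/2) * g 7)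
    (p13p : (-61/10000) * r ≤ (-191/250) * a 6 + (-1613/2500) * b 6 + (1/2) * g 6 + (191/250) * a 8 + (1613/2500) * b 8 + (-4751/10000) * g 8)
    (p13m : (-61/10000) * r ≤ (-191/250) * a 6 + (-1613/2500) * b 6 + (-4751/10000) * g 6 + (191/250) * a 8 + (1613/2500) * b 8 + (1/2) * g 8)
    (p25p : (-61/10000) * r ≤ (-191/250) * a 7 + (-1613/2500) * b 7 + (1/2) * g 7 + (191/250) * a 10 + (1613/2500) * b 10 + (-4751/10000) * g 10)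
    (p25m : (-61/10000) * r ≤ (-191/250) * a 7 + (-1613/2500) * b 7 + (-4751/10000) * g 7 + (191/250) * a 10 + (1613/2500) * b 10 + (1/2) * g 10)
    (p34p : (-61/10000) * r ≤ (1613/2500) * a 8 + (-191/250) * b 8 + (1/2) * g 8 + (-1613/2500) * a 9 + (191/250) * b 9 + (-831/5000) * g 9)
    (p34m : (-61/10000) * r ≤ (1613/2500) * a 8 + (-191/250) * b 8 + (-831/5000) * g 8 + (-1613/2500) * a 9 + (191/250) * b 9 + (1/2) * g 9)
    (p35p : (-61/10000) * r ≤ (-1613/2500) * a 8 + (191/250) * b 8 + (1/2) * g 8 + (1613/2500) * a 10 + (-191/250) * b 10 + (-953/2500) * g 10)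
    (pC1 : (-33/5000) * r ≤ (-191/250) * a 2 + (-1613/2500) * b 2 + (297/5000) * g 2 + (191/250) * a 6 + (1613/2500) * b 6 + (-4751/10000) * g 6)
    (pD1 : (-33/5000) * r ≤ (-1613/2500) * a 3 + (191/250) * b 3 + (297/5000) * g 3 + (1613/2500) * a 6 + (-191/250) * b 6 + (479/1000) * g 6)
    (pD4 : (-33/5000) * r ≤ (-191/250) * a 3 + (-1613/2500) * b 3 + (297/5000) * g 3 + (191/250) * a 9 + (1613/2500) * b 9 + (-2391/10000) * g 9)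
    (pE2 : (-33/5000) * r ≤ (1613/2500) * a 4 + (-191/250) * b 4 + (297/5000) * g 4 + (-1613/2500) * a 7 + (191/250) * b 7 + (1701/10000) * g 7)
    (pF3 : (-33/5000) * r ≤ (191/250) * a 5 + (1613/2500) * b 5 + (297/5000) * g 5 + (-191/250) * a 8 + (-1613/2500) * b 8 + (-227/2500) * g 8) :
    (a 7) ≤ r / 2 := by
  linarith

theorem lp_a7m (hl : 0 ≤ l) (hr : 0 ≤ r)
    (wAlp : 0 ≤ 1 * a 0 + (-249/500) * g 0)
    (wAbp : 0 ≤ 1 * b 0 + (-249/500) * g 0)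
    (wAbm : 0 ≤ 1 * b 0 + (249/500) * g 0)
    (wBbm : 0 ≤ 1 * b 1 + (249/500) * g 1)
    (wClp : 0 ≤ 1 * a 2 + (-249/500) * g 2)
    (wDlp : 0 ≤ 1 * a 3 + (-249/500) * g 3)
    (wDlm : 0 ≤ 1 * a 3 + (249/500) * g 3)
    (wFrp : 0 ≤ (-1) * a 5 + (-249/500) * g 5 + (-1) * l)
    (wFrm : 0 ≤ (-1) * a 5 + (249/500) * g 5 + (-1) * l)
    (wFtp : 0 ≤ (-1) * b 5 + (-249/500) * g 5 + (-1) * l)
    (w4t : (-21/10000) * r ≤ (-1) * b 9 + (-297/5000) * g 9 + (-1) * l)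
    (w5r : (-21/10000) * r ≤ (-1) * a 10 + (-297/5000) * g 10 + (-1) * l)
    (pABp : (-61/10000) * r ≤ (-1) * a 0 + (1/2) * g 0 + 1 * a 1 + (-1/2) * g 1)
    (pABm : (-61/10000) * r ≤ (-1) * a 0 + (-1/2) * g 0 + 1 * a 1 + (1/2) * g 1)
    (pACp : (-61/10000) * r ≤ (-1) * b 0 + (1/2) * g 0 + 1 * b 2 + (-1/2) * g 2)
    (pACm : (-61/10000) * r ≤ (-1) * b 0 + (-1/2) * g 0 + 1 * b 2 + (1/2) * g 2)
    (p12m : (-61/10000) * r ≤ (-1613/2500) * a 6 + (191/250) * b 6 + (-953/2500) * g 6 + (1613/2500) * a 7 + (-191/250) * b 7 + (1/2) * g 7)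
    (p13p : (-61/10000) * r ≤ (-191/250) * a 6 + (-1613/2500) * b 6 + (1/2) * g 6 + (191/250) * a 8 + (1613/2500) * b 8 + (-4751/10000) * g 8)
    (p13m : (-61/10000) * r ≤ (-191/250) * a 6 + (-1613/2500) * b 6 + (-4751/10000) * g 6 + (191/250) * a 8 + (1613/2500) * b 8 + (1/2) * g 8)
    (p25p : (-61/10000) * r ≤ (-191/250) * a 7 + (-1613/2500) * b 7 + (1/2) * g 7 + (191/250) * a 10 + (1613/2500) * b 10 + (-4751/10000) * g 10)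
    (p25m : (-61/10000) * r ≤ (-191/250) * a 7 + (-1613/2500) * b 7 + (-4751/10000) * g 7 + (191/250) * a 10 + (1613/2500) * b 10 + (1/2) * g 10)
    (p34p : (-61/10000) * r ≤ (1613/2500) * a 8 + (-191/250) * b 8 + (1/2) * g 8 + (-1613/2500) * a 9 + (191/250) * b 9 + (-831/5000) * g 9)
    (p34m : (-61/10000) * r ≤ (1613/2500) * a 8 + (-191/250) * b 8 + (-831/5000) * g 8 + (-1613/2500) * a 9 + (191/250) * b 9 + (1/2) * g 9)
    (p35p : (-61/10000) * r ≤ (-1613/2500) * a 8 + (191/250) * b 8 + (1/2) * g 8 + (1613/2500) * a 10 + (-191/250) * b 10 + (-953/2500) * g 10)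
    (p35m : (-61/10000) * r ≤ (-1613/2500) * a 8 + (191/250) * b 8 + (-953/2500) * g 8 + (1613/2500) * a 10 + (-191/250) * b 10 + (1/2) * g 10)
    (pB2 : (-33/5000) * r ≤ (-191/250) * a 1 + (-1613/2500) * b 1 + (297/5000) * g 1 + (191/250) * a 7 + (1613/2500) * b 7 + (-659/10000) * g 7)
    (pC1 : (-33/5000) * r ≤ (-191/250) * a 2 + (-1613/2500) * b 2 + (297/5000) * g 2 + (191/250) * a 6 + (1613/2500) * b 6 + (-4751/10000) * g 6)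
    (pD1 : (-33/5000) * r ≤ (-1613/2500) * a 3 + (191/250) * b 3 + (297/5000) * g 3 + (1613/2500) * a 6 + (-191/250) * b 6 + (479/1000) * g 6)
    (pD4 : (-33/5000) * r ≤ (-191/250) * a 3 + (-1613/2500) * b 3 + (297/5000) * g 3 + (191/250) * a 9 + (1613/2500) * b 9 + (-2391/10000) * g 9)
    (pF3 : (-33/5000) * r ≤ (191/250) * a 5 + (1613/2500) * b 5 + (297/5000) * g 5 + (-191/250) * a 8 + (-1613/2500) * b 8 + (-227/2500) * g 8) :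
    -(a 7) ≤ r / 2 := by
  linarith

theorem lp_b7p (hl : 0 ≤ l) (hr : 0 ≤ r)
    (wAlp : 0 ≤ 1 * a 0 + (-249/500) * g 0)
    (wAbp : 0 ≤ 1 * b 0 + (-249/500) * g 0)
    (wAbm : 0 ≤ 1 * b 0 + (249/500) * g 0)
    (wBbm : 0 ≤ 1 * b 1 + (249/500) * g 1)
    (wClp : 0 ≤ 1 * a 2 + (-249/500) * g 2)
    (wDlp : 0 ≤ 1 * a 3 + (-249/500) * g 3)
    (wDlm : 0 ≤ 1 * a 3 + (249/500) * g 3)
    (wFrp : 0 ≤ (-1) * a 5 + (-249/500) * g 5 + (-1) * l)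
    (wFrm : 0 ≤ (-1) * a 5 + (249/500) * g 5 + (-1) * l)
    (wFtp : 0 ≤ (-1) * b 5 + (-249/500) * g 5 + (-1) * l)
    (w4t : (-21/10000) * r ≤ (-1) * b 9 + (-297/5000) * g 9 + (-1) * l)
    (w5r : (-21/10000) * r ≤ (-1) * a 10 + (-297/5000) * g 10 + (-1) * l)
    (pABp : (-61/10000) * r ≤ (-1) * a 0 + (1/2) * g 0 + 1 * a 1 + (-1/2) * g 1)
    (pABm : (-61/10000) * r ≤ (-1) * a 0 + (-1/2) * g 0 + 1 * a 1 + (1/2) * g 1)
    (pACp : (-61/10000) * r ≤ (-1) * b 0 + (1/2) * g 0 + 1 * b 2 + (-1/2) * g 2)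
    (pACm : (-61/10000) * r ≤ (-1) * b 0 + (-1/2) * g 0 + 1 * b 2 + (1/2) * g 2)
    (p12m : (-61/10000) * r ≤ (-1613/2500) * a 6 + (191/250) * b 6 + (-953/2500) * g 6 + (1613/2500) * a 7 + (-191/250) * b 7 + (1/2) * g 7)
    (p13p : (-61/10000) * r ≤ (-191/250) * a 6 + (-1613/2500) * b 6 + (1/2) * g 6 + (191/250) * a 8 + (1613/2500) * b 8 + (-4751/10000) * g 8)
    (p13m : (-61/10000) * r ≤ (-191/250) * a 6 + (-1613/2500) * b 6 + (-4751/10000) * g 6 + (191/250) * a 8 + (1613/2500) * b 8 + (1/2) * g 8)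
    (p25p : (-61/10000) * r ≤ (-191/250) * a 7 + (-1613/2500) * b 7 + (1/2) * g 7 + (191/250) * a 10 + (1613/2500) * b 10 + (-4751/10000) * g 10)
    (p25m : (-61/10000) * r ≤ (-191/250) * a 7 + (-1613/2500) * b 7 + (-4751/10000) * g 7 + (191/250) * a 10 + (1613/2500) * b 10 + (1/2) * g 10)
    (p34p : (-61/10000) * r ≤ (1613/2500) * a 8 + (-191/250) * b 8 + (1/2) * g 8 + (-1613/2500) * a 9 + (191/250) * b 9 + (-831/5000) * g 9)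
    (p34m : (-61/10000) * r ≤ (1613/2500) * a 8 + (-191/250) * b 8 + (-831/5000) * g 8 + (-1613/2500) * a 9 + (191/250) * b 9 + (1/2) * g 9)
    (p35p : (-61/10000) * r ≤ (-1613/2500) * a 8 + (191/250) * b 8 + (1/2) * g 8 + (1613/2500) * a 10 + (-191/250) * b 10 + (-953/2500) * g 10)
    (p35m : (-61/10000) * r ≤ (-1613/2500) * a 8 + (191/250) * b 8 + (-953/2500) * g 8 + (1613/2500) * a 10 + (-191/250) * b 10 + (1/2) * g 10)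
    (pB2 : (-33/5000) * r ≤ (-191/250) * a 1 + (-1613/2500) * b 1 + (297/5000) * g 1 + (191/250) * a 7 + (1613/2500) * b 7 + (-659/10000) * g 7)
    (pC1 : (-33/5000) * r ≤ (-191/250) * a 2 + (-1613/2500) * b 2 + (297/5000) * g 2 + (191/250) * a 6 + (1613/2500) * b 6 + (-4751/10000) * g 6)
    (pD1 : (-33/5000) * r ≤ (-1613/2500) * a 3 + (191/250) * b 3 + (297/5000) * g 3 + (1613/2500) * a 6 + (-191/250) * b 6 + (479/1000) * g 6)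
    (pD4 : (-33/5000) * r ≤ (-191/250) * a 3 + (-1613/2500) * b 3 + (297/5000) * g 3 + (191/250) * a 9 + (1613/2500) * b 9 + (-2391/10000) * g 9)
    (pF3 : (-33/5000) * r ≤ (191/250) * a 5 + (1613/2500) * b 5 + (297/5000) * g 5 + (-191/250) * a 8 + (-1613/2500) * b 8 + (-227/2500) * g 8) :
    (b 7) ≤ r / 2 := by
  linarith

theorem lp_b7m (hl : 0 ≤ l) (hr : 0 ≤ r)
    (wAlp : 0 ≤ 1 * a 0 + (-249/500) * g 0)
    (wAbp : 0 ≤ 1 * b 0 + (-249/500) * g 0)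
    (wAbm : 0 ≤ 1 * b 0 + (249/500) * g 0)
    (wBbm : 0 ≤ 1 * b 1 + (249/500) * g 1)
    (wClp : 0 ≤ 1 * a 2 + (-249/500) * g 2)
    (wDlp : 0 ≤ 1 * a 3 + (-249/500) * g 3)
    (wDlm : 0 ≤ 1 * a 3 + (249/500) * g 3)
    (wErp : 0 ≤ (-1) * a 4 + (-249/500) * g 4 + (-1) * l)
    (wEbp : 0 ≤ 1 * b 4 + (-249/500) * g 4)
    (wEbm : 0 ≤ 1 * b 4 + (249/500) * g 4)
    (wFrp : 0 ≤ (-1) * a 5 + (-249/500) * g 5 + (-1) * l)
    (wFrm : 0 ≤ (-1) * a 5 + (249/500) * g 5 + (-1) * l)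
    (wFtp : 0 ≤ (-1) * b 5 + (-249/500) * g 5 + (-1) * l)
    (w4t : (-21/10000) * r ≤ (-1) * b 9 + (-297/5000) * g 9 + (-1) * l)
    (w5r : (-21/10000) * r ≤ (-1) * a 10 + (-297/5000) * g 10 + (-1) * l)
    (pABp : (-61/10000) * r ≤ (-1) * a 0 + (1/2) * g 0 + 1 * a 1 + (-1/2) * g 1)
    (pABm : (-61/10000) * r ≤ (-1) * a 0 + (-1/2) * g 0 + 1 * a 1 + (1/2) * g 1)
    (pACp : (-61/10000) * r ≤ (-1) * b 0 + (1/2) * g 0 + 1 * b 2 + (-1/2) * g 2)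
    (pACm : (-61/10000) * r ≤ (-1) * b 0 + (-1/2) * g 0 + 1 * b 2 + (1/2) * g 2)
    (p12p : (-61/10000) * r ≤ (-1613/2500) * a 6 + (191/250) * b 6 + (1/2) * g 6 + (1613/2500) * a 7 + (-191/250) * b 7 + (-953/2500) * g 7)
    (p13p : (-61/10000) * r ≤ (-191/250) * a 6 + (-1613/2500) * b 6 + (1/2) * g 6 + (191/250) * a 8 + (1613/2500) * b 8 + (-4751/10000) * g 8)
    (p13m : (-61/10000) * r ≤ (-191/250) * a 6 + (-1613/2500) * b 6 + (-4751/10000) * g 6 + (191/250) * a 8 + (1613/2500) * b 8 + (1/2) * g 8)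
    (p25p : (-61/10000) * r ≤ (-191/250) * a 7 + (-1613/2500) * b 7 + (1/2) * g 7 + (191/250) * a 10 + (1613/2500) * b 10 + (-4751/10000) * g 10)
    (p25m : (-61/10000) * r ≤ (-191/250) * a 7 + (-1613/2500) * b 7 + (-4751/10000) * g 7 + (191/250) * a 10 + (1613/2500) * b 10 + (1/2) * g 10)
    (p34p : (-61/10000) * r ≤ (1613/2500) * a 8 + (-191/250) * b 8 + (1/2) * g 8 + (-1613/2500) * a 9 + (191/250) * b 9 + (-831/5000) * g 9)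
    (p34m : (-61/10000) * r ≤ (1613/2500) * a 8 + (-191/250) * b 8 + (-831/5000) * g 8 + (-1613/2500) * a 9 + (191/250) * b 9 + (1/2) * g 9)
    (p35p : (-61/10000) * r ≤ (-1613/2500) * a 8 + (191/250) * b 8 + (1/2) * g 8 + (1613/2500) * a 10 + (-191/250) * b 10 + (-953/2500) * g 10)
    (pB2 : (-33/5000) * r ≤ (-191/250) * a 1 + (-1613/2500) * b 1 + (297/5000) * g 1 + (191/250) * a 7 + (1613/2500) * b 7 + (-659/10000) * g 7)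
    (pC1 : (-33/5000) * r ≤ (-191/250) * a 2 + (-1613/2500) * b 2 + (297/5000) * g 2 + (191/250) * a 6 + (1613/2500) * b 6 + (-4751/10000) * g 6)
    (pD1 : (-33/5000) * r ≤ (-1613/2500) * a 3 + (191/250) * b 3 + (297/5000) * g 3 + (1613/2500) * a 6 + (-191/250) * b 6 + (479/1000) * g 6)
    (pD4 : (-33/5000) * r ≤ (-191/250) * a 3 + (-1613/2500) * b 3 + (297/5000) * g 3 + (191/250) * a 9 + (1613/2500) * b 9 + (-2391/10000) * g 9)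
    (pE2 : (-33/5000) * r ≤ (1613/2500) * a 4 + (-191/250) * b 4 + (297/5000) * g 4 + (-1613/2500) * a 7 + (191/250) * b 7 + (1701/10000) * g 7)
    (pF3 : (-33/5000) * r ≤ (191/250) * a 5 + (1613/2500) * b 5 + (297/5000) * g 5 + (-191/250) * a 8 + (-1613/2500) * b 8 + (-227/2500) * g 8) :
    -(b 7) ≤ r / 2 := by
  linarith

theorem lp_g7p (hl : 0 ≤ l) (hr : 0 ≤ r)
    (wAlp : 0 ≤ 1 * a 0 + (-249/500) * g 0)
    (wAbp : 0 ≤ 1 * b 0 + (-249/500) * g 0)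
    (wAbm : 0 ≤ 1 * b 0 + (249/500) * g 0)
    (wBbm : 0 ≤ 1 * b 1 + (249/500) * g 1)
    (wClp : 0 ≤ 1 * a 2 + (-249/500) * g 2)
    (wDlp : 0 ≤ 1 * a 3 + (-249/500) * g 3)
    (wDlm : 0 ≤ 1 * a 3 + (249/500) * g 3)
    (wErp : 0 ≤ (-1) * a 4 + (-249/500) * g 4 + (-1) * l)
    (wEbp : 0 ≤ 1 * b 4 + (-249/500) * g 4)
    (wEbm : 0 ≤ 1 * b 4 + (249/500) * g 4)
    (wFrp : 0 ≤ (-1) * a 5 + (-249/500) * g 5 + (-1) * l)
    (wFrm : 0 ≤ (-1) * a 5 + (249/500) * g 5 + (-1) * l)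
    (wFtp : 0 ≤ (-1) * b 5 + (-249/500) * g 5 + (-1) * l)
    (w4t : (-21/10000) * r ≤ (-1) * b 9 + (-297/5000) * g 9 + (-1) * l)
    (w5r : (-21/10000) * r ≤ (-1) * a 10 + (-297/5000) * g 10 + (-1) * l)
    (pABp : (-61/10000) * r ≤ (-1) * a 0 + (1/2) * g 0 + 1 * a 1 + (-1/2) * g 1)
    (pABm : (-61/10000) * r ≤ (-1) * a 0 + (-1/2) * g 0 + 1 * a 1 + (1/2) * g 1)
    (pACp : (-61/10000) * r ≤ (-1) * b 0 + (1/2) * g 0 + 1 * b 2 + (-1/2) * g 2)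
    (pACm : (-61/10000) * r ≤ (-1) * b 0 + (-1/2) * g 0 + 1 * b 2 + (1/2) * g 2)
    (p12p : (-61/10000) * r ≤ (-1613/2500) * a 6 + (191/250) * b 6 + (1/2) * g 6 + (1613/2500) * a 7 + (-191/250) * b 7 + (-953/2500) * g 7)
    (p13p : (-61/10000) * r ≤ (-191/250) * a 6 + (-1613/2500) * b 6 + (1/2) * g 6 + (191/250) * a 8 + (1613/2500) * b 8 + (-4751/10000) * g 8)
    (p13m : (-61/10000) * r ≤ (-191/250) * a 6 + (-1613/2500) * b 6 + (-4751/10000) * g 6 + (191/250) * a 8 + (1613/2500) * b 8 + (1/2) * g 8)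
    (p25p : (-61/10000) * r ≤ (-191/250) * a 7 + (-1613/2500) * b 7 + (1/2) * g 7 + (191/250) * a 10 + (1613/2500) * b 10 + (-4751/10000) * g 10)
    (p25m : (-61/10000) * r ≤ (-191/250) * a 7 + (-1613/2500) * b 7 + (-4751/10000) * g 7 + (191/250) * a 10 + (1613/2500) * b 10 + (1/2) * g 10)
    (p34p : (-61/10000) * r ≤ (1613/2500) * a 8 + (-191/250) * b 8 + (1/2) * g 8 + (-1613/2500) * a 9 + (191/250) * b 9 + (-831/5000) * g 9)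
    (p34m : (-61/10000) * r ≤ (1613/2500) * a 8 + (-191/250) * b 8 + (-831/5000) * g 8 + (-1613/2500) * a 9 + (191/250) * b 9 + (1/2) * g 9)
    (p35p : (-61/10000) * r ≤ (-1613/2500) * a 8 + (191/250) * b 8 + (1/2) * g 8 + (1613/2500) * a 10 + (-191/250) * b 10 + (-953/2500) * g 10)
    (pB2 : (-33/5000) * r ≤ (-191/250) * a 1 + (-1613/2500) * b 1 + (297/5000) * g 1 + (191/250) * a 7 + (1613/2500) * b 7 + (-659/10000) * g 7)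
    (pC1 : (-33/5000) * r ≤ (-191/250) * a 2 + (-1613/2500) * b 2 + (297/5000) * g 2 + (191/250) * a 6 + (1613/2500) * b 6 + (-4751/10000) * g 6)
    (pD1 : (-33/5000) * r ≤ (-1613/2500) * a 3 + (191/250) * b 3 + (297/5000) * g 3 + (1613/2500) * a 6 + (-191/250) * b 6 + (479/1000) * g 6)
    (pD4 : (-33/5000) * r ≤ (-191/250) * a 3 + (-1613/2500) * b 3 + (297/5000) * g 3 + (191/250) * a 9 + (1613/2500) * b 9 + (-2391/10000) * g 9)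
    (pE2 : (-33/5000) * r ≤ (1613/2500) * a 4 + (-191/250) * b 4 + (297/5000) * g 4 + (-1613/2500) * a 7 + (191/250) * b 7 + (1701/10000) * g 7)
    (pF3 : (-33/5000) * r ≤ (191/250) * a 5 + (1613/2500) * b 5 + (297/5000) * g 5 + (-191/250) * a 8 + (-1613/2500) * b 8 + (-227/2500) * g 8) :
    (g 7) ≤ r / 2 := by
  linarith

theorem lp_g7m (hl : 0 ≤ l) (hr : 0 ≤ r)
    (wAlp : 0 ≤ 1 * a 0 + (-249/500) * g 0)
    (wAbp : 0 ≤ 1 * b 0 + (-249/500) * g 0)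
    (wAbm : 0 ≤ 1 * b 0 + (249/500) * g 0)
    (wBbm : 0 ≤ 1 * b 1 + (249/500) * g 1)
    (wClp : 0 ≤ 1 * a 2 + (-249/500) * g 2)
    (wDlp : 0 ≤ 1 * a 3 + (-249/500) * g 3)
    (wDlm : 0 ≤ 1 * a 3 + (249/500) * g 3)
    (wErp : 0 ≤ (-1) * a 4 + (-249/500) * g 4 + (-1) * l)
    (wEbp : 0 ≤ 1 * b 4 + (-249/500) * g 4)
    (wEbm : 0 ≤ 1 * b 4 + (249/500) * g 4)
    (wFrp : 0 ≤ (-1) * a 5 + (-249/500) * g 5 + (-1) * l)
    (wFrm : 0 ≤ (-1) * a 5 + (249/500) * g 5 + (-1) * l)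
    (wFtp : 0 ≤ (-1) * b 5 + (-249/500) * g 5 + (-1) * l)
    (w4t : (-21/10000) * r ≤ (-1) * b 9 + (-297/5000) * g 9 + (-1) * l)
    (w5r : (-21/10000) * r ≤ (-1) * a 10 + (-297/5000) * g 10 + (-1) * l)
    (pABp : (-61/10000) * r ≤ (-1) * a 0 + (1/2) * g 0 + 1 * a 1 + (-1/2) * g 1)
    (pABm : (-61/10000) * r ≤ (-1) * a 0 + (-1/2) * g 0 + 1 * a 1 + (1/2) * g 1)
    (pACp : (-61/10000) * r ≤ (-1) * b 0 + (1/2) * g 0 + 1 * b 2 + (-1/2) * g 2)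
    (pACm : (-61/10000) * r ≤ (-1) * b 0 + (-1/2) * g 0 + 1 * b 2 + (1/2) * g 2)
    (p12m : (-61/10000) * r ≤ (-1613/2500) * a 6 + (191/250) * b 6 + (-953/2500) * g 6 + (1613/2500) * a 7 + (-191/250) * b 7 + (1/2) * g 7)
    (p13m : (-61/10000) * r ≤ (-191/250) * a 6 + (-1613/2500) * b 6 + (-4751/10000) * g 6 + (191/250) * a 8 + (1613/2500) * b 8 + (1/2) * g 8)
    (p25p : (-61/10000) * r ≤ (-191/250) * a 7 + (-1613/2500) * b 7 + (1/2) * g 7 + (191/250) * a 10 + (1613/2500) * b 10 + (-4751/10000) * g 10)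
    (p25m : (-61/10000) * r ≤ (-191/250) * a 7 + (-1613/2500) * b 7 + (-4751/10000) * g 7 + (191/250) * a 10 + (1613/2500) * b 10 + (1/2) * g 10)
    (p34p : (-61/10000) * r ≤ (1613/2500) * a 8 + (-191/250) * b 8 + (1/2) * g 8 + (-1613/2500) * a 9 + (191/250) * b 9 + (-831/5000) * g 9)
    (p34m : (-61/10000) * r ≤ (1613/2500) * a 8 + (-191/250) * b 8 + (-831/5000) * g 8 + (-1613/2500) * a 9 + (191/250) * b 9 + (1/2) * g 9)
    (p35p : (-61/10000) * r ≤ (-1613/2500) * a 8 + (191/250) * b 8 + (1/2) * g 8 + (1613/2500) * a 10 + (-191/250) * b 10 + (-953/2500) * g 10)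
    (p35m : (-61/10000) * r ≤ (-1613/2500) * a 8 + (191/250) * b 8 + (-953/2500) * g 8 + (1613/2500) * a 10 + (-191/250) * b 10 + (1/2) * g 10)
    (pB2 : (-33/5000) * r ≤ (-191/250) * a 1 + (-1613/2500) * b 1 + (297/5000) * g 1 + (191/250) * a 7 + (1613/2500) * b 7 + (-659/10000) * g 7)
    (pC1 : (-33/5000) * r ≤ (-191/250) * a 2 + (-1613/2500) * b 2 + (297/5000) * g 2 + (191/250) * a 6 + (1613/2500) * b 6 + (-4751/10000) * g 6)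
    (pD1 : (-33/5000) * r ≤ (-1613/2500) * a 3 + (191/250) * b 3 + (297/5000) * g 3 + (1613/2500) * a 6 + (-191/250) * b 6 + (479/1000) * g 6)
    (pD4 : (-33/5000) * r ≤ (-191/250) * a 3 + (-1613/2500) * b 3 + (297/5000) * g 3 + (191/250) * a 9 + (1613/2500) * b 9 + (-2391/10000) * g 9)
    (pE2 : (-33/5000) * r ≤ (1613/2500) * a 4 + (-191/250) * b 4 + (297/5000) * g 4 + (-1613/2500) * a 7 + (191/250) * b 7 + (1701/10000) * g 7)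
    (pF3 : (-33/5000) * r ≤ (191/250) * a 5 + (1613/2500) * b 5 + (297/5000) * g 5 + (-191/250) * a 8 + (-1613/2500) * b 8 + (-227/2500) * g 8) :
    -(g 7) ≤ r / 2 := by
  linarith

theorem lp_a8p (hl : 0 ≤ l) (hr : 0 ≤ r)
    (wAlp : 0 ≤ 1 * a 0 + (-249/500) * g 0)
    (wAbp : 0 ≤ 1 * b 0 + (-249/500) * g 0)
    (wAbm : 0 ≤ 1 * b 0 + (249/500) * g 0)
    (wBbm : 0 ≤ 1 * b 1 + (249/500) * g 1)
    (wClp : 0 ≤ 1 * a 2 + (-249/500) * g 2)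
    (wDlp : 0 ≤ 1 * a 3 + (-249/500) * g 3)
    (wDlm : 0 ≤ 1 * a 3 + (249/500) * g 3)
    (wErp : 0 ≤ (-1) * a 4 + (-249/500) * g 4 + (-1) * l)
    (wEbp : 0 ≤ 1 * b 4 + (-249/500) * g 4)
    (wEbm : 0 ≤ 1 * b 4 + (249/500) * g 4)
    (wFrp : 0 ≤ (-1) * a 5 + (-249/500) * g 5 + (-1) * l)
    (wFrm : 0 ≤ (-1) * a 5 + (249/500) * g 5 + (-1) * l)
    (wFtp : 0 ≤ (-1) * b 5 + (-249/500) * g 5 + (-1) * l)
    (w4t : (-21/10000) * r ≤ (-1) * b 9 + (-297/5000) * g 9 + (-1) * l)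
    (w5r : (-21/10000) * r ≤ (-1) * a 10 + (-297/5000) * g 10 + (-1) * l)
    (pABp : (-61/10000) * r ≤ (-1) * a 0 + (1/2) * g 0 + 1 * a 1 + (-1/2) * g 1)
    (pABm : (-61/10000) * r ≤ (-1) * a 0 + (-1/2) * g 0 + 1 * a 1 + (1/2) * g 1)
    (pACp : (-61/10000) * r ≤ (-1) * b 0 + (1/2) * g 0 + 1 * b 2 + (-1/2) * g 2)
    (pACm : (-61/10000) * r ≤ (-1) * b 0 + (-1/2) * g 0 + 1 * b 2 + (1/2) * g 2)
    (p12m : (-61/10000) * r ≤ (-1613/2500) * a 6 + (191/250) * b 6 + (-953/2500) * g 6 + (1613/2500) * a 7 + (-191/250) * b 7 + (1/2) * g 7)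
    (p13m : (-61/10000) * r ≤ (-191/250) * a 6 + (-1613/2500) * b 6 + (-4751/10000) * g 6 + (191/250) * a 8 + (1613/2500) * b 8 + (1/2) * g 8)
    (p25p : (-61/10000) * r ≤ (-191/250) * a 7 + (-1613/2500) * b 7 + (1/2) * g 7 + (191/250) * a 10 + (1613/2500) * b 10 + (-4751/10000) * g 10)
    (p25m : (-61/10000) * r ≤ (-191/250) * a 7 + (-1613/2500) * b 7 + (-4751/10000) * g 7 + (191/250) * a 10 + (1613/2500) * b 10 + (1/2) * g 10)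
    (p34p : (-61/10000) * r ≤ (1613/2500) * a 8 + (-191/250) * b 8 + (1/2) * g 8 + (-1613/2500) * a 9 + (191/250) * b 9 + (-831/5000) * g 9)
    (p34m : (-61/10000) * r ≤ (1613/2500) * a 8 + (-191/250) * b 8 + (-831/5000) * g 8 + (-1613/2500) * a 9 + (191/250) * b 9 + (1/2) * g 9)
    (p35p : (-61/10000) * r ≤ (-1613/2500) * a 8 + (191/250) * b 8 + (1/2) * g 8 + (1613/2500) * a 10 + (-191/250) * b 10 + (-953/2500) * g 10)
    (p35m : (-61/10000) * r ≤ (-1613/2500) * a 8 + (191/250) * b 8 + (-953/2500) * g 8 + (1613/2500) * a 10 + (-191/250) * b 10 + (1/2) * g 10)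
    (pB2 : (-33/5000) * r ≤ (-191/250) * a 1 + (-1613/2500) * b 1 + (297/5000) * g 1 + (191/250) * a 7 + (1613/2500) * b 7 + (-659/10000) * g 7)
    (pC1 : (-33/5000) * r ≤ (-191/250) * a 2 + (-1613/2500) * b 2 + (297/5000) * g 2 + (191/250) * a 6 + (1613/2500) * b 6 + (-4751/10000) * g 6)
    (pD1 : (-33/5000) * r ≤ (-1613/2500) * a 3 + (191/250) * b 3 + (297/5000) * g 3 + (1613/2500) * a 6 + (-191/250) * b 6 + (479/1000) * g 6)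
    (pD4 : (-33/5000) * r ≤ (-191/250) * a 3 + (-1613/2500) * b 3 + (297/5000) * g 3 + (191/250) * a 9 + (1613/2500) * b 9 + (-2391/10000) * g 9)
    (pE2 : (-33/5000) * r ≤ (1613/2500) * a 4 + (-191/250) * b 4 + (297/5000) * g 4 + (-1613/2500) * a 7 + (191/250) * b 7 + (1701/10000) * g 7)
    (pF3 : (-33/5000) * r ≤ (191/250) * a 5 + (1613/2500) * b 5 + (297/5000) * g 5 + (-191/250) * a 8 + (-1613/2500) * b 8 + (-227/2500) * g 8) :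
    (a 8) ≤ r / 2 := by
  linarith

theorem lp_a8m (hl : 0 ≤ l) (hr : 0 ≤ r)
    (wAbp : 0 ≤ 1 * b 0 + (-249/500) * g 0)
    (wAbm : 0 ≤ 1 * b 0 + (249/500) * g 0)
    (wClp : 0 ≤ 1 * a 2 + (-249/500) * g 2)
    (wDlp : 0 ≤ 1 * a 3 + (-249/500) * g 3)
    (wDlm : 0 ≤ 1 * a 3 + (249/500) * g 3)
    (wErp : 0 ≤ (-1) * a 4 + (-249/500) * g 4 + (-1) * l)
    (wEbp : 0 ≤ 1 * b 4 + (-249/500) * g 4)
    (wEbm : 0 ≤ 1 * b 4 + (249/500) * g 4)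
    (wFrp : 0 ≤ (-1) * a 5 + (-249/500) * g 5 + (-1) * l)
    (wFrm : 0 ≤ (-1) * a 5 + (249/500) * g 5 + (-1) * l)
    (wFtp : 0 ≤ (-1) * b 5 + (-249/500) * g 5 + (-1) * l)
    (w4t : (-21/10000) * r ≤ (-1) * b 9 + (-297/5000) * g 9 + (-1) * l)
    (pACp : (-61/10000) * r ≤ (-1) * b 0 + (1/2) * g 0 + 1 * b 2 + (-1/2) * g 2)
    (pACm : (-61/10000) * r ≤ (-1) * b 0 + (-1/2) * g 0 + 1 * b 2 + (1/2) * g 2)
    (p12p : (-61/10000) * r ≤ (-1613/2500) * a 6 + (191/250) * b 6 + (1/2) * g 6 + (1613/2500) * a 7 + (-191/250) * b 7 + (-953/2500) * g 7)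
    (p12m : (-61/10000) * r ≤ (-1613/2500) * a 6 + (191/250) * b 6 + (-953/2500) * g 6 + (1613/2500) * a 7 + (-191/250) * b 7 + (1/2) * g 7)
    (p13p : (-61/10000) * r ≤ (-191/250) * a 6 + (-1613/2500) * b 6 + (1/2) * g 6 + (191/250) * a 8 + (1613/2500) * b 8 + (-4751/10000) * g 8)
    (p13m : (-61/10000) * r ≤ (-191/250) * a 6 + (-1613/2500) * b 6 + (-4751/10000) * g 6 + (191/250) * a 8 + (1613/2500) * b 8 + (1/2) * g 8)
    (p34p : (-61/10000) * r ≤ (1613/2500) * a 8 + (-191/250) * b 8 + (1/2) * g 8 + (-1613/2500) * a 9 + (191/250) * b 9 + (-831/5000) * g 9)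
    (p34m : (-61/10000) * r ≤ (1613/2500) * a 8 + (-191/250) * b 8 + (-831/5000) * g 8 + (-1613/2500) * a 9 + (191/250) * b 9 + (1/2) * g 9)
    (pC1 : (-33/5000) * r ≤ (-191/250) * a 2 + (-1613/2500) * b 2 + (297/5000) * g 2 + (191/250) * a 6 + (1613/2500) * b 6 + (-4751/10000) * g 6)
    (pD1 : (-33/5000) * r ≤ (-1613/2500) * a 3 + (191/250) * b 3 + (297/5000) * g 3 + (1613/2500) * a 6 + (-191/250) * b 6 + (479/1000) * g 6)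
    (pD4 : (-33/5000) * r ≤ (-191/250) * a 3 + (-1613/2500) * b 3 + (297/5000) * g 3 + (191/250) * a 9 + (1613/2500) * b 9 + (-2391/10000) * g 9)
    (pE2 : (-33/5000) * r ≤ (1613/2500) * a 4 + (-191/250) * b 4 + (297/5000) * g 4 + (-1613/2500) * a 7 + (191/250) * b 7 + (1701/10000) * g 7)
    (pF3 : (-33/5000) * r ≤ (191/250) * a 5 + (1613/2500) * b 5 + (297/5000) * g 5 + (-191/250) * a 8 + (-1613/2500) * b 8 + (-227/2500) * g 8) :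
    -(a 8) ≤ r / 2 := by
  linarith

theorem lp_b8p (hl : 0 ≤ l) (hr : 0 ≤ r)
    (wAbp : 0 ≤ 1 * b 0 + (-249/500) * g 0)
    (wAbm : 0 ≤ 1 * b 0 + (249/500) * g 0)
    (wClp : 0 ≤ 1 * a 2 + (-249/500) * g 2)
    (wDlp : 0 ≤ 1 * a 3 + (-249/500) * g 3)
    (wDlm : 0 ≤ 1 * a 3 + (249/500) * g 3)
    (wErp : 0 ≤ (-1) * a 4 + (-249/500) * g 4 + (-1) * l)
    (wEbp : 0 ≤ 1 * b 4 + (-249/500) * g 4)
    (wEbm : 0 ≤ 1 * b 4 + (249/500) * g 4)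
    (wFrp : 0 ≤ (-1) * a 5 + (-249/500) * g 5 + (-1) * l)
    (wFrm : 0 ≤ (-1) * a 5 + (249/500) * g 5 + (-1) * l)
    (wFtp : 0 ≤ (-1) * b 5 + (-249/500) * g 5 + (-1) * l)
    (w4t : (-21/10000) * r ≤ (-1) * b 9 + (-297/5000) * g 9 + (-1) * l)
    (pACp : (-61/10000) * r ≤ (-1) * b 0 + (1/2) * g 0 + 1 * b 2 + (-1/2) * g 2)
    (pACm : (-61/10000) * r ≤ (-1) * b 0 + (-1/2) * g 0 + 1 * b 2 + (1/2) * g 2)
    (p12p : (-61/10000) * r ≤ (-1613/2500) * a 6 + (191/250) * b 6 + (1/2) * g 6 + (1613/2500) * a 7 + (-191/250) * b 7 + (-953/2500) * g 7)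
    (p12m : (-61/10000) * r ≤ (-1613/2500) * a 6 + (191/250) * b 6 + (-953/2500) * g 6 + (1613/2500) * a 7 + (-191/250) * b 7 + (1/2) * g 7)
    (p13p : (-61/10000) * r ≤ (-191/250) * a 6 + (-1613/2500) * b 6 + (1/2) * g 6 + (191/250) * a 8 + (1613/2500) * b 8 + (-4751/10000) * g 8)
    (p13m : (-61/10000) * r ≤ (-191/250) * a 6 + (-1613/2500) * b 6 + (-4751/10000) * g 6 + (191/250) * a 8 + (1613/2500) * b 8 + (1/2) * g 8)
    (p34p : (-61/10000) * r ≤ (1613/2500) * a 8 + (-191/250) * b 8 + (1/2) * g 8 + (-1613/2500) * a 9 + (191/250) * b 9 + (-831/5000) * g 9)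
    (p34m : (-61/10000) * r ≤ (1613/2500) * a 8 + (-191/250) * b 8 + (-831/5000) * g 8 + (-1613/2500) * a 9 + (191/250) * b 9 + (1/2) * g 9)
    (pC1 : (-33/5000) * r ≤ (-191/250) * a 2 + (-1613/2500) * b 2 + (297/5000) * g 2 + (191/250) * a 6 + (1613/2500) * b 6 + (-4751/10000) * g 6)
    (pD1 : (-33/5000) * r ≤ (-1613/2500) * a 3 + (191/250) * b 3 + (297/5000) * g 3 + (1613/2500) * a 6 + (-191/250) * b 6 + (479/1000) * g 6)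
    (pD4 : (-33/5000) * r ≤ (-191/250) * a 3 + (-1613/2500) * b 3 + (297/5000) * g 3 + (191/250) * a 9 + (1613/2500) * b 9 + (-2391/10000) * g 9)
    (pE2 : (-33/5000) * r ≤ (1613/2500) * a 4 + (-191/250) * b 4 + (297/5000) * g 4 + (-1613/2500) * a 7 + (191/250) * b 7 + (1701/10000) * g 7)
    (pF3 : (-33/5000) * r ≤ (191/250) * a 5 + (1613/2500) * b 5 + (297/5000) * g 5 + (-191/250) * a 8 + (-1613/2500) * b 8 + (-227/2500) * g 8) :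
    (b 8) ≤ r / 2 := by
  linarith

theorem lp_b8m (hl : 0 ≤ l) (hr : 0 ≤ r)
    (wAlp : 0 ≤ 1 * a 0 + (-249/500) * g 0)
    (wAbp : 0 ≤ 1 * b 0 + (-249/500) * g 0)
    (wAbm : 0 ≤ 1 * b 0 + (249/500) * g 0)
    (wBbm : 0 ≤ 1 * b 1 + (249/500) * g 1)
    (wClp : 0 ≤ 1 * a 2 + (-249/500) * g 2)
    (wDlp : 0 ≤ 1 * a 3 + (-249/500) * g 3)
    (wDlm : 0 ≤ 1 * a 3 + (249/500) * g 3)
    (wErp : 0 ≤ (-1) * a 4 + (-249/500) * g 4 + (-1) * l)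
    (wEbp : 0 ≤ 1 * b 4 + (-249/500) * g 4)
    (wEbm : 0 ≤ 1 * b 4 + (249/500) * g 4)
    (w4t : (-21/10000) * r ≤ (-1) * b 9 + (-297/5000) * g 9 + (-1) * l)
    (w5r : (-21/10000) * r ≤ (-1) * a 10 + (-297/5000) * g 10 + (-1) * l)
    (pABp : (-61/10000) * r ≤ (-1) * a 0 + (1/2) * g 0 + 1 * a 1 + (-1/2) * g 1)
    (pABm : (-61/10000) * r ≤ (-1) * a 0 + (-1/2) * g 0 + 1 * a 1 + (1/2) * g 1)
    (pACp : (-61/10000) * r ≤ (-1) * b 0 + (1/2) * g 0 + 1 * b 2 + (-1/2) * g 2)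
    (pACm : (-61/10000) * r ≤ (-1) * b 0 + (-1/2) * g 0 + 1 * b 2 + (1/2) * g 2)
    (p12m : (-61/10000) * r ≤ (-1613/2500) * a 6 + (191/250) * b 6 + (-953/2500) * g 6 + (1613/2500) * a 7 + (-191/250) * b 7 + (1/2) * g 7)
    (p13p : (-61/10000) * r ≤ (-191/250) * a 6 + (-1613/2500) * b 6 + (1/2) * g 6 + (191/250) * a 8 + (1613/2500) * b 8 + (-4751/10000) * g 8)
    (p13m : (-61/10000) * r ≤ (-191/250) * a 6 + (-1613/2500) * b 6 + (-4751/10000) * g 6 + (191/250) * a 8 + (1613/2500) * b 8 + (1/2) * g 8)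
    (p25p : (-61/10000) * r ≤ (-191/250) * a 7 + (-1613/2500) * b 7 + (1/2) * g 7 + (191/250) * a 10 + (1613/2500) * b 10 + (-4751/10000) * g 10)
    (p25m : (-61/10000) * r ≤ (-191/250) * a 7 + (-1613/2500) * b 7 + (-4751/10000) * g 7 + (191/250) * a 10 + (1613/2500) * b 10 + (1/2) * g 10)
    (p34p : (-61/10000) * r ≤ (1613/2500) * a 8 + (-191/250) * b 8 + (1/2) * g 8 + (-1613/2500) * a 9 + (191/250) * b 9 + (-831/5000) * g 9)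
    (p34m : (-61/10000) * r ≤ (1613/2500) * a 8 + (-191/250) * b 8 + (-831/5000) * g 8 + (-1613/2500) * a 9 + (191/250) * b 9 + (1/2) * g 9)
    (p35p : (-61/10000) * r ≤ (-1613/2500) * a 8 + (191/250) * b 8 + (1/2) * g 8 + (1613/2500) * a 10 + (-191/250) * b 10 + (-953/2500) * g 10)
    (p35m : (-61/10000) * r ≤ (-1613/2500) * a 8 + (191/250) * b 8 + (-953/2500) * g 8 + (1613/2500) * a 10 + (-191/250) * b 10 + (1/2) * g 10)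
    (pB2 : (-33/5000) * r ≤ (-191/250) * a 1 + (-1613/2500) * b 1 + (297/5000) * g 1 + (191/250) * a 7 + (1613/2500) * b 7 + (-659/10000) * g 7)
    (pC1 : (-33/5000) * r ≤ (-191/250) * a 2 + (-1613/2500) * b 2 + (297/5000) * g 2 + (191/250) * a 6 + (1613/2500) * b 6 + (-4751/10000) * g 6)
    (pD1 : (-33/5000) * r ≤ (-1613/2500) * a 3 + (191/250) * b 3 + (297/5000) * g 3 + (1613/2500) * a 6 + (-191/250) * b 6 + (479/1000) * g 6)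
    (pD4 : (-33/5000) * r ≤ (-191/250) * a 3 + (-1613/2500) * b 3 + (297/5000) * g 3 + (191/250) * a 9 + (1613/2500) * b 9 + (-2391/10000) * g 9)
    (pE2 : (-33/5000) * r ≤ (1613/2500) * a 4 + (-191/250) * b 4 + (297/5000) * g 4 + (-1613/2500) * a 7 + (191/250) * b 7 + (1701/10000) * g 7) :
    -(b 8) ≤ r / 2 := by
  linarith

theorem lp_g8p (hl : 0 ≤ l) (hr : 0 ≤ r)
    (wAbp : 0 ≤ 1 * b 0 + (-249/500) * g 0)
    (wAbm : 0 ≤ 1 * b 0 + (249/500) * g 0)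
    (wClp : 0 ≤ 1 * a 2 + (-249/500) * g 2)
    (wFrp : 0 ≤ (-1) * a 5 + (-249/500) * g 5 + (-1) * l)
    (wFrm : 0 ≤ (-1) * a 5 + (249/500) * g 5 + (-1) * l)
    (wFtp : 0 ≤ (-1) * b 5 + (-249/500) * g 5 + (-1) * l)
    (pACp : (-61/10000) * r ≤ (-1) * b 0 + (1/2) * g 0 + 1 * b 2 + (-1/2) * g 2)
    (pACm : (-61/10000) * r ≤ (-1) * b 0 + (-1/2) * g 0 + 1 * b 2 + (1/2) * g 2)
    (p13p : (-61/10000) * r ≤ (-191/250) * a 6 + (-1613/2500) * b 6 + (1/2) * g 6 + (191/250) * a 8 + (1613/2500) * b 8 + (-4751/10000) * g 8)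
    (p13m : (-61/10000) * r ≤ (-191/250) * a 6 + (-1613/2500) * b 6 + (-4751/10000) * g 6 + (191/250) * a 8 + (1613/2500) * b 8 + (1/2) * g 8)
    (pC1 : (-33/5000) * r ≤ (-191/250) * a 2 + (-1613/2500) * b 2 + (297/5000) * g 2 + (191/250) * a 6 + (1613/2500) * b 6 + (-4751/10000) * g 6)
    (pF3 : (-33/5000) * r ≤ (191/250) * a 5 + (1613/2500) * b 5 + (297/5000) * g 5 + (-191/250) * a 8 + (-1613/2500) * b 8 + (-227/2500) * g 8) :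
    (g 8) ≤ r / 2 := by
  linarith

theorem lp_g8m (hl : 0 ≤ l) (hr : 0 ≤ r)
    (wAlp : 0 ≤ 1 * a 0 + (-249/500) * g 0)
    (wAbp : 0 ≤ 1 * b 0 + (-249/500) * g 0)
    (wAbm : 0 ≤ 1 * b 0 + (249/500) * g 0)
    (wBbm : 0 ≤ 1 * b 1 + (249/500) * g 1)
    (wClp : 0 ≤ 1 * a 2 + (-249/500) * g 2)
    (wDlp : 0 ≤ 1 * a 3 + (-249/500) * g 3)
    (wDlm : 0 ≤ 1 * a 3 + (249/500) * g 3)
    (wErp : 0 ≤ (-1) * a 4 + (-249/500) * g 4 + (-1) * l)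
    (wEbp : 0 ≤ 1 * b 4 + (-249/500) * g 4)
    (wEbm : 0 ≤ 1 * b 4 + (249/500) * g 4)
    (wFrp : 0 ≤ (-1) * a 5 + (-249/500) * g 5 + (-1) * l)
    (wFrm : 0 ≤ (-1) * a 5 + (249/500) * g 5 + (-1) * l)
    (wFtp : 0 ≤ (-1) * b 5 + (-249/500) * g 5 + (-1) * l)
    (w4t : (-21/10000) * r ≤ (-1) * b 9 + (-297/5000) * g 9 + (-1) * l)
    (w5r : (-21/10000) * r ≤ (-1) * a 10 + (-297/5000) * g 10 + (-1) * l)
    (pABp : (-61/10000) * r ≤ (-1) * a 0 + (1/2) * g 0 + 1 * a 1 + (-1/2) * g 1)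
    (pABm : (-61/10000) * r ≤ (-1) * a 0 + (-1/2) * g 0 + 1 * a 1 + (1/2) * g 1)
    (pACp : (-61/10000) * r ≤ (-1) * b 0 + (1/2) * g 0 + 1 * b 2 + (-1/2) * g 2)
    (pACm : (-61/10000) * r ≤ (-1) * b 0 + (-1/2) * g 0 + 1 * b 2 + (1/2) * g 2)
    (p12m : (-61/10000) * r ≤ (-1613/2500) * a 6 + (191/250) * b 6 + (-953/2500) * g 6 + (1613/2500) * a 7 + (-191/250) * b 7 + (1/2) * g 7)
    (p13m : (-61/10000) * r ≤ (-191/250) * a 6 + (-1613/2500) * b 6 + (-4751/10000) * g 6 + (191/250) * a 8 + (1613/2500) * b 8 + (1/2) * g 8)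
    (p25p : (-61/10000) * r ≤ (-191/250) * a 7 + (-1613/2500) * b 7 + (1/2) * g 7 + (191/250) * a 10 + (1613/2500) * b 10 + (-4751/10000) * g 10)
    (p25m : (-61/10000) * r ≤ (-191/250) * a 7 + (-1613/2500) * b 7 + (-4751/10000) * g 7 + (191/250) * a 10 + (1613/2500) * b 10 + (1/2) * g 10)
    (p34p : (-61/10000) * r ≤ (1613/2500) * a 8 + (-191/250) * b 8 + (1/2) * g 8 + (-1613/2500) * a 9 + (191/250) * b 9 + (-831/5000) * g 9)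
    (p34m : (-61/10000) * r ≤ (1613/2500) * a 8 + (-191/250) * b 8 + (-831/5000) * g 8 + (-1613/2500) * a 9 + (191/250) * b 9 + (1/2) * g 9)
    (p35p : (-61/10000) * r ≤ (-1613/2500) * a 8 + (191/250) * b 8 + (1/2) * g 8 + (1613/2500) * a 10 + (-191/250) * b 10 + (-953/2500) * g 10)
    (p35m : (-61/10000) * r ≤ (-1613/2500) * a 8 + (191/250) * b 8 + (-953/2500) * g 8 + (1613/2500) * a 10 + (-191/250) * b 10 + (1/2) * g 10)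
    (pB2 : (-33/5000) * r ≤ (-191/250) * a 1 + (-1613/2500) * b 1 + (297/5000) * g 1 + (191/250) * a 7 + (1613/2500) * b 7 + (-659/10000) * g 7)
    (pC1 : (-33/5000) * r ≤ (-191/250) * a 2 + (-1613/2500) * b 2 + (297/5000) * g 2 + (191/250) * a 6 + (1613/2500) * b 6 + (-4751/10000) * g 6)
    (pD1 : (-33/5000) * r ≤ (-1613/2500) * a 3 + (191/250) * b 3 + (297/5000) * g 3 + (1613/2500) * a 6 + (-191/250) * b 6 + (479/1000) * g 6)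
    (pD4 : (-33/5000) * r ≤ (-191/250) * a 3 + (-1613/2500) * b 3 + (297/5000) * g 3 + (191/250) * a 9 + (1613/2500) * b 9 + (-2391/10000) * g 9)
    (pE2 : (-33/5000) * r ≤ (1613/2500) * a 4 + (-191/250) * b 4 + (297/5000) * g 4 + (-1613/2500) * a 7 + (191/250) * b 7 + (1701/10000) * g 7)
    (pF3 : (-33/5000) * r ≤ (191/250) * a 5 + (1613/2500) * b 5 + (297/5000) * g 5 + (-191/250) * a 8 + (-1613/2500) * b 8 + (-227/2500) * g 8) :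
    -(g 8) ≤ r / 2 := by
  linarith

theorem lp_a9p (hl : 0 ≤ l) (hr : 0 ≤ r)
    (wAlp : 0 ≤ 1 * a 0 + (-249/500) * g 0)
    (wAbp : 0 ≤ 1 * b 0 + (-249/500) * g 0)
    (wAbm : 0 ≤ 1 * b 0 + (249/500) * g 0)
    (wBbm : 0 ≤ 1 * b 1 + (249/500) * g 1)
    (wClp : 0 ≤ 1 * a 2 + (-249/500) * g 2)
    (wFrp : 0 ≤ (-1) * a 5 + (-249/500) * g 5 + (-1) * l)
    (wFrm : 0 ≤ (-1) * a 5 + (249/500) * g 5 + (-1) * l)
    (wFtp : 0 ≤ (-1) * b 5 + (-249/500) * g 5 + (-1) * l)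
    (w4t : (-21/10000) * r ≤ (-1) * b 9 + (-297/5000) * g 9 + (-1) * l)
    (w5r : (-21/10000) * r ≤ (-1) * a 10 + (-297/5000) * g 10 + (-1) * l)
    (pABp : (-61/10000) * r ≤ (-1) * a 0 + (1/2) * g 0 + 1 * a 1 + (-1/2) * g 1)
    (pABm : (-61/10000) * r ≤ (-1) * a 0 + (-1/2) * g 0 + 1 * a 1 + (1/2) * g 1)
    (pACp : (-61/10000) * r ≤ (-1) * b 0 + (1/2) * g 0 + 1 * b 2 + (-1/2) * g 2)
    (pACm : (-61/10000) * r ≤ (-1) * b 0 + (-1/2) * g 0 + 1 * b 2 + (1/2) * g 2)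
    (p13p : (-61/10000) * r ≤ (-191/250) * a 6 + (-1613/2500) * b 6 + (1/2) * g 6 + (191/250) * a 8 + (1613/2500) * b 8 + (-4751/10000) * g 8)
    (p13m : (-61/10000) * r ≤ (-191/250) * a 6 + (-1613/2500) * b 6 + (-4751/10000) * g 6 + (191/250) * a 8 + (1613/2500) * b 8 + (1/2) * g 8)
    (p25p : (-61/10000) * r ≤ (-191/250) * a 7 + (-1613/2500) * b 7 + (1/2) * g 7 + (191/250) * a 10 + (1613/2500) * b 10 + (-4751/10000) * g 10)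
    (p25m : (-61/10000) * r ≤ (-191/250) * a 7 + (-1613/2500) * b 7 + (-4751/10000) * g 7 + (191/250) * a 10 + (1613/2500) * b 10 + (1/2) * g 10)
    (p34p : (-61/10000) * r ≤ (1613/2500) * a 8 + (-191/250) * b 8 + (1/2) * g 8 + (-1613/2500) * a 9 + (191/250) * b 9 + (-831/5000) * g 9)
    (p34m : (-61/10000) * r ≤ (1613/2500) * a 8 + (-191/250) * b 8 + (-831/5000) * g 8 + (-1613/2500) * a 9 + (191/250) * b 9 + (1/2) * g 9)
    (p35p : (-61/10000) * r ≤ (-1613/2500) * a 8 + (191/250) * b 8 + (1/2) * g 8 + (1613/2500) * a 10 + (-191/250) * b 10 + (-953/2500) * g 10)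
    (p35m : (-61/10000) * r ≤ (-1613/2500) * a 8 + (191/250) * b 8 + (-953/2500) * g 8 + (1613/2500) * a 10 + (-191/250) * b 10 + (1/2) * g 10)
    (pB2 : (-33/5000) * r ≤ (-191/250) * a 1 + (-1613/2500) * b 1 + (297/5000) * g 1 + (191/250) * a 7 + (1613/2500) * b 7 + (-659/10000) * g 7)
    (pC1 : (-33/5000) * r ≤ (-191/250) * a 2 + (-1613/2500) * b 2 + (297/5000) * g 2 + (191/250) * a 6 + (1613/2500) * b 6 + (-4751/10000) * g 6)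
    (pF3 : (-33/5000) * r ≤ (191/250) * a 5 + (1613/2500) * b 5 + (297/5000) * g 5 + (-191/250) * a 8 + (-1613/2500) * b 8 + (-227/2500) * g 8) :
    (a 9) ≤ r / 2 := by
  linarith

theorem lp_a9m (hl : 0 ≤ l) (hr : 0 ≤ r)
    (wAlp : 0 ≤ 1 * a 0 + (-249/500) * g 0)
    (wAbp : 0 ≤ 1 * b 0 + (-249/500) * g 0)
    (wAbm : 0 ≤ 1 * b 0 + (249/500) * g 0)
    (wBbm : 0 ≤ 1 * b 1 + (249/500) * g 1)
    (wClp : 0 ≤ 1 * a 2 + (-249/500) * g 2)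
    (wDlp : 0 ≤ 1 * a 3 + (-249/500) * g 3)
    (wDlm : 0 ≤ 1 * a 3 + (249/500) * g 3)
    (wErp : 0 ≤ (-1) * a 4 + (-249/500) * g 4 + (-1) * l)
    (wEbp : 0 ≤ 1 * b 4 + (-249/500) * g 4)
    (wEbm : 0 ≤ 1 * b 4 + (249/500) * g 4)
    (wFrp : 0 ≤ (-1) * a 5 + (-249/500) * g 5 + (-1) * l)
    (wFrm : 0 ≤ (-1) * a 5 + (249/500) * g 5 + (-1) * l)
    (wFtp : 0 ≤ (-1) * b 5 + (-249/500) * g 5 + (-1) * l)
    (w4t : (-21/10000) * r ≤ (-1) * b 9 + (-297/5000) * g 9 + (-1) * l)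
    (w5r : (-21/10000) * r ≤ (-1) * a 10 + (-297/5000) * g 10 + (-1) * l)
    (pABp : (-61/10000) * r ≤ (-1) * a 0 + (1/2) * g 0 + 1 * a 1 + (-1/2) * g 1)
    (pABm : (-61/10000) * r ≤ (-1) * a 0 + (-1/2) * g 0 + 1 * a 1 + (1/2) * g 1)
    (pACp : (-61/10000) * r ≤ (-1) * b 0 + (1/2) * g 0 + 1 * b 2 + (-1/2) * g 2)
    (pACm : (-61/10000) * r ≤ (-1) * b 0 + (-1/2) * g 0 + 1 * b 2 + (1/2) * g 2)
    (p12p : (-61/10000) * r ≤ (-1613/2500) * a 6 + (191/250) * b 6 + (1/2) * g 6 + (1613/2500) * a 7 + (-191/250) * b 7 + (-953/2500) * g 7)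
    (p12m : (-61/10000) * r ≤ (-1613/2500) * a 6 + (191/250) * b 6 + (-953/2500) * g 6 + (1613/2500) * a 7 + (-191/250) * b 7 + (1/2) * g 7)
    (p13p : (-61/10000) * r ≤ (-191/250) * a 6 + (-1613/2500) * b 6 + (1/2) * g 6 + (191/250) * a 8 + (1613/2500) * b 8 + (-4751/10000) * g 8)
    (p13m : (-61/10000) * r ≤ (-191/250) * a 6 + (-1613/2500) * b 6 + (-4751/10000) * g 6 + (191/250) * a 8 + (1613/2500) * b 8 + (1/2) * g 8)
    (p25p : (-61/10000) * r ≤ (-191/250) * a 7 + (-1613/2500) * b 7 + (1/2) * g 7 + (191/250) * a 10 + (1613/2500) * b 10 + (-4751/10000) * g 10)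
    (p25m : (-61/10000) * r ≤ (-191/250) * a 7 + (-1613/2500) * b 7 + (-4751/10000) * g 7 + (191/250) * a 10 + (1613/2500) * b 10 + (1/2) * g 10)
    (p34m : (-61/10000) * r ≤ (1613/2500) * a 8 + (-191/250) * b 8 + (-831/5000) * g 8 + (-1613/2500) * a 9 + (191/250) * b 9 + (1/2) * g 9)
    (p35p : (-61/10000) * r ≤ (-1613/2500) * a 8 + (191/250) * b 8 + (1/2) * g 8 + (1613/2500) * a 10 + (-191/250) * b 10 + (-953/2500) * g 10)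
    (pB2 : (-33/5000) * r ≤ (-191/250) * a 1 + (-1613/2500) * b 1 + (297/5000) * g 1 + (191/250) * a 7 + (1613/2500) * b 7 + (-659/10000) * g 7)
    (pC1 : (-33/5000) * r ≤ (-191/250) * a 2 + (-1613/2500) * b 2 + (297/5000) * g 2 + (191/250) * a 6 + (1613/2500) * b 6 + (-4751/10000) * g 6)
    (pD1 : (-33/5000) * r ≤ (-1613/2500) * a 3 + (191/250) * b 3 + (297/5000) * g 3 + (1613/2500) * a 6 + (-191/250) * b 6 + (479/1000) * g 6)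
    (pD4 : (-33/5000) * r ≤ (-191/250) * a 3 + (-1613/2500) * b 3 + (297/5000) * g 3 + (191/250) * a 9 + (1613/2500) * b 9 + (-2391/10000) * g 9)
    (pE2 : (-33/5000) * r ≤ (1613/2500) * a 4 + (-191/250) * b 4 + (297/5000) * g 4 + (-1613/2500) * a 7 + (191/250) * b 7 + (1701/10000) * g 7)
    (pF3 : (-33/5000) * r ≤ (191/250) * a 5 + (1613/2500) * b 5 + (297/5000) * g 5 + (-191/250) * a 8 + (-1613/2500) * b 8 + (-227/2500) * g 8) :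
    -(a 9) ≤ r / 2 := by
  linarith

theorem lp_b9p (hl : 0 ≤ l) (hr : 0 ≤ r)
    (wAlp : 0 ≤ 1 * a 0 + (-249/500) * g 0)
    (wAbp : 0 ≤ 1 * b 0 + (-249/500) * g 0)
    (wAbm : 0 ≤ 1 * b 0 + (249/500) * g 0)
    (wBbm : 0 ≤ 1 * b 1 + (249/500) * g 1)
    (wClp : 0 ≤ 1 * a 2 + (-249/500) * g 2)
    (wDlp : 0 ≤ 1 * a 3 + (-249/500) * g 3)
    (wDlm : 0 ≤ 1 * a 3 + (249/500) * g 3)
    (wErp : 0 ≤ (-1) * a 4 + (-249/500) * g 4 + (-1) * l)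
    (wEbp : 0 ≤ 1 * b 4 + (-249/500) * g 4)
    (wEbm : 0 ≤ 1 * b 4 + (249/500) * g 4)
    (wFrp : 0 ≤ (-1) * a 5 + (-249/500) * g 5 + (-1) * l)
    (wFrm : 0 ≤ (-1) * a 5 + (249/500) * g 5 + (-1) * l)
    (wFtp : 0 ≤ (-1) * b 5 + (-249/500) * g 5 + (-1) * l)
    (w4t : (-21/10000) * r ≤ (-1) * b 9 + (-297/5000) * g 9 + (-1) * l)
    (w5r : (-21/10000) * r ≤ (-1) * a 10 + (-297/5000) * g 10 + (-1) * l)
    (pABp : (-61/10000) * r ≤ (-1) * a 0 + (1/2) * g 0 + 1 * a 1 + (-1/2) * g 1)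
    (pABm : (-61/10000) * r ≤ (-1) * a 0 + (-1/2) * g 0 + 1 * a 1 + (1/2) * g 1)
    (pACp : (-61/10000) * r ≤ (-1) * b 0 + (1/2) * g 0 + 1 * b 2 + (-1/2) * g 2)
    (pACm : (-61/10000) * r ≤ (-1) * b 0 + (-1/2) * g 0 + 1 * b 2 + (1/2) * g 2)
    (p12m : (-61/10000) * r ≤ (-1613/2500) * a 6 + (191/250) * b 6 + (-953/2500) * g 6 + (1613/2500) * a 7 + (-191/250) * b 7 + (1/2) * g 7)
    (p13p : (-61/10000) * r ≤ (-191/250) * a 6 + (-1613/2500) * b 6 + (1/2) * g 6 + (191/250) * a 8 + (1613/2500) * b 8 + (-4751/10000) * g 8)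
    (p13m : (-61/10000) * r ≤ (-191/250) * a 6 + (-1613/2500) * b 6 + (-4751/10000) * g 6 + (191/250) * a 8 + (1613/2500) * b 8 + (1/2) * g 8)
    (p25p : (-61/10000) * r ≤ (-191/250) * a 7 + (-1613/2500) * b 7 + (1/2) * g 7 + (191/250) * a 10 + (1613/2500) * b 10 + (-4751/10000) * g 10)
    (p25m : (-61/10000) * r ≤ (-191/250) * a 7 + (-1613/2500) * b 7 + (-4751/10000) * g 7 + (191/250) * a 10 + (1613/2500) * b 10 + (1/2) * g 10)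
    (p34m : (-61/10000) * r ≤ (1613/2500) * a 8 + (-191/250) * b 8 + (-831/5000) * g 8 + (-1613/2500) * a 9 + (191/250) * b 9 + (1/2) * g 9)
    (p35p : (-61/10000) * r ≤ (-1613/2500) * a 8 + (191/250) * b 8 + (1/2) * g 8 + (1613/2500) * a 10 + (-191/250) * b 10 + (-953/2500) * g 10)
    (p35m : (-61/10000) * r ≤ (-1613/2500) * a 8 + (191/250) * b 8 + (-953/2500) * g 8 + (1613/2500) * a 10 + (-191/250) * b 10 + (1/2) * g 10)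
    (pB2 : (-33/5000) * r ≤ (-191/250) * a 1 + (-1613/2500) * b 1 + (297/5000) * g 1 + (191/250) * a 7 + (1613/2500) * b 7 + (-659/10000) * g 7)
    (pC1 : (-33/5000) * r ≤ (-191/250) * a 2 + (-1613/2500) * b 2 + (297/5000) * g 2 + (191/250) * a 6 + (1613/2500) * b 6 + (-4751/10000) * g 6)
    (pD1 : (-33/5000) * r ≤ (-1613/2500) * a 3 + (191/250) * b 3 + (297/5000) * g 3 + (1613/2500) * a 6 + (-191/250) * b 6 + (479/1000) * g 6)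
    (pD4 : (-33/5000) * r ≤ (-191/250) * a 3 + (-1613/2500) * b 3 + (297/5000) * g 3 + (191/250) * a 9 + (1613/2500) * b 9 + (-2391/10000) * g 9)
    (pE2 : (-33/5000) * r ≤ (1613/2500) * a 4 + (-191/250) * b 4 + (297/5000) * g 4 + (-1613/2500) * a 7 + (191/250) * b 7 + (1701/10000) * g 7)
    (pF3 : (-33/5000) * r ≤ (191/250) * a 5 + (1613/2500) * b 5 + (297/5000) * g 5 + (-191/250) * a 8 + (-1613/2500) * b 8 + (-227/2500) * g 8) :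
    (b 9) ≤ r / 2 := by
  linarith

theorem lp_b9m (hl : 0 ≤ l) (hr : 0 ≤ r)
    (wAlp : 0 ≤ 1 * a 0 + (-249/500) * g 0)
    (wAbp : 0 ≤ 1 * b 0 + (-249/500) * g 0)
    (wAbm : 0 ≤ 1 * b 0 + (249/500) * g 0)
    (wBbm : 0 ≤ 1 * b 1 + (249/500) * g 1)
    (wClp : 0 ≤ 1 * a 2 + (-249/500) * g 2)
    (wDlp : 0 ≤ 1 * a 3 + (-249/500) * g 3)
    (wDlm : 0 ≤ 1 * a 3 + (249/500) * g 3)
    (wErp : 0 ≤ (-1) * a 4 + (-249/500) * g 4 + (-1) * l)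
    (wEbp : 0 ≤ 1 * b 4 + (-249/500) * g 4)
    (wEbm : 0 ≤ 1 * b 4 + (249/500) * g 4)
    (wFrp : 0 ≤ (-1) * a 5 + (-249/500) * g 5 + (-1) * l)
    (wFrm : 0 ≤ (-1) * a 5 + (249/500) * g 5 + (-1) * l)
    (wFtp : 0 ≤ (-1) * b 5 + (-249/500) * g 5 + (-1) * l)
    (w5r : (-21/10000) * r ≤ (-1) * a 10 + (-297/5000) * g 10 + (-1) * l)
    (pABp : (-61/10000) * r ≤ (-1) * a 0 + (1/2) * g 0 + 1 * a 1 + (-1/2) * g 1)
    (pABm : (-61/10000) * r ≤ (-1) * a 0 + (-1/2) * g 0 + 1 * a 1 + (1/2) * g 1)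
    (pACp : (-61/10000) * r ≤ (-1) * b 0 + (1/2) * g 0 + 1 * b 2 + (-1/2) * g 2)
    (pACm : (-61/10000) * r ≤ (-1) * b 0 + (-1/2) * g 0 + 1 * b 2 + (1/2) * g 2)
    (p12m : (-61/10000) * r ≤ (-1613/2500) * a 6 + (191/250) * b 6 + (-953/2500) * g 6 + (1613/2500) * a 7 + (-191/250) * b 7 + (1/2) * g 7)
    (p13p : (-61/10000) * r ≤ (-191/250) * a 6 + (-1613/2500) * b 6 + (1/2) * g 6 + (191/250) * a 8 + (1613/2500) * b 8 + (-4751/10000) * g 8)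
    (p13m : (-61/10000) * r ≤ (-191/250) * a 6 + (-1613/2500) * b 6 + (-4751/10000) * g 6 + (191/250) * a 8 + (1613/2500) * b 8 + (1/2) * g 8)
    (p25p : (-61/10000) * r ≤ (-191/250) * a 7 + (-1613/2500) * b 7 + (1/2) * g 7 + (191/250) * a 10 + (1613/2500) * b 10 + (-4751/10000) * g 10)
    (p25m : (-61/10000) * r ≤ (-191/250) * a 7 + (-1613/2500) * b 7 + (-4751/10000) * g 7 + (191/250) * a 10 + (1613/2500) * b 10 + (1/2) * g 10)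
    (p34p : (-61/10000) * r ≤ (1613/2500) * a 8 + (-191/250) * b 8 + (1/2) * g 8 + (-1613/2500) * a 9 + (191/250) * b 9 + (-831/5000) * g 9)
    (p34m : (-61/10000) * r ≤ (1613/2500) * a 8 + (-191/250) * b 8 + (-831/5000) * g 8 + (-1613/2500) * a 9 + (191/250) * b 9 + (1/2) * g 9)
    (p35p : (-61/10000) * r ≤ (-1613/2500) * a 8 + (191/250) * b 8 + (1/2) * g 8 + (1613/2500) * a 10 + (-191/250) * b 10 + (-953/2500) * g 10)
    (p35m : (-61/10000) * r ≤ (-1613/2500) * a 8 + (191/250) * b 8 + (-953/2500) * g 8 + (1613/2500) * a 10 + (-191/250) * b 10 + (1/2) * g 10)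
    (pB2 : (-33/5000) * r ≤ (-191/250) * a 1 + (-1613/2500) * b 1 + (297/5000) * g 1 + (191/250) * a 7 + (1613/2500) * b 7 + (-659/10000) * g 7)
    (pC1 : (-33/5000) * r ≤ (-191/250) * a 2 + (-1613/2500) * b 2 + (297/5000) * g 2 + (191/250) * a 6 + (1613/2500) * b 6 + (-4751/10000) * g 6)
    (pD1 : (-33/5000) * r ≤ (-1613/2500) * a 3 + (191/250) * b 3 + (297/5000) * g 3 + (1613/2500) * a 6 + (-191/250) * b 6 + (479/1000) * g 6)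
    (pD4 : (-33/5000) * r ≤ (-191/250) * a 3 + (-1613/2500) * b 3 + (297/5000) * g 3 + (191/250) * a 9 + (1613/2500) * b 9 + (-2391/10000) * g 9)
    (pE2 : (-33/5000) * r ≤ (1613/2500) * a 4 + (-191/250) * b 4 + (297/5000) * g 4 + (-1613/2500) * a 7 + (191/250) * b 7 + (1701/10000) * g 7)
    (pF3 : (-33/5000) * r ≤ (191/250) * a 5 + (1613/2500) * b 5 + (297/5000) * g 5 + (-191/250) * a 8 + (-1613/2500) * b 8 + (-227/2500) * g 8) :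
    -(b 9) ≤ r / 2 := by
  linarith

theorem lp_g9p (hl : 0 ≤ l) (hr : 0 ≤ r)
    (wAlp : 0 ≤ 1 * a 0 + (-249/500) * g 0)
    (wAbp : 0 ≤ 1 * b 0 + (-249/500) * g 0)
    (wAbm : 0 ≤ 1 * b 0 + (249/500) * g 0)
    (wBbm : 0 ≤ 1 * b 1 + (249/500) * g 1)
    (wClp : 0 ≤ 1 * a 2 + (-249/500) * g 2)
    (wDlp : 0 ≤ 1 * a 3 + (-249/500) * g 3)
    (wDlm : 0 ≤ 1 * a 3 + (249/500) * g 3)
    (wErp : 0 ≤ (-1) * a 4 + (-249/500) * g 4 + (-1) * l)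
    (wEbp : 0 ≤ 1 * b 4 + (-249/500) * g 4)
    (wEbm : 0 ≤ 1 * b 4 + (249/500) * g 4)
    (wFrp : 0 ≤ (-1) * a 5 + (-249/500) * g 5 + (-1) * l)
    (wFrm : 0 ≤ (-1) * a 5 + (249/500) * g 5 + (-1) * l)
    (wFtp : 0 ≤ (-1) * b 5 + (-249/500) * g 5 + (-1) * l)
    (w4t : (-21/10000) * r ≤ (-1) * b 9 + (-297/5000) * g 9 + (-1) * l)
    (w5r : (-21/10000) * r ≤ (-1) * a 10 + (-297/5000) * g 10 + (-1) * l)
    (pABp : (-61/10000) * r ≤ (-1) * a 0 + (1/2) * g 0 + 1 * a 1 + (-1/2) * g 1)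
    (pABm : (-61/10000) * r ≤ (-1) * a 0 + (-1/2) * g 0 + 1 * a 1 + (1/2) * g 1)
    (pACp : (-61/10000) * r ≤ (-1) * b 0 + (1/2) * g 0 + 1 * b 2 + (-1/2) * g 2)
    (pACm : (-61/10000) * r ≤ (-1) * b 0 + (-1/2) * g 0 + 1 * b 2 + (1/2) * g 2)
    (p12m : (-61/10000) * r ≤ (-1613/2500) * a 6 + (191/250) * b 6 + (-953/2500) * g 6 + (1613/2500) * a 7 + (-191/250) * b 7 + (1/2) * g 7)
    (p13p : (-61/10000) * r ≤ (-191/250) * a 6 + (-1613/2500) * b 6 + (1/2) * g 6 + (191/250) * a 8 + (1613/2500) * b 8 + (-4751/10000) * g 8)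
    (p13m : (-61/10000) * r ≤ (-191/250) * a 6 + (-1613/2500) * b 6 + (-4751/10000) * g 6 + (191/250) * a 8 + (1613/2500) * b 8 + (1/2) * g 8)
    (p25p : (-61/10000) * r ≤ (-191/250) * a 7 + (-1613/2500) * b 7 + (1/2) * g 7 + (191/250) * a 10 + (1613/2500) * b 10 + (-4751/10000) * g 10)
    (p25m : (-61/10000) * r ≤ (-191/250) * a 7 + (-1613/2500) * b 7 + (-4751/10000) * g 7 + (191/250) * a 10 + (1613/2500) * b 10 + (1/2) * g 10)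
    (p34p : (-61/10000) * r ≤ (1613/2500) * a 8 + (-191/250) * b 8 + (1/2) * g 8 + (-1613/2500) * a 9 + (191/250) * b 9 + (-831/5000) * g 9)
    (p35p : (-61/10000) * r ≤ (-1613/2500) * a 8 + (191/250) * b 8 + (1/2) * g 8 + (1613/2500) * a 10 + (-191/250) * b 10 + (-953/2500) * g 10)
    (p35m : (-61/10000) * r ≤ (-1613/2500) * a 8 + (191/250) * b 8 + (-953/2500) * g 8 + (1613/2500) * a 10 + (-191/250) * b 10 + (1/2) * g 10)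
    (pB2 : (-33/5000) * r ≤ (-191/250) * a 1 + (-1613/2500) * b 1 + (297/5000) * g 1 + (191/250) * a 7 + (1613/2500) * b 7 + (-659/10000) * g 7)
    (pC1 : (-33/5000) * r ≤ (-191/250) * a 2 + (-1613/2500) * b 2 + (297/5000) * g 2 + (191/250) * a 6 + (1613/2500) * b 6 + (-4751/10000) * g 6)
    (pD1 : (-33/5000) * r ≤ (-1613/2500) * a 3 + (191/250) * b 3 + (297/5000) * g 3 + (1613/2500) * a 6 + (-191/250) * b 6 + (479/1000) * g 6)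
    (pD4 : (-33/5000) * r ≤ (-191/250) * a 3 + (-1613/2500) * b 3 + (297/5000) * g 3 + (191/250) * a 9 + (1613/2500) * b 9 + (-2391/10000) * g 9)
    (pE2 : (-33/5000) * r ≤ (1613/2500) * a 4 + (-191/250) * b 4 + (297/5000) * g 4 + (-1613/2500) * a 7 + (191/250) * b 7 + (1701/10000) * g 7)
    (pF3 : (-33/5000) * r ≤ (191/250) * a 5 + (1613/2500) * b 5 + (297/5000) * g 5 + (-191/250) * a 8 + (-1613/2500) * b 8 + (-227/2500) * g 8) :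
    (g 9) ≤ r / 2 := by
  linarith

theorem lp_g9m (hl : 0 ≤ l) (hr : 0 ≤ r)
    (wAlp : 0 ≤ 1 * a 0 + (-249/500) * g 0)
    (wAbp : 0 ≤ 1 * b 0 + (-249/500) * g 0)
    (wAbm : 0 ≤ 1 * b 0 + (249/500) * g 0)
    (wBbm : 0 ≤ 1 * b 1 + (249/500) * g 1)
    (wClp : 0 ≤ 1 * a 2 + (-249/500) * g 2)
    (wDlp : 0 ≤ 1 * a 3 + (-249/500) * g 3)
    (wDlm : 0 ≤ 1 * a 3 + (249/500) * g 3)
    (wErp : 0 ≤ (-1) * a 4 + (-249/500) * g 4 + (-1) * l)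
    (wEbp : 0 ≤ 1 * b 4 + (-249/500) * g 4)
    (wEbm : 0 ≤ 1 * b 4 + (249/500) * g 4)
    (wFrp : 0 ≤ (-1) * a 5 + (-249/500) * g 5 + (-1) * l)
    (wFrm : 0 ≤ (-1) * a 5 + (249/500) * g 5 + (-1) * l)
    (wFtp : 0 ≤ (-1) * b 5 + (-249/500) * g 5 + (-1) * l)
    (w4t : (-21/10000) * r ≤ (-1) * b 9 + (-297/5000) * g 9 + (-1) * l)
    (w5r : (-21/10000) * r ≤ (-1) * a 10 + (-297/5000) * g 10 + (-1) * l)
    (pABp : (-61/10000) * r ≤ (-1) * a 0 + (1/2) * g 0 + 1 * a 1 + (-1/2) * g 1)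
    (pABm : (-61/10000) * r ≤ (-1) * a 0 + (-1/2) * g 0 + 1 * a 1 + (1/2) * g 1)
    (pACp : (-61/10000) * r ≤ (-1) * b 0 + (1/2) * g 0 + 1 * b 2 + (-1/2) * g 2)
    (pACm : (-61/10000) * r ≤ (-1) * b 0 + (-1/2) * g 0 + 1 * b 2 + (1/2) * g 2)
    (p12m : (-61/10000) * r ≤ (-1613/2500) * a 6 + (191/250) * b 6 + (-953/2500) * g 6 + (1613/2500) * a 7 + (-191/250) * b 7 + (1/2) * g 7)
    (p13p : (-61/10000) * r ≤ (-191/250) * a 6 + (-1613/2500) * b 6 + (1/2) * g 6 + (191/250) * a 8 + (1613/2500) * b 8 + (-4751/10000) * g 8)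
    (p13m : (-61/10000) * r ≤ (-191/250) * a 6 + (-1613/2500) * b 6 + (-4751/10000) * g 6 + (191/250) * a 8 + (1613/2500) * b 8 + (1/2) * g 8)
    (p25p : (-61/10000) * r ≤ (-191/250) * a 7 + (-1613/2500) * b 7 + (1/2) * g 7 + (191/250) * a 10 + (1613/2500) * b 10 + (-4751/10000) * g 10)
    (p25m : (-61/10000) * r ≤ (-191/250) * a 7 + (-1613/2500) * b 7 + (-4751/10000) * g 7 + (191/250) * a 10 + (1613/2500) * b 10 + (1/2) * g 10)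
    (p34m : (-61/10000) * r ≤ (1613/2500) * a 8 + (-191/250) * b 8 + (-831/5000) * g 8 + (-1613/2500) * a 9 + (191/250) * b 9 + (1/2) * g 9)
    (p35p : (-61/10000) * r ≤ (-1613/2500) * a 8 + (191/250) * b 8 + (1/2) * g 8 + (1613/2500) * a 10 + (-191/250) * b 10 + (-953/2500) * g 10)
    (p35m : (-61/10000) * r ≤ (-1613/2500) * a 8 + (191/250) * b 8 + (-953/2500) * g 8 + (1613/2500) * a 10 + (-191/250) * b 10 + (1/2) * g 10)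
    (pB2 : (-33/5000) * r ≤ (-191/250) * a 1 + (-1613/2500) * b 1 + (297/5000) * g 1 + (191/250) * a 7 + (1613/2500) * b 7 + (-659/10000) * g 7)
    (pC1 : (-33/5000) * r ≤ (-191/250) * a 2 + (-1613/2500) * b 2 + (297/5000) * g 2 + (191/250) * a 6 + (1613/2500) * b 6 + (-4751/10000) * g 6)
    (pD1 : (-33/5000) * r ≤ (-1613/2500) * a 3 + (191/250) * b 3 + (297/5000) * g 3 + (1613/2500) * a 6 + (-191/250) * b 6 + (479/1000) * g 6)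
    (pD4 : (-33/5000) * r ≤ (-191/250) * a 3 + (-1613/2500) * b 3 + (297/5000) * g 3 + (191/250) * a 9 + (1613/2500) * b 9 + (-2391/10000) * g 9)
    (pE2 : (-33/5000) * r ≤ (1613/2500) * a 4 + (-191/250) * b 4 + (297/5000) * g 4 + (-1613/2500) * a 7 + (191/250) * b 7 + (1701/10000) * g 7)
    (pF3 : (-33/5000) * r ≤ (191/250) * a 5 + (1613/2500) * b 5 + (297/5000) * g 5 + (-191/250) * a 8 + (-1613/2500) * b 8 + (-227/2500) * g 8) :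
    -(g 9) ≤ r / 2 := by
  linarith

theorem lp_a10p (hl : 0 ≤ l) (hr : 0 ≤ r)
    (wAlp : 0 ≤ 1 * a 0 + (-249/500) * g 0)
    (wAbp : 0 ≤ 1 * b 0 + (-249/500) * g 0)
    (wAbm : 0 ≤ 1 * b 0 + (249/500) * g 0)
    (wBbm : 0 ≤ 1 * b 1 + (249/500) * g 1)
    (wClp : 0 ≤ 1 * a 2 + (-249/500) * g 2)
    (wDlp : 0 ≤ 1 * a 3 + (-249/500) * g 3)
    (wDlm : 0 ≤ 1 * a 3 + (249/500) * g 3)
    (wErp : 0 ≤ (-1) * a 4 + (-249/500) * g 4 + (-1) * l)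
    (wEbp : 0 ≤ 1 * b 4 + (-249/500) * g 4)
    (wEbm : 0 ≤ 1 * b 4 + (249/500) * g 4)
    (wFrp : 0 ≤ (-1) * a 5 + (-249/500) * g 5 + (-1) * l)
    (wFrm : 0 ≤ (-1) * a 5 + (249/500) * g 5 + (-1) * l)
    (wFtp : 0 ≤ (-1) * b 5 + (-249/500) * g 5 + (-1) * l)
    (w4t : (-21/10000) * r ≤ (-1) * b 9 + (-297/5000) * g 9 + (-1) * l)
    (w5r : (-21/10000) * r ≤ (-1) * a 10 + (-297/5000) * g 10 + (-1) * l)
    (pABp : (-61/10000) * r ≤ (-1) * a 0 + (1/2) * g 0 + 1 * a 1 + (-1/2) * g 1)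
    (pABm : (-61/10000) * r ≤ (-1) * a 0 + (-1/2) * g 0 + 1 * a 1 + (1/2) * g 1)
    (pACp : (-61/10000) * r ≤ (-1) * b 0 + (1/2) * g 0 + 1 * b 2 + (-1/2) * g 2)
    (pACm : (-61/10000) * r ≤ (-1) * b 0 + (-1/2) * g 0 + 1 * b 2 + (1/2) * g 2)
    (p12m : (-61/10000) * r ≤ (-1613/2500) * a 6 + (191/250) * b 6 + (-953/2500) * g 6 + (1613/2500) * a 7 + (-191/250) * b 7 + (1/2) * g 7)
    (p13m : (-61/10000) * r ≤ (-191/250) * a 6 + (-1613/2500) * b 6 + (-4751/10000) * g 6 + (191/250) * a 8 + (1613/2500) * b 8 + (1/2) * g 8)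
    (p25p : (-61/10000) * r ≤ (-191/250) * a 7 + (-1613/2500) * b 7 + (1/2) * g 7 + (191/250) * a 10 + (1613/2500) * b 10 + (-4751/10000) * g 10)
    (p25m : (-61/10000) * r ≤ (-191/250) * a 7 + (-1613/2500) * b 7 + (-4751/10000) * g 7 + (191/250) * a 10 + (1613/2500) * b 10 + (1/2) * g 10)
    (p34p : (-61/10000) * r ≤ (1613/2500) * a 8 + (-191/250) * b 8 + (1/2) * g 8 + (-1613/2500) * a 9 + (191/250) * b 9 + (-831/5000) * g 9)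
    (p34m : (-61/10000) * r ≤ (1613/2500) * a 8 + (-191/250) * b 8 + (-831/5000) * g 8 + (-1613/2500) * a 9 + (191/250) * b 9 + (1/2) * g 9)
    (p35p : (-61/10000) * r ≤ (-1613/2500) * a 8 + (191/250) * b 8 + (1/2) * g 8 + (1613/2500) * a 10 + (-191/250) * b 10 + (-953/2500) * g 10)
    (p35m : (-61/10000) * r ≤ (-1613/2500) * a 8 + (191/250) * b 8 + (-953/2500) * g 8 + (1613/2500) * a 10 + (-191/250) * b 10 + (1/2) * g 10)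
    (pB2 : (-33/5000) * r ≤ (-191/250) * a 1 + (-1613/2500) * b 1 + (297/5000) * g 1 + (191/250) * a 7 + (1613/2500) * b 7 + (-659/10000) * g 7)
    (pC1 : (-33/5000) * r ≤ (-191/250) * a 2 + (-1613/2500) * b 2 + (297/5000) * g 2 + (191/250) * a 6 + (1613/2500) * b 6 + (-4751/10000) * g 6)
    (pD1 : (-33/5000) * r ≤ (-1613/2500) * a 3 + (191/250) * b 3 + (297/5000) * g 3 + (1613/2500) * a 6 + (-191/250) * b 6 + (479/1000) * g 6)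
    (pD4 : (-33/5000) * r ≤ (-191/250) * a 3 + (-1613/2500) * b 3 + (297/5000) * g 3 + (191/250) * a 9 + (1613/2500) * b 9 + (-2391/10000) * g 9)
    (pE2 : (-33/5000) * r ≤ (1613/2500) * a 4 + (-191/250) * b 4 + (297/5000) * g 4 + (-1613/2500) * a 7 + (191/250) * b 7 + (1701/10000) * g 7)
    (pF3 : (-33/5000) * r ≤ (191/250) * a 5 + (1613/2500) * b 5 + (297/5000) * g 5 + (-191/250) * a 8 + (-1613/2500) * b 8 + (-227/2500) * g 8) :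
    (a 10) ≤ r / 2 := by
  linarith

theorem lp_a10m (hl : 0 ≤ l) (hr : 0 ≤ r)
    (wAlp : 0 ≤ 1 * a 0 + (-249/500) * g 0)
    (wAbp : 0 ≤ 1 * b 0 + (-249/500) * g 0)
    (wAbm : 0 ≤ 1 * b 0 + (249/500) * g 0)
    (wBbm : 0 ≤ 1 * b 1 + (249/500) * g 1)
    (wClp : 0 ≤ 1 * a 2 + (-249/500) * g 2)
    (wDlp : 0 ≤ 1 * a 3 + (-249/500) * g 3)
    (wDlm : 0 ≤ 1 * a 3 + (249/500) * g 3)
    (wErp : 0 ≤ (-1) * a 4 + (-249/500) * g 4 + (-1) * l)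
    (wEbp : 0 ≤ 1 * b 4 + (-249/500) * g 4)
    (wEbm : 0 ≤ 1 * b 4 + (249/500) * g 4)
    (wFrp : 0 ≤ (-1) * a 5 + (-249/500) * g 5 + (-1) * l)
    (wFrm : 0 ≤ (-1) * a 5 + (249/500) * g 5 + (-1) * l)
    (wFtp : 0 ≤ (-1) * b 5 + (-249/500) * g 5 + (-1) * l)
    (w4t : (-21/10000) * r ≤ (-1) * b 9 + (-297/5000) * g 9 + (-1) * l)
    (pABp : (-61/10000) * r ≤ (-1) * a 0 + (1/2) * g 0 + 1 * a 1 + (-1/2) * g 1)
    (pABm : (-61/10000) * r ≤ (-1) * a 0 + (-1/2) * g 0 + 1 * a 1 + (1/2) * g 1)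
    (pACp : (-61/10000) * r ≤ (-1) * b 0 + (1/2) * g 0 + 1 * b 2 + (-1/2) * g 2)
    (pACm : (-61/10000) * r ≤ (-1) * b 0 + (-1/2) * g 0 + 1 * b 2 + (1/2) * g 2)
    (p12p : (-61/10000) * r ≤ (-1613/2500) * a 6 + (191/250) * b 6 + (1/2) * g 6 + (1613/2500) * a 7 + (-191/250) * b 7 + (-953/2500) * g 7)
    (p12m : (-61/10000) * r ≤ (-1613/2500) * a 6 + (191/250) * b 6 + (-953/2500) * g 6 + (1613/2500) * a 7 + (-191/250) * b 7 + (1/2) * g 7)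
    (p13p : (-61/10000) * r ≤ (-191/250) * a 6 + (-1613/2500) * b 6 + (1/2) * g 6 + (191/250) * a 8 + (1613/2500) * b 8 + (-4751/10000) * g 8)
    (p13m : (-61/10000) * r ≤ (-191/250) * a 6 + (-1613/2500) * b 6 + (-4751/10000) * g 6 + (191/250) * a 8 + (1613/2500) * b 8 + (1/2) * g 8)
    (p25p : (-61/10000) * r ≤ (-191/250) * a 7 + (-1613/2500) * b 7 + (1/2) * g 7 + (191/250) * a 10 + (1613/2500) * b 10 + (-4751/10000) * g 10)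
    (p25m : (-61/10000) * r ≤ (-191/250) * a 7 + (-1613/2500) * b 7 + (-4751/10000) * g 7 + (191/250) * a 10 + (1613/2500) * b 10 + (1/2) * g 10)
    (p34p : (-61/10000) * r ≤ (1613/2500) * a 8 + (-191/250) * b 8 + (1/2) * g 8 + (-1613/2500) * a 9 + (191/250) * b 9 + (-831/5000) * g 9)
    (p34m : (-61/10000) * r ≤ (1613/2500) * a 8 + (-191/250) * b 8 + (-831/5000) * g 8 + (-1613/2500) * a 9 + (191/250) * b 9 + (1/2) * g 9)
    (p35p : (-61/10000) * r ≤ (-1613/2500) * a 8 + (191/250) * b 8 + (1/2) * g 8 + (1613/2500) * a 10 + (-191/250) * b 10 + (-953/2500) * g 10)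
    (pB2 : (-33/5000) * r ≤ (-191/250) * a 1 + (-1613/2500) * b 1 + (297/5000) * g 1 + (191/250) * a 7 + (1613/2500) * b 7 + (-659/10000) * g 7)
    (pC1 : (-33/5000) * r ≤ (-191/250) * a 2 + (-1613/2500) * b 2 + (297/5000) * g 2 + (191/250) * a 6 + (1613/2500) * b 6 + (-4751/10000) * g 6)
    (pD1 : (-33/5000) * r ≤ (-1613/2500) * a 3 + (191/250) * b 3 + (297/5000) * g 3 + (1613/2500) * a 6 + (-191/250) * b 6 + (479/1000) * g 6)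
    (pD4 : (-33/5000) * r ≤ (-191/250) * a 3 + (-1613/2500) * b 3 + (297/5000) * g 3 + (191/250) * a 9 + (1613/2500) * b 9 + (-2391/10000) * g 9)
    (pE2 : (-33/5000) * r ≤ (1613/2500) * a 4 + (-191/250) * b 4 + (297/5000) * g 4 + (-1613/2500) * a 7 + (191/250) * b 7 + (1701/10000) * g 7)
    (pF3 : (-33/5000) * r ≤ (191/250) * a 5 + (1613/2500) * b 5 + (297/5000) * g 5 + (-191/250) * a 8 + (-1613/2500) * b 8 + (-227/2500) * g 8) :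
    -(a 10) ≤ r / 2 := by
  linarith

theorem lp_b10p (hl : 0 ≤ l) (hr : 0 ≤ r)
    (wAbp : 0 ≤ 1 * b 0 + (-249/500) * g 0)
    (wAbm : 0 ≤ 1 * b 0 + (249/500) * g 0)
    (wClp : 0 ≤ 1 * a 2 + (-249/500) * g 2)
    (wDlp : 0 ≤ 1 * a 3 + (-249/500) * g 3)
    (wDlm : 0 ≤ 1 * a 3 + (249/500) * g 3)
    (wErp : 0 ≤ (-1) * a 4 + (-249/500) * g 4 + (-1) * l)
    (wEbp : 0 ≤ 1 * b 4 + (-249/500) * g 4)
    (wEbm : 0 ≤ 1 * b 4 + (249/500) * g 4)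
    (wFrp : 0 ≤ (-1) * a 5 + (-249/500) * g 5 + (-1) * l)
    (wFrm : 0 ≤ (-1) * a 5 + (249/500) * g 5 + (-1) * l)
    (wFtp : 0 ≤ (-1) * b 5 + (-249/500) * g 5 + (-1) * l)
    (w4t : (-21/10000) * r ≤ (-1) * b 9 + (-297/5000) * g 9 + (-1) * l)
    (w5r : (-21/10000) * r ≤ (-1) * a 10 + (-297/5000) * g 10 + (-1) * l)
    (pACp : (-61/10000) * r ≤ (-1) * b 0 + (1/2) * g 0 + 1 * b 2 + (-1/2) * g 2)
    (pACm : (-61/10000) * r ≤ (-1) * b 0 + (-1/2) * g 0 + 1 * b 2 + (1/2) * g 2)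
    (p12p : (-61/10000) * r ≤ (-1613/2500) * a 6 + (191/250) * b 6 + (1/2) * g 6 + (1613/2500) * a 7 + (-191/250) * b 7 + (-953/2500) * g 7)
    (p12m : (-61/10000) * r ≤ (-1613/2500) * a 6 + (191/250) * b 6 + (-953/2500) * g 6 + (1613/2500) * a 7 + (-191/250) * b 7 + (1/2) * g 7)
    (p13p : (-61/10000) * r ≤ (-191/250) * a 6 + (-1613/2500) * b 6 + (1/2) * g 6 + (191/250) * a 8 + (1613/2500) * b 8 + (-4751/10000) * g 8)
    (p13m : (-61/10000) * r ≤ (-191/250) * a 6 + (-1613/2500) * b 6 + (-4751/10000) * g 6 + (191/250) * a 8 + (1613/2500) * b 8 + (1/2) * g 8)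
    (p34p : (-61/10000) * r ≤ (1613/2500) * a 8 + (-191/250) * b 8 + (1/2) * g 8 + (-1613/2500) * a 9 + (191/250) * b 9 + (-831/5000) * g 9)
    (p34m : (-61/10000) * r ≤ (1613/2500) * a 8 + (-191/250) * b 8 + (-831/5000) * g 8 + (-1613/2500) * a 9 + (191/250) * b 9 + (1/2) * g 9)
    (p35p : (-61/10000) * r ≤ (-1613/2500) * a 8 + (191/250) * b 8 + (1/2) * g 8 + (1613/2500) * a 10 + (-191/250) * b 10 + (-953/2500) * g 10)
    (p35m : (-61/10000) * r ≤ (-1613/2500) * a 8 + (191/250) * b 8 + (-953/2500) * g 8 + (1613/2500) * a 10 + (-191/250) * b 10 + (1/2) * g 10)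
    (pC1 : (-33/5000) * r ≤ (-191/250) * a 2 + (-1613/2500) * b 2 + (297/5000) * g 2 + (191/250) * a 6 + (1613/2500) * b 6 + (-4751/10000) * g 6)
    (pD1 : (-33/5000) * r ≤ (-1613/2500) * a 3 + (191/250) * b 3 + (297/5000) * g 3 + (1613/2500) * a 6 + (-191/250) * b 6 + (479/1000) * g 6)
    (pD4 : (-33/5000) * r ≤ (-191/250) * a 3 + (-1613/2500) * b 3 + (297/5000) * g 3 + (191/250) * a 9 + (1613/2500) * b 9 + (-2391/10000) * g 9)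
    (pE2 : (-33/5000) * r ≤ (1613/2500) * a 4 + (-191/250) * b 4 + (297/5000) * g 4 + (-1613/2500) * a 7 + (191/250) * b 7 + (1701/10000) * g 7)
    (pF3 : (-33/5000) * r ≤ (191/250) * a 5 + (1613/2500) * b 5 + (297/5000) * g 5 + (-191/250) * a 8 + (-1613/2500) * b 8 + (-227/2500) * g 8) :
    (b 10) ≤ r / 2 := by
  linarith

theorem lp_b10m (hl : 0 ≤ l) (hr : 0 ≤ r)
    (wAlp : 0 ≤ 1 * a 0 + (-249/500) * g 0)
    (wAbp : 0 ≤ 1 * b 0 + (-249/500) * g 0)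
    (wAbm : 0 ≤ 1 * b 0 + (249/500) * g 0)
    (wBbm : 0 ≤ 1 * b 1 + (249/500) * g 1)
    (wClp : 0 ≤ 1 * a 2 + (-249/500) * g 2)
    (wDlp : 0 ≤ 1 * a 3 + (-249/500) * g 3)
    (wDlm : 0 ≤ 1 * a 3 + (249/500) * g 3)
    (wErp : 0 ≤ (-1) * a 4 + (-249/500) * g 4 + (-1) * l)
    (wEbp : 0 ≤ 1 * b 4 + (-249/500) * g 4)
    (wEbm : 0 ≤ 1 * b 4 + (249/500) * g 4)
    (wFrp : 0 ≤ (-1) * a 5 + (-249/500) * g 5 + (-1) * l)
    (wFrm : 0 ≤ (-1) * a 5 + (249/500) * g 5 + (-1) * l)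
    (wFtp : 0 ≤ (-1) * b 5 + (-249/500) * g 5 + (-1) * l)
    (w4t : (-21/10000) * r ≤ (-1) * b 9 + (-297/5000) * g 9 + (-1) * l)
    (w5r : (-21/10000) * r ≤ (-1) * a 10 + (-297/5000) * g 10 + (-1) * l)
    (pABp : (-61/10000) * r ≤ (-1) * a 0 + (1/2) * g 0 + 1 * a 1 + (-1/2) * g 1)
    (pABm : (-61/10000) * r ≤ (-1) * a 0 + (-1/2) * g 0 + 1 * a 1 + (1/2) * g 1)
    (pACp : (-61/10000) * r ≤ (-1) * b 0 + (1/2) * g 0 + 1 * b 2 + (-1/2) * g 2)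
    (pACm : (-61/10000) * r ≤ (-1) * b 0 + (-1/2) * g 0 + 1 * b 2 + (1/2) * g 2)
    (p12m : (-61/10000) * r ≤ (-1613/2500) * a 6 + (191/250) * b 6 + (-953/2500) * g 6 + (1613/2500) * a 7 + (-191/250) * b 7 + (1/2) * g 7)
    (p13m : (-61/10000) * r ≤ (-191/250) * a 6 + (-1613/2500) * b 6 + (-4751/10000) * g 6 + (191/250) * a 8 + (1613/2500) * b 8 + (1/2) * g 8)
    (p25p : (-61/10000) * r ≤ (-191/250) * a 7 + (-1613/2500) * b 7 + (1/2) * g 7 + (191/250) * a 10 + (1613/2500) * b 10 + (-4751/10000) * g 10)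
    (p25m : (-61/10000) * r ≤ (-191/250) * a 7 + (-1613/2500) * b 7 + (-4751/10000) * g 7 + (191/250) * a 10 + (1613/2500) * b 10 + (1/2) * g 10)
    (p34p : (-61/10000) * r ≤ (1613/2500) * a 8 + (-191/250) * b 8 + (1/2) * g 8 + (-1613/2500) * a 9 + (191/250) * b 9 + (-831/5000) * g 9)
    (p34m : (-61/10000) * r ≤ (1613/2500) * a 8 + (-191/250) * b 8 + (-831/5000) * g 8 + (-1613/2500) * a 9 + (191/250) * b 9 + (1/2) * g 9)
    (p35p : (-61/10000) * r ≤ (-1613/2500) * a 8 + (191/250) * b 8 + (1/2) * g 8 + (1613/2500) * a 10 + (-191/250) * b 10 + (-953/2500) * g 10)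
    (p35m : (-61/10000) * r ≤ (-1613/2500) * a 8 + (191/250) * b 8 + (-953/2500) * g 8 + (1613/2500) * a 10 + (-191/250) * b 10 + (1/2) * g 10)
    (pB2 : (-33/5000) * r ≤ (-191/250) * a 1 + (-1613/2500) * b 1 + (297/5000) * g 1 + (191/250) * a 7 + (1613/2500) * b 7 + (-659/10000) * g 7)
    (pC1 : (-33/5000) * r ≤ (-191/250) * a 2 + (-1613/2500) * b 2 + (297/5000) * g 2 + (191/250) * a 6 + (1613/2500) * b 6 + (-4751/10000) * g 6)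
    (pD1 : (-33/5000) * r ≤ (-1613/2500) * a 3 + (191/250) * b 3 + (297/5000) * g 3 + (1613/2500) * a 6 + (-191/250) * b 6 + (479/1000) * g 6)
    (pD4 : (-33/5000) * r ≤ (-191/250) * a 3 + (-1613/2500) * b 3 + (297/5000) * g 3 + (191/250) * a 9 + (1613/2500) * b 9 + (-2391/10000) * g 9)
    (pE2 : (-33/5000) * r ≤ (1613/2500) * a 4 + (-191/250) * b 4 + (297/5000) * g 4 + (-1613/2500) * a 7 + (191/250) * b 7 + (1701/10000) * g 7)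
    (pF3 : (-33/5000) * r ≤ (191/250) * a 5 + (1613/2500) * b 5 + (297/5000) * g 5 + (-191/250) * a 8 + (-1613/2500) * b 8 + (-227/2500) * g 8) :
    -(b 10) ≤ r / 2 := by
  linarith

theorem lp_g10p (hl : 0 ≤ l) (hr : 0 ≤ r)
    (wAlp : 0 ≤ 1 * a 0 + (-249/500) * g 0)
    (wAbp : 0 ≤ 1 * b 0 + (-249/500) * g 0)
    (wAbm : 0 ≤ 1 * b 0 + (249/500) * g 0)
    (wBbm : 0 ≤ 1 * b 1 + (249/500) * g 1)
    (wClp : 0 ≤ 1 * a 2 + (-249/500) * g 2)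
    (wDlp : 0 ≤ 1 * a 3 + (-249/500) * g 3)
    (wDlm : 0 ≤ 1 * a 3 + (249/500) * g 3)
    (wErp : 0 ≤ (-1) * a 4 + (-249/500) * g 4 + (-1) * l)
    (wEbp : 0 ≤ 1 * b 4 + (-249/500) * g 4)
    (wEbm : 0 ≤ 1 * b 4 + (249/500) * g 4)
    (wFrp : 0 ≤ (-1) * a 5 + (-249/500) * g 5 + (-1) * l)
    (wFrm : 0 ≤ (-1) * a 5 + (249/500) * g 5 + (-1) * l)
    (wFtp : 0 ≤ (-1) * b 5 + (-249/500) * g 5 + (-1) * l)
    (w4t : (-21/10000) * r ≤ (-1) * b 9 + (-297/5000) * g 9 + (-1) * l)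
    (w5r : (-21/10000) * r ≤ (-1) * a 10 + (-297/5000) * g 10 + (-1) * l)
    (pABp : (-61/10000) * r ≤ (-1) * a 0 + (1/2) * g 0 + 1 * a 1 + (-1/2) * g 1)
    (pABm : (-61/10000) * r ≤ (-1) * a 0 + (-1/2) * g 0 + 1 * a 1 + (1/2) * g 1)
    (pACp : (-61/10000) * r ≤ (-1) * b 0 + (1/2) * g 0 + 1 * b 2 + (-1/2) * g 2)
    (pACm : (-61/10000) * r ≤ (-1) * b 0 + (-1/2) * g 0 + 1 * b 2 + (1/2) * g 2)
    (p12p : (-61/10000) * r ≤ (-1613/2500) * a 6 + (191/250) * b 6 + (1/2) * g 6 + (1613/2500) * a 7 + (-191/250) * b 7 + (-953/2500) * g 7)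
    (p13p : (-61/10000) * r ≤ (-191/250) * a 6 + (-1613/2500) * b 6 + (1/2) * g 6 + (191/250) * a 8 + (1613/2500) * b 8 + (-4751/10000) * g 8)
    (p13m : (-61/10000) * r ≤ (-191/250) * a 6 + (-1613/2500) * b 6 + (-4751/10000) * g 6 + (191/250) * a 8 + (1613/2500) * b 8 + (1/2) * g 8)
    (p25p : (-61/10000) * r ≤ (-191/250) * a 7 + (-1613/2500) * b 7 + (1/2) * g 7 + (191/250) * a 10 + (1613/2500) * b 10 + (-4751/10000) * g 10)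
    (p25m : (-61/10000) * r ≤ (-191/250) * a 7 + (-1613/2500) * b 7 + (-4751/10000) * g 7 + (191/250) * a 10 + (1613/2500) * b 10 + (1/2) * g 10)
    (p34p : (-61/10000) * r ≤ (1613/2500) * a 8 + (-191/250) * b 8 + (1/2) * g 8 + (-1613/2500) * a 9 + (191/250) * b 9 + (-831/5000) * g 9)
    (p34m : (-61/10000) * r ≤ (1613/2500) * a 8 + (-191/250) * b 8 + (-831/5000) * g 8 + (-1613/2500) * a 9 + (191/250) * b 9 + (1/2) * g 9)
    (p35p : (-61/10000) * r ≤ (-1613/2500) * a 8 + (191/250) * b 8 + (1/2) * g 8 + (1613/2500) * a 10 + (-191/250) * b 10 + (-953/2500) * g 10)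
    (pB2 : (-33/5000) * r ≤ (-191/250) * a 1 + (-1613/2500) * b 1 + (297/5000) * g 1 + (191/250) * a 7 + (1613/2500) * b 7 + (-659/10000) * g 7)
    (pC1 : (-33/5000) * r ≤ (-191/250) * a 2 + (-1613/2500) * b 2 + (297/5000) * g 2 + (191/250) * a 6 + (1613/2500) * b 6 + (-4751/10000) * g 6)
    (pD1 : (-33/5000) * r ≤ (-1613/2500) * a 3 + (191/250) * b 3 + (297/5000) * g 3 + (1613/2500) * a 6 + (-191/250) * b 6 + (479/1000) * g 6)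
    (pD4 : (-33/5000) * r ≤ (-191/250) * a 3 + (-1613/2500) * b 3 + (297/5000) * g 3 + (191/250) * a 9 + (1613/2500) * b 9 + (-2391/10000) * g 9)
    (pE2 : (-33/5000) * r ≤ (1613/2500) * a 4 + (-191/250) * b 4 + (297/5000) * g 4 + (-1613/2500) * a 7 + (191/250) * b 7 + (1701/10000) * g 7)
    (pF3 : (-33/5000) * r ≤ (191/250) * a 5 + (1613/2500) * b 5 + (297/5000) * g 5 + (-191/250) * a 8 + (-1613/2500) * b 8 + (-227/2500) * g 8) :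
    (g 10) ≤ r / 2 := by
  linarith

theorem lp_g10m (hl : 0 ≤ l) (hr : 0 ≤ r)
    (wAlp : 0 ≤ 1 * a 0 + (-249/500) * g 0)
    (wAbp : 0 ≤ 1 * b 0 + (-249/500) * g 0)
    (wAbm : 0 ≤ 1 * b 0 + (249/500) * g 0)
    (wBbm : 0 ≤ 1 * b 1 + (249/500) * g 1)
    (wClp : 0 ≤ 1 * a 2 + (-249/500) * g 2)
    (wDlp : 0 ≤ 1 * a 3 + (-249/500) * g 3)
    (wDlm : 0 ≤ 1 * a 3 + (249/500) * g 3)
    (wErp : 0 ≤ (-1) * a 4 + (-249/500) * g 4 + (-1) * l)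
    (wEbp : 0 ≤ 1 * b 4 + (-249/500) * g 4)
    (wEbm : 0 ≤ 1 * b 4 + (249/500) * g 4)
    (wFrp : 0 ≤ (-1) * a 5 + (-249/500) * g 5 + (-1) * l)
    (wFrm : 0 ≤ (-1) * a 5 + (249/500) * g 5 + (-1) * l)
    (wFtp : 0 ≤ (-1) * b 5 + (-249/500) * g 5 + (-1) * l)
    (w4t : (-21/10000) * r ≤ (-1) * b 9 + (-297/5000) * g 9 + (-1) * l)
    (w5r : (-21/10000) * r ≤ (-1) * a 10 + (-297/5000) * g 10 + (-1) * l)
    (pABp : (-61/10000) * r ≤ (-1) * a 0 + (1/2) * g 0 + 1 * a 1 + (-1/2) * g 1)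
    (pABm : (-61/10000) * r ≤ (-1) * a 0 + (-1/2) * g 0 + 1 * a 1 + (1/2) * g 1)
    (pACp : (-61/10000) * r ≤ (-1) * b 0 + (1/2) * g 0 + 1 * b 2 + (-1/2) * g 2)
    (pACm : (-61/10000) * r ≤ (-1) * b 0 + (-1/2) * g 0 + 1 * b 2 + (1/2) * g 2)
    (p12m : (-61/10000) * r ≤ (-1613/2500) * a 6 + (191/250) * b 6 + (-953/2500) * g 6 + (1613/2500) * a 7 + (-191/250) * b 7 + (1/2) * g 7)
    (p13m : (-61/10000) * r ≤ (-191/250) * a 6 + (-1613/2500) * b 6 + (-4751/10000) * g 6 + (191/250) * a 8 + (1613/2500) * b 8 + (1/2) * g 8)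
    (p25p : (-61/10000) * r ≤ (-191/250) * a 7 + (-1613/2500) * b 7 + (1/2) * g 7 + (191/250) * a 10 + (1613/2500) * b 10 + (-4751/10000) * g 10)
    (p25m : (-61/10000) * r ≤ (-191/250) * a 7 + (-1613/2500) * b 7 + (-4751/10000) * g 7 + (191/250) * a 10 + (1613/2500) * b 10 + (1/2) * g 10)
    (p34p : (-61/10000) * r ≤ (1613/2500) * a 8 + (-191/250) * b 8 + (1/2) * g 8 + (-1613/2500) * a 9 + (191/250) * b 9 + (-831/5000) * g 9)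
    (p34m : (-61/10000) * r ≤ (1613/2500) * a 8 + (-191/250) * b 8 + (-831/5000) * g 8 + (-1613/2500) * a 9 + (191/250) * b 9 + (1/2) * g 9)
    (p35p : (-61/10000) * r ≤ (-1613/2500) * a 8 + (191/250) * b 8 + (1/2) * g 8 + (1613/2500) * a 10 + (-191/250) * b 10 + (-953/2500) * g 10)
    (p35m : (-61/10000) * r ≤ (-1613/2500) * a 8 + (191/250) * b 8 + (-953/2500) * g 8 + (1613/2500) * a 10 + (-191/250) * b 10 + (1/2) * g 10)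
    (pB2 : (-33/5000) * r ≤ (-191/250) * a 1 + (-1613/2500) * b 1 + (297/5000) * g 1 + (191/250) * a 7 + (1613/2500) * b 7 + (-659/10000) * g 7)
    (pC1 : (-33/5000) * r ≤ (-191/250) * a 2 + (-1613/2500) * b 2 + (297/5000) * g 2 + (191/250) * a 6 + (1613/2500) * b 6 + (-4751/10000) * g 6)
    (pD1 : (-33/5000) * r ≤ (-1613/2500) * a 3 + (191/250) * b 3 + (297/5000) * g 3 + (1613/2500) * a 6 + (-191/250) * b 6 + (479/1000) * g 6)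
    (pD4 : (-33/5000) * r ≤ (-191/250) * a 3 + (-1613/2500) * b 3 + (297/5000) * g 3 + (191/250) * a 9 + (1613/2500) * b 9 + (-2391/10000) * g 9)
    (pE2 : (-33/5000) * r ≤ (1613/2500) * a 4 + (-191/250) * b 4 + (297/5000) * g 4 + (-1613/2500) * a 7 + (191/250) * b 7 + (1701/10000) * g 7)
    (pF3 : (-33/5000) * r ≤ (191/250) * a 5 + (1613/2500) * b 5 + (297/5000) * g 5 + (-191/250) * a 8 + (-1613/2500) * b 8 + (-227/2500) * g 8) :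
    -(g 10) ≤ r / 2 := by
  linarith

/-- all linear inequalities of the contacts -/
structure Ineqs (a b g : Fin 11 → ℝ) (l r : ℝ) : Prop where
  wAlp : 0 ≤ 1 * a 0 + (-249/500) * g 0
  wAlm : 0 ≤ 1 * a 0 + (249/500) * g 0
  wAbp : 0 ≤ 1 * b 0 + (-249/500) * g 0
  wAbm : 0 ≤ 1 * b 0 + (249/500) * g 0
  wBbp : 0 ≤ 1 * b 1 + (-249/500) * g 1
  wBbm : 0 ≤ 1 * b 1 + (249/500) * g 1
  wClp : 0 ≤ 1 * a 2 + (-249/500) * g 2
  wClm : 0 ≤ 1 * a 2 + (249/500) * g 2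
  wDlp : 0 ≤ 1 * a 3 + (-249/500) * g 3
  wDlm : 0 ≤ 1 * a 3 + (249/500) * g 3
  wErp : 0 ≤ (-1) * a 4 + (-249/500) * g 4 + (-1) * l
  wErm : 0 ≤ (-1) * a 4 + (249/500) * g 4 + (-1) * l
  wEbp : 0 ≤ 1 * b 4 + (-249/500) * g 4
  wEbm : 0 ≤ 1 * b 4 + (249/500) * g 4
  wFrp : 0 ≤ (-1) * a 5 + (-249/500) * g 5 + (-1) * l
  wFrm : 0 ≤ (-1) * a 5 + (249/500) * g 5 + (-1) * l
  wFtp : 0 ≤ (-1) * b 5 + (-249/500) * g 5 + (-1) * l
  wFtm : 0 ≤ (-1) * b 5 + (249/500) * g 5 + (-1) * l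
  w4t : (-21/10000) * r ≤ (-1) * b 9 + (-297/5000) * g 9 + (-1) * l
  w5r : (-21/10000) * r ≤ (-1) * a 10 + (-297/5000) * g 10 + (-1) * l
  pABp : (-61/10000) * r ≤ (-1) * a 0 + (1/2) * g 0 + 1 * a 1 + (-1/2) * g 1
  pABm : (-61/10000) * r ≤ (-1) * a 0 + (-1/2) * g 0 + 1 * a 1 + (1/2) * g 1
  pACp : (-61/10000) * r ≤ (-1) * b 0 + (1/2) * g 0 + 1 * b 2 + (-1/2) * g 2
  pACm : (-61/10000) * r ≤ (-1) * b 0 + (-1/2) * g 0 + 1 * b 2 + (1/2) * g 2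
  p12p : (-61/10000) * r ≤ (-1613/2500) * a 6 + (191/250) * b 6 + (1/2) * g 6 + (1613/2500) * a 7 + (-191/250) * b 7 + (-953/2500) * g 7
  p12m : (-61/10000) * r ≤ (-1613/2500) * a 6 + (191/250) * b 6 + (-953/2500) * g 6 + (1613/2500) * a 7 + (-191/250) * b 7 + (1/2) * g 7
  p13p : (-61/10000) * r ≤ (-191/250) * a 6 + (-1613/2500) * b 6 + (1/2) * g 6 + (191/250) * a 8 + (1613/2500) * b 8 + (-4751/10000) * g 8
  p13m : (-61/10000) * r ≤ (-191/250) * a 6 + (-1613/2500) * b 6 + (-4751/10000) * g 6 + (191/250) * a 8 + (1613/2500) * b 8 + (1/2) * g 8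
  p25p : (-61/10000) * r ≤ (-191/250) * a 7 + (-1613/2500) * b 7 + (1/2) * g 7 + (191/250) * a 10 + (1613/2500) * b 10 + (-4751/10000) * g 10
  p25m : (-61/10000) * r ≤ (-191/250) * a 7 + (-1613/2500) * b 7 + (-4751/10000) * g 7 + (191/250) * a 10 + (1613/2500) * b 10 + (1/2) * g 10
  p34p : (-61/10000) * r ≤ (1613/2500) * a 8 + (-191/250) * b 8 + (1/2) * g 8 + (-1613/2500) * a 9 + (191/250) * b 9 + (-831/5000) * g 9
  p34m : (-61/10000) * r ≤ (1613/2500) * a 8 + (-191/250) * b 8 + (-831/5000) * g 8 + (-1613/2500) * a 9 + (191/250) * b 9 + (1/2) * g 9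
  p35p : (-61/10000) * r ≤ (-1613/2500) * a 8 + (191/250) * b 8 + (1/2) * g 8 + (1613/2500) * a 10 + (-191/250) * b 10 + (-953/2500) * g 10
  p35m : (-61/10000) * r ≤ (-1613/2500) * a 8 + (191/250) * b 8 + (-953/2500) * g 8 + (1613/2500) * a 10 + (-191/250) * b 10 + (1/2) * g 10
  pB2 : (-33/5000) * r ≤ (-191/250) * a 1 + (-1613/2500) * b 1 + (297/5000) * g 1 + (191/250) * a 7 + (1613/2500) * b 7 + (-659/10000) * g 7
  pC1 : (-33/5000) * r ≤ (-191/250) * a 2 + (-1613/2500) * b 2 + (297/5000) * g 2 + (191/250) * a 6 + (1613/2500) * b 6 + (-4751/10000) * g 6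
  pD1 : (-33/5000) * r ≤ (-1613/2500) * a 3 + (191/250) * b 3 + (297/5000) * g 3 + (1613/2500) * a 6 + (-191/250) * b 6 + (479/1000) * g 6
  pD4 : (-33/5000) * r ≤ (-191/250) * a 3 + (-1613/2500) * b 3 + (297/5000) * g 3 + (191/250) * a 9 + (1613/2500) * b 9 + (-2391/10000) * g 9
  pE2 : (-33/5000) * r ≤ (1613/2500) * a 4 + (-191/250) * b 4 + (297/5000) * g 4 + (-1613/2500) * a 7 + (191/250) * b 7 + (1701/10000) * g 7
  pF3 : (-33/5000) * r ≤ (191/250) * a 5 + (1613/2500) * b 5 + (297/5000) * g 5 + (-191/250) * a 8 + (-1613/2500) * b 8 + (-227/2500) * g 8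

theorem Ineqs.all (h : Ineqs a b g l r) (hl : 0 ≤ l) (hr : 0 ≤ r) (i : Fin 11) :
    |a i| ≤ r / 2 ∧ |b i| ≤ r / 2 ∧ |g i| ≤ r / 2 := by
  simp only [abs_le]
  match i with
  | 0 => exact ⟨⟨neg_le.1 (lp_a0m hl hr h.wAlp h.wAlm),
      lp_a0p hl hr h.wAbp h.wAbm h.wBbm h.wClp h.wDlp h.wDlm h.wErp h.wEbp h.wEbm h.wFrp h.wFrm h.wFtp h.w4t h.w5r h.pABp h.pABm h.pACp h.pACm h.p12m h.p13p h.p13m h.p25p h.p25m h.p34p h.p34m h.p35p h.p35m h.pB2 h.pC1 h.pD1 h.pD4 h.pE2 h.pF3⟩,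
    ⟨neg_le.1 (lp_b0m hl hr h.wAbp h.wAbm),
      lp_b0p hl hr h.wAlp h.wAlm h.wBbm h.wClp h.wDlp h.wDlm h.wErp h.wEbp h.wEbm h.wFrp h.wFrm h.wFtp h.w4t h.w5r h.pABp h.pABm h.pACp h.pACm h.p12m h.p13p h.p13m h.p25p h.p25m h.p34p h.p34m h.p35p h.p35m h.pB2 h.pC1 h.pD1 h.pD4 h.pE2 h.pF3⟩,
    ⟨neg_le.1 (lp_g0m hl hr h.wAlm h.wAbm h.wBbm h.wClp h.wClm h.wDlp h.wDlm h.wErp h.wEbp h.wEbm h.wFrp h.wFrm h.wFtp h.w4t h.w5r h.pABp h.pABm h.pACp h.p12m h.p13p h.p13m h.p25p h.p25m h.p34p h.p34m h.p35p h.p35m h.pB2 h.pC1 h.pD1 h.pD4 h.pE2 h.pF3),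
      lp_g0p hl hr h.wAlp h.wAbp h.wBbp h.wClp h.wDlp h.wDlm h.wErp h.wEbp h.wEbm h.wFrp h.wFrm h.wFtp h.w4t h.w5r h.pABp h.pABm h.pACp h.pACm h.p12m h.p13p h.p13m h.p25p h.p25m h.p34p h.p34m h.p35p h.p35m h.pB2 h.pC1 h.pD1 h.pD4 h.pE2 h.pF3⟩⟩
  | 1 => exact ⟨⟨neg_le.1 (lp_a1m hl hr h.wAlp h.wAlm h.pABp h.pABm),
      lp_a1p hl hr h.wAbp h.wAbm h.wBbp h.wBbm h.wClp h.wDlp h.wDlm h.wErp h.wEbp h.wEbm h.wFrp h.wFrm h.wFtp h.w4t h.w5r h.pACp h.pACm h.p12m h.p13p h.p13m h.p25p h.p25m h.p34p h.p34m h.p35p h.p35m h.pB2 h.pC1 h.pD1 h.pD4 h.pE2 h.pF3⟩,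
    ⟨neg_le.1 (lp_b1m hl hr h.wBbp h.wBbm),
      lp_b1p hl hr h.wAlp h.wAlm h.wAbm h.wClp h.wDlp h.wDlm h.wErp h.wEbp h.wEbm h.wFrp h.wFrm h.wFtp h.w4t h.w5r h.pABp h.pABm h.pACp h.pACm h.p12m h.p13p h.p13m h.p25p h.p25m h.p34p h.p34m h.p35p h.p35m h.pB2 h.pC1 h.pD1 h.pD4 h.pE2 h.pF3⟩,
    ⟨neg_le.1 (lp_g1m hl hr h.wAlm h.wAbp h.wAbm h.wBbm h.wClp h.wClm h.wDlp h.wDlm h.wErp h.wEbp h.wEbm h.wFrp h.wFrm h.wFtp h.w4t h.w5r h.pABm h.pACp h.p12m h.p13p h.p13m h.p25p h.p25m h.p34p h.p34m h.p35p h.p35m h.pB2 h.pC1 h.pD1 h.pD4 h.pE2 h.pF3),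
      lp_g1p hl hr h.wAlp h.wAbp h.wBbp h.wClp h.wClm h.wDlp h.wDlm h.wErp h.wEbp h.wEbm h.wFrp h.wFrm h.wFtp h.w4t h.w5r h.pABp h.pACp h.pACm h.p12m h.p13p h.p13m h.p25p h.p25m h.p34p h.p34m h.p35p h.p35m h.pB2 h.pC1 h.pD1 h.pD4 h.pE2 h.pF3⟩⟩
  | 2 => exact ⟨⟨neg_le.1 (lp_a2m hl hr h.wClp h.wClm),
      lp_a2p hl hr h.wAlp h.wAbp h.wAbm h.wBbm h.wDlp h.wDlm h.wErp h.wEbp h.wEbm h.wFrp h.wFrm h.wFtp h.w4t h.w5r h.pABp h.pABm h.pACp h.pACm h.p12m h.p13p h.p13m h.p25p h.p25m h.p34p h.p34m h.p35p h.p35m h.pB2 h.pC1 h.pD1 h.pD4 h.pE2 h.pF3⟩,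
    ⟨neg_le.1 (lp_b2m hl hr h.wAbp h.wAbm h.pACp h.pACm),
      lp_b2p hl hr h.wAlp h.wBbp h.wBbm h.wClp h.wClm h.wDlp h.wDlm h.wErp h.wEbp h.wEbm h.wFrp h.wFrm h.wFtp h.w4t h.w5r h.pABp h.pABm h.p12m h.p13p h.p13m h.p25p h.p25m h.p34p h.p34m h.p35p h.p35m h.pB2 h.pC1 h.pD1 h.pD4 h.pE2 h.pF3⟩,
    ⟨neg_le.1 (lp_g2m hl hr h.wAlp h.wAlm h.wAbm h.wBbm h.wClm h.wDlp h.wDlm h.wErp h.wEbp h.wEbm h.wFrp h.wFrm h.wFtp h.w4t h.w5r h.pABp h.pABm h.pACm h.p12m h.p13p h.p13m h.p25p h.p25m h.p34p h.p34m h.p35p h.p35m h.pB2 h.pC1 h.pD1 h.pD4 h.pE2 h.pF3),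
      lp_g2p hl hr h.wAlp h.wAlm h.wAbp h.wBbp h.wClp h.wDlp h.wDlm h.wErp h.wEbp h.wEbm h.wFrp h.wFrm h.wFtp h.w4t h.w5r h.pABp h.pABm h.pACp h.p12m h.p13p h.p13m h.p25p h.p25m h.p34p h.p34m h.p35p h.p35m h.pB2 h.pC1 h.pD1 h.pD4 h.pE2 h.pF3⟩⟩
  | 3 => exact ⟨⟨neg_le.1 (lp_a3m hl hr h.wDlp h.wDlm),
      lp_a3p hl hr h.wAlp h.wAbp h.wAbm h.wBbm h.wClp h.wDlp h.wErp h.wEbp h.wEbm h.wFrp h.wFrm h.wFtp h.w4t h.w5r h.pABp h.pABm h.pACp h.pACm h.p12m h.p13p h.p13m h.p25p h.p25m h.p34p h.p34m h.p35p h.p35m h.pB2 h.pC1 h.pD1 h.pD4 h.pE2 h.pF3⟩,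
    ⟨neg_le.1 (lp_b3m hl hr h.wAbp h.wAbm h.wClp h.wDlp h.wDlm h.wErp h.wEbp h.wEbm h.wFrp h.wFrm h.wFtp h.pACp h.pACm h.p12p h.p12m h.p13p h.p13m h.pC1 h.pD1 h.pE2 h.pF3),
      lp_b3p hl hr h.wAlp h.wAbp h.wAbm h.wBbm h.wClp h.wDlp h.wDlm h.wFrp h.wFrm h.wFtp h.w4t h.w5r h.pABp h.pABm h.pACp h.pACm h.p13p h.p13m h.p25p h.p25m h.p34p h.p34m h.p35p h.p35m h.pB2 h.pC1 h.pD4 h.pF3⟩,
    ⟨neg_le.1 (lp_g3m hl hr h.wAlp h.wAbp h.wAbm h.wBbm h.wClp h.wDlm h.wErp h.wEbp h.wEbm h.wFrp h.wFrm h.wFtp h.w4t h.w5r h.pABp h.pABm h.pACp h.pACm h.p12m h.p13p h.p13m h.p25p h.p25m h.p34p h.p34m h.p35p h.p35m h.pB2 h.pC1 h.pD1 h.pD4 h.pE2 h.pF3),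
      lp_g3p hl hr h.wAlp h.wAbp h.wAbm h.wBbm h.wClp h.wDlp h.wErp h.wEbp h.wEbm h.wFrp h.wFrm h.wFtp h.w4t h.w5r h.pABp h.pABm h.pACp h.pACm h.p12m h.p13p h.p13m h.p25p h.p25m h.p34p h.p34m h.p35p h.p35m h.pB2 h.pC1 h.pD1 h.pD4 h.pE2 h.pF3⟩⟩
  | 4 => exact ⟨⟨neg_le.1 (lp_a4m hl hr h.wAlp h.wAbp h.wAbm h.wBbm h.wClp h.wDlp h.wDlm h.wEbp h.wEbm h.wFrp h.wFrm h.wFtp h.w4t h.w5r h.pABp h.pABm h.pACp h.pACm h.p12m h.p13p h.p13m h.p25p h.p25m h.p34p h.p34m h.p35p h.p35m h.pB2 h.pC1 h.pD1 h.pD4 h.pE2 h.pF3),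
      lp_a4p hl hr h.wErp h.wErm⟩,
    ⟨neg_le.1 (lp_b4m hl hr h.wEbp h.wEbm),
      lp_b4p hl hr h.wAlp h.wAbp h.wAbm h.wBbm h.wClp h.wDlp h.wDlm h.wErp h.wErm h.wFrp h.wFrm h.wFtp h.w4t h.w5r h.pABp h.pABm h.pACp h.pACm h.p12m h.p13p h.p13m h.p25p h.p25m h.p34p h.p34m h.p35p h.p35m h.pB2 h.pC1 h.pD1 h.pD4 h.pE2 h.pF3⟩,
    ⟨neg_le.1 (lp_g4m hl hr h.wAlp h.wAbp h.wAbm h.wBbm h.wClp h.wDlp h.wDlm h.wErm h.wEbm h.wFrp h.wFrm h.wFtp h.w4t h.w5r h.pABp h.pABm h.pACp h.pACm h.p12m h.p13p h.p13m h.p25p h.p25m h.p34p h.p34m h.p35p h.p35m h.pB2 h.pC1 h.pD1 h.pD4 h.pE2 h.pF3),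
      lp_g4p hl hr h.wAlp h.wAbp h.wAbm h.wBbm h.wClp h.wDlp h.wDlm h.wErp h.wEbp h.wFrp h.wFrm h.wFtp h.w4t h.w5r h.pABp h.pABm h.pACp h.pACm h.p12m h.p13p h.p13m h.p25p h.p25m h.p34p h.p34m h.p35p h.p35m h.pB2 h.pC1 h.pD1 h.pD4 h.pE2 h.pF3⟩⟩
  | 5 => exact ⟨⟨neg_le.1 (lp_a5m hl hr h.wAlp h.wAbp h.wAbm h.wBbm h.wClp h.wDlp h.wDlm h.wErp h.wEbp h.wEbm h.wFtp h.wFtm h.w4t h.w5r h.pABp h.pABm h.pACp h.pACm h.p12m h.p13p h.p13m h.p25p h.p25m h.p34p h.p34m h.p35p h.p35m h.pB2 h.pC1 h.pD1 h.pD4 h.pE2 h.pF3),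
      lp_a5p hl hr h.wFrp h.wFrm⟩,
    ⟨neg_le.1 (lp_b5m hl hr h.wAlp h.wAbp h.wAbm h.wBbm h.wClp h.wDlp h.wDlm h.wErp h.wEbp h.wEbm h.wFrp h.wFrm h.w4t h.w5r h.pABp h.pABm h.pACp h.pACm h.p12m h.p13p h.p13m h.p25p h.p25m h.p34p h.p34m h.p35p h.p35m h.pB2 h.pC1 h.pD1 h.pD4 h.pE2 h.pF3),
      lp_b5p hl hr h.wFtp h.wFtm⟩,
    ⟨neg_le.1 (lp_g5m hl hr h.wAlp h.wAbp h.wAbm h.wBbm h.wClp h.wDlp h.wDlm h.wErp h.wEbp h.wEbm h.wFrm h.wFtm h.w4t h.w5r h.pABp h.pABm h.pACp h.pACm h.p12m h.p13p h.p13m h.p25p h.p25m h.p34p h.p34m h.p35p h.p35m h.pB2 h.pC1 h.pD1 h.pD4 h.pE2 h.pF3),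
      lp_g5p hl hr h.wAlp h.wAbp h.wAbm h.wBbm h.wClp h.wDlp h.wDlm h.wErp h.wEbp h.wEbm h.wFrp h.wFtp h.w4t h.w5r h.pABp h.pABm h.pACp h.pACm h.p12m h.p13p h.p13m h.p25p h.p25m h.p34p h.p34m h.p35p h.p35m h.pB2 h.pC1 h.pD1 h.pD4 h.pE2 h.pF3⟩⟩
  | 6 => exact ⟨⟨neg_le.1 (lp_a6m hl hr h.wAlp h.wAbp h.wAbm h.wBbm h.wClp h.wDlp h.wDlm h.wErp h.wEbp h.wEbm h.wFrp h.wFrm h.wFtp h.w4t h.w5r h.pABp h.pABm h.pACp h.pACm h.p12p h.p13p h.p25p h.p25m h.p34p h.p34m h.p35p h.p35m h.pB2 h.pC1 h.pD1 h.pD4 h.pE2 h.pF3),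
      lp_a6p hl hr h.wAbp h.wAbm h.wClp h.wErp h.wEbp h.wEbm h.wFrp h.wFrm h.wFtp h.pACp h.pACm h.p12p h.p12m h.p13p h.p13m h.pC1 h.pE2 h.pF3⟩,
    ⟨neg_le.1 (lp_b6m hl hr h.wAlp h.wAbp h.wAbm h.wBbm h.wClp h.wDlp h.wDlm h.wErp h.wEbp h.wEbm h.w4t h.w5r h.pABp h.pABm h.pACp h.pACm h.p12p h.p12m h.p25p h.p25m h.p34p h.p34m h.p35p h.p35m h.pB2 h.pC1 h.pD1 h.pD4 h.pE2),
      lp_b6p hl hr h.wAlp h.wAbp h.wAbm h.wBbm h.wClp h.wDlp h.wDlm h.wFrp h.wFrm h.wFtp h.w4t h.w5r h.pABp h.pABm h.pACp h.pACm h.p13p h.p13m h.p25p h.p25m h.p34p h.p34m h.p35p h.p35m h.pB2 h.pC1 h.pD1 h.pD4 h.pF3⟩,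
    ⟨neg_le.1 (lp_g6m hl hr h.wAlp h.wBbp h.wBbm h.wDlp h.wDlm h.wErp h.wEbp h.wEbm h.w4t h.w5r h.pABp h.pABm h.p12p h.p12m h.p25p h.p25m h.p34p h.p34m h.p35p h.p35m h.pB2 h.pD1 h.pD4 h.pE2),
      lp_g6p hl hr h.wAbp h.wAbm h.wClp h.wFrp h.wFrm h.wFtp h.pACp h.pACm h.p13p h.p13m h.pC1 h.pF3⟩⟩
  | 7 => exact ⟨⟨neg_le.1 (lp_a7m hl hr h.wAlp h.wAbp h.wAbm h.wBbm h.wClp h.wDlp h.wDlm h.wFrp h.wFrm h.wFtp h.w4t h.w5r h.pABp h.pABm h.pACp h.pACm h.p12m h.p13p h.p13m h.p25p h.p25m h.p34p h.p34m h.p35p h.p35m h.pB2 h.pC1 h.pD1 h.pD4 h.pF3),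
      lp_a7p hl hr h.wAbp h.wAbm h.wClp h.wDlp h.wDlm h.wErp h.wEbp h.wEbm h.wFrp h.wFrm h.wFtp h.w4t h.w5r h.pACp h.pACm h.p12p h.p12m h.p13p h.p13m h.p25p h.p25m h.p34p h.p34m h.p35p h.pC1 h.pD1 h.pD4 h.pE2 h.pF3⟩,
    ⟨neg_le.1 (lp_b7m hl hr h.wAlp h.wAbp h.wAbm h.wBbm h.wClp h.wDlp h.wDlm h.wErp h.wEbp h.wEbm h.wFrp h.wFrm h.wFtp h.w4t h.w5r h.pABp h.pABm h.pACp h.pACm h.p12p h.p13p h.p13m h.p25p h.p25m h.p34p h.p34m h.p35p h.pB2 h.pC1 h.pD1 h.pD4 h.pE2 h.pF3),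
      lp_b7p hl hr h.wAlp h.wAbp h.wAbm h.wBbm h.wClp h.wDlp h.wDlm h.wFrp h.wFrm h.wFtp h.w4t h.w5r h.pABp h.pABm h.pACp h.pACm h.p12m h.p13p h.p13m h.p25p h.p25m h.p34p h.p34m h.p35p h.p35m h.pB2 h.pC1 h.pD1 h.pD4 h.pF3⟩,
    ⟨neg_le.1 (lp_g7m hl hr h.wAlp h.wAbp h.wAbm h.wBbm h.wClp h.wDlp h.wDlm h.wErp h.wEbp h.wEbm h.wFrp h.wFrm h.wFtp h.w4t h.w5r h.pABp h.pABm h.pACp h.pACm h.p12m h.p13m h.p25p h.p25m h.p34p h.p34m h.p35p h.p35m h.pB2 h.pC1 h.pD1 h.pD4 h.pE2 h.pF3),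
      lp_g7p hl hr h.wAlp h.wAbp h.wAbm h.wBbm h.wClp h.wDlp h.wDlm h.wErp h.wEbp h.wEbm h.wFrp h.wFrm h.wFtp h.w4t h.w5r h.pABp h.pABm h.pACp h.pACm h.p12p h.p13p h.p13m h.p25p h.p25m h.p34p h.p34m h.p35p h.pB2 h.pC1 h.pD1 h.pD4 h.pE2 h.pF3⟩⟩
  | 8 => exact ⟨⟨neg_le.1 (lp_a8m hl hr h.wAbp h.wAbm h.wClp h.wDlp h.wDlm h.wErp h.wEbp h.wEbm h.wFrp h.wFrm h.wFtp h.w4t h.pACp h.pACm h.p12p h.p12m h.p13p h.p13m h.p34p h.p34m h.pC1 h.pD1 h.pD4 h.pE2 h.pF3),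
      lp_a8p hl hr h.wAlp h.wAbp h.wAbm h.wBbm h.wClp h.wDlp h.wDlm h.wErp h.wEbp h.wEbm h.wFrp h.wFrm h.wFtp h.w4t h.w5r h.pABp h.pABm h.pACp h.pACm h.p12m h.p13m h.p25p h.p25m h.p34p h.p34m h.p35p h.p35m h.pB2 h.pC1 h.pD1 h.pD4 h.pE2 h.pF3⟩,
    ⟨neg_le.1 (lp_b8m hl hr h.wAlp h.wAbp h.wAbm h.wBbm h.wClp h.wDlp h.wDlm h.wErp h.wEbp h.wEbm h.w4t h.w5r h.pABp h.pABm h.pACp h.pACm h.p12m h.p13p h.p13m h.p25p h.p25m h.p34p h.p34m h.p35p h.p35m h.pB2 h.pC1 h.pD1 h.pD4 h.pE2),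
      lp_b8p hl hr h.wAbp h.wAbm h.wClp h.wDlp h.wDlm h.wErp h.wEbp h.wEbm h.wFrp h.wFrm h.wFtp h.w4t h.pACp h.pACm h.p12p h.p12m h.p13p h.p13m h.p34p h.p34m h.pC1 h.pD1 h.pD4 h.pE2 h.pF3⟩,
    ⟨neg_le.1 (lp_g8m hl hr h.wAlp h.wAbp h.wAbm h.wBbm h.wClp h.wDlp h.wDlm h.wErp h.wEbp h.wEbm h.wFrp h.wFrm h.wFtp h.w4t h.w5r h.pABp h.pABm h.pACp h.pACm h.p12m h.p13m h.p25p h.p25m h.p34p h.p34m h.p35p h.p35m h.pB2 h.pC1 h.pD1 h.pD4 h.pE2 h.pF3),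
      lp_g8p hl hr h.wAbp h.wAbm h.wClp h.wFrp h.wFrm h.wFtp h.pACp h.pACm h.p13p h.p13m h.pC1 h.pF3⟩⟩
  | 9 => exact ⟨⟨neg_le.1 (lp_a9m hl hr h.wAlp h.wAbp h.wAbm h.wBbm h.wClp h.wDlp h.wDlm h.wErp h.wEbp h.wEbm h.wFrp h.wFrm h.wFtp h.w4t h.w5r h.pABp h.pABm h.pACp h.pACm h.p12p h.p12m h.p13p h.p13m h.p25p h.p25m h.p34m h.p35p h.pB2 h.pC1 h.pD1 h.pD4 h.pE2 h.pF3),
      lp_a9p hl hr h.wAlp h.wAbp h.wAbm h.wBbm h.wClp h.wFrp h.wFrm h.wFtp h.w4t h.w5r h.pABp h.pABm h.pACp h.pACm h.p13p h.p13m h.p25p h.p25m h.p34p h.p34m h.p35p h.p35m h.pB2 h.pC1 h.pF3⟩,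
    ⟨neg_le.1 (lp_b9m hl hr h.wAlp h.wAbp h.wAbm h.wBbm h.wClp h.wDlp h.wDlm h.wErp h.wEbp h.wEbm h.wFrp h.wFrm h.wFtp h.w5r h.pABp h.pABm h.pACp h.pACm h.p12m h.p13p h.p13m h.p25p h.p25m h.p34p h.p34m h.p35p h.p35m h.pB2 h.pC1 h.pD1 h.pD4 h.pE2 h.pF3),
      lp_b9p hl hr h.wAlp h.wAbp h.wAbm h.wBbm h.wClp h.wDlp h.wDlm h.wErp h.wEbp h.wEbm h.wFrp h.wFrm h.wFtp h.w4t h.w5r h.pABp h.pABm h.pACp h.pACm h.p12m h.p13p h.p13m h.p25p h.p25m h.p34m h.p35p h.p35m h.pB2 h.pC1 h.pD1 h.pD4 h.pE2 h.pF3⟩,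
    ⟨neg_le.1 (lp_g9m hl hr h.wAlp h.wAbp h.wAbm h.wBbm h.wClp h.wDlp h.wDlm h.wErp h.wEbp h.wEbm h.wFrp h.wFrm h.wFtp h.w4t h.w5r h.pABp h.pABm h.pACp h.pACm h.p12m h.p13p h.p13m h.p25p h.p25m h.p34m h.p35p h.p35m h.pB2 h.pC1 h.pD1 h.pD4 h.pE2 h.pF3),
      lp_g9p hl hr h.wAlp h.wAbp h.wAbm h.wBbm h.wClp h.wDlp h.wDlm h.wErp h.wEbp h.wEbm h.wFrp h.wFrm h.wFtp h.w4t h.w5r h.pABp h.pABm h.pACp h.pACm h.p12m h.p13p h.p13m h.p25p h.p25m h.p34p h.p35p h.p35m h.pB2 h.pC1 h.pD1 h.pD4 h.pE2 h.pF3⟩⟩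
  | 10 => exact ⟨⟨neg_le.1 (lp_a10m hl hr h.wAlp h.wAbp h.wAbm h.wBbm h.wClp h.wDlp h.wDlm h.wErp h.wEbp h.wEbm h.wFrp h.wFrm h.wFtp h.w4t h.pABp h.pABm h.pACp h.pACm h.p12p h.p12m h.p13p h.p13m h.p25p h.p25m h.p34p h.p34m h.p35p h.pB2 h.pC1 h.pD1 h.pD4 h.pE2 h.pF3),
      lp_a10p hl hr h.wAlp h.wAbp h.wAbm h.wBbm h.wClp h.wDlp h.wDlm h.wErp h.wEbp h.wEbm h.wFrp h.wFrm h.wFtp h.w4t h.w5r h.pABp h.pABm h.pACp h.pACm h.p12m h.p13m h.p25p h.p25m h.p34p h.p34m h.p35p h.p35m h.pB2 h.pC1 h.pD1 h.pD4 h.pE2 h.pF3⟩,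
    ⟨neg_le.1 (lp_b10m hl hr h.wAlp h.wAbp h.wAbm h.wBbm h.wClp h.wDlp h.wDlm h.wErp h.wEbp h.wEbm h.wFrp h.wFrm h.wFtp h.w4t h.w5r h.pABp h.pABm h.pACp h.pACm h.p12m h.p13m h.p25p h.p25m h.p34p h.p34m h.p35p h.p35m h.pB2 h.pC1 h.pD1 h.pD4 h.pE2 h.pF3),
      lp_b10p hl hr h.wAbp h.wAbm h.wClp h.wDlp h.wDlm h.wErp h.wEbp h.wEbm h.wFrp h.wFrm h.wFtp h.w4t h.w5r h.pACp h.pACm h.p12p h.p12m h.p13p h.p13m h.p34p h.p34m h.p35p h.p35m h.pC1 h.pD1 h.pD4 h.pE2 h.pF3⟩,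
    ⟨neg_le.1 (lp_g10m hl hr h.wAlp h.wAbp h.wAbm h.wBbm h.wClp h.wDlp h.wDlm h.wErp h.wEbp h.wEbm h.wFrp h.wFrm h.wFtp h.w4t h.w5r h.pABp h.pABm h.pACp h.pACm h.p12m h.p13m h.p25p h.p25m h.p34p h.p34m h.p35p h.p35m h.pB2 h.pC1 h.pD1 h.pD4 h.pE2 h.pF3),
      lp_g10p hl hr h.wAlp h.wAbp h.wAbm h.wBbm h.wClp h.wDlp h.wDlm h.wErp h.wEbp h.wEbm h.wFrp h.wFrm h.wFtp h.w4t h.w5r h.pABp h.pABm h.pACp h.pACm h.p12p h.p13p h.p13m h.p25p h.p25m h.p34p h.p34m h.p35p h.pB2 h.pC1 h.pD1 h.pD4 h.pE2 h.pF3⟩⟩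

end Local
end Pool.Agent.MP_abb58c_co
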