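import Pool.Agent.Lib.MP_abb58c_co.LocalA

/-! MP_abb58c_co, module LOCAL, part C: numerical values of Trump's packing, exclusion of the
separation alternatives -/

namespace Pool.Agent.MP_abb58c_co
namespace Local

/-- the numerical bounds of `SpecExist` -/
structure Num (T : TrumpData) : Prop where
  L0 : 3.8770835900 < T.L
  L1 : T.L < 3.8770835901
  c0 : 0.7639994 < T.c
  c1 : T.c < 0.7639995
  s0 : 0.6452168 < T.s
  s1 : T.s < 0.6452169
  d0 : 2.0325583 < T.d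
  d1 : T.d < 2.0325584
  w0 : 0.4325311 < T.w
  w1 : T.w < 0.4325312

theorem two_sided {x y x0 y0 ex ey X Y : ℝ} (hx : |x - x0| ≤ ex) (hy : |y - y0| ≤ ey)
    (hX : |x0| ≤ X) (hY : |y0| ≤ Y) :
    x0 * y0 - (X * ey + Y * ex + ex * ey) ≤ x * y ∧
      x * y ≤ x0 * y0 + (X * ey + Y * ex + ex * ey) := by
  have h := abs_le.1 (mul_near hx hy)
  have hex : 0 ≤ ex := le_trans (abs_nonneg _) hx
  have hey : 0 ≤ ey := le_trans (abs_nonneg _) hy
  have a1 := mul_le_mul_of_nonneg_right hX hey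
  have a2 := mul_le_mul_of_nonneg_right hY hex
  constructor <;> linarith [h.1, h.2]

noncomputable def RX : Fin 11 → ℝ :=
  ![0.5, 1.5, 0.5, 0.5, 3.377084, 3.377084, 1.688559, 2.424525, 2.436509, 1.536287, 3.172475]
noncomputable def RY : Fin 11 → ℝ :=
  ![0.5, 0.5, 1.5, 2.532558, 0.5, 3.377084, 1.959613, 1.272254, 2.623834, 3.172475, 1.936475]
noncomputable def RC : Fin 11 → ℝ :=
  ![1, 1, 1, 1, 1, 1, 0.7639995, 0.7639995, 0.7639995, 0.7639995, 0.7639995]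
noncomputable def RS : Fin 11 → ℝ :=
  ![0, 0, 0, 0, 0, 0, 0.6452169, 0.6452169, 0.6452169, 0.6452169, 0.6452169]

theorem tilt_near {c s u v u0 v0 X0 Y0 : ℝ} (hc : |c - 0.7639995| ≤ 0.0000001)
    (hs : |s - 0.6452169| ≤ 0.0000001) (hu : |u - u0| ≤ 0.0000003) (hv : |v - v0| ≤ 0.0000003)
    (hu0 : |u0| ≤ 4) (hv0 : |v0| ≤ 4) (hX : |u0 * 0.7639995 - v0 * 0.6452169 - X0| ≤ 0.000001)
    (hY : |u0 * 0.6452169 + v0 * 0.7639995 - Y0| ≤ 0.000001) :
    |u * c - v * s - X0| ≤ 0.000003 ∧ |u * s + v * c - Y0| ≤ 0.000003 := by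
  have n1 : |(0.7639995 : ℝ)| ≤ 0.7639995 := by norm_num [abs_of_pos]
  have n2 : |(0.6452169 : ℝ)| ≤ 0.6452169 := by norm_num [abs_of_pos]
  have h1 := two_sided hu hc hu0 n1
  have h2 := two_sided hv hs hv0 n2
  have h3 := two_sided hu hs hu0 n2
  have h4 := two_sided hv hc hv0 n1
  have hX' := abs_le.1 hX
  have hY' := abs_le.1 hY
  rw [abs_le, abs_le]
  refine ⟨⟨?_, ?_⟩, ?_, ?_⟩ <;> linarith [h1.1, h1.2, h2.1, h2.2, h3.1, h3.2, h4.1, h4.2]

theorem near_cfg {T : TrumpData} (N : Num T) : ∀ i, |(T.cfg i).x - RX i| ≤ 0.000003 ∧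
    |(T.cfg i).y - RY i| ≤ 0.000003 ∧ |(T.cfg i).c - RC i| ≤ 0.0000001 ∧
    |(T.cfg i).s - RS i| ≤ 0.0000001 := by
  obtain ⟨L0, L1, c0, c1, s0, s1, d0, d1, w0, w1⟩ := N
  have hc : |T.c - 0.7639995| ≤ 0.0000001 := by
    rw [abs_le]; constructor <;> linarith
  have hs : |T.s - 0.6452169| ≤ 0.0000001 := by
    rw [abs_le]; constructor <;> linarith
  have hc' : |T.c - 0.76399945| ≤ 0.00000005 := by
    rw [abs_le]; constructor <;> linarith
  have hs' : |T.s - 0.64521685| ≤ 0.00000005 := by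
    rw [abs_le]; constructor <;> linarith
  have hd : |T.d - 2.03255835| ≤ 0.00000005 := by
    rw [abs_le]; constructor <;> linarith
  have hd1 : |(T.d + 1) - 3.03255835| ≤ 0.00000005 := by
    rw [abs_le]; constructor <;> linarith
  have dc := two_sided (X := 2.04) (Y := 0.77) hd hc' (by norm_num [abs_of_pos])
    (by norm_num [abs_of_pos])
  have ds := two_sided (X := 3.04) (Y := 0.65) hd1 hs' (by norm_num [abs_of_pos])
    (by norm_num [abs_of_pos])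
  have hu1 : |(T.c + 2 * T.s + 1 / 2) - 2.5544332| ≤ 0.0000003 := by
    rw [abs_le]; constructor <;> linarith
  have hv1 : |(T.d * T.c - T.s - 1 / 2) - 0.4076566| ≤ 0.0000003 := by
    rw [abs_le]; constructor <;> linarith
  have hu2 : |(2 * T.c + T.s + 1 / 2) - 2.6732158| ≤ 0.0000003 := by
    rw [abs_le]; constructor <;> linarith
  have hv2 : |(T.d * T.c - T.s - 3 / 2) - (-0.5923434)| ≤ 0.0000003 := by
    rw [abs_le]; constructor <;> linarith
  have hu3 : |(T.c + 2 * T.s + 3 / 2) - 3.5544332| ≤ 0.0000003 := by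
    rw [abs_le]; constructor <;> linarith
  have hv3 : |T.w - 0.4325311| ≤ 0.0000003 := by
    rw [abs_le]; constructor <;> linarith
  have hu4 : |(T.c + (T.d + 1) * T.s + 1 / 2) - 3.2206572| ≤ 0.0000003 := by
    rw [abs_le]; constructor <;> linarith
  have hv4 : |(T.w + 1) - 1.4325311| ≤ 0.0000003 := by
    rw [abs_le]; constructor <;> linarith
  have hu5 : |(2 * T.c + T.s + 3 / 2) - 3.6732158| ≤ 0.0000003 := by
    rw [abs_le]; constructor <;> linarith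
  have hv5 : |(T.w - 1) - (-0.5674689)| ≤ 0.0000003 := by
    rw [abs_le]; constructor <;> linarith
  have t1 := tilt_near (X0 := 1.688559) (Y0 := 1.959613) hc hs hu1 hv1 (abs_le.2 ⟨by norm_num, by norm_num⟩)
    (abs_le.2 ⟨by norm_num, by norm_num⟩) (abs_le.2 ⟨by norm_num, by norm_num⟩)
    (abs_le.2 ⟨by norm_num, by norm_num⟩)
  have t2 := tilt_near (X0 := 2.424525) (Y0 := 1.272254) hc hs hu2 hv2 (abs_le.2 ⟨by norm_num, by norm_num⟩)
    (abs_le.2 ⟨by norm_num, by norm_num⟩) (abs_le.2 ⟨by norm_num, by norm_num⟩)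
    (abs_le.2 ⟨by norm_num, by norm_num⟩)
  have t3 := tilt_near (X0 := 2.436509) (Y0 := 2.623834) hc hs hu3 hv3 (abs_le.2 ⟨by norm_num, by norm_num⟩)
    (abs_le.2 ⟨by norm_num, by norm_num⟩) (abs_le.2 ⟨by norm_num, by norm_num⟩)
    (abs_le.2 ⟨by norm_num, by norm_num⟩)
  have t4 := tilt_near (X0 := 1.536287) (Y0 := 3.172475) hc hs hu4 hv4 (abs_le.2 ⟨by norm_num, by norm_num⟩)
    (abs_le.2 ⟨by norm_num, by norm_num⟩) (abs_le.2 ⟨by norm_num, by norm_num⟩)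
    (abs_le.2 ⟨by norm_num, by norm_num⟩)
  have t5 := tilt_near (X0 := 3.172475) (Y0 := 1.936475) hc hs hu5 hv5 (abs_le.2 ⟨by norm_num, by norm_num⟩)
    (abs_le.2 ⟨by norm_num, by norm_num⟩) (abs_le.2 ⟨by norm_num, by norm_num⟩)
    (abs_le.2 ⟨by norm_num, by norm_num⟩)
  have L1' : |(T.L - 1 / 2) - 3.377084| ≤ 0.000003 := by
    rw [abs_le]; constructor <;> linarith
  have d1' : |(T.d + 1 / 2) - 2.532558| ≤ 0.000003 := by
    rw [abs_le]; constructor <;> linarith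
  have z1 : |(1 : ℝ) / 2 - 0.5| ≤ 0.000003 := by norm_num
  have z2 : |(3 : ℝ) / 2 - 1.5| ≤ 0.000003 := by norm_num
  have z3 : |(1 : ℝ) - 1| ≤ 0.0000001 := by norm_num
  have z4 : |(0 : ℝ) - 0| ≤ 0.0000001 := by norm_num
  intro i
  match i with
  | 0 => exact ⟨z1, z1, z3, z4⟩
  | 1 => exact ⟨z2, z1, z3, z4⟩
  | 2 => exact ⟨z1, z2, z3, z4⟩
  | 3 => exact ⟨z1, d1', z3, z4⟩
  | 4 => exact ⟨L1', z1, z3, z4⟩
  | 5 => exact ⟨L1', L1', z3, z4⟩
  | 6 => exact ⟨t1.1, t1.2, hc, hs⟩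
  | 7 => exact ⟨t2.1, t2.2, hc, hs⟩
  | 8 => exact ⟨t3.1, t3.2, hc, hs⟩
  | 9 => exact ⟨t4.1, t4.2, hc, hs⟩
  | 10 => exact ⟨t5.1, t5.2, hc, hs⟩

end Local
end Pool.Agent.MP_abb58c_co
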