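import Pool.Agent.Lib.MP_abb58c_co.LocalC
import Pool.Agent.Lib.MP_abb58c_co.Exact

/-! MP_abb58c_co, module LOCAL, part D: exclusion of the other separation alternatives; data of
a configuration near Trump's packing -/

namespace Pool.Agent.MP_abb58c_co
namespace Local

/-- corner contacts: `q` almost axis parallel, `r` tilted -/
theorem excl_corner {q r : Sq} {dx0 dy0 X Y : ℝ} (hx : |r.x - q.x - dx0| ≤ 0.002006)
    (hy : |r.y - q.y - dy0| ≤ 0.002006) (hqc : |q.c - 1| ≤ 0.00001) (hqs : |q.s - 0| ≤ 0.002)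
    (hrc : |r.c - 0.7639995| ≤ 0.002001) (hrs : |r.s - 0.6452169| ≤ 0.002001)
    (hX : |dx0| ≤ X) (hY : |dy0| ≤ Y) :
    |(r.x - q.x) * q.c + (r.y - q.y) * q.s - dx0| ≤ 0.0021 + 0.0021 * (X + Y) ∧
    |(r.y - q.y) * q.c - (r.x - q.x) * q.s - dy0| ≤ 0.0021 + 0.0021 * (X + Y) ∧
    |(r.x - q.x) * r.c + (r.y - q.y) * r.s - (dx0 * 0.7639995 + dy0 * 0.6452169)|
      ≤ 0.0029 + 0.0021 * (X + Y) ∧
    |(r.y - q.y) * r.c - (r.x - q.x) * r.s - (dy0 * 0.7639995 - dx0 * 0.6452169)|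
      ≤ 0.0029 + 0.0021 * (X + Y) ∧
    0.7 ≤ relH q r := by
  have hX0 : 0 ≤ X := le_trans (abs_nonneg _) hX
  have hY0 : 0 ≤ Y := le_trans (abs_nonneg _) hY
  have o1 : |(1 : ℝ)| ≤ 1 := by norm_num
  have o0 : |(0 : ℝ)| ≤ 0 := by norm_num
  have oc : |(0.7639995 : ℝ)| ≤ 0.7639995 := by norm_num [abs_of_pos]
  have os : |(0.6452169 : ℝ)| ≤ 0.6452169 := by norm_num [abs_of_pos]
  have a1 := two_sided hx hqc hX o1
  have a2 := two_sided hy hqs hY o0
  have a3 := two_sided hy hqc hY o1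
  have a4 := two_sided hx hqs hX o0
  have a5 := two_sided hx hrc hX oc
  have a6 := two_sided hy hrs hY os
  have a7 := two_sided hy hrc hY oc
  have a8 := two_sided hx hrs hX os
  refine ⟨?_, ?_, ?_, ?_, ?_⟩
  · rw [abs_le]; constructor <;> linarith [a1.1, a1.2, a2.1, a2.2]
  · rw [abs_le]; constructor <;> linarith [a3.1, a3.2, a4.1, a4.2]
  · rw [abs_le]; constructor <;> linarith [a5.1, a5.2, a6.1, a6.2]
  · rw [abs_le]; constructor <;> linarith [a7.1, a7.2, a8.1, a8.2]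
  · have b1 := two_sided hqc hrc o1 oc
    have b2 := two_sided hqs hrs o0 os
    have b3 := two_sided hqc hrs o1 os
    have b4 := two_sided hqs hrc o0 oc
    have c1 := le_abs_self (q.c * r.c + q.s * r.s)
    have c2 := le_abs_self (q.c * r.s - q.s * r.c)
    unfold relH
    linarith [b1.1, b2.1, b3.1, b4.2]

/-- edge contacts: `q` and `r` almost parallel -/
theorem excl_edge {q r : Sq} {dx0 dy0 X Y c0 s0 : ℝ} (hx : |r.x - q.x - dx0| ≤ 0.002006)
    (hy : |r.y - q.y - dy0| ≤ 0.002006) (hqc : |q.c - c0| ≤ 0.002001)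
    (hqs : |q.s - s0| ≤ 0.002001)
    (hrc : |r.c - c0| ≤ 0.002001) (hrs : |r.s - s0| ≤ 0.002001)
    (hX : |dx0| ≤ X) (hY : |dy0| ≤ Y) (hc0 : 0 ≤ c0) (hs0 : 0 ≤ s0) (hcs : c0 + s0 ≤ 1.42)
    (hu : 0.9999 ≤ c0 * c0 + s0 * s0) :
    |(r.x - q.x) * q.c + (r.y - q.y) * q.s - (dx0 * c0 + dy0 * s0)|
      ≤ 0.0029 + 0.0021 * (X + Y) ∧
    |(r.y - q.y) * q.c - (r.x - q.x) * q.s - (dy0 * c0 - dx0 * s0)|
      ≤ 0.0029 + 0.0021 * (X + Y) ∧
    |(r.x - q.x) * r.c + (r.y - q.y) * r.s - (dx0 * c0 + dy0 * s0)|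
      ≤ 0.0029 + 0.0021 * (X + Y) ∧
    |(r.y - q.y) * r.c - (r.x - q.x) * r.s - (dy0 * c0 - dx0 * s0)|
      ≤ 0.0029 + 0.0021 * (X + Y) ∧
    0.49 ≤ relH q r := by
  have hX0 : 0 ≤ X := le_trans (abs_nonneg _) hX
  have hY0 : 0 ≤ Y := le_trans (abs_nonneg _) hY
  have oc : |c0| ≤ c0 := (abs_of_nonneg hc0).le
  have os : |s0| ≤ s0 := (abs_of_nonneg hs0).le
  have a1 := two_sided hx hqc hX oc
  have a2 := two_sided hy hqs hY os
  have a3 := two_sided hy hqc hY oc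
  have a4 := two_sided hx hqs hX os
  have a5 := two_sided hx hrc hX oc
  have a6 := two_sided hy hrs hY os
  have a7 := two_sided hy hrc hY oc
  have a8 := two_sided hx hrs hX os
  refine ⟨?_, ?_, ?_, ?_, ?_⟩
  · rw [abs_le]; constructor <;> linarith [a1.1, a1.2, a2.1, a2.2]
  · rw [abs_le]; constructor <;> linarith [a3.1, a3.2, a4.1, a4.2]
  · rw [abs_le]; constructor <;> linarith [a5.1, a5.2, a6.1, a6.2]
  · rw [abs_le]; constructor <;> linarith [a7.1, a7.2, a8.1, a8.2]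
  · have b1 := two_sided hqc hrc oc oc
    have b2 := two_sided hqs hrs os os
    have c1 := le_abs_self (q.c * r.c + q.s * r.s)
    have c2 := abs_nonneg (q.c * r.s - q.s * r.c)
    unfold relH
    linarith [b1.1, b2.1]

/-- deviations of a configuration from Trump's packing -/
noncomputable def dA (T : TrumpData) (q : Fin 11 → Sq) (i : Fin 11) : ℝ := (q i).x - (T.cfg i).x
noncomputable def dB (T : TrumpData) (q : Fin 11 → Sq) (i : Fin 11) : ℝ := (q i).y - (T.cfg i).y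
noncomputable def dG (T : TrumpData) (q : Fin 11 → Sq) (i : Fin 11) : ℝ :=
  (q i).s * (T.cfg i).c - (q i).c * (T.cfg i).s
noncomputable def dK (T : TrumpData) (q : Fin 11 → Sq) (i : Fin 11) : ℝ :=
  (q i).c * (T.cfg i).c + (q i).s * (T.cfg i).s

structure Dev (T : TrumpData) (L : ℝ) (q : Fin 11 → Sq) (r : ℝ) : Prop where
  num : Num T
  pack : Pack L q
  hL : L ≤ T.L
  sep : ∀ i j, i ≠ j → Sep (q i) (q j)
  x : ∀ i, |(q i).x - (T.cfg i).x| ≤ 1 / 1000
  y : ∀ i, |(q i).y - (T.cfg i).y| ≤ 1 / 1000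
  c : ∀ i, |(q i).c - (T.cfg i).c| ≤ 1 / 500
  s : ∀ i, |(q i).s - (T.cfg i).s| ≤ 1 / 500
  a : ∀ i, |dA T q i| ≤ r
  b : ∀ i, |dB T q i| ≤ r
  g : ∀ i, |dG T q i| ≤ r

variable {T : TrumpData} {L r : ℝ} {q : Fin 11 → Sq}

namespace Dev

theorem hr (D : Dev T L q r) : 0 ≤ r := le_trans (abs_nonneg _) (D.a 0)

theorem nc (D : Dev T L q r) (i : Fin 11) : |(q i).c - RC i| ≤ 0.002001 := by
  have h1 := abs_le.1 (D.c i)
  have h2 := abs_le.1 (near_cfg D.num i).2.2.1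
  rw [abs_le]; constructor <;> linarith [h1.1, h1.2, h2.1, h2.2]

theorem ns (D : Dev T L q r) (i : Fin 11) : |(q i).s - RS i| ≤ 0.002001 := by
  have h1 := abs_le.1 (D.s i)
  have h2 := abs_le.1 (near_cfg D.num i).2.2.2
  rw [abs_le]; constructor <;> linarith [h1.1, h1.2, h2.1, h2.2]

theorem dx (D : Dev T L q r) (i j : Fin 11) :
    |(q j).x - (q i).x - (RX j - RX i)| ≤ 0.002006 := by
  have h1 := abs_le.1 (D.x i)
  have h2 := abs_le.1 (near_cfg D.num i).1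
  have h3 := abs_le.1 (D.x j)
  have h4 := abs_le.1 (near_cfg D.num j).1
  rw [abs_le]
  constructor <;> linarith [h1.1, h1.2, h2.1, h2.2, h3.1, h3.2, h4.1, h4.2]

theorem dy (D : Dev T L q r) (i j : Fin 11) :
    |(q j).y - (q i).y - (RY j - RY i)| ≤ 0.002006 := by
  have h1 := abs_le.1 (D.y i)
  have h2 := abs_le.1 (near_cfg D.num i).2.1
  have h3 := abs_le.1 (D.y j)
  have h4 := abs_le.1 (near_cfg D.num j).2.1
  rw [abs_le]
  constructor <;> linarith [h1.1, h1.2, h2.1, h2.2, h3.1, h3.2, h4.1, h4.2]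

/-- almost axis parallel squares -/
theorem axis (D : Dev T L q r) (i : Fin 11) (hc : (T.cfg i).c = 1) (hs : (T.cfg i).s = 0) :
    0 < (q i).c ∧ |(q i).s| ≤ 1 / 500 ∧ |(q i).c - 1| ≤ 0.00001 ∧ dG T q i = (q i).s ∧
      1 / 2 + 0.498 * |(q i).s| ≤ (q i).h := by
  have h1 := abs_le.1 (D.c i)
  have h2 := D.s i
  have hu := D.pack.unit i
  rw [hc] at h1
  rw [hs, sub_zero] at h2
  have hpos : 0 < (q i).c := by linarith [h1.1]
  have hle : (q i).c ≤ 1 := by nlinarith [sq_nonneg (q i).s]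
  have hs2 : (q i).s ^ 2 ≤ 0.000004 := by
    have := pow_le_pow_left₀ (abs_nonneg (q i).s) h2 2
    rw [sq_abs] at this
    linarith
  refine ⟨hpos, h2, ?_, ?_, h_axis hu hpos h2⟩
  · rw [abs_le]; constructor <;> nlinarith
  · unfold dG; rw [hc, hs]; ring

/-- tilted squares -/
theorem tilt (D : Dev T L q r) (i : Fin 11) (hc : (T.cfg i).c = T.c) (hs : (T.cfg i).s = T.s) :
    dK T q i ^ 2 + dG T q i ^ 2 = 1 ∧ 0 < dK T q i ∧ |dG T q i| ≤ 0.00283 ∧
      (q i).c = T.c * dK T q i - T.s * dG T q i ∧ (q i).s = T.s * dK T q i + T.c * dG T q i := by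
  have h1 := abs_le.1 (D.c i)
  have h2 := abs_le.1 (D.s i)
  have hu := D.pack.unit i
  have hcs := T.cs1
  have hn := D.num
  have c0 := T.c_pos
  have s0 := T.s_pos
  unfold dK dG
  rw [hc, hs] at *
  refine ⟨?_, ?_, ?_, ?_, ?_⟩
  · linear_combination ((q i).c ^ 2 + (q i).s ^ 2) * hcs + hu
  · have e1 : (T.c - 1 / 500) * T.c ≤ (q i).c * T.c :=
      mul_le_mul_of_nonneg_right (by linarith [h1.1]) c0.le
    have e2 : (T.s - 1 / 500) * T.s ≤ (q i).s * T.s :=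
      mul_le_mul_of_nonneg_right (by linarith [h2.1]) s0.le
    nlinarith [hn.c1, hn.s1]
  · have e : (q i).s * T.c - (q i).c * T.s = ((q i).s - T.s) * T.c - ((q i).c - T.c) * T.s := by
      ring
    rw [e]
    have f1 : |((q i).s - T.s) * T.c| ≤ 1 / 500 * T.c := by
      rw [abs_mul, abs_of_pos c0]
      exact mul_le_mul_of_nonneg_right (abs_le.2 h2) c0.le
    have f2 : |((q i).c - T.c) * T.s| ≤ 1 / 500 * T.s := by
      rw [abs_mul, abs_of_pos s0]
      exact mul_le_mul_of_nonneg_right (abs_le.2 h1) s0.le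
    have := abs_sub (((q i).s - T.s) * T.c) (((q i).c - T.c) * T.s)
    linarith [hn.c1, hn.s1]
  · linear_combination (-(q i).c) * hcs
  · linear_combination (-(q i).s) * hcs

end Dev

/-- from the surviving alternative of a corner contact to the linear inequality -/
theorem corner_final {T : TrumpData} (N : Num T) {q r : Sq} {E F F0 kr sr ρ : ℝ}
    (hq : q.c ^ 2 + q.s ^ 2 = 1) (hr : kr ^ 2 + sr ^ 2 = 1)
    (hkq : 0 < q.c) (hkr : 0 < kr) (h1 : |q.s| ≤ 1 / 500) (h2 : |sr| ≤ 0.00283)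
    (h3 : |q.s| ≤ ρ) (h4 : |sr| ≤ ρ)
    (hrc : r.c = T.c * kr - T.s * sr) (hrs : r.s = T.s * kr + T.c * sr)
    (hE : 0 ≤ E) (hF : |F - F0| ≤ 0.0029)
    (h : 1 / 2 + relH q r ≤ E * kr + F * sr) :
    -(0.0065 * ρ) ≤ E - (1 / 2 + (T.c + T.s) / 2) + F0 * sr - 0.0594 * (sr - q.s) := by
  refine corner N.c0 N.c1 N.s0 N.s1 hq hr hkq hkr (le_trans h1 (by norm_num)) h2 h3 h4 hE hF ?_
  refine le_trans ?_ h
  have c1 := le_abs_self (q.c * r.c + q.s * r.s)
  have c2 := le_abs_self (q.c * r.s - q.s * r.c)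
  unfold relH
  rw [hrc, hrs] at *
  linarith

/-- from the surviving alternatives of an edge contact to the linear inequalities -/
theorem edge_final {C S : ℝ} (hCS : C ^ 2 + S ^ 2 = 1) {q r : Sq} {E F F0 kq sq kr sr ρ : ℝ}
    (hq : kq ^ 2 + sq ^ 2 = 1) (hr : kr ^ 2 + sr ^ 2 = 1)
    (hkq : 0 < kq) (hkr : 0 < kr) (h1 : |sq| ≤ 0.00283) (h2 : |sr| ≤ 0.00283)
    (h3 : |sq| ≤ ρ) (h4 : |sr| ≤ ρ)
    (hqc : q.c = C * kq - S * sq) (hqs : q.s = S * kq + C * sq)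
    (hrc : r.c = C * kr - S * sr) (hrs : r.s = S * kr + C * sr)
    (hE : 0 ≤ E) (hF : |F - F0| ≤ 0.0029) (hF0 : 0 ≤ F0) (hF1 : F0 ≤ 1 / 2)
    (h : 1 / 2 + relH q r ≤ E * kq + F * sq ∨ 1 / 2 + relH q r ≤ E * kr + F * sr) :
    (1 / 2 - F0) * (sr - sq) - 0.006 * ρ ≤ E - 1 + F0 * sq ∧
    -(1 / 2 * (sr - sq)) - 0.006 * ρ ≤ E - 1 + F0 * sq := by
  have e1 : q.c * r.c + q.s * r.s = kq * kr + sq * sr := by
    rw [hqc, hqs, hrc, hrs]
    linear_combination (kq * kr + sq * sr) * hCS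
  have e2 : q.c * r.s - q.s * r.c = kq * sr - sq * kr := by
    rw [hqc, hqs, hrc, hrs]
    linear_combination (kq * sr - sq * kr) * hCS
  have hR : ((kq * kr + sq * sr) + |kq * sr - sq * kr|) / 2 ≤ relH q r := by
    unfold relH
    rw [e1, e2]
    linarith [le_abs_self (kq * kr + sq * sr)]
  have key : |sr - sq| / 2 - 0.006 * ρ ≤ E - 1 + F0 * sq ∨
      |sr - sq| / 2 - 0.006 * ρ ≤ E - 1 + F0 * sr := by
    rcases h with h | h
    · left
      exact edge hq hr hkq hkr h1 h2 h3 h4 hE hF (Or.inl ⟨rfl, rfl⟩) (by linarith)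
    · right
      exact edge hq hr hkq hkr h1 h2 h3 h4 hE hF (Or.inr ⟨rfl, rfl⟩) (by linarith)
  have f1 : F0 * sr = F0 * sq + F0 * (sr - sq) := by ring
  have f2 : (1 / 2 - F0) * (sr - sq) = 1 / 2 * (sr - sq) - F0 * (sr - sq) := by ring
  rcases le_total 0 (sr - sq) with hs | hs
  · rw [abs_of_nonneg hs] at key
    have h7 := mul_nonneg hF0 hs
    have h8 : 0 ≤ (1 / 2 - F0) * (sr - sq) := mul_nonneg (by linarith) hs
    rcases key with key | key <;> constructor <;> linarith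
  · rw [abs_of_nonpos hs] at key
    have h7 : F0 * (sr - sq) ≤ 0 := mul_nonpos_of_nonneg_of_nonpos hF0 hs
    have h8 : (1 / 2 - F0) * (sr - sq) ≤ 0 := mul_nonpos_of_nonneg_of_nonpos (by linarith) hs
    rcases key with key | key <;> constructor <;> linarith

end Local
end Pool.Agent.MP_abb58c_co
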