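import Pool.Agent.Lib.MP_abb58c_co.CertAll
import Pool.Agent.Lib.MP_abb58c_co.Fine

/-! MP_abb58c_co: the value of `s(11)`. -/

namespace Pool.Agent.MP_abb58c_co

/-- `s(11)` is the side of Trump's packing -/
theorem statement : Statement := statement_of_fine fine

end Pool.Agent.MP_abb58c_co
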