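import Pool.Agent.Lib.MP_abb58c_co.RectDefs
import Pool.Agent.Lib.MP_abb58c_co.Tree

/-! MP_abb58c_co: the procedures of the tree checker made from the rectangle checker. -/

set_option linter.unusedVariables false

namespace Pool.Agent.MP_abb58c_co

namespace Rect

open Sweep

/-- packed coordinates `x + 2^21 y` of weighted points -/
noncomputable def packR3 (E : List (ℕ × ℕ × ℕ)) : ℕ :=
  List.rec (motive := fun _ => ℕ) (nat_lit 0) (fun p _ ih =>
    Nat.add (Nat.add p.1 (Nat.mul (nat_lit 2097152) p.2.1)) (Nat.mul (nat_lit 4398046511104) ih)) E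
/-- packed weights of weighted points -/
noncomputable def packW3 (E : List (ℕ × ℕ × ℕ)) : ℕ :=
  List.rec (motive := fun _ => ℕ) (nat_lit 0) (fun p _ ih =>
    Nat.add p.2.2 (Nat.mul (nat_lit 4398046511104) ih)) E
/-- number of weighted points -/
noncomputable def lenR3 (E : List (ℕ × ℕ × ℕ)) : ℕ :=
  List.rec (motive := fun _ => ℕ) (nat_lit 0) (fun _ _ ih => Nat.add ih (nat_lit 1)) E
/-- positive if some coordinate is `> 387710` or some weight is `>= 2 ^ 20` -/
noncomputable def badP3 (E : List (ℕ × ℕ × ℕ)) : ℕ :=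
  List.rec (motive := fun _ => ℕ) (nat_lit 0) (fun p _ ih =>
    Nat.add (Nat.add (Nat.add (Nat.sub p.1 (nat_lit 387710)) (Nat.sub p.2.1 (nat_lit 387710)))
      (Nat.sub p.2.2 (nat_lit 1048575))) ih) E

/-- the measure together with extra weighted points: the extra points come first -/
noncomputable def extend (m : Meas) (E : List (ℕ × ℕ × ℕ)) (k : Meas → Bool) : Bool :=
  force (Nat.add (lenR3 E) m.n) fun n =>
  force (Nat.add (packR3 E) (Nat.shiftLeft m.P (Nat.mul (nat_lit 42) (lenR3 E)))) fun P =>
  force (Nat.add (packW3 E) (Nat.shiftLeft m.W (Nat.mul (nat_lit 42) (lenR3 E)))) fun W =>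
    k ⟨n, P, W⟩

/-- all jobs `(b, thr, chunks)` for the measure `m`, contained points `C`, avoided points `A` -/
noncomputable def swAllR (m : Meas) (C A : List (ℕ × ℕ)) (ts : List (Box × ℕ × List ℕ)) : Bool :=
  List.rec (motive := fun _ => Bool) true
    (fun t _ ih => andB (piece m C A t.1 t.2.1 t.2.2) ih) ts

/-- the sweep -/
noncomputable def swR (m : Meas) (E : List (ℕ × ℕ × ℕ)) (C A : List (ℕ × ℕ))
    (ts : List (Box × ℕ × List ℕ)) : Bool :=
  andB (Nat.ble (badP3 E) (nat_lit 0)) (extend m E fun m' => swAllR m' C A ts)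

/-- Z-check: the point `z` with weight `1` and threshold `1`; one chunk for each box -/
noncomputable def zAllR (m : Meas) (C A : List (ℕ × ℕ)) (B : List Box) : List ℕ → Bool :=
  List.rec (motive := fun _ => List ℕ → Bool) (fun _ => true)
    (fun b _ ih a => List.rec (motive := fun _ => Bool) false
      (fun c a' _ => andB (piece m C A b (nat_lit 1) [c]) (ih a')) a) B

/-- Z-check -/
noncomputable def zcR (z : ℕ × ℕ) (C A : List (ℕ × ℕ)) (B : List Box) (a : List ℕ) : Bool :=
  andB (Nat.ble (Nat.add (Nat.sub z.1 (nat_lit 387710)) (Nat.sub z.2 (nat_lit 387710))) (nat_lit 0))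
    (zAllR ⟨nat_lit 1, Nat.add z.1 (Nat.mul (nat_lit 2097152) z.2), nat_lit 1⟩ C A B a)

/-- total mass (an upper bound if there are more than `2 ^ 21` points) -/
noncomputable def totR (m : Meas) : ℕ :=
  Nat.add (Nat.mod (wtF m.n m.W) (nat_lit 4398046511103))
    (Nat.mul (Nat.div m.n (nat_lit 2097152)) (Nat.mul m.n (nat_lit 1048576)))

/-- the procedures of the tree checker -/
noncomputable def rectOps : Ops Meas (List ℕ) where
  dec m := decM m.n m.P m.W
  tot := totR
  sw := swR
  zc := zcR

end Rect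

end Pool.Agent.MP_abb58c_co
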