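import Pool.Agent.Lib.MP_abb58c_co.RectPiece
import Pool.Agent.Lib.MP_abb58c_co.RectOps

/-! MP_abb58c_co: soundness of the procedures of the tree checker made from the rectangle
checker. -/

namespace Pool.Agent.MP_abb58c_co

namespace Rect

open Sweep

theorem badP3_sound {E : List (ℕ × ℕ × ℕ)} (h : badP3 E = 0) :
    ∀ p ∈ E, p.1 ≤ 387710 ∧ p.2.1 ≤ 387710 ∧ p.2.2 ≤ 1048575 := by
  induction E with
  | nil => simp
  | cons r E ih =>
    have h' : (r.1 - 387710 + (r.2.1 - 387710) + (r.2.2 - 1048575)) + badP3 E = 0 := h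
    intro p hp
    rcases List.mem_cons.1 hp with rfl | hp
    · omega
    · exact ih (by omega) p hp

theorem decM_extend (m : Meas) {E : List (ℕ × ℕ × ℕ)} (h : badP3 E = 0) :
    decM (lenR3 E + m.n) (packR3 E + m.P <<< (42 * lenR3 E)) (packW3 E + m.W <<< (42 * lenR3 E)) =
      E ++ decM m.n m.P m.W := by
  induction E with
  | nil =>
    have e1 : lenR3 [] = 0 := rfl
    have e2 : packR3 [] = 0 := rfl
    have e3 : packW3 [] = 0 := rfl
    rw [e1, e2, e3, Nat.mul_zero, Nat.shiftLeft_zero, Nat.shiftLeft_zero, Nat.zero_add,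
      Nat.zero_add, Nat.zero_add]
    rfl
  | cons p E ih =>
    have h' : (p.1 - 387710 + (p.2.1 - 387710) + (p.2.2 - 1048575)) + badP3 E = 0 := h
    have e1 : lenR3 (p :: E) = lenR3 E + 1 := rfl
    have e2 : packR3 (p :: E) = (p.1 + 2097152 * p.2.1) + 4398046511104 * packR3 E := rfl
    have e3 : packW3 (p :: E) = p.2.2 + 4398046511104 * packW3 E := rfl
    have f1 : ∀ X : ℕ, X <<< (42 * (lenR3 E + 1)) = 4398046511104 * (X <<< (42 * lenR3 E)) := by
      intro X
      rw [Nat.shiftLeft_eq, Nat.shiftLeft_eq, show 42 * (lenR3 E + 1) = 42 * lenR3 E + 42 by ring,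
        pow_add, show (2 : ℕ) ^ 42 = 4398046511104 by norm_num]
      ring
    rw [e1, e2, e3, f1, f1, show lenR3 E + 1 + m.n = (lenR3 E + m.n) + 1 by ring, decM,
      List.cons_append]
    have g1 : (p.1 + 2097152 * p.2.1 + 4398046511104 * packR3 E +
        4398046511104 * (m.P <<< (42 * lenR3 E))) =
        p.1 + 2097152 * p.2.1 + 4398046511104 * (packR3 E + m.P <<< (42 * lenR3 E)) := by ring
    have g2 : (p.2.2 + 4398046511104 * packW3 E + 4398046511104 * (m.W <<< (42 * lenR3 E))) =
        p.2.2 + 4398046511104 * (packW3 E + m.W <<< (42 * lenR3 E)) := by ring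
    rw [g1, g2, ← ih (by omega)]
    generalize packR3 E + m.P <<< (42 * lenR3 E) = X
    generalize packW3 E + m.W <<< (42 * lenR3 E) = Y
    have k1 : (p.1 + 2097152 * p.2.1 + 4398046511104 * X) % 2 ^ 21 = p.1 := by
      norm_num; omega
    have k2 : (p.1 + 2097152 * p.2.1 + 4398046511104 * X) / 2 ^ 21 % 2 ^ 21 = p.2.1 := by
      norm_num; omega
    have k3 : (p.1 + 2097152 * p.2.1 + 4398046511104 * X) / 2 ^ 42 = X := by
      norm_num; omega
    have k4 : (p.2.2 + 4398046511104 * Y) % 2 ^ 20 = p.2.2 := by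
      norm_num; omega
    have k5 : (p.2.2 + 4398046511104 * Y) / 2 ^ 42 = Y := by
      norm_num; omega
    rw [k1, k2, k3, k4, k5]

theorem boxSound_comm {E mu : List (ℕ × ℕ × ℕ)} {C A : List (ℕ × ℕ)} {b : Box} {thr : ℕ}
    (h : BoxSound (E ++ mu) C A b thr) : BoxSound (mu ++ E) C A b thr := by
  intro q hu hc hb hC hA
  have := h q hu hc hb hC hA
  rw [wt_append] at this ⊢
  linarith

theorem swAllR_sound (hP : SpecPiece) {m : Meas} {C A : List (ℕ × ℕ)}
    {ts : List (Box × ℕ × List ℕ)} (h : swAllR m C A ts = true) :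
    ∀ t ∈ ts, BoxSound (decM m.n m.P m.W) C A t.1 t.2.1 := by
  induction ts with
  | nil => simp
  | cons r ts ih =>
    have h' : andB (piece m C A r.1 r.2.1 r.2.2) (swAllR m C A ts) = true := h
    rw [andB_eq, Bool.and_eq_true] at h'
    intro t ht
    rcases List.mem_cons.1 ht with rfl | ht
    · exact hP _ _ _ _ _ _ h'.1
    · exact ih h'.2 t ht

theorem swR_sound (hP : SpecPiece) {m : Meas} {E : List (ℕ × ℕ × ℕ)} {C A : List (ℕ × ℕ)}
    {ts : List (Box × ℕ × List ℕ)} (h : swR m E C A ts = true) :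
    ∀ t ∈ ts, BoxSound (decM m.n m.P m.W ++ E) C A t.1 t.2.1 := by
  rw [swR, andB_eq, Bool.and_eq_true, Nat.ble_eq, Nat.le_zero, extend, force_eq, force_eq,
    force_eq] at h
  intro t ht
  have h1 := swAllR_sound hP h.2 t ht
  have h2 := decM_extend m h.1
  refine boxSound_comm ?_
  rw [← h2]
  exact h1

theorem zAllR_sound (hP : SpecPiece) {m : Meas} {C A : List (ℕ × ℕ)} {B : List Box} :
    ∀ {a : List ℕ}, zAllR m C A B a = true → ∀ b ∈ B, BoxSound (decM m.n m.P m.W) C A b 1 := by
  induction B with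
  | nil => simp
  | cons b B ih =>
    intro a h
    cases a with
    | nil => exact absurd h (by simp [zAllR])
    | cons c a =>
      have h' : andB (piece m C A b 1 [c]) (zAllR m C A B a) = true := h
      rw [andB_eq, Bool.and_eq_true] at h'
      intro t ht
      rcases List.mem_cons.1 ht with rfl | ht
      · exact hP _ _ _ _ _ _ h'.1
      · exact ih h'.2 t ht

theorem zcR_sound (hP : SpecPiece) {z : ℕ × ℕ} {C A : List (ℕ × ℕ)} {B : List Box} {a : List ℕ}
    (h : zcR z C A B a = true) : ZSound C A B z := by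
  rw [zcR, andB_eq, Bool.and_eq_true, Nat.ble_eq, Nat.le_zero] at h
  obtain ⟨h0, h1⟩ := h
  have h0' : (z.1 - 387710) + (z.2 - 387710) = 0 := h0
  refine zsound_of_boxes fun b hb => ?_
  have h2 := zAllR_sound hP h1 b hb
  have e : decM 1 (z.1 + 2097152 * z.2) 1 = [(z.1, z.2, 1)] := by
    rw [decM, decM]
    have k1 : (z.1 + 2097152 * z.2) % 2 ^ 21 = z.1 := by norm_num; omega
    have k2 : (z.1 + 2097152 * z.2) / 2 ^ 21 % 2 ^ 21 = z.2 := by norm_num; omega
    rw [k1, k2]
    rfl
  rw [← e]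
  exact h2

/-- the weights of a measure (proved in the file on arrays) -/
def SpecW : Prop := ∀ n P W : ℕ, wtF n W = pack 42 ((decM n P W).map fun p => p.2.2)

theorem decM_w (n : ℕ) : ∀ P W : ℕ, ((decM n P W).map fun p => p.2.2).sum ≤ n * 1048575 := by
  induction n with
  | zero => intro P W; simp [decM]
  | succ n ih =>
    intro P W
    rw [decM, List.map_cons, List.sum_cons]
    have h1 := ih (P / 2 ^ 42) (W / 2 ^ 42)
    have h2 : W % 2 ^ 20 ≤ 1048575 := by
      have := Nat.mod_lt W (show 0 < 2 ^ 20 by norm_num)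
      norm_num at this ⊢
      omega
    calc W % 2 ^ 20 + _ ≤ 1048575 + n * 1048575 := add_le_add h2 h1
      _ = (n + 1) * 1048575 := by ring

theorem totR_sound (hW : SpecW) (m : Meas) :
    ((decM m.n m.P m.W).map fun p => p.2.2).sum ≤ totR m := by
  have h1 := decM_w m.n m.P m.W
  change _ ≤ wtF m.n m.W % 4398046511103 + m.n / 2097152 * (m.n * 1048576)
  rcases Nat.lt_or_ge m.n 2097152 with h | h
  · have h2 : wtF m.n m.W % 4398046511103 = ((decM m.n m.P m.W).map fun p => p.2.2).sum := by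
      rw [hW m.n m.P m.W]
      have h3 := pack_mod_eq 42 ((decM m.n m.P m.W).map fun p => p.2.2) (by norm_num; omega)
      norm_num at h3
      exact h3
    omega
  · have h2 : 1 ≤ m.n / 2097152 := (Nat.one_le_div_iff (by norm_num)).2 h
    calc _ ≤ m.n * 1048575 := h1
      _ ≤ 1 * (m.n * 1048576) := by omega
      _ ≤ m.n / 2097152 * (m.n * 1048576) := Nat.mul_le_mul_right _ h2
      _ ≤ _ := Nat.le_add_left _ _

theorem rectOps_zc : rectOps.zc = zcR := by
  simp only [rectOps]

theorem rectOps_sound_of (hP : SpecPiece) (hW : SpecW) : rectOps.Sound where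
  tot := by
    intro m
    change ((decM m.n m.P m.W).map fun p => p.2.2).sum ≤ totR m
    exact totR_sound hW m
  sw := by
    intro m E C A ts h
    have h' : swR m E C A ts = true := h
    exact @swR_sound hP m E C A ts h'
  zc := by
    intro z C A B a h
    rw [rectOps_zc] at h
    exact zcR_sound hP h

end Rect

end Pool.Agent.MP_abb58c_co
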