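import Pool.Agent.Lib.MP_abb58c_co.RectLane
import Pool.Agent.Lib.MP_abb58c_co.RectOpsSound

/-! MP_abb58c_co: RECTANGLE CHECKER, arrays (`SpecArr`), weights (`SpecW`), and the final
soundness theorems. -/

namespace Pool.Agent.MP_abb58c_co

namespace Rect

open Sweep Lane

namespace Arr

theorem onesR_eq (n : ℕ) : onesR n = pack 42 (List.replicate n 1) := by
  rw [← rep_eq_pack 42 n (by norm_num), rep]
  rfl

theorem onesR_enc (l : List (ℕ × ℕ × ℕ)) : onesR l.length = enc (fun _ => 1) l := by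
  rw [onesR_eq, enc, List.map_const']

theorem decM_length (n : ℕ) : ∀ P W : ℕ, (decM n P W).length = n := by
  induction n with
  | zero => intro P W; rfl
  | succ n ih => intro P W; rw [decM, List.length_cons, ih]

theorem onesR_succ (n : ℕ) : onesR (n + 1) = 1 + 2 ^ 42 * onesR n := by
  rw [onesR_eq, onesR_eq, List.replicate_succ, pack_cons]

theorem mask_succ (n c X : ℕ) (hc : c < 2 ^ 42) :
    X &&& (onesR (n + 1) * c) = (X % 2 ^ 42 &&& c) + 2 ^ 42 * (X / 2 ^ 42 &&& (onesR n * c)) := by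
  have h1 : onesR (n + 1) * c = c + 2 ^ 42 * (onesR n * c) := by rw [onesR_succ]; ring
  have h2 : X = X % 2 ^ 42 + 2 ^ 42 * (X / 2 ^ 42) := (Nat.mod_add_div X (2 ^ 42)).symm
  rw [h1]
  conv_lhs => rw [h2]
  exact and_add_mul 42 _ _ _ _ (Nat.mod_lt _ (by norm_num)) hc

theorem loF_succ (n P : ℕ) : loF (n + 1) P = P % 2 ^ 21 + 2 ^ 42 * loF n (P / 2 ^ 42) := by
  change P &&& (onesR (n + 1) * 2097151) = P % 2 ^ 21 + 2 ^ 42 * (P / 2 ^ 42 &&& (onesR n * 2097151))
  rw [mask_succ n 2097151 P (by norm_num)]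
  congr 1
  have h1 : (2097151 : ℕ) = 2 ^ 21 - 1 := by norm_num
  rw [h1, Nat.and_two_pow_sub_one_eq_mod, Nat.mod_mod_of_dvd _ (pow_dvd_pow 2 (by norm_num))]

theorem wtF_succ (n P : ℕ) : wtF (n + 1) P = P % 2 ^ 20 + 2 ^ 42 * wtF n (P / 2 ^ 42) := by
  change P &&& (onesR (n + 1) * 1048575) = P % 2 ^ 20 + 2 ^ 42 * (P / 2 ^ 42 &&& (onesR n * 1048575))
  rw [mask_succ n 1048575 P (by norm_num)]
  congr 1
  have h1 : (1048575 : ℕ) = 2 ^ 20 - 1 := by norm_num
  rw [h1, Nat.and_two_pow_sub_one_eq_mod, Nat.mod_mod_of_dvd _ (pow_dvd_pow 2 (by norm_num))]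

theorem hiF_succ (n P : ℕ) :
    hiF (n + 1) P = P / 2 ^ 21 % 2 ^ 21 + 2 ^ 42 * hiF n (P / 2 ^ 42) := by
  change (P >>> 21) &&& (onesR (n + 1) * 2097151) =
    P / 2 ^ 21 % 2 ^ 21 + 2 ^ 42 * ((P / 2 ^ 42) >>> 21 &&& (onesR n * 2097151))
  rw [mask_succ n 2097151 _ (by norm_num), Nat.shiftRight_eq_div_pow, Nat.shiftRight_eq_div_pow,
    Nat.div_div_eq_div_mul, Nat.div_div_eq_div_mul, mul_comm (2 ^ 21) (2 ^ 42)]
  congr 1
  have h1 : (2097151 : ℕ) = 2 ^ 21 - 1 := by norm_num
  rw [h1, Nat.and_two_pow_sub_one_eq_mod, Nat.mod_mod_of_dvd _ (pow_dvd_pow 2 (by norm_num))]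

theorem mask_zero (c X : ℕ) : X &&& (onesR 0 * c) = 0 := by
  rw [onesR_eq]
  simp

theorem loF_zero (P : ℕ) : loF 0 P = 0 := mask_zero 2097151 P

theorem wtF_zero (P : ℕ) : wtF 0 P = 0 := mask_zero 1048575 P

theorem hiF_zero (P : ℕ) : hiF 0 P = 0 := mask_zero 2097151 (P >>> 21)

theorem loF_eq (n : ℕ) : ∀ P W : ℕ, loF n P = enc (fun p => p.1) (decM n P W) := by
  induction n with
  | zero => intro P W; rw [loF_zero]; rfl
  | succ n ih => intro P W; rw [loF_succ, decM, enc_cons, ← ih]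

theorem hiF_eq (n : ℕ) : ∀ P W : ℕ, hiF n P = enc (fun p => p.2.1) (decM n P W) := by
  induction n with
  | zero => intro P W; rw [hiF_zero]; rfl
  | succ n ih => intro P W; rw [hiF_succ, decM, enc_cons, ← ih]

theorem wtF_eq (n : ℕ) : ∀ P W : ℕ, wtF n W = enc (fun p => p.2.2) (decM n P W) := by
  induction n with
  | zero => intro P W; rw [wtF_zero]; rfl
  | succ n ih => intro P W; rw [wtF_succ, decM, enc_cons, ← ih]

theorem decM_lt (n : ℕ) : ∀ P W : ℕ, ∀ p ∈ decM n P W,
    p.1 < 2 ^ 21 ∧ p.2.1 < 2 ^ 21 ∧ p.2.2 < 2 ^ 20 := by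
  induction n with
  | zero => intro P W p hp; simp [decM] at hp
  | succ n ih =>
    intro P W p hp
    rw [decM, List.mem_cons] at hp
    rcases hp with rfl | hp
    · exact ⟨Nat.mod_lt _ (by norm_num), Nat.mod_lt _ (by norm_num), Nat.mod_lt _ (by norm_num)⟩
    · exact ih _ _ p hp

theorem enc_eq_zero {f : ℕ × ℕ × ℕ → ℕ} : ∀ {l : List (ℕ × ℕ × ℕ)}, enc f l = 0 →
    ∀ p ∈ l, f p = 0
  | [], _ => by simp
  | r :: l, h => by
    rw [enc_cons] at h
    have h1 : f r = 0 := by omega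
    have h2 : enc f l = 0 := by
      have : 2 ^ 42 * enc f l = 0 := by omega
      rcases Nat.mul_eq_zero.1 this with h3 | h3
      · norm_num at h3
      · exact h3
    intro p hp
    rcases List.mem_cons.1 hp with rfl | hp
    · exact h1
    · exact enc_eq_zero h2 p hp

theorem badF_sound {f : ℕ × ℕ × ℕ → ℕ} {l : List (ℕ × ℕ × ℕ)} (hf : ∀ p ∈ l, f p < 2 ^ 21)
    (h : badF l.length (enc f l) = 0) : ∀ p ∈ l, f p ≤ 387710 := by
  have e : badF l.length (enc f l) = onesR l.length * 2097152 -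
      ((onesR l.length * 2484862 - enc f l) &&& (onesR l.length * 2097152)) := rfl
  have e1 : onesR l.length * 2097152 = enc (fun _ => 2097152) l := by
    rw [onesR_enc, mul_comm, enc_mul]
  have e2 : onesR l.length * 2484862 = enc (fun _ => 2484862) l := by
    rw [onesR_enc, mul_comm, enc_mul]
  have hle : ∀ p ∈ l, f p ≤ 2484862 := fun p hp => by
    have := hf p hp
    norm_num at this
    omega
  rw [e, e1, e2, enc_sub hle, enc_land, enc_sub] at h
  · intro p hp
    have h1 := enc_eq_zero h p hp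
    have h2 := hf p hp
    by_contra h3
    push Not at h3
    have h4 := guard_and 21 387710 (f p) (by norm_num) h2.le
    have h5 : 2484862 - f p = 387710 + (2 ^ 21 - f p) := by
      norm_num at h2 ⊢
      omega
    rw [if_neg (by omega)] at h4
    have h6 : (2 ^ 21 : ℕ) = 2097152 := by norm_num
    rw [← h5, h6] at h4
    rw [h4] at h1
    norm_num at h1
  · intro p hp
    exact Nat.and_le_right
  · intro p hp
    exact lt_of_le_of_lt (Nat.sub_le _ _) (by norm_num)
  · intro p hp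
    norm_num

theorem enc_append (f : ℕ × ℕ × ℕ → ℕ) : ∀ l l' : List (ℕ × ℕ × ℕ),
    enc f (l ++ l') = enc f l + enc f l' <<< (42 * l.length)
  | [], l' => by simp
  | p :: l, l' => by
    rw [List.cons_append, enc_cons, enc_cons, enc_append f l l', List.length_cons,
      Nat.shiftLeft_eq, Nat.shiftLeft_eq, show 42 * (l.length + 1) = 42 + 42 * l.length by ring,
      pow_add]
    ring

theorem lenR_eq (A : List (ℕ × ℕ)) : lenR A = A.length := by
  induction A with
  | nil => rfl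
  | cons p A ih => rw [List.length_cons, ← ih]; rfl

/-- the blocked points as weighted points -/
def blk (A : List (ℕ × ℕ)) (thr : ℕ) : List (ℕ × ℕ × ℕ) := A.map fun p => (p.1, p.2, thr)

theorem packR_cons (p : ℕ × ℕ) (A : List (ℕ × ℕ)) :
    packR (p :: A) = p.1 + 2097152 * p.2 + 4398046511104 * packR A := rfl

theorem loF_packR {A : List (ℕ × ℕ)} (h : ∀ p ∈ A, p.1 ≤ 387710 ∧ p.2 ≤ 387710) (thr : ℕ) :
    loF A.length (packR A) = enc (fun p => p.1) (blk A thr) := by
  induction A with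
  | nil => exact loF_zero _
  | cons p A ih =>
    have h1 := h p (by simp)
    rw [List.length_cons, loF_succ, packR_cons, blk, List.map_cons, enc_cons]
    have e1 : (p.1 + 2097152 * p.2 + 4398046511104 * packR A) % 2 ^ 21 = p.1 := by
      norm_num; omega
    have e2 : (p.1 + 2097152 * p.2 + 4398046511104 * packR A) / 2 ^ 42 = packR A := by
      norm_num; omega
    rw [e1, e2, ih fun q hq => h q (by simp [hq]), blk]

theorem hiF_packR {A : List (ℕ × ℕ)} (h : ∀ p ∈ A, p.1 ≤ 387710 ∧ p.2 ≤ 387710) (thr : ℕ) :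
    hiF A.length (packR A) = enc (fun p => p.2.1) (blk A thr) := by
  induction A with
  | nil => exact hiF_zero _
  | cons p A ih =>
    have h1 := h p (by simp)
    rw [List.length_cons, hiF_succ, packR_cons, blk, List.map_cons, enc_cons]
    have e1 : (p.1 + 2097152 * p.2 + 4398046511104 * packR A) / 2 ^ 21 % 2 ^ 21 = p.2 := by
      norm_num; omega
    have e2 : (p.1 + 2097152 * p.2 + 4398046511104 * packR A) / 2 ^ 42 = packR A := by
      norm_num; omega
    rw [e1, e2, ih fun q hq => h q (by simp [hq]), blk]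

theorem thr_ones (A : List (ℕ × ℕ)) (thr : ℕ) :
    thr * onesR A.length = enc (fun p => p.2.2) (blk A thr) := by
  induction A with
  | nil => rw [List.length_nil, onesR_eq]; simp [blk]
  | cons p A ih =>
    rw [List.length_cons, onesR_succ, blk, List.map_cons, enc_cons, ← blk, ← ih]
    ring

end Arr

open Arr

theorem specArr : SpecArr := by
  intro m A thr hA hx hy ht
  have hA' := badP_sound hA
  have hl := decM_length m.n m.P m.W
  have ex := loF_eq m.n m.P m.W
  have ey := hiF_eq m.n m.P m.W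
  have ew := wtF_eq m.n m.P m.W
  have hlt := decM_lt m.n m.P m.W
  have bx : ∀ p ∈ decM m.n m.P m.W, p.1 ≤ 387710 := by
    apply badF_sound (fun p hp => (hlt p hp).1)
    rw [hl, ← ex]
    exact hx
  have bY : ∀ p ∈ decM m.n m.P m.W, p.2.1 ≤ 387710 := by
    apply badF_sound (fun p hp => (hlt p hp).2.1)
    rw [hl, ← ey]
    exact hy
  have ewb : withBlocked (decM m.n m.P m.W) A thr = blk A thr ++ decM m.n m.P m.W := rfl
  have hbl : (blk A thr).length = A.length := by rw [blk, List.length_map]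
  rw [ewb, lenR_eq]
  refine ⟨?_, ?_, ?_, ?_, ?_⟩
  · intro p hp
    rcases List.mem_append.1 hp with hp | hp
    · rw [blk] at hp
      obtain ⟨r, hr, rfl⟩ := List.mem_map.1 hp
      exact ⟨(hA' r hr).1, (hA' r hr).2, ht⟩
    · exact ⟨bx p hp, bY p hp, (hlt p hp).2.2⟩
  · rw [← onesR_enc, List.length_append, hbl, hl]
  · rw [enc_append, hbl, ← ew, thr_ones]
  · rw [enc_append, hbl, ← ex, loF_packR hA' thr]
  · rw [enc_append, hbl, ← ey, hiF_packR hA' thr]

theorem specW : SpecW := fun n P W => wtF_eq n P W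

end Rect

end Pool.Agent.MP_abb58c_co
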