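import Pool.Agent.Lib.MP_abb58c_co.SweepBox

/-! MP_abb58c_co: RECTANGLE CHECKER, definitions (kernel-fast).

The domain of one slab `[k, k']` (coordinates `U = a X + b Y`, `V = a Y + b (S0 - X)`) is covered by
rectangles `[A, B] x [C, D]` in units `Q = 2 ^ 16`; the points seen from the whole rectangle have
weight at least the threshold. All points are packed in one natural number, 42 bits for each
(a lane), and are treated simultaneously.

`raw` style: only kernel-accelerated operations on naturals, recursors, `nat_lit` literals. -/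

set_option linter.unusedVariables false

namespace Pool.Agent.MP_abb58c_co

namespace Rect

open Sweep

/-- strict evaluation -/
noncomputable def force (e : ℕ) (k : ℕ → Bool) : Bool :=
  Nat.rec (motive := fun _ => Bool) (k (nat_lit 0)) (fun m _ => k m) (Nat.add e (nat_lit 1))

/-- conjunction, left to right -/
noncomputable def andB (c r : Bool) : Bool := Bool.rec (motive := fun _ => Bool) false r c

/-- maximum -/
noncomputable def nmax (x y : ℕ) : ℕ := Nat.add x (Nat.sub y x)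
/-- minimum -/
noncomputable def nmin (x y : ℕ) : ℕ := Nat.sub x (Nat.sub x y)

/-! ### Constants of a slab -/

/-- first coordinate of direction `k` -/
noncomputable def dx (k : ℕ) : ℕ := Nat.land (Nat.shiftRight dirN (Nat.mul (nat_lit 32) k)) (nat_lit 65535)
/-- second coordinate of direction `k` -/
noncomputable def dy (k : ℕ) : ℕ :=
  Nat.land (Nat.shiftRight dirN (Nat.add (Nat.mul (nat_lit 32) k) (nat_lit 16))) (nat_lit 65535)

noncomputable def faR (k k' : ℕ) : ℕ := Nat.add (dx k) (dx k')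
noncomputable def fbR (k k' : ℕ) : ℕ := Nat.add (dy k) (dy k')
noncomputable def crR (k k' : ℕ) : ℕ := Nat.sub (Nat.mul (dx k) (dy k')) (Nat.mul (dy k) (dx k'))
noncomputable def d1R (k k' : ℕ) : ℕ := Nat.add (Nat.mul (faR k k') (dx k)) (Nat.mul (fbR k k') (dy k))
noncomputable def d2R (k k' : ℕ) : ℕ := Nat.add (Nat.mul (faR k k') (dx k')) (Nat.mul (fbR k k') (dy k'))
noncomputable def kkR (k k' : ℕ) : ℕ := Nat.add (nmax (d1R k k') (d2R k k')) (crR k k')
noncomputable def n2R (k k' : ℕ) : ℕ :=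
  Nat.add (Nat.mul (faR k k') (faR k k')) (Nat.mul (fbR k k') (fbR k k'))
noncomputable def hinR (k k' : ℕ) : ℕ :=
  Nat.div (Nat.mul (n2R k k') (nat_lit 1638400000)) (Nat.mul (nat_lit 2) (kkR k k'))
noncomputable def houtR (k k' : ℕ) : ℕ :=
  Nat.add (Nat.div (Nat.mul (nat_lit 100000) (kkR k k')) (nat_lit 32768)) (nat_lit 1)
noncomputable def hmR (k k' : ℕ) : ℕ :=
  nmin (Nat.div (Nat.mul (nat_lit 100000) (Nat.add (dx k) (dy k))) (nat_lit 32772))
    (Nat.div (Nat.mul (nat_lit 100000) (Nat.add (dx k') (dy k'))) (nat_lit 32772))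
/-- `floor ((hin - 1) / Q)` -/
noncomputable def hqR (k k' : ℕ) : ℕ := Nat.shiftRight (Nat.sub (hinR k k') (nat_lit 1)) (nat_lit 16)
/-- the sum of the deficits of the conditions on a slab (must be `0`): `k < k' <= 900`,
`cross >= 0`, `cross <= w . d`, `hq < 2 ^ 19` -/
noncomputable def badR (k k' : ℕ) : ℕ :=
  Nat.add (Nat.add (Nat.sub (Nat.add k (nat_lit 1)) k') (Nat.sub k' (nat_lit 900)))
    (Nat.add (Nat.sub (Nat.mul (dy k) (dx k')) (Nat.mul (dx k) (dy k')))
      (Nat.add (Nat.add (Nat.sub (crR k k') (d1R k k')) (Nat.sub (crR k k') (d2R k k')))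
        (Nat.sub (hqR k k') (nat_lit 524287))))

/-! ### Window of the contained points -/

noncomputable def ucR (a b : ℕ) (p : ℕ × ℕ) : ℕ := Nat.add (Nat.mul a p.1) (Nat.mul b p.2)
noncomputable def vcR (a b : ℕ) (p : ℕ × ℕ) : ℕ :=
  Nat.add (Nat.mul a p.2) (Nat.mul b (Nat.sub (nat_lit 387710) p.1))

/-- maximum of `f p - h` -/
noncomputable def wlo (f : ℕ × ℕ → ℕ) (h : ℕ) (C : List (ℕ × ℕ)) : ℕ :=
  List.rec (motive := fun _ => ℕ) (nat_lit 0) (fun p _ ih => nmax (Nat.sub (f p) h) ih) C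
/-- minimum of `f p + h` and `m` -/
noncomputable def whi (f : ℕ × ℕ → ℕ) (h m : ℕ) (C : List (ℕ × ℕ)) : ℕ :=
  List.rec (motive := fun _ => ℕ) m (fun p _ ih => nmin (Nat.add (f p) h) ih) C

/-! ### Rectangles -/

/-- `thr` minus the weight of the lanes whose guard bits 20 and 41 are both set in `X` -/
noncomputable def defi (g W th X : ℕ) : ℕ :=
  Nat.sub th (Nat.mod (Nat.land W (Nat.mul (Nat.shiftRight
    (Nat.land (Nat.land X (Nat.shiftRight X (nat_lit 21))) g) (nat_lit 20)) (nat_lit 1048575)))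
    (nat_lit 4398046511103))

/-- the rectangles of one strip: `r` break points of `V` in the stream `c`. `XU`: lanes
`A + hq + 2^20 - 1 - u` (low field), `hq + 2^20 - 1 - v` (high field); `YU`: lanes
`u + hq + 2^20 - B`, `v + hq + 2^20`; `CV = C * oV`, `HV = hi * oV` -/
noncomputable def inner (D : ℕ → ℕ) (oV XU YU HV : ℕ) (K : ℕ → ℕ → Bool) (r : ℕ) :
    ℕ → ℕ → ℕ → Bool :=
  Nat.rec (motive := fun _ => ℕ → ℕ → ℕ → Bool)
    (fun c CV err => K c (Nat.add err (D (Nat.land (Nat.add XU CV) (Nat.sub YU HV)))))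
    (fun _ ih c CV err =>
      (fun DV => ih (Nat.shiftRight c (nat_lit 19)) DV
        (Nat.add err (D (Nat.land (Nat.add XU CV) (Nat.sub YU DV)))))
      (Nat.mul (Nat.land c (nat_lit 524287)) oV))
    r

/-- lower bound of `V / Q` for `U / Q` in `[A, B]` -/
noncomputable def loV (a b L0 P1 R1 T1 A B : ℕ) : ℕ :=
  nmax L0 (nmax (Nat.div (Nat.sub P1 (Nat.mul b B)) a)
    (Nat.div (Nat.sub (Nat.add (Nat.mul a A) R1) T1) b))
/-- upper bound of `V / Q` for `U / Q` in `[A, B]` -/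
noncomputable def hiV (a b H0 P2 R2 T2 A B : ℕ) : ℕ :=
  nmin H0 (Nat.add (nmin (Nat.div (Nat.sub P2 (Nat.mul b A)) a)
    (Nat.div (Nat.sub (Nat.add (Nat.mul a B) R2) T2) b)) (nat_lit 1))

noncomputable def strip2 (g W oV thr XU YU : ℕ) (K : ℕ → ℕ → Bool) (r c err lo hi : ℕ) : Bool :=
  inner (defi g W (Nat.sub thr (Nat.mul thr (Nat.sub lo hi)))) oV XU YU (Nat.mul hi oV) K r c
    (Nat.mul lo oV) err

/-- one strip: header `B` (19 bits), number of break points (5 bits) -/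
noncomputable def strip (ones g W oV thr NG UG : ℕ) (lo hi : ℕ → ℕ → ℕ) (ih : ℕ → ℕ → ℕ → Bool)
    (c A err : ℕ) : Bool :=
  (fun B => strip2 g W oV thr (Nat.add NG (Nat.mul A ones)) (Nat.sub UG (Nat.mul B ones))
    (fun c' err' => ih c' B err')
    (Nat.land (Nat.shiftRight c (nat_lit 19)) (nat_lit 31)) (Nat.shiftRight c (nat_lit 24)) err
    (lo A B) (hi A B)) (Nat.land c (nat_lit 524287))

/-- all strips -/
noncomputable def outer (S : (ℕ → ℕ → ℕ → Bool) → ℕ → ℕ → ℕ → Bool) (K : ℕ → ℕ → ℕ → Bool)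
    (s : ℕ) : ℕ → ℕ → ℕ → Bool :=
  Nat.rec (motive := fun _ => ℕ → ℕ → ℕ → Bool) K (fun _ ih => S ih) s

/-! ### One slab -/

/-- lanes `u` (low field), `v` (high field) -/
noncomputable def uvL (m21 PX PY PC a b : ℕ) : ℕ :=
  Nat.add (Nat.land (Nat.shiftRight (Nat.add (Nat.mul a PX) (Nat.mul b PY)) (nat_lit 16)) m21)
    (Nat.shiftLeft (Nat.land (Nat.shiftRight (Nat.add (Nat.mul a PY) (Nat.mul b PC)) (nat_lit 16))
      m21) (nat_lit 21))

/-- third part of a slab: `E` = emptiness of the domain -/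
noncomputable def slab3 (ones g W oV thr uv hq a b : ℕ) (K : ℕ → Bool)
    (A0 Uend L0 H0 P1 P2 R1 T1 T2 E s c : ℕ) : Bool :=
  outer (strip ones g W oV thr
      (Nat.sub (Nat.mul (Nat.mul (Nat.add hq (nat_lit 1048575)) (nat_lit 2097153)) ones) uv)
      (Nat.add (Nat.mul (Nat.mul (Nat.add hq (nat_lit 1048576)) (nat_lit 2097153)) ones) uv)
      (loV a b L0 P1 R1 T1) (hiV a b H0 P2 (Nat.add R1 (nat_lit 1)) T2))
    (fun c A err => andB (Nat.ble (Nat.add err (Nat.sub (Nat.sub Uend A) (Nat.mul Uend E)))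
      (nat_lit 0)) (K c)) s c A0 (nat_lit 0)

/-- second part of a slab: all bounds in units 1 -/
noncomputable def slab2 (ones g W oV thr uv hq a b : ℕ) (K : ℕ → Bool)
    (x0 x1 y0 y1 ul uh vl vh n2 s c : ℕ) : Bool :=
  slab3 ones g W oV thr uv hq a b K
    (Nat.shiftRight (nmax ul (Nat.add (Nat.mul a x0) (Nat.mul b y0))) (nat_lit 16))
    (Nat.add (Nat.shiftRight (nmin uh (Nat.add (Nat.mul a x1) (Nat.mul b y1))) (nat_lit 16)) (nat_lit 1))
    (Nat.shiftRight (nmax vl (Nat.add (Nat.mul a y0) (Nat.mul b (Nat.sub (nat_lit 387710) x1)))) (nat_lit 16))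
    (Nat.add (Nat.shiftRight (nmin vh (Nat.add (Nat.mul a y1) (Nat.mul b (Nat.sub (nat_lit 387710) x0)))) (nat_lit 16)) (nat_lit 1))
    (Nat.shiftRight (Nat.add (Nat.mul (Nat.mul a b) (nat_lit 387710)) (Nat.mul n2 y0)) (nat_lit 16))
    (Nat.add (Nat.shiftRight (Nat.add (Nat.mul (Nat.mul a b) (nat_lit 387710)) (Nat.mul n2 y1)) (nat_lit 16)) (nat_lit 1))
    (Nat.shiftRight (Nat.mul (Nat.mul b b) (nat_lit 387710)) (nat_lit 16))
    (Nat.add (Nat.shiftRight (Nat.mul n2 x1) (nat_lit 16)) (nat_lit 1))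
    (Nat.shiftRight (Nat.mul n2 x0) (nat_lit 16))
    (Nat.add (Nat.add (Nat.sub x0 x1) (Nat.sub y0 y1))
      (Nat.add (Nat.sub (nmax ul (Nat.add (Nat.mul a x0) (Nat.mul b y0)))
          (nmin uh (Nat.add (Nat.mul a x1) (Nat.mul b y1))))
        (Nat.sub (nmax vl (Nat.add (Nat.mul a y0) (Nat.mul b (Nat.sub (nat_lit 387710) x1))))
          (nmin vh (Nat.add (Nat.mul a y1) (Nat.mul b (Nat.sub (nat_lit 387710) x0)))))))
    s c

/-- first part of a slab (literals `k`, `k'`) -/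
noncomputable def slab1 (ones g W oV m21 PX PY PC thr bx0 bx1 by0 by1 : ℕ) (C : List (ℕ × ℕ))
    (K : ℕ → Bool) (k k' s c : ℕ) : Bool :=
  andB (Nat.ble (badR k k') (nat_lit 0))
    (slab2 ones g W oV thr (uvL m21 PX PY PC (faR k k') (fbR k k')) (hqR k k') (faR k k') (fbR k k') K
      (nmax bx0 (hmR k k')) (nmin bx1 (Nat.sub (nat_lit 387710) (hmR k k')))
      (nmax by0 (hmR k k')) (nmin by1 (Nat.sub (nat_lit 387710) (hmR k k')))
      (wlo (ucR (faR k k') (fbR k k')) (houtR k k') C)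
      (whi (ucR (faR k k') (fbR k k')) (houtR k k')
        (Nat.mul (Nat.add (faR k k') (fbR k k')) (nat_lit 387710)) C)
      (wlo (vcR (faR k k') (fbR k k')) (houtR k k') C)
      (whi (vcR (faR k k') (fbR k k')) (houtR k k')
        (Nat.mul (Nat.add (faR k k') (fbR k k')) (nat_lit 387710)) C)
      (n2R k k') s c)

/-- the slabs of one chunk: header `k'` (10 bits), number of strips (7 bits) -/
noncomputable def chunk (S : (ℕ → Bool) → ℕ → ℕ → ℕ → ℕ → Bool) (K : ℕ → Bool) (m : ℕ) :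
    ℕ → ℕ → Bool :=
  Nat.rec (motive := fun _ => ℕ → ℕ → Bool) (fun c k => K k)
    (fun _ ih c k => force (Nat.land c (nat_lit 1023)) (fun k' =>
      S (fun c' => ih c' k') k k' (Nat.land (Nat.shiftRight c (nat_lit 10)) (nat_lit 127))
        (Nat.shiftRight c (nat_lit 17)))) m

/-- all chunks: header = number of slabs (10 bits) -/
noncomputable def chunks (S : (ℕ → Bool) → ℕ → ℕ → ℕ → ℕ → Bool) (k1 : ℕ) (cs : List ℕ) :
    ℕ → Bool :=
  List.rec (motive := fun _ => ℕ → Bool) (fun k => Nat.beq k k1)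
    (fun c _ ih k => chunk S ih (Nat.land c (nat_lit 1023)) (Nat.shiftRight c (nat_lit 10)) k) cs

/-! ### Arrays -/

/-- a measure: `n` points, lane `i` of `P` is `x + 2^21 y`, lane `i` of `W` is the weight
(`< 2 ^ 20`) -/
structure Meas where
  n : ℕ
  P : ℕ
  W : ℕ

/-- `n` lanes with value `1` -/
noncomputable def onesR (n : ℕ) : ℕ :=
  Nat.div (Nat.sub (Nat.pow (nat_lit 2) (Nat.mul (nat_lit 42) n)) (nat_lit 1)) (nat_lit 4398046511103)

/-- low fields (21 bits) of `n` lanes -/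
noncomputable def loF (n P : ℕ) : ℕ := Nat.land P (Nat.mul (onesR n) (nat_lit 2097151))
/-- high fields (21 bits) of `n` lanes -/
noncomputable def hiF (n P : ℕ) : ℕ :=
  Nat.land (Nat.shiftRight P (nat_lit 21)) (Nat.mul (onesR n) (nat_lit 2097151))
/-- weights (20 bits) of `n` lanes -/
noncomputable def wtF (n W : ℕ) : ℕ := Nat.land W (Nat.mul (onesR n) (nat_lit 1048575))
/-- positive if some lane of `X` (21 bits) is `> 387710` -/
noncomputable def badF (n X : ℕ) : ℕ :=
  Nat.sub (Nat.mul (onesR n) (nat_lit 2097152))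
    (Nat.land (Nat.sub (Nat.mul (onesR n) (nat_lit 2484862)) X) (Nat.mul (onesR n) (nat_lit 2097152)))

/-- length -/
noncomputable def lenR (A : List (ℕ × ℕ)) : ℕ :=
  List.rec (motive := fun _ => ℕ) (nat_lit 0) (fun _ _ ih => Nat.add ih (nat_lit 1)) A
/-- packed points `x + 2^21 y` -/
noncomputable def packR (A : List (ℕ × ℕ)) : ℕ :=
  List.rec (motive := fun _ => ℕ) (nat_lit 0) (fun p _ ih =>
    Nat.add (Nat.add p.1 (Nat.mul (nat_lit 2097152) p.2)) (Nat.mul (nat_lit 4398046511104) ih)) A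
/-- positive if some coordinate is `> 387710` -/
noncomputable def badP (A : List (ℕ × ℕ)) : ℕ :=
  List.rec (motive := fun _ => ℕ) (nat_lit 0) (fun p _ ih =>
    Nat.add (Nat.add (Nat.sub p.1 (nat_lit 387710)) (Nat.sub p.2 (nat_lit 387710))) ih) A

/-- strict evaluation of `e`, then the function `k` -/
noncomputable def piece3 (ones W PX PY thr : ℕ) (C : List (ℕ × ℕ)) (k0 k1 bx0 bx1 by0 by1 : ℕ)
    (cs : List ℕ) : Bool :=
  force (Nat.mul ones (nat_lit 1048576)) fun g =>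
  force (Nat.mul ones (nat_lit 2097152)) fun oV =>
  force (Nat.mul ones (nat_lit 2097151)) fun m21 =>
  force (Nat.sub (Nat.mul ones (nat_lit 387710)) PX) fun PC =>
    chunks (slab1 ones g W oV m21 PX PY PC thr bx0 bx1 by0 by1 C) k1 cs k0

noncomputable def piece2 (nA nM PA MX MY MW thr : ℕ) (C : List (ℕ × ℕ))
    (k0 k1 bx0 bx1 by0 by1 : ℕ) (cs : List ℕ) : Bool :=
  force (onesR (Nat.add nA nM)) fun ones =>
  force (Nat.add (Nat.mul thr (onesR nA)) (Nat.shiftLeft MW (Nat.mul (nat_lit 42) nA))) fun W =>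
  force (Nat.add (loF nA PA) (Nat.shiftLeft MX (Nat.mul (nat_lit 42) nA))) fun PX =>
  force (Nat.add (hiF nA PA) (Nat.shiftLeft MY (Nat.mul (nat_lit 42) nA))) fun PY =>
    piece3 ones W PX PY thr C k0 k1 bx0 bx1 by0 by1 cs

/-- the check of one box of one label -/
noncomputable def piece (m : Meas) (C A : List (ℕ × ℕ)) (b : Box) (thr : ℕ) (cs : List ℕ) : Bool :=
  force b.k0 fun k0 => force b.k1 fun k1 => force b.x0 fun bx0 => force b.x1 fun bx1 =>
  force b.y0 fun by0 => force b.y1 fun by1 => force thr fun thr =>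
  andB (Nat.ble (Nat.add (Nat.add (Nat.add (badP A) (badP C))
      (Nat.add (badF m.n (loF m.n m.P)) (badF m.n (hiF m.n m.P))))
      (Nat.add (Nat.sub thr (nat_lit 1048575)) (Nat.sub (Nat.add k0 (nat_lit 1)) k1))) (nat_lit 0))
    (piece2 (lenR A) m.n (packR A) (loF m.n m.P) (hiF m.n m.P) (wtF m.n m.W) thr C
      k0 k1 bx0 bx1 by0 by1 cs)

/-! ### Specification -/

/-- weighted points of a measure -/
def decM : ℕ → ℕ → ℕ → List (ℕ × ℕ × ℕ)
  | 0, _, _ => []
  | n + 1, P, W => (P % 2 ^ 21, P / 2 ^ 21 % 2 ^ 21, W % 2 ^ 20) :: decM n (P / 2 ^ 42) (W / 2 ^ 42)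

/-- (main specification) -/
def SpecPiece : Prop :=
  ∀ (m : Meas) (C A : List (ℕ × ℕ)) (b : Box) (thr : ℕ) (cs : List ℕ),
    piece m C A b thr cs = true → BoxSound (decM m.n m.P m.W) C A b thr

end Rect

end Pool.Agent.MP_abb58c_co
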