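import Pool.Agent.Lib.MP_abb58c_co.RectSpec

/-! MP_abb58c_co: RECTANGLE CHECKER, lane arithmetic: coarse coordinates (`SpecUV`) and one
rectangle (`SpecRect`). -/

namespace Pool.Agent.MP_abb58c_co

namespace Rect

open Sweep

namespace Lane

@[simp] theorem enc_nil (f : ℕ × ℕ × ℕ → ℕ) : enc f [] = 0 := rfl

theorem enc_cons (f : ℕ × ℕ × ℕ → ℕ) (p : ℕ × ℕ × ℕ) (l : List (ℕ × ℕ × ℕ)) :
    enc f (p :: l) = f p + 2 ^ 42 * enc f l := rfl

theorem enc_congr {f g : ℕ × ℕ × ℕ → ℕ} : ∀ {l : List (ℕ × ℕ × ℕ)}, (∀ p ∈ l, f p = g p) →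
    enc f l = enc g l
  | [], _ => rfl
  | p :: l, h => by
    rw [enc_cons, enc_cons, h p (by simp), enc_congr fun q hq => h q (by simp [hq])]

theorem enc_add (f g : ℕ × ℕ × ℕ → ℕ) : ∀ l : List (ℕ × ℕ × ℕ),
    enc f l + enc g l = enc (fun p => f p + g p) l
  | [] => rfl
  | p :: l => by
    rw [enc_cons, enc_cons, enc_cons, ← enc_add f g l]
    ring

theorem enc_mul (c : ℕ) (f : ℕ × ℕ × ℕ → ℕ) : ∀ l : List (ℕ × ℕ × ℕ),
    c * enc f l = enc (fun p => c * f p) l
  | [] => by simp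
  | p :: l => by
    rw [enc_cons, enc_cons, ← enc_mul c f l]
    ring

theorem enc_mono {f g : ℕ × ℕ × ℕ → ℕ} : ∀ {l : List (ℕ × ℕ × ℕ)}, (∀ p ∈ l, g p ≤ f p) →
    enc g l ≤ enc f l
  | [], _ => le_rfl
  | p :: l, h => by
    rw [enc_cons, enc_cons]
    exact add_le_add (h p (by simp)) (Nat.mul_le_mul_left _ (enc_mono fun q hq => h q (by simp [hq])))

theorem enc_sub {f g : ℕ × ℕ × ℕ → ℕ} : ∀ {l : List (ℕ × ℕ × ℕ)}, (∀ p ∈ l, g p ≤ f p) →
    enc f l - enc g l = enc (fun p => f p - g p) l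
  | [], _ => rfl
  | p :: l, h => by
    have h1 := h p (by simp)
    have h2 : ∀ q ∈ l, g q ≤ f q := fun q hq => h q (by simp [hq])
    have h3 := enc_mono h2
    rw [enc_cons, enc_cons, enc_cons, ← enc_sub h2, Nat.mul_sub]
    have h4 := Nat.mul_le_mul_left (2 ^ 42) h3
    omega

theorem enc_land {f g : ℕ × ℕ × ℕ → ℕ} : ∀ {l : List (ℕ × ℕ × ℕ)}, (∀ p ∈ l, f p < 2 ^ 42) →
    (∀ p ∈ l, g p < 2 ^ 42) → enc f l &&& enc g l = enc (fun p => f p &&& g p) l
  | [], _, _ => by simp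
  | p :: l, hf, hg => by
    rw [enc_cons, enc_cons, enc_cons, and_add_mul 42 _ _ _ _ (hf p (by simp)) (hg p (by simp)),
      enc_land (fun q hq => hf q (by simp [hq])) (fun q hq => hg q (by simp [hq]))]

/-- shift right by `s` bits, then a mask of `42 - s` bits -/
theorem enc_shr_land {f : ℕ × ℕ × ℕ → ℕ} {s m : ℕ} (hs : s ≤ 42) (hm : m < 2 ^ (42 - s)) :
    ∀ {l : List (ℕ × ℕ × ℕ)}, (∀ p ∈ l, f p < 2 ^ 42) →
    (enc f l >>> s) &&& enc (fun _ => m) l = enc (fun p => (f p >>> s) &&& m) l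
  | [], _ => by simp
  | p :: l, hf => by
    have hp := hf p (by simp)
    have ih := enc_shr_land (f := f) (l := l) hs hm fun q hq => hf q (List.mem_cons_of_mem p hq)
    rw [enc_cons, enc_cons, enc_cons, ← ih]
    have hm2 : m < 2 ^ 42 := lt_of_lt_of_le hm (Nat.pow_le_pow_right (by norm_num) (by omega))
    have hpm : ((f p >>> s) &&& m) < 2 ^ 42 := lt_of_le_of_lt Nat.and_le_right hm2
    apply Nat.eq_of_testBit_eq
    intro i
    rw [Nat.testBit_and, Nat.testBit_shiftRight, testBit_add_mul 42 _ _ _ hp,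
      testBit_add_mul 42 _ _ _ hm2, testBit_add_mul 42 _ _ _ hpm]
    by_cases hi : i < 42
    · rw [if_pos hi, if_pos hi, Nat.testBit_and, Nat.testBit_shiftRight]
      by_cases hsi : s + i < 42
      · rw [if_pos hsi]
      · rw [if_neg hsi]
        have h1 : m.testBit i = false := by
          apply Nat.testBit_lt_two_pow
          exact lt_of_lt_of_le hm (Nat.pow_le_pow_right (by norm_num) (by omega))
        rw [h1, Bool.and_false, Bool.and_false]
    · rw [if_neg hi, if_neg hi, if_neg (by omega), Nat.testBit_and, Nat.testBit_shiftRight]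
      have h2 : s + i - 42 = s + (i - 42) := by omega
      rw [h2]

theorem enc_shl (f : ℕ × ℕ × ℕ → ℕ) (s : ℕ) (l : List (ℕ × ℕ × ℕ)) :
    enc f l <<< s = enc (fun p => 2 ^ s * f p) l := by
  rw [Nat.shiftLeft_eq, mul_comm, enc_mul]

theorem sum_eq (f : ℕ × ℕ × ℕ → ℕ) (l : List (ℕ × ℕ × ℕ)) : enc f l % (2 ^ 42 - 1) ≤ (l.map f).sum :=
  pack_mod_le 42 _

theorem uq_lt {a b : ℕ} (h : (a + b) * 387710 < 34000000000) {p : ℕ × ℕ × ℕ} (hx : p.1 ≤ 387710)
    (hy : p.2.1 ≤ 387710) : a * p.1 + b * p.2.1 < 34000000000 := by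
  have h1 := Nat.mul_le_mul_left a hx
  have h2 := Nat.mul_le_mul_left b hy
  have h3 : (a + b) * 387710 = a * 387710 + b * 387710 := by ring
  omega

theorem vq_lt {a b : ℕ} (h : (a + b) * 387710 < 34000000000) {p : ℕ × ℕ × ℕ}
    (hy : p.2.1 ≤ 387710) : a * p.2.1 + b * (387710 - p.1) < 34000000000 := by
  have h1 := Nat.mul_le_mul_left a hy
  have h2 : b * (387710 - p.1) ≤ b * 387710 := Nat.mul_le_mul_left b (Nat.sub_le _ _)
  have h3 : (a + b) * 387710 = a * 387710 + b * 387710 := by ring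
  omega

theorem shr_land {x : ℕ} (hx : x < 34000000000) : (x >>> 16) &&& 2097151 = x / 65536 := by
  rw [Nat.shiftRight_eq_div_pow]
  have h1 : (2097151 : ℕ) = 2 ^ 21 - 1 := by norm_num
  rw [h1, Nat.and_two_pow_sub_one_eq_mod]
  have h2 : x / 2 ^ 16 < 2 ^ 21 := by
    rw [Nat.div_lt_iff_lt_mul (by norm_num)]
    calc x < 34000000000 := hx
      _ ≤ 2 ^ 21 * 2 ^ 16 := by norm_num
  rw [Nat.mod_eq_of_lt h2]
  norm_num

end Lane

open Lane

theorem specUV : SpecUV := by
  intro pts a b hok hab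
  have h1 : enc (fun _ => 1) pts * 387710 - enc (fun p => p.1) pts
      = enc (fun p => 387710 - p.1) pts := by
    rw [mul_comm, enc_mul, enc_sub (f := fun _ => 387710 * 1) (g := fun p => p.1)]
    intro p hp
    have := (hok p hp).1
    simpa using this
  have h2 : enc (fun _ => 1) pts * 2097151 = enc (fun _ => 2097151) pts := by
    rw [mul_comm, enc_mul]
  have key : ∀ f : ℕ × ℕ × ℕ → ℕ, (∀ p ∈ pts, f p < 34000000000) →
      (enc f pts >>> 16) &&& enc (fun _ => 2097151) pts = enc (fun p => f p / 65536) pts := by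
    intro f hf
    rw [enc_shr_land (s := 16) (m := 2097151) (by norm_num) (by norm_num)
      (fun p hp => lt_trans (hf p hp) (by norm_num))]
    apply enc_congr
    intro p hp
    exact shr_land (hf p hp)
  have h3 : uvL (enc (fun _ => 1) pts * 2097151) (enc (fun p => p.1) pts)
      (enc (fun p => p.2.1) pts) (enc (fun _ => 1) pts * 387710 - enc (fun p => p.1) pts) a b
      = (((a * enc (fun p => p.1) pts + b * enc (fun p => p.2.1) pts) >>> 16)
          &&& (enc (fun _ => 1) pts * 2097151))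
        + ((((a * enc (fun p => p.2.1) pts + b * (enc (fun _ => 1) pts * 387710
          - enc (fun p => p.1) pts)) >>> 16) &&& (enc (fun _ => 1) pts * 2097151)) <<< 21) := rfl
  rw [h3, h1, h2, enc_mul, enc_mul, enc_add, enc_mul, enc_mul, enc_add,
    key _ (fun p hp => uq_lt hab (hok p hp).1 (hok p hp).2.1),
    key _ (fun p hp => vq_lt hab (hok p hp).2.1), enc_shl, enc_add]
  apply enc_congr
  intro p _
  simp only [uq, vq]
  norm_num

namespace Lane

/-- bit 20 of a number with 21 bits -/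
theorem testBit_20 {f : ℕ} (hf : f < 2 ^ 21) : f.testBit 20 = decide (2 ^ 20 ≤ f) := by
  by_cases h : 2 ^ 20 ≤ f
  · have h1 : f = 2 ^ 20 * 1 + (f - 2 ^ 20) := by omega
    rw [h1, Nat.testBit_two_pow_mul_add 1 (by omega) 20]
    simp
  · rw [Nat.testBit_lt_two_pow (by omega)]
    exact (decide_eq_false h).symm

theorem land_pow (x : ℕ) (k : ℕ) : x &&& 2 ^ k = if x.testBit k then 2 ^ k else 0 := by
  apply Nat.eq_of_testBit_eq
  intro i
  rw [Nat.testBit_and, Nat.testBit_two_pow]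
  by_cases hk : k = i
  · subst hk
    by_cases hb : x.testBit k
    · simp [hb]
    · simp [hb]
  · by_cases hb : x.testBit k
    · simp [hb, hk, Nat.testBit_two_pow]
    · simp [hb, hk]

/-- the guard bits of a lane -/
theorem lane_bits {fA gA fB gB : ℕ} (h1 : fA < 2 ^ 21) (h2 : gA < 2 ^ 21) (h3 : fB < 2 ^ 21)
    (h4 : gB < 2 ^ 21) :
    ((fA + 2 ^ 21 * gA) &&& (fB + 2 ^ 21 * gB)) &&&
      ((((fA + 2 ^ 21 * gA) &&& (fB + 2 ^ 21 * gB)) >>> 21) &&& 1048576)
      = 1048576 * (if 2 ^ 20 ≤ fA ∧ 2 ^ 20 ≤ fB ∧ 2 ^ 20 ≤ gA ∧ 2 ^ 20 ≤ gB then 1 else 0) := by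
  have hff : (fA &&& fB) < 2 ^ 21 := lt_of_le_of_lt Nat.and_le_left h1
  rw [and_add_mul 21 fA fB gA gB h1 h3]
  set F := (fA &&& fB) + 2 ^ 21 * (gA &&& gB) with hF
  have hc : (1048576 : ℕ) = 2 ^ 20 := by norm_num
  rw [← Nat.and_assoc, hc, land_pow]
  have hb1 : (F &&& (F >>> 21)).testBit 20
      = ((fA.testBit 20 && fB.testBit 20) && (gA.testBit 20 && gB.testBit 20)) := by
    rw [Nat.testBit_and, Nat.testBit_shiftRight, hF, testBit_add_mul 21 _ _ _ hff,
      testBit_add_mul 21 _ _ _ hff, if_pos (by norm_num), if_neg (by norm_num)]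
    norm_num [Nat.testBit_and]
  rw [hb1, testBit_20 h1, testBit_20 h2, testBit_20 h3, testBit_20 h4]
  simp [and_assoc]

theorem w_land {w : ℕ} (hw : w < 2 ^ 20) : w &&& 1048575 = w := by
  have h1 : (1048575 : ℕ) = 2 ^ 20 - 1 := by norm_num
  rw [h1, Nat.and_two_pow_sub_one_eq_mod, Nat.mod_eq_of_lt hw]

theorem q_lt {x : ℕ} (hx : x < 34000000000) : x / 65536 < 524288 := by
  rw [Nat.div_lt_iff_lt_mul (by norm_num)]
  omega

end Lane

theorem specRect : SpecRect := by
  intro pts a b ones g W oV uv hq th A B C D hok hab hL hhq hA hB hC hD h0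
  have hu : ∀ p ∈ pts, uq a b p < 524288 := fun p hp =>
    q_lt (uq_lt hab (hok p hp).1 (hok p hp).2.1)
  have hv : ∀ p ∈ pts, vq a b p < 524288 := fun p hp => q_lt (vq_lt hab (hok p hp).2.1)
  norm_num at hhq hA hB hC hD
  -- the two lane numbers
  have hXA : ((hq + 1048575) * 2097153 * ones - uv + A * ones) + C * oV
      = enc (fun p => (hq + 1048575 - uq a b p + A) + 2 ^ 21 * (hq + 1048575 - vq a b p + C)) pts := by
    rw [hL.ones, hL.oV, hL.uv, enc_mul, enc_sub, enc_mul, enc_add, enc_mul, enc_add]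
    · apply enc_congr
      intro p hp
      have h1 := hu p hp
      have h2 := hv p hp
      norm_num
      omega
    · intro p hp
      have h1 := hu p hp
      have h2 := hv p hp
      omega
  have hXB : ((hq + 1048576) * 2097153 * ones + uv - B * ones) - D * oV
      = enc (fun p => (hq + 1048576 + uq a b p - B) + 2 ^ 21 * (hq + 1048576 + vq a b p - D)) pts := by
    rw [hL.ones, hL.oV, hL.uv, enc_mul, enc_add, enc_mul, enc_sub, enc_mul, enc_sub]
    · apply enc_congr
      intro p hp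
      have h1 := hu p hp
      have h2 := hv p hp
      norm_num
      omega
    · intro p hp
      have h1 := hu p hp
      have h2 := hv p hp
      omega
    · intro p hp
      have h1 := hu p hp
      have h2 := hv p hp
      omega
  rw [hXA, hXB] at h0
  have hlA : ∀ p ∈ pts, (hq + 1048575 - uq a b p + A) + 2 ^ 21 * (hq + 1048575 - vq a b p + C)
      < 2 ^ 42 := by
    intro p hp
    have h1 := hu p hp
    have h2 := hv p hp
    norm_num
    omega
  have hlB : ∀ p ∈ pts, (hq + 1048576 + uq a b p - B) + 2 ^ 21 * (hq + 1048576 + vq a b p - D)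
      < 2 ^ 42 := by
    intro p hp
    have h1 := hu p hp
    have h2 := hv p hp
    norm_num
    omega
  rw [enc_land hlA hlB] at h0
  set F : ℕ × ℕ × ℕ → ℕ := fun p =>
    ((hq + 1048575 - uq a b p + A) + 2 ^ 21 * (hq + 1048575 - vq a b p + C)) &&&
    ((hq + 1048576 + uq a b p - B) + 2 ^ 21 * (hq + 1048576 + vq a b p - D)) with hF
  have hFlt : ∀ p ∈ pts, F p < 2 ^ 42 := fun p hp => lt_of_le_of_lt Nat.and_le_left (hlA p hp)
  set c : ℕ × ℕ × ℕ → ℕ := fun p => if uq a b p + 1 ≤ A + hq ∧ B ≤ uq a b p + hq ∧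
    vq a b p + 1 ≤ C + hq ∧ D ≤ vq a b p + hq then 1 else 0 with hc
  have hdefi : defi g W th (enc F pts) = th - (W &&& ((((enc F pts &&& (enc F pts >>> 21)) &&& g)
      >>> 20) * 1048575)) % 4398046511103 := rfl
  rw [hdefi, hL.g, Nat.and_assoc,
    enc_shr_land (s := 21) (m := 1048576) (by norm_num) (by norm_num) hFlt,
    enc_land hFlt (fun p _ => lt_of_le_of_lt Nat.and_le_right (by norm_num))] at h0
  have hlane : enc (fun p => F p &&& ((F p >>> 21) &&& 1048576)) pts
      = 1048576 * enc c pts := by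
    rw [enc_mul]
    apply enc_congr
    intro p hp
    have h1 := hu p hp
    have h2 := hv p hp
    have h3 := lane_bits (fA := hq + 1048575 - uq a b p + A) (gA := hq + 1048575 - vq a b p + C)
      (fB := hq + 1048576 + uq a b p - B) (gB := hq + 1048576 + vq a b p - D)
      (by norm_num; omega) (by norm_num; omega) (by norm_num; omega) (by norm_num; omega)
    rw [hF]
    simp only
    rw [h3, hc]
    simp only
    congr 1
    have h20 : (2 ^ 20 : ℕ) = 1048576 := by norm_num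
    rw [h20]
    by_cases hcond : uq a b p + 1 ≤ A + hq ∧ B ≤ uq a b p + hq ∧
      vq a b p + 1 ≤ C + hq ∧ D ≤ vq a b p + hq
    · rw [if_pos hcond, if_pos]
      obtain ⟨e1, e2, e3, e4⟩ := hcond
      refine ⟨?_, ?_, ?_, ?_⟩ <;> omega
    · rw [if_neg hcond, if_neg]
      intro hcc
      apply hcond
      obtain ⟨e1, e2, e3, e4⟩ := hcc
      refine ⟨?_, ?_, ?_, ?_⟩ <;> omega
  rw [hlane] at h0
  have hshr : (1048576 * enc c pts) >>> 20 = enc c pts := by
    rw [Nat.shiftRight_eq_div_pow]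
    norm_num
  rw [hshr, mul_comm (enc c pts), enc_mul, hL.W,
    enc_land (fun p hp => lt_trans (hok p hp).2.2 (by norm_num)) (fun p _ => by
      rw [hc]; simp only; split_ifs <;> norm_num)] at h0
  have hfin : enc (fun p => p.2.2 &&& (1048575 * c p)) pts
      = enc (fun p => if uq a b p + 1 ≤ A + hq ∧ B ≤ uq a b p + hq ∧ vq a b p + 1 ≤ C + hq ∧
        D ≤ vq a b p + hq then p.2.2 else 0) pts := by
    apply enc_congr
    intro p hp
    rw [hc]
    simp only
    split_ifs with hcond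
    · rw [mul_one, w_land (hok p hp).2.2]
    · simp
  rw [hfin] at h0
  have hm := sum_eq (fun p => if uq a b p + 1 ≤ A + hq ∧ B ≤ uq a b p + hq ∧
    vq a b p + 1 ≤ C + hq ∧ D ≤ vq a b p + hq then p.2.2 else 0) pts
  have hmod : (4398046511103 : ℕ) = 2 ^ 42 - 1 := by norm_num
  rw [hmod] at h0
  have h1 := Nat.le_of_sub_eq_zero h0
  exact h1.trans hm

end Rect

end Pool.Agent.MP_abb58c_co
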