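import Pool.Agent.Lib.MP_abb58c_co.RectSlab1

/-! MP_abb58c_co: RECTANGLE CHECKER, from slabs to one box. -/

namespace Pool.Agent.MP_abb58c_co

namespace Rect

open Sweep

theorem force_eq (e : ℕ) (k : ℕ → Bool) : force e k = k e := rfl

/-- a sequence of slabs from `k` to `l` -/
inductive Path (P : ℕ → ℕ → Prop) : ℕ → ℕ → Prop
  | nil (k : ℕ) : Path P k k
  | cons {k k' l : ℕ} : P k k' → Path P k' l → Path P k l

theorem Path.trans {P : ℕ → ℕ → Prop} {k l m : ℕ} (h : Path P k l) (h' : Path P l m) :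
    Path P k m := by
  induction h with
  | nil k => exact h'
  | cons h1 _ ih => exact Path.cons h1 (ih h')

theorem Path.chain {P : ℕ → ℕ → Prop} {k l : ℕ} (h : Path P k l) :
    k = l ∨ ∃ (ks : List ℕ) (hne : ks ≠ []), ks.getLast hne = l ∧ Chain P k ks := by
  induction h with
  | nil k => exact Or.inl rfl
  | @cons k k' l h1 _ ih =>
    rcases ih with h0 | ⟨ks, hne, h2, h3⟩
    · exact Or.inr ⟨[k'], by simp, by simpa using h0, h1, trivial⟩
    · refine Or.inr ⟨k' :: ks, by simp, ?_, h1, h3⟩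
      rw [List.getLast_cons hne]
      exact h2

section
variable {S : (ℕ → Bool) → ℕ → ℕ → ℕ → ℕ → Bool} {P : ℕ → ℕ → Prop}
  (hS : ∀ (K : ℕ → Bool) (k k' s c : ℕ), S K k k' s c = true → P k k' ∧ ∃ c', K c' = true)

include hS

theorem chunk_sound (K : ℕ → Bool) (m : ℕ) : ∀ c k : ℕ, chunk S K m c k = true →
    ∃ l, Path P k l ∧ K l = true := by
  induction m with
  | zero =>
    intro c k h
    exact ⟨k, Path.nil k, h⟩
  | succ m ih =>
    intro c k h
    have h' : S (fun c' => chunk S K m c' (c &&& 1023)) k (c &&& 1023)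
      ((c >>> 10) &&& 127) (c >>> 17) = true := h
    obtain ⟨h1, c', h2⟩ := hS _ _ _ _ _ h'
    obtain ⟨l, h3, h4⟩ := ih _ _ h2
    exact ⟨l, Path.cons h1 h3, h4⟩

theorem chunks_sound (k1 : ℕ) (cs : List ℕ) : ∀ k : ℕ, chunks S k1 cs k = true → Path P k k1 := by
  induction cs with
  | nil =>
    intro k h
    have h' : Nat.beq k k1 = true := h
    rw [Nat.beq_eq] at h'
    rw [h']
    exact Path.nil _
  | cons c cs ih =>
    intro k h
    have h' : chunk S (chunks S k1 cs) (c &&& 1023) (c >>> 10) k = true := h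
    obtain ⟨l, h1, h2⟩ := chunk_sound hS _ _ _ _ h'
    exact h1.trans (ih l h2)

end

theorem badP_sound {A : List (ℕ × ℕ)} (h : badP A = 0) : ∀ p ∈ A, p.1 ≤ 387710 ∧ p.2 ≤ 387710 := by
  induction A with
  | nil => simp
  | cons r A ih =>
    have h' : (r.1 - 387710 + (r.2 - 387710)) + badP A = 0 := h
    intro p hp
    rcases List.mem_cons.1 hp with rfl | hp
    · omega
    · exact ih (by omega) p hp

theorem piece_unfold (m : Meas) (C A : List (ℕ × ℕ)) (b : Box) (thr : ℕ) (cs : List ℕ) :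
    piece m C A b thr cs =
    andB (Nat.ble (((badP A + badP C) + (badF m.n (loF m.n m.P) + badF m.n (hiF m.n m.P))) +
      ((thr - 1048575) + (b.k0 + 1 - b.k1))) 0)
      (piece2 (lenR A) m.n (packR A) (loF m.n m.P) (hiF m.n m.P) (wtF m.n m.W) thr C
      b.k0 b.k1 b.x0 b.x1 b.y0 b.y1 cs) := by
  rw [piece]
  simp only [force_eq]
  rfl

theorem piece2_unfold (nA nM PA MX MY MW thr : ℕ) (C : List (ℕ × ℕ))
    (k0 k1 bx0 bx1 by0 by1 : ℕ) (cs : List ℕ) :
    piece2 nA nM PA MX MY MW thr C k0 k1 bx0 bx1 by0 by1 cs =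
    piece3 (onesR (nA + nM)) (thr * onesR nA + MW <<< (42 * nA)) (loF nA PA + MX <<< (42 * nA))
      (hiF nA PA + MY <<< (42 * nA)) thr C k0 k1 bx0 bx1 by0 by1 cs := by
  rw [piece2]
  rw [force_eq, force_eq, force_eq, force_eq]
  rfl

theorem piece3_unfold (ones W PX PY thr : ℕ) (C : List (ℕ × ℕ)) (k0 k1 bx0 bx1 by0 by1 : ℕ)
    (cs : List ℕ) : piece3 ones W PX PY thr C k0 k1 bx0 bx1 by0 by1 cs =
    chunks (slab1 ones (ones * 1048576) W (ones * 2097152) (ones * 2097151) PX PY
      (ones * 387710 - PX) thr bx0 bx1 by0 by1 C) k1 cs k0 := by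
  rw [piece3]
  rw [force_eq, force_eq, force_eq, force_eq]
  rfl

/-- soundness of the check of one box -/
theorem specPiece_of (hArr : SpecArr) (hS : SpecSlab1) : SpecPiece := by
  intro m C A b thr cs h
  rw [piece_unfold, andB_eq, Bool.and_eq_true, Nat.ble_eq, Nat.le_zero] at h
  obtain ⟨h0, h2⟩ := h
  have hA : badP A = 0 := by omega
  have hC : badP C = 0 := by omega
  have hx : badF m.n (loF m.n m.P) = 0 := by omega
  have hy : badF m.n (hiF m.n m.P) = 0 := by omega
  have ht : thr < 2 ^ 20 := by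
    norm_num
    omega
  have hk : b.k0 < b.k1 := by omega
  obtain ⟨e0, e1, e2, e3, e4⟩ := hArr m A thr hA hx hy ht
  rw [piece2_unfold, piece3_unfold, e1, e2, e3, e4] at h2
  have h3 := chunks_sound (P := fun k k' => slabOk k k' = true ∧
    SlabCov (decM m.n m.P m.W) C A b thr k k') (fun K k k' s c hs => by
      obtain ⟨r1, r2, r3⟩ := hS (decM m.n m.P m.W) C A b thr k k' s c K e0 (badP_sound hC) hs
      exact ⟨⟨r1, r2⟩, r3⟩) b.k1 cs b.k0 h2
  rcases h3.chain with h4 | ⟨ks, hne, h4, h5⟩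
  · omega
  · refine box_sound ⟨?_, ?_, ?_⟩ ks hne h4 h5
    · intro p hp
      exact (e0 p (by rw [withBlocked]; exact List.mem_append_right _ hp)).1
    · intro p hp
      exact (badP_sound hC p hp).1
    · intro p hp
      exact (badP_sound hA p hp).1

end Rect

end Pool.Agent.MP_abb58c_co
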