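import Pool.Agent.Lib.MP_abb58c_co.RectSpec

/-! MP_abb58c_co: RECTANGLE CHECKER, one slab: constants, windows, conditions on the slab. -/

namespace Pool.Agent.MP_abb58c_co

namespace Rect

open Sweep

theorem nmax_eq (x y : ℕ) : nmax x y = max x y := by
  change x + (y - x) = max x y
  omega

theorem nmin_eq (x y : ℕ) : nmin x y = min x y := by
  change x - (x - y) = min x y
  omega

theorem dx_eq (k : ℕ) : dx k = (dir k).1 := by
  change (dirN >>> (32 * k)) &&& 65535 = (dirN >>> (32 * k)) % 65536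
  exact Nat.and_two_pow_sub_one_eq_mod _ 16

theorem dy_eq (k : ℕ) : dy k = (dir k).2 := by
  change (dirN >>> (32 * k + 16)) &&& 65535 = (dirN >>> (32 * k + 16)) % 65536
  exact Nat.and_two_pow_sub_one_eq_mod _ 16

theorem faR_eq (k k' : ℕ) : faR k k' = fa k k' := by
  change dx k + dx k' = _
  rw [dx_eq, dx_eq, fa]

theorem fbR_eq (k k' : ℕ) : fbR k k' = fb k k' := by
  change dy k + dy k' = _
  rw [dy_eq, dy_eq, fb]

theorem crR_eq (k k' : ℕ) : crR k k' = cr k k' := by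
  change dx k * dy k' - dy k * dx k' = _
  rw [dx_eq, dx_eq, dy_eq, dy_eq, cr]

theorem d1R_eq (k k' : ℕ) : d1R k k' = fa k k' * (dir k).1 + fb k k' * (dir k).2 := by
  change faR k k' * dx k + fbR k k' * dy k = _
  rw [dx_eq, dy_eq, faR_eq, fbR_eq]

theorem d2R_eq (k k' : ℕ) : d2R k k' = fa k k' * (dir k').1 + fb k k' * (dir k').2 := by
  change faR k k' * dx k' + fbR k k' * dy k' = _
  rw [dx_eq, dy_eq, faR_eq, fbR_eq]

theorem kkR_eq (k k' : ℕ) : kkR k k' = kk k k' := by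
  change nmax (d1R k k') (d2R k k') + crR k k' = _
  rw [nmax_eq, d1R_eq, d2R_eq, crR_eq, kk]

theorem n2R_eq (k k' : ℕ) : n2R k k' = fa k k' * fa k k' + fb k k' * fb k k' := by
  change faR k k' * faR k k' + fbR k k' * fbR k k' = _
  rw [faR_eq, fbR_eq]

theorem hinR_eq (k k' : ℕ) : hinR k k' = hin k k' := by
  change n2R k k' * 1638400000 / (2 * kkR k k') = _
  rw [n2R_eq, kkR_eq, hin, DD]
  have e : fa k k' * fa k k' + fb k k' * fb k k' = fa k k' ^ 2 + fb k k' ^ 2 := by ring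
  rw [e, mul_assoc (fa k k' ^ 2 + fb k k' ^ 2),
    show (16384 * 100000 : ℕ) = 1638400000 from by norm_num]

theorem houtR_eq (k k' : ℕ) : houtR k k' = hout k k' := by
  change 100000 * kkR k k' / 32768 + 1 = _
  rw [kkR_eq, hout, DD]

theorem hmR_eq (k k' : ℕ) : hmR k k' = hm k k' := by
  change nmin (100000 * (dx k + dy k) / 32772) (100000 * (dx k' + dy k') / 32772) = _
  rw [nmin_eq, dx_eq, dx_eq, dy_eq, dy_eq, hm, DD]

theorem wlo_eq (f : ℕ × ℕ → ℕ) (h : ℕ) (C : List (ℕ × ℕ)) :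
    wlo f h C = C.foldr (fun p r => max (f p - h) r) 0 := by
  induction C with
  | nil => rfl
  | cons p C ih =>
    rw [List.foldr_cons, ← ih]
    change nmax (f p - h) (wlo f h C) = _
    rw [nmax_eq]

theorem whi_eq (f : ℕ × ℕ → ℕ) (h m : ℕ) (C : List (ℕ × ℕ)) :
    whi f h m C = C.foldr (fun p r => min (f p + h) r) m := by
  induction C with
  | nil => rfl
  | cons p C ih =>
    rw [List.foldr_cons, ← ih]
    change nmin (f p + h) (whi f h m C) = _
    rw [nmin_eq]

/-- the table of directions -/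
def dirChk (k : ℕ) : Bool :=
  Nat.ble ((dir k).1 + (dir k).2) 23174 && Nat.ble (16384 ^ 2) ((dir k).1 ^ 2 + (dir k).2 ^ 2) &&
    Nat.ble ((dir k).1 ^ 2 + (dir k).2 ^ 2) (16386 ^ 2)

theorem dirChk_all : ∀ k < 901, dirChk k = true := by
  decide +kernel

theorem dir_pos1 : ∀ k < 900, Nat.ble 1 (dir k).1 = true := by
  decide +kernel

theorem dir_pos2 : ∀ k < 901, 0 < k → Nat.ble 1 (dir k).2 = true := by
  decide +kernel

theorem andB_eq (c r : Bool) : andB c r = (c && r) := by cases c <;> rfl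

theorem bad_sound {k k' : ℕ} (h : badR k k' = 0) :
    k < k' ∧ k' ≤ 900 ∧ (dir k).2 * (dir k').1 ≤ (dir k).1 * (dir k').2 ∧
    cr k k' ≤ fa k k' * (dir k).1 + fb k k' * (dir k).2 ∧
    cr k k' ≤ fa k k' * (dir k').1 + fb k k' * (dir k').2 ∧
    (hin k k' - 1) >>> 16 < 2 ^ 19 := by
  have h' : (k + 1 - k' + (k' - 900)) + ((dy k * dx k' - dx k * dy k') +
      ((crR k k' - d1R k k' + (crR k k' - d2R k k')) + (hqR k k' - 524287))) = 0 := h
  have e : hqR k k' = (hin k k' - 1) >>> 16 := by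
    change (hinR k k' - 1) >>> 16 = _
    rw [hinR_eq]
  rw [dx_eq, dx_eq, dy_eq, dy_eq, crR_eq, d1R_eq, d2R_eq, e] at h'
  generalize (hin k k' - 1) >>> 16 = q at h' ⊢
  generalize (dir k).2 * (dir k').1 = t1 at h' ⊢
  generalize (dir k).1 * (dir k').2 = t2 at h' ⊢
  generalize fa k k' * (dir k).1 + fb k k' * (dir k).2 = t3 at h' ⊢
  generalize fa k k' * (dir k').1 + fb k k' * (dir k').2 = t4 at h' ⊢
  refine ⟨by omega, by omega, by omega, by omega, by omega, by norm_num; omega⟩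

theorem bad_slabOk {k k' : ℕ} (h : badR k k' = 0) : slabOk k k' = true := by
  obtain ⟨h1, h2, h3, h4, h5, -⟩ := bad_sound h
  have c1 := dirChk_all k (by omega)
  have c2 := dirChk_all k' (by omega)
  simp only [dirChk, Bool.and_eq_true, Nat.ble_eq] at c1 c2
  simp only [slabOk, Bool.and_eq_true, Nat.ble_eq]
  exact ⟨⟨⟨⟨⟨⟨h3, h4⟩, h5⟩, c1.1.2⟩, c1.2⟩, c2.1.2⟩, c2.2⟩

theorem bad_bounds {k k' : ℕ} (h : badR k k' = 0) :
    0 < fa k k' ∧ 0 < fb k k' ∧ (fa k k' + fb k k') * 387710 < 34000000000 ∧ 0 < hin k k' := by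
  obtain ⟨h1, h2, h3, h4, h5, -⟩ := bad_sound h
  have c1 := dirChk_all k (by omega)
  have c2 := dirChk_all k' (by omega)
  simp only [dirChk, Bool.and_eq_true, Nat.ble_eq] at c1 c2
  have p1 := dir_pos1 k (by omega)
  have p2 := dir_pos2 k' (by omega) (by omega)
  rw [Nat.ble_eq] at p1 p2
  have ha : 0 < fa k k' := by rw [fa]; omega
  have hb : 0 < fb k k' := by rw [fb]; omega
  have hab : (fa k k' + fb k k') * 387710 < 34000000000 := by
    rw [fa, fb]
    omega
  refine ⟨ha, hb, hab, ?_⟩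
  have hn : kk k k' ≤ 2 * (fa k k' ^ 2 + fb k k' ^ 2) := by
    have e : fa k k' ^ 2 + fb k k' ^ 2 = (fa k k' * (dir k).1 + fb k k' * (dir k).2) +
        (fa k k' * (dir k').1 + fb k k' * (dir k').2) := by
      rw [fa, fb]; ring
    rw [kk, e]
    generalize fa k k' * (dir k).1 + fb k k' * (dir k).2 = t3 at h4 ⊢
    generalize fa k k' * (dir k').1 + fb k k' * (dir k').2 = t4 at h5 ⊢
    omega
  have hk : 0 < kk k k' := by
    rw [kk]
    have : 0 < fa k k' * (dir k).1 := Nat.mul_pos ha p1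
    omega
  rw [hin]
  apply Nat.div_pos _ (by omega)
  rw [DD]
  nlinarith

/-- one slab -/
theorem specSlab1_of (hR : SpecRect) (hU : SpecUV) (hS : SpecSlab2) : SpecSlab1 := by
  intro mu C A b thr k k' s c K hpts hC h
  have h' : andB (Nat.ble (badR k k') 0) _ = true := h
  rw [andB_eq, Bool.and_eq_true, Nat.ble_eq, Nat.le_zero] at h'
  obtain ⟨hbad, h'⟩ := h'
  obtain ⟨ha, hb, hab, hh⟩ := bad_bounds hbad
  obtain ⟨-, -, -, -, -, hq⟩ := bad_sound hbad
  have e : hqR k k' = (hin k k' - 1) >>> 16 := by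
    change (hinR k k' - 1) >>> 16 = _
    rw [hinR_eq]
  set pts := withBlocked mu A thr with hpd
  have hlanes : LanesOk (fa k k') (fb k k') (enc (fun _ => 1) pts)
      (enc (fun _ => 1) pts * 1048576) (enc (fun p => p.2.2) pts)
      (enc (fun _ => 1) pts * 2097152)
      (enc (fun p => uq (fa k k') (fb k k') p + 2097152 * vq (fa k k') (fb k k') p) pts) pts := by
    refine ⟨rfl, ?_, rfl, ?_, rfl⟩
    · rw [enc, enc, mul_comm, pack_mul, List.map_map]
      rfl
    · rw [enc, enc, mul_comm, pack_mul, List.map_map]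
      rfl
  have h2 : Nat.ble (badR k k') 0 = true := by rw [hbad]; rfl
  have key : slab2 (enc (fun _ => 1) pts) (enc (fun _ => 1) pts * 1048576)
      (enc (fun p => p.2.2) pts) (enc (fun _ => 1) pts * 2097152) thr
      (enc (fun p => uq (fa k k') (fb k k') p + 2097152 * vq (fa k k') (fb k k') p) pts)
      ((hin k k' - 1) >>> 16) (fa k k') (fb k k') K
      (rx0 b k k') (rx1 b k k') (ry0 b k k') (ry1 b k k')
      (ulo C k k') (uhi C k k') (vlo C k k') (vhi C k k')
      (fa k k' * fa k k' + fb k k' * fb k k') s c = true := by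
    rw [← h']
    rw [← hU pts (fa k k') (fb k k') hpts hab, ← n2R_eq, ← e, rx0, rx1, ry0, ry1, ulo, uhi, vlo, vhi,
      ← wlo_eq (fun p => uc (fa k k') (fb k k') p.1 p.2),
      ← wlo_eq (fun p => vc (fa k k') (fb k k') p.1 p.2),
      ← whi_eq (fun p => uc (fa k k') (fb k k') p.1 p.2),
      ← whi_eq (fun p => vc (fa k k') (fb k k') p.1 p.2),
      ← nmax_eq, ← nmax_eq, ← nmin_eq, ← nmin_eq, ← hmR_eq, ← houtR_eq, ← faR_eq, ← fbR_eq]
    rfl
  have hx : rx1 b k k' ≤ 387710 := by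
    rw [rx1]
    exact (min_le_right _ _).trans ((Nat.sub_le _ _).trans (le_of_eq rfl))
  have hy : ry1 b k k' ≤ 387710 := by
    rw [ry1]
    exact (min_le_right _ _).trans ((Nat.sub_le _ _).trans (le_of_eq rfl))
  obtain ⟨r1, r2⟩ := hS hR pts _ _ _ _ thr _ (hin k k') _ _ _ _ _ _ _ _ _ _ s c K hpts ha hb hab
    hlanes hq hh hx hy key
  exact ⟨bad_slabOk hbad, r1, r2⟩

end Rect

end Pool.Agent.MP_abb58c_co
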