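import Pool.Agent.Lib.MP_abb58c_co.RectDefs
import Pool.Agent.Lib.MP_abb58c_co.Lanes

/-! MP_abb58c_co: RECTANGLE CHECKER, the interfaces between the parts of its soundness proof. -/

namespace Pool.Agent.MP_abb58c_co

namespace Rect

open Sweep

/-- coarse first coordinate of a point -/
def uq (a b : ℕ) (p : ℕ × ℕ × ℕ) : ℕ := (a * p.1 + b * p.2.1) / 65536
/-- coarse second coordinate of a point -/
def vq (a b : ℕ) (p : ℕ × ℕ × ℕ) : ℕ := (a * p.2.1 + b * (387710 - p.1)) / 65536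

/-- weight of the points seen from the whole rectangle `[A, B] x [C, D]` -/
def sureW (a b hq A B C D : ℕ) (pts : List (ℕ × ℕ × ℕ)) : ℕ :=
  (pts.map fun p => if uq a b p + 1 ≤ A + hq ∧ B ≤ uq a b p + hq ∧ vq a b p + 1 ≤ C + hq ∧
    D ≤ vq a b p + hq then p.2.2 else 0).sum

/-- all coordinates and weights are in range -/
def PtsOk (pts : List (ℕ × ℕ × ℕ)) : Prop :=
  ∀ p ∈ pts, p.1 ≤ 387710 ∧ p.2.1 ≤ 387710 ∧ p.2.2 < 2 ^ 20

/-- lanes of a list of points -/
def enc (f : ℕ × ℕ × ℕ → ℕ) (pts : List (ℕ × ℕ × ℕ)) : ℕ := pack 42 (pts.map f)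

/-- `ones`, `g`, `W`, `oV`, `uv` are the lanes of the points `pts` in the frame `(a, b)` -/
structure LanesOk (a b ones g W oV uv : ℕ) (pts : List (ℕ × ℕ × ℕ)) : Prop where
  ones : ones = enc (fun _ => 1) pts
  g : g = enc (fun _ => 1048576) pts
  W : W = enc (fun p => p.2.2) pts
  oV : oV = enc (fun _ => 2097152) pts
  uv : uv = enc (fun p => uq a b p + 2097152 * vq a b p) pts

/-- SPEC 1 (arrays) -/
def SpecArr : Prop := ∀ (m : Meas) (A : List (ℕ × ℕ)) (thr : ℕ), badP A = 0 →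
  badF m.n (loF m.n m.P) = 0 → badF m.n (hiF m.n m.P) = 0 → thr < 2 ^ 20 →
  PtsOk (withBlocked (decM m.n m.P m.W) A thr) ∧
  onesR (lenR A + m.n) = enc (fun _ => 1) (withBlocked (decM m.n m.P m.W) A thr) ∧
  thr * onesR (lenR A) + wtF m.n m.W <<< (42 * lenR A) =
    enc (fun p => p.2.2) (withBlocked (decM m.n m.P m.W) A thr) ∧
  loF (lenR A) (packR A) + loF m.n m.P <<< (42 * lenR A) =
    enc (fun p => p.1) (withBlocked (decM m.n m.P m.W) A thr) ∧
  hiF (lenR A) (packR A) + hiF m.n m.P <<< (42 * lenR A) =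
    enc (fun p => p.2.1) (withBlocked (decM m.n m.P m.W) A thr)

/-- SPEC 2 (coarse coordinates) -/
def SpecUV : Prop := ∀ (pts : List (ℕ × ℕ × ℕ)) (a b : ℕ), PtsOk pts → (a + b) * 387710 < 34000000000 →
  uvL (enc (fun _ => 1) pts * 2097151) (enc (fun p => p.1) pts) (enc (fun p => p.2.1) pts)
    (enc (fun _ => 1) pts * 387710 - enc (fun p => p.1) pts) a b =
    enc (fun p => uq a b p + 2097152 * vq a b p) pts

/-- SPEC 3 (one rectangle) -/
def SpecRect : Prop := ∀ (pts : List (ℕ × ℕ × ℕ)) (a b ones g W oV uv hq th A B C D : ℕ),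
  PtsOk pts → (a + b) * 387710 < 34000000000 → LanesOk a b ones g W oV uv pts →
  hq < 2 ^ 19 → A < 2 ^ 19 → B < 2 ^ 19 → C < 2 ^ 19 → D < 2 ^ 19 →
  defi g W th
    ((((hq + 1048575) * 2097153 * ones - uv + A * ones) + C * oV) &&&
      (((hq + 1048576) * 2097153 * ones + uv - B * ones) - D * oV)) = 0 →
  th ≤ sureW a b hq A B C D pts

/-- SPEC 4 (one slab, after the constants): `SpecRect` may be used -/
def SpecSlab2 : Prop := SpecRect →
  ∀ (pts : List (ℕ × ℕ × ℕ)) (ones g W oV thr uv h a b x0 x1 y0 y1 ul uh vl vh s c : ℕ)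
    (K : ℕ → Bool),
  PtsOk pts → 0 < a → 0 < b → (a + b) * 387710 < 34000000000 → LanesOk a b ones g W oV uv pts →
  (h - 1) >>> 16 < 2 ^ 19 → 0 < h → x1 ≤ 387710 → y1 ≤ 387710 →
  slab2 ones g W oV thr uv ((h - 1) >>> 16) a b K x0 x1 y0 y1 ul uh vl vh (a * a + b * b) s c = true →
  Covers a b h x0 x1 y0 y1 ul uh vl vh thr pts ∧ ∃ c', K c' = true

/-- SPEC 5 (one slab) -/
def SpecSlab1 : Prop :=
  ∀ (mu : List (ℕ × ℕ × ℕ)) (C A : List (ℕ × ℕ)) (b : Box) (thr k k' s c : ℕ) (K : ℕ → Bool),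
  PtsOk (withBlocked mu A thr) → (∀ p ∈ C, p.1 ≤ 387710 ∧ p.2 ≤ 387710) →
  slab1 (enc (fun _ => 1) (withBlocked mu A thr)) (enc (fun _ => 1) (withBlocked mu A thr) * 1048576)
    (enc (fun p => p.2.2) (withBlocked mu A thr))
    (enc (fun _ => 1) (withBlocked mu A thr) * 2097152)
    (enc (fun _ => 1) (withBlocked mu A thr) * 2097151)
    (enc (fun p => p.1) (withBlocked mu A thr)) (enc (fun p => p.2.1) (withBlocked mu A thr))
    (enc (fun _ => 1) (withBlocked mu A thr) * 387710 - enc (fun p => p.1) (withBlocked mu A thr))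
    thr b.x0 b.x1 b.y0 b.y1 C K k k' s c = true →
  slabOk k k' = true ∧ SlabCov mu C A b thr k k' ∧ ∃ c', K c' = true

end Rect

end Pool.Agent.MP_abb58c_co
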