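import Pool.Agent.Lib.MP_abb58c_co.SweepBox
import Pool.Agent.Lib.MP_abb58c_co.VRange

/-! MP_abb58c_co, SWEEP: the arithmetic sweep of one slab (reference version, plain recursion).

Prepared points are triples `(U, V, w)` with `U = uc a b x y`, `V = vc a b x y`, sorted by `U`.
All `U`-coordinates of events are shifted by `h`: a prepared point is seen for
`U_p < U + h < U_p + 2 h`. The profile over `V` is one natural number with `W` bits for each bin;
bin `j` is `g j ≤ V + h ≤ g (j + 1)`. -/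

namespace Pool.Agent.MP_abb58c_co

namespace Sweep

/-- `n` ones with `W` bits for each: `∑_{j < n} 2 ^ (W j)` -/
def rep (W n : ℕ) : ℕ := (2 ^ (W * n) - 1) / (2 ^ W - 1)

/-- parameters of the sweep of one slab for one box -/
structure SP where
  /-- frame -/
  a : ℕ
  b : ℕ
  /-- inner half size -/
  h : ℕ
  /-- rectangle -/
  x0 : ℕ
  x1 : ℕ
  y0 : ℕ
  y1 : ℕ
  /-- range of `U + h` -/
  ua : ℕ
  ub : ℕ
  /-- range of `V` -/
  vl : ℕ
  vh : ℕ
  /-- bits of a bin, width of a bin, number of bins of a point, number of all bins -/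
  W : ℕ
  g : ℕ
  len : ℕ
  nb : ℕ
  /-- a check is made before a point leaves if the current interval has at least this length -/
  dl : ℕ
  /-- intervals longer than this are cut (into at most `nc + 1` pieces) -/
  cl : ℕ
  nc : ℕ
  /-- `rep W len`, `(2 ^ (W - 1) - thr) * rep W nb`, `2 ^ (W - 1) * rep W nb` -/
  R : ℕ
  K : ℕ
  M : ℕ

/-- profile of one point -/
def contrib (s : SP) (V w : ℕ) : ℕ := (w * s.R) <<< (s.W * (V / s.g + 1))

/-- guard bits of the profile `G` for `V` in `[lo, hi]` -/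
def grd (s : SP) (G lo hi : ℕ) : Bool :=
  let j0 := (lo + s.h) / s.g
  let j1 := (hi + s.h) / s.g
  let m := s.M >>> (s.W * (s.nb - (j1 + 1 - j0)))
  Nat.blt j1 s.nb && Nat.beq (((G + s.K) >>> (s.W * j0)) &&& m) m

/-- check of the profile `G` for `U + h` in `[A, B]`; the range `[c, d]` of `V` is already checked
(for a smaller profile); continue with the checked range -/
def chkS (s : SP) (G A B c d : ℕ) (k : ℕ → ℕ → Bool) : Bool :=
  let lo := max s.vl (vlow s.a s.b s.x1 s.y0 (A - s.h) (B - s.h))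
  let hi := min s.vh (vhigh s.a s.b s.x0 s.y1 (A - s.h) (B - s.h))
  if Nat.blt hi lo || (Nat.ble c lo && Nat.ble hi d) then k c d
  else grd s G lo hi && k lo hi

/-- the same with long intervals cut into pieces -/
def chkC (s : SP) (G B : ℕ) (k : ℕ → ℕ → Bool) : ℕ → ℕ → ℕ → ℕ → Bool
  | 0, A, c, d => chkS s G A B c d k
  | n + 1, A, c, d =>
    if A + s.cl < B then chkS s G A (A + s.cl) c d (fun c' d' => chkC s G B k n (A + s.cl) c' d')
    else chkS s G A B c d k

/-- remove the points which are not seen any more at `U + h = lim` (with a check before a point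
leaves if the interval from `prev` to this event is long), then continue with `k` -/
def leave (s : SP) (lim : ℕ) (k : List (ℕ × ℕ × ℕ) → ℕ → ℕ → ℕ → ℕ → Bool) :
    List (ℕ × ℕ × ℕ) → ℕ → ℕ → ℕ → ℕ → Bool
  | [], G, prev, c, d => k [] G prev c d
  | q :: t, G, prev, c, d =>
    if q.1 + 2 * s.h ≤ lim then
      if prev + s.dl ≤ q.1 + 2 * s.h then
        chkC s G (q.1 + 2 * s.h) (fun _ _ =>
          leave s lim k t (G - contrib s q.2.1 q.2.2) (q.1 + 2 * s.h) 1 0) s.nc prev c d
      else leave s lim k t (G - contrib s q.2.1 q.2.2) prev 1 0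
    else k (q :: t) G prev c d

/-- the end of the sweep -/
def fin (s : SP) : List (ℕ × ℕ × ℕ) → ℕ → ℕ → ℕ → ℕ → Bool :=
  leave s s.ub (fun _ G prev c d => chkC s G s.ub (fun _ _ => true) s.nc prev c d)

/-- the sweep: `E` = points still to enter, `L` = points still to leave, `G` = profile,
`prev` = left end of the current interval of `U + h`, `[c, d]` = checked range of `V` -/
def loop (s : SP) : List (ℕ × ℕ × ℕ) → List (ℕ × ℕ × ℕ) → ℕ → ℕ → ℕ → ℕ → Bool
  | [], L, G, prev, c, d => fin s L G prev c d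
  | p :: E, L, G, prev, c, d =>
    if s.ub ≤ p.1 then fin s L G prev c d
    else if p.1 < s.ua then loop s E L (G + contrib s p.2.1 p.2.2) prev c d
    else
      leave s p.1 (fun L' G' prev' c' d' =>
        chkC s G' p.1 (fun c'' d'' => loop s E L' (G' + contrib s p.2.1 p.2.2) p.1 c'' d'')
          s.nc prev' c' d') L G prev c d

/-- parameters are consistent -/
def spOk (s : SP) (thr tot : ℕ) : Bool :=
  Nat.ble 1 s.W && Nat.ble 1 s.g && Nat.blt (s.g * (s.len + 1)) (2 * s.h) &&
  Nat.ble s.x1 S0 && Nat.ble s.x0 S0 && Nat.ble s.h s.ua &&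
  Nat.ble thr (2 ^ (s.W - 1)) && Nat.blt tot (2 ^ (s.W - 1)) &&
  Nat.beq s.R (rep s.W s.len) && Nat.beq s.K ((2 ^ (s.W - 1) - thr) * rep s.W s.nb) &&
  Nat.beq s.M (2 ^ (s.W - 1) * rep s.W s.nb)

/-- weight seen from `(U, V)` by prepared points -/
noncomputable def seenP (h : ℕ) (pts : List (ℕ × ℕ × ℕ)) (U V : ℝ) : ℝ :=
  open Classical in
  (pts.map fun p => if |(p.1 : ℝ) - U| < h ∧ |(p.2.1 : ℝ) - V| < h then (p.2.2 : ℝ) else 0).sum

/-- (P1) guard bits: if the guard bits of the bins `j0 ≤ j < j0 + n` are set after adding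
`(2 ^ (W - 1) - thr)` to each bin, then all these bins have weight at least `thr` -/
def SpecGuard : Prop :=
  ∀ (W len nb thr j0 n : ℕ) (act : List (ℕ × ℕ)), 1 ≤ W → thr ≤ 2 ^ (W - 1) →
    (act.map fun p => p.2).sum < 2 ^ (W - 1) → j0 + n ≤ nb →
    let G := (act.map fun p => (p.2 * rep W len) <<< (W * p.1)).sum
    let m := (2 ^ (W - 1) * rep W nb) >>> (W * (nb - n))
    ((G + (2 ^ (W - 1) - thr) * rep W nb) >>> (W * j0)) &&& m = m →
    ∀ j, j0 ≤ j → j < j0 + n →
      thr ≤ (act.map fun p => if p.1 ≤ j ∧ j < p.1 + len then p.2 else 0).sum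

/-- (P2) soundness of the sweep loop -/
def SpecLoop : Prop :=
  ∀ (s : SP) (thr : ℕ) (pts : List (ℕ × ℕ × ℕ)),
    spOk s thr ((pts.map fun p => p.2.2).sum) = true → pts.Pairwise (fun p q => p.1 ≤ q.1) →
    loop s pts pts 0 s.ua 1 0 = true →
    ∀ X Y : ℝ, (s.x0 : ℝ) ≤ X → X ≤ s.x1 → (s.y0 : ℝ) ≤ Y → Y ≤ s.y1 →
      (s.ua : ℝ) ≤ s.a * X + s.b * Y + s.h → s.a * X + s.b * Y + s.h ≤ s.ub →
      (s.vl : ℝ) ≤ s.a * Y + s.b * (S0 - X) → s.a * Y + s.b * (S0 - X) ≤ s.vh →
      (thr : ℝ) ≤ seenP s.h pts (s.a * X + s.b * Y) (s.a * Y + s.b * (S0 - X))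

/-! ### Driver for the slabs of one box -/

/-- insertion by the first frame coordinate -/
def insertU (a b : ℕ) (p : ℕ × ℕ × ℕ) : List (ℕ × ℕ × ℕ) → List (ℕ × ℕ × ℕ)
  | [] => [p]
  | q :: t => if uc a b p.1 p.2.1 ≤ uc a b q.1 q.2.1 then p :: q :: t else q :: insertU a b p t

/-- insertion sort by the first frame coordinate -/
def sortU (a b : ℕ) : List (ℕ × ℕ × ℕ) → List (ℕ × ℕ × ℕ)
  | [] => []
  | p :: t => insertU a b p (sortU a b t)

/-- prepared points -/
def prep (a b : ℕ) (pts : List (ℕ × ℕ × ℕ)) : List (ℕ × ℕ × ℕ) :=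
  pts.map fun p => (uc a b p.1 p.2.1, vc a b p.1 p.2.1, p.2.2)

/-- parameters of a slab; `R`, `K`, `M` are the constants of the job -/
def mkSP (C : List (ℕ × ℕ)) (b : Box) (k k' W len nb dl cl nc R K M : ℕ) : SP :=
  { a := fa k k', b := fb k k', h := hin k k',
    x0 := rx0 b k k', x1 := rx1 b k k', y0 := ry0 b k k', y1 := ry1 b k k',
    ua := max (ulo C k k') (fa k k' * rx0 b k k' + fb k k' * ry0 b k k') + hin k k',
    ub := min (uhi C k k') (fa k k' * rx1 b k k' + fb k k' * ry1 b k k') + hin k k',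
    vl := vlo C k k', vh := vhi C k k',
    W := W, g := (2 * hin k k' - 1) / (len + 1), len := len, nb := nb,
    dl := dl * ((2 * hin k k' - 1) / (len + 1)),
    cl := cl * ((2 * hin k k' - 1) / (len + 1)), nc := nc, R := R, K := K, M := M }

/-- all slabs of a box: `raw` = weighted points (with the blocked ones) in the order of the
previous slab, `ks` = the remaining break points -/
def slabs (C : List (ℕ × ℕ)) (b : Box) (W len nb dl cl nc R K M : ℕ) :
    ℕ → List ℕ → List (ℕ × ℕ × ℕ) → Bool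
  | _, [], _ => true
  | k, k' :: ks, raw =>
    let s := mkSP C b k k' W len nb dl cl nc R K M
    let raw' := sortU s.a s.b raw
    slabOk k k' && Nat.ble 1 s.g &&
      (Nat.blt s.ub s.ua || loop s (prep s.a s.b raw') (prep s.a s.b raw') 0 s.ua 1 0) &&
      slabs C b W len nb dl cl nc R K M k' ks raw'

/-- select a sublist by the bits of a mask -/
def sel : ℕ → List (ℕ × ℕ × ℕ) → List (ℕ × ℕ × ℕ)
  | _, [] => []
  | m, p :: t => if m % 2 = 1 then p :: sel (m / 2) t else sel (m / 2) t

/-- data of the certificate for one box -/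
structure Aux where
  /-- selected points of the measure -/
  mask : ℕ
  /-- bits of a bin, bins of a point, all bins -/
  W : ℕ
  len : ℕ
  nb : ℕ
  /-- in units of the width of a bin: a check is made before a point leaves if the current interval
  is at least this long -/
  dl : ℕ
  /-- in units of the width of a bin: longer intervals are cut, into at most `nc + 1` pieces -/
  cl : ℕ
  nc : ℕ
  /-- break points of the slabs after `b.k0` (the last one is `b.k1`) -/
  ks : List ℕ

/-- the sweep of one box of a label -/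
def sweepBox (mu : List (ℕ × ℕ × ℕ)) (C A : List (ℕ × ℕ)) (b : Box) (thr : ℕ) (x : Aux) : Bool :=
  let pts := withBlocked (sel x.mask mu) A thr
  Nat.ble 1 x.W && Nat.ble thr (2 ^ (x.W - 1)) && Nat.blt (wsum pts) (2 ^ (x.W - 1)) &&
  (x.ks.getLast? == some b.k1) && Nat.ble b.x0 S0 && Nat.ble b.x1 S0 &&
  slabs C b x.W x.len x.nb x.dl x.cl x.nc (rep x.W x.len) ((2 ^ (x.W - 1) - thr) * rep x.W x.nb)
    (2 ^ (x.W - 1) * rep x.W x.nb) b.k0 x.ks pts

/-- (P3) soundness of the driver -/
def SpecSweepBox : Prop :=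
  ∀ (mu : List (ℕ × ℕ × ℕ)) (C A : List (ℕ × ℕ)) (b : Box) (thr : ℕ) (x : Aux),
    PtsIn mu C A → sweepBox mu C A b thr x = true → BoxSound mu C A b thr

end Sweep

end Pool.Agent.MP_abb58c_co
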