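import Pool.Agent.Lib.MP_abb58c_co.SweepSpec

/-! MP_abb58c_co, SWEEP: geometry of one slab. -/

namespace Pool.Agent.MP_abb58c_co

namespace Sweep

/-- half of the key estimate: `e / D ≤ x / p ≤ 1` -/
theorem key_aux (D e p x : ℝ) (hD : 0 ≤ D) (he : 0 ≤ e) (hx : 0 ≤ x) (hp : 0 < p) (hxp : x ≤ p)
    (h : p * e ≤ x * D) (h0 : 0 < D ^ 2 + e ^ 2)
    (hn : (16384 : ℝ) ^ 2 * (D ^ 2 + e ^ 2) ≤ p ^ 2 + x ^ 2) :
    16384 * (D + e) ≤ p + x := by
  have heD : e ≤ D := by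
    by_contra hlt
    push Not at hlt
    have h1 : x * D ≤ p * D := mul_le_mul_of_nonneg_right hxp hD
    have h2 : p * D < p * e := mul_lt_mul_of_pos_left hlt hp
    linarith
  have h3 : 0 ≤ (x * D - p * e) * (p * D - x * e) := by
    apply mul_nonneg
    · linarith
    · have : x * e ≤ p * D := mul_le_mul hxp heD he hp.le
      linarith
  have h4 : (D + e) ^ 2 * (p ^ 2 + x ^ 2) ≤ (p + x) ^ 2 * (D ^ 2 + e ^ 2) := by nlinarith [h3]
  have h5 : (D + e) ^ 2 * ((16384 : ℝ) ^ 2 * (D ^ 2 + e ^ 2)) ≤ (p + x) ^ 2 * (D ^ 2 + e ^ 2) :=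
    (mul_le_mul_of_nonneg_left hn (sq_nonneg _)).trans h4
  have h6 : (16384 * (D + e)) ^ 2 ≤ (p + x) ^ 2 := by
    have h7 : (16384 * (D + e)) ^ 2 * (D ^ 2 + e ^ 2) ≤ (p + x) ^ 2 * (D ^ 2 + e ^ 2) := by
      calc _ = (D + e) ^ 2 * ((16384 : ℝ) ^ 2 * (D ^ 2 + e ^ 2)) := by ring
        _ ≤ _ := h5
    exact le_of_mul_le_mul_right h7 h0
  exact (pow_le_pow_iff_left₀ (by positivity) (by positivity) (by norm_num)).1 h6

/-- the key estimate: `w · u + |w × u| ≤ K / 16384` for all unit `u` in the cone of the slab -/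
theorem key (a1 b1 a2 b2 c s K : ℝ) (ha1 : 0 ≤ a1) (hb1 : 0 ≤ b1) (ha2 : 0 ≤ a2) (hb2 : 0 ≤ b2)
    (hc : 0 ≤ c) (hs : 0 ≤ s) (hu : c ^ 2 + s ^ 2 = 1)
    (h1 : 0 ≤ a1 * s - b1 * c) (h2 : 0 ≤ b2 * c - a2 * s)
    (n1 : (16384 : ℝ) ^ 2 ≤ a1 ^ 2 + b1 ^ 2) (n2 : (16384 : ℝ) ^ 2 ≤ a2 ^ 2 + b2 ^ 2)
    (hx : 0 ≤ a1 * b2 - b1 * a2)
    (hx1 : a1 * b2 - b1 * a2 ≤ (a1 + a2) * a1 + (b1 + b2) * b1)
    (hx2 : a1 * b2 - b1 * a2 ≤ (a1 + a2) * a2 + (b1 + b2) * b2)
    (hK1 : (a1 + a2) * a1 + (b1 + b2) * b1 + (a1 * b2 - b1 * a2) ≤ K)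
    (hK2 : (a1 + a2) * a2 + (b1 + b2) * b2 + (a1 * b2 - b1 * a2) ≤ K) :
    0 ≤ (a1 + a2) * c + (b1 + b2) * s ∧
    16384 * ((a1 + a2) * c + (b1 + b2) * s + |(a1 + a2) * s - (b1 + b2) * c|) ≤ K := by
  set a := a1 + a2 with ha
  set b := b1 + b2 with hb
  set D := a * c + b * s with hD
  set E := a * s - b * c with hE
  have hD0 : 0 ≤ D := by positivity
  have hDE : D ^ 2 + E ^ 2 = a ^ 2 + b ^ 2 := by
    rw [hD, hE]
    linear_combination (a ^ 2 + b ^ 2) * hu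
  have hn : (16384 : ℝ) ^ 2 ≤ a ^ 2 + b ^ 2 := by
    rw [ha, hb]
    nlinarith [mul_nonneg ha1 ha2, mul_nonneg hb1 hb2, sq_nonneg a2, sq_nonneg b2]
  have hn0 : 0 < D ^ 2 + E ^ 2 := by rw [hDE]; linarith [show (0:ℝ) < 16384 ^ 2 by norm_num]
  refine ⟨hD0, ?_⟩
  rcases le_total E 0 with h | h
  · rw [abs_of_nonpos h]
    have hp : 0 < a * a1 + b * b1 := by
      have : (0:ℝ) < 16384 ^ 2 := by norm_num
      have e1 : a * a1 + b * b1 = (a1 ^ 2 + b1 ^ 2) + (a1 * a2 + b1 * b2) := by rw [ha, hb]; ring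
      rw [e1]
      have := mul_nonneg ha1 ha2
      have := mul_nonneg hb1 hb2
      linarith
    have h3 : (a * a1 + b * b1) * (-E) ≤ (a1 * b2 - b1 * a2) * D := by
      have h4 : 0 ≤ (a1 * s - b1 * c) * (a ^ 2 + b ^ 2) := mul_nonneg h1 (by positivity)
      have e1 : (a1 * s - b1 * c) * (a ^ 2 + b ^ 2) =
          (a * a1 + b * b1) * E + (a1 * b2 - b1 * a2) * D := by
        rw [hD, hE, ha, hb]; ring
      linarith
    have hk := key_aux D (-E) (a * a1 + b * b1) (a1 * b2 - b1 * a2) hD0 (by linarith) hx hp hx1 h3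
      (by rw [neg_sq]; exact hn0) (by
        rw [neg_sq, hDE]
        have e1 : (a * a1 + b * b1) ^ 2 + (a1 * b2 - b1 * a2) ^ 2 =
            (a1 ^ 2 + b1 ^ 2) * (a ^ 2 + b ^ 2) := by rw [ha, hb]; ring
        rw [e1]
        exact mul_le_mul_of_nonneg_right n1 (by positivity))
    linarith
  · rw [abs_of_nonneg h]
    have hp : 0 < a * a2 + b * b2 := by
      have : (0:ℝ) < 16384 ^ 2 := by norm_num
      have e1 : a * a2 + b * b2 = (a2 ^ 2 + b2 ^ 2) + (a1 * a2 + b1 * b2) := by rw [ha, hb]; ring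
      rw [e1]
      have := mul_nonneg ha1 ha2
      have := mul_nonneg hb1 hb2
      linarith
    have h3 : (a * a2 + b * b2) * E ≤ (a1 * b2 - b1 * a2) * D := by
      have h4 : 0 ≤ (b2 * c - a2 * s) * (a ^ 2 + b ^ 2) := mul_nonneg h2 (by positivity)
      have e1 : (b2 * c - a2 * s) * (a ^ 2 + b ^ 2) =
          -((a * a2 + b * b2) * E) + (a1 * b2 - b1 * a2) * D := by
        rw [hD, hE, ha, hb]; ring
      linarith
    have hk := key_aux D E (a * a2 + b * b2) (a1 * b2 - b1 * a2) hD0 h hx hp hx2 h3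
      hn0 (by
        rw [hDE]
        have e1 : (a * a2 + b * b2) ^ 2 + (a1 * b2 - b1 * a2) ^ 2 =
            (a2 ^ 2 + b2 ^ 2) * (a ^ 2 + b ^ 2) := by rw [ha, hb]; ring
        rw [e1]
        exact mul_le_mul_of_nonneg_right n2 (by positivity))
    linarith

/-- inner box of the frame is inside the square -/
theorem inner (a b c s P Q H M : ℝ) (hu : c ^ 2 + s ^ 2 = 1) (hn : 0 < a ^ 2 + b ^ 2)
    (hD : 0 ≤ a * c + b * s)
    (hK : (a * c + b * s + |a * s - b * c|) * H ≤ (a ^ 2 + b ^ 2) * M)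
    (hP : |a * P + b * Q| < H) (hQ : |a * Q - b * P| < H) :
    |P * c + Q * s| < M ∧ |Q * c - P * s| < M := by
  set D := a * c + b * s with hDd
  set E := a * s - b * c with hE
  have hDE : D ^ 2 + E ^ 2 = a ^ 2 + b ^ 2 := by
    rw [hDd, hE]
    linear_combination (a ^ 2 + b ^ 2) * hu
  have hpos : 0 < D + |E| := by
    rcases hD.lt_or_eq with h | h
    · have := abs_nonneg E; linarith
    · have : E ≠ 0 := by
        rintro rfl'
        rw [← h, rfl'] at hDE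
        rw [← hDE] at hn
        norm_num at hn
      have := abs_pos.2 this
      linarith
  have key2 : ∀ x y : ℝ, |x| < H → |y| < H → |D * x + E * y| < (a ^ 2 + b ^ 2) * M := by
    intro x y hx hy
    have h1 : |D * x + E * y| ≤ D * |x| + |E| * |y| := by
      calc |D * x + E * y| ≤ |D * x| + |E * y| := abs_add_le _ _
        _ = D * |x| + |E| * |y| := by rw [abs_mul, abs_mul, abs_of_nonneg hD]
    have h2 : D * |x| + |E| * |y| < (D + |E|) * H := by
      rcases hD.lt_or_eq with h | h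
      · have h3 : D * |x| < D * H := mul_lt_mul_of_pos_left hx h
        have h4 : |E| * |y| ≤ |E| * H := mul_le_mul_of_nonneg_left hy.le (abs_nonneg _)
        linarith
      · have hE0 : 0 < |E| := by rw [← h] at hpos; linarith
        have h4 : |E| * |y| < |E| * H := mul_lt_mul_of_pos_left hy hE0
        rw [← h]
        linarith
    linarith
  constructor
  · have h1 := key2 (a * P + b * Q) (a * Q - b * P) hP hQ
    have e1 : D * (a * P + b * Q) + E * (a * Q - b * P) = (a ^ 2 + b ^ 2) * (P * c + Q * s) := by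
      rw [hDd, hE]; ring
    rw [e1, abs_mul, abs_of_pos hn] at h1
    exact lt_of_mul_lt_mul_left h1 hn.le
  · have h1 := key2 (a * Q - b * P) (-(a * P + b * Q)) hQ (by rwa [abs_neg])
    have e1 : D * (a * Q - b * P) + E * (-(a * P + b * Q)) = (a ^ 2 + b ^ 2) * (Q * c - P * s) := by
      rw [hDd, hE]; ring
    rw [e1, abs_mul, abs_of_pos hn] at h1
    exact lt_of_mul_lt_mul_left h1 hn.le

/-- the square is inside the outer box of the frame -/
theorem outer (a b c s P Q M : ℝ) (hu : c ^ 2 + s ^ 2 = 1)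
    (hD : 0 ≤ a * c + b * s)
    (hP : |P * c + Q * s| < M) (hQ : |Q * c - P * s| < M) :
    |a * P + b * Q| ≤ (a * c + b * s + |a * s - b * c|) * M ∧
    |a * Q - b * P| ≤ (a * c + b * s + |a * s - b * c|) * M := by
  set D := a * c + b * s with hDd
  set E := a * s - b * c with hE
  have key2 : ∀ x y : ℝ, |x| < M → |y| < M → |D * x + E * y| ≤ (D + |E|) * M := by
    intro x y hx hy
    have h1 : |D * x + E * y| ≤ D * |x| + |E| * |y| := by
      calc |D * x + E * y| ≤ |D * x| + |E * y| := abs_add_le _ _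
        _ = D * |x| + |E| * |y| := by rw [abs_mul, abs_mul, abs_of_nonneg hD]
    have h3 : D * |x| ≤ D * M := mul_le_mul_of_nonneg_left hx.le hD
    have h4 : |E| * |y| ≤ |E| * M := mul_le_mul_of_nonneg_left hy.le (abs_nonneg _)
    linarith
  constructor
  · have h1 := key2 (P * c + Q * s) (-(Q * c - P * s)) hP (by rwa [abs_neg])
    have e1 : D * (P * c + Q * s) + E * (-(Q * c - P * s)) = a * P + b * Q := by
      rw [hDd, hE]; linear_combination (a * P + b * Q) * hu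
    rwa [e1] at h1
  · have h1 := key2 (Q * c - P * s) (P * c + Q * s) hQ hP
    have e1 : D * (Q * c - P * s) + E * (P * c + Q * s) = a * Q - b * P := by
      rw [hDd, hE]; linear_combination (a * Q - b * P) * hu
    rwa [e1] at h1

/-- what `slabOk` says, in the reals -/
theorem slabOk_real {k k' : ℕ} (h : slabOk k k' = true) :
    let a1 : ℝ := (dir k).1
    let b1 : ℝ := (dir k).2
    let a2 : ℝ := (dir k').1
    let b2 : ℝ := (dir k').2
    (16384 : ℝ) ^ 2 ≤ a1 ^ 2 + b1 ^ 2 ∧ a1 ^ 2 + b1 ^ 2 ≤ 16386 ^ 2 ∧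
    (16384 : ℝ) ^ 2 ≤ a2 ^ 2 + b2 ^ 2 ∧ a2 ^ 2 + b2 ^ 2 ≤ 16386 ^ 2 ∧
    0 ≤ a1 * b2 - b1 * a2 ∧
    a1 * b2 - b1 * a2 ≤ (a1 + a2) * a1 + (b1 + b2) * b1 ∧
    a1 * b2 - b1 * a2 ≤ (a1 + a2) * a2 + (b1 + b2) * b2 ∧
    (a1 + a2) * a1 + (b1 + b2) * b1 + (a1 * b2 - b1 * a2) ≤ kk k k' ∧
    (a1 + a2) * a2 + (b1 + b2) * b2 + (a1 * b2 - b1 * a2) ≤ kk k k' := by
  intro a1 b1 a2 b2
  simp only [slabOk, Bool.and_eq_true, Nat.ble_eq] at h
  obtain ⟨⟨⟨⟨⟨⟨h0, h1⟩, h2⟩, h3⟩, h4⟩, h5⟩, h6⟩ := h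
  have hcr : ((cr k k' : ℕ) : ℝ) = a1 * b2 - b1 * a2 := by
    rw [cr, Nat.cast_sub h0]
    push_cast
    rfl
  have hdot1 : ((fa k k' * (dir k).1 + fb k k' * (dir k).2 : ℕ) : ℝ) =
      (a1 + a2) * a1 + (b1 + b2) * b1 := by
    simp only [fa, fb]
    push_cast
    rfl
  have hdot2 : ((fa k k' * (dir k').1 + fb k k' * (dir k').2 : ℕ) : ℝ) =
      (a1 + a2) * a2 + (b1 + b2) * b2 := by
    simp only [fa, fb]
    push_cast
    rfl
  have h3' : (16384 : ℝ) ^ 2 ≤ ((dir k).1 : ℝ) ^ 2 + ((dir k).2 : ℝ) ^ 2 := by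
    have h := (Nat.cast_le (α := ℝ)).2 h3
    push_cast at h ⊢
    linarith
  have h4' : ((dir k).1 : ℝ) ^ 2 + ((dir k).2 : ℝ) ^ 2 ≤ (16386 : ℝ) ^ 2 := by
    have h := (Nat.cast_le (α := ℝ)).2 h4
    push_cast at h ⊢
    linarith
  have h5' : (16384 : ℝ) ^ 2 ≤ ((dir k').1 : ℝ) ^ 2 + ((dir k').2 : ℝ) ^ 2 := by
    have h := (Nat.cast_le (α := ℝ)).2 h5
    push_cast at h ⊢
    linarith
  have h6' : ((dir k').1 : ℝ) ^ 2 + ((dir k').2 : ℝ) ^ 2 ≤ (16386 : ℝ) ^ 2 := by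
    have h := (Nat.cast_le (α := ℝ)).2 h6
    push_cast at h ⊢
    linarith
  refine ⟨h3', h4', h5', h6', ?_, ?_, ?_, ?_, ?_⟩
  · rw [← hcr]; positivity
  · rw [← hcr, ← hdot1]; exact_mod_cast h1
  · rw [← hcr, ← hdot2]; exact_mod_cast h2
  · rw [← hcr, ← hdot1]
    have : fa k k' * (dir k).1 + fb k k' * (dir k).2 + cr k k' ≤ kk k k' := by
      rw [kk]; exact Nat.add_le_add_right (le_max_left _ _) _
    exact_mod_cast this
  · rw [← hcr, ← hdot2]
    have : fa k k' * (dir k').1 + fb k k' * (dir k').2 + cr k k' ≤ kk k k' := by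
      rw [kk]; exact Nat.add_le_add_right (le_max_right _ _) _
    exact_mod_cast this

/-- lower bound for the shadow of a square with direction in the cone -/
theorem shadow (a1 b1 a2 b2 c s m : ℝ) (ha1 : 0 ≤ a1) (hb1 : 0 ≤ b1) (ha2 : 0 ≤ a2) (hb2 : 0 ≤ b2)
    (hc : 0 ≤ c) (hs : 0 ≤ s) (hu : c ^ 2 + s ^ 2 = 1)
    (h1 : 0 ≤ a1 * s - b1 * c) (h2 : 0 ≤ b2 * c - a2 * s)
    (n1 : a1 ^ 2 + b1 ^ 2 ≤ (16386 : ℝ) ^ 2) (n2 : a2 ^ 2 + b2 ^ 2 ≤ (16386 : ℝ) ^ 2)
    (n2' : 0 < a2 ^ 2 + b2 ^ 2)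
    (hx : 0 ≤ a1 * b2 - b1 * a2) (hm : 0 ≤ m)
    (hm1 : 16386 * m ≤ a1 + b1) (hm2 : 16386 * m ≤ a2 + b2) : m ≤ c + s := by
  -- `(c, s) = (α d1 + β d2) / x`, `x = d1 × d2`, `α = u × d2`, `β = d1 × u`
  rcases hx.lt_or_eq with hx | hx
  · have hα : 0 ≤ b2 * c - a2 * s := h2
    have hβ : 0 ≤ a1 * s - b1 * c := h1
    set α := b2 * c - a2 * s
    set β := a1 * s - b1 * c
    set x := a1 * b2 - b1 * a2
    have e1 : x * c = α * a1 + β * a2 := by simp only [α, β, x]; ring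
    have e2 : x * s = α * b1 + β * b2 := by simp only [α, β, x]; ring
    -- `x ≤ (α + β) * 16386`
    have h3 : x ^ 2 ≤ ((α + β) * 16386) ^ 2 := by
      have e3 : x ^ 2 = (α * a1 + β * a2) ^ 2 + (α * b1 + β * b2) ^ 2 := by
        rw [← e1, ← e2]
        linear_combination (- x ^ 2) * hu
      have h4 : a1 * a2 + b1 * b2 ≤ (16386 : ℝ) ^ 2 := by nlinarith [sq_nonneg (a1 - a2), sq_nonneg (b1 - b2)]
      have h5 := mul_le_mul_of_nonneg_left n1 (mul_nonneg hα hα)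
      have h6 := mul_le_mul_of_nonneg_left n2 (mul_nonneg hβ hβ)
      have h7 := mul_le_mul_of_nonneg_left h4 (mul_nonneg hα hβ)
      nlinarith
    have h4 : x ≤ (α + β) * 16386 :=
      (pow_le_pow_iff_left₀ hx.le (by positivity) (by norm_num)).1 h3
    have h5 : x * m ≤ x * (c + s) := by
      calc x * m ≤ ((α + β) * 16386) * m := mul_le_mul_of_nonneg_right h4 hm
        _ = α * (16386 * m) + β * (16386 * m) := by ring
        _ ≤ α * (a1 + b1) + β * (a2 + b2) :=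
          add_le_add (mul_le_mul_of_nonneg_left hm1 hα) (mul_le_mul_of_nonneg_left hm2 hβ)
        _ = x * (c + s) := by linear_combination - e1 - e2
    exact le_of_mul_le_mul_left h5 hx
  · -- parallel directions: `u` is parallel to `d1`
    have h3 : a1 * s - b1 * c = 0 := by
      have h4 : 0 ≤ -(a2 * (a1 * s - b1 * c)) := by
        have : a1 * (b2 * c - a2 * s) = -(a2 * (a1 * s - b1 * c)) := by
          linear_combination (-c) * hx
        rw [← this]; exact mul_nonneg ha1 h2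
      have h5 : 0 ≤ -(b2 * (a1 * s - b1 * c)) := by
        have : b1 * (b2 * c - a2 * s) = -(b2 * (a1 * s - b1 * c)) := by
          linear_combination (-s) * hx
        rw [← this]; exact mul_nonneg hb1 h2
      have h6 : 0 < a2 + b2 := by
        by_contra hcon
        have h7 : a2 = 0 := by linarith
        have h8 : b2 = 0 := by linarith
        rw [h7, h8] at n2'
        norm_num at n2'
      have h7 : (a2 + b2) * (a1 * s - b1 * c) ≤ 0 := by linarith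
      have h8 : a1 * s - b1 * c ≤ 0 := by
        by_contra hcon
        push Not at hcon
        have := mul_pos h6 hcon
        linarith
      linarith
    have e1 : (a1 + b1) ^ 2 = (a1 ^ 2 + b1 ^ 2) * (c + s) ^ 2 := by
      have e2 : (a1 + b1) * c = a1 * (c + s) := by linear_combination (-1) * h3
      have e3 : (a1 + b1) * s = b1 * (c + s) := by linear_combination h3
      calc (a1 + b1) ^ 2 = ((a1 + b1) * c) ^ 2 + ((a1 + b1) * s) ^ 2 := by
            linear_combination (-(a1 + b1) ^ 2) * hu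
        _ = _ := by rw [e2, e3]; ring
    have h4 : (16386 * m) ^ 2 ≤ (16386 * (c + s)) ^ 2 := by
      calc (16386 * m) ^ 2 ≤ (a1 + b1) ^ 2 := pow_le_pow_left₀ (by positivity) hm1 2
        _ = (a1 ^ 2 + b1 ^ 2) * (c + s) ^ 2 := e1
        _ ≤ 16386 ^ 2 * (c + s) ^ 2 := mul_le_mul_of_nonneg_right n1 (sq_nonneg _)
        _ = _ := by ring
    have h5 := (pow_le_pow_iff_left₀ (by positivity) (by positivity) (by norm_num)).1 h4
    linarith

/-- membership in the open square in scaled coordinates -/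
theorem mem_op_iff (q : Sq) (p : ℕ × ℕ) : pt p ∈ q.op ↔
    |((p.1 : ℝ) - DD * q.x) * q.c + ((p.2 : ℝ) - DD * q.y) * q.s| < DD / 2 ∧
    |((p.2 : ℝ) - DD * q.y) * q.c - ((p.1 : ℝ) - DD * q.x) * q.s| < DD / 2 := by
  have hDD : ((DD : ℕ) : ℝ) = 100000 := by norm_num [DD]
  simp only [Sq.op, pt, Set.mem_ofPred_eq, hDD]
  have e1 : ((p.1 : ℝ) - 100000 * q.x) * q.c + ((p.2 : ℝ) - 100000 * q.y) * q.s =
      100000 * (((p.1 : ℝ) / 100000 - q.x) * q.c + ((p.2 : ℝ) / 100000 - q.y) * q.s) := by ring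
  have e2 : ((p.2 : ℝ) - 100000 * q.y) * q.c - ((p.1 : ℝ) - 100000 * q.x) * q.s =
      100000 * (((p.2 : ℝ) / 100000 - q.y) * q.c - ((p.1 : ℝ) / 100000 - q.x) * q.s) := by ring
  rw [e1, e2, abs_mul, abs_mul, abs_of_pos (by norm_num : (0:ℝ) < 100000)]
  constructor
  · rintro ⟨h1, h2⟩
    constructor <;> linarith
  · rintro ⟨h1, h2⟩
    constructor <;> linarith

/-- frame coordinates of the difference -/
theorem uc_sub (a b : ℕ) (x y : ℕ) (X Y : ℝ) :
    (uc a b x y : ℝ) - (a * X + b * Y) = a * ((x : ℝ) - X) + b * ((y : ℝ) - Y) := by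
  rw [uc]; push_cast; ring

/-- frame coordinates of the difference -/
theorem vc_sub (a b : ℕ) (x y : ℕ) (X Y : ℝ) (hx : x ≤ S0) :
    (vc a b x y : ℝ) - (a * Y + b * (S0 - X)) = a * ((y : ℝ) - Y) - b * ((x : ℝ) - X) := by
  rw [vc]; push_cast [Nat.cast_sub hx]; ring

/-- geometry of one slab -/
theorem specSlab : SpecSlab := by
  intro k k' x0 x1 y0 y1 ul uh vl vh thr pts C q hok hcov hpts hC hu hcone hcont hrect hwin hqC
  obtain ⟨hc, hs, h1, h2⟩ := hcone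
  have hreal := slabOk_real hok
  simp only at hreal
  obtain ⟨n1, n1', n2, n2', hx, hx1, hx2, hK1, hK2⟩ := hreal
  have ha1 : (0:ℝ) ≤ ((dir k).1 : ℝ) := Nat.cast_nonneg _
  have hb1 : (0:ℝ) ≤ ((dir k).2 : ℝ) := Nat.cast_nonneg _
  have ha2 : (0:ℝ) ≤ ((dir k').1 : ℝ) := Nat.cast_nonneg _
  have hb2 : (0:ℝ) ≤ ((dir k').2 : ℝ) := Nat.cast_nonneg _
  obtain ⟨hD0, hkey⟩ := key _ _ _ _ q.c q.s (kk k k') ha1 hb1 ha2 hb2 hc hs hu h1 h2 n1 n2 hx hx1
    hx2 hK1 hK2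
  have hfa : ((fa k k' : ℕ) : ℝ) = (dir k).1 + (dir k').1 := by rw [fa]; push_cast; rfl
  have hfb : ((fb k k' : ℕ) : ℝ) = (dir k).2 + (dir k').2 := by rw [fb]; push_cast; rfl
  rw [← hfa, ← hfb] at hD0 hkey
  have hn2 : 0 < ((fa k k' : ℕ) : ℝ) ^ 2 + ((fb k k' : ℕ) : ℝ) ^ 2 := by
    rw [hfa, hfb]
    nlinarith [mul_nonneg ha1 ha2, mul_nonneg hb1 hb2, sq_nonneg ((dir k').1 : ℝ), sq_nonneg ((dir k').2 : ℝ)]
  have hkk : 0 < kk k k' := by
    have : (0:ℝ) < kk k k' := by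
      have h3 : (0:ℝ) < ((dir k).1 + (dir k').1) * (dir k).1 + ((dir k).2 + (dir k').2) * (dir k).2 := by
        nlinarith [mul_nonneg ha1 ha2, mul_nonneg hb1 hb2]
      linarith
    exact_mod_cast this
  -- half sizes
  have hHin : (hin k k' : ℝ) * (2 * kk k k') ≤
      (((fa k k' : ℕ) : ℝ) ^ 2 + ((fb k k' : ℕ) : ℝ) ^ 2) * 16384 * DD := by
    have h3 : hin k k' * (2 * kk k k') ≤ (fa k k' ^ 2 + fb k k' ^ 2) * 16384 * DD := by
      rw [hin]; exact Nat.div_mul_le_self _ _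
    exact_mod_cast h3
  have hHout : (DD * kk k k' : ℝ) ≤ (hout k k' : ℝ) * (2 * 16384) := by
    have h3 : DD * kk k k' ≤ hout k k' * (2 * 16384) := by
      rw [hout]
      have := Nat.lt_div_mul_add (a := DD * kk k k') (b := 2 * 16384) (by norm_num)
      omega
    exact_mod_cast h3
  have hHout' : (DD * kk k k' : ℝ) < (hout k k' : ℝ) * (2 * 16384) := by
    have h3 : DD * kk k k' < hout k k' * (2 * 16384) := by
      rw [hout]
      have := Nat.lt_div_mul_add (a := DD * kk k k') (b := 2 * 16384) (by norm_num)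
      omega
    exact_mod_cast h3
  -- container
  have hsh : ∀ m : ℝ, 0 ≤ m → 16386 * m ≤ (dir k).1 + (dir k).2 → 16386 * m ≤ (dir k').1 + (dir k').2 →
      m ≤ q.c + q.s := fun m hm0 hm1 hm2 =>
    shadow _ _ _ _ q.c q.s m ha1 hb1 ha2 hb2 hc hs hu h1 h2 n1' n2'
      (lt_of_lt_of_le (by norm_num) n2) hx hm0 hm1 hm2
  have hDD : ((DD : ℕ) : ℝ) = 100000 := by norm_num [DD]
  have hS0 : ((S0 : ℕ) : ℝ) = 387710 := by norm_num [S0]
  have hhm : (hm k k' : ℝ) ≤ DD * q.h := by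
    have h3 : (2 * hm k k' : ℝ) / 100000 ≤ q.c + q.s := by
      apply hsh _ (by positivity)
      · have h4 : hm k k' * (2 * 16386) ≤ DD * ((dir k).1 + (dir k).2) :=
          (Nat.mul_le_mul_right _ (min_le_left _ _)).trans (Nat.div_mul_le_self _ _)
        have h5 : (hm k k' : ℝ) * (2 * 16386) ≤ DD * ((dir k).1 + (dir k).2) := by exact_mod_cast h4
        rw [hDD] at h5
        linarith
      · have h4 : hm k k' * (2 * 16386) ≤ DD * ((dir k').1 + (dir k').2) :=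
          (Nat.mul_le_mul_right _ (min_le_right _ _)).trans (Nat.div_mul_le_self _ _)
        have h5 : (hm k k' : ℝ) * (2 * 16386) ≤ DD * ((dir k').1 + (dir k').2) := by exact_mod_cast h4
        rw [hDD] at h5
        linarith
    rw [Sq.h, abs_of_nonneg hc, abs_of_nonneg hs, hDD]
    linarith
  obtain ⟨hcl, hcr, hcb, hct⟩ := hcont
  rw [hDD] at hhm
  have hXY := hrect (by rw [hDD]; linarith)
    (by rw [hDD, hS0] at *; linarith) (by rw [hDD]; linarith) (by rw [hDD, hS0] at *; linarith)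
  obtain ⟨hx0, hx1', hy0, hy1⟩ := hXY
  set a : ℝ := ((fa k k' : ℕ) : ℝ) with ha
  set b : ℝ := ((fb k k' : ℕ) : ℝ) with hb
  -- points of `C` are close to the centre in the frame
  have hCU : ∀ p ∈ C, |(uc (fa k k') (fb k k') p.1 p.2 : ℝ) - (a * (DD * q.x) + b * (DD * q.y))| <
        hout k k' ∧
      |(vc (fa k k') (fb k k') p.1 p.2 : ℝ) - (a * (DD * q.y) + b * (S0 - DD * q.x))| <
        hout k k' := by
    intro p hp
    have hin := (mem_op_iff q p).1 (hqC p hp)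
    have ho := outer a b q.c q.s ((p.1 : ℝ) - DD * q.x) ((p.2 : ℝ) - DD * q.y) (DD / 2) hu hD0
      hin.1 hin.2
    rw [uc_sub, vc_sub _ _ _ _ _ _ (hC p hp)]
    have hlt : (a * q.c + b * q.s + |a * q.s - b * q.c|) * (DD / 2) < hout k k' := by
      rw [hDD] at hHout' ⊢
      linarith
    exact ⟨lt_of_le_of_lt ho.1 hlt, lt_of_le_of_lt ho.2 hlt⟩
  have hxpos : 0 ≤ q.x := by
    have : 0 ≤ q.h := by rw [Sq.h]; positivity
    linarith
  have hypos : 0 ≤ q.y := by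
    have : 0 ≤ q.h := by rw [Sq.h]; positivity
    linarith
  have hxle : DD * q.x ≤ (S0 : ℝ) := by
    have : 0 ≤ q.h := by rw [Sq.h]; positivity
    rw [hDD, hS0] at *
    linarith
  have hU0 : 0 ≤ a * (DD * q.x) + b * (DD * q.y) := by positivity
  have hV0 : 0 ≤ a * (DD * q.y) + b * (S0 - DD * q.x) := by
    have : 0 ≤ (S0 : ℝ) - DD * q.x := by linarith
    positivity
  obtain ⟨w1, w2, w3, w4⟩ := hwin _ _ hU0 hV0 hCU rfl rfl
  have hseen := hcov (DD * q.x) (DD * q.y) hx0 hx1' hy0 hy1 w1 w2 w3 w4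
  refine hseen.trans ?_
  rw [seen, wt]
  have hMem : ∀ p : ℕ × ℕ × ℕ, p ∈ pts →
      |(uc (fa k k') (fb k k') p.1 p.2.1 : ℝ) - (a * (DD * q.x) + b * (DD * q.y))| < hin k k' ∧
      |(vc (fa k k') (fb k k') p.1 p.2.1 : ℝ) - (a * (DD * q.y) + b * (S0 - DD * q.x))| < hin k k' →
      pt (p.1, p.2.1) ∈ q.op := by
    intro p hp h
    rw [uc_sub, vc_sub _ _ _ _ _ _ (hpts p hp)] at h
    rw [mem_op_iff]
    refine inner a b q.c q.s _ _ (hin k k') (DD / 2) hu hn2 hD0 ?_ h.1 h.2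
    have hH0 : (0:ℝ) ≤ hin k k' := Nat.cast_nonneg _
    have h3 : (16384 * (a * q.c + b * q.s + |a * q.s - b * q.c|)) * (hin k k' : ℝ) ≤
        kk k k' * (hin k k' : ℝ) := mul_le_mul_of_nonneg_right hkey hH0
    rw [hDD] at hHin ⊢
    linarith
  classical
  apply List.sum_le_sum
  intro p hp
  split_ifs with h3 h4 h4
  · exact le_refl _
  · exact absurd (hMem p hp h3) h4
  · exact Nat.cast_nonneg _
  · exact le_refl _

end Sweep

end Pool.Agent.MP_abb58c_co
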