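import Pool.Agent.Lib.MP_abb58c_co.SweepArith

/-! MP_abb58c_co, SWEEP: soundness of the sweep loop (P2), from the guard lemma (P1). -/

namespace Pool.Agent.MP_abb58c_co

namespace Sweep

/-- the profile of a list of active points -/
def gsum (s : SP) (act : List (ℕ × ℕ × ℕ)) : ℕ := (act.map fun p => contrib s p.2.1 p.2.2).sum

theorem gsum_cons (s : SP) (p : ℕ × ℕ × ℕ) (act : List (ℕ × ℕ × ℕ)) :
    gsum s (p :: act) = contrib s p.2.1 p.2.2 + gsum s act := by
  simp [gsum]

theorem gsum_append (s : SP) (l m : List (ℕ × ℕ × ℕ)) :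
    gsum s (l ++ m) = gsum s l + gsum s m := by
  simp [gsum]

/-- what is known about admissible parameters -/
structure Ok (s : SP) (thr tot : ℕ) : Prop where
  W1 : 1 ≤ s.W
  g1 : 1 ≤ s.g
  glen : s.g * (s.len + 1) < 2 * s.h
  x1 : s.x1 ≤ S0
  x0 : s.x0 ≤ S0
  hua : s.h ≤ s.ua
  hthr : thr ≤ 2 ^ (s.W - 1)
  htot : tot < 2 ^ (s.W - 1)
  R : s.R = rep s.W s.len
  K : s.K = (2 ^ (s.W - 1) - thr) * rep s.W s.nb
  M : s.M = 2 ^ (s.W - 1) * rep s.W s.nb

theorem ok_of_spOk {s : SP} {thr tot : ℕ} (h : spOk s thr tot = true) : Ok s thr tot := by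
  simp only [spOk, Bool.and_eq_true, Nat.ble_eq, Nat.blt_eq, Nat.beq_eq] at h
  obtain ⟨⟨⟨⟨⟨⟨⟨⟨⟨⟨h1, h2⟩, h3⟩, h4⟩, h5⟩, h6⟩, h7⟩, h8⟩, h9⟩, h10⟩, h11⟩ := h
  exact ⟨h1, h2, h3, h4, h5, h6, h7, h8, h9, h10, h11⟩

/-- weight seen from `V` by a list of points which are seen from `U` -/
noncomputable def seenV (h : ℕ) (pts : List (ℕ × ℕ × ℕ)) (V : ℝ) : ℝ :=
  open Classical in
  (pts.map fun p => if |(p.2.1 : ℝ) - V| < h then (p.2.2 : ℝ) else 0).sum

theorem seenV_append (h : ℕ) (l m : List (ℕ × ℕ × ℕ)) (V : ℝ) :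
    seenV h (l ++ m) V = seenV h l V + seenV h m V := by
  unfold seenV
  rw [List.map_append, List.sum_append]

theorem seenV_nonneg (h : ℕ) (l : List (ℕ × ℕ × ℕ)) (V : ℝ) : 0 ≤ seenV h l V := by
  unfold seenV
  apply List.sum_nonneg
  intro x hx
  obtain ⟨p, _, rfl⟩ := List.mem_map.1 hx
  split_ifs
  · exact Nat.cast_nonneg _
  · exact le_rfl

/-- use of the guard bits -/
theorem grd_sound (hG : SpecGuard) {s : SP} {thr tot : ℕ} (hs : Ok s thr tot)
    {act : List (ℕ × ℕ × ℕ)} (htot : (act.map fun p => p.2.2).sum ≤ tot)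
    {lo hi : ℕ} (hc : grd s (gsum s act) lo hi = true) {V : ℝ} (hloV : (lo : ℝ) ≤ V)
    (hhiV : V ≤ (hi : ℝ)) : (thr : ℝ) ≤ seenV s.h act V := by
  rw [grd] at hc
  simp only [Bool.and_eq_true, Nat.blt_eq, Nat.beq_eq] at hc
  obtain ⟨hj1, hm⟩ := hc
  set j0 := (lo + s.h) / s.g with hj0
  set j1 := (hi + s.h) / s.g with hj1'
  have hg : 0 < s.g := hs.g1
  have hgR : (0:ℝ) < s.g := by exact_mod_cast hg
  have hV0' : 0 ≤ V + s.h := by
    have h1 : (0:ℝ) ≤ lo := Nat.cast_nonneg _
    have h2 : (0:ℝ) ≤ s.h := Nat.cast_nonneg _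
    linarith
  set j := ⌊(V + s.h) / s.g⌋₊ with hj
  have hjle : (j : ℝ) * s.g ≤ V + s.h := by
    have := Nat.floor_le (div_nonneg hV0' hgR.le)
    rw [le_div_iff₀ hgR] at this
    exact this
  have hjlt : V + s.h < ((j : ℝ) + 1) * s.g := by
    have := Nat.lt_floor_add_one ((V + s.h) / s.g)
    rw [div_lt_iff₀ hgR] at this
    exact this
  have h0j : j0 ≤ j := by
    apply Nat.le_floor
    rw [le_div_iff₀ hgR]
    have h1 : j0 * s.g ≤ lo + s.h := Nat.div_mul_le_self _ _
    have h2 : (j0 : ℝ) * s.g ≤ lo + s.h := by exact_mod_cast h1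
    linarith
  have hjj1 : j ≤ j1 := by
    rw [hj1', Nat.le_div_iff_mul_le hg]
    have : ((j * s.g : ℕ) : ℝ) ≤ ((hi + s.h : ℕ) : ℝ) := by push_cast; linarith
    exact_mod_cast this
  have hguard := hG s.W s.len s.nb thr j0 (j1 + 1 - j0)
    (act.map fun p => (p.2.1 / s.g + 1, p.2.2)) hs.W1 hs.hthr
    (by
      rw [List.map_map]
      have : (act.map ((fun p : ℕ × ℕ => p.2) ∘ fun p : ℕ × ℕ × ℕ => (p.2.1 / s.g + 1, p.2.2))).sum =
          (act.map fun p => p.2.2).sum := rfl
      rw [this]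
      exact lt_of_le_of_lt htot hs.htot)
    (by omega)
  simp only at hguard
  have hGe : (List.map (fun p : ℕ × ℕ => (p.2 * rep s.W s.len) <<< (s.W * p.1))
      (act.map fun p => (p.2.1 / s.g + 1, p.2.2))).sum = gsum s act := by
    rw [List.map_map, gsum]
    congr 1
    apply List.map_congr_left
    intro p _
    rw [contrib, hs.R]
    rfl
  rw [hGe, ← hs.K, ← hs.M] at hguard
  have h3 := hguard hm j h0j (by omega)
  rw [List.map_map] at h3
  have h4 : (thr : ℝ) ≤ (((act.map ((fun p : ℕ × ℕ => if p.1 ≤ j ∧ j < p.1 + s.len then p.2 else 0) ∘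
      fun p : ℕ × ℕ × ℕ => (p.2.1 / s.g + 1, p.2.2))).sum : ℕ) : ℝ) := by exact_mod_cast h3
  refine h4.trans ?_
  rw [seenV]
  have hcast : (((act.map ((fun p : ℕ × ℕ => if p.1 ≤ j ∧ j < p.1 + s.len then p.2 else 0) ∘
      fun p : ℕ × ℕ × ℕ => (p.2.1 / s.g + 1, p.2.2))).sum : ℕ) : ℝ) =
      (act.map fun p : ℕ × ℕ × ℕ =>
        if p.2.1 / s.g + 1 ≤ j ∧ j < p.2.1 / s.g + 1 + s.len then (p.2.2 : ℝ) else 0).sum := by
    rw [Nat.cast_list_sum, List.map_map]
    congr 1
    apply List.map_congr_left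
    intro p _
    simp only [Function.comp_apply]
    split_ifs <;> simp
  rw [hcast]
  apply List.sum_le_sum
  intro p _
  split_ifs with h5 h6 h6
  · exact le_refl _
  · exfalso
    apply h6
    obtain ⟨h7, h8⟩ := h5
    -- `V_p < g j ≤ V + h < g (j + 1) ≤ V_p + 2 h`
    have h9 : p.2.1 < s.g * (p.2.1 / s.g + 1) := Nat.lt_mul_div_succ _ hg
    have h10 : s.g * (p.2.1 / s.g + 1) ≤ s.g * j := Nat.mul_le_mul_left _ h7
    have h11 : s.g * (j + 1) ≤ s.g * (p.2.1 / s.g + 1 + s.len) := Nat.mul_le_mul_left _ h8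
    have h12 : s.g * (p.2.1 / s.g) ≤ p.2.1 := Nat.mul_div_le _ _
    have h13 : s.g * (p.2.1 / s.g + 1 + s.len) = s.g * (p.2.1 / s.g) + s.g * (s.len + 1) := by ring
    have h14 := hs.glen
    have h15 : p.2.1 < s.g * j := by omega
    have h16 : s.g * (j + 1) < p.2.1 + 2 * s.h := by omega
    have h15' : (p.2.1 : ℝ) < s.g * j := by exact_mod_cast h15
    have h16' : (s.g : ℝ) * (j + 1) < p.2.1 + 2 * s.h := by exact_mod_cast h16
    rw [abs_lt]
    constructor <;> linarith
  · exact Nat.cast_nonneg _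
  · exact le_refl _

/-- the position `(X, Y)` is in the domain of the slab -/
structure Dom (s : SP) (X Y : ℝ) : Prop where
  hX0 : (s.x0 : ℝ) ≤ X
  hX1 : X ≤ s.x1
  hY0 : (s.y0 : ℝ) ≤ Y
  hY1 : Y ≤ s.y1
  hV0 : (s.vl : ℝ) ≤ s.a * Y + s.b * (S0 - X)
  hV1 : s.a * Y + s.b * (S0 - X) ≤ s.vh

/-- the range `[c, d]` of `V` is checked for the active points -/
def Inv (s : SP) (thr : ℕ) (act : List (ℕ × ℕ × ℕ)) (V : ℝ) (c d : ℕ) : Prop :=
  (c : ℝ) ≤ V → V ≤ d → (thr : ℝ) ≤ seenV s.h act V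

theorem inv_reset (s : SP) (thr : ℕ) (act : List (ℕ × ℕ × ℕ)) (V : ℝ) : Inv s thr act V 1 0 := by
  intro h1 h2
  exfalso
  push_cast at h1 h2
  linarith

section
variable {s : SP} {thr tot : ℕ} {act : List (ℕ × ℕ × ℕ)} {X Y : ℝ}

theorem chkS_sound (hG : SpecGuard) (hs : Ok s thr tot)
    (htot : (act.map fun p => p.2.2).sum ≤ tot) (hD : Dom s X Y)
    {A B c d : ℕ} {k : ℕ → ℕ → Bool} (hA : s.ua ≤ A) (hB : s.ua ≤ B)
    (hinv : Inv s thr act (s.a * Y + s.b * (S0 - X)) c d)
    (hc : chkS s (gsum s act) A B c d k = true) :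
    ∃ c' d', k c' d' = true ∧ Inv s thr act (s.a * Y + s.b * (S0 - X)) c' d' ∧
      ((A : ℝ) ≤ s.a * X + s.b * Y + s.h → s.a * X + s.b * Y + s.h ≤ B →
        (thr : ℝ) ≤ seenV s.h act (s.a * Y + s.b * (S0 - X))) := by
  have hrange : (A : ℝ) ≤ s.a * X + s.b * Y + s.h → s.a * X + s.b * Y + s.h ≤ B →
      ((max s.vl (vlow s.a s.b s.x1 s.y0 (A - s.h) (B - s.h)) : ℕ) : ℝ) ≤
        s.a * Y + s.b * (S0 - X) ∧
      s.a * Y + s.b * (S0 - X) ≤
        ((min s.vh (vhigh s.a s.b s.x0 s.y1 (A - s.h) (B - s.h)) : ℕ) : ℝ) := by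
    intro hU0 hU1
    have hA' : ((A - s.h : ℕ) : ℝ) ≤ s.a * X + s.b * Y := by
      rw [Nat.cast_sub (hs.hua.trans hA)]; linarith
    have hB' : s.a * X + s.b * Y ≤ ((B - s.h : ℕ) : ℝ) := by
      rw [Nat.cast_sub (hs.hua.trans hB)]; linarith
    have hlow := vlow_le hs.x1 hD.hX1 hD.hY0 hA' hB'
    have hhigh := le_vhigh hs.x0 hD.hX0 hD.hY1 hA' hB'
    constructor
    · push_cast; exact max_le hD.hV0 hlow
    · push_cast; exact le_min hD.hV1 hhigh
  rw [chkS] at hc
  set lo := max s.vl (vlow s.a s.b s.x1 s.y0 (A - s.h) (B - s.h)) with hlo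
  set hi := min s.vh (vhigh s.a s.b s.x0 s.y1 (A - s.h) (B - s.h)) with hhi
  split_ifs at hc with h1
  · refine ⟨c, d, hc, hinv, fun hU0 hU1 => ?_⟩
    obtain ⟨h2, h3⟩ := hrange hU0 hU1
    simp only [Bool.or_eq_true, Bool.and_eq_true, Nat.blt_eq, Nat.ble_eq] at h1
    rcases h1 with h1 | ⟨h1, h1'⟩
    · exfalso
      have : (hi : ℝ) < lo := by exact_mod_cast h1
      linarith
    · refine hinv ?_ ?_
      · have : (c : ℝ) ≤ lo := by exact_mod_cast h1
        linarith
      · have : (hi : ℝ) ≤ d := by exact_mod_cast h1'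
        linarith
  · rw [Bool.and_eq_true] at hc
    have hg : ∀ V : ℝ, (lo : ℝ) ≤ V → V ≤ hi → (thr : ℝ) ≤ seenV s.h act V :=
      fun V h2 h3 => grd_sound hG hs htot hc.1 h2 h3
    refine ⟨lo, hi, hc.2, hg _, fun hU0 hU1 => ?_⟩
    obtain ⟨h2, h3⟩ := hrange hU0 hU1
    exact hg _ h2 h3

theorem chkC_sound (hG : SpecGuard) (hs : Ok s thr tot)
    (htot : (act.map fun p => p.2.2).sum ≤ tot) (hD : Dom s X Y)
    {B : ℕ} {k : ℕ → ℕ → Bool} (hB : s.ua ≤ B) :
    ∀ (n A c d : ℕ), s.ua ≤ A →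
      Inv s thr act (s.a * Y + s.b * (S0 - X)) c d →
      chkC s (gsum s act) B k n A c d = true →
      ∃ c' d', k c' d' = true ∧ Inv s thr act (s.a * Y + s.b * (S0 - X)) c' d' ∧
        ((A : ℝ) ≤ s.a * X + s.b * Y + s.h → s.a * X + s.b * Y + s.h ≤ B →
          (thr : ℝ) ≤ seenV s.h act (s.a * Y + s.b * (S0 - X))) := by
  intro n
  induction n with
  | zero =>
    intro A c d hA hinv hc
    exact chkS_sound hG hs htot hD hA hB hinv hc
  | succ n ih =>
    intro A c d hA hinv hc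
    rw [chkC] at hc
    split_ifs at hc with h1
    · obtain ⟨c1, d1, h2, h3, h4⟩ := chkS_sound hG hs htot hD hA (by omega) hinv hc
      obtain ⟨c2, d2, h5, h6, h7⟩ := ih (A + s.cl) c1 d1 (by omega) h3 h2
      refine ⟨c2, d2, h5, h6, fun hU0 hU1 => ?_⟩
      rcases le_total (s.a * X + s.b * Y + s.h : ℝ) ((A + s.cl : ℕ) : ℝ) with h8 | h8
      · exact h4 hU0 h8
      · exact h7 h8 hU1
    · exact chkS_sound hG hs htot hD hA hB hinv hc

theorem seenP_append (h : ℕ) (l m : List (ℕ × ℕ × ℕ)) (U V : ℝ) :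
    seenP h (l ++ m) U V = seenP h l U V + seenP h m U V := by
  unfold seenP
  rw [List.map_append, List.sum_append]

theorem seenP_nonneg (h : ℕ) (l : List (ℕ × ℕ × ℕ)) (U V : ℝ) : 0 ≤ seenP h l U V := by
  unfold seenP
  apply List.sum_nonneg
  intro x hx
  obtain ⟨p, _, rfl⟩ := List.mem_map.1 hx
  split_ifs
  · exact Nat.cast_nonneg _
  · exact le_rfl

/-- points which are seen from `U` -/
theorem seenV_eq_seenP {h : ℕ} {act : List (ℕ × ℕ × ℕ)} {U V : ℝ}
    (hU : ∀ p ∈ act, (p.1 : ℝ) < U + h ∧ U + h < p.1 + 2 * h) :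
    seenV h act V = seenP h act U V := by
  unfold seenV seenP
  congr 1
  apply List.map_congr_left
  intro p hp
  have h1 := hU p hp
  have h2 : |(p.1 : ℝ) - U| < h := by
    rw [abs_lt]
    constructor <;> linarith
  simp only [h2, true_and]

theorem seenP_cons_le (h : ℕ) (p : ℕ × ℕ × ℕ) (m : List (ℕ × ℕ × ℕ)) (U V : ℝ) :
    seenP h m U V ≤ seenP h (p :: m) U V := by
  have h1 : seenP h (p :: m) U V = seenP h [p] U V + seenP h m U V := seenP_append h [p] m U V
  have h2 := seenP_nonneg h [p] U V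
  linarith

theorem le_seenP_of_seenV {rest : List (ℕ × ℕ × ℕ)} {t : ℝ}
    (hact : ∀ p ∈ act, (p.1 : ℝ) < s.a * X + s.b * Y + s.h ∧
      s.a * X + s.b * Y + s.h < p.1 + 2 * s.h)
    (h : t ≤ seenV s.h act (s.a * Y + s.b * (S0 - X))) :
    t ≤ seenP s.h (act ++ rest) (s.a * X + s.b * Y) (s.a * Y + s.b * (S0 - X)) := by
  rw [seenV_eq_seenP (U := s.a * X + s.b * Y) hact] at h
  rw [seenP_append]
  have h3 := seenP_nonneg s.h rest (s.a * X + s.b * Y) (s.a * Y + s.b * (S0 - X))
  linarith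

theorem sum_le_of_append {l m : List (ℕ × ℕ × ℕ)} {tot : ℕ}
    (h : ((l ++ m).map fun p => p.2.2).sum ≤ tot) : (l.map fun p => p.2.2).sum ≤ tot := by
  refine le_trans ?_ h
  rw [List.map_append, List.sum_append]
  exact Nat.le_add_right _ _

end

theorem leave_sound (hG : SpecGuard) {s : SP} {thr tot : ℕ} (hs : Ok s thr tot) (lim : ℕ)
    (k : List (ℕ × ℕ × ℕ) → ℕ → ℕ → ℕ → ℕ → Bool) (rest : List (ℕ × ℕ × ℕ))
    (hrest : ∀ p t, rest = p :: t → ¬ (p.1 + 2 * s.h ≤ lim)) {X Y : ℝ} (hD : Dom s X Y) :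
    ∀ (act : List (ℕ × ℕ × ℕ)) (prev c d : ℕ), act.Pairwise (fun p q => p.1 ≤ q.1) →
      ((act ++ rest).map fun p => p.2.2).sum ≤ tot → s.ua ≤ prev →
      (prev : ℝ) ≤ s.a * X + s.b * Y + s.h →
      (∀ p ∈ act, (p.1 : ℝ) < s.a * X + s.b * Y + s.h) →
      Inv s thr act (s.a * Y + s.b * (S0 - X)) c d →
      leave s lim k (act ++ rest) (gsum s act) prev c d = true →
      (thr : ℝ) ≤ seenP s.h (act ++ rest) (s.a * X + s.b * Y) (s.a * Y + s.b * (S0 - X)) ∨
      ∃ rem act' prev' c' d', act = rem ++ act' ∧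
        k (act' ++ rest) (gsum s act') prev' c' d' = true ∧
        (∀ p ∈ act', lim < p.1 + 2 * s.h) ∧ s.ua ≤ prev' ∧
        (prev' : ℝ) ≤ s.a * X + s.b * Y + s.h ∧
        Inv s thr act' (s.a * Y + s.b * (S0 - X)) c' d' := by
  intro act
  induction act with
  | nil =>
    intro prev c d _ _ h0 h1 _ hinv hl
    refine Or.inr ⟨[], [], prev, c, d, rfl, ?_, by simp, h0, h1, hinv⟩
    cases rest with
    | nil => exact hl
    | cons p t =>
      have := hrest p t rfl
      rw [List.nil_append, leave, if_neg this] at hl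
      exact hl
  | cons q act1 ih =>
    intro prev c d hsort htot h0 h1 hact hinv hl
    have hsort' := List.pairwise_cons.1 hsort
    have htot1 : ((act1 ++ rest).map fun p => p.2.2).sum ≤ tot := by
      refine le_trans ?_ htot
      rw [List.cons_append, List.map_cons, List.sum_cons]
      exact Nat.le_add_left _ _
    have hact1 : ∀ p ∈ act1, (p.1 : ℝ) < s.a * X + s.b * Y + s.h :=
      fun p hp => hact p (List.mem_cons_of_mem _ hp)
    -- the recursive call
    have rec1 : ∀ prev', s.ua ≤ prev' → (prev' : ℝ) ≤ s.a * X + s.b * Y + s.h →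
        leave s lim k (act1 ++ rest) (gsum s act1) prev' 1 0 = true →
        (thr : ℝ) ≤ seenP s.h (q :: act1 ++ rest) (s.a * X + s.b * Y)
            (s.a * Y + s.b * (S0 - X)) ∨
        ∃ rem act' prev' c' d', q :: act1 = rem ++ act' ∧
          k (act' ++ rest) (gsum s act') prev' c' d' = true ∧
          (∀ p ∈ act', lim < p.1 + 2 * s.h) ∧ s.ua ≤ prev' ∧
          (prev' : ℝ) ≤ s.a * X + s.b * Y + s.h ∧
          Inv s thr act' (s.a * Y + s.b * (S0 - X)) c' d' := by
      intro prev' g0 g1 g2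
      rcases ih prev' 1 0 hsort'.2 htot1 g0 g1 hact1 (inv_reset _ _ _ _) g2 with
        h | ⟨rem, act', p', c', d', e1, e2, e3, e4, e5, e6⟩
      · left
        rw [List.cons_append]
        exact h.trans (seenP_cons_le _ _ _ _ _)
      · right
        exact ⟨q :: rem, act', p', c', d', by rw [e1]; rfl, e2, e3, e4, e5, e6⟩
    rw [List.cons_append, leave] at hl
    split_ifs at hl with hq hd
    · obtain ⟨c1, d1, h4, h5, h6⟩ := chkC_sound hG hs (sum_le_of_append htot) hD
        (B := q.1 + 2 * s.h) (by omega) s.nc prev c d h0 hinv hl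
      rw [gsum_cons, Nat.add_sub_cancel_left] at h4
      rcases lt_or_ge (s.a * X + s.b * Y + s.h : ℝ) ((q.1 + 2 * s.h : ℕ) : ℝ) with h3 | h3
      · left
        refine le_seenP_of_seenV ?_ (h6 h1 h3.le)
        intro p hp
        refine ⟨hact p hp, ?_⟩
        push_cast at h3
        rcases List.mem_cons.1 hp with rfl | hp
        · exact h3
        · have h4 : (q.1 : ℝ) ≤ p.1 := by exact_mod_cast hsort'.1 p hp
          linarith
      · exact rec1 _ (by omega) h3 h4
    · rw [gsum_cons, Nat.add_sub_cancel_left] at hl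
      exact rec1 _ h0 h1 hl
    · refine Or.inr ⟨[], q :: act1, prev, c, d, rfl, hl, ?_, h0, h1, hinv⟩
      intro p hp
      rcases List.mem_cons.1 hp with rfl | hp
      · omega
      · have := hsort'.1 p hp
        omega

theorem fin_sound (hG : SpecGuard) {s : SP} {thr tot : ℕ} (hs : Ok s thr tot)
    {act rest : List (ℕ × ℕ × ℕ)}
    (hrest : ∀ p t, rest = p :: t → ¬ (p.1 + 2 * s.h ≤ s.ub)) {X Y : ℝ} (hD : Dom s X Y)
    {prev c d : ℕ} (hsort : act.Pairwise (fun p q => p.1 ≤ q.1))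
    (htot : ((act ++ rest).map fun p => p.2.2).sum ≤ tot) (h0 : s.ua ≤ prev)
    (h1 : (prev : ℝ) ≤ s.a * X + s.b * Y + s.h) (hub : s.a * X + s.b * Y + s.h ≤ s.ub)
    (hact : ∀ p ∈ act, (p.1 : ℝ) < s.a * X + s.b * Y + s.h)
    (hinv : Inv s thr act (s.a * Y + s.b * (S0 - X)) c d)
    (hl : fin s (act ++ rest) (gsum s act) prev c d = true) :
    (thr : ℝ) ≤ seenP s.h (act ++ rest) (s.a * X + s.b * Y) (s.a * Y + s.b * (S0 - X)) := by
  rw [fin] at hl
  rcases leave_sound hG hs s.ub _ rest hrest hD act prev c d hsort htot h0 h1 hact hinv hl with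
    h | ⟨rem, act', prev', c', d', e1, e2, e3, e4, e5, e6⟩
  · exact h
  · have hsum' : ((act' ++ rest).map fun p => p.2.2).sum ≤ tot := by
      refine le_trans ?_ htot
      rw [e1]
      simp only [List.map_append, List.sum_append]
      omega
    have hub' : s.ua ≤ s.ub := by
      have : (s.ua : ℝ) ≤ s.ub := by
        have : (s.ua : ℝ) ≤ prev := by exact_mod_cast h0
        linarith
      exact_mod_cast this
    obtain ⟨c1, d1, -, -, h6⟩ := chkC_sound hG hs (sum_le_of_append hsum') hD (B := s.ub) hub'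
      s.nc prev' c' d' e4 e6 e2
    have h2 := le_seenP_of_seenV (rest := rest) (s := s) (act := act') (X := X) (Y := Y)
      (fun p hp => ⟨hact p (by rw [e1]; simp [hp]), by
        have h5 := e3 p hp
        have h6 : (s.ub : ℝ) < p.1 + 2 * s.h := by exact_mod_cast h5
        linarith⟩) (h6 e5 hub)
    rw [e1, List.append_assoc, seenP_append]
    have := seenP_nonneg s.h rem (s.a * X + s.b * Y) (s.a * Y + s.b * (S0 - X))
    linarith

/-- soundness of the loop -/
theorem specLoop (hG : SpecGuard) : SpecLoop := by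
  intro s thr pts hok hsorted hloop X Y hX0 hX1 hY0 hY1 hua hub hvl hvh
  have hs := ok_of_spOk hok
  have hD : Dom s X Y := ⟨hX0, hX1, hY0, hY1, hvl, hvh⟩
  set tot := (pts.map fun p => p.2.2).sum with htot
  have hh : 0 < s.h := by
    have h1 := hs.glen
    have h2 := hs.g1
    have h3 : 0 < s.g * (s.len + 1) := Nat.mul_pos h2 (Nat.succ_pos _)
    omega
  have main : ∀ (E act : List (ℕ × ℕ × ℕ)) (prev c d : ℕ),
      (act ++ E).Pairwise (fun p q => p.1 ≤ q.1) →
      ((act ++ E).map fun p => p.2.2).sum ≤ tot → s.ua ≤ prev →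
      (prev : ℝ) ≤ s.a * X + s.b * Y + s.h →
      (∀ p ∈ act, (p.1 : ℝ) < s.a * X + s.b * Y + s.h) →
      Inv s thr act (s.a * Y + s.b * (S0 - X)) c d →
      loop s E (act ++ E) (gsum s act) prev c d = true →
      (thr : ℝ) ≤ seenP s.h (act ++ E) (s.a * X + s.b * Y) (s.a * Y + s.b * (S0 - X)) := by
    intro E
    induction E with
    | nil =>
      intro act prev c d hsort hsum hp0 hp1 hact hinv hl
      rw [loop] at hl
      refine fin_sound hG hs (by simp) hD ?_ hsum hp0 hp1 hub hact hinv hl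
      simpa using hsort
    | cons p E ih =>
      intro act prev c d hsort hsum hp0 hp1 hact hinv hl
      have hsortact : act.Pairwise (fun p q => p.1 ≤ q.1) := (List.pairwise_append.1 hsort).1
      have hinvp : ∀ act' : List (ℕ × ℕ × ℕ), ∀ c' d' : ℕ,
          Inv s thr act' (s.a * Y + s.b * (S0 - X)) c' d' →
          Inv s thr (act' ++ [p]) (s.a * Y + s.b * (S0 - X)) c' d' := by
        intro act' c' d' h g1 g2
        rw [seenV_append]
        have := seenV_nonneg s.h [p] (s.a * Y + s.b * (S0 - X))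
        have := h g1 g2
        linarith
      rw [loop] at hl
      split_ifs at hl with h1 h2
      · refine fin_sound hG hs ?_ hD hsortact hsum hp0 hp1 hub hact hinv hl
        rintro p' t ht
        cases ht
        omega
      · have e1 : act ++ p :: E = (act ++ [p]) ++ E := by simp
        have e2 : gsum s act + contrib s p.2.1 p.2.2 = gsum s (act ++ [p]) := by
          rw [gsum_append, gsum_cons]; simp [gsum]
        rw [e1, e2] at hl
        rw [e1]
        rw [e1] at hsort hsum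
        refine ih (act ++ [p]) prev c d hsort hsum hp0 hp1 ?_ (hinvp _ _ _ hinv) hl
        intro q hq
        rw [List.mem_append, List.mem_singleton] at hq
        rcases hq with hq | rfl
        · exact hact q hq
        · have : (q.1 : ℝ) < s.ua := by exact_mod_cast h2
          have : (s.ua : ℝ) ≤ prev := by exact_mod_cast hp0
          linarith
      · have hrest : ∀ p' t, p :: E = p' :: t → ¬ (p'.1 + 2 * s.h ≤ p.1) := by
          rintro p' t ht; cases ht; omega
        rcases leave_sound hG hs p.1 _ (p :: E) hrest hD act prev c d hsortact hsum hp0 hp1 hact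
          hinv hl with h | ⟨rem, act', prev', c', d', g1, g2, g3, g4, g5, g6⟩
        · exact h
        · have hsum' : ((act' ++ p :: E).map fun p => p.2.2).sum ≤ tot := by
            refine le_trans ?_ hsum
            rw [g1]
            simp only [List.map_append, List.sum_append]
            omega
          have hact' : ∀ q ∈ act', (q.1 : ℝ) < s.a * X + s.b * Y + s.h :=
            fun q hq => hact q (by rw [g1]; simp [hq])
          obtain ⟨c1, d1, f1, f2, f3⟩ := chkC_sound hG hs (sum_le_of_append hsum') hD (B := p.1)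
            (by omega) s.nc prev' c' d' g4 g6 g2
          have hfin : (thr : ℝ) ≤ seenP s.h (act' ++ p :: E) (s.a * X + s.b * Y)
              (s.a * Y + s.b * (S0 - X)) := by
            rcases le_or_gt (s.a * X + s.b * Y + s.h : ℝ) (p.1 : ℝ) with h3 | h3
            · refine le_seenP_of_seenV (fun q hq => ⟨hact' q hq, ?_⟩) (f3 g5 h3)
              have h5 := g3 q hq
              have h6 : (p.1 : ℝ) < q.1 + 2 * s.h := by exact_mod_cast h5
              linarith
            · have e1 : act' ++ p :: E = (act' ++ [p]) ++ E := by simp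
              have e2 : gsum s act' + contrib s p.2.1 p.2.2 = gsum s (act' ++ [p]) := by
                rw [gsum_append, gsum_cons]; simp [gsum]
              rw [e1, e2] at f1
              have hsort' : ((act' ++ [p]) ++ E).Pairwise (fun p q => p.1 ≤ q.1) := by
                rw [← e1]
                rw [g1, List.append_assoc] at hsort
                exact (List.pairwise_append.1 hsort).2.1
              rw [e1] at hsum' ⊢
              refine ih (act' ++ [p]) p.1 c1 d1 hsort' hsum' (by omega) h3.le ?_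
                (hinvp _ _ _ f2) f1
              intro q hq
              rw [List.mem_append, List.mem_singleton] at hq
              rcases hq with hq | rfl
              · exact hact' q hq
              · exact h3
          rw [g1, List.append_assoc, seenP_append]
          have := seenP_nonneg s.h rem (s.a * X + s.b * Y) (s.a * Y + s.b * (S0 - X))
          linarith
  have := main pts [] s.ua 1 0 (by simpa using hsorted) (by simp [htot]) le_rfl hua (by simp)
    (inv_reset _ _ _ _) (by simpa [gsum] using hloop)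
  simpa using this

end Sweep

end Pool.Agent.MP_abb58c_co
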