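import Pool.Agent.Lib.MP_abb58c_co.Tree

/-! MP_abb58c_co: a `tight` step checked label by label (one theorem for each label). -/

namespace Pool.Agent.MP_abb58c_co

/-- label number `l` of a node -/
def lab (N : Node) (l : ℕ) : Lbl :=
  match N[l]? with
  | none => ⟨[], [], []⟩
  | some n => n

/-- a `tight` step with 11 labels, checked label by label -/
theorem check_tight {μ σ : Type} {o : Ops μ σ} {tbl : List Node} {m : μ} {W M : ℕ} {N : Node}
    {t0 t1 t2 t3 t4 t5 t6 t7 t8 t9 t10 : Task σ} {t : Tree μ σ}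
    (hN : Nat.beq N.length 11 = true) (hW : Nat.beq (o.tot m) W = true)
    (hM : Nat.beq (msum [t0, t1, t2, t3, t4, t5, t6, t7, t8, t9, t10]) M = true)
    (h0 : okTask o m [] W M N [] 0 (lab N 0) t0 = true)
    (h1 : okTask o m [] W M N [] 1 (lab N 1) t1 = true)
    (h2 : okTask o m [] W M N [] 2 (lab N 2) t2 = true)
    (h3 : okTask o m [] W M N [] 3 (lab N 3) t3 = true)
    (h4 : okTask o m [] W M N [] 4 (lab N 4) t4 = true)
    (h5 : okTask o m [] W M N [] 5 (lab N 5) t5 = true)
    (h6 : okTask o m [] W M N [] 6 (lab N 6) t6 = true)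
    (h7 : okTask o m [] W M N [] 7 (lab N 7) t7 = true)
    (h8 : okTask o m [] W M N [] 8 (lab N 8) t8 = true)
    (h9 : okTask o m [] W M N [] 9 (lab N 9) t9 = true)
    (h10 : okTask o m [] W M N [] 10 (lab N 10) t10 = true)
    (hr : Tree.check o tbl t (newNode N [t0, t1, t2, t3, t4, t5, t6, t7, t8, t9, t10]) [] = true) :
    (Nat.beq N.length 11 &&
      Tree.check o tbl (.tight m [] [t0, t1, t2, t3, t4, t5, t6, t7, t8, t9, t10] t) N []) = true := by
  have hW' := Nat.beq_eq.mp hW
  have hM' := Nat.beq_eq.mp hM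
  rw [hN, Bool.true_and, Tree.check, hW', hM', hr, okFacts, Bool.and_true, Bool.and_true]
  have hL := Nat.beq_eq.mp hN
  match N, hL with
  | [n0, n1, n2, n3, n4, n5, n6, n7, n8, n9, n10], _ =>
    simp only [okTasks, lab, List.getElem?_cons_zero, List.getElem?_cons_succ, Nat.zero_add,
      Nat.reduceAdd] at *
    simp only [h0, h1, h2, h3, h4, h5, h6, h7, h8, h9, h10, Bool.and_true]

end Pool.Agent.MP_abb58c_co
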