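import Pool.Agent.Lib.MP_abb58c_co.Tree
import Pool.Agent.Lib.MP_abb58c_co.SweepArith

/-! MP_abb58c_co: the procedures of the tree checker from a sound procedure for one box
(`BoxProc`), in particular from `Sweep.sweepBox`. -/

namespace Pool.Agent.MP_abb58c_co

open Sweep Case

/-- a sound procedure for one box (points in the container) -/
def BoxProc {σ : Type}
    (sb : List (ℕ × ℕ × ℕ) → List (ℕ × ℕ) → List (ℕ × ℕ) → Box → ℕ → σ → Bool) : Prop :=
  ∀ mu C A b thr x, PtsIn mu C A → sb mu C A b thr x = true → BoxSound mu C A b thr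

/-- the abscissae are in the container -/
def xIn : List (ℕ × ℕ × ℕ) → Bool
  | [] => true
  | p :: L => Nat.ble p.1 S0 && xIn L

/-- the abscissae are in the container -/
def xIn2 : List (ℕ × ℕ) → Bool
  | [] => true
  | p :: L => Nat.ble p.1 S0 && xIn2 L

theorem xIn_sound {L : List (ℕ × ℕ × ℕ)} (h : xIn L = true) : ∀ p ∈ L, p.1 ≤ S0 := by
  induction L with
  | nil => simp
  | cons r L ih =>
    rw [xIn, Bool.and_eq_true, Nat.ble_eq] at h
    intro p hp
    rcases List.mem_cons.1 hp with rfl | hp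
    · exact h.1
    · exact ih h.2 p hp

theorem xIn2_sound {L : List (ℕ × ℕ)} (h : xIn2 L = true) : ∀ p ∈ L, p.1 ≤ S0 := by
  induction L with
  | nil => simp
  | cons r L ih =>
    rw [xIn2, Bool.and_eq_true, Nat.ble_eq] at h
    intro p hp
    rcases List.mem_cons.1 hp with rfl | hp
    · exact h.1
    · exact ih h.2 p hp

section

variable {σ : Type} (sb : List (ℕ × ℕ × ℕ) → List (ℕ × ℕ) → List (ℕ × ℕ) → Box → ℕ → σ → Bool)

/-- all jobs -/
def swAll (mu : List (ℕ × ℕ × ℕ)) (C A : List (ℕ × ℕ)) : List (Box × ℕ × σ) → Bool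
  | [] => true
  | t :: ts => sb mu C A t.1 t.2.1 t.2.2 && swAll mu C A ts

/-- Z-check: the point `z` with weight `1`, threshold `1` -/
def zAll (zx : Box → σ → σ) (mu : List (ℕ × ℕ × ℕ)) (C A : List (ℕ × ℕ)) (a : σ) :
    List Box → Bool
  | [] => true
  | b :: B => sb mu C A b 1 (zx b a) && zAll zx mu C A a B

variable {sb}

theorem swAll_sound (hsb : BoxProc sb) {mu : List (ℕ × ℕ × ℕ)} {C A : List (ℕ × ℕ)}
    (hin : PtsIn mu C A) {ts : List (Box × ℕ × σ)} (h : swAll sb mu C A ts = true) :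
    ∀ t ∈ ts, BoxSound mu C A t.1 t.2.1 := by
  induction ts with
  | nil => simp
  | cons r ts ih =>
    rw [swAll, Bool.and_eq_true] at h
    intro t ht
    rcases List.mem_cons.1 ht with rfl | ht
    · exact hsb _ _ _ _ _ _ hin h.1
    · exact ih h.2 t ht

theorem zAll_sound (hsb : BoxProc sb) {zx : Box → σ → σ} {mu : List (ℕ × ℕ × ℕ)}
    {C A : List (ℕ × ℕ)} {a : σ} (hin : PtsIn mu C A) {B : List Box}
    (h : zAll sb zx mu C A a B = true) : ∀ b ∈ B, BoxSound mu C A b 1 := by
  induction B with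
  | nil => simp
  | cons r B ih =>
    rw [zAll, Bool.and_eq_true] at h
    intro t ht
    rcases List.mem_cons.1 ht with rfl | ht
    · exact hsb _ _ _ _ _ _ hin h.1
    · exact ih h.2 t ht

end

/-- the procedures of the tree checker from a procedure for one box; `zx` adapts the data of a
Z-check to a box -/
def mkOps {μ σ : Type} (dec : μ → List (ℕ × ℕ × ℕ)) (tot : μ → ℕ)
    (sb : List (ℕ × ℕ × ℕ) → List (ℕ × ℕ) → List (ℕ × ℕ) → Box → ℕ → σ → Bool)
    (zx : Box → σ → σ) : Ops μ σ where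
  dec := dec
  tot := tot
  sw := fun m E C A ts =>
    xIn (dec m ++ E) && xIn2 C && xIn2 A && swAll sb (dec m ++ E) C A ts
  zc := fun z C A B a =>
    Nat.ble z.1 S0 && xIn2 C && xIn2 A && zAll sb zx [(z.1, z.2, 1)] C A a B

theorem mkOps_sound {μ σ : Type} {dec : μ → List (ℕ × ℕ × ℕ)} {tot : μ → ℕ}
    {sb : List (ℕ × ℕ × ℕ) → List (ℕ × ℕ) → List (ℕ × ℕ) → Box → ℕ → σ → Bool}
    {zx : Box → σ → σ} (ht : ∀ m, ((dec m).map fun p => p.2.2).sum ≤ tot m)
    (hsb : BoxProc sb) : (mkOps dec tot sb zx).Sound where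
  tot := ht
  sw := by
    intro m E C A ts h
    change (xIn (dec m ++ E) && xIn2 C && xIn2 A && swAll sb (dec m ++ E) C A ts) = true at h
    rw [Bool.and_eq_true, Bool.and_eq_true, Bool.and_eq_true] at h
    obtain ⟨⟨⟨h1, h2⟩, h3⟩, h4⟩ := h
    exact swAll_sound hsb ⟨xIn_sound h1, xIn2_sound h2, xIn2_sound h3⟩ h4
  zc := by
    intro z C A B a h
    change (Nat.ble z.1 S0 && xIn2 C && xIn2 A && zAll sb zx [(z.1, z.2, 1)] C A a B) = true at h
    rw [Bool.and_eq_true, Bool.and_eq_true, Bool.and_eq_true, Nat.ble_eq] at h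
    obtain ⟨⟨⟨h1, h2⟩, h3⟩, h4⟩ := h
    refine zsound_of_boxes (zAll_sound hsb ⟨?_, xIn2_sound h2, xIn2_sound h3⟩ h4)
    intro p hp
    rw [List.mem_singleton] at hp
    rw [hp]
    exact h1

/-- the break points strictly between `k0` and `k1`, and then `k1` -/
def cutKs (k0 k1 : ℕ) : List ℕ → List ℕ
  | [] => [k1]
  | k :: ks => cond (Nat.ble k k0) (cutKs k0 k1 ks) (cond (Nat.ble k1 k) [k1] (k :: cutKs k0 k1 ks))

/-- the break points of a Z-check, cut to the cone of the box -/
def zxAux (b : Box) (a : Aux) : Aux := { a with ks := cutKs b.k0 b.k1 a.ks }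

/-- the reference procedures: measures are lists of weighted points -/
def stdOps : Ops (List (ℕ × ℕ × ℕ)) Aux := mkOps (fun m => m) wsum sweepBox zxAux

theorem stdOps_sound (h : SpecSweepBox) : stdOps.Sound := mkOps_sound (fun _ => le_rfl) h

end Pool.Agent.MP_abb58c_co
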